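import Pool.Agent.Helper614.HE.SpecC

/-!
# Assembly of the parts
-/

set_option autoImplicit false

open scoped Manifold ContDiff Matrix ComplexOrder
open Matrix Topology MeasureTheory Set Filter

namespace Pool.Agent.Helper614.HE

theorem RL_of (hREM : T_REM) (hBOOT : T_BOOT) : T_RL := by
  intro D hD t0 ht0 A Ψ hA hΨ U X B q hU hX hB hq hb hs
  obtain ⟨B', q', h1, h2⟩ := hREM D hD t0 ht0 A Ψ hA hΨ U X B q hU hX hB hq hb hs
  obtain ⟨h3, h4, h5, h6⟩ := hBOOT D hD A Ψ hA hΨ U X B' q' h2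
  exact ⟨h3, h4, B', q', h1, h5, h6, h2⟩

theorem DEC_of (h1 : T_DEC1) (h2 : T_DEC2) (h3 : T_DEC3) : T_DEC := by
  obtain ⟨K1, hK1, h1⟩ := h1
  obtain ⟨K2, hK2, h2⟩ := h2
  obtain ⟨K3, hK3, h3⟩ := h3
  refine ⟨K1 + K2 + K3, by positivity, ?_, ?_, ?_⟩
  · intro G c hG hc hb ho
    obtain ⟨a1, a2, a3⟩ := h1 G c hG hc hb ho
    refine ⟨fun z => (a1 z).trans ?_, a2, a3⟩
    gcongr
    linarith
  · intro f c hf hc hb
    obtain ⟨a1, a2⟩ := h2 f c hf hc hb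
    refine ⟨a1, fun z => (a2 z).trans ?_⟩
    gcongr
    linarith
  · intro Q c hQ hc hb
    obtain ⟨a1, a2⟩ := h3 Q c hQ hc hb
    refine ⟨a1, fun z => (a2 z).trans ?_⟩
    gcongr
    linarith

theorem om_div_le (hOM : T_OM) (w : ℂ) : Om w / (1 + ‖w‖ ^ 2) ≤ Om w := by
  obtain ⟨-, -, -, hp, -⟩ := hOM
  exact div_le_self (hp w).le (by nlinarith [sq_nonneg ‖w‖])

theorem LOG_of (hOM : T_OM) (hKE : T_KE) (hCTB : T_CTB) (h1 : T_LOG1) (h2 : T_LOG2) : T_LOG := by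
  obtain ⟨K1, hK1, h1⟩ := h1
  obtain ⟨K2, hK2, hCTB⟩ := hCTB
  obtain ⟨K3, hK3, hKE⟩ := hKE
  refine ⟨K1, hK1, ?_⟩
  intro Q c hQ hc hb
  obtain ⟨a1, a2, a3, a4, a5⟩ := h1 Q c hQ hc hb
  have hQc : Measurable (fun w => (Q w : ℂ)) := Complex.measurable_ofReal.comp hQ
  have hb' : ∀ w, ‖(Q w : ℂ)‖ ≤ c * Om w := by
    intro w
    rw [Complex.norm_real, Real.norm_eq_abs]
    exact (hb w).trans (mul_le_mul_of_nonneg_left (om_div_le hOM w) hc)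
  obtain ⟨b1, b2, b3⟩ := hCTB (fun w => (Q w : ℂ)) c hQc hc hb'
  have hcont : Continuous (Ct (fun w => (Q w : ℂ))) := by
    rw [Metric.continuous_iff]
    intro z ε hε
    have hlim : Tendsto (fun z' : ℂ => K2 * c * ‖z' - z‖ ^ (1 / 4 : ℝ)) (𝓝 z) (𝓝 0) := by
      have h3 : Continuous (fun z' : ℂ => K2 * c * ‖z' - z‖ ^ (1 / 4 : ℝ)) := by
        refine continuous_const.mul ?_
        exact (continuous_id.sub continuous_const).norm.rpow_const (fun _ => Or.inr (by norm_num))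
      have h4 := h3.tendsto z
      simpa [Real.zero_rpow] using h4
    have h5 := (Metric.tendsto_nhds.mp hlim) ε hε
    obtain ⟨δ, hδ, h6⟩ := Metric.eventually_nhds_iff.mp h5
    refine ⟨δ, hδ, fun z' hz' => ?_⟩
    have h7 := h6 hz'
    rw [dist_zero_right, Real.norm_eq_abs] at h7
    rw [dist_eq_norm]
    exact (b3 z' z).trans_lt ((le_abs_self _).trans_lt h7)
  have hK : ∃ K : ℝ, ∀ z, (∫ w, |Q w| / ‖z - w‖) ≤ K := by
    refine ⟨c * K3, fun z => ?_⟩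
    obtain ⟨k1, k2⟩ := hKE z 1 ⟨by norm_num, by norm_num⟩
    calc (∫ w, |Q w| / ‖z - w‖) ≤ ∫ w, c * (Om w * ‖z - w‖ ^ (-(1 : ℝ))) := by
          refine integral_mono_of_nonneg (Eventually.of_forall fun w => by positivity)
            (k1.const_mul c) (Eventually.of_forall fun w => ?_)
          show |Q w| / ‖z - w‖ ≤ c * (Om w * ‖z - w‖ ^ (-(1 : ℝ)))
          rw [Real.rpow_neg_one, div_eq_mul_inv, ← mul_assoc]
          refine mul_le_mul_of_nonneg_right ?_ (by positivity)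
          exact (hb w).trans (mul_le_mul_of_nonneg_left (om_div_le hOM w) hc)
      _ = c * ∫ w, Om w * ‖z - w‖ ^ (-(1 : ℝ)) := integral_const_mul _ _
      _ ≤ c * K3 := mul_le_mul_of_nonneg_left k2 hc
  exact ⟨a1, a2, a4, h2 Q hQ b1 a3 hK hcont, a5⟩

theorem SG_of (hSB : T_SB) (hTOP : T_TOP) (hATL : T_ATL) : T_SG := by
  intro m hm
  have hB := hSB m hm
  obtain ⟨inst, h1, h2, h3, h4⟩ := hATL m hm hB
  obtain ⟨k1, k2, k3⟩ := hTOP m hm hB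
  exact ⟨inst, ⟨⟨h1, k1, k2, k3⟩, h2, h3, h4⟩⟩

theorem STAB_of (h1 : T_ST1) (h2 : T_ST2) : T_STAB := by
  intro M hM inst hB hG h r hr0 hr3 F hF
  exact ⟨-4, by norm_num, h2 M hM inst hB hG h r hr0 hr3 F (h1 M hM inst hB hG h r hr0 hr3 F hF)⟩

/-- The final statement. -/
def Final : Prop :=
  ∃ (X : Type) (_ : TopologicalSpace X) (_ : ChartedSpace ℂ X) (_ : IsClosedRiemannSurface X)
    (_ : GenusAtLeastTwo X) (E : HiggsBundle 3 X) (_ : IsStable E) (p : X) (s₁ s₂ : ℝ),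
    0 < s₁ ∧ s₁ < s₂ ∧ (∃ h₁, IsHarmonicMetric E s₁ h₁) ∧ (∃ h₂, IsHarmonicMetric E s₂ h₂) ∧
    ∀ h₁ h₂, IsHarmonicMetric E s₁ h₁ → IsHarmonicMetric E s₂ h₂ →
    ∀ ρ : OpenPartialHomeomorph X ℂ → X → ℝ, IsConformalMetric X ρ →
      ∀ i, p ∈ E.U i → ∀ e ∈ atlas ℂ X, p ∈ e.source →
        energyDensity E ρ s₂ h₂ i e p < energyDensity E ρ s₁ h₁ i e p

theorem MAIN (hEX : T_EX) (hSB : T_SB) (hSG : T_SG) (hTH : T_TH) (hHB : T_HB) (hGEN : T_GEN)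
    (hSTAB : T_STAB) (hGEO : T_GEO) (hUNQ : T_UNQ) : Final := by
  obtain ⟨M₀, hEX⟩ := hEX
  obtain ⟨σ₁, σ₂, u₁, u₂, x₁, b₁, q₁, x₂, b₂, q₂, hσ1, hσ12, hz1, hz2, hlt⟩ :=
    hEX (max M₀ 16) (le_max_left _ _)
  set M := max M₀ 16 with hMdef
  have hM16 : 16 ≤ M := le_max_right _ _
  have hB : SBasic (4 * M) := hSB (4 * M) (by omega)
  obtain ⟨inst, hG⟩ := hSG (4 * M) (by omega)
  let _ := inst
  have hP : HBProps M := hHB M (by omega) inst hB hG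
  have hst := hSTAB M (by omega) inst hB hG hP
  have hgen := hGEN M (by omega) inst hB hG
  have hσ2 : 0 < σ₂ := hσ1.trans hσ12
  obtain ⟨k₁, hk1, he1⟩ := hGEO M (by omega) inst hB hG hP σ₁ u₁ x₁ b₁ q₁ hσ1 hz1
  obtain ⟨k₂, hk2, he2⟩ := hGEO M (by omega) inst hB hG hP σ₂ u₂ x₂ b₂ q₂ hσ2 hz2
  have hMpos : (0 : ℝ) < M := by
    have : 0 < M := by omega
    exact_mod_cast this
  -- the point
  obtain ⟨y0, hy0⟩ : ∃ y0 : ℂ, y0 ^ 4 = 2 := by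
    obtain ⟨y0, hy0⟩ := IsAlgClosed.exists_pow_nat_eq (2 : ℂ) (n := 4) (by norm_num)
    exact ⟨y0, hy0⟩
  obtain ⟨p, hp, hpV, hpY⟩ := hB.surj false 1 y0 (by rw [hy0, one_pow]; norm_num)
  have hY0 : YY (4 * M) false p ≠ 0 := by
    rw [hpY]
    rintro rfl
    norm_num at hy0
  refine ⟨SX (4 * M), inferInstance, inst, hG.surface, hgen, HB M hP, hst, p, M * σ₁, M * σ₂,
    by positivity, mul_lt_mul_of_pos_left hσ12 hMpos, ⟨k₁, hk1⟩, ⟨k₂, hk2⟩, ?_⟩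
  intro h₁ h₂ hh1 hh2 ρ hρ i hi e he hpe
  have hρp : 0 < ρ e p := hρ.pos e he p hpe
  have e1 : h₁ i p = k₁ i p :=
    hUNQ M (by omega) inst hB hG hP (M * σ₁) (by positivity) h₁ k₁ hh1 hk1 i p hi
  have e2 : h₂ i p = k₂ i p :=
    hUNQ M (by omega) inst hB hG hP (M * σ₂) (by positivity) h₂ k₂ hh2 hk2 i p hi
  have e1' : energyDensity (HB M hP) ρ (M * σ₁) h₁ i e p =
      energyDensity (HB M hP) ρ (M * σ₁) k₁ i e p := by
    unfold energyDensity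
    rw [e1]
  have e2' : energyDensity (HB M hP) ρ (M * σ₂) h₂ i e p =
      energyDensity (HB M hP) ρ (M * σ₂) k₂ i e p := by
    unfold energyDensity
    rw [e2]
  rw [e1', e2', he2 p hp hpV ρ i e he hpe, he1 p hp hpV ρ i e he hpe]
  have hth : th (4 * M) false e p ≠ 0 :=
    ((hTH (4 * M) (by omega) inst hB hG e he false).2.2.1) p ⟨hp, hpe⟩ hY0
  have hth' : 0 < ‖th (4 * M) false e p‖ := norm_pos_iff.mpr hth
  have key : (M * σ₂) ^ 2 * ‖th (4 * M) false e p‖ ^ 2 * Real.exp (-2 * u₂ 1) <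
      (M * σ₁) ^ 2 * ‖th (4 * M) false e p‖ ^ 2 * Real.exp (-2 * u₁ 1) := by
    have h1 : (M * σ₂) ^ 2 * ‖th (4 * M) false e p‖ ^ 2 * Real.exp (-2 * u₂ 1) =
      (M ^ 2 * ‖th (4 * M) false e p‖ ^ 2) * (σ₂ ^ 2 * Real.exp (-2 * u₂ 1)) := by ring
    have h2 : (M * σ₁) ^ 2 * ‖th (4 * M) false e p‖ ^ 2 * Real.exp (-2 * u₁ 1) =
      (M ^ 2 * ‖th (4 * M) false e p‖ ^ 2) * (σ₁ ^ 2 * Real.exp (-2 * u₁ 1)) := by ring
    rw [h1, h2]
    exact mul_lt_mul_of_pos_left hlt (by positivity)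
  have := div_lt_div_of_pos_right (mul_lt_mul_of_pos_left key (by norm_num : (0 : ℝ) < 8)) hρp
  exact this

end Pool.Agent.Helper614.HE
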