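import Pool.Agent.Helper614.HE.SpecC
set_option autoImplicit false

open scoped Manifold ContDiff Matrix ComplexOrder
open Matrix Topology MeasureTheory Set Filter

namespace Pool.Agent.Helper614.HE.P_ALIM

open Pool.Agent.Helper614.HE



/-
PROOF OF THE TARGET IN WORDS
The first two claims are in WI. A0 = int W|f1|^2 > 0, B0 = int W|f2|^2 > 0, N0 = A0 + tau B0 >= A0. By AQ (with K from PT2, enlarged to be >= 1) |aF - pi/NF| <= K' kappa. By NLIM |NF - N0| <= C kappa, so |pi/NF - pi/N0| = pi |NF-N0|/(NF N0) <= pi C kappa K/A0. Add. a0 tau = pi/N0.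
-/
-- TARGET
theorem ALIM (hWI : T_WI) (hPT1 : T_PT1) (hPT2 : T_PT2) (hAQ : T_AQ) (hNLIM : T_NLIM) : T_ALIM := by
  obtain ⟨-, -, -, hA, hB⟩ := hWI
  refine ⟨hA, hB, ?_⟩
  intro R hR
  obtain ⟨C, hC, hN⟩ := hNLIM R hR
  obtain ⟨K, hK, hP⟩ := hPT2
  obtain ⟨K', hK', hQ⟩ := hAQ (max K 1) (le_max_right _ _)
  set A0 : ℝ := ∫ z, W z * ‖f1 z‖ ^ 2 with hA0
  set B0 : ℝ := ∫ z, W z * ‖f2 z‖ ^ 2 with hB0
  have hpi := Real.pi_pos
  refine ⟨K' + Real.pi * C * K / A0, by positivity, ?_⟩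
  intro τ hτ κ hκ w x hb hw hx
  obtain ⟨-, -, -, -, -, hN1, hN2, hB1, hB2, -⟩ := hP τ hτ κ hκ w x hb
  have hN3 := hN τ hτ κ hκ w x hb hw hx
  have hKK : K ≤ max K 1 := le_max_left _ _
  have hinv : (max K 1)⁻¹ ≤ K⁻¹ := inv_anti₀ hK hKK
  have h1 := hQ κ hκ (NF τ κ w x) ⟨hinv.trans hN1, hN2.trans hKK⟩ (BF τ κ w x) ⟨hB1, hB2.trans hKK⟩
    (NF τ κ w x) ⟨hinv.trans hN1, hN2.trans hKK⟩ (BF τ κ w x) ⟨hB1, hB2.trans hKK⟩
    (aF τ κ w x) (aF τ κ w x) rfl rfl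
  obtain ⟨-, -, -, -, h2⟩ := h1
  have hτ1 : (1 : ℝ) ≤ τ := hτ.1
  have hκ0 : (0 : ℝ) ≤ κ := hκ.1
  set N := NF τ κ w x with hNdef
  have hNpos : 0 < N := lt_of_lt_of_le (inv_pos.mpr hK) hN1
  have hN0pos : 0 < A0 + τ * B0 := by positivity
  have hN0ge : A0 ≤ A0 + τ * B0 := by
    have : 0 ≤ τ * B0 := by positivity
    linarith
  have ha0 : a0 τ = Real.pi / (A0 + τ * B0) := rfl
  have h3 : |Real.pi / N - Real.pi / (A0 + τ * B0)| ≤ Real.pi * C * K / A0 * κ := by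
    have e : Real.pi / N - Real.pi / (A0 + τ * B0)
        = Real.pi * ((A0 + τ * B0) - N) / (N * (A0 + τ * B0)) := by
      field_simp
    rw [e, abs_div, abs_mul, abs_of_pos hpi, abs_of_pos (mul_pos hNpos hN0pos), abs_sub_comm]
    rw [div_le_iff₀ (mul_pos hNpos hN0pos)]
    have h4 : 1 ≤ K * N := by
      have := mul_le_mul_of_nonneg_left hN1 hK.le
      rwa [mul_inv_cancel₀ hK.ne'] at this
    have h5 : 1 ≤ (A0 + τ * B0) / A0 := by
      rw [le_div_iff₀ hA]; linarith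
    have h6 : 1 ≤ (K * N) * ((A0 + τ * B0) / A0) := by nlinarith
    calc Real.pi * |N - (A0 + τ * B0)| ≤ Real.pi * (C * κ) := by gcongr
      _ = Real.pi * (C * κ) * 1 := by ring
      _ ≤ Real.pi * (C * κ) * ((K * N) * ((A0 + τ * B0) / A0)) := by gcongr
      _ = Real.pi * C * K / A0 * κ * (N * (A0 + τ * B0)) := by ring
  rw [ha0]
  calc |aF τ κ w x - Real.pi / (A0 + τ * B0)|
      ≤ |aF τ κ w x - Real.pi / N| + |Real.pi / N - Real.pi / (A0 + τ * B0)| := abs_sub_le _ _ _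
    _ ≤ K' * κ + Real.pi * C * K / A0 * κ := add_le_add h2 h3
    _ = (K' + Real.pi * C * K / A0) * κ := by ring

end Pool.Agent.Helper614.HE.P_ALIM
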