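import Pool.Agent.Helper614.HE.SpecC
set_option autoImplicit false

open scoped Manifold ContDiff Matrix ComplexOrder
open Matrix Topology MeasureTheory Set Filter

namespace Pool.Agent.Helper614.HE.P_AQ

open Pool.Agent.Helper614.HE




theorem AQ_root (K κ N B a : ℝ) (hK : 1 ≤ K) (hκ : κ ∈ Icc (0 : ℝ) (1 / 16)) (hN : N ∈ Icc K⁻¹ K)
    (hB : B ∈ Icc (0 : ℝ) K)
    (ha : a = 2 * Real.pi / (N + Real.sqrt (N ^ 2 + 4 * Real.pi * κ * B))) :
    ∃ S : ℝ, K⁻¹ ≤ S ∧ S ≤ 2 * K ∧ S ^ 2 = N ^ 2 + 4 * Real.pi * κ * B ∧ a * (N + S) = 2 * Real.pi ∧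
      a = 2 * Real.pi / (N + S) := by
  have hK0 : 0 < K := by linarith
  have hKi : 0 < K⁻¹ := inv_pos.2 hK0
  have hpi := Real.pi_pos
  have hpi4 : Real.pi ≤ 4 := Real.pi_le_four
  obtain ⟨hκ0, hκ1⟩ := hκ
  obtain ⟨hN0, hN1⟩ := hN
  obtain ⟨hB0, hB1⟩ := hB
  have hNpos : 0 < N := lt_of_lt_of_le hKi hN0
  have hq : 0 ≤ 4 * Real.pi * κ * B := by positivity
  have hq1 : 4 * Real.pi * κ ≤ 1 := by nlinarith
  have hq2 : 4 * Real.pi * κ * B ≤ K := by nlinarith
  have hS2 : Real.sqrt (N ^ 2 + 4 * Real.pi * κ * B) ^ 2 = N ^ 2 + 4 * Real.pi * κ * B :=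
    Real.sq_sqrt (by positivity)
  have hSN : N ≤ Real.sqrt (N ^ 2 + 4 * Real.pi * κ * B) := by
    apply Real.le_sqrt_of_sq_le
    linarith
  refine ⟨Real.sqrt (N ^ 2 + 4 * Real.pi * κ * B), hN0.trans hSN, ?_, hS2, ?_, ha⟩
  · rw [show 2 * K = Real.sqrt ((2 * K) ^ 2) from (Real.sqrt_sq (by positivity)).symm]
    apply Real.sqrt_le_sqrt
    nlinarith
  · rw [ha, div_mul_cancel₀]
    have : 0 < N + Real.sqrt (N ^ 2 + 4 * Real.pi * κ * B) := by linarith
    exact this.ne'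

-- TARGET
theorem AQ : T_AQ := by
  intro K hK
  have hK0 : 0 < K := by linarith
  have hKi : 0 < K⁻¹ := inv_pos.2 hK0
  have hKK : K * K⁻¹ = 1 := mul_inv_cancel₀ hK0.ne'
  have hpi := Real.pi_pos
  have hpi3 : 3 < Real.pi := Real.pi_gt_three
  have hpi4 : Real.pi ≤ 4 := Real.pi_le_four
  have hK2 : K ≤ K ^ 2 := by nlinarith
  have hK4 : K ≤ K ^ 4 := by
    calc K = K ^ 1 := (pow_one K).symm
      _ ≤ K ^ 4 := pow_le_pow_right₀ hK (by norm_num)
  refine ⟨16 * K ^ 4, by positivity, ?_⟩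
  intro κ hκ N hN B hB N' hN' B' hB' a a' ha ha'
  obtain ⟨S, hS0, hS1, hS2, haS, haS'⟩ := AQ_root K κ N B a hK hκ hN hB ha
  obtain ⟨T, hT0, hT1, hT2, haT, haT'⟩ := AQ_root K κ N' B' a' hK hκ hN' hB' ha'
  obtain ⟨hκ0, hκ1⟩ := hκ
  obtain ⟨hN0, hN1⟩ := hN
  obtain ⟨hB0, hB1⟩ := hB
  obtain ⟨hN0', hN1'⟩ := hN'
  obtain ⟨hB0', hB1'⟩ := hB'
  have hNpos : 0 < N := lt_of_lt_of_le hKi hN0
  have hN'pos : 0 < N' := lt_of_lt_of_le hKi hN0'
  have hSpos : 0 < S := lt_of_lt_of_le hKi hS0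
  have hTpos : 0 < T := lt_of_lt_of_le hKi hT0
  have hNS : 0 < N + S := by linarith
  have hNT : 0 < N' + T := by linarith
  have hq1 : 4 * Real.pi * κ ≤ 1 := by nlinarith
  have hapos : 0 < a := by rw [haS']; positivity
  -- bounds
  have hle : a ≤ 4 * K := by
    have h1 : a * (2 * K⁻¹) ≤ a * (N + S) := by
      apply mul_le_mul_of_nonneg_left _ hapos.le
      linarith
    rw [haS] at h1
    have h2 : K * (a * (2 * K⁻¹)) ≤ K * (2 * Real.pi) := mul_le_mul_of_nonneg_left h1 hK0.le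
    have h3 : K * (a * (2 * K⁻¹)) = 2 * a := by
      calc K * (a * (2 * K⁻¹)) = 2 * a * (K * K⁻¹) := by ring
        _ = 2 * a := by rw [hKK, mul_one]
    rw [h3] at h2
    nlinarith
  have hge : K⁻¹ ≤ a := by
    have h1 : a * (N + S) ≤ a * (3 * K) := by
      apply mul_le_mul_of_nonneg_left _ hapos.le
      linarith
    rw [haS] at h1
    have h2 : 1 ≤ a * K := by nlinarith
    calc K⁻¹ = 1 * K⁻¹ := (one_mul _).symm
      _ ≤ a * K * K⁻¹ := mul_le_mul_of_nonneg_right h2 hKi.le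
      _ = a := by rw [mul_assoc, hKK, mul_one]
  have hid : κ * B * a ^ 2 + N * a = Real.pi := by
    have h1 : 4 * Real.pi * (κ * B * a ^ 2 + N * a) = 4 * Real.pi * Real.pi := by
      have h2 : 4 * Real.pi * κ * B = S ^ 2 - N ^ 2 := by linarith
      calc 4 * Real.pi * (κ * B * a ^ 2 + N * a)
          = (4 * Real.pi * κ * B) * a ^ 2 + 2 * (2 * Real.pi) * (N * a) := by ring
        _ = (S ^ 2 - N ^ 2) * a ^ 2 + 2 * (a * (N + S)) * (N * a) := by rw [h2, haS]
        _ = (a * (N + S)) ^ 2 := by ring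
        _ = 4 * Real.pi * Real.pi := by rw [haS]; ring
    exact mul_left_cancel₀ (by positivity) h1
  refine ⟨?_, ?_, hid, ?_, ?_⟩
  · refine le_trans ?_ hge
    apply inv_anti₀ hK0
    linarith
  · linarith
  · -- Lipschitz
    set X : ℝ := |N - N'| with hX
    set Y : ℝ := |B - B'| with hY
    have hX0 : 0 ≤ X := abs_nonneg _
    have hY0 : 0 ≤ Y := abs_nonneg _
    have h1 : |S - T| * (S + T) = |(N - N') * (N + N') + 4 * Real.pi * κ * (B - B')| := by
      have h0 : (N - N') * (N + N') + 4 * Real.pi * κ * (B - B') = (S - T) * (S + T) := by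
        linear_combination hT2 - hS2
      rw [h0, abs_mul, abs_of_pos (show 0 < S + T by linarith)]
    have h2 : |(N - N') * (N + N') + 4 * Real.pi * κ * (B - B')| ≤ X * (2 * K) + Y := by
      refine (abs_add_le _ _).trans ?_
      rw [abs_mul, abs_mul]
      have h3 : |N + N'| ≤ 2 * K := by
        rw [abs_of_pos (by linarith)]; linarith
      have h4 : |4 * Real.pi * κ| ≤ 1 := by
        rw [abs_of_nonneg (by positivity)]; exact hq1
      have h5 : |N - N'| * |N + N'| ≤ X * (2 * K) := mul_le_mul_of_nonneg_left h3 hX0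
      have h6 : |4 * Real.pi * κ| * |B - B'| ≤ 1 * Y := mul_le_mul_of_nonneg_right h4 hY0
      linarith
    have h7 : |S - T| * (2 * K⁻¹) ≤ X * (2 * K) + Y := by
      refine le_trans ?_ (h1.le.trans h2)
      apply mul_le_mul_of_nonneg_left _ (abs_nonneg _)
      linarith
    have h8 : |S - T| ≤ K ^ 2 * (X + Y) := by
      have h9 : K * (|S - T| * (2 * K⁻¹)) ≤ K * (X * (2 * K) + Y) :=
        mul_le_mul_of_nonneg_left h7 hK0.le
      have h10 : K * (|S - T| * (2 * K⁻¹)) = 2 * |S - T| := by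
        calc K * (|S - T| * (2 * K⁻¹)) = 2 * |S - T| * (K * K⁻¹) := by ring
          _ = 2 * |S - T| := by rw [hKK, mul_one]
      have e1 : K * Y ≤ K ^ 2 * Y := mul_le_mul_of_nonneg_right hK2 hY0
      have e2 : 0 ≤ K ^ 2 * Y := by positivity
      have e3 : K * (X * (2 * K) + Y) = 2 * (K ^ 2 * X) + K * Y := by ring
      have e4 : K ^ 2 * (X + Y) = K ^ 2 * X + K ^ 2 * Y := by ring
      rw [h10, e3] at h9
      rw [e4]
      linarith
    have h11 : a - a' = a * a' * ((N' + T) - (N + S)) / (2 * Real.pi) := by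
      rw [eq_div_iff (by positivity)]
      calc (a - a') * (2 * Real.pi) = a * (2 * Real.pi) - a' * (2 * Real.pi) := by ring
        _ = a * (a' * (N' + T)) - a' * (a * (N + S)) := by rw [haS, haT]
        _ = a * a' * ((N' + T) - (N + S)) := by ring
    have ha'pos : 0 < a' := by rw [haT']; positivity
    have hle' : a' * (2 * K⁻¹) ≤ 2 * Real.pi := by
      rw [← haT]
      apply mul_le_mul_of_nonneg_left _ ha'pos.le
      linarith
    have hle'' : a' ≤ Real.pi * K := by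
      have h2 : K * (a' * (2 * K⁻¹)) ≤ K * (2 * Real.pi) := mul_le_mul_of_nonneg_left hle' hK0.le
      have h3 : K * (a' * (2 * K⁻¹)) = 2 * a' := by
        calc K * (a' * (2 * K⁻¹)) = 2 * a' * (K * K⁻¹) := by ring
          _ = 2 * a' := by rw [hKK, mul_one]
      rw [h3] at h2
      linarith
    have h12 : |(N' + T) - (N + S)| ≤ X + K ^ 2 * (X + Y) := by
      have : (N' + T) - (N + S) = -((N - N') + (S - T)) := by ring
      rw [this, abs_neg]
      refine (abs_add_le _ _).trans ?_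
      linarith
    rw [h11, abs_div, abs_mul, abs_of_pos (show 0 < 2 * Real.pi by positivity),
      abs_of_pos (show 0 < a * a' by positivity), div_le_iff₀ (by positivity)]
    have h13 : a * a' ≤ 4 * K * (Real.pi * K) :=
      mul_le_mul hle hle'' ha'pos.le (by positivity)
    have h14 : X + K ^ 2 * (X + Y) ≤ 2 * K ^ 2 * (X + Y) := by
      have e1 : (1 : ℝ) ≤ K ^ 2 := one_le_pow₀ hK
      have e2 : 1 * (X + Y) ≤ K ^ 2 * (X + Y) := mul_le_mul_of_nonneg_right e1 (by linarith)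
      have e4 : 2 * K ^ 2 * (X + Y) = K ^ 2 * (X + Y) + K ^ 2 * (X + Y) := by ring
      rw [e4]
      linarith
    calc a * a' * |(N' + T) - (N + S)| ≤ 4 * K * (Real.pi * K) * (2 * K ^ 2 * (X + Y)) :=
          mul_le_mul h13 (h12.trans h14) (abs_nonneg _) (by positivity)
      _ = 8 * K ^ 4 * (X + Y) * Real.pi := by ring
      _ ≤ 16 * K ^ 4 * (X + Y) * (2 * Real.pi) := by
          have e1 : 0 ≤ K ^ 4 * (X + Y) * Real.pi := by positivity
          have e2 : 16 * K ^ 4 * (X + Y) * (2 * Real.pi) =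
            8 * K ^ 4 * (X + Y) * Real.pi + 24 * (K ^ 4 * (X + Y) * Real.pi) := by ring
          rw [e2]
          linarith
  · have h1 : Real.pi / N - a = κ * B * a ^ 2 / N := by
      rw [eq_div_iff hNpos.ne', sub_mul, div_mul_cancel₀ _ hNpos.ne']
      linarith
    have h2 : |a - Real.pi / N| = κ * B * a ^ 2 / N := by
      rw [abs_sub_comm, h1, abs_of_nonneg (by positivity)]
    rw [h2, div_le_iff₀ hNpos]
    have h3 : a ^ 2 ≤ (4 * K) ^ 2 := by
      apply pow_le_pow_left₀ hapos.le hle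
    have h4 : B * a ^ 2 ≤ K * (4 * K) ^ 2 :=
      mul_le_mul hB1 h3 (by positivity) hK0.le
    have h5 : κ * (B * a ^ 2) ≤ κ * (K * (4 * K) ^ 2) := mul_le_mul_of_nonneg_left h4 hκ0
    have h6 : 1 ≤ K * N := by
      calc 1 = K * K⁻¹ := hKK.symm
        _ ≤ K * N := mul_le_mul_of_nonneg_left hN0 hK0.le
    calc κ * B * a ^ 2 = κ * (B * a ^ 2) := by ring
      _ ≤ κ * (K * (4 * K) ^ 2) := h5
      _ = 16 * K ^ 3 * κ * 1 := by ring
      _ ≤ 16 * K ^ 3 * κ * (K * N) := by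
          apply mul_le_mul_of_nonneg_left h6
          positivity
      _ = 16 * K ^ 4 * κ * N := by ring

end Pool.Agent.Helper614.HE.P_AQ
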