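import Pool.Agent.Helper614.HE.SpecC
set_option autoImplicit false

open scoped Manifold ContDiff Matrix ComplexOrder
open Matrix Topology MeasureTheory Set Filter

namespace Pool.Agent.Helper614.HE.P_ATL

open Pool.Agent.Helper614.HE



/-- the charts of the atlas, for the copy `j` -/
structure ATL_Good (m : ℕ) (j : Bool) (e : OpenPartialHomeomorph (SX m) ℂ) : Prop where
  src : e.source ⊆ UU m j
  typ : (∀ x ∈ e.source, e x = VV m j x ∧ YY m j x ≠ 0) ∨
      (∀ x ∈ e.source, e x = YY m j x ∧ VV m j x ≠ 0)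
  holV : DifferentiableOn ℂ (fun z => VV m j (e.symm z)) e.target
  holY : DifferentiableOn ℂ (fun z => YY m j (e.symm z)) e.target

theorem ATL_exists (hCHA : T_CHA) (hCHB : T_CHB) (m : ℕ) (hm : 1 ≤ m) (hS : SBasic m)
    (x : SX m) : ∃ e : OpenPartialHomeomorph (SX m) ℂ, x ∈ e.source ∧ ∃ j, ATL_Good m j e := by
  have key : ∀ j, x ∈ UU m j →
      ∃ e : OpenPartialHomeomorph (SX m) ℂ, x ∈ e.source ∧ ∃ j, ATL_Good m j e := by
    rintro j ⟨p, rfl⟩
    by_cases hp : (p : ℂ × ℂ).2 = 0
    · have hp1 : (p : ℂ × ℂ).1 ≠ 0 := by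
        intro h0
        have h1 : (p : ℂ × ℂ).2 ^ 4 = (p : ℂ × ℂ).1 ^ (4 * m) + 1 := p.2
        rw [hp, h0, zero_pow (by omega), zero_pow (by omega), zero_add] at h1
        exact zero_ne_one h1
      obtain ⟨k, hk1, hk2, hk3⟩ := hCHB m hm p hp1
      refine ⟨k.lift_openEmbedding (hS.embed j), ⟨p, hk1, rfl⟩, j, ?_, ?_, ?_, ?_⟩
      · rintro _ ⟨q, _, rfl⟩
        exact ⟨q, rfl⟩
      · right
        rintro _ ⟨q, hq, rfl⟩
        rw [k.lift_openEmbedding_apply (hS.embed j), hS.YY_inc, hS.VV_inc]
        exact hk2 q hq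
      · refine hk3.congr ?_
        intro z _
        exact hS.VV_inc j (k.symm z)
      · refine differentiableOn_id.congr ?_
        intro z hz
        have h1 := (hk2 (k.symm z) (k.map_target hz)).1
        rw [k.right_inv hz] at h1
        change YY m j (inc m j (k.symm z)) = z
        rw [hS.YY_inc]
        exact h1.symm
    · obtain ⟨k, hk1, hk2, hk3⟩ := hCHA m hm p hp
      refine ⟨k.lift_openEmbedding (hS.embed j), ⟨p, hk1, rfl⟩, j, ?_, ?_, ?_, ?_⟩
      · rintro _ ⟨q, _, rfl⟩
        exact ⟨q, rfl⟩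
      · left
        rintro _ ⟨q, hq, rfl⟩
        rw [k.lift_openEmbedding_apply (hS.embed j), hS.YY_inc, hS.VV_inc]
        exact hk2 q hq
      · refine differentiableOn_id.congr ?_
        intro z hz
        have h1 := (hk2 (k.symm z) (k.map_target hz)).1
        rw [k.right_inv hz] at h1
        change VV m j (inc m j (k.symm z)) = z
        rw [hS.VV_inc]
        exact h1.symm
      · refine hk3.congr ?_
        intro z _
        exact hS.YY_inc j (k.symm z)
  rcases hS.cover x with h | h
  · exact key false h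
  · exact key true h

theorem ATL_holo (m : ℕ) (hS : SBasic m) {j : Bool} {e : OpenPartialHomeomorph (SX m) ℂ}
    (he : ATL_Good m j e) (j' : Bool) :
    DifferentiableOn ℂ (fun z => VV m j' (e.symm z)) (e.target ∩ e.symm ⁻¹' UU m j') ∧
    DifferentiableOn ℂ (fun z => YY m j' (e.symm z)) (e.target ∩ e.symm ⁻¹' UU m j') := by
  have hsub : e.target ∩ e.symm ⁻¹' UU m j' ⊆ e.target := inter_subset_left
  by_cases hj : j' = j
  · subst hj
    exact ⟨he.holV.mono hsub, he.holY.mono hsub⟩
  · have hj' : j' = !j := by cases j <;> cases j' <;> simp_all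
    subst hj'
    have h1 : ∀ z ∈ e.target ∩ e.symm ⁻¹' UU m (!j), VV m j (e.symm z) ≠ 0 := by
      intro z hz
      exact (hS.mem_other j _ (he.src (e.map_target hz.1))).1 hz.2
    constructor
    · refine ((he.holV.mono hsub).inv h1).congr ?_
      intro z hz
      exact hS.VV_other j _ (he.src (e.map_target hz.1)) hz.2
    · refine ((he.holY.mono hsub).div ((he.holV.mono hsub).pow m)
        (fun z hz => pow_ne_zero m (h1 z hz))).congr ?_
      intro z hz
      exact hS.YY_other j _ (he.src (e.map_target hz.1)) hz.2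

-- TARGET
theorem ATL (hCHA : T_CHA) (hCHB : T_CHB) : T_ATL := by
  intro m hm hS
  choose ch hch1 hch2 using ATL_exists hCHA hCHB m hm hS
  let inst : ChartedSpace ℂ (SX m) :=
    { atlas := {e | ∃ j, ATL_Good m j e}
      chartAt := ch
      mem_chart_source := hch1
      chart_mem_atlas := hch2 }
  refine ⟨inst, ?_, ?_, ?_, ?_⟩
  · apply isManifold_of_contDiffOn
    rintro e e' ⟨j, he⟩ ⟨j', he'⟩
    simp only [modelWithCornersSelf_coe, modelWithCornersSelf_coe_symm, Function.id_comp,
      Function.comp_id, preimage_id, range_id, inter_univ]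
    have hop : IsOpen (e.symm.trans e').source := (e.symm.trans e').open_source
    have hsub : (e.symm.trans e').source ⊆ e.target ∩ e.symm ⁻¹' UU m j' := by
      intro z hz
      rw [OpenPartialHomeomorph.trans_source] at hz
      exact ⟨hz.1, he'.src hz.2⟩
    apply DifferentiableOn.contDiffOn _ hop
    rcases he'.typ with h | h
    · refine ((ATL_holo m hS he j').1.mono hsub).congr ?_
      intro z hz
      rw [OpenPartialHomeomorph.trans_source] at hz
      exact (h _ hz.2).1
    · refine ((ATL_holo m hS he j').2.mono hsub).congr ?_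
      intro z hz
      rw [OpenPartialHomeomorph.trans_source] at hz
      exact (h _ hz.2).1
  · rintro e ⟨j, he⟩
    exact ⟨j, he.src, he.typ⟩
  · rintro e ⟨j, he⟩ j'
    exact (ATL_holo m hS he j').1
  · rintro e ⟨j, he⟩ j'
    exact (ATL_holo m hS he j').2

end Pool.Agent.Helper614.HE.P_ATL
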