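import Pool.Agent.Helper614.HE.SpecC
set_option autoImplicit false

open scoped Manifold ContDiff Matrix ComplexOrder
open Matrix Topology MeasureTheory Set Filter

namespace Pool.Agent.Helper614.HE.P_BOOT

open Pool.Agent.Helper614.HE



/-
PROOF OF THE TARGET IN WORDS
Write Uc for U as a complex valued function. Claim: for all m, Uc, X, B, q are in PC D m; then BT2 gives that they are smooth (for U: the real part of a smooth function). m = 0: they are C^1 (item 2 of BT1). Step: dz Uc = q in PC m on D (item 3: equal on D), and dzb Uc = conj (dz Uc) = conj q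
since U is real valued, so Uc in PC (m+1) directly from the definition of PC. dzb X = e^U B in PC m (exp, mul), so X in PC (m+1) by BT4. conj B: dzb (conj B) = conj (dz B) = conj of conj(A)(Psi+2AX)e^{-2U}, in PC m by conj, mul, add, exp, holomorphic (items 4-8), so conj B in
PC (m+1) by BT4 and then B = conj (conj B). q: dzb q = -(B conj B e^U + A conj A e^{-U} + (Psi+2AX) conj(Psi+2AX) e^{-2U}) on D (|a|^2 = a conj a, Complex.mul_conj / normSq), in PC m, so q in PC (m+1) by BT4.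
(Real exponentials: (Real.exp x : C) = Complex.exp (x : C).)
-/

lemma BOOT_U (U : ℂ → ℝ) (t : ℂ) (h : ContDiffAt ℝ 1 U t) :
    ContDiffAt ℝ 1 (fun w => (U w : ℂ)) t ∧
      dzb (fun w => (U w : ℂ)) t = (starRingEnd ℂ) (dz (fun w => (U w : ℂ)) t) := by
  have hd : DifferentiableAt ℝ U t := h.differentiableAt one_ne_zero
  have hf : ∀ v, fderiv ℝ (fun w => (U w : ℂ)) t v = ((fderiv ℝ U t v : ℝ) : ℂ) := by
    intro v
    have h1 : HasFDerivAt (fun w => (U w : ℂ)) (Complex.ofRealCLM.comp (fderiv ℝ U t)) t :=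
      Complex.ofRealCLM.hasFDerivAt.comp t hd.hasFDerivAt
    rw [h1.fderiv]
    rfl
  refine ⟨Complex.ofRealCLM.contDiff.contDiffAt.comp t h, ?_⟩
  unfold dz dzb
  rw [hf, hf]
  have h2 : (starRingEnd ℂ) 2 = 2 := map_ofNat _ 2
  simp only [map_div₀, map_sub, map_mul, Complex.conj_I, Complex.conj_ofReal, h2]
  ring

lemma BOOT_conj (f : ℂ → ℂ) (t : ℂ) (h : ContDiffAt ℝ 1 f t) :
    ContDiffAt ℝ 1 (fun w => (starRingEnd ℂ) (f w)) t ∧
      dzb (fun w => (starRingEnd ℂ) (f w)) t = (starRingEnd ℂ) (dz f t) := by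
  have hd : DifferentiableAt ℝ f t := h.differentiableAt one_ne_zero
  have hf : ∀ v, fderiv ℝ (fun w => (starRingEnd ℂ) (f w)) t v =
      (starRingEnd ℂ) (fderiv ℝ f t v) := by
    intro v
    have h1 : HasFDerivAt (fun w => (starRingEnd ℂ) (f w))
        ((Complex.conjCLE : ℂ →L[ℝ] ℂ).comp (fderiv ℝ f t)) t :=
      (Complex.conjCLE : ℂ →L[ℝ] ℂ).hasFDerivAt.comp t hd.hasFDerivAt
    rw [h1.fderiv]
    rfl
  refine ⟨(Complex.conjCLE : ℂ →L[ℝ] ℂ).contDiff.contDiffAt.comp t h, ?_⟩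
  unfold dz dzb
  rw [hf, hf]
  have h2 : (starRingEnd ℂ) 2 = 2 := map_ofNat _ 2
  simp only [map_div₀, map_sub, map_mul, Complex.conj_I, Complex.conj_ofReal, h2]
  ring

-- TARGET
theorem BOOT (hBT1 : T_BT1) (hBT2 : T_BT2) (hBT4 : T_BT4) : T_BOOT := by
  intro D hD A Ψ hA hΨ U X B q hS
  have hUc : ∀ t ∈ D, ContDiffAt ℝ 1 (fun w => (U w : ℂ)) t := fun t ht =>
    (BOOT_U U t (hS t ht).dU).1
  have key : ∀ m, PC D m (fun w => (U w : ℂ)) ∧ PC D m X ∧ PC D m B ∧ PC D m q := by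
    intro m
    induction m with
    | zero =>
      obtain ⟨-, i2, -⟩ := hBT1 D hD 0
      exact ⟨i2 _ hUc, i2 _ fun t ht => (hS t ht).dX, i2 _ fun t ht => (hS t ht).dB,
        i2 _ fun t ht => (hS t ht).dq⟩
    | succ m ih =>
      obtain ⟨hU, hX, hB, hq⟩ := ih
      obtain ⟨-, -, i3, i4, i5, i6, i7, i8, -, -, -⟩ := hBT1 D hD m
      obtain ⟨-, -, j3, -, -, j6, -, -, -, -, -⟩ := hBT1 D hD (m + 1)
      have hconst : ∀ c : ℂ, PC D m (fun _ => c) := fun c => i7 _ (differentiableOn_const c)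
      have hexp : ∀ c : ℂ, PC D m (fun t => Complex.exp (c * (U t : ℂ))) := fun c =>
        i8 _ (i5 _ _ (hconst c) hU)
      have hP : PC D m (fun t => Ψ t + 2 * A t * X t) :=
        i4 _ _ (i7 _ hΨ) (i5 _ _ (i5 _ _ (hconst 2) (i7 _ hA)) hX)
      have hAm := i7 _ hA
      refine ⟨⟨hUc, ?_, ?_⟩, ?_, ?_, ?_⟩
      · exact i3 q _ (fun t ht => (hS t ht).eU.symm) hq
      · refine i3 (fun t => (starRingEnd ℂ) (q t)) _ (fun t ht => ?_) (i6 _ hq)
        rw [(BOOT_U U t (hS t ht).dU).2, (hS t ht).eU]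
      · refine hBT4 D hD m X (fun t ht => (hS t ht).dX) ?_
        refine i3 (fun t => Complex.exp (1 * (U t : ℂ)) * B t) _ (fun t ht => ?_)
          (i5 _ _ (hexp 1) hB)
        rw [(hS t ht).eX]
        push_cast
        rw [one_mul]
      · have h1 : PC D (m + 1) (fun t => (starRingEnd ℂ) (B t)) := by
          refine hBT4 D hD m _ (fun t ht => (BOOT_conj B t (hS t ht).dB).1) ?_
          refine i3 (fun t => (starRingEnd ℂ) ((starRingEnd ℂ) (A t) * (Ψ t + 2 * A t * X t) *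
            Complex.exp ((-2) * (U t : ℂ)))) _ (fun t ht => ?_)
            (i6 _ (i5 _ _ (i5 _ _ (i6 _ hAm) hP) (hexp (-2))))
          rw [(BOOT_conj B t (hS t ht).dB).2, (hS t ht).eB]
          push_cast
          rfl
        refine j3 _ _ (fun t _ => ?_) (j6 _ h1)
        exact Complex.conj_conj _
      · refine hBT4 D hD m q (fun t ht => (hS t ht).dq) ?_
        refine i3 (fun t => (-1) * ((B t * (starRingEnd ℂ) (B t)) * Complex.exp (1 * (U t : ℂ)) +
          (A t * (starRingEnd ℂ) (A t)) * Complex.exp ((-1) * (U t : ℂ)) +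
          ((Ψ t + 2 * A t * X t) * (starRingEnd ℂ) (Ψ t + 2 * A t * X t)) *
            Complex.exp ((-2) * (U t : ℂ)))) _ (fun t ht => ?_)
          (i5 _ _ (hconst (-1)) (i4 _ _ (i4 _ _ (i5 _ _ (i5 _ _ hB (i6 _ hB)) (hexp 1))
            (i5 _ _ (i5 _ _ hAm (i6 _ hAm)) (hexp (-1)))) (i5 _ _ (i5 _ _ hP (i6 _ hP))
              (hexp (-2)))))
        rw [(hS t ht).eq]
        simp only [Complex.mul_conj']
        push_cast
        simp only [one_mul, neg_mul]
  have hsm := fun f (h : ∀ m, PC D m f) => hBT2 D hD f h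
  refine ⟨?_, hsm _ fun m => (key m).2.1, hsm _ fun m => (key m).2.2.1, hsm _ fun m => (key m).2.2.2⟩
  have h1 := hsm _ fun m => (key m).1
  exact Complex.reCLM.contDiff.comp_contDiffOn h1

end Pool.Agent.Helper614.HE.P_BOOT
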