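import Pool.Agent.Helper614.HE.SpecC
set_option autoImplicit false

open scoped Manifold ContDiff Matrix ComplexOrder
open Matrix Topology MeasureTheory Set Filter

namespace Pool.Agent.Helper614.HE.P_BT1

open Pool.Agent.Helper614.HE



/-
PROOF OF THE TARGET IN WORDS
Basic formulas for f, g real differentiable at z: dz, dzb are additive, dz (f g) = dz f g + f dz g, the same for dzb, dz (conj f) = conj (dzb f), dzb (conj f) = conj (dz f), dz(exp f) = exp(f) dz f, dzb(exp f) = exp(f) dzb f; for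
f complex differentiable at z: dz f = deriv f, dzb f = 0. If f = g near z then dz f z = dz g z, dzb f z = dzb g z.
Level m = 0 (locally Hoelder, with exponent in (0,1) depending on the point): add: on the smaller ball of radius <= 1/2 take the smaller exponent (|w-w'| <= 1 so |w-w'|^{theta} <= |w-w'|^{theta'} for theta' <= theta). mul: locally
bounded and Hoelder. conj: isometry. exp: locally Lipschitz, f locally bounded. C^1 at z: then f is C^1 near z (ContDiffAt R 1 gives ContDiffOn on a neighbourhood), Lipschitz on a small ball of radius <= 1/2, so Hoelder with exponent 1/2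
(ContDiffAt.exists_lipschitzOnWith). The third, ninth and eleventh items are immediate. Item 7 (holomorphic) and 10 (smooth): C^1, item 2.
Induction on m: item 1: PC (m+1) f -> PC m f: m = 0 is item 2; then PC(m+2) f: dz f, dzb f in PC(m+1), so in PC m. Note that C^1 at every point of the open set D. Item 3: D is open, so dz f = dz g and dzb f = dzb g on D, induction.
add, mul (with item 1 for the factors), conj, exp (induction: dz(exp f) = exp(f) dz f in PC m by mul, since exp f in PC m by induction and item 1), each with item 3 to replace the derivative by the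
formula. Item 7: dz f = deriv f on D (holomorphic, again in PC m), dzb f = 0. Item 9: the C^1 condition is pointwise; dz f, dzb f by induction. Item 10: dz f and dzb f are smooth on D (they are (fderiv f z 1 -+ i fderiv f z i)/2).
Item 11: induction. It may be convenient to prove all items together by one induction on m, or the items one after the other, each by induction.
-/
/-- Hoelder continuity near a point. -/
def BT1_HL {E : Type} [NormedAddCommGroup E] (f : ℂ → E) (z : ℂ) : Prop :=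
  ∃ r θ L : ℝ, 0 < r ∧ 0 < θ ∧ θ < 1 ∧
      ∀ w ∈ Metric.ball z r, ∀ w' ∈ Metric.ball z r, ‖f w - f w'‖ ≤ L * ‖w - w'‖ ^ θ

theorem BT1_HL_norm {E : Type} [NormedAddCommGroup E] {f : ℂ → E} {z : ℂ} (h : BT1_HL f z) :
    ∃ r θ L : ℝ, 0 < r ∧ r ≤ 1 / 2 ∧ 0 < θ ∧ θ < 1 ∧ 0 ≤ L ∧ ∀ r' ≤ r, ∀ θ' ≤ θ,
      ∀ w ∈ Metric.ball z r', ∀ w' ∈ Metric.ball z r', ‖f w - f w'‖ ≤ L * ‖w - w'‖ ^ θ' := by
  obtain ⟨r, θ, L, hr, h0, h1, h⟩ := h
  refine ⟨min r (1 / 2), θ, |L|, by positivity, min_le_right _ _, h0, h1, abs_nonneg _, ?_⟩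
  intro r' hr' θ' hθ' w hw w' hw'
  have hwr := Metric.ball_subset_ball (hr'.trans (min_le_left _ _)) hw
  have hwr' := Metric.ball_subset_ball (hr'.trans (min_le_left _ _)) hw'
  have h2 := h w hwr w' hwr'
  have hle : ‖w - w'‖ ≤ 1 := by
    rw [← dist_eq_norm]
    rw [Metric.mem_ball] at hw hw'
    have h3 := dist_triangle_right w w' z
    have h4 := hr'.trans (min_le_right r (1 / 2))
    linarith
  rcases eq_or_lt_of_le (norm_nonneg (w - w')) with h0' | hpos
  · have hww : w = w' := sub_eq_zero.mp (norm_eq_zero.mp h0'.symm)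
    subst hww
    simp only [sub_self, norm_zero]
    exact mul_nonneg (abs_nonneg _) (Real.rpow_nonneg le_rfl _)
  · have h5 : ‖w - w'‖ ^ θ ≤ ‖w - w'‖ ^ θ' := Real.rpow_le_rpow_of_exponent_ge hpos hle hθ'
    calc ‖f w - f w'‖ ≤ L * ‖w - w'‖ ^ θ := h2
      _ ≤ |L| * ‖w - w'‖ ^ θ := mul_le_mul_of_nonneg_right (le_abs_self _) (by positivity)
      _ ≤ |L| * ‖w - w'‖ ^ θ' := mul_le_mul_of_nonneg_left h5 (abs_nonneg _)

theorem BT1_HL_cont {E : Type} [NormedAddCommGroup E] {f : ℂ → E} {z : ℂ} (h : BT1_HL f z) :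
    ContinuousAt f z := by
  obtain ⟨r, θ, L, hr, h0, h1, h⟩ := h
  have hz : z ∈ Metric.ball z r := Metric.mem_ball_self hr
  rw [ContinuousAt, tendsto_iff_norm_sub_tendsto_zero]
  have hlim : Tendsto (fun w : ℂ => L * ‖w - z‖ ^ θ) (𝓝 z) (𝓝 0) := by
    have h2 : ContinuousAt (fun w : ℂ => L * ‖w - z‖ ^ θ) z := by
      apply ContinuousAt.mul continuousAt_const
      apply ContinuousAt.rpow_const
      · fun_prop
      · right; exact h0.le
    have h3 := h2.tendsto
    simpa [Real.zero_rpow h0.ne'] using h3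
  refine squeeze_zero' (Eventually.of_forall fun _ => norm_nonneg _) ?_ hlim
  filter_upwards [Metric.ball_mem_nhds z hr] with w hw
  exact h w hw z hz

theorem BT1_HL_comp {E F : Type} [NormedAddCommGroup E] [NormedAddCommGroup F]
    {f : ℂ → E} {z : ℂ} (h : BT1_HL f z) (G : E → F) (K : NNReal) (U : Set E) (hU : U ∈ 𝓝 (f z))
    (hG : LipschitzOnWith K G U) : BT1_HL (fun w => G (f w)) z := by
  have hc := BT1_HL_cont h
  obtain ⟨r, θ, L, hr, hr2, h0, h1, hL, h⟩ := BT1_HL_norm h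
  obtain ⟨ε, hε, hball⟩ := Metric.mem_nhds_iff.mp (hc.preimage_mem_nhds hU)
  refine ⟨min r ε, θ, K * L, by positivity, h0, h1, ?_⟩
  intro w hw w' hw'
  have hwU := hball (Metric.ball_subset_ball (min_le_right _ _) hw)
  have hwU' := hball (Metric.ball_subset_ball (min_le_right _ _) hw')
  have h2 := hG.dist_le_mul _ hwU _ hwU'
  rw [dist_eq_norm, dist_eq_norm] at h2
  have h3 := h (min r ε) (min_le_left _ _) θ le_rfl w hw w' hw'
  calc ‖G (f w) - G (f w')‖ ≤ K * ‖f w - f w'‖ := h2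
    _ ≤ K * (L * ‖w - w'‖ ^ θ) := mul_le_mul_of_nonneg_left h3 K.2
    _ = K * L * ‖w - w'‖ ^ θ := by ring

theorem BT1_HL_comp1 {E F : Type} [NormedAddCommGroup E] [NormedSpace ℝ E] [NormedAddCommGroup F]
    [NormedSpace ℝ F]
    {f : ℂ → E} {z : ℂ} (h : BT1_HL f z) (G : E → F) (hG : ContDiffAt ℝ 1 G (f z)) :
    BT1_HL (fun w => G (f w)) z := by
  obtain ⟨K, t, ht, hK⟩ := hG.exists_lipschitzOnWith
  exact BT1_HL_comp h G K t ht hK

theorem BT1_HL_id (z : ℂ) : BT1_HL (fun w => w) z := by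
  refine ⟨1 / 2, 1 / 2, 1, by norm_num, by norm_num, by norm_num, ?_⟩
  intro w hw w' hw'
  have hle : ‖w - w'‖ ≤ 1 := by
    rw [← dist_eq_norm]
    rw [Metric.mem_ball] at hw hw'
    have h3 := dist_triangle_right w w' z
    linarith
  rw [one_mul]
  rcases eq_or_lt_of_le (norm_nonneg (w - w')) with h0' | hpos
  · rw [← h0']
    exact Real.rpow_nonneg le_rfl _
  · calc ‖w - w'‖ = ‖w - w'‖ ^ (1 : ℝ) := (Real.rpow_one _).symm
      _ ≤ ‖w - w'‖ ^ (1 / 2 : ℝ) := Real.rpow_le_rpow_of_exponent_ge hpos hle (by norm_num)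

theorem BT1_HL_C1 {f : ℂ → ℂ} {z : ℂ} (h : ContDiffAt ℝ 1 f z) : BT1_HL f z :=
  BT1_HL_comp1 (BT1_HL_id z) f h

theorem BT1_HL_prod {f g : ℂ → ℂ} {z : ℂ} (hf : BT1_HL f z) (hg : BT1_HL g z) :
    BT1_HL (fun w => (f w, g w)) z := by
  obtain ⟨r, θ, L, hr, hr2, h0, h1, hL, h⟩ := BT1_HL_norm hf
  obtain ⟨r', θ', L', hr', hr2', h0', h1', hL', h'⟩ := BT1_HL_norm hg
  refine ⟨min r r', min θ θ', L + L', by positivity, by positivity, lt_of_le_of_lt (min_le_left _ _) h1, ?_⟩
  intro w hw w' hw'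
  have a1 := h _ (min_le_left r r') _ (min_le_left θ θ') w hw w' hw'
  have a2 := h' _ (min_le_right r r') _ (min_le_right θ θ') w hw w' hw'
  have hx : 0 ≤ ‖w - w'‖ ^ min θ θ' := by positivity
  rw [Prod.mk_sub_mk, Prod.norm_mk]
  apply max_le
  · nlinarith [mul_nonneg hL' hx]
  · nlinarith [mul_nonneg hL hx]

theorem BT1_PC0 {D : Set ℂ} {f : ℂ → ℂ} : PC D 0 f ↔ ∀ z ∈ D, BT1_HL f z := Iff.rfl

theorem BT1_C1 {D : Set ℂ} {f : ℂ → ℂ} (h : ∀ z ∈ D, ContDiffAt ℝ 1 f z) : PC D 0 f :=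
  fun z hz => BT1_HL_C1 (h z hz)

theorem BT1_mono {D : Set ℂ} {m : ℕ} : ∀ {f : ℂ → ℂ}, PC D (m + 1) f → PC D m f := by
  induction m with
  | zero => intro f h; exact BT1_C1 h.1
  | succ m ih => intro f h; exact ⟨h.1, ih h.2.1, ih h.2.2⟩

theorem BT1_congr {D : Set ℂ} (hD : IsOpen D) {m : ℕ} : ∀ {f g : ℂ → ℂ}, (∀ z ∈ D, f z = g z) →
    PC D m f → PC D m g := by
  induction m with
  | zero =>
    intro f g hfg hf z hz
    obtain ⟨r, θ, L, hr, h0, h1, h⟩ := hf z hz
    obtain ⟨ε, hε, hball⟩ := Metric.isOpen_iff.mp hD z hz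
    refine ⟨min r ε, θ, L, by positivity, h0, h1, ?_⟩
    intro w hw w' hw'
    rw [← hfg w (hball (Metric.ball_subset_ball (min_le_right _ _) hw)),
      ← hfg w' (hball (Metric.ball_subset_ball (min_le_right _ _) hw'))]
    exact h w (Metric.ball_subset_ball (min_le_left _ _) hw) w'
      (Metric.ball_subset_ball (min_le_left _ _) hw')
  | succ m ih =>
    intro f g hfg hf
    have hev : ∀ z ∈ D, g =ᶠ[𝓝 z] f := by
      intro z hz
      filter_upwards [hD.mem_nhds hz] with w hw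
      exact (hfg w hw).symm
    refine ⟨fun z hz => (hf.1 z hz).congr_of_eventuallyEq (hev z hz), ih ?_ hf.2.1, ih ?_ hf.2.2⟩
    · intro z hz
      rw [dz, dz, (hev z hz).fderiv_eq]
    · intro z hz
      rw [dzb, dzb, (hev z hz).fderiv_eq]

theorem BT1_diff {f : ℂ → ℂ} {z : ℂ} (h : ContDiffAt ℝ 1 f z) : DifferentiableAt ℝ f z :=
  h.differentiableAt (by norm_num)

theorem BT1_add {D : Set ℂ} (hD : IsOpen D) {m : ℕ} : ∀ {f g : ℂ → ℂ}, PC D m f → PC D m g →
    PC D m (fun z => f z + g z) := by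
  induction m with
  | zero =>
    intro f g hf hg z hz
    exact BT1_HL_comp1 (BT1_HL_prod (hf z hz) (hg z hz)) (fun p : ℂ × ℂ => p.1 + p.2)
      (by fun_prop)
  | succ m ih =>
    intro f g hf hg
    refine ⟨fun z hz => (hf.1 z hz).add (hg.1 z hz), ?_, ?_⟩
    · refine BT1_congr hD ?_ (ih hf.2.1 hg.2.1)
      intro z hz
      have h1 := BT1_diff (hf.1 z hz)
      have h2 := BT1_diff (hg.1 z hz)
      simp only [dz]
      rw [fderiv_fun_add h1 h2]
      simp only [ContinuousLinearMap.add_apply]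
      ring
    · refine BT1_congr hD ?_ (ih hf.2.2 hg.2.2)
      intro z hz
      have h1 := BT1_diff (hf.1 z hz)
      have h2 := BT1_diff (hg.1 z hz)
      simp only [dzb]
      rw [fderiv_fun_add h1 h2]
      simp only [ContinuousLinearMap.add_apply]
      ring

theorem BT1_mul {D : Set ℂ} (hD : IsOpen D) {m : ℕ} : ∀ {f g : ℂ → ℂ}, PC D m f → PC D m g →
    PC D m (fun z => f z * g z) := by
  induction m with
  | zero =>
    intro f g hf hg z hz
    exact BT1_HL_comp1 (BT1_HL_prod (hf z hz) (hg z hz)) (fun p : ℂ × ℂ => p.1 * p.2)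
      (by fun_prop)
  | succ m ih =>
    intro f g hf hg
    have hf' := BT1_mono hf
    have hg' := BT1_mono hg
    refine ⟨fun z hz => (hf.1 z hz).mul (hg.1 z hz), ?_, ?_⟩
    · refine BT1_congr hD ?_ (BT1_add hD (ih hf.2.1 hg') (ih hf' hg.2.1))
      intro z hz
      have h1 := BT1_diff (hf.1 z hz)
      have h2 := BT1_diff (hg.1 z hz)
      simp only [dz]
      rw [fderiv_fun_mul h1 h2]
      simp only [ContinuousLinearMap.add_apply, ContinuousLinearMap.smul_apply, smul_eq_mul]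
      ring
    · refine BT1_congr hD ?_ (BT1_add hD (ih hf.2.2 hg') (ih hf' hg.2.2))
      intro z hz
      have h1 := BT1_diff (hf.1 z hz)
      have h2 := BT1_diff (hg.1 z hz)
      simp only [dzb]
      rw [fderiv_fun_mul h1 h2]
      simp only [ContinuousLinearMap.add_apply, ContinuousLinearMap.smul_apply, smul_eq_mul]
      ring

theorem BT1_conj_C1 (z : ℂ) : ContDiffAt ℝ 1 (fun w : ℂ => (starRingEnd ℂ) w) z :=
  Complex.conjCLE.contDiff.contDiffAt

theorem BT1_conj_fderiv {f : ℂ → ℂ} {z : ℂ} (h : DifferentiableAt ℝ f z) (v : ℂ) :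
    fderiv ℝ (fun w => (starRingEnd ℂ) (f w)) z v = (starRingEnd ℂ) (fderiv ℝ f z v) := by
  have h1 : HasFDerivAt (fun w => (starRingEnd ℂ) (f w))
      ((Complex.conjCLE : ℂ →L[ℝ] ℂ).comp (fderiv ℝ f z)) z :=
    (Complex.conjCLE : ℂ →L[ℝ] ℂ).hasFDerivAt.comp z h.hasFDerivAt
  rw [h1.fderiv]
  rfl

theorem BT1_conj {D : Set ℂ} (hD : IsOpen D) {m : ℕ} : ∀ {f : ℂ → ℂ}, PC D m f →
    PC D m (fun z => (starRingEnd ℂ) (f z)) := by
  induction m with
  | zero =>
    intro f hf z hz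
    exact BT1_HL_comp1 (hf z hz) (fun w : ℂ => (starRingEnd ℂ) w) (BT1_conj_C1 _)
  | succ m ih =>
    intro f hf
    refine ⟨fun z hz => (BT1_conj_C1 (f z)).comp z (hf.1 z hz), ?_, ?_⟩
    · refine BT1_congr hD ?_ (ih hf.2.2)
      intro z hz
      have h1 := BT1_diff (hf.1 z hz)
      simp only [dz, dzb]
      rw [BT1_conj_fderiv h1, BT1_conj_fderiv h1]
      simp only [map_div₀, map_add, map_mul, Complex.conj_I, map_ofNat]
      ring
    · refine BT1_congr hD ?_ (ih hf.2.1)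
      intro z hz
      have h1 := BT1_diff (hf.1 z hz)
      simp only [dz, dzb]
      rw [BT1_conj_fderiv h1, BT1_conj_fderiv h1]
      simp only [map_div₀, map_sub, map_mul, Complex.conj_I, map_ofNat]
      ring

theorem BT1_exp_C1 (z : ℂ) : ContDiffAt ℝ 1 Complex.exp z :=
  (Complex.contDiff_exp (𝕜 := ℝ) (n := 1)).contDiffAt

theorem BT1_exp_fderiv {f : ℂ → ℂ} {z : ℂ} (h : DifferentiableAt ℝ f z) (v : ℂ) :
    fderiv ℝ (fun w => Complex.exp (f w)) z v = Complex.exp (f z) * (fderiv ℝ f z v) := by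
  have h1 := h.hasFDerivAt.cexp
  rw [h1.fderiv]
  simp

theorem BT1_exp {D : Set ℂ} (hD : IsOpen D) {m : ℕ} : ∀ {f : ℂ → ℂ}, PC D m f →
    PC D m (fun z => Complex.exp (f z)) := by
  induction m with
  | zero =>
    intro f hf z hz
    exact BT1_HL_comp1 (hf z hz) Complex.exp (BT1_exp_C1 _)
  | succ m ih =>
    intro f hf
    have hf' := BT1_mono hf
    refine ⟨fun z hz => (BT1_exp_C1 (f z)).comp z (hf.1 z hz), ?_, ?_⟩
    · refine BT1_congr hD ?_ (BT1_mul hD (ih hf') hf.2.1)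
      intro z hz
      have h1 := BT1_diff (hf.1 z hz)
      simp only [dz]
      rw [BT1_exp_fderiv h1, BT1_exp_fderiv h1]
      ring
    · refine BT1_congr hD ?_ (BT1_mul hD (ih hf') hf.2.2)
      intro z hz
      have h1 := BT1_diff (hf.1 z hz)
      simp only [dzb]
      rw [BT1_exp_fderiv h1, BT1_exp_fderiv h1]
      ring

theorem BT1_holo_C1 {D : Set ℂ} (hD : IsOpen D) {f : ℂ → ℂ} (hf : DifferentiableOn ℂ f D) :
    ∀ z ∈ D, ContDiffAt ℝ 1 f z := by
  intro z hz
  have h1 : AnalyticAt ℂ f z := hf.analyticAt (hD.mem_nhds hz)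
  exact (h1.contDiffAt (n := 1)).restrict_scalars ℝ

theorem BT1_holo_fderiv {D : Set ℂ} (hD : IsOpen D) {f : ℂ → ℂ} (hf : DifferentiableOn ℂ f D)
    {z : ℂ} (hz : z ∈ D) (v : ℂ) : fderiv ℝ f z v = deriv f z * v := by
  have h1 : DifferentiableAt ℂ f z := hf.differentiableAt (hD.mem_nhds hz)
  have h2 := h1.hasFDerivAt.restrictScalars ℝ
  rw [h2.fderiv]
  simp only [ContinuousLinearMap.coe_restrictScalars']
  have h3 := (fderiv ℂ f z).map_smul v 1
  simp only [smul_eq_mul, mul_one] at h3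
  rw [h3, fderiv_apply_one_eq_deriv, mul_comm]

theorem BT1_holo {D : Set ℂ} (hD : IsOpen D) {m : ℕ} : ∀ {f : ℂ → ℂ}, DifferentiableOn ℂ f D →
    PC D m f := by
  induction m with
  | zero =>
    intro f hf
    exact BT1_C1 (BT1_holo_C1 hD hf)
  | succ m ih =>
    intro f hf
    refine ⟨BT1_holo_C1 hD hf, ?_, ?_⟩
    · refine BT1_congr hD ?_ (ih (hf.deriv hD))
      intro z hz
      simp only [dz]
      rw [BT1_holo_fderiv hD hf hz, BT1_holo_fderiv hD hf hz]
      have := Complex.I_mul_I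
      linear_combination (deriv f z / 2) * this
    · refine BT1_congr hD ?_ (ih (differentiableOn_const (c := (0 : ℂ))))
      intro z hz
      simp only [dzb]
      rw [BT1_holo_fderiv hD hf hz, BT1_holo_fderiv hD hf hz]
      have := Complex.I_mul_I
      linear_combination (-deriv f z / 2) * this

theorem BT1_smooth {D : Set ℂ} (hD : IsOpen D) {m : ℕ} : ∀ {f : ℂ → ℂ}, ContDiffOn ℝ ∞ f D →
    PC D m f := by
  have hC1 : ∀ {f : ℂ → ℂ}, ContDiffOn ℝ ∞ f D → ∀ z ∈ D, ContDiffAt ℝ 1 f z := by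
    intro f hf z hz
    exact (hf.contDiffAt (hD.mem_nhds hz)).of_le (by exact_mod_cast le_top)
  have hfd : ∀ {f : ℂ → ℂ}, ContDiffOn ℝ ∞ f D → ∀ v : ℂ, ContDiffOn ℝ ∞ (fun z => fderiv ℝ f z v) D := by
    intro f hf v
    have h1 : ContDiffOn ℝ ∞ (fun z => fderiv ℝ f z) D := by
      apply hf.fderiv_of_isOpen hD
      simp
    exact h1.clm_apply contDiffOn_const
  induction m with
  | zero =>
    intro f hf
    exact BT1_C1 (hC1 hf)
  | succ m ih =>
    intro f hf
    refine ⟨hC1 hf, ih ?_, ih ?_⟩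
    · exact ((hfd hf 1).sub (contDiffOn_const.mul (hfd hf Complex.I))).div_const _
    · exact ((hfd hf 1).add (contDiffOn_const.mul (hfd hf Complex.I))).div_const _

theorem BT1_local {D : Set ℂ} {m : ℕ} : ∀ {f : ℂ → ℂ},
    (∀ z ∈ D, ∃ D' : Set ℂ, IsOpen D' ∧ z ∈ D' ∧ PC D' m f) → PC D m f := by
  induction m with
  | zero =>
    intro f hf z hz
    obtain ⟨D', -, hzD', h⟩ := hf z hz
    exact h z hzD'
  | succ m ih =>
    intro f hf
    refine ⟨?_, ih ?_, ih ?_⟩
    · intro z hz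
      obtain ⟨D', -, hzD', h⟩ := hf z hz
      exact h.1 z hzD'
    · intro z hz
      obtain ⟨D', hD', hzD', h⟩ := hf z hz
      exact ⟨D', hD', hzD', h.2.1⟩
    · intro z hz
      obtain ⟨D', hD', hzD', h⟩ := hf z hz
      exact ⟨D', hD', hzD', h.2.2⟩

theorem BT1_restrict {D D' : Set ℂ} (hDD : D' ⊆ D) {m : ℕ} : ∀ {f : ℂ → ℂ}, PC D m f →
    PC D' m f := by
  induction m with
  | zero =>
    intro f hf z hz
    exact hf z (hDD hz)
  | succ m ih =>
    intro f hf
    exact ⟨fun z hz => hf.1 z (hDD hz), ih hf.2.1, ih hf.2.2⟩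

-- TARGET
theorem BT1 : T_BT1 := by
  intro D hD m
  exact ⟨fun f h => BT1_mono h, fun f h => BT1_C1 h, fun f g h hf => BT1_congr hD h hf,
    fun f g hf hg => BT1_add hD hf hg, fun f g hf hg => BT1_mul hD hf hg, fun f hf => BT1_conj hD hf,
    fun f hf => BT1_holo hD hf, fun f hf => BT1_exp hD hf, fun f hf => BT1_local hf,
    fun f hf => BT1_smooth hD hf, fun f D' _ hDD hf => BT1_restrict hDD hf⟩

end Pool.Agent.Helper614.HE.P_BT1
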