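import Pool.Agent.Helper614.HE.SpecC
set_option autoImplicit false

open scoped Manifold ContDiff Matrix ComplexOrder
open Matrix Topology MeasureTheory Set Filter

namespace Pool.Agent.Helper614.HE.P_BT2

open Pool.Agent.Helper614.HE



/-
PROOF OF THE TARGET IN WORDS
For f real differentiable at z: fderiv R f z v = dz f z * v + dzb f z * conj v (as fderiv is R-linear, v = Re v * 1 + Im v * i). Claim by induction on m: PC D m f (for D open) implies ContDiffOn R m f D (or ContDiffOn R m for all functions in the class).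
m = 0: locally Hoelder implies continuous. m + 1: f is C^1 on D (differentiable), dz f, dzb f are ContDiffOn m by induction, so z -> fderiv R f z is ContDiffOn m on D as it is a combination of fixed continuous linear maps with these
coefficients; then contDiffOn_succ_iff_fderiv_of_isOpen. Finally contDiffOn_infty.
-/
-- TARGET
theorem BT2_fderiv (f : ℂ → ℂ) (z : ℂ) :
    fderiv ℝ f z = (dz f z) • (Complex.ofRealCLM.comp Complex.reCLM + Complex.I • Complex.ofRealCLM.comp Complex.imCLM)
      + (dzb f z) • (Complex.ofRealCLM.comp Complex.reCLM - Complex.I • Complex.ofRealCLM.comp Complex.imCLM) := by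
  ext v
  have hv : v = (v.re) • (1 : ℂ) + (v.im) • Complex.I := by
    rw [Complex.real_smul, Complex.real_smul, mul_one]
    exact (Complex.re_add_im v).symm
  have h1 : fderiv ℝ f z v = (v.re : ℂ) * fderiv ℝ f z 1 + (v.im : ℂ) * fderiv ℝ f z Complex.I := by
    conv_lhs => rw [hv]
    rw [map_add, map_smul, map_smul, Complex.real_smul, Complex.real_smul]
  rw [h1]
  simp only [_root_.add_apply, _root_.smul_apply,
    _root_.sub_apply, ContinuousLinearMap.comp_apply, Complex.reCLM_apply,
    Complex.imCLM_apply, Complex.ofRealCLM_apply, smul_eq_mul, dz, dzb]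
  linear_combination ((v.im : ℂ) * fderiv ℝ f z Complex.I) * Complex.I_sq

theorem BT2_aux (D : Set ℂ) (hD : IsOpen D) (m : ℕ) :
    ∀ f : ℂ → ℂ, PC D m f → ContDiffOn ℝ m f D := by
  induction m with
  | zero =>
    intro f hf
    rw [Nat.cast_zero, contDiffOn_zero]
    intro z hz
    obtain ⟨r, θ, L, hr, hθ, -, hL⟩ := hf z hz
    refine ContinuousAt.continuousWithinAt ?_
    rw [Metric.continuousAt_iff]
    intro ε hε
    have hL' : 0 < |L| + 1 := by positivity
    obtain ⟨δ, hδ, hδ'⟩ : ∃ δ : ℝ, 0 < δ ∧ ∀ t : ℝ, 0 ≤ t → t < δ → (|L| + 1) * t ^ θ < ε := by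
      have hc : Filter.Tendsto (fun t : ℝ => (|L| + 1) * t ^ θ) (𝓝 0) (𝓝 ((|L| + 1) * 0 ^ θ)) :=
        ((Real.continuousAt_rpow_const 0 θ (Or.inr hθ.le)).tendsto).const_mul _
      rw [Real.zero_rpow hθ.ne', mul_zero] at hc
      have := hc.eventually (gt_mem_nhds hε)
      rw [Metric.eventually_nhds_iff] at this
      obtain ⟨δ, hδ, h⟩ := this
      refine ⟨δ, hδ, fun t ht ht' => h ?_⟩
      rw [Real.dist_eq, sub_zero, abs_of_nonneg ht]
      exact ht'
    refine ⟨min r δ, lt_min hr hδ, fun {w} hw => ?_⟩
    rw [dist_eq_norm] at hw ⊢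
    have hw1 : w ∈ Metric.ball z r := by
      rw [Metric.mem_ball, dist_eq_norm]
      exact hw.trans_le (min_le_left _ _)
    refine (hL w hw1 z (Metric.mem_ball_self hr)).trans_lt ?_
    refine lt_of_le_of_lt ?_ (hδ' ‖w - z‖ (norm_nonneg _) (hw.trans_le (min_le_right _ _)))
    refine mul_le_mul_of_nonneg_right ?_ (Real.rpow_nonneg (norm_nonneg _) _)
    exact (le_abs_self L).trans (by linarith)
  | succ m ih =>
    intro f hf
    obtain ⟨h1, h2, h3⟩ := hf
    rw [Nat.cast_add, Nat.cast_one]
    rw [contDiffOn_succ_iff_fderiv_of_isOpen hD]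
    refine ⟨fun z hz => ((h1 z hz).differentiableAt one_ne_zero).differentiableWithinAt, ?_, ?_⟩
    · intro h
      exact absurd h (by simp)
    · have e : (fderiv ℝ f) = fun z => (dz f z) • (Complex.ofRealCLM.comp Complex.reCLM + Complex.I • Complex.ofRealCLM.comp Complex.imCLM)
        + (dzb f z) • (Complex.ofRealCLM.comp Complex.reCLM - Complex.I • Complex.ofRealCLM.comp Complex.imCLM) := by
        funext z
        exact BT2_fderiv f z
      rw [e]
      exact ((ih _ h2).smul contDiffOn_const).add ((ih _ h3).smul contDiffOn_const)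

theorem BT2 : T_BT2 := by
  intro D hD f hf
  rw [contDiffOn_infty]
  intro n
  exact BT2_aux D hD n f (hf n)

end Pool.Agent.Helper614.HE.P_BT2
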