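import Pool.Agent.Helper614.HE.SpecC
set_option autoImplicit false

open scoped Manifold ContDiff Matrix ComplexOrder
open Matrix Topology MeasureTheory Set Filter

namespace Pool.Agent.Helper614.HE.P_BT3

open Pool.Agent.Helper614.HE



/-
PROOF OF THE TARGET IN WORDS
Induction on m, for all f. m = 0: f is locally Hoelder on the plane, so continuous, measurable, with compact support, so f(w)/(z-w) is integrable for every z: this follows for instance as f is bounded with compact support and 1/|z-w| is locally
integrable; if this is awkward here: T_C1 gives it for C^1 functions with compact support, so dominate |f| by C times a smooth bump function chi with chi = 1 on the support: |f(w)/(z-w)| <= C |chi(w)/(z-w)|. T_LH at every point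
z0 (with the r, theta, L of PC univ 0 at z0) gives C^1 at every point, dzb (Ct f) = f everywhere, and the Hoelder continuity of fderiv (Ct f) on a smaller ball, hence of dz (Ct f), dzb (Ct f) = (fderiv .. 1 -+ i fderiv .. i)/2. So Ct f is in PC univ 1.
m -> m+1: f in PC univ (m+1) is C^1 at every point: ContDiff R 1 f (contDiff_iff_contDiffAt), T_C1: Ct f is C^1, dzb (Ct f) = f, which is in PC univ (m+1), and dz (Ct f) = Ct (dz f), where dz f is in PC univ m and has compact support, so by induction it is in PC univ (m+1). So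
Ct f is in PC univ (m+2).
-/
-- TARGET
theorem BT3 (hLH : T_LH) (hC1 : T_C1) (hBT1 : T_BT1) : T_BT3 := by
  intro m
  induction m with
  | zero =>
    intro f hf h0
    have hPC : ∀ z : ℂ, ∃ r θ L : ℝ, 0 < r ∧ 0 < θ ∧ θ < 1 ∧
      ∀ w ∈ Metric.ball z r, ∀ w' ∈ Metric.ball z r, ‖f w - f w'‖ ≤ L * ‖w - w'‖ ^ θ :=
      fun z => h0 z (mem_univ z)
    have hcont : Continuous f := by
      rw [continuous_iff_continuousAt]
      intro z
      obtain ⟨r, θ, L, hr, hθ, _, hH⟩ := hPC z
      rw [ContinuousAt, tendsto_iff_norm_sub_tendsto_zero]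
      have h1 : Tendsto (fun w : ℂ => L * ‖w - z‖ ^ θ) (𝓝 z) (𝓝 0) := by
        have h2 : Continuous (fun w : ℂ => L * ‖w - z‖ ^ θ) := by
          refine continuous_const.mul ?_
          exact ((continuous_id.sub continuous_const).norm).rpow_const (fun _ => Or.inr hθ.le)
        have h3 := h2.tendsto z
        rw [sub_self, norm_zero, Real.zero_rpow hθ.ne', mul_zero] at h3
        exact h3
      refine squeeze_zero' (Eventually.of_forall fun w => norm_nonneg _) ?_ h1
      filter_upwards [Metric.ball_mem_nhds z hr] with w hw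
      exact hH w hw z (Metric.mem_ball_self hr)
    obtain ⟨C, hC⟩ := hf.exists_bound_of_continuous hcont
    obtain ⟨R, hR⟩ := hf.isCompact.isBounded.subset_closedBall (0 : ℂ)
    have hint : ∀ z, Integrable (fun w => f w / (z - w)) := by
      intro z
      let b : ContDiffBump (0 : ℂ) := ⟨max R 1, max R 1 + 1, by positivity, by linarith⟩
      have hb1 : ContDiff ℝ 1 (fun w : ℂ => ((b w : ℝ) : ℂ)) :=
        Complex.ofRealCLM.contDiff.comp b.contDiff
      have hb2 : HasCompactSupport (fun w : ℂ => ((b w : ℝ) : ℂ)) :=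
        b.hasCompactSupport.comp_left (g := fun x : ℝ => (x : ℂ)) Complex.ofReal_zero
      have h1 := ((hC1 _ hb1 hb2).2 z).1
      refine (h1.norm.const_mul C).mono' ?_ ?_
      · have hm : Measurable (fun w => f w / (z - w)) :=
          hcont.measurable.div (measurable_const.sub measurable_id)
        exact hm.aestronglyMeasurable
      · refine Eventually.of_forall fun w => ?_
        by_cases hw : w ∈ tsupport f
        · have h2 : w ∈ Metric.closedBall (0 : ℂ) (max R 1) :=
            Metric.closedBall_subset_closedBall (le_max_left _ _) (hR hw)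
          have h3 : b w = 1 := b.one_of_mem_closedBall h2
          simp only [h3, norm_div, Complex.ofReal_one, norm_one]
          rw [div_eq_mul_one_div]
          exact mul_le_mul_of_nonneg_right (hC w) (by positivity)
        · have h2 : f w = 0 := image_eq_zero_of_notMem_tsupport hw
          rw [h2, zero_div, norm_zero]
          have h3 : 0 ≤ C := (norm_nonneg _).trans (hC 0)
          exact mul_nonneg h3 (norm_nonneg _)
    have hall : ∀ z, ContDiffAt ℝ 1 (Ct f) z ∧ dzb (Ct f) z = f z := by
      intro z
      obtain ⟨r, θ, L, hr, hθ, hθ1, hH⟩ := hPC z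
      exact (hLH f hcont.measurable hint z r θ L hr hθ hθ1 hH).1 z (Metric.mem_ball_self hr)
    refine ⟨⟨fun z _ => (hall z).1, ?_, ?_⟩, hall⟩
    · intro z _
      obtain ⟨r, θ, L, hr, hθ, hθ1, hH⟩ := hPC z
      obtain ⟨L', hL'⟩ := (hLH f hcont.measurable hint z r θ L hr hθ hθ1 hH).2
      refine ⟨r / 2, θ, L', by positivity, hθ, hθ1, ?_⟩
      intro w hw w' hw'
      refine le_trans ?_ (hL' w hw w' hw')
      have h1 : dz (Ct f) w - dz (Ct f) w' =
          ((fderiv ℝ (Ct f) w - fderiv ℝ (Ct f) w') 1 -
            Complex.I * (fderiv ℝ (Ct f) w - fderiv ℝ (Ct f) w') Complex.I) / 2 := by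
        simp only [dz, ContinuousLinearMap.sub_apply]
        ring
      rw [h1, norm_div]
      have h2 := (fderiv ℝ (Ct f) w - fderiv ℝ (Ct f) w').le_opNorm 1
      have h3 := (fderiv ℝ (Ct f) w - fderiv ℝ (Ct f) w').le_opNorm Complex.I
      have h4 := norm_sub_le ((fderiv ℝ (Ct f) w - fderiv ℝ (Ct f) w') 1)
        (Complex.I * (fderiv ℝ (Ct f) w - fderiv ℝ (Ct f) w') Complex.I)
      rw [norm_mul, Complex.norm_I, one_mul] at h4
      rw [norm_one, mul_one] at h2
      rw [Complex.norm_I, mul_one] at h3
      have h5 : ‖(2 : ℂ)‖ = 2 := by simp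
      rw [h5, div_le_iff₀ (by norm_num)]
      linarith
    · have h1 : dzb (Ct f) = f := funext fun z => (hall z).2
      rw [h1]
      exact h0
  | succ m ih =>
    intro f hf hPC
    obtain ⟨h1, h2, h3⟩ := hPC
    have hf1 : ContDiff ℝ 1 f := contDiff_iff_contDiffAt.mpr fun z => h1 z (mem_univ z)
    obtain ⟨h4, h5⟩ := hC1 f hf1 hf
    have hcs : HasCompactSupport (dz f) := by
      have h6 : HasCompactSupport (fderiv ℝ f) := hf.fderiv ℝ
      exact h6.comp_left (g := fun A : ℂ →L[ℝ] ℂ => (A 1 - Complex.I * A Complex.I) / 2) (by simp)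
    have h6 := (ih (dz f) hcs h2).1
    have h7 : dz (Ct f) = Ct (dz f) := funext fun z => (h5 z).2.2.1
    have h8 : dzb (Ct f) = f := funext fun z => (h5 z).2.1
    refine ⟨⟨fun z _ => h4.contDiffAt, ?_, ?_⟩, fun z => ⟨h4.contDiffAt, (h5 z).2.1⟩⟩
    · rw [h7]; exact h6
    · rw [h8]; exact ⟨h1, h2, h3⟩

end Pool.Agent.Helper614.HE.P_BT3

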