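import Pool.Agent.Helper614.HE.SpecC
set_option autoImplicit false

open scoped Manifold ContDiff Matrix ComplexOrder
open Matrix Topology MeasureTheory Set Filter

namespace Pool.Agent.Helper614.HE.P_BT4

open Pool.Agent.Helper614.HE



/-
PROOF OF THE TARGET IN WORDS
Let z0 in D. By item 9 of BT1 (locality) it suffices to find an open D' containing z0 with PC D' (m+1) w. Take closedBall(z0, 2r) in D, chi smooth, compact support in ball(z0,2r), = 1 on ball(z0,r) =: D' (ContDiffBump, composed with the inclusion of R into C).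
F = dzb w in PC D m. chi F extended by 0 is in PC univ m: near points of D as a product (items 10, 5, 11 of BT1: chi is smooth), near points outside the support of chi it is zero near the point (items 3, 7, 9). It has compact support. By BT3, v := Ct (chi F) is in PC univ
(m+1), C^1, dzb v = chi F = F on D'. So on D' w - v is C^1 with dzb (w-v) = 0, so complex differentiable (fderiv R g z v = dz g z v + dzb g z conj v, so fderiv is multiplication by a complex number), so in PC D' (m+1) (item 7), and w = (w - v) + v in PC D' (m+1).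
-/
-- TARGET
theorem BT4_diff (g : ℂ → ℂ) (z : ℂ) (hg : DifferentiableAt ℝ g z) (h0 : dzb g z = 0) :
    DifferentiableAt ℂ g z := by
  have hI : fderiv ℝ g z Complex.I = Complex.I * fderiv ℝ g z 1 := by
    unfold dzb at h0
    have h2 : fderiv ℝ g z 1 + Complex.I * fderiv ℝ g z Complex.I = 0 := by
      have := (div_eq_zero_iff.1 h0)
      rcases this with h | h
      · exact h
      · norm_num at h
    have h3 : Complex.I * (fderiv ℝ g z 1 + Complex.I * fderiv ℝ g z Complex.I) = 0 := by
      rw [h2, mul_zero]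
    have h4 : Complex.I * Complex.I = -1 := Complex.I_mul_I
    linear_combination (-1 : ℂ) * h3 + (fderiv ℝ g z Complex.I) * h4
  refine differentiableAt_complex_iff_differentiableAt_real.2 ⟨hg, ?_⟩
  rw [smul_eq_mul]
  exact hI

theorem BT4_dzb_sub (f g : ℂ → ℂ) (z : ℂ) (hf : DifferentiableAt ℝ f z)
    (hg : DifferentiableAt ℝ g z) : dzb (fun z => f z - g z) z = dzb f z - dzb g z := by
  unfold dzb
  have h : fderiv ℝ (fun z => f z - g z) z = fderiv ℝ f z - fderiv ℝ g z := by
    exact fderiv_sub hf hg
  rw [h]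
  simp only [_root_.sub_apply]
  ring

theorem BT4 (hBT1 : T_BT1) (hBT3 : T_BT3) : T_BT4 := by
  intro D hD m w hw hdz
  obtain ⟨_, _, _, _, _, _, _, _, hloc, _, _⟩ := hBT1 D hD (m + 1)
  obtain ⟨_, _, hcongrD, _, hmulD, _, hdiffD, _, _, hsmD, _⟩ := hBT1 D hD m
  obtain ⟨_, _, _, _, _, _, _, _, hlocU, _, _⟩ := hBT1 univ isOpen_univ m
  obtain ⟨_, _, _, _, _, _, _, _, _, _, hmonoU⟩ := hBT1 univ isOpen_univ (m + 1)
  apply hloc
  intro z0 hz0
  obtain ⟨r, hr, hball⟩ := Metric.isOpen_iff.1 hD z0 hz0
  let χ : ContDiffBump z0 := ⟨r / 4, r / 2, by positivity, by linarith⟩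
  have hχin : χ.rIn = r / 4 := rfl
  have hχout : χ.rOut = r / 2 := rfl
  let F : ℂ → ℂ := fun z => ((χ z : ℝ) : ℂ) * dzb w z
  have hFU : PC univ m F := by
    apply hlocU
    intro z _
    by_cases hz : z ∈ D
    · refine ⟨D, hD, hz, ?_⟩
      apply hmulD (fun z => ((χ z : ℝ) : ℂ)) (dzb w) _ hdz
      apply hsmD
      have h1 : ContDiff ℝ ∞ (fun z => ((χ z : ℝ) : ℂ)) :=
        Complex.ofRealCLM.contDiff.comp χ.contDiff
      exact h1.contDiffOn
    · refine ⟨(Metric.closedBall z0 (r / 2))ᶜ, Metric.isClosed_closedBall.isOpen_compl, ?_, ?_⟩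
      · intro hzz
        apply hz
        apply hball
        rw [Metric.mem_closedBall] at hzz
        rw [Metric.mem_ball]
        linarith
      · obtain ⟨_, _, hcongr, _, _, _, hdiff, _, _, _, _⟩ :=
          hBT1 (Metric.closedBall z0 (r / 2))ᶜ Metric.isClosed_closedBall.isOpen_compl m
        apply hcongr (fun _ => 0) F _ (hdiff _ (differentiableOn_const 0))
        intro y hy
        have hy2 : χ.rOut ≤ dist y z0 := by
          rw [hχout]
          rw [mem_compl_iff, Metric.mem_closedBall, not_le] at hy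
          exact hy.le
        have hy3 : χ y = 0 := χ.zero_of_le_dist hy2
        simp [F, hy3]
  have hFc : HasCompactSupport F := by
    have h1 : HasCompactSupport (fun z => ((χ z : ℝ) : ℂ)) := by
      have := χ.hasCompactSupport.comp_left (g := fun x : ℝ => (x : ℂ)) (by simp)
      exact this
    exact h1.mul_right
  obtain ⟨hv, hv2⟩ := hBT3 m F hFc hFU
  have hD'open : IsOpen (Metric.ball z0 (r / 4)) := Metric.isOpen_ball
  have hD'sub : Metric.ball z0 (r / 4) ⊆ D := fun y hy => hball (Metric.ball_subset_ball (by linarith) hy)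
  refine ⟨Metric.ball z0 (r / 4), hD'open, Metric.mem_ball_self (by positivity), ?_⟩
  obtain ⟨_, _, hcongr', hadd', _, _, hdiff', _, _, _, _⟩ :=
    hBT1 (Metric.ball z0 (r / 4)) hD'open (m + 1)
  have hvD' : PC (Metric.ball z0 (r / 4)) (m + 1) (Ct F) :=
    hmonoU _ _ hD'open (subset_univ _) hv
  have hdiffv : PC (Metric.ball z0 (r / 4)) (m + 1) (fun z => w z - Ct F z) := by
    apply hdiff'
    intro y hy
    apply DifferentiableAt.differentiableWithinAt
    have hwd : DifferentiableAt ℝ w y := (hw y (hD'sub hy)).differentiableAt (by simp)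
    have hvd : DifferentiableAt ℝ (Ct F) y := (hv2 y).1.differentiableAt (by simp)
    apply BT4_diff
    · exact hwd.sub hvd
    · rw [BT4_dzb_sub w (Ct F) y hwd hvd, (hv2 y).2]
      have hy1 : χ y = 1 := by
        apply χ.one_of_mem_closedBall
        rw [hχin]
        exact Metric.ball_subset_closedBall hy
      simp [F, hy1]
  apply hcongr' (fun z => (w z - Ct F z) + Ct F z) w _ (hadd' _ _ hdiffv hvD')
  intro z _
  ring

end Pool.Agent.Helper614.HE.P_BT4
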