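import Pool.Agent.Helper614.HE.SpecC
set_option autoImplicit false

open scoped Manifold ContDiff Matrix ComplexOrder
open Matrix Topology MeasureTheory Set Filter

namespace Pool.Agent.Helper614.HE.P_C1

open Pool.Agent.Helper614.HE



/-
PROOF OF THE TARGET IN WORDS
f is C^1 with compact support. Ct f (z) = (1/pi) int f(w)/(z-w) dw = (1/pi) int f(z - w) / w dw: a convolution of the locally
integrable kernel 1/w (KE2 with s = 1) with f; HasCompactSupport.contDiff_convolution_right gives that Ct f is C^1 with derivative the convolution of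
the kernel with fderiv f (HasCompactSupport.hasFDerivAt_convolution_right), so dz (Ct f) z = Ct (dz f) z and dzb (Ct f) z = Ct (dzb f) z.
It remains to prove the Cauchy-Pompeiu formula Ct (dzb f) z = f z for compactly supported C^1 functions. By translation z = 0:
(1/pi) int dzb f(w)/(0 - w) dw = f(0). One way: polar coordinates w = r e^{i phi}: dzb f = (e^{i phi}/2) (d_r + (i/r) d_phi) f(r e^{i phi}), so
-(1/pi) int_0^{2 pi} int_0^oo (1/2)(d_r f + (i/r) d_phi f) dr dphi; the first term gives -(1/(2 pi)) int_0^{2pi} (0 - f(0)) dphi = f(0), the second is zero for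
each r > 0 by periodicity (to avoid the singularity at r = 0 integrate over r > eps and let eps -> 0, or use dominated convergence; note that |d_phi f| <= r |Df|, so
(1/r) d_phi f is bounded). There are landed files of other seats proving exactly this: Pool/Agent/Helper383/NI/CA.lean (Cauchy transform of C^1
functions; in the graded repository outputs/live) - you may copy its proofs into your file (renamed), or search with grep -rl Pompeiu Pool/Agent.
Mathlib has integral_boundary_rect / circleIntegral versions (Complex.integral_boundary_rect_of_differentiableOn_real) which can also be used on a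
large square with a small disc removed. The integrability of f(w)/(z-w): f is bounded with compact support and 1/|z-w| is locally integrable.
-/

section C1_aux
open Complex

/-- `2i ∂̄` of a function whose real derivative is `L`. -/
noncomputable def C1_db (L : ℂ →L[ℝ] ℂ) : ℂ := I * L 1 - L I

lemma C1_clm_apply (L : ℂ →L[ℝ] ℂ) (z : ℂ) : L z = z.re * L 1 + z.im * L I := by
  conv_lhs => rw [← re_add_im z]
  have h1 : (z.re : ℂ) = z.re • (1 : ℂ) := by simp
  have h2 : (z.im : ℂ) * I = z.im • I := by simp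
  rw [map_add, h2]
  nth_rewrite 1 [h1]
  rw [map_smul, map_smul]
  simp

/-- direction `e^{iθ}` -/
noncomputable def C1_ex (θ : ℝ) : ℂ := Real.cos θ + Real.sin θ * I

lemma C1_continuous_ex : Continuous C1_ex := by unfold C1_ex; fun_prop

lemma C1_norm_ex (θ : ℝ) : ‖C1_ex θ‖ = 1 := by
  unfold C1_ex
  rw [Complex.norm_eq_sqrt_sq_add_sq]
  simp [Complex.cos_ofReal_re, Complex.sin_ofReal_re]

lemma C1_ex_ne (θ : ℝ) : C1_ex θ ≠ 0 := by
  intro h
  have := C1_norm_ex θ
  rw [h] at this
  simp at this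

lemma C1_db_ex (L : ℂ →L[ℝ] ℂ) (θ : ℝ) : (C1_ex θ)⁻¹ * C1_db L = I * L (C1_ex θ) - L (I * C1_ex θ) := by
  have h1 : L (C1_ex θ) = Real.cos θ * L 1 + Real.sin θ * L I := by
    rw [C1_clm_apply L (C1_ex θ)]
    simp [C1_ex]
  have h2 : L (I * C1_ex θ) = - Real.sin θ * L 1 + Real.cos θ * L I := by
    rw [C1_clm_apply L (I * C1_ex θ)]
    simp [C1_ex]
  have h3 : C1_ex θ * (Real.cos θ - Real.sin θ * I) = 1 := by
    unfold C1_ex
    have : ((Real.cos θ : ℂ)) ^ 2 + (Real.sin θ : ℂ) ^ 2 = 1 := by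
      have := Real.cos_sq_add_sin_sq θ
      exact_mod_cast this
    ring_nf
    rw [I_sq]
    linear_combination this
  have h4 : (C1_ex θ)⁻¹ = Real.cos θ - Real.sin θ * I := by
    exact inv_eq_of_mul_eq_one_right h3
  rw [h4, h1, h2]
  unfold C1_db
  ring_nf
  rw [I_sq]
  ring

lemma C1_hasDerivAt_ex (θ : ℝ) : HasDerivAt C1_ex (I * C1_ex θ) θ := by
  unfold C1_ex
  have h1 : HasDerivAt (fun θ : ℝ => ((Real.cos θ : ℝ) : ℂ)) ((-Real.sin θ : ℝ) : ℂ) θ :=
    (Real.hasDerivAt_cos θ).ofReal_comp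
  have h2 : HasDerivAt (fun θ : ℝ => ((Real.sin θ : ℝ) : ℂ)) ((Real.cos θ : ℝ) : ℂ) θ :=
    (Real.hasDerivAt_sin θ).ofReal_comp
  have h3 := h1.add (h2.mul_const I)
  refine h3.congr_deriv ?_
  push_cast
  ring_nf
  rw [I_sq]
  ring

/-- Cauchy–Pompeiu formula for compactly supported `C¹` functions. -/
lemma C1_pompeiu {ψ : ℂ → ℂ} (hψ : ContDiff ℝ 1 ψ) (hc : HasCompactSupport ψ) :
    ∫ w, w⁻¹ * C1_db (fderiv ℝ ψ w) = - (2 * Real.pi * I) * ψ 0 := by
  obtain ⟨R, hR0, hR⟩ : ∃ R : ℝ, 0 < R ∧ tsupport ψ ⊆ Metric.closedBall 0 R := by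
    obtain ⟨R, hR⟩ := hc.isCompact.isBounded.subset_closedBall 0
    exact ⟨max R 1, by positivity, hR.trans (Metric.closedBall_subset_closedBall (le_max_left _ _))⟩
  have hd : ∀ w : ℂ, R < ‖w‖ → fderiv ℝ ψ w = 0 := by
    intro w hw
    have : w ∉ tsupport ψ := fun h => by
      have := hR h
      simp at this
      linarith
    have h2 : w ∉ tsupport (fderiv ℝ ψ) := fun h => this (tsupport_fderiv_subset ℝ h)
    exact image_eq_zero_of_notMem_tsupport h2
  have hd0 : ∀ w : ℂ, R < ‖w‖ → ψ w = 0 := by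
    intro w hw
    have : w ∉ tsupport ψ := fun h => by
      have := hR h
      simp at this
      linarith
    exact image_eq_zero_of_notMem_tsupport this
  have hcf : Continuous (fderiv ℝ ψ) := hψ.continuous_fderiv one_ne_zero
  rw [← Complex.integral_comp_polarCoord_symm]
  let A : ℝ × ℝ → ℂ := fun p => fderiv ℝ ψ (p.1 * C1_ex p.2) (C1_ex p.2)
  let B : ℝ × ℝ → ℂ := fun p => fderiv ℝ ψ (p.1 * C1_ex p.2) (I * C1_ex p.2)
  have hex := C1_continuous_ex
  have hA : Continuous A := by
    have h1 : Continuous (fun p : ℝ × ℝ => fderiv ℝ ψ (p.1 * C1_ex p.2)) := by fun_prop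
    exact h1.clm_apply (by fun_prop)
  have hB : Continuous B := by
    have h1 : Continuous (fun p : ℝ × ℝ => fderiv ℝ ψ (p.1 * C1_ex p.2)) := by fun_prop
    exact h1.clm_apply (by fun_prop)
  have htar : polarCoord.target = Ioi (0:ℝ) ×ˢ Ioo (-Real.pi) Real.pi := rfl
  have hdA : ∀ p : ℝ × ℝ, R < p.1 → fderiv ℝ ψ (p.1 * C1_ex p.2) = 0 := by
    intro p hp
    apply hd
    rw [norm_mul, C1_norm_ex, mul_one]
    simp only [Complex.norm_real, Real.norm_eq_abs]
    exact hp.trans_le (le_abs_self _)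
  have hint : ∀ F : ℝ × ℝ → ℂ, Continuous F → (∀ p : ℝ × ℝ, R < p.1 → F p = 0) →
      IntegrableOn F (Ioi (0:ℝ) ×ˢ Ioo (-Real.pi) Real.pi) := by
    intro F hF h0
    have hcomp : IsCompact (Icc (0:ℝ) R ×ˢ Icc (-Real.pi) Real.pi) := isCompact_Icc.prod isCompact_Icc
    refine (hF.continuousOn.integrableOn_compact hcomp).of_forall_sdiff_eq_zero
      (measurableSet_Ioi.prod measurableSet_Ioo) ?_
    rintro ⟨r, θ⟩ ⟨⟨h1, h2⟩, h3⟩
    apply h0
    by_contra hcon
    push Not at hcon
    apply h3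
    simp only [Set.mem_Ioi, Set.mem_Ioo] at h1 h2
    exact ⟨⟨h1.le, hcon⟩, ⟨h2.1.le, h2.2.le⟩⟩
  have hiA := hint A hA (fun p hp => by simp only [A]; rw [hdA p hp]; rfl)
  have hiB := hint B hB (fun p hp => by simp only [B]; rw [hdA p hp]; rfl)
  have e1 : ∫ p in polarCoord.target, p.1 • ((Complex.polarCoord.symm p)⁻¹ *
      C1_db (fderiv ℝ ψ (Complex.polarCoord.symm p))) =
      ∫ p in Ioi (0:ℝ) ×ˢ Ioo (-Real.pi) Real.pi, (I * A p - B p) := by
    rw [htar]
    refine setIntegral_congr_fun (measurableSet_Ioi.prod measurableSet_Ioo) ?_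
    rintro ⟨r, θ⟩ ⟨h1, h2⟩
    have hr : (r:ℂ) ≠ 0 := by
      simp only [Set.mem_Ioi] at h1
      exact_mod_cast (ne_of_gt h1)
    have e2 : Complex.polarCoord.symm (r, θ) = r * C1_ex θ := by
      rw [Complex.polarCoord_symm_apply]; rfl
    simp only [A, B]
    rw [e2, ← C1_db_ex, mul_inv]
    simp only [Complex.real_smul]
    field_simp
  rw [e1, integral_sub (hiA.const_mul I) hiB, integral_const_mul]
  have hAv : ∫ p in Ioi (0:ℝ) ×ˢ Ioo (-Real.pi) Real.pi, A p = - (2 * Real.pi) * ψ 0 := by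
    rw [Measure.volume_eq_prod, ← Measure.prod_restrict]
    rw [integral_prod_symm]
    swap
    · rw [Measure.prod_restrict, ← Measure.volume_eq_prod]; exact hiA
    have : ∀ θ : ℝ, ∫ r in Ioi (0:ℝ), A (r, θ) = - ψ 0 := by
      intro θ
      have hder : ∀ r : ℝ, HasDerivAt (fun r : ℝ => ψ (r * C1_ex θ)) (A (r, θ)) r := by
        intro r
        have h1 : HasFDerivAt ψ (fderiv ℝ ψ (r * C1_ex θ)) (r * C1_ex θ) :=
          (hψ.differentiable one_ne_zero _).hasFDerivAt
        have h2 : HasDerivAt (fun r : ℝ => (r:ℂ) * C1_ex θ) (C1_ex θ) r := by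
          simpa using (hasDerivAt_id r).ofReal_comp.mul_const (C1_ex θ)
        exact h1.comp_hasDerivAt r h2
      have hint1 : IntegrableOn (fun r => A (r, θ)) (Ioi 0) := by
        have hc1 : Continuous (fun r => A (r, θ)) := by fun_prop
        refine (hc1.continuousOn.integrableOn_compact (isCompact_Icc (a := (0:ℝ)) (b := R))).of_forall_sdiff_eq_zero
          measurableSet_Ioi ?_
        rintro r ⟨h1, h2⟩
        simp only [Set.mem_Ioi, Set.mem_Icc, not_and, not_le] at h1 h2
        simp only [A]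
        rw [hdA (r, θ) (h2 h1.le)]; rfl
      have htend : Tendsto (fun r : ℝ => ψ (r * C1_ex θ)) atTop (𝓝 0) := by
        refine tendsto_const_nhds.congr' ?_
        filter_upwards [eventually_gt_atTop R] with r hr
        symm
        apply hd0
        rw [norm_mul, C1_norm_ex, mul_one]
        simp only [Complex.norm_real, Real.norm_eq_abs]
        exact hr.trans_le (le_abs_self _)
      have := integral_Ioi_of_hasDerivAt_of_tendsto (a := (0:ℝ)) (f := fun r : ℝ => ψ (r * C1_ex θ))
        (f' := fun r => A (r, θ)) (m := 0) (hder 0).continuousAt.continuousWithinAt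
        (fun x _ => hder x) hint1 htend
      rw [this]
      simp
    simp_rw [this]
    rw [setIntegral_const]
    have hvol : (volume : Measure ℝ).real (Ioo (-Real.pi) Real.pi) = 2 * Real.pi := by
      rw [Real.volume_real_Ioo_of_le (by linarith [Real.pi_pos])]
      ring
    rw [hvol, Complex.real_smul]
    push_cast
    ring
  have hBv : ∫ p in Ioi (0:ℝ) ×ˢ Ioo (-Real.pi) Real.pi, B p = 0 := by
    rw [Measure.volume_eq_prod, ← Measure.prod_restrict]
    rw [integral_prod]
    swap
    · rw [Measure.prod_restrict, ← Measure.volume_eq_prod]; exact hiB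
    have : ∀ r ∈ Ioi (0:ℝ), ∫ θ in Ioo (-Real.pi) Real.pi, B (r, θ) = 0 := by
      intro r hr
      have hr' : (r:ℂ) ≠ 0 := by
        simp only [Set.mem_Ioi] at hr
        exact_mod_cast (ne_of_gt hr)
      have hder : ∀ θ : ℝ, HasDerivAt (fun θ : ℝ => (r:ℂ)⁻¹ * ψ (r * C1_ex θ)) (B (r, θ)) θ := by
        intro θ
        have h1 : HasFDerivAt ψ (fderiv ℝ ψ (r * C1_ex θ)) (r * C1_ex θ) :=
          (hψ.differentiable one_ne_zero _).hasFDerivAt
        have h2 : HasDerivAt (fun θ : ℝ => (r:ℂ) * C1_ex θ) (r * (I * C1_ex θ)) θ :=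
          (C1_hasDerivAt_ex θ).const_mul _
        have h3 := (h1.comp_hasDerivAt θ h2).const_mul ((r:ℂ)⁻¹)
        refine h3.congr_deriv ?_
        have h4 : (r:ℂ) * (I * C1_ex θ) = r • (I * C1_ex θ) := by simp
        change (r:ℂ)⁻¹ * (fderiv ℝ ψ (r * C1_ex θ)) (r * (I * C1_ex θ)) = fderiv ℝ ψ (r * C1_ex θ) (I * C1_ex θ)
        rw [h4, map_smul, Complex.real_smul, ← mul_assoc, inv_mul_cancel₀ hr', one_mul]
      rw [← integral_Ioc_eq_integral_Ioo, ← intervalIntegral.integral_of_le (by linarith [Real.pi_pos])]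
      rw [intervalIntegral.integral_eq_sub_of_hasDerivAt (fun θ _ => hder θ)]
      · have : C1_ex Real.pi = C1_ex (-Real.pi) := by simp [C1_ex]
        rw [this]; ring
      · apply Continuous.intervalIntegrable
        fun_prop
    rw [setIntegral_congr_fun measurableSet_Ioi this]
    exact integral_zero _ _
  rw [hAv, hBv]
  ring


end C1_aux

/-- the kernel -/
noncomputable def C1_K (t : ℂ) : ℂ := t⁻¹

lemma C1_loc (hKE2 : T_KE2) : LocallyIntegrable C1_K (volume : Measure ℂ) := by
  rw [locallyIntegrable_iff]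
  intro k hk
  obtain ⟨R, hR⟩ := hk.isBounded.subset_closedBall 0
  have h1 := (hKE2.1 1 (by norm_num) R).mono_set hR
  refine Integrable.mono' h1 ?_ ?_
  · exact (measurable_inv : Measurable (fun t : ℂ => t⁻¹)).aestronglyMeasurable
  · refine Filter.Eventually.of_forall fun w => ?_
    unfold C1_K
    rw [norm_inv, Real.rpow_neg_one]

lemma C1_conv (f : ℂ → ℂ) (z : ℂ) : Ct f z = ((1 / Real.pi : ℝ) : ℂ) *
    (convolution C1_K f (ContinuousLinearMap.mul ℝ ℂ) (volume : Measure ℂ)) z := by
  unfold Ct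
  congr 1
  rw [convolution_def, ← integral_sub_left_eq_self (fun w => f w / (z - w)) volume z]
  refine integral_congr_ae (Filter.Eventually.of_forall fun t => ?_)
  simp only [C1_K, ContinuousLinearMap.mul_apply', sub_sub_cancel]
  rw [div_eq_mul_inv, mul_comm]

lemma C1_int (hKE2 : T_KE2) (f : ℂ → ℂ) (hf : Continuous f) (hc : HasCompactSupport f) (z : ℂ) :
    Integrable (fun w => f w / (z - w)) := by
  have h1 := (hc.convolutionExists_right (ContinuousLinearMap.mul ℝ ℂ) (C1_loc hKE2) hf) z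
  have h2 := h1.integrable.comp_sub_left z
  refine h2.congr (Filter.Eventually.of_forall fun w => ?_)
  simp only [C1_K, ContinuousLinearMap.mul_apply', sub_sub_cancel]
  rw [div_eq_mul_inv, mul_comm]

lemma C1_fderiv (hKE2 : T_KE2) (f : ℂ → ℂ) (hf : ContDiff ℝ 1 f) (hc : HasCompactSupport f)
    (z v : ℂ) : fderiv ℝ (Ct f) z v = Ct (fun w => fderiv ℝ f w v) z := by
  have h1 := hc.hasFDerivAt_convolution_right (ContinuousLinearMap.mul ℝ ℂ) (C1_loc hKE2) hf z
  have h2 : HasFDerivAt (Ct f) (((1 / Real.pi : ℝ) : ℂ) •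
      (convolution C1_K (fderiv ℝ f) ((ContinuousLinearMap.mul ℝ ℂ).precompR ℂ) volume) z) z := by
    have h3 := h1.const_mul ((1 / Real.pi : ℝ) : ℂ)
    refine h3.congr_of_eventuallyEq (Filter.Eventually.of_forall fun y => ?_)
    exact C1_conv f y
  rw [h2.fderiv, _root_.smul_apply, C1_conv, smul_eq_mul]
  congr 1
  have hex : ConvolutionExistsAt C1_K (fderiv ℝ f) z ((ContinuousLinearMap.mul ℝ ℂ).precompR ℂ)
      volume := (hc.fderiv ℝ).convolutionExists_right _ (C1_loc hKE2)
        (hf.continuous_fderiv one_ne_zero) z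
  rw [convolution_def, convolution_def, ContinuousLinearMap.integral_apply hex.integrable]
  rfl

/-- Cauchy-Pompeiu in the form used here -/
lemma C1_cp (f : ℂ → ℂ) (hf : ContDiff ℝ 1 f) (hc : HasCompactSupport f) (z : ℂ) :
    Ct (dzb f) z = f z := by
  have hψ : ContDiff ℝ 1 (fun v => f (z + v)) := hf.comp (contDiff_const.add contDiff_id)
  have hcψ : HasCompactSupport (fun v => f (z + v)) :=
    hc.comp_homeomorph (Homeomorph.addLeft z)
  have h1 := C1_pompeiu hψ hcψ
  have hfd : ∀ v, fderiv ℝ (fun v => f (z + v)) v = fderiv ℝ f (z + v) := fun v =>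
    fderiv_comp_add_left z
  have h2 : ∀ v, v⁻¹ * C1_db (fderiv ℝ (fun v => f (z + v)) v) =
      (2 * Complex.I) * (dzb f (z + v) / v) := by
    intro v
    rw [hfd]
    unfold C1_db dzb
    rw [div_eq_mul_inv, div_eq_mul_inv]
    ring_nf
    rw [Complex.I_sq]
    ring
  simp only [h2] at h1
  rw [integral_const_mul, add_zero] at h1
  have h3 : ∫ v, dzb f (z + v) / v = -(Real.pi : ℂ) * f z := by
    have h4 : (2 * Complex.I) ≠ 0 := by simp
    apply mul_left_cancel₀ h4
    rw [h1]
    ring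
  unfold Ct
  have h5 : ∫ w, dzb f w / (z - w) = -∫ v, dzb f (z + v) / v := by
    rw [← integral_neg, ← integral_add_left_eq_self (fun w => dzb f w / (z - w)) z]
    refine integral_congr_ae (Filter.Eventually.of_forall fun v => ?_)
    simp only
    rw [sub_add_cancel_left, div_neg]
  rw [h5, h3]
  have hpi : (Real.pi : ℂ) ≠ 0 := by exact_mod_cast Real.pi_ne_zero
  push_cast
  field_simp

-- TARGET
theorem C1 (hKE2 : T_KE2) : T_C1 := by
  intro f hf hc
  have hcf : Continuous (fderiv ℝ f) := hf.continuous_fderiv one_ne_zero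
  have hcv : ∀ v : ℂ, Continuous (fun w => fderiv ℝ f w v) := fun v =>
    hcf.clm_apply continuous_const
  have hsv : ∀ v : ℂ, HasCompactSupport (fun w => fderiv ℝ f w v) := fun v =>
    hc.fderiv_apply ℝ v
  have hiv := fun v z => C1_int hKE2 _ (hcv v) (hsv v) z
  have hcd : ContDiff ℝ 1 (Ct f) := by
    have h1 := hc.contDiff_convolution_right (ContinuousLinearMap.mul ℝ ℂ) (C1_loc hKE2) hf
    have h2 : Ct f = fun z => ((1 / Real.pi : ℝ) : ℂ) *
        (convolution C1_K f (ContinuousLinearMap.mul ℝ ℂ) (volume : Measure ℂ)) z :=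
      funext (C1_conv f)
    rw [h2]
    exact contDiff_const.mul h1
  have hlin : ∀ (c : ℂ) (z : ℂ), Ct (fun w => (fderiv ℝ f w 1 + c * fderiv ℝ f w Complex.I) / 2) z =
      (Ct (fun w => fderiv ℝ f w 1) z + c * Ct (fun w => fderiv ℝ f w Complex.I) z) / 2 := by
    intro c z
    unfold Ct
    have h1 : ∀ w, (fderiv ℝ f w 1 + c * fderiv ℝ f w Complex.I) / 2 / (z - w) =
        (1 / 2) * (fderiv ℝ f w 1 / (z - w)) + (c / 2) * (fderiv ℝ f w Complex.I / (z - w)) := by
      intro w
      rw [div_eq_mul_inv, div_eq_mul_inv, div_eq_mul_inv, div_eq_mul_inv, div_eq_mul_inv]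
      ring
    simp only [h1]
    rw [integral_add ((hiv 1 z).const_mul _) ((hiv Complex.I z).const_mul _), integral_const_mul,
      integral_const_mul]
    ring
  have hdz : ∀ z, dz (Ct f) z = Ct (dz f) z := by
    intro z
    have h1 : dz f = fun w => (fderiv ℝ f w 1 + (-Complex.I) * fderiv ℝ f w Complex.I) / 2 := by
      funext w
      unfold dz
      ring
    rw [h1, hlin]
    unfold dz
    rw [C1_fderiv hKE2 f hf hc, C1_fderiv hKE2 f hf hc]
    ring
  have hdzb : ∀ z, dzb (Ct f) z = Ct (dzb f) z := by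
    intro z
    have h1 : dzb f = fun w => (fderiv ℝ f w 1 + Complex.I * fderiv ℝ f w Complex.I) / 2 := rfl
    rw [h1, hlin]
    unfold dzb
    rw [C1_fderiv hKE2 f hf hc, C1_fderiv hKE2 f hf hc]
  refine ⟨hcd, fun z => ⟨C1_int hKE2 f hf.continuous hc z, ?_, hdz z, C1_cp f hf hc z⟩⟩
  rw [hdzb z, C1_cp f hf hc z]

end Pool.Agent.Helper614.HE.P_C1
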