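import Pool.Agent.Helper614.HE.SpecC
set_option autoImplicit false

open scoped Manifold ContDiff Matrix ComplexOrder
open Matrix Topology MeasureTheory Set Filter

namespace Pool.Agent.Helper614.HE.P_CH

open Pool.Agent.Helper614.HE



/-- the truncated power -/
noncomputable def CH_phi (s : ℝ) (u : ℂ) : ℝ :=
  (Metric.closedBall (0 : ℂ) 1).indicator (fun w : ℂ => ‖w‖ ^ (-s)) u

theorem CH_phi_integrable (hKE2 : T_KE2) (s : ℝ) (hs : s < 2) : Integrable (CH_phi s) := by
  have h := hKE2.1 s hs 1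
  exact (integrable_indicator_iff Metric.isClosed_closedBall.measurableSet).2 h

theorem CH_phi_nonneg (s : ℝ) (u : ℂ) : 0 ≤ CH_phi s u :=
  Set.indicator_nonneg (fun w _ => Real.rpow_nonneg (norm_nonneg w) _) u

theorem CH_one_integrable (R : ℝ) :
    Integrable ((Metric.closedBall (0 : ℂ) R).indicator (fun _ : ℂ => (1 : ℝ))) := by
  rw [integrable_indicator_iff Metric.isClosed_closedBall.measurableSet]
  exact integrableOn_const (by
    exact (isCompact_closedBall (0 : ℂ) R).measure_lt_top.ne)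

/-- pointwise: the power on the ball is at most the truncated power plus the indicator -/
theorem CH_le (s : ℝ) (hs : 0 ≤ s) (R : ℝ) (z w : ℂ) (hw : ‖w‖ ≤ R) :
    ‖z - w‖ ^ (-s) ≤ CH_phi s (z - w) + (Metric.closedBall (0 : ℂ) R).indicator (fun _ => (1 : ℝ)) w := by
  have h1 : (Metric.closedBall (0 : ℂ) R).indicator (fun _ => (1 : ℝ)) w = 1 := by
    apply Set.indicator_of_mem
    simpa using hw
  rw [h1]
  by_cases h : ‖z - w‖ ≤ 1
  · have h2 : CH_phi s (z - w) = ‖z - w‖ ^ (-s) := by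
      unfold CH_phi
      apply Set.indicator_of_mem
      simpa using h
    rw [h2]
    linarith
  · have h2 := CH_phi_nonneg s (z - w)
    have h3 : ‖z - w‖ ^ (-s) ≤ 1 :=
      Real.rpow_le_one_of_one_le_of_nonpos (le_of_lt (not_le.1 h)) (by linarith)
    linarith

/-- the elementary inequality -/
theorem CH_elem (z z' w : ℂ) :
    ‖(z - w)⁻¹ - (z' - w)⁻¹‖ ≤
      ‖z - z'‖ ^ (1 / 2 : ℝ) * (‖z - w‖ ^ (-(3 / 2) : ℝ) + ‖z' - w‖ ^ (-(3 / 2) : ℝ)) := by
  have hpow : ∀ a : ℝ, 0 < a → a ^ (-(3 / 2) : ℝ) = 1 / (Real.sqrt a) ^ 3 := by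
    intro a ha
    rw [Real.rpow_neg ha.le, Real.sqrt_eq_rpow, ← Real.rpow_natCast, ← Real.rpow_mul ha.le]
    norm_num
  have hsq : ∀ a : ℝ, a ^ (1 / 2 : ℝ) = Real.sqrt a := fun a => (Real.sqrt_eq_rpow a).symm
  by_cases h1 : z - w = 0
  · have hw : w = z := (sub_eq_zero.1 h1).symm
    subst hw
    by_cases h2 : z' - w = 0
    · have hw' : z' = w := sub_eq_zero.1 h2
      subst hw'
      simp
    · have hpos : 0 < ‖z' - w‖ := norm_pos_iff.2 h2
      rw [hsq, hpow _ hpos, norm_sub_rev w z']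
      simp only [sub_self, _root_.inv_zero, zero_sub, norm_neg, norm_inv, norm_zero]
      rw [Real.zero_rpow (by norm_num), zero_add]
      have hs : 0 < Real.sqrt ‖z' - w‖ := Real.sqrt_pos.2 hpos
      have h3 : ‖z' - w‖ = Real.sqrt ‖z' - w‖ ^ 2 := (Real.sq_sqrt hpos.le).symm
      set q := Real.sqrt ‖z' - w‖
      rw [h3]
      have : q * (1 / q ^ 3) = (q ^ 2)⁻¹ := by field_simp
      rw [this]
  · by_cases h2 : z' - w = 0
    · have hw : w = z' := (sub_eq_zero.1 h2).symm
      subst hw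
      have hpos : 0 < ‖z - w‖ := norm_pos_iff.2 h1
      rw [hsq, hpow _ hpos]
      simp only [sub_self, _root_.inv_zero, sub_zero, norm_inv, norm_zero]
      rw [Real.zero_rpow (by norm_num), add_zero]
      have hs : 0 < Real.sqrt ‖z - w‖ := Real.sqrt_pos.2 hpos
      have h3 : ‖z - w‖ = Real.sqrt ‖z - w‖ ^ 2 := (Real.sq_sqrt hpos.le).symm
      set q := Real.sqrt ‖z - w‖
      rw [h3]
      have : q * (1 / q ^ 3) = (q ^ 2)⁻¹ := by field_simp
      rw [this]
    · have ha : 0 < ‖z - w‖ := norm_pos_iff.2 h1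
      have hb : 0 < ‖z' - w‖ := norm_pos_iff.2 h2
      have hd : ‖z - z'‖ ≤ ‖z - w‖ + ‖z' - w‖ := by
        have : z - z' = (z - w) - (z' - w) := by ring
        rw [this]
        exact norm_sub_le _ _
      have hinv : (z - w)⁻¹ - (z' - w)⁻¹ = (z' - z) / ((z - w) * (z' - w)) := by
        field_simp
        ring
      rw [hinv, norm_div, norm_mul, norm_sub_rev z' z, hsq, hpow _ ha, hpow _ hb]
      have hp : 0 < Real.sqrt ‖z - w‖ := Real.sqrt_pos.2 ha
      have hq : 0 < Real.sqrt ‖z' - w‖ := Real.sqrt_pos.2 hb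
      have hr : 0 ≤ Real.sqrt ‖z - z'‖ := Real.sqrt_nonneg _
      have ea : ‖z - w‖ = Real.sqrt ‖z - w‖ ^ 2 := (Real.sq_sqrt ha.le).symm
      have eb : ‖z' - w‖ = Real.sqrt ‖z' - w‖ ^ 2 := (Real.sq_sqrt hb.le).symm
      have ed : ‖z - z'‖ = Real.sqrt ‖z - z'‖ ^ 2 := (Real.sq_sqrt (norm_nonneg _)).symm
      set p := Real.sqrt ‖z - w‖
      set q := Real.sqrt ‖z' - w‖
      set r := Real.sqrt ‖z - z'‖
      rw [ea, eb, ed] at hd
      have hrpq : r ≤ p + q := by nlinarith
      rw [ea, eb, ed]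
      have h5 : r ^ 2 / (p ^ 2 * q ^ 2) ≤ r * (p + q) / (p ^ 2 * q ^ 2) := by
        apply div_le_div_of_nonneg_right _ (by positivity)
        nlinarith
      have h6 : (p + q) / (p ^ 2 * q ^ 2) ≤ 1 / p ^ 3 + 1 / q ^ 3 := by
        rw [div_add_div _ _ (by positivity) (by positivity), div_le_div_iff₀ (by positivity)
          (by positivity)]
        have h7 : 0 ≤ (p - q) ^ 2 * (p + q) := by positivity
        have h8 : (p + q) * (p * q) ≤ p ^ 3 + q ^ 3 := by nlinarith
        have h9 : 0 ≤ p ^ 2 * q ^ 2 := by positivity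
        nlinarith [mul_le_mul_of_nonneg_left h8 h9]
      calc r ^ 2 / (p ^ 2 * q ^ 2) ≤ r * (p + q) / (p ^ 2 * q ^ 2) := h5
        _ = r * ((p + q) / (p ^ 2 * q ^ 2)) := by ring
        _ ≤ r * (1 / p ^ 3 + 1 / q ^ 3) := mul_le_mul_of_nonneg_left h6 hr

-- TARGET
theorem CH (hKE2 : T_KE2) : T_CH := by
  intro R c
  set M : ℝ := (∫ u, CH_phi (3 / 2) u) +
    ∫ w, (Metric.closedBall (0 : ℂ) R).indicator (fun _ : ℂ => (1 : ℝ)) w with hM
  refine ⟨1 / Real.pi * (c * (2 * M)), ?_⟩
  intro f hf hfc hf0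
  have hc : 0 ≤ c := (norm_nonneg _).trans (hfc 0)
  have hone := CH_one_integrable R
  have hphi : ∀ s : ℝ, s < 2 → ∀ z : ℂ, Integrable (fun w => CH_phi s (z - w)) := by
    intro s hs z
    exact (CH_phi_integrable hKE2 s hs).comp_sub_left z
  have hint : ∀ z, Integrable (fun w => f w / (z - w)) := by
    intro z
    refine Integrable.mono' (((hphi 1 (by norm_num) z).add hone).const_mul c) ?_ ?_
    · exact (hf.div (measurable_const.sub measurable_id)).aestronglyMeasurable
    · refine Eventually.of_forall fun w => ?_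
      by_cases hw : ‖w‖ ≤ R
      · have h1 := CH_le 1 (by norm_num) R z w hw
        rw [norm_div, div_eq_mul_inv, ← Real.rpow_neg_one]
        exact mul_le_mul (hfc w) h1 (Real.rpow_nonneg (norm_nonneg _) _) hc
      · rw [hf0 w (not_le.1 hw), zero_div, norm_zero]
        refine mul_nonneg hc (add_nonneg (CH_phi_nonneg _ _) ?_)
        exact Set.indicator_nonneg (fun _ _ => zero_le_one) _
  refine ⟨hint, fun z z' => ?_⟩
  have hdiff : Ct f z - Ct f z' =
      (1 / Real.pi : ℝ) * ∫ w, (f w / (z - w) - f w / (z' - w)) := by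
    unfold Ct
    rw [integral_sub (hint z) (hint z')]
    ring
  rw [hdiff, norm_mul]
  have hpi : ‖((1 / Real.pi : ℝ) : ℂ)‖ = 1 / Real.pi := by
    rw [Complex.norm_real, Real.norm_eq_abs, abs_of_nonneg (by positivity)]
  rw [hpi]
  set D : ℝ := ‖z - z'‖ ^ (1 / 2 : ℝ) with hD
  have hDnn : 0 ≤ D := Real.rpow_nonneg (norm_nonneg _) _
  let G : ℂ → ℝ := fun w => (c * D) *
    ((CH_phi (3 / 2) (z - w) + (Metric.closedBall (0 : ℂ) R).indicator (fun _ => (1 : ℝ)) w) +
     (CH_phi (3 / 2) (z' - w) + (Metric.closedBall (0 : ℂ) R).indicator (fun _ => (1 : ℝ)) w))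
  have hGint : Integrable G :=
    (((hphi (3 / 2) (by norm_num) z).add hone).add
      ((hphi (3 / 2) (by norm_num) z').add hone)).const_mul _
  have hbound : ‖∫ w, (f w / (z - w) - f w / (z' - w))‖ ≤ ∫ w, G w := by
    refine norm_integral_le_of_norm_le hGint (Eventually.of_forall fun w => ?_)
    by_cases hw : ‖w‖ ≤ R
    · have h1 := CH_le (3 / 2) (by norm_num) R z w hw
      have h2 := CH_le (3 / 2) (by norm_num) R z' w hw
      have h3 := CH_elem z z' w
      have h4 : f w / (z - w) - f w / (z' - w) = f w * ((z - w)⁻¹ - (z' - w)⁻¹) := by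
        rw [div_eq_mul_inv, div_eq_mul_inv]
        ring
      rw [h4, norm_mul]
      calc ‖f w‖ * ‖(z - w)⁻¹ - (z' - w)⁻¹‖
          ≤ c * (D * (‖z - w‖ ^ (-(3 / 2) : ℝ) + ‖z' - w‖ ^ (-(3 / 2) : ℝ))) :=
            mul_le_mul (hfc w) h3 (norm_nonneg _) hc
        _ ≤ c * (D * ((CH_phi (3 / 2) (z - w) +
              (Metric.closedBall (0 : ℂ) R).indicator (fun _ => (1 : ℝ)) w) +
              (CH_phi (3 / 2) (z' - w) +
              (Metric.closedBall (0 : ℂ) R).indicator (fun _ => (1 : ℝ)) w))) := by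
            apply mul_le_mul_of_nonneg_left _ hc
            apply mul_le_mul_of_nonneg_left _ hDnn
            exact add_le_add h1 h2
        _ = G w := by
            simp only [G]
            ring
    · rw [hf0 w (not_le.1 hw)]
      simp only [zero_div, sub_self, norm_zero, G]
      have h5 : 0 ≤ (Metric.closedBall (0 : ℂ) R).indicator (fun _ => (1 : ℝ)) w :=
        Set.indicator_nonneg (fun _ _ => zero_le_one) _
      have h6 := CH_phi_nonneg (3 / 2) (z - w)
      have h7 := CH_phi_nonneg (3 / 2) (z' - w)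
      exact mul_nonneg (mul_nonneg hc hDnn) (by linarith)
  have hGval : ∫ w, G w = (c * D) * (2 * M) := by
    simp only [G]
    rw [integral_const_mul]
    congr 1
    have e1 : ∀ x : ℂ, ∫ w, (CH_phi (3 / 2) (x - w) +
        (Metric.closedBall (0 : ℂ) R).indicator (fun _ => (1 : ℝ)) w) = M := by
      intro x
      rw [integral_add (hphi (3 / 2) (by norm_num) x) hone, hM]
      congr 1
      exact integral_sub_left_eq_self (CH_phi (3 / 2)) volume x
    have e2 := integral_add ((hphi (3 / 2) (by norm_num) z).add hone)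
      ((hphi (3 / 2) (by norm_num) z').add hone)
    simp only [Pi.add_apply] at e2
    rw [e2, e1, e1]
    ring
  calc 1 / Real.pi * ‖∫ w, (f w / (z - w) - f w / (z' - w))‖
      ≤ 1 / Real.pi * ∫ w, G w := mul_le_mul_of_nonneg_left hbound (by positivity)
    _ = 1 / Real.pi * (c * (2 * M)) * D := by
        rw [hGval]
        ring

end Pool.Agent.Helper614.HE.P_CH
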