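import Pool.Agent.Helper614.HE.SpecC
set_option autoImplicit false

open scoped Manifold ContDiff Matrix ComplexOrder
open Matrix Topology MeasureTheory Set Filter

namespace Pool.Agent.Helper614.HE.P_CHA

open Pool.Agent.Helper614.HE



/-- A local inverse of `w ↦ w ^ 4` near a nonzero point, with source avoiding `0`. -/
theorem CHA_root (y : ℂ) (hy : y ≠ 0) : ∃ k : OpenPartialHomeomorph ℂ ℂ, y ∈ k.source ∧
    (∀ w, k w = w ^ 4) ∧ (∀ w ∈ k.source, w ≠ 0) := by
  have hd : HasStrictDerivAt (fun w : ℂ => w ^ 4) (4 * y ^ 3) y := by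
    simpa using hasStrictDerivAt_pow 4 y
  have hne : (4 : ℂ) * y ^ 3 ≠ 0 := mul_ne_zero (by norm_num) (pow_ne_zero _ hy)
  have hf := hd.hasStrictFDerivAt_equiv hne
  refine ⟨(hf.toOpenPartialHomeomorph _).restrOpen {w | w ≠ 0} isOpen_ne, ?_, ?_, ?_⟩
  · rw [OpenPartialHomeomorph.restrOpen_source]
    exact ⟨hf.mem_toOpenPartialHomeomorph_source, hy⟩
  · intro w
    rfl
  · intro w hw
    rw [OpenPartialHomeomorph.restrOpen_source] at hw
    exact hw.2

-- TARGET
theorem CHA : T_CHA := by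
  classical
  intro m _ p hp
  obtain ⟨k, hk0, hk1, hk2⟩ := CHA_root (p : ℂ × ℂ).2 hp
  have hinv : ∀ v : ℂ, v ^ (4 * m) + 1 ∈ k.target →
      ((v, k.symm (v ^ (4 * m) + 1)) : ℂ × ℂ) ∈ Crv m := by
    intro v hv
    change (k.symm (v ^ (4 * m) + 1)) ^ 4 = v ^ (4 * m) + 1
    rw [← hk1]
    exact k.right_inv hv
  have hmem : ∀ x : Crv m, (x : ℂ × ℂ).2 ∈ k.source →
      (x : ℂ × ℂ).1 ^ (4 * m) + 1 ∈ k.target ∧
        k.symm ((x : ℂ × ℂ).1 ^ (4 * m) + 1) = (x : ℂ × ℂ).2 := by
    intro x hx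
    have h1 : (x : ℂ × ℂ).2 ^ 4 = (x : ℂ × ℂ).1 ^ (4 * m) + 1 := x.2
    rw [← h1, ← hk1]
    exact ⟨k.map_source hx, k.left_inv hx⟩
  have hcont : Continuous (fun v : ℂ => v ^ (4 * m) + 1) := by fun_prop
  let g : ℂ → Crv m := fun v => if h : v ^ (4 * m) + 1 ∈ k.target then
      ⟨(v, k.symm (v ^ (4 * m) + 1)), hinv v h⟩ else p
  have hg : ∀ v : ℂ, v ^ (4 * m) + 1 ∈ k.target →
      ((g v : Crv m) : ℂ × ℂ) = (v, k.symm (v ^ (4 * m) + 1)) := by
    intro v hv
    simp only [g, dif_pos hv]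
  let e : OpenPartialHomeomorph (Crv m) ℂ :=
    { toFun := fun x => (x : ℂ × ℂ).1
      invFun := g
      source := {x | (x : ℂ × ℂ).2 ∈ k.source}
      target := {v | v ^ (4 * m) + 1 ∈ k.target}
      map_source' := fun x hx => (hmem x hx).1
      map_target' := fun v hv => by
        have h1 := hg v hv
        change ((g v : Crv m) : ℂ × ℂ).2 ∈ k.source
        rw [h1]
        exact k.map_target hv
      left_inv' := fun x hx => by
        apply Subtype.ext
        rw [hg _ (hmem x hx).1, (hmem x hx).2]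
      right_inv' := fun v hv => by
        change ((g v : Crv m) : ℂ × ℂ).1 = v
        rw [hg v hv]
      open_source := k.open_source.preimage (continuous_snd.comp continuous_subtype_val)
      open_target := k.open_target.preimage hcont
      continuousOn_toFun := (continuous_fst.comp continuous_subtype_val).continuousOn
      continuousOn_invFun := by
        rw [Topology.IsInducing.subtypeVal.continuousOn_iff]
        have h1 : ContinuousOn (fun v : ℂ => ((v, k.symm (v ^ (4 * m) + 1)) : ℂ × ℂ))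
            {v | v ^ (4 * m) + 1 ∈ k.target} :=
          continuousOn_id.prodMk (k.continuousOn_symm.comp hcont.continuousOn fun v hv => hv)
        exact h1.congr fun v hv => hg v hv }
  refine ⟨e, hk0, fun x hx => ⟨rfl, hk2 _ hx⟩, ?_⟩
  have h2 : DifferentiableOn ℂ (fun v : ℂ => k.symm (v ^ (4 * m) + 1))
      {v | v ^ (4 * m) + 1 ∈ k.target} := by
    intro v hv
    have h3 : HasDerivAt k (4 * (k.symm (v ^ (4 * m) + 1)) ^ 3) (k.symm (v ^ (4 * m) + 1)) := by
      have h4 : HasDerivAt (fun w : ℂ => w ^ 4) (4 * (k.symm (v ^ (4 * m) + 1)) ^ 3)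
          (k.symm (v ^ (4 * m) + 1)) := by
        simpa using hasDerivAt_pow 4 (k.symm (v ^ (4 * m) + 1))
      have h5 : (k : ℂ → ℂ) = fun w : ℂ => w ^ 4 := funext hk1
      rw [h5]
      exact h4
    have h6 : (4 : ℂ) * (k.symm (v ^ (4 * m) + 1)) ^ 3 ≠ 0 :=
      mul_ne_zero (by norm_num) (pow_ne_zero _ (hk2 _ (k.map_target hv)))
    have h7 := (k.hasDerivAt_symm hv h6 h3).differentiableAt
    have h8 : DifferentiableAt ℂ (fun v : ℂ => v ^ (4 * m) + 1) v := by fun_prop
    exact (DifferentiableAt.comp v h7 h8).differentiableWithinAt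
  refine h2.congr fun v hv => ?_
  change ((g v : Crv m) : ℂ × ℂ).2 = k.symm (v ^ (4 * m) + 1)
  rw [hg v hv]

end Pool.Agent.Helper614.HE.P_CHA
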