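import Pool.Agent.Helper614.HE.SpecC
set_option autoImplicit false

open scoped Manifold ContDiff Matrix ComplexOrder
open Matrix Topology MeasureTheory Set Filter

namespace Pool.Agent.Helper614.HE.P_CONN

open Pool.Agent.Helper614.HE



/-
PROOF OF THE TARGET IN WORDS
Base points: (0,y0) with y0^4 = 1, and (zeta,0) with zeta^{4m} = -1. (a) For every y0 with y0^4 = 1 and zeta with zeta^{4m} = -1 the path s -> (s zeta, (1 - s^{4m})^{1/4} y0), s in [0,1] (real fourth root) is continuous in Crv m and joins (0,y0) to (zeta,0): y^4 = (1-s^{4m}) y0^4 = 1 + (s zeta)^{4m}. There is at least one zeta, e.g. exp(i pi/(4m)), so all the points (0,y0) are joined to one fixed (zeta0,0),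
and then all base points are in one path component. (b) Let (v,y) be in Crv m. If y = 0 it is a base point. Let y not 0, w = v^{4m}, y^4 = 1 + w. Case 1: w is not in (-oo,-1] (real). Then the path s -> 1 + s^{4m} w, s in [0,1], does not pass through 0 (if 1 + s^{4m} w = 0 then w = -1/s^{4m} is real and <= -1). We want a continuous y(s) with y(s)^4 = 1 + s^{4m} w, y(1) = y. Use that the half line argument: the
points 1 + r w, r in [0,1], are in the slit plane unless they are real <= 0, i.e. if w is not real they all have imaginary part of a fixed sign for r > 0, and if w is real > -1 they are positive. So 1 + r w is in Complex.slitPlane for all r in [0,1], and c(r) = (1 + r w)^{1/4} (Complex.cpow, principal) is continuous and nonzero, c(r)^4 = 1 + r w. Then y/c(1) is a fourth root of 1, call it u, and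
s -> (s v, u c(s^{4m})) joins (0, u) (c(0) = 1) to (v,y). Case 2: w real, w <= -1; as y not 0, w < -1. Let s0 in (0,1) with s0^{4m} = 1/|w|. Path s in [s0,1]: (s v, y ((s^{4m}|w| - 1)/(|w|-1))^{1/4}) (real fourth root of a nonnegative real): y^4 (s^{4m}|w|-1)/(|w|-1) with y^4 = 1 + w = -(|w|-1), so it equals 1 - s^{4m}|w| = 1 + (s v)^{4m}. It joins (s0 v, 0), a
point with (s0 v)^{4m} = -1, to (v,y). So every point is joined to a base point, Crv m is path connected: PathConnectedSpace -> PreconnectedSpace (or: isPreconnected of the union of images of intervals; joinedIn, Path from a continuous map on the unit interval; JoinedIn / Joined can be built from continuous functions on [0,1] with values in the subtype Crv m).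
-/
/-- real fourth root -/
noncomputable def CONN_r4 (x : ℝ) : ℝ := √(√x)

theorem CONN_r4_pow {x : ℝ} (hx : 0 ≤ x) : CONN_r4 x ^ 4 = x := by
  unfold CONN_r4
  have h1 : √(√x) ^ 2 = √x := Real.sq_sqrt (Real.sqrt_nonneg x)
  have h2 : √x ^ 2 = x := Real.sq_sqrt hx
  calc √(√x) ^ 4 = (√(√x) ^ 2) ^ 2 := by ring
    _ = x := by rw [h1, h2]

theorem CONN_r4_cont : Continuous CONN_r4 := Real.continuous_sqrt.comp Real.continuous_sqrt

theorem CONN_r4_zero : CONN_r4 0 = 0 := by simp [CONN_r4]

theorem CONN_r4_one : CONN_r4 1 = 1 := by simp [CONN_r4]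

/-- `(0, u)` is joined to `(ζ, 0)` -/
theorem CONN_J1 {m : ℕ} (hm : 1 ≤ m) {u ζ : ℂ} (hu : u ^ 4 = 1) (hζ : ζ ^ (4 * m) = -1) :
    JoinedIn (Crv m) ((0, u) : ℂ × ℂ) (ζ, 0) := by
  have hm4 : 4 * m ≠ 0 := by omega
  refine JoinedIn.ofLine (f := fun s : ℝ => (((s : ℂ) * ζ,
    ((CONN_r4 (1 - s ^ (4 * m)) : ℝ) : ℂ) * u) : ℂ × ℂ)) ?_ ?_ ?_ ?_
  · apply Continuous.continuousOn
    refine Continuous.prodMk (Complex.continuous_ofReal.mul continuous_const) ?_
    refine Continuous.mul (Complex.continuous_ofReal.comp (CONN_r4_cont.comp ?_)) continuous_const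
    exact continuous_const.sub (continuous_pow _)
  · simp [hm4, CONN_r4_one]
  · simp [CONN_r4_zero]
  · rintro _ ⟨s, ⟨hs0, hs1⟩, rfl⟩
    show (((CONN_r4 (1 - s ^ (4 * m)) : ℝ) : ℂ) * u) ^ 4 = ((s : ℂ) * ζ) ^ (4 * m) + 1
    have h1 : 0 ≤ 1 - s ^ (4 * m) := by
      have := pow_le_one₀ (n := 4 * m) hs0 hs1
      linarith
    have h2 : ((CONN_r4 (1 - s ^ (4 * m)) : ℝ) : ℂ) ^ 4 = 1 - (s : ℂ) ^ (4 * m) := by
      rw [← Complex.ofReal_pow, CONN_r4_pow h1]
      push_cast
      ring
    rw [mul_pow, mul_pow, hu, hζ, h2]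
    ring

/-- the first case -/
theorem CONN_J2 {m : ℕ} (hm : 1 ≤ m) {v y : ℂ} (hp : y ^ 4 = v ^ (4 * m) + 1)
    (hw : ∀ r : ℝ, 0 ≤ r → r ≤ 1 → (1 + (r : ℂ) * v ^ (4 * m)) ∈ Complex.slitPlane) :
    ∃ u : ℂ, u ^ 4 = 1 ∧ JoinedIn (Crv m) ((0, u) : ℂ × ℂ) (v, y) := by
  have hm4 : 4 * m ≠ 0 := by omega
  set w : ℂ := v ^ (4 * m) with hwdef
  set c : ℝ → ℂ := fun r => (1 + (r : ℂ) * w) ^ (((4 : ℕ) : ℂ)⁻¹) with hc
  have hc4 : ∀ r, c r ^ 4 = 1 + (r : ℂ) * w := fun r =>
    Complex.cpow_nat_inv_pow _ (by norm_num)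
  have hc1 : c 1 ^ 4 = y ^ 4 := by
    rw [hc4, hp, Complex.ofReal_one]
    ring
  have hc10 : c 1 ≠ 0 := by
    intro h
    have h1 := hw 1 (by norm_num) le_rfl
    have h2 := hc4 1
    rw [h, zero_pow (by norm_num)] at h2
    exact Complex.slitPlane_ne_zero h1 h2.symm
  have hu : (y / c 1) ^ 4 = 1 := by
    rw [div_pow, hc1]
    exact div_self (by rw [← hc1]; exact pow_ne_zero _ hc10)
  refine ⟨y / c 1, hu, ?_⟩
  refine JoinedIn.ofLine (f := fun s : ℝ => (((s : ℂ) * v, (y / c 1) * c (s ^ (4 * m))) : ℂ × ℂ))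
    ?_ ?_ ?_ ?_
  · refine ContinuousOn.prodMk (Complex.continuous_ofReal.mul continuous_const).continuousOn ?_
    refine ContinuousOn.mul continuousOn_const ?_
    refine ContinuousOn.cpow ?_ continuousOn_const ?_
    · apply Continuous.continuousOn
      refine continuous_const.add (Continuous.mul ?_ continuous_const)
      exact Complex.continuous_ofReal.comp (continuous_pow _)
    · rintro s ⟨hs0, hs1⟩
      exact hw _ (pow_nonneg hs0 _) (pow_le_one₀ hs0 hs1)
  · have h0 : c ((0 : ℝ) ^ (4 * m)) = 1 := by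
      rw [zero_pow hm4, hc]
      simp
    simp only [h0, Complex.ofReal_zero, zero_mul, mul_one]
  · simp only [one_pow, Complex.ofReal_one, one_mul, div_mul_cancel₀ _ hc10]
  · rintro _ ⟨s, ⟨hs0, hs1⟩, rfl⟩
    show ((y / c 1) * c (s ^ (4 * m))) ^ 4 = ((s : ℂ) * v) ^ (4 * m) + 1
    rw [mul_pow, mul_pow, hu, hc4, ← hwdef]
    push_cast
    ring

/-- the second case -/
theorem CONN_J3 {m : ℕ} (hm : 1 ≤ m) {v y : ℂ} (hp : y ^ 4 = v ^ (4 * m) + 1) {W : ℝ} (hW : 1 < W)
    (hw : v ^ (4 * m) = -(W : ℂ)) :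
    ∃ ζ : ℂ, ζ ^ (4 * m) = -1 ∧ JoinedIn (Crv m) ((ζ, 0) : ℂ × ℂ) (v, y) := by
  have hm4 : 4 * m ≠ 0 := by omega
  have hW0 : 0 < W := by linarith
  set ρ : ℝ → ℝ := fun r => ((1 + r * (W - 1)) / W) ^ (((4 * m : ℕ) : ℝ)⁻¹) with hρ
  have hρp : ∀ r, 0 ≤ r → ρ r ^ (4 * m) = (1 + r * (W - 1)) / W := by
    intro r hr
    refine Real.rpow_inv_natCast_pow ?_ hm4
    have : 0 ≤ r * (W - 1) := mul_nonneg hr (by linarith)
    positivity
  have hval : ∀ r, 0 ≤ r → ((ρ r : ℂ) * v) ^ (4 * m) = -(1 + (r : ℂ) * (W - 1)) := by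
    intro r hr
    have h1 : (ρ r : ℂ) ^ (4 * m) = (1 + (r : ℂ) * (W - 1)) / W := by
      rw [← Complex.ofReal_pow, hρp r hr]
      push_cast
      ring
    have h2 : (W : ℂ) ≠ 0 := by exact_mod_cast hW0.ne'
    rw [mul_pow, h1, hw]
    field_simp
  refine ⟨(ρ 0 : ℂ) * v, ?_, ?_⟩
  · rw [hval 0 le_rfl]
    simp
  · refine JoinedIn.ofLine (f := fun r : ℝ => (((ρ r : ℂ) * v, y * ((CONN_r4 r : ℝ) : ℂ)) : ℂ × ℂ))
      ?_ ?_ ?_ ?_
    · apply Continuous.continuousOn
      refine Continuous.prodMk (Continuous.mul (Complex.continuous_ofReal.comp ?_)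
        continuous_const) (continuous_const.mul (Complex.continuous_ofReal.comp CONN_r4_cont))
      refine Continuous.rpow_const ?_ (fun _ => Or.inr (by positivity))
      exact (continuous_const.add (continuous_id.mul continuous_const)).div_const _
    · simp [CONN_r4_zero]
    · have h1 : ρ 1 = 1 := by
        rw [hρ]
        have : (1 + 1 * (W - 1)) / W = 1 := by
          field_simp
          ring
        simp only [this, Real.one_rpow]
      simp [CONN_r4_one, h1]
    · rintro _ ⟨r, ⟨hr0, hr1⟩, rfl⟩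
      show (y * ((CONN_r4 r : ℝ) : ℂ)) ^ 4 = ((ρ r : ℂ) * v) ^ (4 * m) + 1
      rw [hval r hr0, mul_pow, ← Complex.ofReal_pow, CONN_r4_pow hr0, hp, hw]
      ring

-- TARGET
theorem CONN : T_CONN := by
  intro m hm
  obtain ⟨ζ₀, hζ₀⟩ := IsAlgClosed.exists_pow_nat_eq (-1 : ℂ) (n := 4 * m) (by omega)
  have hpc : IsPathConnected (Crv m) := by
    refine ⟨((0, 1) : ℂ × ℂ), ?_, ?_⟩
    · show (1 : ℂ) ^ 4 = 0 ^ (4 * m) + 1
      rw [zero_pow (by omega)]
      norm_num
    · rintro ⟨v, y⟩ hp
      have hp' : y ^ 4 = v ^ (4 * m) + 1 := hp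
      have hb : ∀ u : ℂ, u ^ 4 = 1 → JoinedIn (Crv m) ((0, 1) : ℂ × ℂ) (0, u) := fun u hu =>
        (CONN_J1 hm (one_pow 4) hζ₀).trans (CONN_J1 hm hu hζ₀).symm
      by_cases hy : y = 0
      · subst hy
        refine CONN_J1 hm (one_pow 4) ?_
        rw [zero_pow (by norm_num)] at hp'
        linear_combination -hp'
      by_cases hcase : (v ^ (4 * m)).im = 0 ∧ (v ^ (4 * m)).re ≤ -1
      · obtain ⟨h1, h2⟩ := hcase
        have hw : v ^ (4 * m) = -((-(v ^ (4 * m)).re : ℝ) : ℂ) := by
          apply Complex.ext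
          · simp
          · simpa using h1
        have hlt : (1 : ℝ) < -(v ^ (4 * m)).re := by
          rcases h2.lt_or_eq with h | h
          · linarith
          · exfalso
            apply hy
            rw [h] at hw
            have h3 : y ^ 4 = 0 := by
              rw [hp', hw]
              push_cast
              ring
            exact pow_eq_zero_iff (by norm_num) |>.1 h3
        obtain ⟨ζ, hζ, hj⟩ := CONN_J3 hm hp' hlt hw
        exact (CONN_J1 hm (one_pow 4) hζ).trans hj
      · obtain ⟨u, hu, hj⟩ := CONN_J2 hm hp' (by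
          intro r hr0 hr1
          rw [Complex.mem_slitPlane_iff]
          simp only [Complex.add_re, Complex.one_re, Complex.re_ofReal_mul, Complex.add_im,
            Complex.one_im, Complex.im_ofReal_mul, zero_add]
          by_cases him : (v ^ (4 * m)).im = 0
          · left
            have hre : -1 < (v ^ (4 * m)).re := by
              by_contra h
              exact hcase ⟨him, not_lt.1 h⟩
            rcases le_or_gt 0 (v ^ (4 * m)).re with h | h
            · have := mul_nonneg hr0 h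
              linarith
            · have : (v ^ (4 * m)).re ≤ r * (v ^ (4 * m)).re := by nlinarith
              linarith
          · rcases hr0.lt_or_eq with h | h
            · right
              exact mul_ne_zero h.ne' him
            · left
              rw [← h]
              norm_num)
        exact (hb u hu).trans hj
  exact Subtype.preconnectedSpace hpc.isConnected.isPreconnected

end Pool.Agent.Helper614.HE.P_CONN
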