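import Pool.Agent.Helper614.HE.SpecC
set_option autoImplicit false

open scoped Manifold ContDiff Matrix ComplexOrder
open Matrix Topology MeasureTheory Set Filter

namespace Pool.Agent.Helper614.HE.P_CTB

open Pool.Agent.Helper614.HE



/-
PROOF OF THE TARGET IN WORDS
Let |f| <= c Om. Integrability of f(w)/(z-w): |f(w)/(z-w)| <= c Om(w) |z-w|^{-1}, integrable by KE with s = 1 (rpow (-1) = inverse).
|Ct f z| <= (1/pi) c K.
Hoelder: Ct f z - Ct f z' = (1/pi) int f(w) [1/(z-w) - 1/(z'-w)] dw, and for w different from z, z' (almost every w)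
|1/(z-w) - 1/(z'-w)| = |z-z'| / (|z-w| |z'-w|) and |z-z'| = |z-z'|^{1/4} |z-z'|^{3/4},
|z-z'|^{3/4} <= (|z-w| + |z'-w|)^{3/4} <= |z-w|^{3/4} + |z'-w|^{3/4}. So it is <= |z-z'|^{1/4} (|z-w|^{-1/4} |z'-w|^{-1} + |z-w|^{-1} |z'-w|^{-1/4}).
With a = |z-w|^{-1}, b = |z'-w|^{-1}: a^{1/4} b <= a^{5/4} + b^{5/4} (the larger of a, b). So the kernel difference is
<= 2 |z-z'|^{1/4} (|z-w|^{-5/4} + |z'-w|^{-5/4}); integrate against c Om with KE for s = 5/4: <= 4 K c |z-z'|^{1/4} / pi.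
-/
-- TARGET
theorem CTB_aux1 (p q d : ℝ) (hp : 0 < p) (hpq : p ≤ q) (hd : 0 ≤ d) (hdpq : d ≤ p + q) :
    d / (p * q) ≤ 2 * d ^ (1 / 4 : ℝ) * p ^ (-(5 / 4) : ℝ) := by
  have hq : 0 < q := lt_of_lt_of_le hp hpq
  rcases hd.eq_or_lt with h0 | h0
  · rw [← h0]
    have : (0:ℝ) ^ (1/4:ℝ) = 0 := Real.zero_rpow (by norm_num)
    rw [this]; simp
  · have e1 : d = d ^ (1/4:ℝ) * d ^ (3/4:ℝ) := by
      rw [← Real.rpow_add h0]; norm_num
    have e2 : d ^ (3/4:ℝ) ≤ 2 * q ^ (3/4:ℝ) := by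
      calc d ^ (3/4:ℝ) ≤ (2 * q) ^ (3/4:ℝ) := by
            apply Real.rpow_le_rpow h0.le (by linarith) (by norm_num)
        _ = 2 ^ (3/4:ℝ) * q ^ (3/4:ℝ) := by
            rw [Real.mul_rpow (by norm_num) hq.le]
        _ ≤ 2 * q ^ (3/4:ℝ) := by
            apply mul_le_mul_of_nonneg_right _ (Real.rpow_nonneg hq.le _)
            calc (2:ℝ) ^ (3/4:ℝ) ≤ 2 ^ (1:ℝ) :=
                  Real.rpow_le_rpow_of_exponent_le (by norm_num) (by norm_num)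
              _ = 2 := by norm_num
    have e3 : q ^ (3/4:ℝ) / q = q ^ (-(1/4):ℝ) := by
      nth_rewrite 2 [← Real.rpow_one q]
      rw [← Real.rpow_sub hq]; norm_num
    have e4 : q ^ (-(1/4):ℝ) ≤ p ^ (-(1/4):ℝ) :=
      Real.rpow_le_rpow_of_nonpos hp hpq (by norm_num)
    have e5 : p ^ (-(1/4):ℝ) / p = p ^ (-(5/4):ℝ) := by
      nth_rewrite 2 [← Real.rpow_one p]
      rw [← Real.rpow_sub hp]; norm_num
    have hdn : 0 ≤ d ^ (1/4:ℝ) := Real.rpow_nonneg h0.le _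
    calc d / (p * q) = d ^ (1/4:ℝ) * d ^ (3/4:ℝ) / (p * q) := by rw [← e1]
      _ ≤ d ^ (1/4:ℝ) * (2 * q ^ (3/4:ℝ)) / (p * q) := by
          apply div_le_div_of_nonneg_right _ (mul_pos hp hq).le
          exact mul_le_mul_of_nonneg_left e2 hdn
      _ = 2 * d ^ (1/4:ℝ) * ((q ^ (3/4:ℝ) / q) / p) := by
          field_simp
      _ = 2 * d ^ (1/4:ℝ) * (q ^ (-(1/4):ℝ) / p) := by rw [e3]
      _ ≤ 2 * d ^ (1/4:ℝ) * (p ^ (-(1/4):ℝ) / p) := by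
          apply mul_le_mul_of_nonneg_left _ (by positivity)
          exact div_le_div_of_nonneg_right e4 hp.le
      _ = 2 * d ^ (1/4:ℝ) * p ^ (-(5/4):ℝ) := by rw [e5]

theorem CTB_aux2 (u v : ℂ) (hu : u ≠ 0) (hv : v ≠ 0) :
    ‖1 / u - 1 / v‖ ≤ 2 * ‖u - v‖ ^ (1 / 4 : ℝ) *
      (‖u‖ ^ (-(5 / 4) : ℝ) + ‖v‖ ^ (-(5 / 4) : ℝ)) := by
  have hu' : 0 < ‖u‖ := norm_pos_iff.mpr hu
  have hv' : 0 < ‖v‖ := norm_pos_iff.mpr hv
  have e : ‖1 / u - 1 / v‖ = ‖u - v‖ / (‖u‖ * ‖v‖) := by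
    have : 1 / u - 1 / v = (v - u) / (u * v) := by field_simp
    rw [this, norm_div, norm_mul, norm_sub_rev]
  have hd : ‖u - v‖ ≤ ‖u‖ + ‖v‖ := norm_sub_le u v
  have hn : 0 ≤ 2 * ‖u - v‖ ^ (1 / 4 : ℝ) := by positivity
  have hun : 0 ≤ ‖u‖ ^ (-(5 / 4) : ℝ) := by positivity
  have hvn : 0 ≤ ‖v‖ ^ (-(5 / 4) : ℝ) := by positivity
  rw [e, mul_add]
  rcases le_total ‖u‖ ‖v‖ with h | h
  · have := CTB_aux1 ‖u‖ ‖v‖ ‖u - v‖ hu' h (norm_nonneg _) hd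
    have h2 : 0 ≤ 2 * ‖u - v‖ ^ (1 / 4 : ℝ) * ‖v‖ ^ (-(5 / 4) : ℝ) := mul_nonneg hn hvn
    linarith
  · have := CTB_aux1 ‖v‖ ‖u‖ ‖u - v‖ hv' h (norm_nonneg _) (by linarith)
    rw [mul_comm ‖v‖ ‖u‖] at this
    have h2 : 0 ≤ 2 * ‖u - v‖ ^ (1 / 4 : ℝ) * ‖u‖ ^ (-(5 / 4) : ℝ) := mul_nonneg hn hun
    linarith

theorem CTB (hKE : T_KE) (hOM : T_OM) : T_CTB := by
  obtain ⟨K, hK, hKE⟩ := hKE
  have hOmpos : ∀ z, 0 < Om z := hOM.2.2.2.1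
  refine ⟨2 * K, by positivity, ?_⟩
  intro f c hf hc hfc
  have key1 : ∀ z : ℂ, ∀ w : ℂ, ‖f w / (z - w)‖ ≤ c * (Om w * ‖z - w‖ ^ (-(1:ℝ))) := by
    intro z w
    rw [norm_div, Real.rpow_neg_one, div_eq_mul_inv, ← mul_assoc]
    exact mul_le_mul_of_nonneg_right (hfc w) (inv_nonneg.mpr (norm_nonneg _))
  have hint : ∀ z : ℂ, Integrable (fun w => f w / (z - w)) := by
    intro z
    have h1 := (hKE z 1 ⟨by norm_num, by norm_num⟩).1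
    refine Integrable.mono' (h1.const_mul c) ?_ (Filter.Eventually.of_forall (key1 z))
    exact (hf.div (measurable_const.sub measurable_id)).aestronglyMeasurable
  have hpi : (3:ℝ) < Real.pi := Real.pi_gt_three
  have hpin : ‖((1 / Real.pi : ℝ) : ℂ)‖ = 1 / Real.pi := by
    rw [Complex.norm_real, Real.norm_of_nonneg (by positivity)]
  refine ⟨hint, ?_, ?_⟩
  · intro z
    have h1 := hKE z 1 ⟨by norm_num, by norm_num⟩
    have h2 : ‖∫ w, f w / (z - w)‖ ≤ c * K := by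
      calc ‖∫ w, f w / (z - w)‖ ≤ ∫ w, c * (Om w * ‖z - w‖ ^ (-(1:ℝ))) :=
            norm_integral_le_of_norm_le (h1.1.const_mul c) (Filter.Eventually.of_forall (key1 z))
        _ = c * ∫ w, (Om w * ‖z - w‖ ^ (-(1:ℝ))) := by rw [integral_const_mul]
        _ ≤ c * K := mul_le_mul_of_nonneg_left h1.2 hc
    rw [Ct, norm_mul, hpin]
    have h3 : 1 / Real.pi ≤ 1 := by
      rw [div_le_one (by positivity)]; linarith
    calc 1 / Real.pi * ‖∫ w, f w / (z - w)‖ ≤ 1 * (c * K) :=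
          mul_le_mul h3 h2 (norm_nonneg _) (by norm_num)
      _ ≤ 2 * K * c := by nlinarith [mul_nonneg hc hK.le]
  · intro z z'
    have h1 := hKE z (5/4) ⟨by norm_num, by norm_num⟩
    have h2 := hKE z' (5/4) ⟨by norm_num, by norm_num⟩
    have e1 : Ct f z - Ct f z' = ((1 / Real.pi : ℝ) : ℂ) * ∫ w, (f w / (z - w) - f w / (z' - w)) := by
      rw [Ct, Ct, integral_sub (hint z) (hint z')]; ring
    have hae : ∀ᵐ w : ℂ, ‖f w / (z - w) - f w / (z' - w)‖ ≤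
        (2 * ‖z - z'‖ ^ (1 / 4 : ℝ) * c) * (Om w * ‖z - w‖ ^ (-(5/4:ℝ)) + Om w * ‖z' - w‖ ^ (-(5/4:ℝ))) := by
      have hz : ∀ᵐ w : ℂ, w ≠ z := by
        exact compl_mem_ae_iff.mpr (measure_singleton z)
      have hz' : ∀ᵐ w : ℂ, w ≠ z' := by
        exact compl_mem_ae_iff.mpr (measure_singleton z')
      filter_upwards [hz, hz'] with w hw hw'
      have hu : z - w ≠ 0 := sub_ne_zero.mpr (Ne.symm hw)
      have hv : z' - w ≠ 0 := sub_ne_zero.mpr (Ne.symm hw')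
      have h3 := CTB_aux2 (z - w) (z' - w) hu hv
      have e2 : z - w - (z' - w) = z - z' := by ring
      rw [e2] at h3
      have e3 : f w / (z - w) - f w / (z' - w) = f w * (1 / (z - w) - 1 / (z' - w)) := by ring
      rw [e3, norm_mul]
      calc ‖f w‖ * ‖1 / (z - w) - 1 / (z' - w)‖
          ≤ (c * Om w) * (2 * ‖z - z'‖ ^ (1 / 4 : ℝ) *
            (‖z - w‖ ^ (-(5 / 4) : ℝ) + ‖z' - w‖ ^ (-(5 / 4) : ℝ))) := by
            apply mul_le_mul (hfc w) h3 (norm_nonneg _)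
            exact mul_nonneg hc (hOmpos w).le
        _ = _ := by ring
    have h4 : ‖∫ w, (f w / (z - w) - f w / (z' - w))‖ ≤ (2 * ‖z - z'‖ ^ (1 / 4 : ℝ) * c) * (K + K) := by
      calc ‖∫ w, (f w / (z - w) - f w / (z' - w))‖ ≤ ∫ w, (2 * ‖z - z'‖ ^ (1 / 4 : ℝ) * c) * (Om w * ‖z - w‖ ^ (-(5/4:ℝ)) + Om w * ‖z' - w‖ ^ (-(5/4:ℝ))) :=
            norm_integral_le_of_norm_le ((h1.1.add h2.1).const_mul _) hae
        _ = (2 * ‖z - z'‖ ^ (1 / 4 : ℝ) * c) * ((∫ w, Om w * ‖z - w‖ ^ (-(5/4:ℝ))) + ∫ w, Om w * ‖z' - w‖ ^ (-(5/4:ℝ))) := by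
            rw [integral_const_mul, ← integral_add h1.1 h2.1]
        _ ≤ (2 * ‖z - z'‖ ^ (1 / 4 : ℝ) * c) * (K + K) := by
            apply mul_le_mul_of_nonneg_left (add_le_add h1.2 h2.2)
            positivity
    rw [e1, norm_mul, hpin]
    have hnn : 0 ≤ ‖z - z'‖ ^ (1/4:ℝ) * c * K := by positivity
    have hp3 : 1 / Real.pi ≤ 1 / 3 := one_div_le_one_div_of_le (by norm_num) hpi.le
    calc 1 / Real.pi * ‖∫ w, (f w / (z - w) - f w / (z' - w))‖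
        ≤ 1 / 3 * ((2 * ‖z - z'‖ ^ (1 / 4 : ℝ) * c) * (K + K)) :=
          mul_le_mul hp3 h4 (norm_nonneg _) (by norm_num)
      _ ≤ 2 * K * c * ‖z - z'‖ ^ (1 / 4 : ℝ) := by nlinarith [hnn]

end Pool.Agent.Helper614.HE.P_CTB
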