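import Pool.Agent.Helper614.HE.SpecC
set_option autoImplicit false

open scoped Manifold ContDiff Matrix ComplexOrder
open Matrix Topology MeasureTheory Set Filter

namespace Pool.Agent.Helper614.HE.P_DEC1

open Pool.Agent.Helper614.HE



/-
PROOF OF THE TARGET IN WORDS
Cb G (z) = (1/pi) int G(w) / (conj z - conj w) dw = conj (Ct (conj G)) (z) (integral_conj), and |conj G| = |G| <= c Om (as 1+|w|^2 >= 1), so by CTB
Cb G is bounded by K0 c and (Hoelder) continuous, the integrand is integrable.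
Evenness: substitute w -> -w (integral_neg_eq_self): Cb G(-z) = (1/pi) int G(w)/(-conj z - conj w) dw = (1/pi) int G(-w)/(-conj z + conj w) dw
= (1/pi) int G(w)/(conj z - conj w) dw.
Decay: G is integrable: |G| <= c Om/(1+|w|^2) <= c Om(w) |w|^{-1} for w not 0 (1+|w|^2 >= 2|w| >= |w|), KE with z = 0, s = 1. int G = 0 as G is odd.
For a := conj z, b := conj w, a not b: a^2/(a-b) = a + b + b^2/(a-b). So a^2 Cb G(z) = (1/pi) [ a int G + int b G + int b^2 G/(a-b) ], the first is 0,
|b G| <= c Om |w|/(1+|w|^2) <= c Om |w|^{-1} (w not 0) has integral <= K c (KE, z = 0, s = 1), and |b^2 G| <= c Om so the last is <= c K (KE, s = 1).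
So |z|^2 |Cb G(z)| <= (2K/pi) c and with the bound |Cb G| <= K0 c: (1+|z|^2) |Cb G(z)| <= (K0 + K) c.
-/
-- TARGET
theorem DEC1_cb_eq (G : ℂ → ℂ) (z : ℂ) :
    Cb G z = (starRingEnd ℂ) (Ct (fun w => (starRingEnd ℂ) (G w)) z) := by
  unfold Cb Ct
  rw [map_mul, Complex.conj_ofReal, ← integral_conj]
  congr 1
  refine integral_congr_ae (Filter.Eventually.of_forall fun w => ?_)
  simp only [map_div₀, map_sub, Complex.conj_conj]

theorem DEC1_even (G : ℂ → ℂ) (hodd : ∀ w, G (-w) = -G w) (z : ℂ) : Cb G (-z) = Cb G z := by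
  unfold Cb
  congr 1
  rw [← integral_neg_eq_self (fun w : ℂ => G w / ((starRingEnd ℂ) (-z) - (starRingEnd ℂ) w))]
  refine integral_congr_ae (Filter.Eventually.of_forall fun w => ?_)
  simp only [hodd, map_neg]
  rw [show -(starRingEnd ℂ) z - -(starRingEnd ℂ) w = -((starRingEnd ℂ) z - (starRingEnd ℂ) w) by ring,
    neg_div_neg_eq]

theorem DEC1_zero (G : ℂ → ℂ) (hodd : ∀ w, G (-w) = -G w) : ∫ w, G w = 0 := by
  have h1 : ∫ w, G (-w) = ∫ w, G w := integral_neg_eq_self G volume
  have h2 : ∫ w, G (-w) = - ∫ w, G w := by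
    rw [← integral_neg]
    exact integral_congr_ae (Filter.Eventually.of_forall fun w => hodd w)
  rw [h2] at h1
  linear_combination (-1 / 2 : ℂ) * h1

theorem DEC1 (hKE : T_KE) (hCTB : T_CTB) (hOM : T_OM) : T_DEC1 := by
  obtain ⟨K1, hK1, hke⟩ := hKE
  obtain ⟨K0, hK0, hct⟩ := hCTB
  obtain ⟨-, hOmm, -, hOmp, -⟩ := hOM
  refine ⟨K0 + 2 * K1, by positivity, ?_⟩
  intro G c hG hc hb hodd
  have hbase : ∀ w : ℂ, (0 : ℝ) < 1 + ‖w‖ ^ 2 := fun w => by positivity
  have hb0 : ∀ w, ‖G w‖ ≤ c * Om w := by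
    intro w
    refine (hb w).trans (mul_le_mul_of_nonneg_left ?_ hc)
    rw [div_le_iff₀ (hbase w)]
    nlinarith [hOmp w, sq_nonneg ‖w‖, mul_nonneg (hOmp w).le (sq_nonneg ‖w‖)]
  have hH : Measurable fun w => (starRingEnd ℂ) (G w) :=
    Complex.continuous_conj.measurable.comp hG
  obtain ⟨hint, hbd, hhol⟩ := hct (fun w => (starRingEnd ℂ) (G w)) c hH hc (by
    intro w
    rw [RCLike.norm_conj]
    exact hb0 w)
  have hbd' : ∀ z, ‖Cb G z‖ ≤ K0 * c := by
    intro z
    rw [DEC1_cb_eq, RCLike.norm_conj]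
    exact hbd z
  refine ⟨?_, ?_, DEC1_even G hodd⟩
  · intro z
    -- integrability
    obtain ⟨hi0, hn0⟩ := hke 0 1 ⟨by norm_num, by norm_num⟩
    obtain ⟨hiz, hnz⟩ := hke z 1 ⟨by norm_num, by norm_num⟩
    have hGi : Integrable G := by
      refine (hi0.const_mul c).mono' hG.aestronglyMeasurable ?_
      have hne : ∀ᵐ w : ℂ, w ≠ 0 := by
        rw [ae_iff]
        simp
      filter_upwards [hne] with w hw
      have hw' : 0 < ‖w‖ := norm_pos_iff.2 hw
      refine (hb w).trans (mul_le_mul_of_nonneg_left ?_ hc)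
      rw [zero_sub, norm_neg, Real.rpow_neg_one, div_eq_mul_inv]
      refine mul_le_mul_of_nonneg_left ?_ (hOmp w).le
      exact inv_anti₀ hw' (by nlinarith [sq_nonneg (‖w‖ - 1)])
    have hbound1 : ∀ w : ℂ, ‖(starRingEnd ℂ) w * G w‖ ≤ c * (Om w * ‖(0 : ℂ) - w‖ ^ (-(1 : ℝ))) := by
      intro w
      rw [norm_mul, RCLike.norm_conj, zero_sub, norm_neg]
      by_cases hw : w = 0
      · subst hw
        simp
      have hw' : 0 < ‖w‖ := norm_pos_iff.2 hw
      rw [Real.rpow_neg_one]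
      have h1 := mul_le_mul_of_nonneg_left (hb w) hw'.le
      refine h1.trans ?_
      rw [show ‖w‖ * (c * (Om w / (1 + ‖w‖ ^ 2))) = c * (Om w * (‖w‖ / (1 + ‖w‖ ^ 2))) by ring]
      refine mul_le_mul_of_nonneg_left (mul_le_mul_of_nonneg_left ?_ (hOmp w).le) hc
      rw [div_le_iff₀ (hbase w), inv_mul_eq_div, le_div_iff₀ hw']
      nlinarith
    have hbound2 : ∀ w : ℂ, ‖((starRingEnd ℂ) w) ^ 2 * G w / ((starRingEnd ℂ) z - (starRingEnd ℂ) w)‖ ≤
        c * (Om w * ‖z - w‖ ^ (-(1 : ℝ))) := by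
      intro w
      rw [norm_div, norm_mul, norm_pow, ← map_sub, RCLike.norm_conj, RCLike.norm_conj,
        Real.rpow_neg_one, div_eq_mul_inv, ← mul_assoc]
      refine mul_le_mul_of_nonneg_right ?_ (inv_nonneg.2 (norm_nonneg _))
      have h1 := mul_le_mul_of_nonneg_left (hb w) (sq_nonneg ‖w‖)
      refine h1.trans ?_
      rw [show ‖w‖ ^ 2 * (c * (Om w / (1 + ‖w‖ ^ 2))) = c * (Om w * (‖w‖ ^ 2 / (1 + ‖w‖ ^ 2))) by ring]
      refine mul_le_mul_of_nonneg_left ?_ hc
      have h2 : ‖w‖ ^ 2 / (1 + ‖w‖ ^ 2) ≤ 1 := by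
        rw [div_le_one (hbase w)]
        linarith
      nlinarith [hOmp w]
    have hi1 : Integrable (fun w : ℂ => (starRingEnd ℂ) w * G w) := by
      refine (hi0.const_mul c).mono' ?_ (Filter.Eventually.of_forall hbound1)
      exact (Complex.continuous_conj.measurable.mul hG).aestronglyMeasurable
    have hi2 : Integrable (fun w : ℂ => ((starRingEnd ℂ) w) ^ 2 * G w /
        ((starRingEnd ℂ) z - (starRingEnd ℂ) w)) := by
      refine (hiz.const_mul c).mono' ?_ (Filter.Eventually.of_forall hbound2)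
      exact (((Complex.continuous_conj.measurable.pow_const 2).mul hG).div
        (measurable_const.sub Complex.continuous_conj.measurable)).aestronglyMeasurable
    have hid : ((starRingEnd ℂ) z) ^ 2 * ∫ w, G w / ((starRingEnd ℂ) z - (starRingEnd ℂ) w) =
        (∫ w, (starRingEnd ℂ) w * G w) + ∫ w, ((starRingEnd ℂ) w) ^ 2 * G w /
          ((starRingEnd ℂ) z - (starRingEnd ℂ) w) := by
      have h1 : ∫ w, ((starRingEnd ℂ) z * G w + ((starRingEnd ℂ) w * G w +
          ((starRingEnd ℂ) w) ^ 2 * G w / ((starRingEnd ℂ) z - (starRingEnd ℂ) w))) =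
          (starRingEnd ℂ) z * (∫ w, G w) + ((∫ w, (starRingEnd ℂ) w * G w) +
            ∫ w, ((starRingEnd ℂ) w) ^ 2 * G w / ((starRingEnd ℂ) z - (starRingEnd ℂ) w)) := by
        have hi12 : Integrable (fun w : ℂ => (starRingEnd ℂ) w * G w +
            ((starRingEnd ℂ) w) ^ 2 * G w / ((starRingEnd ℂ) z - (starRingEnd ℂ) w)) := hi1.add hi2
        rw [integral_add (hGi.const_mul _) hi12, integral_add hi1 hi2, integral_const_mul]
      rw [DEC1_zero G hodd, mul_zero, zero_add] at h1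
      rw [← h1, ← integral_const_mul]
      refine integral_congr_ae ?_
      have hne : ∀ᵐ w : ℂ, w ≠ z := by
        rw [ae_iff]
        simp
      filter_upwards [hne] with w hw
      have h2 : (starRingEnd ℂ) z - (starRingEnd ℂ) w ≠ 0 := by
        rw [← map_sub]
        exact (map_ne_zero (starRingEnd ℂ)).2 (sub_ne_zero.2 hw.symm)
      field_simp
      ring
    have hn1 : ‖∫ w, (starRingEnd ℂ) w * G w‖ ≤ c * K1 := by
      refine (norm_integral_le_of_norm_le (hi0.const_mul c)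
        (Filter.Eventually.of_forall hbound1)).trans ?_
      rw [integral_const_mul]
      exact mul_le_mul_of_nonneg_left hn0 hc
    have hn2 : ‖∫ w, ((starRingEnd ℂ) w) ^ 2 * G w / ((starRingEnd ℂ) z - (starRingEnd ℂ) w)‖ ≤
        c * K1 := by
      refine (norm_integral_le_of_norm_le (hiz.const_mul c)
        (Filter.Eventually.of_forall hbound2)).trans ?_
      rw [integral_const_mul]
      exact mul_le_mul_of_nonneg_left hnz hc
    have hsq : ‖z‖ ^ 2 * ‖Cb G z‖ ≤ 2 * K1 * c := by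
      have h1 : ‖z‖ ^ 2 * ‖Cb G z‖ = (1 / Real.pi) * ‖((starRingEnd ℂ) z) ^ 2 *
          ∫ w, G w / ((starRingEnd ℂ) z - (starRingEnd ℂ) w)‖ := by
        unfold Cb
        rw [norm_mul, norm_mul, norm_pow, RCLike.norm_conj, Complex.norm_real,
          Real.norm_of_nonneg (by positivity)]
        ring
      rw [h1, hid]
      have h2 : (1 / Real.pi : ℝ) ≤ 1 := by
        rw [div_le_one Real.pi_pos]
        linarith [Real.pi_gt_three]
      have h3 := norm_add_le (∫ w, (starRingEnd ℂ) w * G w) (∫ w, ((starRingEnd ℂ) w) ^ 2 * G w /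
          ((starRingEnd ℂ) z - (starRingEnd ℂ) w))
      calc (1 / Real.pi) * ‖(∫ w, (starRingEnd ℂ) w * G w) + ∫ w, ((starRingEnd ℂ) w) ^ 2 * G w /
          ((starRingEnd ℂ) z - (starRingEnd ℂ) w)‖ ≤ 1 * (c * K1 + c * K1) := by
            refine mul_le_mul h2 (h3.trans (add_le_add hn1 hn2)) (norm_nonneg _) zero_le_one
        _ = 2 * K1 * c := by ring
    rw [le_div_iff₀ (hbase z)]
    have := hbd' z
    nlinarith
  · have hcont : Continuous (Ct (fun w => (starRingEnd ℂ) (G w))) := by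
      rw [continuous_iff_continuousAt]
      intro z
      rw [ContinuousAt, tendsto_iff_norm_sub_tendsto_zero]
      have hlim : Tendsto (fun x : ℂ => K0 * c * ‖x - z‖ ^ (1 / 4 : ℝ)) (𝓝 z) (𝓝 0) := by
        have h1 : Continuous fun x : ℂ => K0 * c * ‖x - z‖ ^ (1 / 4 : ℝ) := by
          refine continuous_const.mul ?_
          exact (continuous_norm.comp (continuous_id.sub continuous_const)).rpow_const
            (fun _ => Or.inr (by norm_num))
        have h2 := h1.tendsto z
        simpa using h2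
      exact squeeze_zero (fun _ => norm_nonneg _) (fun x => hhol x z) hlim
    have heq : Cb G = fun z => (starRingEnd ℂ) (Ct (fun w => (starRingEnd ℂ) (G w)) z) :=
      funext (DEC1_cb_eq G)
    rw [heq]
    exact Complex.continuous_conj.comp hcont

end Pool.Agent.Helper614.HE.P_DEC1
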