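import Pool.Agent.Helper614.HE.SpecC
set_option autoImplicit false

open scoped Manifold ContDiff Matrix ComplexOrder
open Matrix Topology MeasureTheory Set Filter

namespace Pool.Agent.Helper614.HE.P_DEC2

open Pool.Agent.Helper614.HE



/-
PROOF OF THE TARGET IN WORDS
|f| <= c/(1+|w|^2) <= c Om by OM. For the decay: z fixed. |Ct f z| <= (1/pi) int |f(w)|/|z-w| dw. First, this is <= (1/pi) c K by KE (s=1).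
Second |z|^{1/4} <= |z-w|^{1/4} + |w|^{1/4}, so |z|^{1/4} |f(w)| |z-w|^{-1} <= |f(w)| |z-w|^{-3/4} + |w|^{1/4} |f(w)| |z-w|^{-1}, where
|f| <= c Om, and |w|^{1/4} |f(w)| <= c (1+|w|^2)^{1/8} (1+|w|^2)^{-1} = c (1+|w|^2)^{-7/8} <= c Om(w) by OM. So by KE (s = 3/4, s = 1)
|z|^{1/4} |Ct f z| <= (2/pi) c K. Finally (1+|z|)^{1/4} <= 1 + |z|^{1/4}, so (1+|z|)^{1/4} |Ct f z| <= 3 K c.
-/

theorem DEC2_pow (z w : ℂ) : ‖z‖ ^ (1 / 4 : ℝ) ≤ ‖z - w‖ ^ (1 / 4 : ℝ) + ‖w‖ ^ (1 / 4 : ℝ) := by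
  have h1 : ‖z‖ ≤ ‖z - w‖ + ‖w‖ := by
    have := norm_add_le (z - w) w
    simpa using this
  refine (Real.rpow_le_rpow (norm_nonneg _) h1 (by norm_num)).trans ?_
  exact Real.rpow_add_le_add_rpow (norm_nonneg _) (norm_nonneg _) (by norm_num) (by norm_num)

theorem DEC2_ker (t : ℝ) (ht : 0 ≤ t) : t ^ (1 / 4 : ℝ) * t ^ (-(1 : ℝ)) = t ^ (-(3 / 4 : ℝ)) := by
  rcases ht.eq_or_lt with h | h
  · have e1 : (0 : ℝ) ^ (1 / 4 : ℝ) = 0 := Real.zero_rpow (by norm_num)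
    have e2 : (0 : ℝ) ^ (-(3 / 4 : ℝ)) = 0 := Real.zero_rpow (by norm_num)
    rw [← h, e1, e2, zero_mul]
  · rw [← Real.rpow_add h]
    norm_num

/-- the common estimate -/
theorem DEC2_main (K : ℝ)
    (hK : ∀ z : ℂ, ∀ s ∈ Icc (3 / 4 : ℝ) (5 / 4),
      Integrable (fun w : ℂ => Om w * ‖z - w‖ ^ (-s)) ∧ ∫ w : ℂ, Om w * ‖z - w‖ ^ (-s) ≤ K)
    (f : ℂ → ℂ) (c : ℝ) (hc : 0 ≤ c) (h1 : ∀ w, ‖f w‖ ≤ c * Om w)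
    (h2 : ∀ w, ‖w‖ ^ (1 / 4 : ℝ) * ‖f w‖ ≤ c * Om w) (z : ℂ) :
    ‖∫ w, f w / (z - w)‖ ≤ 3 * K * c * (1 + ‖z‖) ^ (-(1 / 4) : ℝ) := by
  obtain ⟨i1, k1⟩ := hK z 1 ⟨by norm_num, by norm_num⟩
  obtain ⟨i2, k2⟩ := hK z (3 / 4) ⟨by norm_num, by norm_num⟩
  have a1 : ‖∫ w, f w / (z - w)‖ ≤ c * K := by
    have h3 : ‖∫ w, f w / (z - w)‖ ≤ ∫ w : ℂ, c * (Om w * ‖z - w‖ ^ (-(1 : ℝ))) := by
      refine norm_integral_le_of_norm_le (i1.const_mul c) (Filter.Eventually.of_forall fun w => ?_)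
      rw [norm_div, div_eq_mul_inv, Real.rpow_neg_one, ← mul_assoc]
      exact mul_le_mul_of_nonneg_right (h1 w) (inv_nonneg.2 (norm_nonneg _))
    rw [integral_const_mul] at h3
    exact h3.trans (mul_le_mul_of_nonneg_left k1 hc)
  have a2 : ‖z‖ ^ (1 / 4 : ℝ) * ‖∫ w, f w / (z - w)‖ ≤ 2 * (c * K) := by
    have h3 : ‖∫ w, ((‖z‖ ^ (1 / 4 : ℝ) : ℝ) : ℂ) * (f w / (z - w))‖ ≤
        ∫ w : ℂ, (c * (Om w * ‖z - w‖ ^ (-(3 / 4 : ℝ))) + c * (Om w * ‖z - w‖ ^ (-(1 : ℝ)))) := by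
      refine norm_integral_le_of_norm_le ((i2.const_mul c).add (i1.const_mul c))
        (Filter.Eventually.of_forall fun w => ?_)
      rw [norm_mul, norm_div, Complex.norm_real, Real.norm_eq_abs,
        abs_of_nonneg (Real.rpow_nonneg (norm_nonneg _) _)]
      have e1 : ‖f w‖ / ‖z - w‖ = ‖f w‖ * ‖z - w‖ ^ (-(1 : ℝ)) := by
        rw [Real.rpow_neg_one, div_eq_mul_inv]
      rw [e1]
      have p1 := DEC2_pow z w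
      have p2 := DEC2_ker ‖z - w‖ (norm_nonneg _)
      have q0 : 0 ≤ ‖z - w‖ ^ (-(1 : ℝ)) := Real.rpow_nonneg (norm_nonneg _) _
      have q1 : 0 ≤ ‖z - w‖ ^ (-(3 / 4 : ℝ)) := Real.rpow_nonneg (norm_nonneg _) _
      have q2 : 0 ≤ ‖f w‖ * ‖z - w‖ ^ (-(1 : ℝ)) := mul_nonneg (norm_nonneg _) q0
      calc ‖z‖ ^ (1 / 4 : ℝ) * (‖f w‖ * ‖z - w‖ ^ (-(1 : ℝ)))
          ≤ (‖z - w‖ ^ (1 / 4 : ℝ) + ‖w‖ ^ (1 / 4 : ℝ)) * (‖f w‖ * ‖z - w‖ ^ (-(1 : ℝ))) :=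
            mul_le_mul_of_nonneg_right p1 q2
        _ = ‖f w‖ * (‖z - w‖ ^ (1 / 4 : ℝ) * ‖z - w‖ ^ (-(1 : ℝ))) +
            (‖w‖ ^ (1 / 4 : ℝ) * ‖f w‖) * ‖z - w‖ ^ (-(1 : ℝ)) := by ring
        _ = ‖f w‖ * ‖z - w‖ ^ (-(3 / 4 : ℝ)) +
            (‖w‖ ^ (1 / 4 : ℝ) * ‖f w‖) * ‖z - w‖ ^ (-(1 : ℝ)) := by rw [p2]
        _ ≤ (c * Om w) * ‖z - w‖ ^ (-(3 / 4 : ℝ)) + (c * Om w) * ‖z - w‖ ^ (-(1 : ℝ)) :=
            add_le_add (mul_le_mul_of_nonneg_right (h1 w) q1)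
              (mul_le_mul_of_nonneg_right (h2 w) q0)
        _ = c * (Om w * ‖z - w‖ ^ (-(3 / 4 : ℝ))) + c * (Om w * ‖z - w‖ ^ (-(1 : ℝ))) := by ring
    rw [integral_const_mul, norm_mul, Complex.norm_real, Real.norm_eq_abs,
      abs_of_nonneg (Real.rpow_nonneg (norm_nonneg _) _),
      integral_add (i2.const_mul c) (i1.const_mul c), integral_const_mul,
      integral_const_mul] at h3
    have h4 := mul_le_mul_of_nonneg_left k1 hc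
    have h5 := mul_le_mul_of_nonneg_left k2 hc
    linarith
  have hz : (0 : ℝ) < 1 + ‖z‖ := by positivity
  have a3 : (1 + ‖z‖) ^ (1 / 4 : ℝ) ≤ 1 + ‖z‖ ^ (1 / 4 : ℝ) := by
    have := Real.rpow_add_le_add_rpow (p := 1 / 4) zero_le_one (norm_nonneg z) (by norm_num)
      (by norm_num)
    rwa [Real.one_rpow] at this
  have hI : 0 ≤ ‖∫ w, f w / (z - w)‖ := norm_nonneg _
  have a4 : (1 + ‖z‖) ^ (1 / 4 : ℝ) * ‖∫ w, f w / (z - w)‖ ≤ 3 * K * c := by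
    have := mul_le_mul_of_nonneg_right a3 hI
    nlinarith
  have a5 : (1 + ‖z‖) ^ (-(1 / 4) : ℝ) * (1 + ‖z‖) ^ (1 / 4 : ℝ) = 1 := by
    rw [← Real.rpow_add hz]
    norm_num
  have a6 : 0 ≤ (1 + ‖z‖) ^ (-(1 / 4) : ℝ) := Real.rpow_nonneg hz.le _
  calc ‖∫ w, f w / (z - w)‖
      = ((1 + ‖z‖) ^ (-(1 / 4) : ℝ) * (1 + ‖z‖) ^ (1 / 4 : ℝ)) * ‖∫ w, f w / (z - w)‖ := by
        rw [a5, one_mul]
    _ = ((1 + ‖z‖) ^ (1 / 4 : ℝ) * ‖∫ w, f w / (z - w)‖) * (1 + ‖z‖) ^ (-(1 / 4) : ℝ) := by ring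
    _ ≤ (3 * K * c) * (1 + ‖z‖) ^ (-(1 / 4) : ℝ) := mul_le_mul_of_nonneg_right a4 a6

theorem DEC2_pi (x : ℂ) : ‖((1 / Real.pi : ℝ) : ℂ) * x‖ ≤ ‖x‖ := by
  rw [norm_mul, Complex.norm_real, Real.norm_eq_abs, abs_of_nonneg (by positivity)]
  have h1 : (1 : ℝ) / Real.pi ≤ 1 := by
    rw [div_le_one Real.pi_pos]
    linarith [Real.pi_gt_three]
  nlinarith [norm_nonneg x]


theorem DEC2_w (w : ℂ) : ‖w‖ ^ (1 / 4 : ℝ) * (1 / (1 + ‖w‖ ^ 2)) ≤ (1 + ‖w‖ ^ 2) ^ (-(7 / 8) : ℝ) := by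
  have h0 : (0 : ℝ) < 1 + ‖w‖ ^ 2 := by positivity
  have h1 : ‖w‖ ^ (1 / 4 : ℝ) ≤ (1 + ‖w‖ ^ 2) ^ (1 / 8 : ℝ) := by
    have : ‖w‖ ^ (1 / 4 : ℝ) = (‖w‖ ^ 2) ^ (1 / 8 : ℝ) := by
      rw [← Real.rpow_natCast, ← Real.rpow_mul (norm_nonneg _)]
      norm_num
    rw [this]
    exact Real.rpow_le_rpow (by positivity) (by linarith) (by norm_num)
  have h2 : (1 + ‖w‖ ^ 2) ^ (-(7 / 8) : ℝ) = (1 + ‖w‖ ^ 2) ^ (1 / 8 : ℝ) * (1 / (1 + ‖w‖ ^ 2)) := by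
    have h3 : 1 / (1 + ‖w‖ ^ 2) = (1 + ‖w‖ ^ 2) ^ (-(1 : ℝ)) := by
      rw [Real.rpow_neg_one, one_div]
    rw [h3, ← Real.rpow_add h0]
    norm_num
  rw [h2]
  exact mul_le_mul_of_nonneg_right h1 (by positivity)

-- TARGET
theorem DEC2 (hKE : T_KE) (hOM : T_OM) : T_DEC2 := by
  obtain ⟨K, hK0, hK⟩ := hKE
  obtain ⟨-, -, -, -, -, -, -, -, o1, o2, -, -⟩ := hOM
  refine ⟨3 * K, by positivity, fun f c _ hc hf => ?_⟩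
  have h1 : ∀ w, ‖f w‖ ≤ c * Om w := by
    intro w
    refine (hf w).trans ?_
    rw [div_eq_mul_inv]
    exact mul_le_mul_of_nonneg_left (o2 w) hc
  have h2 : ∀ w, ‖w‖ ^ (1 / 4 : ℝ) * ‖f w‖ ≤ c * Om w := by
    intro w
    have h3 := DEC2_w w
    have h4 : 0 ≤ ‖w‖ ^ (1 / 4 : ℝ) := Real.rpow_nonneg (norm_nonneg _) _
    calc ‖w‖ ^ (1 / 4 : ℝ) * ‖f w‖ ≤ ‖w‖ ^ (1 / 4 : ℝ) * (c / (1 + ‖w‖ ^ 2)) :=
          mul_le_mul_of_nonneg_left (hf w) h4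
      _ = c * (‖w‖ ^ (1 / 4 : ℝ) * (1 / (1 + ‖w‖ ^ 2))) := by ring
      _ ≤ c * (1 + ‖w‖ ^ 2) ^ (-(7 / 8) : ℝ) := mul_le_mul_of_nonneg_left h3 hc
      _ ≤ c * Om w := mul_le_mul_of_nonneg_left (o1 w) hc
  refine ⟨h1, fun z => ?_⟩
  unfold Ct
  exact (DEC2_pi _).trans (DEC2_main K hK f c hc h1 h2 z)

end Pool.Agent.Helper614.HE.P_DEC2
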