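import Pool.Agent.Helper614.HE.SpecC
set_option autoImplicit false

open scoped Manifold ContDiff Matrix ComplexOrder
open Matrix Topology MeasureTheory Set Filter

namespace Pool.Agent.Helper614.HE.P_DEC3

open Pool.Agent.Helper614.HE



/-
PROOF OF THE TARGET IN WORDS
|Q| <= c Om/(1+|w|^2) <= c Om(w)|w|^{-1} (w not 0), integrable by KE (z = 0, s = 1). For w not z: z/(z-w) = 1 + w/(z-w), so
z Ct Q z - (1/pi) int Q = (1/pi) int w Q(w)/(z-w) dw =: R(z) (all integrable: |w Q| <= c Om, KE with s = 1).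
|R(z)| <= (1/pi) c K by |wQ| <= c Om. Also |z|^{1/4} <= |z-w|^{1/4} + |w|^{1/4}, |wQ| |z-w|^{1/4 - 1} <= c Om |z-w|^{-3/4}, and
|w|^{5/4} |Q| <= c Om |w|^{5/4}/(1+|w|^2) <= c Om. So |z|^{1/4} |R(z)| <= (2/pi) c K, and (1+|z|)^{1/4} <= 1 + |z|^{1/4} gives the claim with 3K.
-/

theorem DEC3_pow (z w : ℂ) : ‖z‖ ^ (1 / 4 : ℝ) ≤ ‖z - w‖ ^ (1 / 4 : ℝ) + ‖w‖ ^ (1 / 4 : ℝ) := by
  have h1 : ‖z‖ ≤ ‖z - w‖ + ‖w‖ := by
    have := norm_add_le (z - w) w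
    simpa using this
  refine (Real.rpow_le_rpow (norm_nonneg _) h1 (by norm_num)).trans ?_
  exact Real.rpow_add_le_add_rpow (norm_nonneg _) (norm_nonneg _) (by norm_num) (by norm_num)

theorem DEC3_ker (t : ℝ) (ht : 0 ≤ t) : t ^ (1 / 4 : ℝ) * t ^ (-(1 : ℝ)) = t ^ (-(3 / 4 : ℝ)) := by
  rcases ht.eq_or_lt with h | h
  · have e1 : (0 : ℝ) ^ (1 / 4 : ℝ) = 0 := Real.zero_rpow (by norm_num)
    have e2 : (0 : ℝ) ^ (-(3 / 4 : ℝ)) = 0 := Real.zero_rpow (by norm_num)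
    rw [← h, e1, e2, zero_mul]
  · rw [← Real.rpow_add h]
    norm_num

/-- the common estimate -/
theorem DEC3_main (K : ℝ)
    (hK : ∀ z : ℂ, ∀ s ∈ Icc (3 / 4 : ℝ) (5 / 4),
      Integrable (fun w : ℂ => Om w * ‖z - w‖ ^ (-s)) ∧ ∫ w : ℂ, Om w * ‖z - w‖ ^ (-s) ≤ K)
    (f : ℂ → ℂ) (c : ℝ) (hc : 0 ≤ c) (h1 : ∀ w, ‖f w‖ ≤ c * Om w)
    (h2 : ∀ w, ‖w‖ ^ (1 / 4 : ℝ) * ‖f w‖ ≤ c * Om w) (z : ℂ) :
    ‖∫ w, f w / (z - w)‖ ≤ 3 * K * c * (1 + ‖z‖) ^ (-(1 / 4) : ℝ) := by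
  obtain ⟨i1, k1⟩ := hK z 1 ⟨by norm_num, by norm_num⟩
  obtain ⟨i2, k2⟩ := hK z (3 / 4) ⟨by norm_num, by norm_num⟩
  have a1 : ‖∫ w, f w / (z - w)‖ ≤ c * K := by
    have h3 : ‖∫ w, f w / (z - w)‖ ≤ ∫ w : ℂ, c * (Om w * ‖z - w‖ ^ (-(1 : ℝ))) := by
      refine norm_integral_le_of_norm_le (i1.const_mul c) (Filter.Eventually.of_forall fun w => ?_)
      rw [norm_div, div_eq_mul_inv, Real.rpow_neg_one, ← mul_assoc]
      exact mul_le_mul_of_nonneg_right (h1 w) (inv_nonneg.2 (norm_nonneg _))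
    rw [integral_const_mul] at h3
    exact h3.trans (mul_le_mul_of_nonneg_left k1 hc)
  have a2 : ‖z‖ ^ (1 / 4 : ℝ) * ‖∫ w, f w / (z - w)‖ ≤ 2 * (c * K) := by
    have h3 : ‖∫ w, ((‖z‖ ^ (1 / 4 : ℝ) : ℝ) : ℂ) * (f w / (z - w))‖ ≤
        ∫ w : ℂ, (c * (Om w * ‖z - w‖ ^ (-(3 / 4 : ℝ))) + c * (Om w * ‖z - w‖ ^ (-(1 : ℝ)))) := by
      refine norm_integral_le_of_norm_le ((i2.const_mul c).add (i1.const_mul c))
        (Filter.Eventually.of_forall fun w => ?_)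
      rw [norm_mul, norm_div, Complex.norm_real, Real.norm_eq_abs,
        abs_of_nonneg (Real.rpow_nonneg (norm_nonneg _) _)]
      have e1 : ‖f w‖ / ‖z - w‖ = ‖f w‖ * ‖z - w‖ ^ (-(1 : ℝ)) := by
        rw [Real.rpow_neg_one, div_eq_mul_inv]
      rw [e1]
      have p1 := DEC3_pow z w
      have p2 := DEC3_ker ‖z - w‖ (norm_nonneg _)
      have q0 : 0 ≤ ‖z - w‖ ^ (-(1 : ℝ)) := Real.rpow_nonneg (norm_nonneg _) _
      have q1 : 0 ≤ ‖z - w‖ ^ (-(3 / 4 : ℝ)) := Real.rpow_nonneg (norm_nonneg _) _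
      have q2 : 0 ≤ ‖f w‖ * ‖z - w‖ ^ (-(1 : ℝ)) := mul_nonneg (norm_nonneg _) q0
      calc ‖z‖ ^ (1 / 4 : ℝ) * (‖f w‖ * ‖z - w‖ ^ (-(1 : ℝ)))
          ≤ (‖z - w‖ ^ (1 / 4 : ℝ) + ‖w‖ ^ (1 / 4 : ℝ)) * (‖f w‖ * ‖z - w‖ ^ (-(1 : ℝ))) :=
            mul_le_mul_of_nonneg_right p1 q2
        _ = ‖f w‖ * (‖z - w‖ ^ (1 / 4 : ℝ) * ‖z - w‖ ^ (-(1 : ℝ))) +
            (‖w‖ ^ (1 / 4 : ℝ) * ‖f w‖) * ‖z - w‖ ^ (-(1 : ℝ)) := by ring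
        _ = ‖f w‖ * ‖z - w‖ ^ (-(3 / 4 : ℝ)) +
            (‖w‖ ^ (1 / 4 : ℝ) * ‖f w‖) * ‖z - w‖ ^ (-(1 : ℝ)) := by rw [p2]
        _ ≤ (c * Om w) * ‖z - w‖ ^ (-(3 / 4 : ℝ)) + (c * Om w) * ‖z - w‖ ^ (-(1 : ℝ)) :=
            add_le_add (mul_le_mul_of_nonneg_right (h1 w) q1)
              (mul_le_mul_of_nonneg_right (h2 w) q0)
        _ = c * (Om w * ‖z - w‖ ^ (-(3 / 4 : ℝ))) + c * (Om w * ‖z - w‖ ^ (-(1 : ℝ))) := by ring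
    rw [integral_const_mul, norm_mul, Complex.norm_real, Real.norm_eq_abs,
      abs_of_nonneg (Real.rpow_nonneg (norm_nonneg _) _),
      integral_add (i2.const_mul c) (i1.const_mul c), integral_const_mul,
      integral_const_mul] at h3
    have h4 := mul_le_mul_of_nonneg_left k1 hc
    have h5 := mul_le_mul_of_nonneg_left k2 hc
    linarith
  have hz : (0 : ℝ) < 1 + ‖z‖ := by positivity
  have a3 : (1 + ‖z‖) ^ (1 / 4 : ℝ) ≤ 1 + ‖z‖ ^ (1 / 4 : ℝ) := by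
    have := Real.rpow_add_le_add_rpow (p := 1 / 4) zero_le_one (norm_nonneg z) (by norm_num)
      (by norm_num)
    rwa [Real.one_rpow] at this
  have hI : 0 ≤ ‖∫ w, f w / (z - w)‖ := norm_nonneg _
  have a4 : (1 + ‖z‖) ^ (1 / 4 : ℝ) * ‖∫ w, f w / (z - w)‖ ≤ 3 * K * c := by
    have := mul_le_mul_of_nonneg_right a3 hI
    nlinarith
  have a5 : (1 + ‖z‖) ^ (-(1 / 4) : ℝ) * (1 + ‖z‖) ^ (1 / 4 : ℝ) = 1 := by
    rw [← Real.rpow_add hz]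
    norm_num
  have a6 : 0 ≤ (1 + ‖z‖) ^ (-(1 / 4) : ℝ) := Real.rpow_nonneg hz.le _
  calc ‖∫ w, f w / (z - w)‖
      = ((1 + ‖z‖) ^ (-(1 / 4) : ℝ) * (1 + ‖z‖) ^ (1 / 4 : ℝ)) * ‖∫ w, f w / (z - w)‖ := by
        rw [a5, one_mul]
    _ = ((1 + ‖z‖) ^ (1 / 4 : ℝ) * ‖∫ w, f w / (z - w)‖) * (1 + ‖z‖) ^ (-(1 / 4) : ℝ) := by ring
    _ ≤ (3 * K * c) * (1 + ‖z‖) ^ (-(1 / 4) : ℝ) := mul_le_mul_of_nonneg_right a4 a6

theorem DEC3_pi (x : ℂ) : ‖((1 / Real.pi : ℝ) : ℂ) * x‖ ≤ ‖x‖ := by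
  rw [norm_mul, Complex.norm_real, Real.norm_eq_abs, abs_of_nonneg (by positivity)]
  have h1 : (1 : ℝ) / Real.pi ≤ 1 := by
    rw [div_le_one Real.pi_pos]
    linarith [Real.pi_gt_three]
  nlinarith [norm_nonneg x]


theorem DEC3_w1 (w : ℂ) : ‖w‖ / (1 + ‖w‖ ^ 2) ≤ 1 := by
  rw [div_le_one (by positivity)]
  nlinarith [sq_nonneg (‖w‖ - 1), norm_nonneg w]

theorem DEC3_w2 (w : ℂ) : ‖w‖ ^ (1 / 4 : ℝ) * (‖w‖ / (1 + ‖w‖ ^ 2)) ≤ 1 := by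
  have h0 : (0 : ℝ) < 1 + ‖w‖ ^ 2 := by positivity
  rcases le_total ‖w‖ 1 with h | h
  · have h1 : ‖w‖ ^ (1 / 4 : ℝ) ≤ 1 := Real.rpow_le_one (norm_nonneg _) h (by norm_num)
    have h2 := DEC3_w1 w
    have h3 : 0 ≤ ‖w‖ / (1 + ‖w‖ ^ 2) := by positivity
    calc ‖w‖ ^ (1 / 4 : ℝ) * (‖w‖ / (1 + ‖w‖ ^ 2)) ≤ 1 * (‖w‖ / (1 + ‖w‖ ^ 2)) :=
          mul_le_mul_of_nonneg_right h1 h3
      _ ≤ 1 := by rw [one_mul]; exact h2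
  · have h1 : ‖w‖ ^ (1 / 4 : ℝ) ≤ ‖w‖ := by
      have := Real.rpow_le_rpow_of_exponent_le h (show (1 / 4 : ℝ) ≤ 1 by norm_num)
      rwa [Real.rpow_one] at this
    rw [← mul_div_assoc, div_le_one h0]
    nlinarith [norm_nonneg w]

-- TARGET
theorem DEC3 (hKE : T_KE) (hOM : T_OM) : T_DEC3 := by
  obtain ⟨K, hK0, hK⟩ := hKE
  obtain ⟨-, mO, -, pO, -, -, -, -, o1, o2, -, -⟩ := hOM
  refine ⟨3 * K, by positivity, fun Q c mQ hc hQ => ?_⟩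
  have e1 : ∀ w, ‖w * Q w‖ ≤ c * Om w := by
    intro w
    rw [norm_mul]
    calc ‖w‖ * ‖Q w‖ ≤ ‖w‖ * (c * (Om w / (1 + ‖w‖ ^ 2))) :=
          mul_le_mul_of_nonneg_left (hQ w) (norm_nonneg _)
      _ = (c * Om w) * (‖w‖ / (1 + ‖w‖ ^ 2)) := by ring
      _ ≤ (c * Om w) * 1 := mul_le_mul_of_nonneg_left (DEC3_w1 w) (mul_nonneg hc (pO w).le)
      _ = c * Om w := mul_one _
  have e2 : ∀ w, ‖w‖ ^ (1 / 4 : ℝ) * ‖w * Q w‖ ≤ c * Om w := by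
    intro w
    rw [norm_mul]
    have h4 : 0 ≤ ‖w‖ ^ (1 / 4 : ℝ) := Real.rpow_nonneg (norm_nonneg _) _
    calc ‖w‖ ^ (1 / 4 : ℝ) * (‖w‖ * ‖Q w‖) ≤
          ‖w‖ ^ (1 / 4 : ℝ) * (‖w‖ * (c * (Om w / (1 + ‖w‖ ^ 2)))) :=
          mul_le_mul_of_nonneg_left (mul_le_mul_of_nonneg_left (hQ w) (norm_nonneg _)) h4
      _ = (c * Om w) * (‖w‖ ^ (1 / 4 : ℝ) * (‖w‖ / (1 + ‖w‖ ^ 2))) := by ring
      _ ≤ (c * Om w) * 1 := mul_le_mul_of_nonneg_left (DEC3_w2 w) (mul_nonneg hc (pO w).le)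
      _ = c * Om w := mul_one _
  have iQ : Integrable Q := by
    obtain ⟨i0, -⟩ := hK 0 1 ⟨by norm_num, by norm_num⟩
    refine (i0.const_mul c).mono' mQ.aestronglyMeasurable ?_
    have hne : ∀ᵐ w : ℂ, w ≠ 0 := by
      rw [ae_iff]
      simp
    filter_upwards [hne] with w hw
    refine (hQ w).trans (mul_le_mul_of_nonneg_left ?_ hc)
    rw [zero_sub, norm_neg, Real.rpow_neg_one, div_eq_mul_inv]
    refine mul_le_mul_of_nonneg_left ?_ (pO w).le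
    have hw' : 0 < ‖w‖ := norm_pos_iff.2 hw
    refine inv_anti₀ hw' ?_
    nlinarith [sq_nonneg (‖w‖ - 1)]
  refine ⟨iQ, fun z => ?_⟩
  have iR : Integrable fun w => (w * Q w) / (z - w) := by
    obtain ⟨i1, -⟩ := hK z 1 ⟨by norm_num, by norm_num⟩
    refine (i1.const_mul c).mono' ?_ (Filter.Eventually.of_forall fun w => ?_)
    · exact ((measurable_id.mul mQ).div (measurable_const.sub measurable_id)).aestronglyMeasurable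
    · rw [norm_div, div_eq_mul_inv, Real.rpow_neg_one, ← mul_assoc]
      exact mul_le_mul_of_nonneg_right (e1 w) (inv_nonneg.2 (norm_nonneg _))
  have key : z * Ct Q z - ((1 / Real.pi : ℝ) : ℂ) * ∫ w, Q w =
      ((1 / Real.pi : ℝ) : ℂ) * ∫ w, (w * Q w) / (z - w) := by
    unfold Ct
    have h5 : z * ∫ w, Q w / (z - w) = (∫ w, Q w) + ∫ w, (w * Q w) / (z - w) := by
      rw [← integral_const_mul, ← integral_add iQ iR]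
      refine integral_congr_ae ?_
      have hne : ∀ᵐ w : ℂ, w ≠ z := by
        rw [ae_iff]
        simp
      filter_upwards [hne] with w hw
      have : z - w ≠ 0 := sub_ne_zero.2 (Ne.symm hw)
      field_simp
      ring
    have h6 : z * (((1 / Real.pi : ℝ) : ℂ) * ∫ w, Q w / (z - w)) =
        ((1 / Real.pi : ℝ) : ℂ) * (z * ∫ w, Q w / (z - w)) := by ring
    rw [h6, h5]
    ring
  rw [key]
  exact (DEC3_pi _).trans (DEC3_main K hK (fun w => w * Q w) c hc e1 e2 z)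

end Pool.Agent.Helper614.HE.P_DEC3
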