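import Pool.Agent.Helper614.HE.SpecC
set_option autoImplicit false

open scoped Manifold ContDiff Matrix ComplexOrder
open Matrix Topology MeasureTheory Set Filter

namespace Pool.Agent.Helper614.HE.P_EX

open Pool.Agent.Helper614.HE



/-
PROOF OF THE TARGET IN WORDS
kappa = 1/M. For tau = 1, 2 and kappa <= kappa0 take the fixed points (w_tau, x_tau) of FIX, a_tau = aF. Write A0 = int W|f1|^2 > 0, B0 = int W|f2|^2 > 0, a0(1) = pi/(A0+B0), a0(2) = pi/(A0+2B0). ALIM (with R = C of FIX): |a_tau - a0(tau)| <= C' kappa. ZS gives the solutions with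
sigma_tau = sqrt(kappa a_tau/tau) and u'_tau = uF kappa w_tau - log tau. Take sigma_1 (first) := the solution for tau = 2, sigma_2 (second) := the solution for tau = 1. 0 < sigma_1 < sigma_2 iff a_2/2 < a_1: in the limit a0(2)/2 < a0(1) holds (a0(2) <= a0(1)). The last inequality: u'_tau(1) = -kappa log 2 + w_tau(1) - log tau, so
sigma_tau^2 e^{-2u'_tau(1)} = (kappa a_tau/tau) tau^2 e^{2 kappa log 2 - 2 w_tau(1)} = kappa tau a_tau e^{2 kappa log 2} e^{-2 w_tau(1)}. So the claim is a_1 e^{-2 w_1(1)} < 2 a_2 e^{-2 w_2(1)}; |w_tau(1)| <= C kappa, and in the limit kappa -> 0: a0(1) = pi/(A0+B0) < 2 pi/(A0+2B0) = 2 a0(2) as A0 > 0. So there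
is kappa1 > 0 such that both hold for kappa <= kappa1 (limits as M -> oo, Filter.Tendsto arguments or explicit estimates), and M0 is such that 1/M <= min(kappa0, kappa1, 1/16) for M >= M0. (PT2 gives a_tau > 0.)
-/
theorem EX_phi (A B C C' : ℝ) (hAB : A < 2 * B) :
    ∀ᶠ κ : ℝ in 𝓝 0, (A + C' * κ) * Real.exp (4 * C * κ) < 2 * (B - C' * κ) := by
  have h1 : ContinuousAt (fun κ : ℝ => (A + C' * κ) * Real.exp (4 * C * κ)) 0 := by fun_prop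
  have h2 : ContinuousAt (fun κ : ℝ => 2 * (B - C' * κ)) 0 := by fun_prop
  apply h1.eventually_lt h2
  simpa using hAB

theorem EX_psi (A B C' : ℝ) (hAB : B / 2 < A) :
    ∀ᶠ κ : ℝ in 𝓝 0, (B + C' * κ) / 2 < A - C' * κ := by
  have h1 : ContinuousAt (fun κ : ℝ => (B + C' * κ) / 2) 0 := by fun_prop
  have h2 : ContinuousAt (fun κ : ℝ => A - C' * κ) 0 := by fun_prop
  apply h1.eventually_lt h2
  simpa using hAB

-- TARGET
theorem EX (hFIX : T_FIX) (hZS : T_ZS) (hALIM : T_ALIM) (hPT2 : T_PT2) : T_EX := by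
  obtain ⟨κ₀, C, hκ₀, hκ₀', hC, hfix⟩ := hFIX
  obtain ⟨hA0, hB0, hal⟩ := hALIM
  obtain ⟨C', hC', hal⟩ := hal C hC
  obtain ⟨K, hK, hpt⟩ := hPT2
  have ha1 : a0 1 < 2 * a0 2 := by
    unfold a0
    rw [← mul_div_assoc, div_lt_div_iff₀ (by positivity) (by positivity)]
    have := Real.pi_pos
    nlinarith
  have ha2 : a0 2 / 2 < a0 1 := by
    unfold a0
    rw [div_div, div_lt_div_iff₀ (by positivity) (by positivity)]
    have := Real.pi_pos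
    nlinarith
  have hev : ∀ᶠ κ : ℝ in 𝓝 0, ((a0 1 + C' * κ) * Real.exp (4 * C * κ) < 2 * (a0 2 - C' * κ) ∧
      (a0 2 + C' * κ) / 2 < a0 1 - C' * κ) ∧ κ < κ₀ :=
    ((EX_phi _ _ C C' ha1).and (EX_psi _ _ C' ha2)).and (gt_mem_nhds hκ₀)
  have hev2 := (tendsto_one_div_atTop_nhds_zero_nat (𝕜 := ℝ)).eventually hev
  obtain ⟨M₀, hM₀⟩ := Filter.eventually_atTop.1 (hev2.and (Filter.eventually_ge_atTop 16))
  refine ⟨M₀, fun M hM => ?_⟩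
  obtain ⟨⟨⟨h1, h2⟩, h3⟩, hM16⟩ := hM₀ M hM
  have hMpos : (0 : ℝ) < 1 / (M : ℝ) := by
    have : (0 : ℝ) < (M : ℝ) := by exact_mod_cast (by omega : 0 < M)
    positivity
  have m1 : (1 : ℝ) ∈ Icc (1 : ℝ) 2 := ⟨le_rfl, by norm_num⟩
  have m2 : (2 : ℝ) ∈ Icc (1 : ℝ) 2 := ⟨by norm_num, le_rfl⟩
  have mk : (1 / (M : ℝ)) ∈ Ioc (0 : ℝ) κ₀ := ⟨hMpos, h3.le⟩
  have mk' : (1 / (M : ℝ)) ∈ Icc (0 : ℝ) (1 / 16) := ⟨hMpos.le, h3.le.trans hκ₀'⟩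
  obtain ⟨w₁, x₁, hb₁, hw₁, hx₁, hfw₁, hfx₁⟩ := hfix 1 m1 _ mk
  obtain ⟨w₂, x₂, hb₂, hw₂, hx₂, hfw₂, hfx₂⟩ := hfix 2 m2 _ mk
  have hc1 := hal 1 m1 _ mk' w₁ x₁ hb₁ hw₁ hx₁
  have hc2 := hal 2 m2 _ mk' w₂ x₂ hb₂ hw₂ hx₂
  have hp1 : K⁻¹ ≤ aF 1 (1 / (M : ℝ)) w₁ x₁ := by
    obtain ⟨_, _, _, _, _, _, _, _, _, h, _⟩ := hpt 1 m1 _ mk' w₁ x₁ hb₁
    exact h
  have hp2 : K⁻¹ ≤ aF 2 (1 / (M : ℝ)) w₂ x₂ := by
    obtain ⟨_, _, _, _, _, _, _, _, _, h, _⟩ := hpt 2 m2 _ mk' w₂ x₂ hb₂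
    exact h
  have hKi : 0 < K⁻¹ := inv_pos.2 hK
  obtain ⟨b₁, q₁, hs₁⟩ := hZS M hM16 1 m1 w₁ x₁ hb₁ hfw₁ hfx₁
  obtain ⟨b₂, q₂, hs₂⟩ := hZS M hM16 2 m2 w₂ x₂ hb₂ hfw₂ hfx₂
  have hW1 := hw₁ 1
  have hW2 := hw₂ 1
  rw [abs_le] at hc1 hc2 hW1 hW2
  generalize hκ : (1 / (M : ℝ)) = κ at *
  obtain ⟨a₁, hae₁⟩ : ∃ a, a = aF 1 κ w₁ x₁ := ⟨_, rfl⟩
  obtain ⟨a₂, hae₂⟩ : ∃ a, a = aF 2 κ w₂ x₂ := ⟨_, rfl⟩
  rw [← hae₁] at hc1 hp1 hs₁
  rw [← hae₂] at hc2 hp2 hs₂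
  have hap1 : 0 < a₁ := lt_of_lt_of_le hKi hp1
  have hap2 : 0 < a₂ := lt_of_lt_of_le hKi hp2
  refine ⟨_, _, _, _, _, b₂, q₂, _, b₁, q₁, ?_, ?_, hs₂, hs₁, ?_⟩
  · exact Real.sqrt_pos.2 (by positivity)
  · apply Real.sqrt_lt_sqrt (by positivity)
    have h4 : a₂ / 2 < a₁ := by linarith
    calc κ * a₂ / 2 = κ * (a₂ / 2) := by ring
      _ < κ * a₁ := mul_lt_mul_of_pos_left h4 hMpos
      _ = κ * a₁ / 1 := by ring
  · rw [Real.sq_sqrt (by positivity), Real.sq_sqrt (by positivity)]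
    have e0 : ∀ (w : ℂ → ℝ) (t : ℝ), 0 < t → Real.exp (-2 * (uF κ w 1 - Real.log t)) =
        t ^ 2 * (Real.exp (2 * (κ * Real.log (1 + ‖(1 : ℂ)‖ ^ 2))) * Real.exp (-2 * w 1)) := by
      intro w t ht
      unfold uF
      have e1 : -2 * (-κ * Real.log (1 + ‖(1 : ℂ)‖ ^ 2) + w 1 - Real.log t) =
          Real.log t + (Real.log t + (2 * (κ * Real.log (1 + ‖(1 : ℂ)‖ ^ 2)) + -2 * w 1)) := by ring
      rw [e1, Real.exp_add, Real.exp_add, Real.exp_add, Real.exp_log ht]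
      ring
    rw [e0 w₁ 1 one_pos, e0 w₂ 2 two_pos]
    have hE := Real.exp_pos (2 * (κ * Real.log (1 + ‖(1 : ℂ)‖ ^ 2)))
    generalize Real.exp (2 * (κ * Real.log (1 + ‖(1 : ℂ)‖ ^ 2))) = E at *
    have h5 : a₁ * Real.exp (4 * C * κ) < 2 * a₂ := by
      have h6 : a₁ * Real.exp (4 * C * κ) ≤ (a0 1 + C' * κ) * Real.exp (4 * C * κ) :=
        mul_le_mul_of_nonneg_right (by linarith) (Real.exp_pos _).le
      linarith
    have h7 : Real.exp (-2 * w₁ 1) ≤ Real.exp (2 * C * κ) :=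
      Real.exp_le_exp.2 (by linarith)
    have h8 : Real.exp (-(2 * C * κ)) ≤ Real.exp (-2 * w₂ 1) :=
      Real.exp_le_exp.2 (by linarith)
    have h9 : a₁ * Real.exp (2 * C * κ) < 2 * a₂ * Real.exp (-(2 * C * κ)) := by
      have h10 : a₁ * Real.exp (2 * C * κ) =
          a₁ * Real.exp (4 * C * κ) * Real.exp (-(2 * C * κ)) := by
        rw [mul_assoc a₁ (Real.exp (4 * C * κ)), ← Real.exp_add]
        congr 2
        ring
      rw [h10]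
      exact mul_lt_mul_of_pos_right h5 (Real.exp_pos _)
    have h11 : a₁ * Real.exp (-2 * w₁ 1) < 2 * a₂ * Real.exp (-2 * w₂ 1) :=
      calc a₁ * Real.exp (-2 * w₁ 1) ≤ a₁ * Real.exp (2 * C * κ) :=
            mul_le_mul_of_nonneg_left h7 hap1.le
        _ < 2 * a₂ * Real.exp (-(2 * C * κ)) := h9
        _ ≤ 2 * a₂ * Real.exp (-2 * w₂ 1) := mul_le_mul_of_nonneg_left h8 (by positivity)
    calc κ * a₁ / 1 * (1 ^ 2 * (E * Real.exp (-2 * w₁ 1))) =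
          κ * E * (a₁ * Real.exp (-2 * w₁ 1)) := by ring
      _ < κ * E * (2 * a₂ * Real.exp (-2 * w₂ 1)) :=
          mul_lt_mul_of_pos_left h11 (mul_pos hMpos hE)
      _ = κ * a₂ / 2 * (2 ^ 2 * (E * Real.exp (-2 * w₂ 1))) := by ring

end Pool.Agent.Helper614.HE.P_EX
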