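import Pool.Agent.Helper614.HE.SpecC
set_option autoImplicit false

open scoped Manifold ContDiff Matrix ComplexOrder
open Matrix Topology MeasureTheory Set Filter

namespace Pool.Agent.Helper614.HE.P_FIX

open Pool.Agent.Helper614.HE



/-
PROOF OF THE TARGET IN WORDS
Let K >= 1 be larger than both constants of PT3 and LIP, kappa0 = min(1/16, 1/(2K)), C = K. For kappa in (0,kappa0], the map T(w,x) = (kappa wS, kappa xS) maps the set Ball1 into itself (bounds kappa K <= 1/2, continuity and parity by PT3), and is a contraction with factor kappa K <= 1/2 for the sup distance (LIP). Existence of a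
fixed point: either Banach's theorem (ContractingWith.exists_fixedPoint' / efixedPoint) on the closed subset of the complete space BoundedContinuousFunction C R x BoundedContinuousFunction C C (closed: the bounds and parity are closed conditions), or direct iteration: start at
(0,0), w_{n+1} = kappa wS(w_n,x_n), x_{n+1} = kappa xS(w_n,x_n), |w_{n+1}-w_n|, |x_{n+1}-x_n| <= 2^{-n} uniformly, so uniform Cauchy; the limit (w,x) is in Ball1 (uniform limits of continuous functions), and by LIP with delta = the distance to the n-th iterate, the limit is a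
fixed point. Bounds: |w| = kappa |wS| <= C kappa.
-/
-- TARGET
theorem FIX (hPT3 : T_PT3) (hLIP : T_LIP) : T_FIX := by
  obtain ⟨K1, hK1, h1⟩ := hPT3
  obtain ⟨K2, hK2, h2⟩ := hLIP
  obtain ⟨K, hK, hKK1, hKK2⟩ : ∃ K : ℝ, 1 ≤ K ∧ K1 ≤ K ∧ K2 ≤ K :=
    ⟨max 1 (max K1 K2), le_max_left _ _, (le_max_left _ _).trans (le_max_right _ _),
      (le_max_right _ _).trans (le_max_right _ _)⟩
  have hK0 : 0 < K := by linarith
  refine ⟨min (1 / 16) (1 / (2 * K)), K, lt_min (by norm_num) (by positivity), min_le_left _ _,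
    hK0, ?_⟩
  intro τ hτ κ hκ
  have hκ0 : 0 < κ := hκ.1
  have hκ16 : κ ≤ 1 / 16 := hκ.2.trans (min_le_left _ _)
  have hκK : κ * K ≤ 1 / 2 := by
    have h3 : κ ≤ 1 / (2 * K) := hκ.2.trans (min_le_right _ _)
    calc κ * K ≤ 1 / (2 * K) * K := by gcongr
      _ = 1 / 2 := by field_simp
  have hκI : κ ∈ Icc (0 : ℝ) (1 / 16) := ⟨hκ0.le, hκ16⟩
  let S : Set ((BoundedContinuousFunction ℂ ℝ) × (BoundedContinuousFunction ℂ ℂ)) :=
    {p | Ball1 p.1 p.2}
  have e1 : ∀ z : ℂ, Continuous fun p : (BoundedContinuousFunction ℂ ℝ) ×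
      (BoundedContinuousFunction ℂ ℂ) => p.1 z := fun z =>
    ((continuous_apply z).comp BoundedContinuousFunction.continuous_coe).comp continuous_fst
  have e2 : ∀ z : ℂ, Continuous fun p : (BoundedContinuousFunction ℂ ℝ) ×
      (BoundedContinuousFunction ℂ ℂ) => p.2 z := fun z =>
    ((continuous_apply z).comp BoundedContinuousFunction.continuous_coe).comp continuous_snd
  have hS : IsClosed S := by
    have hS' : S = (⋂ z : ℂ, {p | |p.1 z| ≤ 1}) ∩ (⋂ z : ℂ, {p | ‖p.2 z‖ ≤ 1}) ∩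
        (⋂ z : ℂ, {p | p.1 (-z) = p.1 z}) ∩ (⋂ z : ℂ, {p | p.2 (-z) = -p.2 z}) := by
      ext p
      simp only [S, Set.mem_ofPred_eq, Set.mem_inter_iff, Set.mem_iInter]
      constructor
      · intro h
        exact ⟨⟨⟨h.bw, h.bx⟩, h.ew⟩, h.ox⟩
      · rintro ⟨⟨⟨a1, a2⟩, a3⟩, a4⟩
        exact ⟨p.1.continuous, p.2.continuous, a1, a2, a3, a4⟩
    rw [hS']
    refine ((IsClosed.inter (isClosed_iInter fun z => ?_) (isClosed_iInter fun z => ?_)).inter
      (isClosed_iInter fun z => ?_)).inter (isClosed_iInter fun z => ?_)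
    · exact isClosed_le (e1 z).abs continuous_const
    · exact isClosed_le (e2 z).norm continuous_const
    · exact isClosed_eq (e1 (-z)) (e1 z)
    · exact isClosed_eq (e2 (-z)) (e2 z).neg
  have hcomp : CompleteSpace S := hS.completeSpace_coe
  have h0 : (0 : (BoundedContinuousFunction ℂ ℝ) × (BoundedContinuousFunction ℂ ℂ)) ∈ S := by
    refine ⟨continuous_const, continuous_const, ?_, ?_, ?_, ?_⟩ <;> intro z <;> simp
  have hne : Nonempty S := ⟨⟨0, h0⟩⟩
  have b1 : ∀ p : S, ∀ z, |κ * wS τ κ p.1.1 p.1.2 z| ≤ κ * K := by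
    intro p z
    rw [abs_mul, abs_of_pos hκ0]
    exact mul_le_mul_of_nonneg_left (((h1 τ hτ κ hκI _ _ p.2).2.2.1 z).trans hKK1) hκ0.le
  have b2 : ∀ p : S, ∀ z, ‖(κ : ℂ) * xS τ κ p.1.1 p.1.2 z‖ ≤ κ * K := by
    intro p z
    rw [norm_mul, Complex.norm_real, Real.norm_of_nonneg hκ0.le]
    exact mul_le_mul_of_nonneg_left (((h1 τ hτ κ hκI _ _ p.2).2.2.2.1 z).trans hKK1) hκ0.le
  let T1 : S → BoundedContinuousFunction ℂ ℝ := fun p =>
    BoundedContinuousFunction.ofNormedAddCommGroup (fun z => κ * wS τ κ p.1.1 p.1.2 z)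
      (continuous_const.mul (h1 τ hτ κ hκI _ _ p.2).1) (κ * K) (fun z => by
        rw [Real.norm_eq_abs]
        exact b1 p z)
  let T2 : S → BoundedContinuousFunction ℂ ℂ := fun p =>
    BoundedContinuousFunction.ofNormedAddCommGroup (fun z => (κ : ℂ) * xS τ κ p.1.1 p.1.2 z)
      (continuous_const.mul (h1 τ hτ κ hκI _ _ p.2).2.1) (κ * K) (b2 p)
  have hT : ∀ p : S, (T1 p, T2 p) ∈ S := by
    intro p
    obtain ⟨g1, g2, g3, g4, g5, g6⟩ := h1 τ hτ κ hκI _ _ p.2
    refine ⟨(T1 p).continuous, (T2 p).continuous, fun z => ?_, fun z => ?_, fun z => ?_,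
      fun z => ?_⟩
    · exact (b1 p z).trans (by linarith)
    · exact (b2 p z).trans (by linarith)
    · change κ * wS τ κ p.1.1 p.1.2 (-z) = κ * wS τ κ p.1.1 p.1.2 z
      rw [g5]
    · change (κ : ℂ) * xS τ κ p.1.1 p.1.2 (-z) = -((κ : ℂ) * xS τ κ p.1.1 p.1.2 z)
      rw [g6]
      ring
  let T : S → S := fun p => ⟨(T1 p, T2 p), hT p⟩
  have hc : ContractingWith (1 / 2 : NNReal) T := by
    refine ⟨by
      rw [← NNReal.coe_lt_coe]
      norm_num, LipschitzWith.of_dist_le_mul fun p q => ?_⟩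
    have hd1 : ∀ z, |p.1.1 z - q.1.1 z| ≤ dist p q := by
      intro z
      rw [← Real.dist_eq]
      exact (BoundedContinuousFunction.dist_coe_le_dist z).trans (le_max_left _ _)
    have hd2 : ∀ z, ‖p.1.2 z - q.1.2 z‖ ≤ dist p q := by
      intro z
      rw [← dist_eq_norm]
      exact (BoundedContinuousFunction.dist_coe_le_dist z).trans (le_max_right _ _)
    obtain ⟨l1, l2⟩ := h2 τ hτ κ hκI _ _ _ _ p.2 q.2 (dist p q) hd1 hd2
    have hd0 : 0 ≤ dist p q := dist_nonneg
    have hfac : κ * (K2 * dist p q) ≤ 1 / 2 * dist p q := by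
      have : κ * K2 ≤ κ * K := mul_le_mul_of_nonneg_left hKK2 hκ0.le
      calc κ * (K2 * dist p q) = (κ * K2) * dist p q := by ring
        _ ≤ 1 / 2 * dist p q := mul_le_mul_of_nonneg_right (this.trans hκK) hd0
    have hnn : ((1 / 2 : NNReal) : ℝ) = 1 / 2 := by norm_num
    rw [hnn]
    change dist (T1 p, T2 p) (T1 q, T2 q) ≤ _
    rw [Prod.dist_eq]
    refine max_le ?_ ?_
    · rw [BoundedContinuousFunction.dist_le (by positivity)]
      intro z
      refine le_trans ?_ hfac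
      change dist (κ * wS τ κ p.1.1 p.1.2 z) (κ * wS τ κ q.1.1 q.1.2 z) ≤ _
      rw [Real.dist_eq, ← mul_sub, abs_mul, abs_of_pos hκ0]
      exact mul_le_mul_of_nonneg_left (l1 z) hκ0.le
    · rw [BoundedContinuousFunction.dist_le (by positivity)]
      intro z
      refine le_trans ?_ hfac
      change dist ((κ : ℂ) * xS τ κ p.1.1 p.1.2 z) ((κ : ℂ) * xS τ κ q.1.1 q.1.2 z) ≤ _
      rw [dist_eq_norm, ← mul_sub, norm_mul, Complex.norm_real, Real.norm_of_nonneg hκ0.le]
      exact mul_le_mul_of_nonneg_left (l2 z) hκ0.le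
  obtain ⟨p, hp⟩ : ∃ p : S, T p = p := ⟨hc.fixedPoint T, hc.fixedPoint_isFixedPt⟩
  have hp1 : T1 p = p.1.1 := congrArg (fun q : S => q.1.1) hp
  have hp2 : T2 p = p.1.2 := congrArg (fun q : S => q.1.2) hp
  have hw : ∀ z, p.1.1 z = κ * wS τ κ p.1.1 p.1.2 z := fun z =>
    (DFunLike.congr_fun hp1 z).symm
  have hx : ∀ z, p.1.2 z = (κ : ℂ) * xS τ κ p.1.1 p.1.2 z := fun z =>
    (DFunLike.congr_fun hp2 z).symm
  refine ⟨p.1.1, p.1.2, p.2, fun z => ?_, fun z => ?_, hw, hx⟩
  · rw [hw z]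
    exact (b1 p z).trans (le_of_eq (mul_comm _ _))
  · rw [hx z]
    exact (b2 p z).trans (le_of_eq (mul_comm _ _))

end Pool.Agent.Helper614.HE.P_FIX
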