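import Pool.Agent.Helper614.HE.SpecC
set_option autoImplicit false

open scoped Manifold ContDiff Matrix ComplexOrder
open Matrix Topology MeasureTheory Set Filter

namespace Pool.Agent.Helper614.HE.P_G2

open Pool.Agent.Helper614.HE




/-! ### Wirtinger calculus -/

theorem G2_lin (L : ℂ →L[ℝ] ℂ) (w : ℂ) : L w = (L 1 - Complex.I * L Complex.I) / 2 * w +
    (L 1 + Complex.I * L Complex.I) / 2 * (starRingEnd ℂ) w := by
  have h1 : L w = (w.re : ℂ) * L 1 + (w.im : ℂ) * L Complex.I := by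
    have h2 : w = w.re • (1 : ℂ) + w.im • Complex.I := by
      rw [Complex.real_smul, Complex.real_smul, mul_one]
      exact (Complex.re_add_im w).symm
    conv_lhs => rw [h2]
    rw [map_add, map_smul, map_smul, Complex.real_smul, Complex.real_smul]
  have h3 : w + (starRingEnd ℂ) w = 2 * (w.re : ℂ) := by
    rw [Complex.add_conj]; push_cast; ring
  have h4 : w - (starRingEnd ℂ) w = 2 * (w.im : ℂ) * Complex.I := by
    rw [Complex.sub_conj]; push_cast; ring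
  rw [h1]
  linear_combination (-(L 1) / 2) * h3 + (Complex.I * L Complex.I / 2) * h4 +
    (w.im : ℂ) * L Complex.I * Complex.I_sq

theorem G2_comp {F g : ℂ → ℂ} {g' t : ℂ} (hF : DifferentiableAt ℝ F (g t))
    (hg : HasDerivAt g g' t) : dz (fun s => F (g s)) t = dz F (g t) * g' ∧
      dzb (fun s => F (g s)) t = dzb F (g t) * (starRingEnd ℂ) g' := by
  have h1 : HasFDerivAt g ((ContinuousLinearMap.toSpanSingleton ℂ g').restrictScalars ℝ) t :=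
    hg.hasFDerivAt.restrictScalars ℝ
  have h2 : fderiv ℝ (fun s => F (g s)) t =
      (fderiv ℝ F (g t)).comp ((ContinuousLinearMap.toSpanSingleton ℂ g').restrictScalars ℝ) :=
    (hF.hasFDerivAt.comp t h1).fderiv
  have h3 : ∀ v : ℂ, fderiv ℝ (fun s => F (g s)) t v = fderiv ℝ F (g t) (v * g') := by
    intro v
    rw [h2]
    simp
  rw [dz, dzb, dz, dzb, h3, h3, G2_lin (fderiv ℝ F (g t)) (1 * g'),
    G2_lin (fderiv ℝ F (g t)) (Complex.I * g')]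
  have h4 : (starRingEnd ℂ) (Complex.I * g') = -Complex.I * (starRingEnd ℂ) g' := by
    rw [map_mul, Complex.conj_I]
  rw [h4, one_mul]
  generalize fderiv ℝ F (g t) 1 = p
  generalize fderiv ℝ F (g t) Complex.I = q
  generalize (starRingEnd ℂ) g' = c
  constructor
  · linear_combination ((-p + Complex.I * q) * g' / 4 + (p + Complex.I * q) * c / 4) * Complex.I_sq
  · linear_combination ((p - Complex.I * q) * g' / 4 - (p + Complex.I * q) * c / 4) * Complex.I_sq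

theorem G2_mul {F G : ℂ → ℂ} {t : ℂ} (hF : DifferentiableAt ℝ F t) (hG : DifferentiableAt ℝ G t) :
    dz (fun s => F s * G s) t = dz F t * G t + F t * dz G t ∧
      dzb (fun s => F s * G s) t = dzb F t * G t + F t * dzb G t := by
  have h1 := (hF.hasFDerivAt.mul hG.hasFDerivAt).fderiv
  have h2 : ∀ v : ℂ, fderiv ℝ (fun s => F s * G s) t v =
      F t * fderiv ℝ G t v + G t * fderiv ℝ F t v := by
    intro v
    change fderiv ℝ (F * G) t v = _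
    rw [h1]
    simp
  simp only [dz, dzb, h2]
  constructor <;> ring

theorem G2_add {F G : ℂ → ℂ} {t : ℂ} (hF : DifferentiableAt ℝ F t) (hG : DifferentiableAt ℝ G t) :
    dz (fun s => F s + G s) t = dz F t + dz G t ∧
      dzb (fun s => F s + G s) t = dzb F t + dzb G t := by
  have h1 := (hF.hasFDerivAt.add hG.hasFDerivAt).fderiv
  have h2 : ∀ v : ℂ, fderiv ℝ (fun s => F s + G s) t v =
      fderiv ℝ F t v + fderiv ℝ G t v := by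
    intro v
    change fderiv ℝ (F + G) t v = _
    rw [h1]
    simp
  simp only [dz, dzb, h2]
  constructor <;> ring

theorem G2_sub {F G : ℂ → ℂ} {t : ℂ} (hF : DifferentiableAt ℝ F t) (hG : DifferentiableAt ℝ G t) :
    dz (fun s => F s - G s) t = dz F t - dz G t ∧
      dzb (fun s => F s - G s) t = dzb F t - dzb G t := by
  have h1 := (hF.hasFDerivAt.sub hG.hasFDerivAt).fderiv
  have h2 : ∀ v : ℂ, fderiv ℝ (fun s => F s - G s) t v =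
      fderiv ℝ F t v - fderiv ℝ G t v := by
    intro v
    change fderiv ℝ (F - G) t v = _
    rw [h1]
    simp
  simp only [dz, dzb, h2]
  constructor <;> ring

theorem G2_const_mul (c : ℂ) {F : ℂ → ℂ} {t : ℂ} (hF : DifferentiableAt ℝ F t) :
    dz (fun s => c * F s) t = c * dz F t ∧ dzb (fun s => c * F s) t = c * dzb F t := by
  have h1 := (hF.hasFDerivAt.const_mul c).fderiv
  have h2 : ∀ v : ℂ, fderiv ℝ (fun s => c * F s) t v = c * fderiv ℝ F t v := by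
    intro v
    rw [h1]
    simp
  simp only [dz, dzb, h2]
  constructor <;> ring

theorem G2_hol {g : ℂ → ℂ} {g' t : ℂ} (hg : HasDerivAt g g' t) : dz g t = g' ∧ dzb g t = 0 := by
  have h1 : HasFDerivAt g ((ContinuousLinearMap.toSpanSingleton ℂ g').restrictScalars ℝ) t :=
    hg.hasFDerivAt.restrictScalars ℝ
  have h2 : ∀ v : ℂ, fderiv ℝ g t v = v * g' := by
    intro v
    rw [h1.fderiv]
    simp
  simp only [dz, dzb, h2]
  constructor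
  · linear_combination (-g' / 2) * Complex.I_sq
  · linear_combination (g' / 2) * Complex.I_sq

theorem G2_conj {g : ℂ → ℂ} {g' t : ℂ} (hg : HasDerivAt g g' t) :
    dz (fun s => (starRingEnd ℂ) (g s)) t = 0 ∧
      dzb (fun s => (starRingEnd ℂ) (g s)) t = (starRingEnd ℂ) g' := by
  have h1 : HasFDerivAt g ((ContinuousLinearMap.toSpanSingleton ℂ g').restrictScalars ℝ) t :=
    hg.hasFDerivAt.restrictScalars ℝ
  have h3 : HasFDerivAt (fun s => (starRingEnd ℂ) (g s))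
      ((Complex.conjCLE : ℂ →L[ℝ] ℂ).comp
        ((ContinuousLinearMap.toSpanSingleton ℂ g').restrictScalars ℝ)) t :=
    (Complex.conjCLE : ℂ →L[ℝ] ℂ).hasFDerivAt.comp t h1
  have h2 : ∀ v : ℂ, fderiv ℝ (fun s => (starRingEnd ℂ) (g s)) t v =
      (starRingEnd ℂ) v * (starRingEnd ℂ) g' := by
    intro v
    rw [h3.fderiv]
    simp
  simp only [dz, dzb, h2, map_one, Complex.conj_I]
  constructor
  · linear_combination ((starRingEnd ℂ) g' / 2) * Complex.I_sq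
  · linear_combination (-(starRingEnd ℂ) g' / 2) * Complex.I_sq

theorem G2_log {t : ℂ} (ht : t ≠ 0) :
    dz (fun s => ((Real.log (‖s‖ ^ 2) : ℝ) : ℂ)) t = 1 / t := by
  have hn : ‖t‖ ^ 2 ≠ 0 := pow_ne_zero _ (norm_ne_zero_iff.2 ht)
  have h1 : HasFDerivAt (fun s : ℂ => Real.log (‖s‖ ^ 2)) ((‖t‖ ^ 2)⁻¹ • (2 • innerSL ℝ t)) t :=
    (hasStrictFDerivAt_norm_sq t).hasFDerivAt.log hn
  have h2 : HasFDerivAt (fun s : ℂ => ((Real.log (‖s‖ ^ 2) : ℝ) : ℂ))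
      (Complex.ofRealCLM.comp ((‖t‖ ^ 2)⁻¹ • (2 • innerSL ℝ t))) t :=
    Complex.ofRealCLM.hasFDerivAt.comp t h1
  have h3 : ∀ v : ℂ, fderiv ℝ (fun s : ℂ => ((Real.log (‖s‖ ^ 2) : ℝ) : ℂ)) t v =
      (((‖t‖ ^ 2)⁻¹ * (2 * ((starRingEnd ℂ) t * v).re) : ℝ) : ℂ) := by
    intro v
    rw [h2.fderiv]
    simp [Complex.inner, two_smul]
    ring
  rw [dz, h3, h3]
  have h4 : ((starRingEnd ℂ) t * 1).re = t.re := by simp
  have h5 : ((starRingEnd ℂ) t * Complex.I).re = t.im := by simp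
  have h6 : ((‖t‖ : ℝ) : ℂ) ^ 2 = (starRingEnd ℂ) t * t := by
    rw [← Complex.ofReal_pow, ← Complex.normSq_eq_norm_sq, mul_comm, Complex.mul_conj]
  have h7 : (starRingEnd ℂ) t = (t.re : ℂ) - (t.im : ℂ) * Complex.I := by
    apply Complex.ext <;> simp
  have h8 : (starRingEnd ℂ) t ≠ 0 := (map_ne_zero _).2 ht
  rw [h4, h5]
  push_cast
  rw [h6, eq_div_iff ht]
  field_simp
  rw [h7]
  ring


/-! ### The substitution -/

theorem G2_main {M : ℕ} (hM : 2 ≤ M) {σ : ℝ} {u : ℂ → ℝ} {x b q : ℂ → ℂ} {t : ℂ} (ht : t ≠ 0)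
    (_ht1 : t ^ (16 * M) + 1 ≠ 0) (h : ZSysAt σ u x b q (t ^ M)⁻¹) :
    VSysAt M true (M * σ) (fun t => u (t ^ M)⁻¹ - Real.log (‖t‖ ^ 2))
        (fun t => x (t ^ M)⁻¹ / t)
        (fun t => -(M * b (t ^ M)⁻¹ * (starRingEnd ℂ) (t ^ M)⁻¹))
        (fun t => -(M * (t ^ M)⁻¹ * q (t ^ M)⁻¹ + 1) / t) t := by
  obtain ⟨du, dx, db, dq, eu, ex, eb, eq⟩ := h
  have ha0 : t ^ M ≠ 0 := pow_ne_zero _ ht
  -- the map `g`
  have hg : HasDerivAt (fun s : ℂ => (s ^ M)⁻¹) (-(M * (t ^ M)⁻¹ / t)) t := by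
    have h1 := (hasDerivAt_pow M t).inv ha0
    have h2 : t ^ (M - 1) = t ^ M / t := by
      rw [eq_div_iff ht, ← pow_succ]
      congr 1
      omega
    have h3 : -((M : ℂ) * (t ^ M)⁻¹ / t) = -((M : ℂ) * t ^ (M - 1)) / (t ^ M) ^ 2 := by
      rw [h2]
      field_simp
    rw [h3]
    exact h1
  have cg : ContDiffAt ℝ 1 (fun s : ℂ => (s ^ M)⁻¹) t :=
    (contDiffAt_id.pow M).inv ha0
  have dg : DifferentiableAt ℝ (fun s : ℂ => (s ^ M)⁻¹) t := cg.differentiableAt one_ne_zero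
  have cinv : ContDiffAt ℝ 1 (fun s : ℂ => s⁻¹) t := contDiffAt_id.inv ht
  have cu : ContDiffAt ℝ 1 (fun s : ℂ => u (s ^ M)⁻¹) t := du.comp t cg
  have cx : ContDiffAt ℝ 1 (fun s : ℂ => x (s ^ M)⁻¹) t := dx.comp t cg
  have cb : ContDiffAt ℝ 1 (fun s : ℂ => b (s ^ M)⁻¹) t := db.comp t cg
  have cq : ContDiffAt ℝ 1 (fun s : ℂ => q (s ^ M)⁻¹) t := dq.comp t cg
  have cn : ContDiffAt ℝ 1 (fun s : ℂ => Real.log (‖s‖ ^ 2)) t :=
    (contDiff_norm_sq ℝ (n := 1)).contDiffAt.log (pow_ne_zero _ (norm_ne_zero_iff.2 ht))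
  have cconj : ContDiffAt ℝ 1 (fun s : ℂ => (starRingEnd ℂ) (s ^ M)⁻¹) t :=
    (Complex.conjCLE : ℂ →L[ℝ] ℂ).contDiff.contDiffAt.comp t cg
  have hinv : HasDerivAt (fun s : ℂ => s⁻¹) (-(t ^ 2)⁻¹) t := hasDerivAt_inv ht
  -- powers
  have p2 : t ^ (M - 2) = t ^ M / t ^ 2 := by
    rw [eq_div_iff (pow_ne_zero _ ht), ← pow_add]
    congr 1
    omega
  have p3 : t ^ (2 * M - 3) = (t ^ M) ^ 2 / t ^ 3 := by
    rw [eq_div_iff (pow_ne_zero _ ht), ← pow_add, ← pow_mul]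
    congr 1
    omega
  have p4 : t ^ (2 * M) = (t ^ M) ^ 2 := by
    rw [← pow_mul]
    congr 1
    omega
  have p16 : t ^ (16 * M) = (t ^ M) ^ 16 := by
    rw [← pow_mul]
    congr 1
    omega
  have hAA : AA M true t = -((t ^ M / t ^ 2) * (1 - (t ^ M) ^ 2)) := by
    rw [AA, if_neg (by simp), p2, p4]
  have hPP : PP M true t = -((t ^ M) ^ 2 / t ^ 3) := by
    rw [PP, if_neg (by simp), p3]
  have dFu : DifferentiableAt ℝ (fun w => (u w : ℂ)) (t ^ M)⁻¹ :=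
    Complex.ofRealCLM.differentiableAt.comp _ (du.differentiableAt one_ne_zero)
  have kinv := G2_hol hinv
  -- exponentials
  have hn : (0 : ℝ) < ‖t‖ := norm_pos_iff.2 ht
  have hna : (0 : ℝ) < ‖t ^ M‖ := norm_pos_iff.2 ha0
  have hlog : ∀ k : ℕ, Real.exp (k * Real.log (‖t‖ ^ 2)) = (‖t‖ ^ 2) ^ k := by
    intro k
    rw [Real.exp_nat_mul, Real.exp_log (pow_pos hn 2)]
  have x1 : Real.exp (u (t ^ M)⁻¹ - Real.log (‖t‖ ^ 2)) = Real.exp (u (t ^ M)⁻¹) / ‖t‖ ^ 2 := by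
    rw [Real.exp_sub, Real.exp_log (pow_pos hn 2)]
  have x2 : Real.exp (-2 * (u (t ^ M)⁻¹ - Real.log (‖t‖ ^ 2))) =
      Real.exp (-2 * u (t ^ M)⁻¹) * ‖t‖ ^ 4 := by
    have h1 : -2 * (u (t ^ M)⁻¹ - Real.log (‖t‖ ^ 2)) =
        -2 * u (t ^ M)⁻¹ + ((2 : ℕ) : ℝ) * Real.log (‖t‖ ^ 2) := by push_cast; ring
    rw [h1, Real.exp_add, hlog]
    ring
  have x3 : Real.exp (-(u (t ^ M)⁻¹ - Real.log (‖t‖ ^ 2))) =
      Real.exp (-u (t ^ M)⁻¹) * ‖t‖ ^ 2 := by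
    have h1 : -(u (t ^ M)⁻¹ - Real.log (‖t‖ ^ 2)) =
        -u (t ^ M)⁻¹ + ((1 : ℕ) : ℝ) * Real.log (‖t‖ ^ 2) := by push_cast; ring
    rw [h1, Real.exp_add, hlog]
    ring
  have hW : W (t ^ M)⁻¹ = ‖t ^ (16 * M) + 1‖ ^ (-(1 / 2) : ℝ) * ‖t ^ M‖ ^ 8 := by
    have h1 : (t ^ M)⁻¹ ^ 16 + 1 = (t ^ (16 * M) + 1) / (t ^ M) ^ 16 := by
      rw [p16]
      field_simp
      ring
    have h2 : (‖t ^ M‖ ^ 16) ^ (-(1 / 2) : ℝ) = (‖t ^ M‖ ^ 8)⁻¹ := by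
      rw [Real.rpow_neg (by positivity)]
      congr 1
      rw [← Real.rpow_natCast, ← Real.rpow_mul hna.le, ← Real.rpow_natCast]
      norm_num
    rw [W, h1, norm_div, Real.div_rpow (norm_nonneg _) (norm_nonneg _), norm_pow, h2,
      div_inv_eq_mul]
  rw [hW] at eb eq
  set a : ℂ := t ^ M with ha
  set P : ℝ := ‖t ^ (16 * M) + 1‖ ^ (-(1 / 2) : ℝ) with hP
  have hnt : ((‖t‖ : ℝ) : ℂ) ^ 2 = t * (starRingEnd ℂ) t := by
    rw [Complex.mul_conj, Complex.normSq_eq_norm_sq, Complex.ofReal_pow]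
  have hnaa : ((‖a‖ : ℝ) : ℂ) ^ 2 = a * (starRingEnd ℂ) a := by
    rw [Complex.mul_conj, Complex.normSq_eq_norm_sq, Complex.ofReal_pow]
  have ct : (starRingEnd ℂ) t ≠ 0 := (map_ne_zero _).2 ht
  have ca : (starRingEnd ℂ) a ≠ 0 := (map_ne_zero _).2 ha0
  have hg' : (starRingEnd ℂ) (-((M : ℂ) * a⁻¹ / t)) =
      -((M : ℂ) * ((starRingEnd ℂ) a)⁻¹ / (starRingEnd ℂ) t) := by
    rw [map_neg, map_div₀, map_mul, map_inv₀, Complex.conj_natCast]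
  have dcu : DifferentiableAt ℝ (fun s : ℂ => ((u (s ^ M)⁻¹ : ℝ) : ℂ)) t :=
    Complex.ofRealCLM.differentiableAt.comp t (cu.differentiableAt one_ne_zero)
  have dcn : DifferentiableAt ℝ (fun s : ℂ => ((Real.log (‖s‖ ^ 2) : ℝ) : ℂ)) t :=
    Complex.ofRealCLM.differentiableAt.comp t (cn.differentiableAt one_ne_zero)
  have dcx := cx.differentiableAt one_ne_zero
  have dcb := cb.differentiableAt one_ne_zero
  have dcq := cq.differentiableAt one_ne_zero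
  have dci := cinv.differentiableAt one_ne_zero
  have dcc := cconj.differentiableAt one_ne_zero
  refine ⟨cu.sub cn, ?_, ?_, ?_, ?_, ?_, ?_, ?_⟩
  · have h1 : (fun t => x (t ^ M)⁻¹ / t) = fun t => x (t ^ M)⁻¹ * t⁻¹ := by
      ext s; rw [div_eq_mul_inv]
    rw [h1]
    exact cx.mul cinv
  · exact ((contDiffAt_const.mul cb).mul cconj).neg
  · have h1 : (fun t => -(M * (t ^ M)⁻¹ * q (t ^ M)⁻¹ + 1) / t) =
        fun t => -(M * (t ^ M)⁻¹ * q (t ^ M)⁻¹ + 1) * t⁻¹ := by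
      ext s; rw [div_eq_mul_inv]
    rw [h1]
    exact ((((contDiffAt_const.mul cg).mul cq).add contDiffAt_const).neg).mul cinv
  · -- `U`
    have h1 : (fun w : ℂ => (((u (w ^ M)⁻¹ - Real.log (‖w‖ ^ 2) : ℝ)) : ℂ)) =
        fun w => ((u (w ^ M)⁻¹ : ℝ) : ℂ) - ((Real.log (‖w‖ ^ 2) : ℝ) : ℂ) := by
      ext w; push_cast; rfl
    rw [h1, (G2_sub dcu dcn).1, G2_log ht,
      (G2_comp (F := fun w => ((u w : ℝ) : ℂ)) (g := fun s => (s ^ M)⁻¹) dFu hg).1]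
    change dz (fun w => (u w : ℂ)) a⁻¹ * _ - _ = _
    rw [eu]
    change q a⁻¹ * -(M * a⁻¹ / t) - 1 / t = -(M * a⁻¹ * q a⁻¹ + 1) / t
    ring
  · -- `X`
    have h1 : (fun t => x (t ^ M)⁻¹ / t) = fun t => x (t ^ M)⁻¹ * t⁻¹ := by
      ext s; rw [div_eq_mul_inv]
    rw [h1, (G2_mul dcx dci).2, kinv.2,
      (G2_comp (F := x) (g := fun s => (s ^ M)⁻¹) (dx.differentiableAt one_ne_zero) hg).2]
    change dzb x a⁻¹ * (starRingEnd ℂ) (-((M : ℂ) * a⁻¹ / t)) * t⁻¹ + x a⁻¹ * 0 =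
      (Real.exp (u a⁻¹ - Real.log (‖t‖ ^ 2)) : ℂ) * -(M * b a⁻¹ * (starRingEnd ℂ) a⁻¹)
    rw [x1, ex, hg', map_inv₀]
    push_cast
    rw [hnt]
    field_simp
    ring
  · -- `B`
    have h1 : (fun t => -(M * b (t ^ M)⁻¹ * (starRingEnd ℂ) (t ^ M)⁻¹)) =
        fun t => (-(M : ℂ)) * (b (t ^ M)⁻¹ * (starRingEnd ℂ) (t ^ M)⁻¹) := by
      ext s; ring
    have dbc : DifferentiableAt ℝ (fun s : ℂ => b (s ^ M)⁻¹ * (starRingEnd ℂ) (s ^ M)⁻¹) t :=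
      dcb.mul dcc
    rw [h1, (G2_const_mul _ dbc).1, (G2_mul dcb dcc).1, (G2_conj hg).1,
      (G2_comp (F := b) (g := fun s => (s ^ M)⁻¹) (db.differentiableAt one_ne_zero) hg).1]
    change -(M : ℂ) * (dz b a⁻¹ * -(M * a⁻¹ / t) * (starRingEnd ℂ) a⁻¹ + b a⁻¹ * 0) =
      ((((M : ℝ) * σ) ^ 2 * P * Real.exp (-2 * (u a⁻¹ - Real.log (‖t‖ ^ 2))) : ℝ) : ℂ) *
      ((starRingEnd ℂ) (AA M true t) * (PP M true t + 2 * AA M true t * (x a⁻¹ / t)))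
    rw [eb, x2, hAA, hPP, f1, f2]
    have e8 : ((‖a‖ : ℝ) : ℂ) ^ 8 = (a * (starRingEnd ℂ) a) ^ 4 := by rw [← hnaa]; ring
    have e4 : ((‖t‖ : ℝ) : ℂ) ^ 4 = (t * (starRingEnd ℂ) t) ^ 2 := by rw [← hnt]; ring
    push_cast
    rw [e8, e4]
    simp only [map_neg, map_mul, map_sub, map_div₀, map_pow, map_one, map_inv₀]
    field_simp
    ring
  · -- `q`
    have h1 : (fun t => -(M * (t ^ M)⁻¹ * q (t ^ M)⁻¹ + 1) / t) =
        fun t => (-(M : ℂ)) * (((t ^ M)⁻¹ * q (t ^ M)⁻¹) * t⁻¹) - t⁻¹ := by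
      ext s; ring
    have hgh := G2_hol hg
    have dgq : DifferentiableAt ℝ (fun s : ℂ => (s ^ M)⁻¹ * q (s ^ M)⁻¹) t := dg.mul dcq
    have dgqi : DifferentiableAt ℝ (fun s : ℂ => (s ^ M)⁻¹ * q (s ^ M)⁻¹ * s⁻¹) t := dgq.mul dci
    have dk : DifferentiableAt ℝ (fun s : ℂ => (-(M : ℂ)) * ((s ^ M)⁻¹ * q (s ^ M)⁻¹ * s⁻¹)) t :=
      dgqi.const_mul _
    rw [h1, (G2_sub dk dci).2, (G2_const_mul _ dgqi).2, (G2_mul dgq dci).2, kinv.2,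
      (G2_mul dg dcq).2, hgh.2,
      (G2_comp (F := q) (g := fun s => (s ^ M)⁻¹) (dq.differentiableAt one_ne_zero) hg).2]
    have r1 : ‖-((M : ℂ) * b a⁻¹ * (starRingEnd ℂ) a⁻¹)‖ = M * ‖b a⁻¹‖ / ‖a‖ := by
      rw [norm_neg, norm_mul, norm_mul, Complex.norm_natCast, map_inv₀, norm_inv,
        RCLike.norm_conj, div_eq_mul_inv]
    have r2 : ‖AA M true t‖ = ‖a‖ ^ 3 / ‖t‖ ^ 2 * ‖f1 a⁻¹‖ := by
      have : AA M true t = -(a ^ 3 / t ^ 2 * f1 a⁻¹) := by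
        rw [hAA, f1]
        field_simp
      rw [this, norm_neg, norm_mul, norm_div, norm_pow a 3, norm_pow t 2]
    have r3 : ‖PP M true t + 2 * AA M true t * (x a⁻¹ / t)‖ =
        ‖a‖ ^ 3 / ‖t‖ ^ 3 * ‖f2 a⁻¹ + 2 * f1 a⁻¹ * x a⁻¹‖ := by
      have : PP M true t + 2 * AA M true t * (x a⁻¹ / t) =
          -(a ^ 3 / t ^ 3 * (f2 a⁻¹ + 2 * f1 a⁻¹ * x a⁻¹)) := by
        rw [hAA, hPP, f1, f2]
        field_simp
        ring
      rw [this, norm_neg, norm_mul, norm_div, norm_pow a 3, norm_pow t 3]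
    change (-(M : ℂ)) * ((0 * q a⁻¹ + a⁻¹ * (dzb q a⁻¹ * (starRingEnd ℂ) (-((M : ℂ) * a⁻¹ / t)))) *
      t⁻¹ + a⁻¹ * q a⁻¹ * 0) - 0 =
      -((‖-((M : ℂ) * b a⁻¹ * (starRingEnd ℂ) a⁻¹)‖ ^ 2 *
        Real.exp (u a⁻¹ - Real.log (‖t‖ ^ 2)) + ((M : ℝ) * σ) ^ 2 * P *
        (‖AA M true t‖ ^ 2 * Real.exp (-(u a⁻¹ - Real.log (‖t‖ ^ 2))) +
        ‖PP M true t + 2 * AA M true t * (x a⁻¹ / t)‖ ^ 2 *
          Real.exp (-2 * (u a⁻¹ - Real.log (‖t‖ ^ 2)))) : ℝ) : ℂ)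
    rw [r1, r2, r3, x1, x2, x3, eq, hg']
    have hprod : (-(M : ℂ)) * ((0 * q a⁻¹ + a⁻¹ * (-((‖b a⁻¹‖ ^ 2 * Real.exp (u a⁻¹) +
        σ ^ 2 * (P * ‖a‖ ^ 8) * (‖f1 a⁻¹‖ ^ 2 * Real.exp (-u a⁻¹) +
        ‖f2 a⁻¹ + 2 * f1 a⁻¹ * x a⁻¹‖ ^ 2 * Real.exp (-2 * u a⁻¹)) : ℝ) : ℂ) *
        -((M : ℂ) * ((starRingEnd ℂ) a)⁻¹ / (starRingEnd ℂ) t))) * t⁻¹ + a⁻¹ * q a⁻¹ * 0) - 0 =
        ((-((M : ℝ) ^ 2 / (‖a‖ ^ 2 * ‖t‖ ^ 2) * (‖b a⁻¹‖ ^ 2 * Real.exp (u a⁻¹) +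
        σ ^ 2 * (P * ‖a‖ ^ 8) * (‖f1 a⁻¹‖ ^ 2 * Real.exp (-u a⁻¹) +
        ‖f2 a⁻¹ + 2 * f1 a⁻¹ * x a⁻¹‖ ^ 2 * Real.exp (-2 * u a⁻¹)))) : ℝ) : ℂ) := by
      generalize (‖b a⁻¹‖ ^ 2 * Real.exp (u a⁻¹) +
        σ ^ 2 * (P * ‖a‖ ^ 8) * (‖f1 a⁻¹‖ ^ 2 * Real.exp (-u a⁻¹) +
        ‖f2 a⁻¹ + 2 * f1 a⁻¹ * x a⁻¹‖ ^ 2 * Real.exp (-2 * u a⁻¹))) = R
      push_cast
      rw [hnt, hnaa]
      field_simp
      ring
    rw [hprod, ← Complex.ofReal_neg]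
    congr 1
    have hna' : ‖a‖ ≠ 0 := hna.ne'
    have hn' : ‖t‖ ≠ 0 := hn.ne'
    field_simp

/-- TARGET -/
theorem G2 : T_G2 := by
  intro M hM σ u x b q h t ht ht1
  refine G2_main hM ht ht1 (h.sys _ ?_)
  have h1 : (t ^ M)⁻¹ ^ 16 + 1 = (t ^ (16 * M) + 1) / (t ^ M) ^ 16 := by
    have h2 : t ^ M ≠ 0 := pow_ne_zero _ ht
    have p16 : t ^ (16 * M) = (t ^ M) ^ 16 := by
      rw [← pow_mul]
      congr 1
      omega
    rw [p16]
    field_simp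
    ring
  rw [h1]
  exact div_ne_zero ht1 (pow_ne_zero _ (pow_ne_zero _ ht))

end Pool.Agent.Helper614.HE.P_G2
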