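import Pool.Agent.Helper614.HE.SpecC
set_option autoImplicit false

open scoped Manifold ContDiff Matrix ComplexOrder
open Matrix Topology MeasureTheory Set Filter

namespace Pool.Agent.Helper614.HE.P_G3

open Pool.Agent.Helper614.HE



/-
PROOF OF THE TARGET IN WORDS
M >= 5. For t not 0 put z = t^{-M}, U1(t) = u(z) - log|t|^2, X1(t) = x(z)/t, B1(t) = -M b(z) conj z, q1(t) = -(M z q(z)+1)/t as in T_G2; these are continuous on t not 0, and satisfy VSysAt M true (M sigma) where t^{16M}+1 is not 0.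
Bounds for 0 < |t| < 1: |X1| <= C |t|^{-1} (1+|z|)^{-1/4} <= C |t|^{M/4-1} -> 0 (M >= 5), so X1 extends continuously by X1(0) = 0. |B1| <= M C |z|/(1+|z|^2) <= M C. |q1| = (M/|t|) |z q(z) + 1/M| <= M C |t|^{-1} (1+|z|)^{-1/4} <= MC |t|^{M/4-1} <= MC.
U1: it is C^1 on 0 < |t| < 1 (there t^{16M}+1 is not 0), real valued with dz U1 = q1 so |fderiv U1| <= 2 |q1| <= 2MC: for real U, fderiv U v = 2 Re(dz U * v). Hence U1 is Lipschitz along paths in the punctured disc, and has a limit at 0: two points t, t' of the punctured disc of radius r are joined by a radial segment and an arc of total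
length <= 2r + 2 pi r inside the punctured disc (or: by at most two/three segments avoiding 0), so |U1(t) - U1(t')| <= C' r; Cauchy criterion. So U1 extends continuously by U1(0) = the limit.
Now use T_REM on D = ball(0,1/2), t0 = 0, with A(t) = M sigma AA M true t / y(t), Psi = M sigma PP M true t / y(t), y(t) = (1 + t^{16M})^{1/4} (Complex.cpow, holomorphic on |t| < 1 since |t^{16M}| < 1, so 1+t^{16M} is in the slit plane; |y|^{-2} = |1+t^{16M}|^{-1/2}):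
VSysAt at t in D minus {0} is the same as SysAt A Psi U1 X1 B1 q1 t: conj(A)(Psi+2AX) = (M sigma)^2 |y|^{-2} conj(AA)(PP + 2 AA X). REM gives B', q' on D with SysAt at all points of D including 0. Define B = B' on D and B1 outside, q in the same way: continuous on the plane (they agree with B1, q1 on all t not 0, and B', q' are C^1 at 0).
So VSol M true (M sigma) U1 X1 B q: continuity everywhere; the system at t not 0 by T_G2 (B = B1, q = q1 near t), at t = 0 from SysAt at 0 (with y(0) = 1).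
-/

lemma G3_dz_congr {f g : ℂ → ℂ} {t : ℂ} (h : f =ᶠ[𝓝 t] g) : dz f t = dz g t := by
  unfold dz
  rw [h.fderiv_eq]

lemma G3_dzb_congr {f g : ℂ → ℂ} {t : ℂ} (h : f =ᶠ[𝓝 t] g) : dzb f t = dzb g t := by
  unfold dzb
  rw [h.fderiv_eq]

lemma G3_ofReal_congr {f g : ℂ → ℝ} {t : ℂ} (h : f =ᶠ[𝓝 t] g) :
    (fun w => (f w : ℂ)) =ᶠ[𝓝 t] (fun w => (g w : ℂ)) := by
  filter_upwards [h] with w hw
  rw [hw]

lemma G3_V_congr {M : ℕ} {j : Bool} {s : ℝ} {U U' : ℂ → ℝ} {X X' B B' q q' : ℂ → ℂ} {v : ℂ}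
    (hU : U' =ᶠ[𝓝 v] U) (hX : X' =ᶠ[𝓝 v] X) (hB : B' =ᶠ[𝓝 v] B) (hq : q' =ᶠ[𝓝 v] q)
    (h : VSysAt M j s U X B q v) : VSysAt M j s U' X' B' q' v := by
  have u0 := hU.eq_of_nhds
  have x0 := hX.eq_of_nhds
  have b0 := hB.eq_of_nhds
  have q0 := hq.eq_of_nhds
  refine ⟨h.dU.congr_of_eventuallyEq hU, h.dX.congr_of_eventuallyEq hX,
    h.dB.congr_of_eventuallyEq hB, h.dq.congr_of_eventuallyEq hq, ?_, ?_, ?_, ?_⟩
  · rw [G3_dz_congr (G3_ofReal_congr hU), h.eU, q0]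
  · rw [G3_dzb_congr hX, h.eX, u0, b0]
  · rw [G3_dz_congr hB, h.eB, u0, x0]
  · rw [G3_dzb_congr hq, h.eq, u0, x0, b0]

lemma G3_S_congr {A Ψ : ℂ → ℂ} {U U' : ℂ → ℝ} {X X' B B' q q' : ℂ → ℂ} {v : ℂ}
    (hU : U' =ᶠ[𝓝 v] U) (hX : X' =ᶠ[𝓝 v] X) (hB : B' =ᶠ[𝓝 v] B) (hq : q' =ᶠ[𝓝 v] q)
    (h : SysAt A Ψ U X B q v) : SysAt A Ψ U' X' B' q' v := by
  have u0 := hU.eq_of_nhds
  have x0 := hX.eq_of_nhds
  have b0 := hB.eq_of_nhds
  have q0 := hq.eq_of_nhds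
  refine ⟨h.dU.congr_of_eventuallyEq hU, h.dX.congr_of_eventuallyEq hX,
    h.dB.congr_of_eventuallyEq hB, h.dq.congr_of_eventuallyEq hq, ?_, ?_, ?_, ?_⟩
  · rw [G3_dz_congr (G3_ofReal_congr hU), h.eU, q0]
  · rw [G3_dzb_congr hX, h.eX, u0, b0]
  · rw [G3_dz_congr hB, h.eB, u0, x0]
  · rw [G3_dzb_congr hq, h.eq, u0, x0, b0]

/-- The fourth root of `1 + t^{16M}`. -/
noncomputable def G3_y (M : ℕ) (t : ℂ) : ℂ := (1 + t ^ (16 * M)) ^ (((1 / 4 : ℝ)) : ℂ)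

lemma G3_lt_one {M : ℕ} (hM : 5 ≤ M) {t : ℂ} (ht : ‖t‖ < 1) : ‖t ^ (16 * M)‖ < 1 := by
  rw [norm_pow]
  exact pow_lt_one₀ (norm_nonneg _) ht (by omega)

lemma G3_slit {M : ℕ} (hM : 5 ≤ M) {t : ℂ} (ht : ‖t‖ < 1) :
    1 + t ^ (16 * M) ∈ Complex.slitPlane := by
  apply Complex.mem_slitPlane_of_norm_lt_one
  exact G3_lt_one hM ht

lemma G3_ne {M : ℕ} (hM : 5 ≤ M) {t : ℂ} (ht : ‖t‖ < 1) : t ^ (16 * M) + 1 ≠ 0 := by
  rw [add_comm]
  exact Complex.slitPlane_ne_zero (G3_slit hM ht)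

lemma G3_y_ne {M : ℕ} (hM : 5 ≤ M) {t : ℂ} (ht : ‖t‖ < 1) : G3_y M t ≠ 0 := by
  unfold G3_y
  rw [Complex.cpow_ne_zero_iff]
  left
  exact Complex.slitPlane_ne_zero (G3_slit hM ht)

lemma G3_y_sq {M : ℕ} (t : ℂ) (ht : t ^ (16 * M) + 1 ≠ 0) :
    ‖t ^ (16 * M) + 1‖ ^ (-(1 / 2) : ℝ) = 1 / (‖G3_y M t‖ ^ 2) := by
  have hp : 0 < ‖t ^ (16 * M) + 1‖ := norm_pos_iff.2 ht
  unfold G3_y
  rw [Complex.norm_cpow_real, add_comm 1, ← Real.rpow_natCast, ← Real.rpow_mul hp.le,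
    Real.rpow_neg hp.le]
  norm_num

lemma G3_y_diff {M : ℕ} (hM : 5 ≤ M) : DifferentiableOn ℂ (G3_y M) (Metric.ball 0 (1 / 2)) := by
  intro t ht
  have ht1 : ‖t‖ < 1 := by
    rw [Metric.mem_ball, dist_zero_right] at ht
    linarith
  apply DifferentiableAt.differentiableWithinAt
  unfold G3_y
  apply DifferentiableAt.cpow_const
  · fun_prop
  · exact G3_slit hM ht1

/-- The coefficient `A` for the local system. -/
noncomputable def G3_A (M : ℕ) (s : ℝ) (t : ℂ) : ℂ := s * AA M true t / G3_y M t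

/-- The coefficient `Ψ` for the local system. -/
noncomputable def G3_P (M : ℕ) (s : ℝ) (t : ℂ) : ℂ := s * PP M true t / G3_y M t

lemma G3_rhs1 {M : ℕ} (s : ℝ) (t X : ℂ) (U : ℝ) (ht : t ^ (16 * M) + 1 ≠ 0)
    (hy : G3_y M t ≠ 0) :
    (starRingEnd ℂ) (G3_A M s t) * (G3_P M s t + 2 * G3_A M s t * X) * (Real.exp (-2 * U) : ℂ) =
    ((s ^ 2 * ‖t ^ (16 * M) + 1‖ ^ (-(1 / 2) : ℝ) * Real.exp (-2 * U) : ℝ) : ℂ) *
    ((starRingEnd ℂ) (AA M true t) * (PP M true t + 2 * AA M true t * X)) := by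
  rw [G3_y_sq t ht]
  unfold G3_A G3_P
  have h1 : (starRingEnd ℂ) (G3_y M t) * G3_y M t = ((‖G3_y M t‖ ^ 2 : ℝ) : ℂ) := by
    rw [mul_comm, Complex.mul_conj, Complex.normSq_eq_norm_sq]
  have hy' : (starRingEnd ℂ) (G3_y M t) ≠ 0 := by
    rw [Ne, map_eq_zero]
    exact hy
  have hn : ((‖G3_y M t‖ ^ 2 : ℝ) : ℂ) ≠ 0 := by
    rw [← h1]
    exact mul_ne_zero hy' hy
  have e1 : ((s ^ 2 * (1 / ‖G3_y M t‖ ^ 2) * Real.exp (-2 * U) : ℝ) : ℂ)
      = (s : ℂ) ^ 2 / ((starRingEnd ℂ) (G3_y M t) * G3_y M t) * (Real.exp (-2 * U) : ℂ) := by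
    rw [h1]
    push_cast
    ring
  rw [e1, map_div₀, map_mul, Complex.conj_ofReal]
  field_simp

lemma G3_rhs2 {M : ℕ} (s : ℝ) (t X B : ℂ) (U : ℝ) (ht : t ^ (16 * M) + 1 ≠ 0)
    (hy : G3_y M t ≠ 0) :
    ‖B‖ ^ 2 * Real.exp U + ‖G3_A M s t‖ ^ 2 * Real.exp (-U) +
    ‖G3_P M s t + 2 * G3_A M s t * X‖ ^ 2 * Real.exp (-2 * U) =
    ‖B‖ ^ 2 * Real.exp U + s ^ 2 * ‖t ^ (16 * M) + 1‖ ^ (-(1 / 2) : ℝ) *
    (‖AA M true t‖ ^ 2 * Real.exp (-U) +
      ‖PP M true t + 2 * AA M true t * X‖ ^ 2 * Real.exp (-2 * U)) := by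
  rw [G3_y_sq t ht]
  have hn : ‖G3_y M t‖ ≠ 0 := norm_ne_zero_iff.2 hy
  have e1 : ‖G3_A M s t‖ ^ 2 = s ^ 2 * (1 / ‖G3_y M t‖ ^ 2) * ‖AA M true t‖ ^ 2 := by
    unfold G3_A
    rw [norm_div, norm_mul, Complex.norm_real, div_pow, mul_pow, Real.norm_eq_abs, sq_abs]
    ring
  have e2 : G3_P M s t + 2 * G3_A M s t * X
      = s * (PP M true t + 2 * AA M true t * X) / G3_y M t := by
    unfold G3_A G3_P
    ring
  have e3 : ‖G3_P M s t + 2 * G3_A M s t * X‖ ^ 2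
      = s ^ 2 * (1 / ‖G3_y M t‖ ^ 2) * ‖PP M true t + 2 * AA M true t * X‖ ^ 2 := by
    rw [e2, norm_div, norm_mul, Complex.norm_real, div_pow, mul_pow, Real.norm_eq_abs, sq_abs]
    ring
  rw [e1, e3]
  ring

lemma G3_S_of_V {M : ℕ} {s : ℝ} {U : ℂ → ℝ} {X B q : ℂ → ℂ} {t : ℂ}
    (ht : t ^ (16 * M) + 1 ≠ 0) (hy : G3_y M t ≠ 0) (h : VSysAt M true s U X B q t) :
    SysAt (G3_A M s) (G3_P M s) U X B q t := by
  refine ⟨h.dU, h.dX, h.dB, h.dq, h.eU, h.eX, ?_, ?_⟩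
  · rw [h.eB, G3_rhs1 s t (X t) (U t) ht hy]
  · rw [h.eq, G3_rhs2 s t (X t) (B t) (U t) ht hy]

lemma G3_V_of_S {M : ℕ} {s : ℝ} {U : ℂ → ℝ} {X B q : ℂ → ℂ} {t : ℂ}
    (ht : t ^ (16 * M) + 1 ≠ 0) (hy : G3_y M t ≠ 0)
    (h : SysAt (G3_A M s) (G3_P M s) U X B q t) : VSysAt M true s U X B q t := by
  refine ⟨h.dU, h.dX, h.dB, h.dq, h.eU, h.eX, ?_, ?_⟩
  · rw [h.eB, G3_rhs1 s t (X t) (U t) ht hy]
  · rw [h.eq, G3_rhs2 s t (X t) (B t) (U t) ht hy]

lemma G3_A_diff {M : ℕ} (hM : 5 ≤ M) (s : ℝ) :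
    DifferentiableOn ℂ (G3_A M s) (Metric.ball 0 (1 / 2)) := by
  unfold G3_A
  apply DifferentiableOn.div
  · unfold AA
    simp only [Bool.true_eq_false, if_false]
    fun_prop
  · exact G3_y_diff hM
  · intro t ht
    apply G3_y_ne hM
    rw [Metric.mem_ball, dist_zero_right] at ht
    linarith

lemma G3_P_diff {M : ℕ} (hM : 5 ≤ M) (s : ℝ) :
    DifferentiableOn ℂ (G3_P M s) (Metric.ball 0 (1 / 2)) := by
  unfold G3_P
  apply DifferentiableOn.div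
  · unfold PP
    simp only [Bool.true_eq_false, if_false]
    fun_prop
  · exact G3_y_diff hM
  · intro t ht
    apply G3_y_ne hM
    rw [Metric.mem_ball, dist_zero_right] at ht
    linarith

/-- The gradient of a real function is controlled by its Wirtinger derivative. -/
lemma G3_fderiv_bound {U : ℂ → ℝ} {t : ℂ} (hU : DifferentiableAt ℝ U t) {K : ℝ}
    (h : ‖dz (fun w => (U w : ℂ)) t‖ ≤ K) : ‖fderiv ℝ U t‖ ≤ 2 * K := by
  have hK : 0 ≤ K := le_trans (norm_nonneg _) h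
  have e : fderiv ℝ (fun w => (U w : ℂ)) t = Complex.ofRealCLM.comp (fderiv ℝ U t) := by
    have : HasFDerivAt (fun w => (U w : ℂ)) (Complex.ofRealCLM.comp (fderiv ℝ U t)) t :=
      Complex.ofRealCLM.hasFDerivAt.comp t hU.hasFDerivAt
    exact this.fderiv
  unfold dz at h
  rw [e] at h
  simp only [ContinuousLinearMap.coe_comp, Function.comp_apply, Complex.ofRealCLM_apply] at h
  set p : ℝ := fderiv ℝ U t 1 with hp
  set r : ℝ := fderiv ℝ U t Complex.I with hr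
  have h1 : ‖((p : ℂ) - Complex.I * r) / 2‖ ^ 2 = (p ^ 2 + r ^ 2) / 4 := by
    rw [← Complex.normSq_eq_norm_sq, Complex.normSq_apply]
    simp
    ring
  have h2 : (p ^ 2 + r ^ 2) / 4 ≤ K ^ 2 := by
    rw [← h1]
    exact pow_le_pow_left₀ (norm_nonneg _) h 2
  apply ContinuousLinearMap.opNorm_le_bound _ (by positivity)
  intro v
  have hv : fderiv ℝ U t v = v.re * p + v.im * r := by
    have : v = v.re • (1 : ℂ) + v.im • Complex.I := by
      apply Complex.ext <;> simp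
    conv_lhs => rw [this]
    rw [map_add, map_smul, map_smul]
    simp [hp, hr]
  rw [hv, Real.norm_eq_abs]
  have h3 : ‖v‖ ^ 2 = v.re ^ 2 + v.im ^ 2 := by
    rw [← Complex.normSq_eq_norm_sq, Complex.normSq_apply]
    ring
  apply abs_le_of_sq_le_sq _ (by positivity)
  have h4 : (v.re * p + v.im * r) ^ 2 ≤ (v.re ^ 2 + v.im ^ 2) * (p ^ 2 + r ^ 2) := by
    nlinarith [sq_nonneg (v.re * r - v.im * p)]
  have h5 : (2 * K * ‖v‖) ^ 2 = 4 * K ^ 2 * (v.re ^ 2 + v.im ^ 2) := by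
    rw [mul_pow, mul_pow, h3]; ring
  rw [h5]
  nlinarith [sq_nonneg v.re, sq_nonneg v.im]

/-- A function with bounded gradient on the punctured disc has a limit at the centre. -/
lemma G3_limit {U : ℂ → ℝ} {K : ℝ} (hd : ∀ t : ℂ, t ≠ 0 → ‖t‖ < 1 → DifferentiableAt ℝ U t)
    (hb : ∀ t : ℂ, t ≠ 0 → ‖t‖ < 1 → ‖fderiv ℝ U t‖ ≤ K) :
    ∃ L : ℝ, Tendsto U (𝓝[≠] 0) (𝓝 L) := by
  have hK : 0 ≤ K := by
    refine le_trans (norm_nonneg _) (hb (1 / 2) (by norm_num) ?_)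
    norm_num
  -- Lipschitz on convex subsets
  have hlip : ∀ s : Set ℂ, Convex ℝ s → (∀ t ∈ s, t ≠ 0 ∧ ‖t‖ < 1) → ∀ x ∈ s, ∀ y ∈ s,
      |U x - U y| ≤ K * ‖x - y‖ := by
    intro s hs hs' x hx y hy
    have := hs.norm_image_sub_le_of_norm_fderiv_le (𝕜 := ℝ) (f := U) (C := K)
      (fun t ht => hd t (hs' t ht).1 (hs' t ht).2) (fun t ht => hb t (hs' t ht).1 (hs' t ht).2)
      hy hx
    rwa [Real.norm_eq_abs] at this
  have hball : Convex ℝ (Metric.ball (0 : ℂ) 1) := convex_ball _ _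
  have hre1 : Convex ℝ ({z : ℂ | 0 < z.re} ∩ Metric.ball (0 : ℂ) 1) :=
    (convex_halfSpace_gt (f := fun z : ℂ => z.re) Complex.reLm.isLinear 0).inter hball
  have hre2 : Convex ℝ ({z : ℂ | z.re < 0} ∩ Metric.ball (0 : ℂ) 1) :=
    (convex_halfSpace_lt (f := fun z : ℂ => z.re) Complex.reLm.isLinear 0).inter hball
  have him1 : Convex ℝ ({z : ℂ | 0 < z.im} ∩ Metric.ball (0 : ℂ) 1) :=
    (convex_halfSpace_gt (f := fun z : ℂ => z.im) Complex.imLm.isLinear 0).inter hball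
  have him2 : Convex ℝ ({z : ℂ | z.im < 0} ∩ Metric.ball (0 : ℂ) 1) :=
    (convex_halfSpace_lt (f := fun z : ℂ => z.im) Complex.imLm.isLinear 0).inter hball
  have l1 := hlip _ hre1 (by
    rintro t ⟨h1, h2⟩
    refine ⟨?_, by simpa using h2⟩
    rintro rfl
    simp at h1)
  have l2 := hlip _ hre2 (by
    rintro t ⟨h1, h2⟩
    refine ⟨?_, by simpa using h2⟩
    rintro rfl
    simp at h1)
  have l3 := hlip _ him1 (by
    rintro t ⟨h1, h2⟩
    refine ⟨?_, by simpa using h2⟩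
    rintro rfl
    simp at h1)
  have l4 := hlip _ him2 (by
    rintro t ⟨h1, h2⟩
    refine ⟨?_, by simpa using h2⟩
    rintro rfl
    simp at h1)
  -- comparison with a base point
  have key : ∀ r : ℝ, 0 < r → r ≤ 1 → ∀ t : ℂ, t ≠ 0 → ‖t‖ < r →
      |U t - U ((r / 4 : ℝ) : ℂ)| ≤ 8 * K * r := by
    intro r hr hr1 t ht htr
    set p1 : ℂ := ⟨r / 4, 0⟩ with hp1
    set p2 : ℂ := ⟨r / 4, r / 4⟩ with hp2
    set p3 : ℂ := ⟨r / 4, -(r / 4)⟩ with hp3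
    set p4 : ℂ := ⟨-(r / 4), r / 4⟩ with hp4
    have ep : ((r / 4 : ℝ) : ℂ) = p1 := by
      apply Complex.ext <;> simp [hp1]
    have hn : ∀ z : ℂ, |z.re| ≤ r / 4 → |z.im| ≤ r / 4 → ‖z‖ < r := by
      intro z h1 h2
      have := Complex.norm_le_abs_re_add_abs_im z
      linarith
    have hr4 : |r / 4| ≤ r / 4 := (abs_of_pos (by positivity)).le
    have hr4' : |-(r / 4)| ≤ r / 4 := by rw [abs_neg]; exact hr4
    have n1 : ‖p1‖ < r := hn p1 hr4 (by simp [hp1]; positivity)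
    have n2 : ‖p2‖ < r := hn p2 hr4 hr4
    have n3 : ‖p3‖ < r := hn p3 hr4 hr4'
    have n4 : ‖p4‖ < r := hn p4 hr4' hr4
    have inball : ∀ z : ℂ, ‖z‖ < r → z ∈ Metric.ball (0 : ℂ) 1 := by
      intro z hz
      simp
      linarith
    have hdist : ∀ x y : ℂ, ‖x‖ < r → ‖y‖ < r → K * ‖x - y‖ ≤ 2 * K * r := by
      intro x y hx hy
      have := norm_sub_le x y
      nlinarith
    have hr4p : 0 < r / 4 := by positivity
    rw [ep]
    -- links between base points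
    have b21 : |U p2 - U p1| ≤ 2 * K * r :=
      le_trans (l1 p2 ⟨hr4p, inball _ n2⟩ p1 ⟨hr4p, inball _ n1⟩) (hdist _ _ n2 n1)
    have b31 : |U p3 - U p1| ≤ 2 * K * r :=
      le_trans (l1 p3 ⟨hr4p, inball _ n3⟩ p1 ⟨hr4p, inball _ n1⟩) (hdist _ _ n3 n1)
    have b42 : |U p4 - U p2| ≤ 2 * K * r :=
      le_trans (l3 p4 ⟨hr4p, inball _ n4⟩ p2 ⟨hr4p, inball _ n2⟩) (hdist _ _ n4 n2)
    have hKr : 0 ≤ K * r := by positivity
    rcases lt_trichotomy t.re 0 with h | h | h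
    · have b : |U t - U p4| ≤ 2 * K * r :=
        le_trans (l2 t ⟨h, inball _ htr⟩ p4 ⟨by simp [hp4]; positivity, inball _ n4⟩)
          (hdist _ _ htr n4)
      rw [abs_le] at *
      constructor <;> linarith [b.1, b.2, b42.1, b42.2, b21.1, b21.2]
    · rcases lt_trichotomy t.im 0 with h' | h' | h'
      · have b : |U t - U p3| ≤ 2 * K * r :=
          le_trans (l4 t ⟨h', inball _ htr⟩ p3 ⟨by simp [hp3]; positivity, inball _ n3⟩)
            (hdist _ _ htr n3)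
        rw [abs_le] at *
        constructor <;> linarith [b.1, b.2, b31.1, b31.2]
      · exact absurd (Complex.ext h h') ht
      · have b : |U t - U p2| ≤ 2 * K * r :=
          le_trans (l3 t ⟨h', inball _ htr⟩ p2 ⟨hr4p, inball _ n2⟩) (hdist _ _ htr n2)
        rw [abs_le] at *
        constructor <;> linarith [b.1, b.2, b21.1, b21.2]
    · have b : |U t - U p1| ≤ 2 * K * r :=
        le_trans (l1 t ⟨h, inball _ htr⟩ p1 ⟨hr4p, inball _ n1⟩) (hdist _ _ htr n1)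
      rw [abs_le] at *
      constructor <;> linarith [b.1, b.2]
  -- Cauchy
  have hcau : Cauchy (map U (𝓝[≠] (0 : ℂ))) := by
    rw [Metric.cauchy_iff]
    refine ⟨inferInstance, ?_⟩
    intro ε hε
    obtain ⟨r, hr, hr1, hr2⟩ : ∃ r : ℝ, 0 < r ∧ r ≤ 1 ∧ 16 * K * r < ε := by
      refine ⟨min 1 (ε / (16 * K + 1) / 2), by positivity, min_le_left _ _, ?_⟩
      have h1 : min 1 (ε / (16 * K + 1) / 2) ≤ ε / (16 * K + 1) / 2 := min_le_right _ _
      have h2 : 16 * K * (ε / (16 * K + 1) / 2) < ε := by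
        have : 0 < 16 * K + 1 := by positivity
        rw [div_div, mul_div_assoc', div_lt_iff₀ (by positivity)]
        nlinarith
      exact lt_of_le_of_lt (mul_le_mul_of_nonneg_left h1 (by positivity)) h2
    refine ⟨U '' {t : ℂ | t ≠ 0 ∧ ‖t‖ < r}, ?_, ?_⟩
    · apply image_mem_map
      have : {t : ℂ | t ≠ 0 ∧ ‖t‖ < r} = Metric.ball (0 : ℂ) r ∩ {0}ᶜ := by
        ext t
        simp [and_comm]
      rw [this]
      exact Filter.inter_mem (mem_nhdsWithin_of_mem_nhds (Metric.ball_mem_nhds _ hr))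
        self_mem_nhdsWithin
    · rintro _ ⟨x, ⟨hx0, hx⟩, rfl⟩ _ ⟨y, ⟨hy0, hy⟩, rfl⟩
      have k1 := key r hr hr1 x hx0 hx
      have k2 := key r hr hr1 y hy0 hy
      rw [Real.dist_eq]
      rw [abs_le] at k1 k2
      rw [abs_lt]
      constructor <;> linarith [k1.1, k1.2, k2.1, k2.2]
  exact cauchy_map_iff_exists_tendsto.1 hcau

-- TARGET
theorem G3 (hG2 : T_G2) (hREM : T_REM) : T_G3 := by
  intro M hM σ u x b q h
  set s : ℝ := M * σ with hs
  set U1 : ℂ → ℝ := fun t => u (t ^ M)⁻¹ - Real.log (‖t‖ ^ 2) with hU1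
  set X1 : ℂ → ℂ := fun t => x (t ^ M)⁻¹ / t with hX1
  set B1 : ℂ → ℂ := fun t => -(M * b (t ^ M)⁻¹ * (starRingEnd ℂ) (t ^ M)⁻¹) with hB1
  set q1 : ℂ → ℂ := fun t => -(M * (t ^ M)⁻¹ * q (t ^ M)⁻¹ + 1) / t with hq1
  have hV : ∀ t : ℂ, t ≠ 0 → t ^ (16 * M) + 1 ≠ 0 → VSysAt M true s U1 X1 B1 q1 t :=
    fun t ht ht' => hG2 M (by omega) σ u x b q h t ht ht'
  have hMpos : (0 : ℝ) < M := by
    have : 0 < M := by omega
    exact_mod_cast this
  -- continuity away from `0`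
  have cz : ∀ t : ℂ, t ≠ 0 → ContinuousAt (fun t : ℂ => (t ^ M)⁻¹) t := by
    intro t ht
    exact ContinuousAt.inv₀ (by fun_prop) (pow_ne_zero _ ht)
  have cU1 : ∀ t : ℂ, t ≠ 0 → ContinuousAt U1 t := by
    intro t ht
    apply ContinuousAt.sub
    · exact ContinuousAt.comp (f := fun t : ℂ => (t ^ M)⁻¹) h.cu.continuousAt (cz t ht)
    · apply ContinuousAt.log
      · fun_prop
      · exact pow_ne_zero _ (norm_ne_zero_iff.2 ht)
  have cX1 : ∀ t : ℂ, t ≠ 0 → ContinuousAt X1 t := by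
    intro t ht
    apply ContinuousAt.div _ continuousAt_id ht
    exact ContinuousAt.comp (f := fun t : ℂ => (t ^ M)⁻¹) h.cx.continuousAt (cz t ht)
  have cB1 : ∀ t : ℂ, t ≠ 0 → ContinuousAt B1 t := by
    intro t ht
    apply ContinuousAt.neg
    apply ContinuousAt.mul
    · apply ContinuousAt.mul continuousAt_const
      exact ContinuousAt.comp (f := fun t : ℂ => (t ^ M)⁻¹) h.cb.continuousAt (cz t ht)
    · exact ContinuousAt.comp (f := fun t : ℂ => (t ^ M)⁻¹) Complex.continuous_conj.continuousAt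
        (cz t ht)
  have cq1 : ∀ t : ℂ, t ≠ 0 → ContinuousAt q1 t := by
    intro t ht
    apply ContinuousAt.div _ continuousAt_id ht
    apply ContinuousAt.neg
    apply ContinuousAt.add _ continuousAt_const
    apply ContinuousAt.mul
    · exact ContinuousAt.mul continuousAt_const (cz t ht)
    · exact ContinuousAt.comp (f := fun t : ℂ => (t ^ M)⁻¹) h.cq.continuousAt (cz t ht)
  -- the size of `z`
  have hdecay : ∀ t : ℂ, t ≠ 0 → ‖t‖ < 1 →
      (1 + ‖(t ^ M)⁻¹‖) ^ (-(1 / 4) : ℝ) / ‖t‖ ≤ ‖t‖ ^ (1 / 4 : ℝ) := by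
    intro t ht ht1
    have hp : 0 < ‖t‖ := norm_pos_iff.2 ht
    have hz : 0 < ‖(t ^ M)⁻¹‖ := norm_pos_iff.2 (inv_ne_zero (pow_ne_zero _ ht))
    have h1 : (1 + ‖(t ^ M)⁻¹‖) ^ (-(1 / 4) : ℝ) ≤ ‖(t ^ M)⁻¹‖ ^ (-(1 / 4) : ℝ) :=
      Real.rpow_le_rpow_of_nonpos hz (by linarith) (by norm_num)
    have h2 : ‖(t ^ M)⁻¹‖ ^ (-(1 / 4) : ℝ) = ‖t‖ ^ ((M : ℝ) * (1 / 4)) := by
      rw [norm_inv, norm_pow, Real.rpow_neg (by positivity), Real.inv_rpow (by positivity),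
        inv_inv, ← Real.rpow_natCast, ← Real.rpow_mul hp.le]
    have h3 : ‖t‖ ^ ((M : ℝ) * (1 / 4)) ≤ ‖t‖ ^ ((1 : ℝ) + 1 / 4) := by
      apply Real.rpow_le_rpow_of_exponent_ge hp ht1.le
      have : (5 : ℝ) ≤ M := by exact_mod_cast hM
      linarith
    rw [Real.rpow_add hp, Real.rpow_one] at h3
    rw [div_le_iff₀ hp]
    calc (1 + ‖(t ^ M)⁻¹‖) ^ (-(1 / 4) : ℝ) ≤ ‖t‖ ^ ((M : ℝ) * (1 / 4)) := by rw [← h2]; exact h1
      _ ≤ ‖t‖ ^ (1 / 4 : ℝ) * ‖t‖ := le_trans h3 (mul_comm _ _).le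
  have hle1 : ∀ t : ℂ, ‖t‖ < 1 → ‖t‖ ^ (1 / 4 : ℝ) ≤ 1 := fun t ht =>
    Real.rpow_le_one (norm_nonneg _) ht.le (by norm_num)
  -- bounds
  obtain ⟨Cx, hCx⟩ := h.bx
  obtain ⟨Cb, hCb⟩ := h.bb
  obtain ⟨Cq, hCq⟩ := h.bq
  have hCx0 : 0 ≤ Cx := by
    have := le_trans (norm_nonneg _) (hCx 0)
    simpa using this
  have hCb0 : 0 ≤ Cb := by
    have := le_trans (norm_nonneg _) (hCb 0)
    simpa using this
  have hCq0 : 0 ≤ Cq := by
    have := le_trans (norm_nonneg _) (hCq 0)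
    simpa using this
  have bX1 : ∀ t : ℂ, t ≠ 0 → ‖t‖ < 1 → ‖X1 t‖ ≤ Cx * ‖t‖ ^ (1 / 4 : ℝ) := by
    intro t ht ht1
    have hp : 0 < ‖t‖ := norm_pos_iff.2 ht
    simp only [hX1]
    rw [norm_div]
    calc ‖x (t ^ M)⁻¹‖ / ‖t‖ ≤ Cx * (1 + ‖(t ^ M)⁻¹‖) ^ (-(1 / 4) : ℝ) / ‖t‖ :=
          div_le_div_of_nonneg_right (hCx _) hp.le
      _ = Cx * ((1 + ‖(t ^ M)⁻¹‖) ^ (-(1 / 4) : ℝ) / ‖t‖) := by rw [mul_div_assoc]
      _ ≤ Cx * ‖t‖ ^ (1 / 4 : ℝ) := mul_le_mul_of_nonneg_left (hdecay t ht ht1) hCx0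
  have bB1 : ∀ t : ℂ, t ≠ 0 → ‖t‖ < 1 → ‖B1 t‖ ≤ M * Cb := by
    intro t ht ht1
    simp only [hB1]
    rw [norm_neg, norm_mul, norm_mul, Complex.norm_conj, Complex.norm_natCast]
    set z := (t ^ M)⁻¹ with hz
    have h1 := hCb z
    have h2 : Cb / (1 + ‖z‖ ^ 2) * ‖z‖ ≤ Cb := by
      rw [div_mul_eq_mul_div, div_le_iff₀ (by positivity)]
      have : ‖z‖ ≤ 1 + ‖z‖ ^ 2 := by nlinarith [sq_nonneg (‖z‖ - 1), norm_nonneg z]
      exact mul_le_mul_of_nonneg_left this hCb0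
    calc (M : ℝ) * ‖b z‖ * ‖z‖ = M * (‖b z‖ * ‖z‖) := by ring
      _ ≤ M * (Cb / (1 + ‖z‖ ^ 2) * ‖z‖) := by gcongr
      _ ≤ M * Cb := by gcongr
  have bq1 : ∀ t : ℂ, t ≠ 0 → ‖t‖ < 1 → ‖q1 t‖ ≤ M * Cq := by
    intro t ht ht1
    have hp : 0 < ‖t‖ := norm_pos_iff.2 ht
    simp only [hq1]
    set z := (t ^ M)⁻¹ with hz
    have hMc : (M : ℂ) ≠ 0 := by
      have : M ≠ 0 := by omega
      exact_mod_cast this
    have e1 : -((M : ℂ) * z * q z + 1) / t = -(M * (z * q z + (1 / M : ℝ))) / t := by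
      push_cast
      field_simp
    rw [e1, norm_div, norm_neg, norm_mul, Complex.norm_natCast]
    calc (M : ℝ) * ‖z * q z + ((1 / M : ℝ) : ℂ)‖ / ‖t‖
        ≤ M * (Cq * (1 + ‖z‖) ^ (-(1 / 4) : ℝ)) / ‖t‖ := by
          have := hCq z
          gcongr
      _ = M * (Cq * ((1 + ‖z‖) ^ (-(1 / 4) : ℝ) / ‖t‖)) := by ring
      _ ≤ M * (Cq * 1) := by
          have := le_trans (hdecay t ht ht1) (hle1 t ht1)
          gcongr
      _ = M * Cq := by ring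
  -- the limit of `U1`
  obtain ⟨L, hL⟩ : ∃ L : ℝ, Tendsto U1 (𝓝[≠] 0) (𝓝 L) := by
    apply G3_limit (K := 2 * (M * Cq))
    · intro t ht ht1
      exact (hV t ht (G3_ne hM ht1)).dU.differentiableAt (by norm_num)
    · intro t ht ht1
      have hv := hV t ht (G3_ne hM ht1)
      apply G3_fderiv_bound (hv.dU.differentiableAt (by norm_num))
      rw [hv.eU]
      exact bq1 t ht ht1
  set U : ℂ → ℝ := Function.update U1 0 L with hU
  have hUne : ∀ t : ℂ, t ≠ 0 → U t = U1 t := fun t ht => by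
    rw [hU, Function.update_of_ne ht]
  have hUev : ∀ t : ℂ, t ≠ 0 → U =ᶠ[𝓝 t] U1 := fun t ht => by
    filter_upwards [isOpen_ne.mem_nhds ht] with w hw
    exact hUne w hw
  have cU : Continuous U := by
    rw [continuous_iff_continuousAt]
    intro t
    by_cases ht : t = 0
    · subst ht
      rw [hU]
      exact continuousAt_update_same.2 hL
    · exact (cU1 t ht).congr (hUev t ht).symm
  have cX : Continuous X1 := by
    rw [continuous_iff_continuousAt]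
    intro t
    by_cases ht : t = 0
    · subst ht
      have h0 : X1 0 = 0 := by simp [hX1]
      rw [ContinuousAt, h0]
      rw [tendsto_zero_iff_norm_tendsto_zero]
      have hlim : Tendsto (fun t : ℂ => Cx * ‖t‖ ^ (1 / 4 : ℝ)) (𝓝 0) (𝓝 0) := by
        have hc : Continuous (fun t : ℂ => Cx * ‖t‖ ^ (1 / 4 : ℝ)) := by
          apply continuous_const.mul
          exact continuous_norm.rpow_const fun _ => Or.inr (by norm_num)
        have := hc.tendsto 0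
        simpa using this
      apply squeeze_zero' (Eventually.of_forall fun t => norm_nonneg _) _ hlim
      filter_upwards [Metric.ball_mem_nhds (0 : ℂ) one_pos] with t ht1
      rw [Metric.mem_ball, dist_zero_right] at ht1
      by_cases ht : t = 0
      · subst ht
        rw [h0]
        simp
      · exact bX1 t ht ht1
    · exact cX1 t ht
  -- the local system
  have hD : ∀ t : ℂ, t ∈ Metric.ball (0 : ℂ) (1 / 2) → ‖t‖ < 1 := by
    intro t ht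
    rw [Metric.mem_ball, dist_zero_right] at ht
    linarith
  obtain ⟨B', q', hBq, hS⟩ := hREM (Metric.ball 0 (1 / 2)) Metric.isOpen_ball 0
    (Metric.mem_ball_self (by norm_num)) (G3_A M s) (G3_P M s) (G3_A_diff hM s) (G3_P_diff hM s)
    U X1 B1 q1 cU.continuousOn cX.continuousOn
    (fun t ht => (cB1 t ht.2).continuousWithinAt) (fun t ht => (cq1 t ht.2).continuousWithinAt)
    ⟨max (M * Cb) (M * Cq), fun t ht => ⟨le_trans (bB1 t ht.2 (hD t ht.1)) (le_max_left _ _),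
      le_trans (bq1 t ht.2 (hD t ht.1)) (le_max_right _ _)⟩⟩
    (fun t ht => by
      have h1 := hD t ht.1
      have h2 := hV t ht.2 (G3_ne hM h1)
      have h3 := G3_S_of_V (G3_ne hM h1) (G3_y_ne hM h1) h2
      exact G3_S_congr (hUev t ht.2) EventuallyEq.rfl EventuallyEq.rfl EventuallyEq.rfl h3)
  set B : ℂ → ℂ := Function.update B1 0 (B' 0) with hB
  set Q : ℂ → ℂ := Function.update q1 0 (q' 0) with hQ
  have hBne : ∀ t : ℂ, t ≠ 0 → B t = B1 t := fun t ht => by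
    rw [hB, Function.update_of_ne ht]
  have hQne : ∀ t : ℂ, t ≠ 0 → Q t = q1 t := fun t ht => by
    rw [hQ, Function.update_of_ne ht]
  have hBev : ∀ t : ℂ, t ≠ 0 → B =ᶠ[𝓝 t] B1 := fun t ht => by
    filter_upwards [isOpen_ne.mem_nhds ht] with w hw
    exact hBne w hw
  have hQev : ∀ t : ℂ, t ≠ 0 → Q =ᶠ[𝓝 t] q1 := fun t ht => by
    filter_upwards [isOpen_ne.mem_nhds ht] with w hw
    exact hQne w hw
  have hB0 : B =ᶠ[𝓝 0] B' := by
    filter_upwards [Metric.ball_mem_nhds (0 : ℂ) (show (0 : ℝ) < 1 / 2 by norm_num)] with w hw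
    by_cases hw0 : w = 0
    · subst hw0
      rw [hB, Function.update_self]
    · rw [hBne w hw0, (hBq w ⟨hw, hw0⟩).1]
  have hQ0 : Q =ᶠ[𝓝 0] q' := by
    filter_upwards [Metric.ball_mem_nhds (0 : ℂ) (show (0 : ℝ) < 1 / 2 by norm_num)] with w hw
    by_cases hw0 : w = 0
    · subst hw0
      rw [hQ, Function.update_self]
    · rw [hQne w hw0, (hBq w ⟨hw, hw0⟩).2]
  have hS0 := hS 0 (Metric.mem_ball_self (by norm_num))
  refine ⟨U, X1, B, Q, ⟨cU, cX, ?_, ?_, ?_⟩, ?_⟩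
  · rw [continuous_iff_continuousAt]
    intro t
    by_cases ht : t = 0
    · subst ht
      exact hS0.dB.continuousAt.congr hB0.symm
    · exact (cB1 t ht).congr (hBev t ht).symm
  · rw [continuous_iff_continuousAt]
    intro t
    by_cases ht : t = 0
    · subst ht
      exact hS0.dq.continuousAt.congr hQ0.symm
    · exact (cq1 t ht).congr (hQev t ht).symm
  · intro v hv
    by_cases hv0 : v = 0
    · subst hv0
      have hn : ‖(0 : ℂ)‖ < 1 := by simp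
      have h1 := G3_V_of_S (G3_ne hM hn) (G3_y_ne hM hn) hS0
      exact G3_V_congr EventuallyEq.rfl EventuallyEq.rfl hB0 hQ0 h1
    · exact G3_V_congr (hUev v hv0) EventuallyEq.rfl (hBev v hv0) (hQev v hv0) (hV v hv0 hv)
  · intro t ht
    exact ⟨hUne t ht, rfl⟩

end Pool.Agent.Helper614.HE.P_G3
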