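import Pool.Agent.Helper614.HE.SpecC
set_option autoImplicit false

open scoped Manifold ContDiff Matrix ComplexOrder
open Matrix Topology MeasureTheory Set Filter

namespace Pool.Agent.Helper614.HE.P_G4

open Pool.Agent.Helper614.HE



/-
PROOF OF THE TARGET IN WORDS
Composition with the holomorphic map V at t: dz (F o V) = (dz F)(V t) V'(t), dzb (F o V) = (dzb F)(V t) conj(V'(t)) for F real differentiable at V t. V' = deriv V is holomorphic on the open set D, so dzb V' = 0, dz (conj V') = 0, and both are smooth. All four functions are C^1 at t.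
eU: dz(U o V) = q(V) V'. eX: dzb(X o V) = e^U B(V) conj V'. eB: dz(B(V) conj V') = (dz B)(V) V' conj V' = s^2 |V^{16M}+1|^{-1/2} e^{-2U} conj(AA)(PP+2AA X) |V'|^2, and |V^{16M}+1| = |Y|^4, (|Y|^4)^{-1/2} = |Y|^{-2}, |V'|^2 = |theta|^2 |Y|^2 so this is
s^2 |theta|^2 e^{-2U} conj(AA)(PP + 2 AA X) = conj(s theta AA) (s theta PP + 2 s theta AA X) e^{-2U}. eq: the same: dzb(q(V) V') = (dzb q)(V) |V'|^2.
(Real.rpow: (|Y|^4)^(-1/2) = (|Y|^2)^{-1} for Y not 0.)
-/
theorem G4_lin (L : ℂ →L[ℝ] ℂ) (w : ℂ) :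
    L w = (L 1 - Complex.I * L Complex.I) / 2 * w +
      (L 1 + Complex.I * L Complex.I) / 2 * (starRingEnd ℂ) w := by
  have h1 : w = w.re • (1 : ℂ) + w.im • Complex.I := by
    apply Complex.ext <;> simp
  have h2 : L w = (w.re : ℂ) * L 1 + (w.im : ℂ) * L Complex.I := by
    conv_lhs => rw [h1]
    rw [map_add, map_smul, map_smul, Complex.real_smul, Complex.real_smul]
  have h3 : (starRingEnd ℂ) w = w - 2 * (w.im : ℂ) * Complex.I := by
    apply Complex.ext <;> simp <;> ring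
  have h4 : w = (w.re : ℂ) + (w.im : ℂ) * Complex.I := (Complex.re_add_im w).symm
  rw [h2, h3]
  have hI : Complex.I * Complex.I = -1 := Complex.I_mul_I
  have h5 : (L 1 - Complex.I * L Complex.I) / 2 * w +
      (L 1 + Complex.I * L Complex.I) / 2 * (w - 2 * (w.im : ℂ) * Complex.I) =
      L 1 * (w - (w.im : ℂ) * Complex.I) -
        (Complex.I * Complex.I) * L Complex.I * (w.im : ℂ) := by ring
  rw [h5, hI]
  have h6 : w - (w.im : ℂ) * Complex.I = (w.re : ℂ) := by linear_combination h4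
  rw [h6]
  ring

theorem G4_comp {F V : ℂ → ℂ} {t : ℂ} (hF : DifferentiableAt ℝ F (V t))
    (hV : DifferentiableAt ℂ V t) :
    dz (fun w => F (V w)) t = dz F (V t) * deriv V t ∧
      dzb (fun w => F (V w)) t = dzb F (V t) * (starRingEnd ℂ) (deriv V t) := by
  have hV' : HasFDerivAt V ((ContinuousLinearMap.toSpanSingleton ℂ (deriv V t)).restrictScalars ℝ)
      t := hV.hasDerivAt.hasFDerivAt.restrictScalars ℝ
  have h1 : fderiv ℝ (fun w => F (V w)) t = (fderiv ℝ F (V t)).comp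
      ((ContinuousLinearMap.toSpanSingleton ℂ (deriv V t)).restrictScalars ℝ) :=
    (hF.hasFDerivAt.comp t hV').fderiv
  have h2 : fderiv ℝ (fun w => F (V w)) t 1 = fderiv ℝ F (V t) (deriv V t) := by
    rw [h1]; simp
  have h3 : fderiv ℝ (fun w => F (V w)) t Complex.I =
      fderiv ℝ F (V t) (Complex.I * deriv V t) := by
    rw [h1]; simp
  set L := fderiv ℝ F (V t) with hL
  have e1 := G4_lin L (deriv V t)
  have e2 := G4_lin L (Complex.I * deriv V t)
  have e3 : dz F (V t) = (L 1 - Complex.I * L Complex.I) / 2 := rfl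
  have e4 : dzb F (V t) = (L 1 + Complex.I * L Complex.I) / 2 := rfl
  rw [← e3, ← e4] at e1 e2
  rw [RingHom.map_mul (starRingEnd ℂ), Complex.conj_I] at e2
  have hI : Complex.I * Complex.I = -1 := Complex.I_mul_I
  constructor
  · have e5 : dz (fun w => F (V w)) t =
      (fderiv ℝ (fun w => F (V w)) t 1 -
        Complex.I * fderiv ℝ (fun w => F (V w)) t Complex.I) / 2 := rfl
    rw [e5, h2, h3, e1, e2]
    linear_combination (-(1:ℂ)/2) * (dz F (V t) * deriv V t -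
      dzb F (V t) * (starRingEnd ℂ) (deriv V t)) * hI
  · have e5 : dzb (fun w => F (V w)) t =
      (fderiv ℝ (fun w => F (V w)) t 1 +
        Complex.I * fderiv ℝ (fun w => F (V w)) t Complex.I) / 2 := rfl
    rw [e5, h2, h3, e1, e2]
    linear_combination ((1:ℂ)/2) * (dz F (V t) * deriv V t -
      dzb F (V t) * (starRingEnd ℂ) (deriv V t)) * hI

theorem G4_mul {F G : ℂ → ℂ} {t : ℂ} (hF : DifferentiableAt ℝ F t)
    (hG : DifferentiableAt ℝ G t) :
    dz (fun w => F w * G w) t = dz F t * G t + F t * dz G t ∧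
      dzb (fun w => F w * G w) t = dzb F t * G t + F t * dzb G t := by
  have h1 : fderiv ℝ (fun w => F w * G w) t = F t • fderiv ℝ G t + G t • fderiv ℝ F t :=
    (hF.hasFDerivAt.mul hG.hasFDerivAt).fderiv
  unfold dz dzb
  rw [h1]
  simp only [_root_.add_apply, _root_.smul_apply, smul_eq_mul]
  constructor <;> ring

theorem G4_hol {F : ℂ → ℂ} {t : ℂ} (hF : DifferentiableAt ℂ F t) :
    dzb F t = 0 ∧ dz (fun w => (starRingEnd ℂ) (F w)) t = 0 := by
  have hV' : HasFDerivAt F ((ContinuousLinearMap.toSpanSingleton ℂ (deriv F t)).restrictScalars ℝ)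
      t := hF.hasDerivAt.hasFDerivAt.restrictScalars ℝ
  have h1 : fderiv ℝ F t = (ContinuousLinearMap.toSpanSingleton ℂ (deriv F t)).restrictScalars ℝ :=
    hV'.fderiv
  have hc : HasFDerivAt (fun w => (starRingEnd ℂ) (F w))
      ((Complex.conjCLE : ℂ →L[ℝ] ℂ).comp
        ((ContinuousLinearMap.toSpanSingleton ℂ (deriv F t)).restrictScalars ℝ)) t :=
    (Complex.conjCLE.hasFDerivAt (x := F t)).comp t hV'
  have hI : Complex.I * Complex.I = -1 := Complex.I_mul_I
  constructor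
  · unfold dzb
    rw [h1]
    simp only [ContinuousLinearMap.coe_restrictScalars',
      ContinuousLinearMap.toSpanSingleton_apply, smul_eq_mul]
    linear_combination (1 / 2 : ℂ) * deriv F t * hI
  · unfold dz
    rw [hc.fderiv]
    simp only [ContinuousLinearMap.coe_comp, Function.comp_apply,
      ContinuousLinearMap.coe_restrictScalars',
      ContinuousLinearMap.toSpanSingleton_apply, smul_eq_mul, ContinuousLinearEquiv.coe_coe,
      Complex.conjCLE_apply, map_mul, Complex.conj_I, map_one]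
    linear_combination (1 / 2 : ℂ) * (starRingEnd ℂ) (deriv F t) * hI

theorem G4_norm {Y W : ℂ} (hY : Y ≠ 0) (h : Y ^ 4 = W) :
    ‖W‖ ^ (-(1 / 2) : ℝ) = (‖Y‖ ^ 2)⁻¹ := by
  have h1 : ‖W‖ = (‖Y‖ ^ 2) ^ 2 := by
    rw [← h, norm_pow]
    ring
  have hp : 0 ≤ ‖Y‖ ^ 2 := by positivity
  rw [h1, Real.rpow_neg (by positivity), ← Real.sqrt_eq_rpow, Real.sqrt_sq hp]

-- TARGET
theorem G4 : T_G4 := by
  intro M j s U X B q D hD V Y θ hV hY hθ hY4 hVd t ht hYt hS
  have hVt : DifferentiableAt ℂ V t := hV.differentiableAt (hD.mem_nhds ht)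
  have hVa : AnalyticAt ℂ V t := hV.analyticAt (hD.mem_nhds ht)
  have hdVa : AnalyticAt ℂ (deriv V) t := hVa.deriv
  have hdVt : DifferentiableAt ℂ (deriv V) t := hdVa.differentiableAt
  have cV : ContDiffAt ℝ 1 V t := (hVa.contDiffAt (n := 1)).restrict_scalars ℝ
  have cdV : ContDiffAt ℝ 1 (deriv V) t := (hdVa.contDiffAt (n := 1)).restrict_scalars ℝ
  have ccV : ContDiffAt ℝ 1 (fun w => (starRingEnd ℂ) (deriv V w)) t :=
    Complex.conjCLE.contDiff.contDiffAt.comp t cdV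
  have one : (1 : WithTop ℕ∞) ≠ 0 := one_ne_zero
  have cU : ContDiffAt ℝ 1 (fun w => (U w : ℂ)) (V t) :=
    Complex.ofRealCLM.contDiff.contDiffAt.comp (V t) hS.dU
  have hBV : ContDiffAt ℝ 1 (fun w => B (V w)) t := ContDiffAt.comp t hS.dB cV
  have hqV : ContDiffAt ℝ 1 (fun w => q (V w)) t := ContDiffAt.comp t hS.dq cV
  have hn : ‖V t ^ (16 * M) + 1‖ ^ (-(1 / 2) : ℝ) = (‖Y t‖ ^ 2)⁻¹ :=
    G4_norm hYt (hY4 t ht)
  have hYn : ‖Y t‖ ^ 2 ≠ 0 := by
    have : ‖Y t‖ ≠ 0 := norm_ne_zero_iff.mpr hYt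
    positivity
  have hYc : ((‖Y t‖ ^ 2 : ℝ) : ℂ) = (starRingEnd ℂ) (Y t) * Y t := by
    rw [Complex.conj_mul']
    push_cast
    rfl
  refine ⟨ContDiffAt.comp t hS.dU cV, ContDiffAt.comp t hS.dX cV, hBV.mul ccV, hqV.mul cdV,
    ?_, ?_, ?_, ?_⟩
  · have h := (G4_comp (F := fun w => (U w : ℂ)) (cU.differentiableAt one) hVt).1
    rw [hS.eU] at h
    exact h
  · have h := (G4_comp (F := X) (hS.dX.differentiableAt one) hVt).2
    rw [hS.eX] at h
    rw [h]
    ring
  · have h := (G4_mul (F := fun w => B (V w)) (G := fun w => (starRingEnd ℂ) (deriv V w))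
      (hBV.differentiableAt one) (ccV.differentiableAt one)).1
    rw [(G4_hol hdVt).2, (G4_comp (F := B) (hS.dB.differentiableAt one) hVt).1, hS.eB, hn] at h
    rw [h, hVd t ht]
    simp only [map_mul, Complex.conj_ofReal, mul_zero, add_zero]
    push_cast
    have h2 : ((‖Y t‖ : ℂ) ^ 2)⁻¹ * ((starRingEnd ℂ) (Y t) * Y t) = 1 := by
      rw [← hYc]
      push_cast
      apply inv_mul_cancel₀
      exact_mod_cast hYn
    linear_combination ((s : ℂ) ^ 2 * Complex.exp (-2 * U (V t)) * ((starRingEnd ℂ) (AA M j (V t)) *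
      (PP M j (V t) + 2 * AA M j (V t) * X (V t))) * θ t * (starRingEnd ℂ) (θ t)) * h2
  · have h := (G4_mul (F := fun w => q (V w)) (G := deriv V)
      (hqV.differentiableAt one) (cdV.differentiableAt one)).2
    rw [(G4_hol hdVt).1, (G4_comp (F := q) (hS.dq.differentiableAt one) hVt).2, hS.eq, hn] at h
    rw [h]
    simp only [mul_zero, add_zero]
    have h3 : (starRingEnd ℂ) (deriv V t) * deriv V t = ((‖deriv V t‖ ^ 2 : ℝ) : ℂ) := by
      rw [Complex.conj_mul']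
      push_cast
      rfl
    rw [mul_assoc, h3, ← Complex.ofReal_neg, ← Complex.ofReal_neg, ← Complex.ofReal_mul]
    congr 1
    have n1 : ‖B (V t) * (starRingEnd ℂ) (deriv V t)‖ = ‖B (V t)‖ * ‖deriv V t‖ := by
      rw [norm_mul, RCLike.norm_conj]
    have n2 : ‖(s : ℂ) * (θ t * AA M j (V t))‖ ^ 2 = s ^ 2 * ‖θ t‖ ^ 2 * ‖AA M j (V t)‖ ^ 2 := by
      rw [norm_mul, norm_mul, Complex.norm_real, mul_pow, mul_pow, Real.norm_eq_abs, sq_abs]
      ring
    have n3 : ‖(s : ℂ) * (θ t * PP M j (V t)) + 2 * ((s : ℂ) * (θ t * AA M j (V t))) * X (V t)‖ ^ 2 =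
        s ^ 2 * ‖θ t‖ ^ 2 * ‖PP M j (V t) + 2 * AA M j (V t) * X (V t)‖ ^ 2 := by
      have : (s : ℂ) * (θ t * PP M j (V t)) + 2 * ((s : ℂ) * (θ t * AA M j (V t))) * X (V t) =
        (s : ℂ) * (θ t * (PP M j (V t) + 2 * AA M j (V t) * X (V t))) := by ring
      rw [this, norm_mul, norm_mul, Complex.norm_real, mul_pow, mul_pow, Real.norm_eq_abs, sq_abs]
      ring
    have n4 : ‖deriv V t‖ = ‖θ t‖ * ‖Y t‖ := by rw [hVd t ht, norm_mul]
    rw [n1, n2, n3, n4]
    have h5 : (‖Y t‖ ^ 2)⁻¹ * ‖Y t‖ ^ 2 = 1 := inv_mul_cancel₀ hYn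
    linear_combination (-(s ^ 2 * ‖θ t‖ ^ 2 * (‖AA M j (V t)‖ ^ 2 * Real.exp (-U (V t)) +
      ‖PP M j (V t) + 2 * AA M j (V t) * X (V t)‖ ^ 2 * Real.exp (-2 * U (V t))))) * h5

end Pool.Agent.Helper614.HE.P_G4
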