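import Pool.Agent.Helper614.HE.SpecC
set_option autoImplicit false

open scoped Manifold ContDiff Matrix ComplexOrder
open Matrix Topology MeasureTheory Set Filter

namespace Pool.Agent.Helper614.HE.P_G5

open Pool.Agent.Helper614.HE



/-
PROOF OF THE TARGET IN WORDS
Let t0 in D. Choose a small ball D' around t0 with closure in D and Y not 0 on D' minus {t0}. Put A = s theta AA(V), Psi = s theta PP(V) (holomorphic on D), U~ = U o V, X~ = X o V, B~ = B(V) conj(V'), q~ = q(V) V': continuous on D, hence bounded on D'. For t in D' minus {t0} V^{16M}+1 = Y^4 is not 0, so VSol.sys and T_G4 give SysAt A Psi U~ X~ B~ q~ t.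
T_RL on D' gives: U~, X~ are smooth on D', and B', q' with SysAt A Psi U~ X~ B' q' at all points of D', including t0. So T_HIT applies at t0 (U~, X~ are C^2 at t0, D' is a neighbourhood), with Nm (A t0) (Psi t0) = s . (theta . Nm (AA) (PP)) (Nm is linear in its arguments). Smoothness on D: locally near every t0 (ContDiffOn from ContDiffAt / contDiffOn local).
-/
theorem G5_AA (M : ℕ) (j : Bool) : Differentiable ℂ (AA M j) := by
  cases j
  · have h : AA M false = fun v : ℂ => v ^ (M - 1) * (v ^ (2 * M) - 1) := by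
      funext v
      simp [AA]
    rw [h]
    fun_prop
  · have h : AA M true = fun v : ℂ => -(v ^ (M - 2) * (1 - v ^ (2 * M))) := by
      funext v
      simp [AA]
    rw [h]
    fun_prop

theorem G5_PP (M : ℕ) (j : Bool) : Differentiable ℂ (PP M j) := by
  cases j
  · have h : PP M false = fun v : ℂ => v ^ (2 * M - 1) := by
      funext v
      simp [PP]
    rw [h]
    fun_prop
  · have h : PP M true = fun v : ℂ => -(v ^ (2 * M - 3)) := by
      funext v
      simp [PP]
    rw [h]
    fun_prop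

theorem G5_Nm (s : ℝ) (c a p : ℂ) :
    Nm (s * (c * a)) (s * (c * p)) = (s : ℂ) • (c • Nm a p) := by
  ext i j
  fin_cases i <;> fin_cases j <;> simp [Nm]

-- TARGET
theorem G5 (hRL : T_RL) (hHIT : T_HIT) (hG4 : T_G4) : T_G5 := by
  intro M hM j s U X B q hsol D hD V Y θ hV hY hθ hY4 hdV hne
  have key : ∀ t0 ∈ D, ∃ D' : Set ℂ, IsOpen D' ∧ t0 ∈ D' ∧
      ContDiffOn ℝ ∞ (fun t => U (V t)) D' ∧ ContDiffOn ℝ ∞ (fun t => X (V t)) D' ∧
      ∃ B' q' : ℂ → ℂ, ∀ t ∈ D', SysAt (fun t => s * (θ t * AA M j (V t)))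
        (fun t => s * (θ t * PP M j (V t))) (fun t => U (V t)) (fun t => X (V t)) B' q' t := by
    intro t0 ht0
    have h1 := hne t0 ht0
    rw [eventually_nhdsWithin_iff, Metric.eventually_nhds_iff] at h1
    obtain ⟨r1, hr1, h1⟩ := h1
    obtain ⟨r2, hr2, h2⟩ := Metric.nhds_basis_closedBall.mem_iff.1 (hD.mem_nhds ht0)
    obtain ⟨r, hr, hrr1, hrr2⟩ : ∃ r : ℝ, 0 < r ∧ r ≤ r1 ∧ r ≤ r2 :=
      ⟨min r1 r2, lt_min hr1 hr2, min_le_left _ _, min_le_right _ _⟩
    have hcb : Metric.closedBall t0 r ⊆ D := (Metric.closedBall_subset_closedBall hrr2).trans h2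
    have hb : Metric.ball t0 r ⊆ D := Metric.ball_subset_closedBall.trans hcb
    have hY0 : ∀ t ∈ Metric.ball t0 r \ {t0}, Y t ≠ 0 := by
      rintro t ⟨ht, ht'⟩
      exact h1 (lt_of_lt_of_le (Metric.mem_ball.1 ht) hrr1) ht'
    have hdV' : DifferentiableOn ℂ (deriv V) D := hV.deriv hD
    have cB : ContinuousOn (fun t => B (V t) * (starRingEnd ℂ) (deriv V t)) D :=
      (hsol.cB.comp_continuousOn hV.continuousOn).mul
        (Complex.continuous_conj.comp_continuousOn hdV'.continuousOn)
    have cq : ContinuousOn (fun t => q (V t) * deriv V t) D :=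
      (hsol.cq.comp_continuousOn hV.continuousOn).mul hdV'.continuousOn
    obtain ⟨C1, hC1⟩ := (isCompact_closedBall t0 r).exists_bound_of_continuousOn (cB.mono hcb)
    obtain ⟨C2, hC2⟩ := (isCompact_closedBall t0 r).exists_bound_of_continuousOn (cq.mono hcb)
    have hA : DifferentiableOn ℂ (fun t => (s : ℂ) * (θ t * AA M j (V t))) (Metric.ball t0 r) :=
      ((differentiableOn_const _).mul (hθ.mul ((G5_AA M j).comp_differentiableOn hV))).mono hb
    have hP : DifferentiableOn ℂ (fun t => (s : ℂ) * (θ t * PP M j (V t))) (Metric.ball t0 r) :=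
      ((differentiableOn_const _).mul (hθ.mul ((G5_PP M j).comp_differentiableOn hV))).mono hb
    obtain ⟨r1', r2', B', q', -, -, -, r3'⟩ := hRL (Metric.ball t0 r) Metric.isOpen_ball t0
      (Metric.mem_ball_self hr) _ _ hA hP (fun t => U (V t)) (fun t => X (V t))
      (fun t => B (V t) * (starRingEnd ℂ) (deriv V t)) (fun t => q (V t) * deriv V t)
      ((hsol.cU.comp_continuousOn hV.continuousOn).mono hb)
      ((hsol.cX.comp_continuousOn hV.continuousOn).mono hb)
      (cB.mono (sdiff_subset.trans hb)) (cq.mono (sdiff_subset.trans hb))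
      ⟨max C1 C2, fun t ht => ⟨(hC1 t (Metric.ball_subset_closedBall ht.1)).trans
        (le_max_left _ _), (hC2 t (Metric.ball_subset_closedBall ht.1)).trans
        (le_max_right _ _)⟩⟩
      (fun t ht => hG4 M j s U X B q D hD V Y θ hV hY hθ hY4 hdV t (hb ht.1) (hY0 t ht)
        (hsol.sys (V t) (by
          rw [← hY4 t (hb ht.1)]
          exact pow_ne_zero _ (hY0 t ht))))
    exact ⟨Metric.ball t0 r, Metric.isOpen_ball, Metric.mem_ball_self hr, r1', r2', B', q', r3'⟩
  refine ⟨fun t ht => ?_, fun t ht => ?_, fun t ht => ?_⟩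
  · obtain ⟨D', hD', htD', h1, -⟩ := key t ht
    exact (h1.contDiffAt (hD'.mem_nhds htD')).contDiffWithinAt
  · obtain ⟨D', hD', htD', -, h1, -⟩ := key t ht
    exact (h1.contDiffAt (hD'.mem_nhds htD')).contDiffWithinAt
  · obtain ⟨D', hD', htD', h1, h2, B', q', h3⟩ := key t ht
    have h4 := hHIT _ _ _ _ B' q' t (Filter.mem_of_superset (hD'.mem_nhds htD') h3)
      ((h1.contDiffAt (hD'.mem_nhds htD')).of_le (by norm_cast))
      ((h2.contDiffAt (hD'.mem_nhds htD')).of_le (by norm_cast))
    rw [G5_Nm] at h4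
    exact h4

end Pool.Agent.Helper614.HE.P_G5
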