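import Pool.Agent.Helper614.HE.SpecC
set_option autoImplicit false

open scoped Manifold ContDiff Matrix ComplexOrder
open Matrix Topology MeasureTheory Set Filter

namespace Pool.Agent.Helper614.HE.P_GEN

open Pool.Agent.Helper614.HE



/-
PROOF OF THE TARGET IN WORDS
m = 4M >= 4. Forms alpha = dv/y, beta = v dv/y: put, with x = e.symm z, alpha e z = th m false e x if x in UU false, and -(VV m true x)^{m-2} th m true e x otherwise; beta e z = VV m false x * th m false e x if x in UU false, and -(VV m true x)^{m-3} th m true e x otherwise. On UU false cap UU true both formulas agree (TH (5) with j = true: th false =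
-(V_true^{m-2}) th true, and V_false = V_true^{-1}, m >= 3). Holomorphic on e.target: near a point of UU false by TH (1) and holoV (UU false is open), near a point not in UU false, it is in UU true (cover) and near it the second formula holds. change: TH (2) for both copies (x in e.source cap e'.source; e.symm (e x) = x).
Independence: suppose a alpha + b beta = 0 for all charts. Take points x0, x1 in UU false with VV = 0, YY = 1 and with VV = 1, YY^4 = 2 (SBasic.surj), charts e around them (chart at the point: mem_chart_source, chart_mem_atlas): th is not 0 there (TH (3)), so a + b*0 = 0, and a + b = 0.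
-/
-- TARGET
theorem GEN (hTH : T_TH) : T_GEN := by
  intro M hM inst hB hG
  have hm3 : 3 ≤ 4 * M := by omega
  generalize hmm : 4 * M = m at *
  have hTH' := hTH m hm3 inst hB hG
  classical
  set α : OpenPartialHomeomorph (SX m) ℂ → ℂ → ℂ := fun e z =>
    if e.symm z ∈ UU m false then th m false e (e.symm z)
    else -(VV m true (e.symm z) ^ (m - 2)) * th m true e (e.symm z) with hα
  set β : OpenPartialHomeomorph (SX m) ℂ → ℂ → ℂ := fun e z =>
    if e.symm z ∈ UU m false then VV m false (e.symm z) * th m false e (e.symm z)
    else -(VV m true (e.symm z) ^ (m - 3)) * th m true e (e.symm z) with hβ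
  -- the second formulas hold on the second copy
  have hα2 : ∀ e ∈ @atlas ℂ _ (SX m) _ inst, ∀ z ∈ e.target, e.symm z ∈ UU m true →
      α e z = -(VV m true (e.symm z) ^ (m - 2)) * th m true e (e.symm z) := by
    intro e he z hz hzt
    by_cases hf : e.symm z ∈ UU m false
    · have h5 := (hTH' e he true).2.2.2.2.1 (e.symm z) ⟨⟨hzt, hf⟩, e.map_target hz⟩
      simp only [hα, if_pos hf]
      exact h5
    · simp only [hα, if_neg hf]
  have hβ2 : ∀ e ∈ @atlas ℂ _ (SX m) _ inst, ∀ z ∈ e.target, e.symm z ∈ UU m true →
      β e z = -(VV m true (e.symm z) ^ (m - 3)) * th m true e (e.symm z) := by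
    intro e he z hz hzt
    by_cases hf : e.symm z ∈ UU m false
    · have h5 := (hTH' e he true).2.2.2.2.1 (e.symm z) ⟨⟨hzt, hf⟩, e.map_target hz⟩
      have hV : VV m false (e.symm z) = (VV m true (e.symm z))⁻¹ := hB.VV_other true _ hzt hf
      have hne : VV m true (e.symm z) ≠ 0 := (hB.mem_other true _ hzt).1 hf
      simp only [hβ, if_pos hf]
      have h5' : th m false e (e.symm z) =
          -(VV m true (e.symm z) ^ (m - 2)) * th m true e (e.symm z) := h5
      rw [h5', hV]
      have hpow : VV m true (e.symm z) ^ (m - 2) =
          VV m true (e.symm z) ^ (m - 3) * VV m true (e.symm z) := by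
        rw [← pow_succ]
        congr 1
        omega
      rw [hpow]
      field_simp
    · simp only [hβ, if_neg hf]
  -- openness
  have hopen : ∀ (e : OpenPartialHomeomorph (SX m) ℂ) (j : Bool),
      IsOpen (e.target ∩ e.symm ⁻¹' UU m j) := fun e j =>
    e.symm.isOpen_inter_preimage (hB.isOpen_UU j)
  refine ⟨α, β, ⟨?_, ?_⟩, ⟨?_, ?_⟩, ?_⟩
  · intro e he z hz
    by_cases hf : e.symm z ∈ UU m false
    · have hd := (hTH' e he false).1
      have hmem : z ∈ e.target ∩ e.symm ⁻¹' UU m false := ⟨hz, hf⟩
      have hat := (hd z hmem).differentiableAt ((hopen e false).mem_nhds hmem)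
      refine (DifferentiableAt.congr_of_eventuallyEq hat ?_).differentiableWithinAt
      filter_upwards [(hopen e false).mem_nhds hmem] with w hw
      have hw2 : e.symm w ∈ UU m false := hw.2
      simp only [hα]
      rw [if_pos hw2]
    · have ht : e.symm z ∈ UU m true := (hB.cover (e.symm z)).resolve_left hf
      have hd := (hTH' e he true).1
      have hmem : z ∈ e.target ∩ e.symm ⁻¹' UU m true := ⟨hz, ht⟩
      have hat := (hd z hmem).differentiableAt ((hopen e true).mem_nhds hmem)
      have hvt := ((hG.holoV e he true) z hmem).differentiableAt ((hopen e true).mem_nhds hmem)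
      have hprod := ((hvt.pow (m - 2)).neg).mul hat
      refine (DifferentiableAt.congr_of_eventuallyEq hprod ?_).differentiableWithinAt
      filter_upwards [(hopen e true).mem_nhds hmem] with w hw
      exact hα2 e he w hw.1 hw.2
  · intro e he e' he' x hx
    have hs : e.symm (e x) = x := e.left_inv hx.1
    have hs' : e'.symm (e' x) = x := e'.left_inv hx.2
    simp only [hα, hs, hs']
    by_cases hf : x ∈ UU m false
    · simp only [if_pos hf]
      rw [(hTH' e he false).2.1 e' he' x ⟨hf, hx⟩]
      ring
    · have ht : x ∈ UU m true := (hB.cover x).resolve_left hf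
      simp only [if_neg hf]
      rw [(hTH' e he true).2.1 e' he' x ⟨ht, hx⟩]
      ring
  · intro e he z hz
    by_cases hf : e.symm z ∈ UU m false
    · have hd := (hTH' e he false).1
      have hmem : z ∈ e.target ∩ e.symm ⁻¹' UU m false := ⟨hz, hf⟩
      have hat := (hd z hmem).differentiableAt ((hopen e false).mem_nhds hmem)
      have hvt := ((hG.holoV e he false) z hmem).differentiableAt ((hopen e false).mem_nhds hmem)
      refine (DifferentiableAt.congr_of_eventuallyEq (hvt.mul hat) ?_).differentiableWithinAt
      filter_upwards [(hopen e false).mem_nhds hmem] with w hw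
      have hw2 : e.symm w ∈ UU m false := hw.2
      simp only [hβ]
      rw [if_pos hw2]
      rfl
    · have ht : e.symm z ∈ UU m true := (hB.cover (e.symm z)).resolve_left hf
      have hd := (hTH' e he true).1
      have hmem : z ∈ e.target ∩ e.symm ⁻¹' UU m true := ⟨hz, ht⟩
      have hat := (hd z hmem).differentiableAt ((hopen e true).mem_nhds hmem)
      have hvt := ((hG.holoV e he true) z hmem).differentiableAt ((hopen e true).mem_nhds hmem)
      have hprod := ((hvt.pow (m - 3)).neg).mul hat
      refine (DifferentiableAt.congr_of_eventuallyEq hprod ?_).differentiableWithinAt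
      filter_upwards [(hopen e true).mem_nhds hmem] with w hw
      exact hβ2 e he w hw.1 hw.2
  · intro e he e' he' x hx
    have hs : e.symm (e x) = x := e.left_inv hx.1
    have hs' : e'.symm (e' x) = x := e'.left_inv hx.2
    simp only [hβ, hs, hs']
    by_cases hf : x ∈ UU m false
    · simp only [if_pos hf]
      rw [(hTH' e he false).2.1 e' he' x ⟨hf, hx⟩]
      ring
    · have ht : x ∈ UU m true := (hB.cover x).resolve_left hf
      simp only [if_neg hf]
      rw [(hTH' e he true).2.1 e' he' x ⟨ht, hx⟩]
      ring
  · intro a b hab
    -- values at points of the first copy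
    have key : ∀ x ∈ UU m false, YY m false x ≠ 0 → a + b * VV m false x = 0 := by
      intro x hx hy
      have he : @chartAt ℂ _ (SX m) _ inst x ∈ @atlas ℂ _ (SX m) _ inst :=
        chart_mem_atlas ℂ x
      have hxs : x ∈ (@chartAt ℂ _ (SX m) _ inst x).source :=
        mem_chart_source ℂ x
      set e := @chartAt ℂ _ (SX m) _ inst x with he_def
      have h1 := hab e he (e x) (e.map_source hxs)
      have hs : e.symm (e x) = x := e.left_inv hxs
      simp only [hα, hβ, hs, if_pos hx] at h1
      have hne : th m false e x ≠ 0 := (hTH' e he false).2.2.1 x ⟨hx, hxs⟩ hy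
      have h2 : (a + b * VV m false x) * th m false e x = 0 := by
        rw [← h1]; ring
      exact (mul_eq_zero.1 h2).resolve_right hne
    obtain ⟨x0, hx0, hv0, hy0⟩ := hB.surj false 0 1 (by
      have : 4 * m ≠ 0 := by omega
      simp [this])
    obtain ⟨b1, hb1⟩ := IsAlgClosed.exists_pow_nat_eq (2 : ℂ) (n := 4) (by norm_num)
    obtain ⟨x1, hx1, hv1, hy1⟩ := hB.surj false 1 b1 (by
      rw [hb1]; norm_num)
    have k0 := key x0 hx0 (by rw [hy0]; exact one_ne_zero)
    have k1 := key x1 hx1 (by
      rw [hy1]
      intro h0
      rw [h0] at hb1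
      norm_num at hb1)
    rw [hv0] at k0
    rw [hv1] at k1
    have ha : a = 0 := by simpa using k0
    refine ⟨ha, ?_⟩
    rw [ha] at k1
    simpa using k1

end Pool.Agent.Helper614.HE.P_GEN
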