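import Pool.Agent.Helper614.HE.SpecC
set_option autoImplicit false

open scoped Manifold ContDiff Matrix ComplexOrder
open Matrix Topology MeasureTheory Set Filter

namespace Pool.Agent.Helper614.HE.P_GEO

open Pool.Agent.Helper614.HE



/-
PROOF OF THE TARGET IN WORDS
M >= 5, s = M sigma. Copy false: U_f v = u(v^M), X_f v = x(v^M) with VSol M false s (T_G1); copy true: U_t, X_t from T_G3 with VSol M true s, U_t t = u(t^{-M}) - log|t|^2 and X_t t = x(t^{-M})/t for t not 0. hm j x := Hm (U_j (VV (4M) j x)) (X_j (VV (4M) j x)). HB has iota = Bool, U = UU (4M), g = gg M, phi = ph M, all by rfl.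
posDef, det: HMP (1). glue: i = j: gg = 1. i = false, j = true: x in both, t = VV true x not 0 and VV false x = t^{-1} (VV_other, mem_other; !false = true), so hm true x = Hm (u((t^M)^{-1}) - log|t|^2) (x(..)/t) = g^* Hm(u, x) g with g = diag(t^{-1},1,t) = gg false true x = diagonal(VV false x, 1, (VV false x)^{-1}) by HMP (2) ((t^{-1})^M = (t^M)^{-1}). i = true, j = false: gg true false = inverse of gg false true; multiply the
previous identity by the inverses on both sides.
smooth and hitchin: for a chart e in the atlas and the copy j let D = e.target cap e.symm^{-1}(UU j) (open: e.isOpen_inter_preimage_symm), V z = VV (4M) j (e.symm z), Y z = YY.., theta z = th (4M) j e (e.symm z). SGood.holoV, holoY, TH (1) (m = 4M >= 3): holomorphic on D; eqn: Y^4 = V^{4(4M)} + 1 and 4*(4M) = 16*M; TH (4): deriv V z = theta z * Y z for z in D (with x = e.symm z, e x = z); TH (6):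
isolated zeros of Y. So T_G5 applies: U_j(V), X_j(V) are smooth on D, so the entries of Hm(U_j V, X_j V) are smooth on D (polynomials in exp U, exp(-U), X, conj X), and Hitchin's equation: the function z -> hm j (e.symm z) is z -> Hm(U_j (V z))(X_j (V z)), ph M j e x = theta . Nm(AA M j (V))(PP M j (V)), at the point e x with e.symm (e x) = x. The cast: (M sigma : R) as complex number.
Energy at p with VV false p = 1: i = false: AA M false 1 = 0, PP M false 1 = 1, so s phi = Nm 0 (s th), and HMP (3) with psi = s th gives trace = |s th|^2 e^{-2 U_f(1)}, U_f(1) = u(1^M) = u 1. i = true: p is in UU true (mem_other: VV false p = 1 not 0), VV true p = 1, AA M true 1 = 0, PP M true 1 = -1, th true = -(1) th false by TH (5), U_t(1) = u(1) - log 1 = u 1. energyDensity = 8 * (trace).re / rho. (The case that the frame is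
i = true but p not in UU true does not occur.)
-/
theorem GEO_smul_Nm (c ψ : ℂ) : c • Nm 0 ψ = Nm 0 (c * ψ) := by
  ext a b
  fin_cases a <;> fin_cases b <;> simp [Nm]

theorem GEO_diag_mul (t : ℂ) (ht : t ≠ 0) :
    Matrix.diagonal ![t⁻¹, 1, t] * Matrix.diagonal ![t, 1, t⁻¹] = (1 : Matrix (Fin 3) (Fin 3) ℂ) := by
  rw [Matrix.diagonal_mul_diagonal, ← Matrix.diagonal_one]
  congr 1
  funext a
  fin_cases a <;> simp [ht]

theorem GEO_Hm_entry {D : Set ℂ} {U : ℂ → ℝ} {X : ℂ → ℂ} (hU : ContDiffOn ℝ ∞ U D)
    (hX : ContDiffOn ℝ ∞ X D) (r c : Fin 3) :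
    ContDiffOn ℝ ∞ (fun z => Hm (U z) (X z) r c) D := by
  have hc : ContDiffOn ℝ ∞ (fun z => (starRingEnd ℂ) (X z)) D :=
    (Complex.conjCLE.contDiff.comp_contDiffOn hX)
  have he : ContDiffOn ℝ ∞ (fun z => ((Real.exp (U z) : ℝ) : ℂ)) D :=
    Complex.ofRealCLM.contDiff.comp_contDiffOn (Real.contDiff_exp.comp_contDiffOn hU)
  have he' : ContDiffOn ℝ ∞ (fun z => ((Real.exp (-U z) : ℝ) : ℂ)) D :=
    Complex.ofRealCLM.contDiff.comp_contDiffOn (Real.contDiff_exp.comp_contDiffOn hU.neg)
  have hn : ∀ a b, ContDiffOn ℝ ∞ (fun z => nn (X z) a b) D := by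
    intro a b
    fin_cases a <;> fin_cases b <;> simp only [nn] <;> 
      simp <;> first | exact contDiffOn_const | exact hX | exact hX.neg | skip
    · exact ((hX.pow 2).div_const 2).neg
  have hd : ∀ a b, ContDiffOn ℝ ∞ (fun z => dd (U z) a b) D := by
    intro a b
    fin_cases a <;> fin_cases b <;> simp only [dd] <;> 
      simp [-Complex.ofReal_exp] <;> first | exact contDiffOn_const | exact he | exact he'
  have hns : ∀ a b, ContDiffOn ℝ ∞ (fun z => (nn (X z))ᴴ a b) D := by
    intro a b
    exact (Complex.conjCLE.contDiff.comp_contDiffOn (hn b a))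
  have hmul : ∀ (P Q : ℂ → Matrix (Fin 3) (Fin 3) ℂ), (∀ a b, ContDiffOn ℝ ∞ (fun z => P z a b) D) →
      (∀ a b, ContDiffOn ℝ ∞ (fun z => Q z a b) D) →
      ∀ a b, ContDiffOn ℝ ∞ (fun z => (P z * Q z) a b) D := by
    intro P Q hP hQ a b
    simp only [Matrix.mul_apply]
    exact ContDiffOn.sum fun k _ => (hP a k).mul (hQ k b)
  exact hmul (fun z => (nn (X z))ᴴ * dd (U z)) (fun z => nn (X z)) (hmul _ _ hns hd) hn r c

-- TARGET
theorem GEO (hTH : T_TH) (hG1 : T_G1) (hG3 : T_G3) (hG5 : T_G5) (hHMP : T_HMP) : T_GEO := by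
  intro M hM inst hB hG h σ u x b q hσ hZ
  obtain ⟨H1, H2, H3⟩ := hHMP
  have hf := hG1 M (by omega) σ u x b q hZ
  obtain ⟨U1, X1, B1, q1, ht, hrel⟩ := hG3 M hM σ u x b q hZ
  obtain ⟨Us, hUf, hUt⟩ : ∃ Us : Bool → ℂ → ℝ, Us false = (fun v => u (v ^ M)) ∧ Us true = U1 :=
    ⟨fun j => if j = false then fun v => u (v ^ M) else U1, by simp, by simp⟩
  obtain ⟨Xs, hXf, hXt⟩ : ∃ Xs : Bool → ℂ → ℂ, Xs false = (fun v => x (v ^ M)) ∧ Xs true = X1 :=
    ⟨fun j => if j = false then fun v => x (v ^ M) else X1, by simp, by simp⟩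
  have hV : ∀ j, ∃ B q, VSol M j (M * σ) (Us j) (Xs j) B q := by
    intro j
    cases j
    · rw [hUf, hXf]; exact ⟨_, _, hf⟩
    · rw [hUt, hXt]; exact ⟨_, _, ht⟩
  have key : ∀ p ∈ UU (4 * M) false, p ∈ UU (4 * M) true →
      Hm (Us true (VV (4 * M) true p)) (Xs true (VV (4 * M) true p)) =
        (gg M false true p)ᴴ * Hm (Us false (VV (4 * M) false p)) (Xs false (VV (4 * M) false p)) *
          gg M false true p := by
    intro p hpf hpt
    have ht0 : VV (4 * M) true p ≠ 0 := (hB.mem_other true p hpt).1 hpf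
    have hVf : VV (4 * M) false p = (VV (4 * M) true p)⁻¹ := hB.VV_other true p hpt hpf
    have hg : gg M false true p =
        Matrix.diagonal ![(VV (4 * M) true p)⁻¹, 1, VV (4 * M) true p] := by
      simp only [gg]
      rw [if_neg (by simp), hVf, inv_inv]
    rw [hg, hVf, hUf, hXf, hUt, hXt, (hrel _ ht0).1, (hrel _ ht0).2, H2 _ _ _ ht0]
    beta_reduce
    rw [inv_pow]
  have hg5 : ∀ (j : Bool), ∀ e ∈ atlas ℂ (SX (4 * M)),
      ContDiffOn ℝ ∞ (fun t => Us j (VV (4 * M) j (e.symm t))) (e.target ∩ e.symm ⁻¹' UU (4 * M) j) ∧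
      ContDiffOn ℝ ∞ (fun t => Xs j (VV (4 * M) j (e.symm t))) (e.target ∩ e.symm ⁻¹' UU (4 * M) j) ∧
      ∀ t ∈ e.target ∩ e.symm ⁻¹' UU (4 * M) j,
        mdzb (fun z => (Hm (Us j (VV (4 * M) j (e.symm z))) (Xs j (VV (4 * M) j (e.symm z))))⁻¹ *
          mdz (fun w => Hm (Us j (VV (4 * M) j (e.symm w))) (Xs j (VV (4 * M) j (e.symm w)))) z) t
        = (((M * σ : ℝ) : ℂ) • (ph M j e (e.symm t))) *
          adj (Hm (Us j (VV (4 * M) j (e.symm t))) (Xs j (VV (4 * M) j (e.symm t))))
            (((M * σ : ℝ) : ℂ) • (ph M j e (e.symm t))) -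
          adj (Hm (Us j (VV (4 * M) j (e.symm t))) (Xs j (VV (4 * M) j (e.symm t))))
            (((M * σ : ℝ) : ℂ) • (ph M j e (e.symm t))) *
          (((M * σ : ℝ) : ℂ) • (ph M j e (e.symm t))) := by
    intro j e he
    obtain ⟨B, q', hj⟩ := hV j
    obtain ⟨T1, T2, T3, T4, T5, T6⟩ := hTH (4 * M) (by omega) inst hB hG e he j
    have hopen : IsOpen (e.target ∩ e.symm ⁻¹' UU (4 * M) j) :=
      e.isOpen_inter_preimage_symm (hB.isOpen_UU j)
    have := hG5 M (by omega) j (M * σ) (Us j) (Xs j) B q' hj _ hopen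
      (fun z => VV (4 * M) j (e.symm z)) (fun z => YY (4 * M) j (e.symm z))
      (fun z => th (4 * M) j e (e.symm z)) (hG.holoV e he j) (hG.holoY e he j) T1
      (by
        intro t ht
        have := hB.eqn j (e.symm t) ht.2
        rw [this]
        congr 2
        ring)
      (by
        intro t ht
        have h4 := T4 (e.symm t) ⟨ht.2, e.map_target ht.1⟩
        rw [e.right_inv ht.1] at h4
        exact h4)
      T6
    exact this
  refine ⟨fun j p => Hm (Us j (VV (4 * M) j p)) (Xs j (VV (4 * M) j p)), ?_, ?_⟩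
  · refine ⟨?_, ?_, ?_, ?_, ?_⟩
    · intro i p _
      exact (H1 _ _).1
    · intro i p _
      exact (H1 _ _).2
    · intro i j p hp
      change (p ∈ UU (4 * M) i ∩ UU (4 * M) j) at hp
      change Hm (Us j (VV (4 * M) j p)) (Xs j (VV (4 * M) j p)) = (gg M i j p)ᴴ *
        Hm (Us i (VV (4 * M) i p)) (Xs i (VV (4 * M) i p)) * gg M i j p
      by_cases hij : i = j
      · subst hij
        have : gg M i i p = 1 := by
          unfold gg
          exact if_pos rfl
        rw [this, Matrix.conjTranspose_one, one_mul, mul_one]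
      · cases i
        · cases j
          · exact absurd rfl hij
          · exact key p hp.1 hp.2
        · cases j
          · have hk := key p hp.2 hp.1
            have ht0 : VV (4 * M) true p ≠ 0 := (hB.mem_other true p hp.1).1 hp.2
            have hVf : VV (4 * M) false p = (VV (4 * M) true p)⁻¹ := hB.VV_other true p hp.1 hp.2
            have hg : gg M false true p =
                Matrix.diagonal ![(VV (4 * M) true p)⁻¹, 1, VV (4 * M) true p] := by
              simp only [gg]
              rw [if_neg (by simp), hVf, inv_inv]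
            have hg' : gg M true false p =
                Matrix.diagonal ![VV (4 * M) true p, 1, (VV (4 * M) true p)⁻¹] := by
              simp only [gg]
              rw [if_neg (by simp)]
            have hgg : gg M false true p * gg M true false p = 1 := by
              rw [hg, hg', GEO_diag_mul _ ht0]
            have hgg' : (gg M true false p)ᴴ * (gg M false true p)ᴴ = 1 := by
              rw [← Matrix.conjTranspose_mul, hgg, Matrix.conjTranspose_one]
            rw [hk]
            have hfin : ∀ (a b c d H : Matrix (Fin 3) (Fin 3) ℂ), a * b = 1 → c * d = 1 →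
                H = a * (b * H * c) * d := by
              intro a b c d H h1 h2
              calc H = (a * b) * H * (c * d) := by rw [h1, h2, one_mul, mul_one]
                _ = _ := by simp only [Matrix.mul_assoc]
            exact hfin _ _ _ _ _ hgg' hgg
          · exact absurd rfl hij
    · intro i e he r c
      have := hg5 i e he
      exact GEO_Hm_entry this.1 this.2.1 r c
    · intro i e he p hp
      have hp' : e p ∈ e.target ∩ e.symm ⁻¹' UU (4 * M) i := by
        refine ⟨e.map_source hp.2, ?_⟩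
        rw [Set.mem_preimage, e.left_inv hp.2]
        exact hp.1
      have := (hg5 i e he).2.2 (e p) hp'
      rw [e.left_inv hp.2] at this
      exact this
  · intro p hp hp1 ρ i e he hpe
    have hen : ∀ (U : ℝ) (X : ℂ) (c : ℂ), (((M * σ : ℝ) : ℂ) • (c • Nm 0 1) *
        adj (Hm U X) (((M * σ : ℝ) : ℂ) • (c • Nm 0 1))).trace.re =
        (M * σ) ^ 2 * ‖c‖ ^ 2 * Real.exp (-2 * U) := by
      intro U X c
      rw [GEO_smul_Nm, GEO_smul_Nm, H3, Complex.ofReal_re, norm_mul, norm_mul, norm_one, mul_one,
        Complex.norm_real, mul_pow, Real.norm_eq_abs, sq_abs]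
    simp only [energyDensity]
    cases i
    · have h1 : (HB M h).φ false e p = th (4 * M) false e p • Nm 0 1 := by
        change ph M false e p = _
        simp only [ph, hp1]
        congr 2
        · simp [AA]
        · simp [PP]
      rw [h1, hUf, hXf, hp1, hen]
      beta_reduce
      rw [one_pow]
    · have hpt : p ∈ UU (4 * M) true := by
        have := (hB.mem_other false p hp).2 (by rw [hp1]; exact one_ne_zero)
        exact this
      have hVt : VV (4 * M) true p = 1 := by
        have := hB.VV_other false p hp hpt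
        rw [hp1, inv_one] at this
        exact this
      obtain ⟨T1, T2, T3, T4, T5, T6⟩ := hTH (4 * M) (by omega) inst hB hG e he false
      have h5 : th (4 * M) true e p = -(1 : ℂ) * th (4 * M) false e p := by
        have := T5 p ⟨⟨hp, hpt⟩, hpe⟩
        rw [hp1, one_pow] at this
        exact this
      have h1 : (HB M h).φ true e p = th (4 * M) false e p • Nm 0 1 := by
        change ph M true e p = _
        simp only [ph, hVt]
        have e1 : AA M true 1 = 0 := by simp [AA]
        have e2 : PP M true 1 = -1 := by simp [PP]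
        rw [e1, e2, h5, GEO_smul_Nm, GEO_smul_Nm]
        congr 1
        ring
      have hU : Us true (VV (4 * M) true p) = u 1 := by
        rw [hUt, hVt, (hrel 1 one_ne_zero).1]
        simp
      rw [h1, hU, hen]

end Pool.Agent.Helper614.HE.P_GEO
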