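import Pool.Agent.Helper614.HE.SpecC
set_option autoImplicit false

open scoped Manifold ContDiff Matrix ComplexOrder
open Matrix Topology MeasureTheory Set Filter

namespace Pool.Agent.Helper614.HE.P_HB

open Pool.Agent.Helper614.HE




theorem HB_ne {i j : Bool} (h : i ≠ j) : j = !i := by
  cases i <;> cases j <;> simp_all

theorem HB_AAdiff (M : ℕ) (j : Bool) : Differentiable ℂ (AA M j) := by
  unfold AA
  cases j
  · simp only [if_true]; fun_prop
  · simp only [Bool.true_eq_false, if_false]; fun_prop

theorem HB_PPdiff (M : ℕ) (j : Bool) : Differentiable ℂ (PP M j) := by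
  unfold PP
  cases j
  · simp only [if_true]; fun_prop
  · simp only [Bool.true_eq_false, if_false]; fun_prop

theorem HB_A (M : ℕ) (hM : 2 ≤ M) (i : Bool) (v t : ℂ) (hv : v ≠ 0) :
    t * AA M i v * v = -(v ^ (4 * M - 2)) * t * AA M (!i) v⁻¹ := by
  obtain ⟨k, rfl⟩ : ∃ k, M = k + 2 := ⟨M - 2, by omega⟩
  unfold AA
  have e1 : k + 2 - 1 = k + 1 := by omega
  have e2 : k + 2 - 2 = k := by omega
  have e3 : 4 * (k + 2) - 2 = 4 * k + 6 := by omega
  cases i
  · simp only [if_true, Bool.not_false, Bool.true_eq_false, if_false, e1, e2, e3]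
    try simp only [mul_add]
    simp only [pow_add, pow_mul', inv_pow]
    have hp : v ^ k ≠ 0 := pow_ne_zero _ hv
    generalize v ^ k = p at *
    field_simp
    try ring
  · simp only [if_true, Bool.not_true, Bool.true_eq_false, if_false, e1, e2, e3]
    try simp only [mul_add]
    simp only [pow_add, pow_mul', inv_pow]
    have hp : v ^ k ≠ 0 := pow_ne_zero _ hv
    generalize v ^ k = p at *
    field_simp
    try ring

theorem HB_P (M : ℕ) (hM : 2 ≤ M) (i : Bool) (v t : ℂ) (hv : v ≠ 0) :
    t * PP M i v * v * v = -(v ^ (4 * M - 2)) * t * PP M (!i) v⁻¹ := by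
  obtain ⟨k, rfl⟩ : ∃ k, M = k + 2 := ⟨M - 2, by omega⟩
  unfold PP
  have e1 : 2 * (k + 2) - 1 = 2 * k + 3 := by omega
  have e2 : 2 * (k + 2) - 3 = 2 * k + 1 := by omega
  have e3 : 4 * (k + 2) - 2 = 4 * k + 6 := by omega
  cases i
  · simp only [if_true, Bool.not_false, Bool.true_eq_false, if_false, e1, e2, e3]
    try simp only [mul_add]
    simp only [pow_add, pow_mul', inv_pow]
    have hp : v ^ k ≠ 0 := pow_ne_zero _ hv
    generalize v ^ k = p at *
    field_simp
    try ring
  · simp only [if_true, Bool.not_true, Bool.true_eq_false, if_false, e1, e2, e3]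
    try simp only [mul_add]
    simp only [pow_add, pow_mul', inv_pow]
    have hp : v ^ k ≠ 0 := pow_ne_zero _ hv
    generalize v ^ k = p at *
    field_simp
    try ring

/-
PROOF OF THE TARGET IN WORDS
m = 4M >= 8. isOpen_U, cover from SBasic. gg M i j = 1 if i = j, otherwise diag(V_i, 1, V_i^{-1}), V_i = VV (4M) i. holo_g: holoV and V_i not 0 on UU i cap UU j for i not j (mem_other). det: V_i V_i^{-1} = 1. cocycle: V_j = V_i^{-1} (VV_other) for i not j. trace of Nm is 0. holo_phi: th holomorphic (TH (1)), AA, PP polynomials in V. change_phi: TH (2)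
(V_i does not depend on the chart). glue_phi for i not j: Nm(A,P) diag(a,1,1/a) = [[0,0,0],[A a,0,0],[P a, A, 0]], diag(a,1,1/a) Nm(A',P') = [[0,0,0],[A',0,0],[P'/a, A'/a, 0]]. So we need, with a = V_i, th_i A_i a = th_j A_j, th_i P_i a^2 = th_j P_j, th_i A_i a = th_j A_j: where th_j = -V_i^{m-2} th_i (TH (5), m = 4M), V_j = 1/V_i:
i = false: a = v, A_i = v^{M-1}(v^{2M}-1), A_j = -(t^{M-2}(1 - t^{2M})), t = 1/v: th_j A_j = th_i v^{4M-2} v^{2-M} (1 - v^{-2M}) = th_i v^{3M - 2M} (v^{2M} - 1) = th_i v^M (v^{2M}-1) = th_i A_i v. P_i = v^{2M-1}, P_j = -t^{2M-3}: th_j P_j = th_i v^{4M-2} v^{3-2M} = th_i v^{2M+1} = th_i P_i v^2.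
i = true: a = t = V_true, th_false = -t^{4M-2} th_true, th_false A_false = -t^{4M-2} th_true t^{1-M}(t^{-2M} - 1) = -th_true t^{M-1}(1 - t^{2M}) = th_true A_true t; th_false P_false = -t^{4M-2} t^{1-2M} th_true = -t^{2M-1} th_true = th_true P_true t^2.
-/
-- TARGET
theorem HB (hTH : T_TH) : T_HB := by
  intro M hM inst hB hG
  have hth := hTH (4 * M) (by omega) inst hB hG
  have hVne : ∀ i j, i ≠ j → ∀ x ∈ UU (4 * M) i ∩ UU (4 * M) j, VV (4 * M) i x ≠ 0 := by
    intro i j hij x hx
    rw [HB_ne hij] at hx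
    exact (hB.mem_other i x hx.1).mp hx.2
  have hVinv : ∀ i j, i ≠ j → ∀ x ∈ UU (4 * M) i ∩ UU (4 * M) j,
      VV (4 * M) j x = (VV (4 * M) i x)⁻¹ := by
    intro i j hij x hx
    rw [HB_ne hij] at hx ⊢
    exact hB.VV_other i x hx.1 hx.2
  refine
    { isOpen_U := hB.isOpen_UU
      cover := fun x => (hB.cover x).elim (fun h => ⟨false, h⟩) (fun h => ⟨true, h⟩)
      holo_g := ?_
      det_g := ?_
      cocycle := ?_
      trace_φ := ?_
      holo_φ := ?_
      change_φ := ?_
      glue_φ := ?_ }
  · intro i j e he r c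
    by_cases hij : i = j
    · simp only [gg, if_pos hij]
      exact differentiableOn_const _
    · simp only [gg, if_neg hij]
      have hV : DifferentiableOn ℂ (fun z => VV (4 * M) i (e.symm z))
          (e.target ∩ e.symm ⁻¹' (UU (4 * M) i ∩ UU (4 * M) j)) :=
        (hG.holoV e he i).mono (fun z hz => ⟨hz.1, hz.2.1⟩)
      have hV' : DifferentiableOn ℂ (fun z => (VV (4 * M) i (e.symm z))⁻¹)
          (e.target ∩ e.symm ⁻¹' (UU (4 * M) i ∩ UU (4 * M) j)) :=
        hV.inv (fun z hz => hVne i j hij _ hz.2)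
      fin_cases r <;> fin_cases c <;>
        first
          | simpa [Matrix.diagonal] using hV
          | simpa [Matrix.diagonal] using hV'
  · intro i j x hx
    by_cases hij : i = j
    · simp [gg, hij]
    · simp only [gg, if_neg hij, Matrix.det_diagonal, Fin.prod_univ_three]
      have := hVne i j hij x hx
      simp [this]
  · intro i j k x hx
    by_cases hij : i = j
    · subst hij
      simp [gg]
    · by_cases hjk : j = k
      · subst hjk
        simp [gg]
      · have hik : i = k := by
          rw [HB_ne hjk, HB_ne hij]; simp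
        subst hik
        have h1 := hVne i j hij x hx.1
        have h2 := hVinv i j hij x hx.1
        simp only [gg, if_neg hij, if_neg hjk, if_true]
        rw [Matrix.diagonal_mul_diagonal, ← Matrix.diagonal_one]
        congr 1
        funext r
        fin_cases r <;> simp [h2, h1]
  · intro i e he x hx
    rw [ph, Matrix.trace_smul]
    simp [Nm, Matrix.trace, Fin.sum_univ_three]
  · intro i e he r c
    have h1 := (hth e he i).1
    have hV := hG.holoV e he i
    have h2 : DifferentiableOn ℂ (fun z => AA M i (VV (4 * M) i (e.symm z)))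
        (e.target ∩ e.symm ⁻¹' UU (4 * M) i) :=
      (HB_AAdiff M i).comp_differentiableOn hV
    have h3 : DifferentiableOn ℂ (fun z => PP M i (VV (4 * M) i (e.symm z)))
        (e.target ∩ e.symm ⁻¹' UU (4 * M) i) :=
      (HB_PPdiff M i).comp_differentiableOn hV
    have h4 : DifferentiableOn ℂ (fun z => th (4 * M) i e (e.symm z) *
        AA M i (VV (4 * M) i (e.symm z))) (e.target ∩ e.symm ⁻¹' UU (4 * M) i) := h1.mul h2
    have h5 : DifferentiableOn ℂ (fun z => th (4 * M) i e (e.symm z) *
        PP M i (VV (4 * M) i (e.symm z))) (e.target ∩ e.symm ⁻¹' UU (4 * M) i) := h1.mul h3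
    fin_cases r <;> fin_cases c <;>
      first
        | simpa [ph, Nm] using h4
        | simpa [ph, Nm] using h5
  · intro i e he e' he' x hx
    have h1 := (hth e he i).2.1 e' he' x hx
    rw [ph, ph, smul_smul, h1]
  · intro i j e he x hx
    by_cases hij : i = j
    · subst hij
      simp [gg]
    · have h1 := hVne i j hij x hx.1
      have h2 := hVinv i j hij x hx.1
      have hj := HB_ne hij
      have h3 := (hth e he i).2.2.2.2.1 x (by rw [← hj]; exact hx)
      have hA := HB_A M hM i (VV (4 * M) i x) (th (4 * M) i e x) h1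
      have hP := HB_P M hM i (VV (4 * M) i x) (th (4 * M) i e x) h1
      rw [← h3, ← hj, ← h2] at hA hP
      simp only [gg, if_neg hij, ph]
      set a := VV (4 * M) i x
      set ti := th (4 * M) i e x
      set tj := th (4 * M) j e x
      set Ai := AA M i a
      set Pi := PP M i a
      set Aj := AA M j (VV (4 * M) j x)
      set Pj := PP M j (VV (4 * M) j x)
      have hA' : ti * Ai = a⁻¹ * (tj * Aj) := by
        rw [← hA]; field_simp
      have hP' : ti * Pi * a = a⁻¹ * (tj * Pj) := by
        rw [← hP]; field_simp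
      ext r c
      fin_cases r <;> fin_cases c <;>
        simp [Nm, Matrix.mul_diagonal, Matrix.diagonal_mul, hA', hP']
      field_simp

end Pool.Agent.Helper614.HE.P_HB
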