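import Pool.Agent.Helper614.HE.SpecC
set_option autoImplicit false

open scoped Manifold ContDiff Matrix ComplexOrder
open Matrix Topology MeasureTheory Set Filter

namespace Pool.Agent.Helper614.HE.P_HIT

open Pool.Agent.Helper614.HE



/-
PROOF OF THE TARGET IN WORDS
Near t all functions are C^1 and satisfy the system. By T_HIT1 (valid for all z near t) the function inside mdzb equals, near t, z -> ThM (X z) (beta z) (q' z) (xi z) with beta z = e^{-U z} conj (dzb X z) = conj (B z) (as dzb X = e^U B, U real), q' z = dz U z = q z, xi z = dz X z. mdzb at t only depends on the germ (Filter.EventuallyEq.fderiv_eq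
for each entry). Apply T_HIT2 at t: X, conj B, q are differentiable at t, and dz X is differentiable at t as X is C^2 at t. dzb (conj B) = conj (dz B), and dzb (dz X) (t) = dz (dzb X)(t) (symmetry of the second derivative of the C^2 function X: ContDiffAt.isSymmSndFDerivAt) = dz (e^U B)(t) = e^U (q B + dz B).
So, with xb = e^U B: mdzb(...) = nn(-X) [[dzb q + e^U |B|^2, -conj(dz B), 0],[e^U B q, 0, conj(dz B)],[0, -e^U B q, -(dzb q + e^U |B|^2)]] nn(X) + e^U (qB + dz B) nu. Since nn(-X) nu nn(X) = nu, the last term is nn(-X)(e^U(qB + dz B) nu) nn(X), so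
mdzb(...) = nn(-X) Z nn(X), Z = [[h, -conj(Bt), 0],[-e^U Bt, 0, conj(Bt)],[0, e^U Bt, -h]], h = dzb q + e^U|B|^2 = -(|A|^2 e^{-U} + |P|^2 e^{-2U}), P = Psi + 2AX, Bt = dz B = conj(A) P e^{-2U}.
Right side: Phi = Nm A Psi. n Phi n^{-1} = Nm A P (n = nn X; direct computation). adj H Phi = H^{-1} Phi^* H = n^{-1} d^{-1} (n Phi n^{-1})^* d n = n^{-1} D n with D = d^{-1} (Nm A P)^* d = [[0, conj(A) e^{-U}, conj(P) e^{-2U}],[0,0,conj(A)e^{-U}],[0,0,0]]. So Phi adj - adj Phi = n^{-1} [Nm A P, D] n, and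
[Nm A P, D] = [[-(|A|^2 e^{-U}+|P|^2e^{-2U}), -A conj(P) e^{-2U}, 0],[-conj(A) P e^{-U}, 0, A conj(P) e^{-2U}],[0, conj(A) P e^{-U}, |A|^2e^{-U}+|P|^2 e^{-2U}]] which is Z. (H^{-1}: det of nn, dd are 1; or use Matrix.inv_eq_right_inv with the explicit inverse nn(-X) dd(-U) (nn(-X))^*.)
-/
theorem HIT_dz_germ {f g : ℂ → ℂ} {t : ℂ} (h : f =ᶠ[𝓝 t] g) : dz f t = dz g t := by
  rw [dz, dz, h.fderiv_eq]

theorem HIT_dzb_germ {f g : ℂ → ℂ} {t : ℂ} (h : f =ᶠ[𝓝 t] g) : dzb f t = dzb g t := by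
  rw [dzb, dzb, h.fderiv_eq]

theorem HIT_mdzb_germ {n : ℕ} {f g : ℂ → Matrix (Fin n) (Fin n) ℂ} {t : ℂ}
    (h : f =ᶠ[𝓝 t] g) : mdzb f t = mdzb g t := by
  ext i j
  simp only [mdzb, Matrix.of_apply]
  exact HIT_dzb_germ (h.mono fun w hw => congrFun (congrFun hw i) j)

theorem HIT_conj {B : ℂ → ℂ} {t : ℂ} (hB : DifferentiableAt ℝ B t) :
    dzb (fun w => (starRingEnd ℂ) (B w)) t = (starRingEnd ℂ) (dz B t) := by
  have h : HasFDerivAt (fun w => (starRingEnd ℂ) (B w))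
      ((Complex.conjCLE : ℂ →L[ℝ] ℂ).comp (fderiv ℝ B t)) t :=
    (Complex.conjCLE : ℂ →L[ℝ] ℂ).hasFDerivAt.comp t hB.hasFDerivAt
  rw [dzb, dz, h.fderiv]
  have h2 : (starRingEnd ℂ) 2 = 2 := Complex.conj_ofNat 2
  simp [map_div₀, h2]

theorem HIT_conj_diff {B : ℂ → ℂ} {t : ℂ} (hB : DifferentiableAt ℝ B t) :
    DifferentiableAt ℝ (fun w => (starRingEnd ℂ) (B w)) t :=
  ((Complex.conjCLE : ℂ →L[ℝ] ℂ).hasFDerivAt.comp t hB.hasFDerivAt).differentiableAt

theorem HIT_mul {f g : ℂ → ℂ} {t : ℂ} (hf : DifferentiableAt ℝ f t)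
    (hg : DifferentiableAt ℝ g t) :
    dz (fun w => f w * g w) t = dz f t * g t + f t * dz g t := by
  have h := hf.hasFDerivAt.mul hg.hasFDerivAt
  rw [dz, dz, dz]
  rw [show (fun w => f w * g w) = f * g from rfl, h.fderiv]
  simp only [ContinuousLinearMap.add_apply, ContinuousLinearMap.smul_apply, smul_eq_mul]
  ring

theorem HIT_exp {U : ℂ → ℝ} {t : ℂ} (hU : DifferentiableAt ℝ U t) :
    DifferentiableAt ℝ (fun w => (Real.exp (U w) : ℂ)) t ∧
    dz (fun w => (Real.exp (U w) : ℂ)) t = (Real.exp (U t) : ℂ) * dz (fun w => (U w : ℂ)) t := by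
  have h1 : HasFDerivAt (fun w => (U w : ℂ)) (Complex.ofRealCLM.comp (fderiv ℝ U t)) t :=
    Complex.ofRealCLM.hasFDerivAt.comp t hU.hasFDerivAt
  have h2 : HasFDerivAt (fun w => (Real.exp (U w) : ℂ))
      (Complex.ofRealCLM.comp (Real.exp (U t) • fderiv ℝ U t)) t :=
    Complex.ofRealCLM.hasFDerivAt.comp t hU.hasFDerivAt.exp
  refine ⟨h2.differentiableAt, ?_⟩
  rw [dz, dz, h1.fderiv, h2.fderiv]
  simp only [ContinuousLinearMap.comp_apply, ContinuousLinearMap.smul_apply,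
    Complex.ofRealCLM_apply, smul_eq_mul, Complex.ofReal_mul]
  ring

theorem HIT_second {X : ℂ → ℂ} {t : ℂ} (hX : ContDiffAt ℝ 2 X t) :
    DifferentiableAt ℝ (fun w => dz X w) t ∧
    dzb (fun w => dz X w) t = dz (fun w => dzb X w) t := by
  have h1 : DifferentiableAt ℝ (fderiv ℝ X) t :=
    (hX.fderiv_right (m := 1) (by norm_num)).differentiableAt (by norm_num)
  have hv : ∀ v : ℂ, HasFDerivAt (fun w => fderiv ℝ X w v)
      ((ContinuousLinearMap.apply ℝ ℂ v).comp (fderiv ℝ (fderiv ℝ X) t)) t := fun v =>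
    (ContinuousLinearMap.apply ℝ ℂ v).hasFDerivAt.comp t h1.hasFDerivAt
  have hs : IsSymmSndFDerivAt ℝ X t := hX.isSymmSndFDerivAt (by simp)
  have hs' := hs 1 Complex.I
  have h2 : HasFDerivAt (fun w => dz X w) ((2⁻¹ : ℂ) • (
      ((ContinuousLinearMap.apply ℝ ℂ (1 : ℂ)).comp (fderiv ℝ (fderiv ℝ X) t)) -
      Complex.I • ((ContinuousLinearMap.apply ℝ ℂ Complex.I).comp (fderiv ℝ (fderiv ℝ X) t)))) t := by
    have h3 := (((hv 1).sub ((hv Complex.I).const_smul Complex.I)).const_smul (2⁻¹ : ℂ))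
    refine h3.congr_of_eventuallyEq (Eventually.of_forall fun w => ?_)
    simp only [dz, smul_eq_mul, Pi.smul_apply, Pi.sub_apply]
    ring
  have h4 : HasFDerivAt (fun w => dzb X w) ((2⁻¹ : ℂ) • (
      ((ContinuousLinearMap.apply ℝ ℂ (1 : ℂ)).comp (fderiv ℝ (fderiv ℝ X) t)) +
      Complex.I • ((ContinuousLinearMap.apply ℝ ℂ Complex.I).comp (fderiv ℝ (fderiv ℝ X) t)))) t := by
    have h3 := (((hv 1).add ((hv Complex.I).const_smul Complex.I)).const_smul (2⁻¹ : ℂ))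
    refine h3.congr_of_eventuallyEq (Eventually.of_forall fun w => ?_)
    simp only [dzb, smul_eq_mul, Pi.smul_apply, Pi.add_apply]
    ring
  refine ⟨h2.differentiableAt, ?_⟩
  rw [dzb, dz, h2.fderiv, h4.fderiv]
  simp only [ContinuousLinearMap.smul_apply, ContinuousLinearMap.sub_apply,
    ContinuousLinearMap.add_apply, ContinuousLinearMap.comp_apply, ContinuousLinearMap.apply_apply,
    smul_eq_mul]
  rw [hs']
  ring

theorem HIT_nn_mul (x : ℂ) : nn x * nn (-x) = 1 := by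
  ext i j
  fin_cases i <;> fin_cases j <;> simp [nn, Matrix.mul_apply, Fin.sum_univ_three]
  ring

theorem HIT_nn_mul' (x : ℂ) : nn (-x) * nn x = 1 := by
  have := HIT_nn_mul (-x)
  rwa [neg_neg] at this

theorem HIT_dd_mul (u : ℝ) : dd u * dd (-u) = 1 := by
  have h : (Real.exp u : ℂ) * (Real.exp (-u) : ℂ) = 1 := by
    rw [← Complex.ofReal_mul, ← Real.exp_add]
    simp
  ext i j
  fin_cases i <;> fin_cases j <;> simp [dd, Matrix.mul_apply, Fin.sum_univ_three] 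
  · simpa using h
  · simpa [mul_comm] using h

theorem HIT_nu (x : ℂ) : nn (-x) * nu * nn x = nu := by
  ext i j
  fin_cases i <;> fin_cases j <;> simp [nn, nu, Matrix.mul_apply, Fin.sum_univ_three]

theorem HIT_Nm (x A Ψ : ℂ) : nn x * Nm A Ψ * nn (-x) = Nm A (Ψ + 2 * A * x) := by
  ext i j
  fin_cases i <;> fin_cases j <;> simp [nn, Nm, Matrix.mul_apply, Fin.sum_univ_three]
  ring

theorem HIT_inv (u : ℝ) (x : ℂ) : (Hm u x)⁻¹ = nn (-x) * dd (-u) * (nn (-x))ᴴ := by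
  refine Matrix.inv_eq_right_inv ?_
  have h1 : (nn x)ᴴ * (nn (-x))ᴴ = 1 := by
    rw [← Matrix.conjTranspose_mul, HIT_nn_mul', Matrix.conjTranspose_one]
  calc Hm u x * (nn (-x) * dd (-u) * (nn (-x))ᴴ)
      = (nn x)ᴴ * dd u * (nn x * nn (-x)) * dd (-u) * (nn (-x))ᴴ := by
        rw [Hm]
        simp only [Matrix.mul_assoc]
    _ = (nn x)ᴴ * (dd u * dd (-u)) * (nn (-x))ᴴ := by
        rw [HIT_nn_mul, Matrix.mul_one]
        simp only [Matrix.mul_assoc]
    _ = 1 := by rw [HIT_dd_mul, Matrix.mul_one, h1]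

theorem HIT_adj (u : ℝ) (x A Ψ : ℂ) : adj (Hm u x) (Nm A Ψ) =
    nn (-x) * (dd (-u) * (Nm A (Ψ + 2 * A * x))ᴴ * dd u) * nn x := by
  rw [adj, HIT_inv, ← HIT_Nm, Matrix.conjTranspose_mul, Matrix.conjTranspose_mul, Hm]
  simp only [Matrix.mul_assoc]

theorem HIT_comm (u : ℝ) (x A Ψ : ℂ) :
    Nm A Ψ * adj (Hm u x) (Nm A Ψ) - adj (Hm u x) (Nm A Ψ) * Nm A Ψ =
    nn (-x) * (Nm A (Ψ + 2 * A * x) * (dd (-u) * (Nm A (Ψ + 2 * A * x))ᴴ * dd u) -
      (dd (-u) * (Nm A (Ψ + 2 * A * x))ᴴ * dd u) * Nm A (Ψ + 2 * A * x)) * nn x := by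
  rw [HIT_adj]
  generalize hD : dd (-u) * (Nm A (Ψ + 2 * A * x))ᴴ * dd u = D
  have h1 : Nm A Ψ = nn (-x) * Nm A (Ψ + 2 * A * x) * nn x := by
    rw [← HIT_Nm]
    have h2 : nn (-x) * (nn x * Nm A Ψ * nn (-x)) * nn x =
        (nn (-x) * nn x) * Nm A Ψ * (nn (-x) * nn x) := by
      simp only [Matrix.mul_assoc]
    rw [h2, HIT_nn_mul', Matrix.one_mul, Matrix.mul_one]
  conv_lhs => rw [h1]
  generalize Nm A (Ψ + 2 * A * x) = N
  have h3 : nn (-x) * N * nn x * (nn (-x) * D * nn x) = nn (-x) * (N * D) * nn x := by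
    calc nn (-x) * N * nn x * (nn (-x) * D * nn x)
        = nn (-x) * N * (nn x * nn (-x)) * D * nn x := by simp only [Matrix.mul_assoc]
      _ = nn (-x) * (N * D) * nn x := by
        rw [HIT_nn_mul, Matrix.mul_one]
        simp only [Matrix.mul_assoc]
  have h4 : nn (-x) * D * nn x * (nn (-x) * N * nn x) = nn (-x) * (D * N) * nn x := by
    calc nn (-x) * D * nn x * (nn (-x) * N * nn x)
        = nn (-x) * D * (nn x * nn (-x)) * N * nn x := by simp only [Matrix.mul_assoc]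
      _ = nn (-x) * (D * N) * nn x := by
        rw [HIT_nn_mul, Matrix.mul_one]
        simp only [Matrix.mul_assoc]
  rw [h3, h4, Matrix.mul_sub, Matrix.sub_mul]

/-- the commutator in the middle -/
theorem HIT_Z (u : ℝ) (A P : ℂ) :
    Nm A P * (dd (-u) * (Nm A P)ᴴ * dd u) - (dd (-u) * (Nm A P)ᴴ * dd u) * Nm A P =
    !![-((‖A‖ ^ 2 * Real.exp (-u) + ‖P‖ ^ 2 * Real.exp (-2 * u) : ℝ) : ℂ),
        -(A * (starRingEnd ℂ) P * (Real.exp (-2 * u) : ℂ)), 0;
      -((starRingEnd ℂ) A * P * (Real.exp (-u) : ℂ)), 0,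
        A * (starRingEnd ℂ) P * (Real.exp (-2 * u) : ℂ);
      0, (starRingEnd ℂ) A * P * (Real.exp (-u) : ℂ),
        ((‖A‖ ^ 2 * Real.exp (-u) + ‖P‖ ^ 2 * Real.exp (-2 * u) : ℝ) : ℂ)] := by
  have hE : (Real.exp u : ℂ) * (Real.exp (-u) : ℂ) = 1 := by
    rw [← Complex.ofReal_mul, ← Real.exp_add]
    simp
  have h2 : (Real.exp (-2 * u) : ℂ) = (Real.exp (-u) : ℂ) * (Real.exp (-u) : ℂ) := by
    rw [← Complex.ofReal_mul, ← Real.exp_add]
    congr 2
    ring
  have hA : ((‖A‖ ^ 2 : ℝ) : ℂ) = A * (starRingEnd ℂ) A := by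
    rw [Complex.mul_conj']
    push_cast
    rfl
  have hP : ((‖P‖ ^ 2 : ℝ) : ℂ) = P * (starRingEnd ℂ) P := by
    rw [Complex.mul_conj']
    push_cast
    rfl
  rw [Complex.ofReal_add, Complex.ofReal_mul, Complex.ofReal_mul, hA, hP, h2]
  have hdd : dd (-u) = !![(Real.exp (-u) : ℂ), 0, 0; 0, 1, 0; 0, 0, (Real.exp u : ℂ)] := by
    rw [dd, neg_neg]
  have hN : (Nm A P)ᴴ = !![0, (starRingEnd ℂ) A, (starRingEnd ℂ) P; 0, 0, (starRingEnd ℂ) A;
      0, 0, 0] := by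
    ext i j
    fin_cases i <;> fin_cases j <;> simp [Nm, Matrix.conjTranspose_apply]
  rw [hdd, hN, dd, Nm]
  generalize (Real.exp u : ℂ) = E at *
  generalize (Real.exp (-u) : ℂ) = E' at *
  generalize (starRingEnd ℂ) A = A' at *
  generalize (starRingEnd ℂ) P = P' at *
  ext i j
  fin_cases i <;> fin_cases j <;>
    simp
  all_goals ring

-- TARGET
theorem HIT (hHIT1 : T_HIT1) (hHIT2 : T_HIT2) : T_HIT := by
  intro A Ψ U X B q t hsys hU hX
  have ht : SysAt A Ψ U X B q t := hsys.self_of_nhds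
  have hexp : ∀ u : ℝ, (Real.exp (-u) : ℂ) * (Real.exp u : ℂ) = 1 := by
    intro u
    rw [← Complex.ofReal_mul, ← Real.exp_add]
    simp
  -- the connection matrix near `t`
  have hgerm : (fun z => (Hm (U z) (X z))⁻¹ * mdz (fun w => Hm (U w) (X w)) z) =ᶠ[𝓝 t]
      fun z => ThM (X z) ((starRingEnd ℂ) (B z)) (q z) (dz X z) := by
    filter_upwards [hsys] with z hz
    rw [hHIT1 U X z (hz.dU.differentiableAt (by norm_num)) (hz.dX.differentiableAt (by norm_num)),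
      hz.eU, hz.eX]
    congr 1
    rw [map_mul, Complex.conj_ofReal, ← mul_assoc, hexp, one_mul]
  rw [HIT_mdzb_germ hgerm]
  have hBd := ht.dB.differentiableAt (by norm_num)
  have hXd := ht.dX.differentiableAt (by norm_num)
  have hqd := ht.dq.differentiableAt (by norm_num)
  have hUd := ht.dU.differentiableAt (by norm_num)
  obtain ⟨hs1, hs2⟩ := HIT_second hX
  rw [hHIT2 X (fun w => (starRingEnd ℂ) (B w)) q (fun w => dz X w) t hXd (HIT_conj_diff hBd) hqd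
    hs1, HIT_conj hBd, hs2]
  -- the mixed derivative
  obtain ⟨he1, he2⟩ := HIT_exp hUd
  have hmix : dz (fun w => dzb X w) t = (Real.exp (U t) : ℂ) * (q t * B t + dz B t) := by
    have h1 : (fun w => dzb X w) =ᶠ[𝓝 t] fun w => (Real.exp (U w) : ℂ) * B w :=
      hsys.mono fun w hw => hw.eX
    rw [HIT_dz_germ h1, HIT_mul he1 hBd, he2, ht.eU]
    ring
  rw [hmix, HIT_comm, HIT_Z, ← HIT_nu (X t)]
  have hnu : ((Real.exp (U t) : ℂ) * (q t * B t + dz B t)) • (nn (-X t) * nu * nn (X t)) =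
      nn (-X t) * (((Real.exp (U t) : ℂ) * (q t * B t + dz B t)) • nu) * nn (X t) := by
    rw [Matrix.mul_smul, Matrix.smul_mul]
  rw [hnu, ← Matrix.add_mul, ← Matrix.mul_add]
  congr 2
  have hq := ht.eq
  have hBt := ht.eB
  have hXt := ht.eX
  have h2 : (Real.exp (-2 * U t) : ℂ) = (Real.exp (-U t) : ℂ) * (Real.exp (-U t) : ℂ) := by
    rw [← Complex.ofReal_mul, ← Real.exp_add]
    congr 2
    ring
  have hcBt : (starRingEnd ℂ) (dz B t) =
      A t * (starRingEnd ℂ) (Ψ t + 2 * A t * X t) * (Real.exp (-2 * U t) : ℂ) := by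
    rw [hBt, map_mul, map_mul, Complex.conj_conj, Complex.conj_ofReal]
  have hB : ((‖B t‖ ^ 2 : ℝ) : ℂ) = B t * (starRingEnd ℂ) (B t) := by
    rw [Complex.mul_conj']
    push_cast
    rfl
  have hdiag : dzb q t + (Real.exp (U t) : ℂ) * B t * (starRingEnd ℂ) (B t) =
      -((‖A t‖ ^ 2 * Real.exp (-U t) + ‖Ψ t + 2 * A t * X t‖ ^ 2 * Real.exp (-2 * U t) : ℝ) : ℂ) := by
    rw [hq, Complex.ofReal_add, Complex.ofReal_add, Complex.ofReal_mul, hB, Complex.ofReal_add]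
    ring
  have hoff : (Real.exp (U t) : ℂ) * dz B t =
      (starRingEnd ℂ) (A t) * (Ψ t + 2 * A t * X t) * (Real.exp (-U t) : ℂ) := by
    rw [hBt, h2]
    linear_combination ((starRingEnd ℂ) (A t) * (Ψ t + 2 * A t * X t) * (Real.exp (-U t) : ℂ)) *
      hexp (U t)
  rw [hXt, hdiag, hcBt]
  ext i j
  fin_cases i <;> fin_cases j <;> simp only [nu, Matrix.add_apply, Matrix.smul_apply,
    Matrix.of_apply, Matrix.cons_val', Matrix.cons_val_zero, Matrix.cons_val_one,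
    Matrix.cons_val_two, Matrix.empty_val', Matrix.cons_val_fin_one, Matrix.head_cons,
    Matrix.tail_cons, Matrix.head_fin_const, Fin.isValue, smul_eq_mul, Fin.mk_one,
    Fin.zero_eta, Fin.reduceFinMk, Matrix.cons_val]
  · ring
  · ring
  · ring
  · linear_combination -hoff
  · ring
  · ring
  · ring
  · linear_combination hoff
  · ring

end Pool.Agent.Helper614.HE.P_HIT
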