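import Pool.Agent.Helper614.HE.SpecC
set_option autoImplicit false
set_option linter.unusedSimpArgs false
set_option linter.style.longLine false

open scoped Manifold ContDiff Matrix ComplexOrder
open Matrix Topology MeasureTheory Set Filter

namespace Pool.Agent.Helper614.HE.P_HIT1

open Pool.Agent.Helper614.HE



/-
PROOF OF THE TARGET IN WORDS
H = n^* d n with n = nn X = exp(X nu), nu = [[0,0,0],[-1,0,0],[0,1,0]], n^{-1} = nn(-X), d = dd U. Structured proof: mdz is additive and satisfies the product rule for matrix valued functions with differentiable entries; dz (conj X) = conj (dzb X) =: xb', dz of e^U is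
e^U q (q = dz U), dz of e^{-U} is -e^{-U} q. mdz n = (dz X) nu n (direct check of the entries: dz(-X^2/2) = -X dz X), mdz (n^*) = conj(dzb X) n^* nu^* , mdz d = diag(e^U q, 0, -e^{-U} q) = d diag(q,0,-q). So
mdz H = conj(dzb X) n^* nu^* d n + n^* d diag(q,0,-q) n + dz X n^* d nu n, and H^{-1} = n^{-1} d^{-1} n^{-*}, so H^{-1} mdz H = n^{-1} (conj(dzb X) d^{-1} nu^* d + diag(q,0,-q) + dz X nu) n, where d^{-1} nu^* d = e^{-U} nu^* = e^{-U} [[0,-1,0],[0,0,1],[0,0,0]], and
n^{-1} nu n = nu. Alternatively brute force: show mdz H = H * ThM entry by entry (9 entries): write out Hm as an explicit matrix, compute dz of each entry with fderiv lemmas, and compare with the entries of the product (ring, with e^U e^{-U} = 1); H is invertible (det = 1).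
It is convenient first to prove lemmas: dz of sums, products, conj, and of Real.exp (U z) cast to C.
-/
/-- bundled differentiability and value of the Wirtinger derivative -/
structure HIT1_HasDz (f : ℂ → ℂ) (z d : ℂ) : Prop where
  diff : DifferentiableAt ℝ f z
  val : dz f z = d

lemma HIT1_const (c z : ℂ) : HIT1_HasDz (fun _ => c) z 0 := by
  refine ⟨differentiableAt_const c, ?_⟩
  simp [dz]

lemma HIT1_add {f g : ℂ → ℂ} {z a b : ℂ} (hf : HIT1_HasDz f z a) (hg : HIT1_HasDz g z b) :
    HIT1_HasDz (fun w => f w + g w) z (a + b) := by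
  refine ⟨hf.diff.add hg.diff, ?_⟩
  rw [← hf.val, ← hg.val]
  unfold dz
  rw [fderiv_fun_add hf.diff hg.diff]
  simp only [_root_.add_apply]
  ring

lemma HIT1_neg {f : ℂ → ℂ} {z a : ℂ} (hf : HIT1_HasDz f z a) :
    HIT1_HasDz (fun w => - f w) z (-a) := by
  refine ⟨hf.diff.neg, ?_⟩
  rw [← hf.val]
  unfold dz
  rw [fderiv_fun_neg]
  simp only [_root_.neg_apply]
  ring

lemma HIT1_mul {f g : ℂ → ℂ} {z a b : ℂ} (hf : HIT1_HasDz f z a) (hg : HIT1_HasDz g z b) :
    HIT1_HasDz (fun w => f w * g w) z (f z * b + g z * a) := by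
  refine ⟨hf.diff.mul hg.diff, ?_⟩
  rw [← hf.val, ← hg.val]
  unfold dz
  rw [fderiv_fun_mul hf.diff hg.diff]
  simp only [_root_.add_apply, _root_.smul_apply, smul_eq_mul]
  ring

lemma HIT1_conj2 : (starRingEnd ℂ) 2 = 2 := Complex.conj_ofNat 2

lemma HIT1_conj {f : ℂ → ℂ} {z : ℂ} (hf : DifferentiableAt ℝ f z) :
    HIT1_HasDz (fun w => (starRingEnd ℂ) (f w)) z ((starRingEnd ℂ) (dzb f z)) := by
  have h1 : HasFDerivAt (fun w => (starRingEnd ℂ) (f w))
      ((Complex.conjCLE : ℂ →L[ℝ] ℂ).comp (fderiv ℝ f z)) z := by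
    have := (Complex.conjCLE : ℂ →L[ℝ] ℂ).hasFDerivAt.comp z hf.hasFDerivAt
    exact this
  refine ⟨h1.differentiableAt, ?_⟩
  unfold dz dzb
  rw [h1.fderiv]
  simp [HIT1_conj2]
  ring

lemma HIT1_exp {U : ℂ → ℝ} {z : ℂ} (hU : DifferentiableAt ℝ U z) :
    HIT1_HasDz (fun w => (Real.exp (U w) : ℂ)) z
      ((Real.exp (U z) : ℂ) * dz (fun w => (U w : ℂ)) z) := by
  have h0 : HasFDerivAt (fun w => (U w : ℂ)) (Complex.ofRealCLM.comp (fderiv ℝ U z)) z :=
    Complex.ofRealCLM.hasFDerivAt.comp z hU.hasFDerivAt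
  have h1 : HasFDerivAt (fun w => (Real.exp (U w) : ℂ))
      (Complex.ofRealCLM.comp (Real.exp (U z) • fderiv ℝ U z)) z :=
    Complex.ofRealCLM.hasFDerivAt.comp z hU.hasFDerivAt.exp
  refine ⟨h1.differentiableAt, ?_⟩
  unfold dz
  rw [h1.fderiv, h0.fderiv]
  simp
  ring

lemma HIT1_det (U : ℝ) (X : ℂ) : (Hm U X).det = 1 := by
  have e : (Real.exp U : ℂ) * (Real.exp (-U) : ℂ) = 1 := by
    rw [← Complex.ofReal_mul, ← Real.exp_add]; simp
  have h1 : (nn X).det = 1 := by
    unfold nn; simp [Matrix.det_fin_three]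
  have h2 : (dd U).det = 1 := by
    unfold dd; simp [Matrix.det_fin_three]
    simpa using e
  unfold Hm
  rw [Matrix.det_mul, Matrix.det_mul, Matrix.det_conjTranspose, h1, h2]
  simp

-- TARGET
theorem HIT1 : T_HIT1 := by
  intro U X z hU hX
  have hdet : IsUnit (Hm (U z) (X z)).det := by rw [HIT1_det]; exact isUnit_one
  have key : mdz (fun w => Hm (U w) (X w)) z = Hm (U z) (X z) *
      ThM (X z) ((Real.exp (-U z) : ℂ) * (starRingEnd ℂ) (dzb X z))
        (dz (fun w => (U w : ℂ)) z) (dz X z) := by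
    have ha := HIT1_exp hU
    have hb0 := HIT1_exp hU.neg
    have hx : HIT1_HasDz X z (dz X z) := ⟨hX, rfl⟩
    have hy := HIT1_conj hX
    have hq : dz (fun w => ((-U) w : ℂ)) z = - dz (fun w => (U w : ℂ)) z := by
      unfold dz
      have : (fun w => (((-U) w : ℝ) : ℂ)) = fun w => - ((U w : ℝ) : ℂ) := by
        funext w; simp
      rw [this, fderiv_fun_neg]
      simp only [_root_.neg_apply]
      ring
    have hb : HIT1_HasDz (fun w => (Real.exp (-U w) : ℂ)) z
        (-((Real.exp (-U z) : ℂ) * dz (fun w => (U w : ℂ)) z)) := by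
      rw [hq] at hb0
      refine ⟨hb0.diff, ?_⟩
      rw [← neg_mul_eq_mul_neg] at hb0
      exact hb0.val
    have e : (Real.exp (U z) : ℂ) * (Real.exp (-U z) : ℂ) = 1 := by
      rw [← Complex.ofReal_mul, ← Real.exp_add]; simp
    generalize dz (fun w => (U w : ℂ)) z = q at *
    generalize dz X z = ξ at *
    generalize (starRingEnd ℂ) (dzb X z) = η at *
    have hH : ∀ w, Hm (U w) (X w) =
      !![(Real.exp (U w) : ℂ) + (starRingEnd ℂ) (X w) * X w +
          (Real.exp (-U w) : ℂ) * (((starRingEnd ℂ) (X w) * (starRingEnd ℂ) (X w)) *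
            ((X w * X w) * (1/4))),
        - (starRingEnd ℂ) (X w) + - ((Real.exp (-U w) : ℂ) * (((starRingEnd ℂ) (X w) *
            (starRingEnd ℂ) (X w)) * (X w * (1/2)))),
        - ((Real.exp (-U w) : ℂ) * (((starRingEnd ℂ) (X w) *
            (starRingEnd ℂ) (X w)) * (1/2)));
        - X w + - ((Real.exp (-U w) : ℂ) * ((X w * X w) * ((starRingEnd ℂ) (X w) * (1/2)))),
        1 + (Real.exp (-U w) : ℂ) * ((starRingEnd ℂ) (X w) * X w),
        (Real.exp (-U w) : ℂ) * (starRingEnd ℂ) (X w);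
        - ((Real.exp (-U w) : ℂ) * ((X w * X w) * (1/2))),
        (Real.exp (-U w) : ℂ) * X w,
        (Real.exp (-U w) : ℂ)] := by
      intro w
      unfold Hm nn dd
      ext i j
      fin_cases i <;> fin_cases j <;>
        simp [Matrix.mul_apply, Fin.sum_univ_three, Matrix.conjTranspose_apply, HIT1_conj2] <;> ring
    have h00 := HIT1_add (HIT1_add ha (HIT1_mul hy hx)) (HIT1_mul hb (HIT1_mul (HIT1_mul hy hy)
      (HIT1_mul (HIT1_mul hx hx) (HIT1_const (1/4) z))))
    have h01 := HIT1_add (HIT1_neg hy) (HIT1_neg (HIT1_mul hb (HIT1_mul (HIT1_mul hy hy)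
      (HIT1_mul hx (HIT1_const (1/2) z)))))
    have h02 := HIT1_neg (HIT1_mul hb (HIT1_mul (HIT1_mul hy hy) (HIT1_const (1/2) z)))
    have h10 := HIT1_add (HIT1_neg hx) (HIT1_neg (HIT1_mul hb (HIT1_mul (HIT1_mul hx hx)
      (HIT1_mul hy (HIT1_const (1/2) z)))))
    have h11 := HIT1_add (HIT1_const 1 z) (HIT1_mul hb (HIT1_mul hy hx))
    have h12 := HIT1_mul hb hy
    have h20 := HIT1_neg (HIT1_mul hb (HIT1_mul (HIT1_mul hx hx) (HIT1_const (1/2) z)))
    have h21 := HIT1_mul hb hx
    have v00 := h00.val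
    have v01 := h01.val
    have v02 := h02.val
    have v10 := h10.val
    have v11 := h11.val
    have v12 := h12.val
    have v20 := h20.val
    have v21 := h21.val
    have v22 := hb.val
    have hM : mdz (fun w => Hm (U w) (X w)) z = Matrix.of fun i j =>
        dz (fun w => Hm (U w) (X w) i j) z := rfl
    rw [hM]
    simp only [hH]
    generalize (Real.exp (U z) : ℂ) = a at *
    generalize (Real.exp (-U z) : ℂ) = b at *
    generalize (starRingEnd ℂ) (X z) = y at *
    generalize X z = x at *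
    have e' : a * b = 1 := e
    ext i j
    fin_cases i <;> fin_cases j
    · simp only [Fin.zero_eta, Fin.mk_one, Fin.reduceFinMk, Matrix.of_apply, Matrix.cons_val, Matrix.cons_val_zero, Matrix.cons_val_one,
        Matrix.cons_val', Matrix.cons_val_fin_one]
      rw [v00]
      simp [ThM, nn, nu, Matrix.mul_apply, Fin.sum_univ_three]
      linear_combination (-(x * η) : ℂ) * e'
    · simp only [Fin.zero_eta, Fin.mk_one, Fin.reduceFinMk, Matrix.of_apply, Matrix.cons_val, Matrix.cons_val_zero, Matrix.cons_val_one,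
        Matrix.cons_val', Matrix.cons_val_fin_one]
      rw [v01]
      simp [ThM, nn, nu, Matrix.mul_apply, Fin.sum_univ_three]
      linear_combination (η : ℂ) * e'
    · simp only [Fin.zero_eta, Fin.mk_one, Fin.reduceFinMk, Matrix.of_apply, Matrix.cons_val, Matrix.cons_val_zero, Matrix.cons_val_one,
        Matrix.cons_val', Matrix.cons_val_fin_one]
      rw [v02]
      simp [ThM, nn, nu, Matrix.mul_apply, Fin.sum_univ_three]
      linear_combination (0 : ℂ) * e'
    · simp only [Fin.zero_eta, Fin.mk_one, Fin.reduceFinMk, Matrix.of_apply, Matrix.cons_val, Matrix.cons_val_zero, Matrix.cons_val_one,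
        Matrix.cons_val', Matrix.cons_val_fin_one]
      rw [v10]
      simp [ThM, nn, nu, Matrix.mul_apply, Fin.sum_univ_three]
      linear_combination (0 : ℂ) * e'
    · simp only [Fin.zero_eta, Fin.mk_one, Fin.reduceFinMk, Matrix.of_apply, Matrix.cons_val, Matrix.cons_val_zero, Matrix.cons_val_one,
        Matrix.cons_val', Matrix.cons_val_fin_one]
      rw [v11]
      simp [ThM, nn, nu, Matrix.mul_apply, Fin.sum_univ_three]
      linear_combination (0 : ℂ) * e'
    · simp only [Fin.zero_eta, Fin.mk_one, Fin.reduceFinMk, Matrix.of_apply, Matrix.cons_val, Matrix.cons_val_zero, Matrix.cons_val_one,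
        Matrix.cons_val', Matrix.cons_val_fin_one]
      rw [v12]
      simp [ThM, nn, nu, Matrix.mul_apply, Fin.sum_univ_three]
      linear_combination (0 : ℂ) * e'
    · simp only [Fin.zero_eta, Fin.mk_one, Fin.reduceFinMk, Matrix.of_apply, Matrix.cons_val, Matrix.cons_val_zero, Matrix.cons_val_one,
        Matrix.cons_val', Matrix.cons_val_fin_one]
      rw [v20]
      simp [ThM, nn, nu, Matrix.mul_apply, Fin.sum_univ_three]
      linear_combination (0 : ℂ) * e'
    · simp only [Fin.zero_eta, Fin.mk_one, Fin.reduceFinMk, Matrix.of_apply, Matrix.cons_val, Matrix.cons_val_zero, Matrix.cons_val_one,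
        Matrix.cons_val', Matrix.cons_val_fin_one]
      rw [v21]
      simp [ThM, nn, nu, Matrix.mul_apply, Fin.sum_univ_three]
      linear_combination (0 : ℂ) * e'
    · simp only [Fin.zero_eta, Fin.mk_one, Fin.reduceFinMk, Matrix.of_apply, Matrix.cons_val, Matrix.cons_val_zero, Matrix.cons_val_one,
        Matrix.cons_val', Matrix.cons_val_fin_one]
      rw [v22]
      simp [ThM, nn, nu, Matrix.mul_apply, Fin.sum_univ_three]
      linear_combination (0 : ℂ) * e'
  rw [key, ← Matrix.mul_assoc, Matrix.nonsing_inv_mul _ hdet, Matrix.one_mul]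

end Pool.Agent.Helper614.HE.P_HIT1
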