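import Pool.Agent.Helper614.HE.SpecC
set_option autoImplicit false

open scoped Manifold ContDiff Matrix ComplexOrder
open Matrix Topology MeasureTheory Set Filter

namespace Pool.Agent.Helper614.HE.P_HIT2

open Pool.Agent.Helper614.HE



/-
PROOF OF THE TARGET IN WORDS
mdzb is the entrywise dzb; ThM X beta q xi = nn(-X) Y nn(X) + xi nu with Y = [[q,-beta,0],[0,0,beta],[0,0,-q]]. dzb satisfies the product rule for real differentiable functions, so with xb = dzb X: mdzb(nn X) = xb nu nn(X) = xb nn(X) nu, mdzb(nn(-X)) = -xb nn(-X) nu, so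
mdzb(nn(-X) Y nn X) = nn(-X) (-xb nu Y + mdzb Y + xb Y nu) nn(X), and Y nu - nu Y = [[beta,0,0],[q,0,0],[0,-q,-beta]] (direct computation). This is the claim. Alternatively brute force: each of the 9 entries of ThM is a polynomial in X, beta, q, xi; compute dzb of it by the product rule (prove dzb_add, dzb_mul, dzb_const_mul, dzb_pow
first) and compare with the right side by ring.
-/
/-- differentiability together with the value of the Wirtinger derivative -/
def HIT2_H (f : ℂ → ℂ) (c : ℂ) (z : ℂ) : Prop := DifferentiableAt ℝ f z ∧ dzb f z = c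

theorem HIT2_H_self {f : ℂ → ℂ} {z : ℂ} (hf : DifferentiableAt ℝ f z) : HIT2_H f (dzb f z) z := ⟨hf, rfl⟩

theorem HIT2_H_const (a z : ℂ) : HIT2_H (fun _ => a) 0 z := by
  refine ⟨differentiableAt_const _, ?_⟩
  simp [dzb]

theorem HIT2_H_add {f g : ℂ → ℂ} {a b z : ℂ} (hf : HIT2_H f a z) (hg : HIT2_H g b z) :
    HIT2_H (fun w => f w + g w) (a + b) z := by
  obtain ⟨hf, rfl⟩ := hf
  obtain ⟨hg, rfl⟩ := hg
  refine ⟨hf.fun_add hg, ?_⟩
  unfold dzb
  rw [fderiv_fun_add hf hg]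
  simp only [ContinuousLinearMap.add_apply]
  ring

theorem HIT2_H_neg {f : ℂ → ℂ} {a z : ℂ} (hf : HIT2_H f a z) : HIT2_H (fun w => - f w) (-a) z := by
  obtain ⟨hf, rfl⟩ := hf
  refine ⟨hf.fun_neg, ?_⟩
  unfold dzb
  rw [fderiv_fun_neg]
  simp only [ContinuousLinearMap.neg_apply]
  ring

theorem HIT2_H_mul {f g : ℂ → ℂ} {a b z : ℂ} (hf : HIT2_H f a z) (hg : HIT2_H g b z) :
    HIT2_H (fun w => f w * g w) (a * g z + f z * b) z := by
  obtain ⟨hf, rfl⟩ := hf
  obtain ⟨hg, rfl⟩ := hg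
  refine ⟨hf.fun_mul hg, ?_⟩
  unfold dzb
  rw [fderiv_fun_mul hf hg]
  simp only [ContinuousLinearMap.add_apply, ContinuousLinearMap.smul_apply, smul_eq_mul]
  ring

theorem HIT2_ThM (X β q ξ : ℂ) :
    ThM X β q ξ = !![q + β * X, -β, 0; q * X + β * X * X * (1 / 2) + -ξ, 0, β;
      0, -(β * X * X * (1 / 2)) + -(q * X) + ξ, -(β * X + q)] := by
  unfold ThM nn nu
  ext i j
  fin_cases i <;> fin_cases j <;> simp [Matrix.mul_apply, Fin.sum_univ_three] <;> ring

-- TARGET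
theorem HIT2 : T_HIT2 := by
  intro X β q ξ t hX hβ hq hξ
  have HX := HIT2_H_self hX
  have Hβ := HIT2_H_self hβ
  have Hq := HIT2_H_self hq
  have Hξ := HIT2_H_self hξ
  have Hβ2 := HIT2_H_mul (HIT2_H_mul (HIT2_H_mul Hβ HX) HX) (HIT2_H_const (1 / 2) t)
  have HqX := HIT2_H_mul Hq HX
  have e11 := (HIT2_H_add Hq (HIT2_H_mul Hβ HX)).2
  have e12 := (HIT2_H_neg Hβ).2
  have e0 := (HIT2_H_const 0 t).2
  have e21 := (HIT2_H_add (HIT2_H_add HqX Hβ2) (HIT2_H_neg Hξ)).2
  have e32 := (HIT2_H_add (HIT2_H_add (HIT2_H_neg Hβ2) (HIT2_H_neg HqX)) Hξ).2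
  have e33 := (HIT2_H_neg (HIT2_H_add (HIT2_H_mul Hβ HX) Hq)).2
  have hL : mdzb (fun z => ThM (X z) (β z) (q z) (ξ z)) t =
      !![dzb (fun z => q z + β z * X z) t, dzb (fun z => -β z) t, dzb (fun _ => 0) t;
        dzb (fun z => q z * X z + β z * X z * X z * (1 / 2) + -ξ z) t, dzb (fun _ => 0) t, dzb (fun z => β z) t;
        dzb (fun _ => 0) t, dzb (fun z => -(β z * X z * X z * (1 / 2)) + -(q z * X z) + ξ z) t,
        dzb (fun z => -(β z * X z + q z)) t] := by
    unfold mdzb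
    ext i j
    simp only [HIT2_ThM, Matrix.of_apply]
    fin_cases i <;> fin_cases j <;> rfl
  rw [hL, e11, e12, e0, e21, e32, e33]
  unfold nn nu
  ext i j
  fin_cases i <;> fin_cases j <;> simp [Matrix.mul_apply, Fin.sum_univ_three] <;> ring

end Pool.Agent.Helper614.HE.P_HIT2
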