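import Pool.Agent.Helper614.HE.SpecC
set_option autoImplicit false

open scoped Manifold ContDiff Matrix ComplexOrder
open Matrix Topology MeasureTheory Set Filter

namespace Pool.Agent.Helper614.HE.P_HMP

open Pool.Agent.Helper614.HE



/-
PROOF OF THE TARGET IN WORDS
(1) dd U is positive definite (diagonal with positive entries), nn X has determinant 1 so is invertible: Matrix.PosDef.conjTranspose_mul_mul_same or similar; det = conj(det nn) det dd det nn = 1 * e^U e^{-U} * 1. (2) With g = diag(t^{-1},1,t) = diagonal: g^* n^* d n g = (g^{-1} n g)^* (g^* d g) (g^{-1} n g), g^{-1} n g = nn(X/t),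
g^* d g = diag(e^U |t|^{-2}, 1, e^{-U}|t|^2) = dd(U - log |t|^2). Or entry by entry. (3) Phi = Nm 0 psi = psi E_31, trace(Phi H^{-1} Phi^* H) = |psi|^2 (H^{-1})_{11} H_{33}; H_33 = e^{-U} (third column of n is e_3), H^{-1} = nn(-X) dd(-U) nn(-X)^*, its (1,1) entry is e^{-U} (the first row of nn(-X) is e_1).
So = |psi|^2 e^{-2U}. H^{-1} as claimed: Matrix.inv_eq_right_inv.
-/
lemma HMP_dd (U : ℝ) : dd U = Matrix.diagonal ![(Real.exp U : ℂ), 1, (Real.exp (-U) : ℂ)] := by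
  ext i j
  fin_cases i <;> fin_cases j <;> simp [dd, Matrix.diagonal]

lemma HMP_det_nn (X : ℂ) : (nn X).det = 1 := by
  simp [nn, Matrix.det_fin_three]

lemma HMP_det_dd (U : ℝ) : (dd U).det = 1 := by
  rw [HMP_dd, Matrix.det_diagonal, Fin.prod_univ_three]
  simp only [Matrix.cons_val_zero, Matrix.cons_val_one, Matrix.cons_val]
  rw [mul_one, ← Complex.ofReal_mul, ← Real.exp_add]
  simp

lemma HMP_posdef (U : ℝ) (X : ℂ) : (Hm U X).PosDef := by
  unfold Hm
  apply Matrix.PosDef.conjTranspose_mul_mul_same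
  · rw [HMP_dd]
    apply Matrix.PosDef.diagonal
    intro i
    fin_cases i
    · show (0 : ℂ) < (Real.exp U : ℂ)
      exact_mod_cast Real.exp_pos U
    · show (0 : ℂ) < 1
      exact one_pos
    · show (0 : ℂ) < (Real.exp (-U) : ℂ)
      exact_mod_cast Real.exp_pos (-U)
  · apply Matrix.mulVec_injective_of_isUnit
    rw [Matrix.isUnit_iff_isUnit_det, HMP_det_nn]
    exact isUnit_one

lemma HMP_det (U : ℝ) (X : ℂ) : (Hm U X).det = 1 := by
  unfold Hm
  rw [Matrix.det_mul, Matrix.det_mul, Matrix.det_conjTranspose, HMP_det_nn, HMP_det_dd]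
  simp

lemma HMP_scale (U : ℝ) (X t : ℂ) (ht : t ≠ 0) :
    Hm (U - Real.log (‖t‖ ^ 2)) (X / t) =
      (Matrix.diagonal ![t⁻¹, 1, t])ᴴ * Hm U X * Matrix.diagonal ![t⁻¹, 1, t] := by
  have hn : nn X * Matrix.diagonal ![t⁻¹, 1, t] = Matrix.diagonal ![t⁻¹, 1, t] * nn (X / t) := by
    ext i j
    fin_cases i <;> fin_cases j <;>
      simp [nn, Matrix.mul_apply, Fin.sum_univ_three, Matrix.diagonal] <;> field_simp
  have hn' : (Matrix.diagonal ![t⁻¹, 1, t])ᴴ * (nn X)ᴴ =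
      (nn (X / t))ᴴ * (Matrix.diagonal ![t⁻¹, 1, t])ᴴ := by
    rw [← Matrix.conjTranspose_mul, hn, Matrix.conjTranspose_mul]
  have hpos : (0 : ℝ) < ‖t‖ ^ 2 := by positivity
  have hd : (Matrix.diagonal ![t⁻¹, 1, t])ᴴ * dd U * Matrix.diagonal ![t⁻¹, 1, t] =
      dd (U - Real.log (‖t‖ ^ 2)) := by
    have e1 : Real.exp (U - Real.log (‖t‖ ^ 2)) = Real.exp U / ‖t‖ ^ 2 := by
      rw [Real.exp_sub, Real.exp_log hpos]
    have e2 : Real.exp (-(U - Real.log (‖t‖ ^ 2))) = Real.exp (-U) * ‖t‖ ^ 2 := by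
      rw [neg_sub, sub_eq_add_neg, Real.exp_add, Real.exp_log hpos, mul_comm]
    have e3 : (starRingEnd ℂ) t * t = (‖t‖ : ℂ) ^ 2 := by
      rw [mul_comm, Complex.mul_conj']
    have ht' : (starRingEnd ℂ) t ≠ 0 := by simpa using ht
    rw [HMP_dd, HMP_dd, Matrix.diagonal_conjTranspose, Matrix.diagonal_mul_diagonal,
      Matrix.diagonal_mul_diagonal, e1, e2]
    congr 1
    funext i
    fin_cases i
    · simp only [Fin.zero_eta, Pi.star_apply, Matrix.cons_val_zero, Complex.ofReal_div,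
        Complex.ofReal_pow]
      rw [← e3, star_inv₀]
      change ((starRingEnd ℂ) t)⁻¹ * _ * t⁻¹ = _
      field_simp
    · simp
    · simp only [Fin.reduceFinMk, Pi.star_apply, Matrix.cons_val, Complex.ofReal_mul,
        Complex.ofReal_pow]
      rw [← e3]
      change (starRingEnd ℂ) t * _ * t = _
      ring
  unfold Hm
  calc (nn (X / t))ᴴ * dd (U - Real.log (‖t‖ ^ 2)) * nn (X / t)
      = (nn (X / t))ᴴ * ((Matrix.diagonal ![t⁻¹, 1, t])ᴴ * dd U *
          Matrix.diagonal ![t⁻¹, 1, t]) * nn (X / t) := by rw [hd]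
    _ = ((nn (X / t))ᴴ * (Matrix.diagonal ![t⁻¹, 1, t])ᴴ) * dd U *
          (Matrix.diagonal ![t⁻¹, 1, t] * nn (X / t)) := by simp only [Matrix.mul_assoc]
    _ = _ := by rw [← hn', ← hn]; simp only [Matrix.mul_assoc]

lemma HMP_nn_inv (X : ℂ) : nn X * nn (-X) = 1 := by
  ext i j
  fin_cases i <;> fin_cases j <;>
    simp [nn, Matrix.mul_apply, Fin.sum_univ_three] <;> ring

lemma HMP_dd_inv (U : ℝ) : dd U * dd (-U) = 1 := by
  rw [HMP_dd, HMP_dd, Matrix.diagonal_mul_diagonal, ← Matrix.diagonal_one]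
  congr 1
  funext i
  fin_cases i
  · simp only [Fin.zero_eta, Matrix.cons_val_zero, Pi.one_apply]
    rw [← Complex.ofReal_mul, ← Real.exp_add]; simp
  · simp
  · simp only [Fin.reduceFinMk, Matrix.cons_val]
    rw [← Complex.ofReal_mul, ← Real.exp_add]; simp

lemma HMP_inv (U : ℝ) (X : ℂ) : (Hm U X)⁻¹ = nn (-X) * dd (-U) * (nn (-X))ᴴ := by
  apply Matrix.inv_eq_right_inv
  unfold Hm
  have h1 : (nn X)ᴴ * (nn (-X))ᴴ = 1 := by
    rw [← Matrix.conjTranspose_mul]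
    have : nn (-X) * nn X = 1 := by
      have := HMP_nn_inv (-X)
      rwa [neg_neg] at this
    rw [this, Matrix.conjTranspose_one]
  calc (nn X)ᴴ * dd U * nn X * (nn (-X) * dd (-U) * (nn (-X))ᴴ)
      = (nn X)ᴴ * (dd U * ((nn X * nn (-X)) * dd (-U))) * (nn (-X))ᴴ := by
        simp only [Matrix.mul_assoc]
    _ = 1 := by rw [HMP_nn_inv, Matrix.one_mul, HMP_dd_inv, Matrix.mul_one, h1]

lemma HMP_tr (U : ℝ) (X ψ : ℂ) : (Nm 0 ψ * adj (Hm U X) (Nm 0 ψ)).trace =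
    ((‖ψ‖ ^ 2 * Real.exp (-2 * U) : ℝ) : ℂ) := by
  have h33 : Hm U X 2 2 = (Real.exp (-U) : ℂ) := by
    simp [Hm, nn, dd, Matrix.mul_apply, Fin.sum_univ_three]
  have h11 : (Hm U X)⁻¹ 0 0 = (Real.exp (-U) : ℂ) := by
    rw [HMP_inv]
    simp [nn, dd, Matrix.mul_apply, Fin.sum_univ_three]
  have h1 : (Nm 0 ψ * adj (Hm U X) (Nm 0 ψ)).trace =
      ψ * (Hm U X)⁻¹ 0 0 * (starRingEnd ℂ) ψ * Hm U X 2 2 := by
    unfold adj
    rw [Matrix.trace, Fin.sum_univ_three]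
    simp only [Matrix.diag_apply, Matrix.mul_apply, Fin.sum_univ_three,
      Matrix.conjTranspose_apply]
    have n0 : ∀ i j, Nm 0 ψ i j = if i = 2 ∧ j = 0 then ψ else 0 := by
      intro i j
      fin_cases i <;> fin_cases j <;> simp [Nm]
    simp only [n0]
    simp
    ring
  rw [h1, h33, h11]
  have e3 : ψ * (starRingEnd ℂ) ψ = (‖ψ‖ : ℂ) ^ 2 := Complex.mul_conj' ψ
  have e4 : Real.exp (-2 * U) = Real.exp (-U) * Real.exp (-U) := by
    rw [← Real.exp_add]; congr 1; ring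
  rw [e4]
  push_cast
  rw [← e3]
  ring

-- TARGET
theorem HMP : T_HMP := by
  exact ⟨fun U X => ⟨HMP_posdef U X, HMP_det U X⟩, HMP_scale, HMP_tr⟩

end Pool.Agent.Helper614.HE.P_HMP
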