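import Pool.Agent.Helper614.HE.SpecC
set_option autoImplicit false

open scoped Manifold ContDiff Matrix ComplexOrder
open Matrix Topology MeasureTheory Set Filter

namespace Pool.Agent.Helper614.HE.P_KE

open Pool.Agent.Helper614.HE




theorem KE_young {a b : ℝ} (ha : 0 ≤ a) (hb : 0 ≤ b) : a * b ≤ a ^ (3 : ℝ) + b ^ (3 / 2 : ℝ) := by
  have hpq : (3 : ℝ).HolderConjugate (3 / 2 : ℝ) := by
    rw [Real.holderConjugate_iff]; norm_num
  have h := Real.young_inequality_of_nonneg ha hb hpq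
  have h1 : 0 ≤ a ^ (3 : ℝ) := Real.rpow_nonneg ha _
  have h2 : 0 ≤ b ^ (3 / 2 : ℝ) := Real.rpow_nonneg hb _
  have h3 : a ^ (3 : ℝ) / 3 ≤ a ^ (3 : ℝ) := by linarith
  have h4 : b ^ (3 / 2 : ℝ) / (3 / 2) ≤ b ^ (3 / 2 : ℝ) := by
    rw [div_le_iff₀ (by norm_num)]; linarith
  linarith

/-- the kernel which dominates -/
noncomputable def KE_g (v : ℂ) : ℝ :=
  (Metric.closedBall (0 : ℂ) 1).indicator (fun v : ℂ => ‖v‖ ^ (-(15 / 8) : ℝ)) v +
    {w : ℂ | 1 ≤ ‖w‖}.indicator (fun v : ℂ => ‖v‖ ^ (-(9 / 4) : ℝ)) v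

theorem KE_g1 (v : ℂ) : 0 ≤ (Metric.closedBall (0 : ℂ) 1).indicator
    (fun v : ℂ => ‖v‖ ^ (-(15 / 8) : ℝ)) v :=
  indicator_nonneg (fun v _ => Real.rpow_nonneg (norm_nonneg v) _) v

theorem KE_g2 (v : ℂ) : 0 ≤ {w : ℂ | 1 ≤ ‖w‖}.indicator (fun v : ℂ => ‖v‖ ^ (-(9 / 4) : ℝ)) v :=
  indicator_nonneg (fun v _ => Real.rpow_nonneg (norm_nonneg v) _) v

theorem KE_point {o : ℝ} (ho : 0 ≤ o) (v : ℂ) {s : ℝ} (hs : s ∈ Icc (3 / 4 : ℝ) (5 / 4)) :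
    o * ‖v‖ ^ (-s) ≤ (o ^ (3 : ℝ) + o ^ (3 / 2 : ℝ)) + KE_g v := by
  have o1 : 0 ≤ o ^ (3 : ℝ) := Real.rpow_nonneg ho _
  have o2 : 0 ≤ o ^ (3 / 2 : ℝ) := Real.rpow_nonneg ho _
  have g1 := KE_g1 v
  have g2 := KE_g2 v
  have hr : 0 ≤ ‖v‖ := norm_nonneg v
  rcases eq_or_lt_of_le hr with h0 | h0
  · rw [← h0, Real.zero_rpow (by have := hs.1; linarith), mul_zero]
    unfold KE_g
    linarith
  rcases lt_or_ge ‖v‖ 1 with h1 | h1
  · have e1 : (Metric.closedBall (0 : ℂ) 1).indicator (fun v : ℂ => ‖v‖ ^ (-(15 / 8) : ℝ)) v =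
        ‖v‖ ^ (-(15 / 8) : ℝ) := by
      apply indicator_of_mem
      rw [Metric.mem_closedBall, dist_zero_right]; exact h1.le
    have e2 := KE_young ho (Real.rpow_nonneg hr (-s))
    rw [← Real.rpow_mul hr] at e2
    have e3 : ‖v‖ ^ (-s * (3 / 2)) ≤ ‖v‖ ^ (-(15 / 8) : ℝ) := by
      apply Real.rpow_le_rpow_of_exponent_ge h0 h1.le
      have := hs.2
      linarith
    unfold KE_g
    linarith
  · have e1 : {w : ℂ | 1 ≤ ‖w‖}.indicator (fun v : ℂ => ‖v‖ ^ (-(9 / 4) : ℝ)) v =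
        ‖v‖ ^ (-(9 / 4) : ℝ) := by
      apply indicator_of_mem
      exact h1
    have e2 := KE_young (Real.rpow_nonneg hr (-(3 / 4) : ℝ)) ho
    rw [← Real.rpow_mul hr] at e2
    have e3 : ‖v‖ ^ (-s) ≤ ‖v‖ ^ (-(3 / 4) : ℝ) := by
      apply Real.rpow_le_rpow_of_exponent_le h1
      have := hs.1
      linarith
    have e4 : o * ‖v‖ ^ (-s) ≤ o * ‖v‖ ^ (-(3 / 4) : ℝ) := mul_le_mul_of_nonneg_left e3 ho
    have e5 : (-(3 / 4) : ℝ) * 3 = -(9 / 4) := by norm_num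
    rw [e5] at e2
    unfold KE_g
    linarith [mul_comm o (‖v‖ ^ (-(3 / 4) : ℝ))]

/-
PROOF OF THE TARGET IN WORDS
Let s be in [3/4, 5/4]. Split according to |z-w| < 1 or >= 1.
Near part: Young: a b <= a^3 + b^{3/2} for a, b >= 0 (exponents 3 and 3/2): Om(w) |z-w|^{-s} 1_{|z-w|<1} <= Om(w)^3 + |z-w|^{-3s/2} 1_{|z-w|<1},
and since 3s/2 <= 15/8 and |z-w| < 1 this is <= Om(w)^3 + |z-w|^{-15/8} 1_{|z-w| <= 1} (for w = z the left side is Om * 0^(-s) = 0 as s is not 0).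
Far part: |z-w|^{-s} <= |z-w|^{-3/4} for |z-w| >= 1, and Om |z-w|^{-3/4} 1 <= Om^{3/2} + |z-w|^{-9/4} 1_{|z-w| >= 1}.
So the integrand is <= Om^3 + Om^{3/2} + |z-w|^{-15/8} 1_{|z-w|<=1} + |z-w|^{-9/4} 1_{|z-w|>=1}, whose integral is finite by KE3 and KE2 and,
by translation invariance (integral_sub_left_eq_self, and norm_sub_rev), independent of z. Take K = this integral + 1.
-/
-- TARGET
theorem KE (hKE2 : T_KE2) (hKE3 : T_KE3) (hOM : T_OM) : T_KE := by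
  obtain ⟨k1, k2⟩ := hKE2
  obtain ⟨i1, i2⟩ := hKE3
  obtain ⟨-, mOm, -, pOm, -⟩ := hOM
  have hg : Integrable KE_g := by
    apply Integrable.add
    · exact (k1 (15 / 8) (by norm_num) 1).integrable_indicator measurableSet_closedBall
    · have hm : MeasurableSet {w : ℂ | 1 ≤ ‖w‖} := measurableSet_le measurable_const measurable_norm
      exact (k2 (9 / 4) (by norm_num)).integrable_indicator hm
  have hB : Integrable (fun w : ℂ => Om w ^ (3 : ℝ) + Om w ^ (3 / 2 : ℝ)) := i1.add i2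
  have hgz : ∀ z : ℂ, Integrable (fun w : ℂ => KE_g (z - w)) := fun z => hg.comp_sub_left z
  have hT : ∀ z : ℂ, Integrable
      (fun w : ℂ => (Om w ^ (3 : ℝ) + Om w ^ (3 / 2 : ℝ)) + KE_g (z - w)) := fun z => hB.add (hgz z)
  have hB0 : 0 ≤ ∫ w : ℂ, (Om w ^ (3 : ℝ) + Om w ^ (3 / 2 : ℝ)) :=
    integral_nonneg (fun w => add_nonneg (Real.rpow_nonneg (pOm w).le _)
      (Real.rpow_nonneg (pOm w).le _))
  have hg0 : 0 ≤ ∫ w : ℂ, KE_g w := integral_nonneg (fun w => add_nonneg (KE_g1 w) (KE_g2 w))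
  refine ⟨(∫ w : ℂ, (Om w ^ (3 : ℝ) + Om w ^ (3 / 2 : ℝ))) + (∫ w : ℂ, KE_g w) + 1,
    by linarith, ?_⟩
  intro z s hs
  have hpt : ∀ w : ℂ, Om w * ‖z - w‖ ^ (-s) ≤
      (Om w ^ (3 : ℝ) + Om w ^ (3 / 2 : ℝ)) + KE_g (z - w) := fun w =>
    KE_point (pOm w).le (z - w) hs
  have hnn : ∀ w : ℂ, 0 ≤ Om w * ‖z - w‖ ^ (-s) := fun w =>
    mul_nonneg (pOm w).le (Real.rpow_nonneg (norm_nonneg _) _)
  have hI : Integrable (fun w : ℂ => Om w * ‖z - w‖ ^ (-s)) := by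
    refine (hT z).mono' ?_ ?_
    · apply Measurable.aestronglyMeasurable
      apply mOm.mul
      exact ((measurable_const.sub measurable_id).norm).pow_const _
    · refine Filter.Eventually.of_forall (fun w => ?_)
      rw [Real.norm_eq_abs, abs_of_nonneg (hnn w)]
      exact hpt w
  refine ⟨hI, ?_⟩
  have h1 := integral_mono hI (hT z) hpt
  rw [integral_add hB (hgz z), integral_sub_left_eq_self (fun w => KE_g w) volume z] at h1
  linarith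

end Pool.Agent.Helper614.HE.P_KE
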