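import Pool.Agent.Helper614.HE.SpecC
set_option autoImplicit false

open scoped Manifold ContDiff Matrix ComplexOrder
open Matrix Topology MeasureTheory Set Filter

namespace Pool.Agent.Helper614.HE.P_KE1

open Pool.Agent.Helper614.HE



/-- the factorization -/
theorem KE1_prod : ∃ S : Finset ℂ, S.card = 16 ∧ (∀ c ∈ S, c ^ 16 = -1) ∧
    ∀ z : ℂ, z ^ 16 + 1 = ∏ c ∈ S, (z - c) := by
  obtain ⟨w, hw⟩ := IsAlgClosed.exists_pow_nat_eq (-1 : ℂ) (n := 16) (by norm_num)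
  have hw0 : w ≠ 0 := by
    intro h
    rw [h] at hw
    norm_num at hw
  have hz : IsPrimitiveRoot (Complex.exp (2 * Real.pi * Complex.I / (16 : ℕ))) 16 :=
    Complex.isPrimitiveRoot_exp 16 (by norm_num)
  have hinj : Function.Injective (fun x : ℂ => x * w) := fun a b h => mul_right_cancel₀ hw0 h
  refine ⟨(Polynomial.nthRootsFinset 16 (1 : ℂ)).map ⟨fun x => x * w, hinj⟩, ?_, ?_, ?_⟩
  · rw [Finset.card_map]
    exact hz.card_nthRootsFinset
  · intro c hc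
    rw [Finset.mem_map] at hc
    obtain ⟨a, ha, rfl⟩ := hc
    rw [Polynomial.mem_nthRootsFinset (by norm_num)] at ha
    show (a * w) ^ 16 = -1
    rw [mul_pow, ha, hw, one_mul]
  · intro z
    rw [Finset.prod_map]
    show z ^ 16 + 1 = ∏ x ∈ Polynomial.nthRootsFinset 16 (1 : ℂ), (z - x * w)
    rw [← hz.pow_sub_pow_eq_prod_sub_mul z w (by norm_num), hw]
    ring

-- TARGET
theorem KE1 : T_KE1 := by
  obtain ⟨S, hcard, hS, hprod⟩ := KE1_prod
  refine ⟨S, hS, fun z hz => ?_⟩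
  have hne : ∀ c ∈ S, z - c ≠ 0 := by
    intro c hc h
    apply hz
    rw [sub_eq_zero.1 h, hS c hc]
    ring
  have hlog : logDeriv (fun x : ℂ => ∏ c ∈ S, (x - c)) z = ∑ c ∈ S, (z - c)⁻¹ := by
    have h0 := logDeriv_prod (s := S) (f := fun (c : ℂ) (x : ℂ) => x - c) (x := z) hne
      (fun c _ => by fun_prop)
    have h2 : ∀ c ∈ S, logDeriv (fun x : ℂ => x - c) z = (z - c)⁻¹ := by
      intro c _
      rw [logDeriv_apply]
      simp
    rw [← Finset.sum_congr rfl h2]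
    exact h0
  have hlog2 : logDeriv (fun x : ℂ => ∏ c ∈ S, (x - c)) z = 16 * z ^ 15 / (z ^ 16 + 1) := by
    have : (fun x : ℂ => ∏ c ∈ S, (x - c)) = fun x => x ^ 16 + 1 := by
      funext x
      exact (hprod x).symm
    rw [this, logDeriv_apply]
    simp
  have hsum : (z ^ 16 + 1)⁻¹ = - (1 / 16) * ∑ c ∈ S, c * (z - c)⁻¹ := by
    have h1 : ∑ c ∈ S, c * (z - c)⁻¹ = z * ∑ c ∈ S, (z - c)⁻¹ - 16 := by
      have h2 : ∀ c ∈ S, c * (z - c)⁻¹ = z * (z - c)⁻¹ - 1 := by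
        intro c hc
        have := hne c hc
        field_simp
        ring
      rw [Finset.sum_congr rfl h2, Finset.sum_sub_distrib, Finset.mul_sum]
      simp [hcard]
    rw [h1, ← hlog, hlog2]
    field_simp
    ring
  have hc1 : ∀ c ∈ S, ‖c‖ = 1 := by
    intro c hc
    have h := congrArg norm (hS c hc)
    rw [norm_pow, norm_neg, norm_one] at h
    exact (pow_eq_one_iff_of_nonneg (norm_nonneg c) (by norm_num)).1 h
  rw [← norm_inv, hsum, norm_mul]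
  have hb : ‖∑ c ∈ S, c * (z - c)⁻¹‖ ≤ ∑ c ∈ S, ‖z - c‖⁻¹ := by
    refine (norm_sum_le _ _).trans (Finset.sum_le_sum fun c hc => ?_)
    rw [norm_mul, hc1 c hc, one_mul, norm_inv]
  have h16 : ‖(-(1 / 16) : ℂ)‖ ≤ 1 := by
    rw [norm_neg, norm_div, norm_one]
    norm_num
  calc ‖(-(1 / 16) : ℂ)‖ * ‖∑ c ∈ S, c * (z - c)⁻¹‖ ≤ 1 * ‖∑ c ∈ S, c * (z - c)⁻¹‖ :=
        mul_le_mul_of_nonneg_right h16 (norm_nonneg _)
    _ = ‖∑ c ∈ S, c * (z - c)⁻¹‖ := one_mul _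
    _ ≤ _ := hb

end Pool.Agent.Helper614.HE.P_KE1
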