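import Pool.Agent.Helper614.HE.SpecC
set_option autoImplicit false

open scoped Manifold ContDiff Matrix ComplexOrder
open Matrix Topology MeasureTheory Set Filter

namespace Pool.Agent.Helper614.HE.P_KE2

open Pool.Agent.Helper614.HE



/-
PROOF OF THE TARGET IN WORDS
Polar coordinates (Complex.polarCoord / integral_comp_polarCoord_symm / MeasureTheory integral_fun_norm_addHaar, or
the lemmas on integrability of radial functions in finite dimension such as integrable_fun_norm_addHaar and
integrableOn_Ioo_rpow / integrableOn_Ioi_rpow_of_lt): the function |w|^{-s} is integrable on the ball of radius R since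
int_0^R r^{1-s} dr is finite for s < 2 (for s <= 0 the function is continuous on a compact set), and on {1 <= |w|} since
int_1^oo r^{1-s} dr is finite for s > 2. (Mathlib may also have integrableOn_norm_rpow type lemmas or
integrable_rpow_neg_one_add_norm_sq: for the second part, |w|^{-s} <= 2^{s/2} (1+|w|^2)^{-s/2} on |w| >= 1.)
-/
-- TARGET
theorem KE2 : T_KE2 := by
  have hmeas : ∀ s : ℝ, Measurable (fun w : ℂ => ‖w‖ ^ (-s)) := fun s =>
    measurable_norm.pow_const _
  constructor
  · intro s hs R
    have h1 : IntegrableOn (fun w : ℂ => ‖w‖ ^ (-s)) (Metric.ball 0 (R + 1)) := by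
      refine integrableOn_ball_of_norm_le_rpow (C := 1) (α := s) ?_ ?_ ?_ ?_
      · rw [Complex.finrank_real_complex]; norm_num
      · rw [Complex.finrank_real_complex]; exact_mod_cast hs
      · refine Filter.Eventually.of_forall fun w => ?_
        rw [one_mul, Real.norm_eq_abs, abs_of_nonneg (Real.rpow_nonneg (norm_nonneg _) _)]
      · exact (hmeas s).aestronglyMeasurable
    exact h1.mono_set (Metric.closedBall_subset_ball (by linarith))
  · intro s hs
    have h1 : Integrable (fun w : ℂ => (1 + ‖w‖) ^ (-s)) := by
      apply integrable_one_add_norm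
      rw [Complex.finrank_real_complex]; exact_mod_cast hs
    refine Integrable.mono' (h1.const_mul (2 ^ s)).integrableOn
      (hmeas s).aestronglyMeasurable ?_
    rw [ae_restrict_iff' (measurableSet_le measurable_const measurable_norm)]
    refine Filter.Eventually.of_forall fun w hw => ?_
    have hw1 : 1 ≤ ‖w‖ := hw
    have hw0 : 0 < ‖w‖ := by linarith
    rw [Real.norm_eq_abs, abs_of_nonneg (Real.rpow_nonneg (norm_nonneg _) _)]
    have e1 : (1 + ‖w‖) / 2 ≤ ‖w‖ := by linarith
    have e2 : ‖w‖ ^ (-s) ≤ ((1 + ‖w‖) / 2) ^ (-s) :=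
      Real.rpow_le_rpow_of_nonpos (by positivity) e1 (by linarith)
    refine e2.trans (le_of_eq ?_)
    rw [Real.div_rpow (by positivity) (by norm_num), Real.rpow_neg (by norm_num : (0 : ℝ) ≤ 2),
      div_inv_eq_mul, mul_comm]

end Pool.Agent.Helper614.HE.P_KE2
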