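import Pool.Agent.Helper614.HE.SpecC
set_option autoImplicit false

open scoped Manifold ContDiff Matrix ComplexOrder
open Matrix Topology MeasureTheory Set Filter

namespace Pool.Agent.Helper614.HE.P_KE3

open Pool.Agent.Helper614.HE




theorem KE3_shift (h : ∀ s : ℝ, s < 2 → ∀ R : ℝ,
    IntegrableOn (fun w : ℂ => ‖w‖ ^ (-s)) (Metric.closedBall 0 R)) (s : ℝ) (hs : s < 2) (c : ℂ) :
    IntegrableOn (fun w : ℂ => ‖w - c‖ ^ (-s)) (Metric.closedBall 0 2) := by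
  have h1 := h s hs (2 + ‖c‖)
  have h2 := ((measurePreserving_sub_right (volume : Measure ℂ) c).integrableOn_comp_preimage
    (measurableEmbedding_subRight c)).2 h1
  refine h2.mono_set fun w hw => ?_
  rw [mem_preimage, mem_closedBall_zero_iff]
  rw [mem_closedBall_zero_iff] at hw
  exact (norm_sub_le _ _).trans (by linarith)

theorem KE3_sum (S : Finset ℂ) (a : ℂ → ℝ) (ha : ∀ c ∈ S, 0 ≤ a c) (q : ℝ) (hq : 0 < q) :
    (∑ c ∈ S, a c) ^ q ≤ (S.card : ℝ) ^ q * ∑ c ∈ S, a c ^ q := by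
  rcases S.eq_empty_or_nonempty with rfl | hne
  · simp [Real.zero_rpow hq.ne']
  · obtain ⟨c0, hc0, hmax⟩ := S.exists_max_image a hne
    have h1 : ∑ c ∈ S, a c ≤ S.card * a c0 := by
      have := Finset.sum_le_card_nsmul S a (a c0) hmax
      rwa [nsmul_eq_mul] at this
    have h2 : (∑ c ∈ S, a c) ^ q ≤ (S.card * a c0) ^ q :=
      Real.rpow_le_rpow (Finset.sum_nonneg ha) h1 hq.le
    rw [Real.mul_rpow (Nat.cast_nonneg _) (ha c0 hc0)] at h2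
    refine h2.trans (mul_le_mul_of_nonneg_left ?_ (Real.rpow_nonneg (Nat.cast_nonneg _) _))
    exact Finset.single_le_sum (f := fun c => a c ^ q) (fun c hc => Real.rpow_nonneg (ha c hc) _) hc0

theorem KE3_far (p : ℝ) (hp : 0 < p) (z : ℂ) (hz : 2 ≤ ‖z‖) :
    W z ^ p * (1 + ‖z‖ ^ 2) ^ (25 * p / 8) ≤
      (2 ^ (p / 2) * 2 ^ (25 * p / 8)) * ‖z‖ ^ (-(7 * p / 4)) := by
  have hz0 : 0 < ‖z‖ := by linarith
  have h16 : (2 : ℝ) ≤ ‖z‖ ^ 16 := by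
    have : (2 : ℝ) ^ 16 ≤ ‖z‖ ^ 16 := pow_le_pow_left₀ (by norm_num) hz 16
    linarith
  have h1 : ‖z‖ ^ 16 / 2 ≤ ‖z ^ 16 + 1‖ := by
    have := norm_sub_le (z ^ 16 + 1) 1
    rw [add_sub_cancel_right, norm_pow, norm_one] at this
    linarith
  have h2 : W z ≤ 2 ^ (1 / 2 : ℝ) * ‖z‖ ^ (-(8 : ℝ)) := by
    unfold W
    have h3 : ‖z ^ 16 + 1‖ ^ (-(1 / 2) : ℝ) ≤ (‖z‖ ^ 16 / 2) ^ (-(1 / 2) : ℝ) :=
      Real.rpow_le_rpow_of_nonpos (by positivity) h1 (by norm_num)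
    refine h3.trans (le_of_eq ?_)
    rw [Real.div_rpow (by positivity) (by norm_num), ← Real.rpow_natCast, ← Real.rpow_mul hz0.le,
      Real.rpow_neg (by norm_num : (0 : ℝ) ≤ 2), div_inv_eq_mul, mul_comm]
    norm_num
  have h4 : W z ^ p ≤ 2 ^ (p / 2) * ‖z‖ ^ (-(8 * p)) := by
    have h5 : W z ^ p ≤ (2 ^ (1 / 2 : ℝ) * ‖z‖ ^ (-(8 : ℝ))) ^ p :=
      Real.rpow_le_rpow (Real.rpow_nonneg (norm_nonneg _) _) h2 hp.le
    refine h5.trans (le_of_eq ?_)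
    rw [Real.mul_rpow (by positivity) (by positivity), ← Real.rpow_mul (by norm_num),
      ← Real.rpow_mul hz0.le]
    congr 2 <;> ring
  have h6 : (1 + ‖z‖ ^ 2) ^ (25 * p / 8) ≤ 2 ^ (25 * p / 8) * ‖z‖ ^ (25 * p / 4) := by
    have h7 : 1 + ‖z‖ ^ 2 ≤ 2 * ‖z‖ ^ 2 := by nlinarith
    have h8 : (1 + ‖z‖ ^ 2) ^ (25 * p / 8) ≤ (2 * ‖z‖ ^ 2) ^ (25 * p / 8) :=
      Real.rpow_le_rpow (by positivity) h7 (by positivity)
    refine h8.trans (le_of_eq ?_)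
    rw [Real.mul_rpow (by norm_num) (by positivity), ← Real.rpow_natCast, ← Real.rpow_mul hz0.le]
    congr 2
    push_cast
    ring
  calc W z ^ p * (1 + ‖z‖ ^ 2) ^ (25 * p / 8)
      ≤ (2 ^ (p / 2) * ‖z‖ ^ (-(8 * p))) * (2 ^ (25 * p / 8) * ‖z‖ ^ (25 * p / 4)) :=
        mul_le_mul h4 h6 (by positivity) (by positivity)
    _ = (2 ^ (p / 2) * 2 ^ (25 * p / 8)) * (‖z‖ ^ (-(8 * p)) * ‖z‖ ^ (25 * p / 4)) := by ring
    _ = _ := by
        rw [← Real.rpow_add hz0]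
        congr 2
        ring

theorem KE3_near (S : Finset ℂ)
    (hS : ∀ z : ℂ, z ^ 16 + 1 ≠ 0 → ‖z ^ 16 + 1‖⁻¹ ≤ ∑ c ∈ S, ‖z - c‖⁻¹) (p : ℝ) (hp : 0 < p)
    (z : ℂ) (hz : ‖z‖ ≤ 2) :
    W z ^ p * (1 + ‖z‖ ^ 2) ^ (25 * p / 8) ≤
      (5 ^ (25 * p / 8) * (S.card : ℝ) ^ (p / 2)) * ∑ c ∈ S, ‖z - c‖ ^ (-(p / 2)) := by
  have h1 : (1 + ‖z‖ ^ 2) ^ (25 * p / 8) ≤ 5 ^ (25 * p / 8) := by
    refine Real.rpow_le_rpow (by positivity) ?_ (by positivity)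
    nlinarith [norm_nonneg z]
  have h2 : W z ^ p ≤ (S.card : ℝ) ^ (p / 2) * ∑ c ∈ S, ‖z - c‖ ^ (-(p / 2)) := by
    have hsum : 0 ≤ (S.card : ℝ) ^ (p / 2) * ∑ c ∈ S, ‖z - c‖ ^ (-(p / 2)) :=
      mul_nonneg (Real.rpow_nonneg (Nat.cast_nonneg _) _)
        (Finset.sum_nonneg fun c _ => Real.rpow_nonneg (norm_nonneg _) _)
    by_cases hP : z ^ 16 + 1 = 0
    · unfold W
      rw [hP, norm_zero, Real.zero_rpow (by norm_num), Real.zero_rpow hp.ne']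
      exact hsum
    · have h3 : W z ^ p = (‖z ^ 16 + 1‖⁻¹) ^ (p / 2) := by
        unfold W
        rw [← Real.rpow_mul (norm_nonneg _), Real.inv_rpow (norm_nonneg _),
          ← Real.rpow_neg (norm_nonneg _)]
        congr 1
        ring
      rw [h3]
      have h4 := Real.rpow_le_rpow (inv_nonneg.2 (norm_nonneg _)) (hS z hP)
        (show (0 : ℝ) ≤ p / 2 by positivity)
      refine h4.trans ((KE3_sum S (fun c => ‖z - c‖⁻¹) (fun c _ => inv_nonneg.2 (norm_nonneg _))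
        (p / 2) (by positivity)).trans (le_of_eq ?_))
      congr 1
      refine Finset.sum_congr rfl fun c _ => ?_
      rw [Real.inv_rpow (norm_nonneg _), ← Real.rpow_neg (norm_nonneg _)]
  calc W z ^ p * (1 + ‖z‖ ^ 2) ^ (25 * p / 8)
      ≤ ((S.card : ℝ) ^ (p / 2) * ∑ c ∈ S, ‖z - c‖ ^ (-(p / 2))) * 5 ^ (25 * p / 8) :=
        mul_le_mul h2 h1 (by positivity) (mul_nonneg (Real.rpow_nonneg (Nat.cast_nonneg _) _)
          (Finset.sum_nonneg fun c _ => Real.rpow_nonneg (norm_nonneg _) _))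
    _ = _ := by ring

theorem KE3_gen (hKE1 : T_KE1) (hKE2 : T_KE2) (hOM : T_OM) (p : ℝ) (hp1 : 8 / 7 < p)
    (hp2 : p < 4) : Integrable (fun w : ℂ => Om w ^ p) := by
  obtain ⟨hWm, hOmm, hW0, hOm0, -⟩ := hOM
  obtain ⟨S, -, hS⟩ := hKE1
  have hp0 : 0 < p := by linarith
  have hAm : Measurable (fun z : ℂ => W z ^ p * (1 + ‖z‖ ^ 2) ^ (25 * p / 8)) :=
    (hWm.pow_const p).mul (by fun_prop)
  have hA0 : ∀ z : ℂ, 0 ≤ W z ^ p * (1 + ‖z‖ ^ 2) ^ (25 * p / 8) := fun z =>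
    mul_nonneg (Real.rpow_nonneg (hW0 z) _) (Real.rpow_nonneg (by positivity) _)
  have hA : Integrable (fun z : ℂ => W z ^ p * (1 + ‖z‖ ^ 2) ^ (25 * p / 8)) := by
    have hun : (Set.univ : Set ℂ) = Metric.closedBall 0 2 ∪ {w : ℂ | 2 ≤ ‖w‖} := by
      ext z
      simp only [mem_univ, mem_union, mem_closedBall_zero_iff, mem_ofPred_eq, true_iff]
      exact le_total _ _
    rw [← integrableOn_univ, hun]
    refine IntegrableOn.union ?_ ?_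
    · have hI : IntegrableOn (fun z : ℂ => (5 ^ (25 * p / 8) * (S.card : ℝ) ^ (p / 2)) *
          ∑ c ∈ S, ‖z - c‖ ^ (-(p / 2))) (Metric.closedBall 0 2) := by
        refine Integrable.const_mul ?_ _
        refine integrable_finsetSum _ fun c _ => ?_
        exact KE3_shift hKE2.1 (p / 2) (by linarith) c
      refine Integrable.mono' hI hAm.aestronglyMeasurable ?_
      refine (ae_restrict_iff' Metric.isClosed_closedBall.measurableSet).2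
        (Eventually.of_forall fun z hz => ?_)
      rw [Real.norm_of_nonneg (hA0 z)]
      exact KE3_near S hS p hp0 z (mem_closedBall_zero_iff.1 hz)
    · have hI : IntegrableOn (fun z : ℂ => (2 ^ (p / 2) * 2 ^ (25 * p / 8)) *
          ‖z‖ ^ (-(7 * p / 4))) {w : ℂ | 2 ≤ ‖w‖} := by
        refine Integrable.const_mul ?_ _
        refine (hKE2.2 (7 * p / 4) (by linarith)).mono_set fun w hw => ?_
        have : (2 : ℝ) ≤ ‖w‖ := hw
        show (1 : ℝ) ≤ ‖w‖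
        linarith
      refine Integrable.mono' hI hAm.aestronglyMeasurable ?_
      refine (ae_restrict_iff' (measurableSet_le measurable_const measurable_norm)).2
        (Eventually.of_forall fun z hz => ?_)
      rw [Real.norm_of_nonneg (hA0 z)]
      exact KE3_far p hp0 z hz
  have hB : Integrable (fun z : ℂ => (1 + ‖z‖ ^ 2) ^ (-(7 * p / 4) / 2)) := by
    refine integrable_rpow_neg_one_add_norm_sq ?_
    rw [Complex.finrank_real_complex]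
    push_cast
    linarith
  have hdom : Integrable (fun z : ℂ => 2 ^ p * (W z ^ p * (1 + ‖z‖ ^ 2) ^ (25 * p / 8) +
      (1 + ‖z‖ ^ 2) ^ (-(7 * p / 4) / 2))) := (hA.add hB).const_mul _
  refine Integrable.mono' hdom (hOmm.pow_const p).aestronglyMeasurable
    (Eventually.of_forall fun z => ?_)
  rw [Real.norm_of_nonneg (Real.rpow_nonneg (hOm0 z).le _)]
  have hρ : (0 : ℝ) < 1 + ‖z‖ ^ 2 := by positivity
  have hb : 0 ≤ (1 + ‖z‖ ^ 2) ^ (-4 : ℝ) := by positivity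
  unfold Om
  rw [Real.mul_rpow (add_nonneg (hW0 z) hb) (by positivity), ← Real.rpow_mul hρ.le]
  have h1 : (W z + (1 + ‖z‖ ^ 2) ^ (-4 : ℝ)) ^ p ≤
      2 ^ p * (W z ^ p + ((1 + ‖z‖ ^ 2) ^ (-4 : ℝ)) ^ p) := by
    have h2 : W z + (1 + ‖z‖ ^ 2) ^ (-4 : ℝ) ≤ 2 * max (W z) ((1 + ‖z‖ ^ 2) ^ (-4 : ℝ)) := by
      linarith [le_max_left (W z) ((1 + ‖z‖ ^ 2) ^ (-4 : ℝ)),
        le_max_right (W z) ((1 + ‖z‖ ^ 2) ^ (-4 : ℝ))]
    have hm : 0 ≤ max (W z) ((1 + ‖z‖ ^ 2) ^ (-4 : ℝ)) := le_max_of_le_left (hW0 z)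
    have h3 := Real.rpow_le_rpow (add_nonneg (hW0 z) hb) h2 hp0.le
    rw [Real.mul_rpow (by norm_num) hm] at h3
    refine h3.trans (mul_le_mul_of_nonneg_left ?_ (by positivity))
    rcases max_cases (W z) ((1 + ‖z‖ ^ 2) ^ (-4 : ℝ)) with ⟨h4, -⟩ | ⟨h4, -⟩ <;> rw [h4]
    · linarith [Real.rpow_nonneg hb p]
    · linarith [Real.rpow_nonneg (hW0 z) p]
  have h5 : ((1 + ‖z‖ ^ 2) ^ (-4 : ℝ)) ^ p * (1 + ‖z‖ ^ 2) ^ (25 / 8 * p) =
      (1 + ‖z‖ ^ 2) ^ (-(7 * p / 4) / 2) := by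
    rw [← Real.rpow_mul hρ.le, ← Real.rpow_add hρ]
    congr 1
    ring
  calc (W z + (1 + ‖z‖ ^ 2) ^ (-4 : ℝ)) ^ p * (1 + ‖z‖ ^ 2) ^ (25 / 8 * p)
      ≤ (2 ^ p * (W z ^ p + ((1 + ‖z‖ ^ 2) ^ (-4 : ℝ)) ^ p)) * (1 + ‖z‖ ^ 2) ^ (25 / 8 * p) :=
        mul_le_mul_of_nonneg_right h1 (by positivity)
    _ = 2 ^ p * (W z ^ p * (1 + ‖z‖ ^ 2) ^ (25 * p / 8) +
        ((1 + ‖z‖ ^ 2) ^ (-4 : ℝ)) ^ p * (1 + ‖z‖ ^ 2) ^ (25 / 8 * p)) := by
        rw [show 25 * p / 8 = 25 / 8 * p by ring]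
        ring
    _ = _ := by rw [h5]

-- TARGET
theorem KE3 (hKE1 : T_KE1) (hKE2 : T_KE2) (hOM : T_OM) : T_KE3 := by
  exact ⟨KE3_gen hKE1 hKE2 hOM 3 (by norm_num) (by norm_num),
    KE3_gen hKE1 hKE2 hOM (3 / 2) (by norm_num) (by norm_num)⟩

end Pool.Agent.Helper614.HE.P_KE3
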