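import Pool.Agent.Helper614.HE.SpecC
set_option autoImplicit false

open scoped Manifold ContDiff Matrix ComplexOrder
open Matrix Topology MeasureTheory Set Filter

namespace Pool.Agent.Helper614.HE.P_LH

open Pool.Agent.Helper614.HE




theorem LH_A (hLHc : T_LHc) (F : ℂ → ℂ) (D : ℂ → (ℂ →L[ℝ] ℂ)) (θ : ℝ) (hθ : 0 < θ)
    (h : ∀ R' : ℝ, ∃ C : ℝ, 0 ≤ C ∧ ∀ z w : ℂ, ‖z‖ ≤ R' → ‖w‖ ≤ 1 →
      ‖F (z + w) - F z - D z w‖ ≤ C * ‖w‖ ^ (1 + θ)) :
    (∀ z, HasFDerivAt F (D z) z) ∧ Continuous D ∧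
    ∀ (z0 : ℂ) (ρ : ℝ), 0 < ρ → ∃ L' : ℝ, ∀ z ∈ Metric.ball z0 ρ, ∀ z' ∈ Metric.ball z0 ρ,
      ‖D z - D z'‖ ≤ L' * ‖z - z'‖ ^ θ := by
  have loc : ∀ z₀, HasFDerivAt F (D z₀) z₀ ∧ ContinuousAt D z₀ := by
    intro z₀
    obtain ⟨C, hC, hC2⟩ := h (‖z₀‖ + 1)
    obtain ⟨h1, L', h2⟩ := hLHc F D z₀ (1 / 2) θ C (by norm_num) hθ hC (by
      intro z hz w hw
      rw [mem_ball_iff_norm] at hz hw
      refine hC2 z w ?_ ?_
      · have : ‖z‖ ≤ ‖z - z₀‖ + ‖z₀‖ := by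
          have := norm_add_le (z - z₀) z₀
          rwa [sub_add_cancel] at this
        linarith
      · have : ‖w‖ ≤ ‖z + w - z₀‖ + ‖z - z₀‖ := by
          have := norm_sub_le (z + w - z₀) (z - z₀)
          have e : z + w - z₀ - (z - z₀) = w := by ring
          rwa [e] at this
        linarith)
    refine ⟨h1 z₀ (Metric.mem_ball_self (by norm_num)), ?_⟩
    have h3 : Tendsto (fun z => ‖D z - D z₀‖) (𝓝 z₀) (𝓝 0) := by
      have h4 : Tendsto (fun z : ℂ => L' * ‖z - z₀‖ ^ θ) (𝓝 z₀) (𝓝 0) := by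
        have h5 : Continuous (fun z : ℂ => L' * ‖z - z₀‖ ^ θ) :=
          continuous_const.mul ((continuous_norm.comp (continuous_id.sub continuous_const)).rpow_const
            (fun _ => Or.inr hθ.le))
        have h6 := h5.tendsto z₀
        simp only [sub_self, norm_zero, Real.zero_rpow hθ.ne', mul_zero] at h6
        exact h6
      refine squeeze_zero' (Eventually.of_forall fun z => norm_nonneg _) ?_ h4
      filter_upwards [Metric.ball_mem_nhds z₀ (show (0 : ℝ) < 1 / 2 / 2 by norm_num)] with z hz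
      exact h2 z hz z₀ (Metric.mem_ball_self (by norm_num))
    exact tendsto_iff_norm_sub_tendsto_zero.2 h3
  have hF : Continuous F := continuous_iff_continuousAt.2 fun z => (loc z).1.continuousAt
  have hD : Continuous D := continuous_iff_continuousAt.2 fun z => (loc z).2
  refine ⟨fun z => (loc z).1, hD, ?_⟩
  intro z0 ρ hρ
  obtain ⟨MF, hMF⟩ := (isCompact_closedBall z0 (2 * ρ)).exists_bound_of_continuousOn hF.continuousOn
  obtain ⟨MD, hMD⟩ := (isCompact_closedBall z0 (2 * ρ)).exists_bound_of_continuousOn hD.continuousOn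
  have hz0 : z0 ∈ Metric.closedBall z0 (2 * ρ) := Metric.mem_closedBall_self (by linarith)
  have hMF0 : 0 ≤ MF := (norm_nonneg _).trans (hMF z0 hz0)
  have hMD0 : 0 ≤ MD := (norm_nonneg _).trans (hMD z0 hz0)
  obtain ⟨C, hC, hC2⟩ := h (‖z0‖ + 2 * ρ)
  obtain ⟨-, L', h2⟩ := hLHc F D z0 (2 * ρ) θ (C + 2 * MF + MD) (by linarith) hθ (by linarith) (by
    intro z hz w hw
    have hp : 0 ≤ ‖w‖ ^ (1 + θ) := Real.rpow_nonneg (norm_nonneg _) _
    by_cases hw1 : ‖w‖ ≤ 1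
    · have hzn : ‖z‖ ≤ ‖z0‖ + 2 * ρ := by
        rw [mem_ball_iff_norm] at hz
        have := norm_add_le (z - z0) z0
        rw [sub_add_cancel] at this
        linarith
      refine (hC2 z w hzn hw1).trans (mul_le_mul_of_nonneg_right (by linarith) hp)
    · push Not at hw1
      have h3 : ‖w‖ ≤ ‖w‖ ^ (1 + θ) := by
        have := Real.rpow_le_rpow_of_exponent_le hw1.le (show (1 : ℝ) ≤ 1 + θ by linarith)
        rwa [Real.rpow_one] at this
      have h4 : ‖F (z + w) - F z - D z w‖ ≤ MF + MF + MD * ‖w‖ := by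
        refine (norm_sub_le _ _).trans (add_le_add ((norm_sub_le _ _).trans
          (add_le_add (hMF _ (Metric.ball_subset_closedBall hw))
            (hMF _ (Metric.ball_subset_closedBall hz)))) ?_)
        exact ((D z).le_opNorm w).trans
          (mul_le_mul_of_nonneg_right (hMD _ (Metric.ball_subset_closedBall hz)) (norm_nonneg _))
      have h5 : MF * 1 ≤ MF * ‖w‖ ^ (1 + θ) := mul_le_mul_of_nonneg_left (hw1.le.trans h3) hMF0
      have h6 : MD * ‖w‖ ≤ MD * ‖w‖ ^ (1 + θ) := mul_le_mul_of_nonneg_left h3 hMD0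
      have h7 : 0 ≤ C * ‖w‖ ^ (1 + θ) := mul_nonneg hC hp
      nlinarith)
  refine ⟨L', fun z hz z' hz' => h2 z ?_ z' ?_⟩
  · rwa [mul_div_cancel_left₀ _ (two_ne_zero)]
  · rwa [mul_div_cancel_left₀ _ (two_ne_zero)]

theorem LH_B (hLHc : T_LHc) (hLHd : T_LHd) (hLHe : T_LHe) (hLHf : T_LHf)
    (f : ℂ → ℂ) (hf : Measurable f) (hint : ∀ z, Integrable (fun w => f w / (z - w)))
    (z0 : ℂ) (r θ L : ℝ) (hθ : 0 < θ) (hθ1 : θ < 1)
    (hH : ∀ w ∈ Metric.ball z0 r, ∀ w' ∈ Metric.ball z0 r, ‖f w - f w'‖ ≤ L * ‖w - w'‖ ^ θ)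
    (r1 : ℝ) (hr1 : 0 < r1) (hr1r : r1 < r) :
    ∃ (G H : ℂ → ℂ) (D : ℂ → (ℂ →L[ℝ] ℂ)), (∀ z, Ct f z = G z + H z) ∧
      (∀ z, HasFDerivAt G (D z) z) ∧ Continuous D ∧
      (∀ z ∈ Metric.ball z0 r1, (D z 1 + Complex.I * D z Complex.I) / 2 = f z) ∧
      (∀ ρ : ℝ, 0 < ρ → ∃ L' : ℝ, ∀ z ∈ Metric.ball z0 ρ, ∀ z' ∈ Metric.ball z0 ρ,
        ‖D z - D z'‖ ≤ L' * ‖z - z'‖ ^ θ) ∧
      DifferentiableOn ℂ H (Metric.ball z0 r1) := by
  obtain ⟨r2, hr2, hr2r⟩ := exists_between hr1r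
  let χ : ContDiffBump z0 := ⟨r1, r2, hr1, hr2⟩
  have hχout : ∀ w, w ∉ Metric.ball z0 r2 → ((χ w : ℝ) : ℂ) = 0 := by
    intro w hw
    have h1 : w ∉ Function.support (χ : ℂ → ℝ) := by
      rw [χ.support_eq]
      exact hw
    rw [Function.notMem_support.1 h1, Complex.ofReal_zero]
  have hχin : ∀ w ∈ Metric.ball z0 r1, ((χ w : ℝ) : ℂ) = 1 := by
    intro w hw
    rw [χ.one_of_mem_closedBall (Metric.ball_subset_closedBall hw), Complex.ofReal_one]
  have hχc : ContDiff ℝ 1 (fun w : ℂ => ((χ w : ℝ) : ℂ)) :=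
    Complex.ofRealCLM.contDiff.comp χ.contDiff
  obtain ⟨L', hL'⟩ := hLHf f (fun w => ((χ w : ℝ) : ℂ)) z0 r r2 θ L (hr1.trans hr2) hr2r hθ hθ1 hH
    hχc hχout
  obtain ⟨g, hg⟩ : ∃ g : ℂ → ℂ, ∀ w, g w = ((χ w : ℝ) : ℂ) * f w := ⟨_, fun _ => rfl⟩
  obtain ⟨k, hk⟩ : ∃ k : ℂ → ℂ, ∀ w, k w = (1 - ((χ w : ℝ) : ℂ)) * f w := ⟨_, fun _ => rfl⟩
  have hgH : ∀ w w', ‖g w - g w'‖ ≤ L' * ‖w - w'‖ ^ θ := by
    intro w w'
    rw [hg, hg]
    exact hL' w w'
  obtain ⟨hgi, D, hD1, hD2⟩ := hLHe g θ L' (‖z0‖ + r2) hθ hθ1 hgH (by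
    intro w hw
    rw [hg, hχout w, zero_mul]
    rw [mem_ball_iff_norm]
    intro h1
    have := norm_add_le (w - z0) z0
    rw [sub_add_cancel] at this
    linarith)
  obtain ⟨hA1, hA2, hA3⟩ := LH_A hLHc (Ct g) D θ hθ hD2
  have hkm : Measurable k := by
    have : k = fun w => (1 - ((χ w : ℝ) : ℂ)) * f w := funext hk
    rw [this]
    exact (measurable_const.sub hχc.continuous.measurable).mul hf
  have hsplit : ∀ z w, f w / (z - w) = g w / (z - w) + k w / (z - w) := by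
    intro z w
    rw [hg, hk]
    ring
  have hki : ∀ z, Integrable (fun w => k w / (z - w)) := by
    intro z
    have h1 := (hint z).sub (hgi z)
    refine h1.congr (Eventually.of_forall fun w => ?_)
    show f w / (z - w) - g w / (z - w) = k w / (z - w)
    rw [hsplit]
    ring
  refine ⟨Ct g, Ct k, D, ?_, hA1, hA2, ?_, hA3 z0, ?_⟩
  · intro z
    unfold Ct
    rw [← mul_add, ← integral_add (hgi z) (hki z)]
    congr 1
    exact integral_congr_ae (Eventually.of_forall fun w => hsplit z w)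
  · intro z hz
    rw [hD1, hg, hχin z hz, one_mul]
  · refine hLHd k hkm hki z0 r1 fun w hw => ?_
    rw [hk, hχin w hw, sub_self, zero_mul]

theorem LH_C (G H Ff : ℂ → ℂ) (D : ℂ → (ℂ →L[ℝ] ℂ)) (h : ∀ z, Ff z = G z + H z)
    (hG : ∀ z, HasFDerivAt G (D z) z) (hD : Continuous D) (z0 : ℂ) (r1 : ℝ)
    (hH : DifferentiableOn ℂ H (Metric.ball z0 r1)) (z : ℂ) (hz : z ∈ Metric.ball z0 r1) :
    ContDiffAt ℝ 1 Ff z ∧
      HasFDerivAt Ff (D z + (ContinuousLinearMap.toSpanSingleton ℂ (deriv H z)).restrictScalars ℝ) z := by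
  have hFf : Ff = fun z => G z + H z := funext h
  have hGc : ContDiff ℝ 1 G := by
    rw [contDiff_one_iff_fderiv]
    refine ⟨fun z => (hG z).differentiableAt, ?_⟩
    have : fderiv ℝ G = D := funext fun z => (hG z).fderiv
    rw [this]
    exact hD
  have hHd : DifferentiableAt ℂ H z := hH.differentiableAt (Metric.isOpen_ball.mem_nhds hz)
  have hHc : ContDiffAt ℝ 1 H z :=
    ((hH.contDiffOn Metric.isOpen_ball).contDiffAt
      (Metric.isOpen_ball.mem_nhds hz)).restrict_scalars ℝ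
  refine ⟨?_, ?_⟩
  · rw [hFf]
    exact hGc.contDiffAt.add hHc
  · rw [hFf]
    exact (hG z).add (hHd.hasDerivAt.hasFDerivAt.restrictScalars ℝ)

-- TARGET
theorem LH (hLHc : T_LHc) (hLHd : T_LHd) (hLHe : T_LHe) (hLHf : T_LHf) : T_LH := by
  intro f hf hint z0 r θ L hr hθ hθ1 hH
  refine ⟨?_, ?_⟩
  · intro z hz
    obtain ⟨r1, h1, h2⟩ := exists_between (show dist z z0 < r from hz)
    obtain ⟨G, H, D, hs, hG, hD, hDf, -, hHd⟩ := LH_B hLHc hLHd hLHe hLHf f hf hint z0 r θ L hθ hθ1 hH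
      r1 (dist_nonneg.trans_lt h1) h2
    obtain ⟨c1, c2⟩ := LH_C G H (Ct f) D hs hG hD z0 r1 hHd z h1
    refine ⟨c1, ?_⟩
    unfold dzb
    rw [c2.fderiv, ← hDf z h1]
    have e1 : ((ContinuousLinearMap.toSpanSingleton ℂ (deriv H z)).restrictScalars ℝ) (1 : ℂ) =
        deriv H z := by simp
    have e2 : ((ContinuousLinearMap.toSpanSingleton ℂ (deriv H z)).restrictScalars ℝ) Complex.I =
        Complex.I * deriv H z := by simp
    rw [_root_.add_apply, _root_.add_apply, e1, e2]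
    linear_combination (deriv H z / 2) * Complex.I_mul_I
  · have hr1 : r / 2 < 3 * r / 4 := by linarith
    obtain ⟨G, H, D, hs, hG, hD, hDf, hDH, hHd⟩ := LH_B hLHc hLHd hLHe hLHf f hf hint z0 r θ L hθ hθ1
      hH (3 * r / 4) (by linarith) (by linarith)
    obtain ⟨L1, hL1⟩ := hDH (r / 2) (by linarith)
    have hdd : DifferentiableOn ℂ (deriv H) (Metric.ball z0 (3 * r / 4)) :=
      hHd.deriv Metric.isOpen_ball
    have hddc : ContinuousOn (deriv (deriv H)) (Metric.closedBall z0 (r / 2)) :=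
      (hdd.deriv Metric.isOpen_ball).continuousOn.mono (Metric.closedBall_subset_ball hr1)
    obtain ⟨M, hM⟩ := (isCompact_closedBall z0 (r / 2)).exists_bound_of_continuousOn hddc
    have hM0 : 0 ≤ M := (norm_nonneg _).trans (hM z0 (Metric.mem_closedBall_self (by linarith)))
    have hlip : ∀ z ∈ Metric.ball z0 (r / 2), ∀ z' ∈ Metric.ball z0 (r / 2),
        ‖deriv H z - deriv H z'‖ ≤ M * ‖z - z'‖ := by
      intro z hz z' hz'
      refine (convex_closedBall z0 (r / 2)).norm_image_sub_le_of_norm_deriv_le (𝕜 := ℂ)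
        (f := deriv H) (C := M) (fun x hx => ?_) (fun x hx => hM x hx)
        (Metric.ball_subset_closedBall hz') (Metric.ball_subset_closedBall hz)
      exact hdd.differentiableAt
        (Metric.isOpen_ball.mem_nhds (Metric.closedBall_subset_ball hr1 hx))
    refine ⟨L1 + M * r ^ (1 - θ), fun z hz z' hz' => ?_⟩
    have hz1 := Metric.ball_subset_ball hr1.le hz
    have hz1' := Metric.ball_subset_ball hr1.le hz'
    have c := (LH_C G H (Ct f) D hs hG hD z0 _ hHd z hz1).2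
    have c' := (LH_C G H (Ct f) D hs hG hD z0 _ hHd z' hz1').2
    rw [c.fderiv, c'.fderiv]
    have e1 : D z + (ContinuousLinearMap.toSpanSingleton ℂ (deriv H z)).restrictScalars ℝ -
        (D z' + (ContinuousLinearMap.toSpanSingleton ℂ (deriv H z')).restrictScalars ℝ) =
        (D z - D z') +
        (ContinuousLinearMap.toSpanSingleton ℂ (deriv H z - deriv H z')).restrictScalars ℝ := by
      ext w
      simp
      ring
    rw [e1]
    have e2 : ‖(ContinuousLinearMap.toSpanSingleton ℂ (deriv H z - deriv H z')).restrictScalars ℝ‖ ≤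
        ‖deriv H z - deriv H z'‖ := by
      refine ContinuousLinearMap.opNorm_le_bound _ (norm_nonneg _) fun w => ?_
      simp [mul_comm]
    have e3 : ‖z - z'‖ ≤ r := by
      rw [mem_ball_iff_norm] at hz hz'
      have := norm_sub_le (z - z0) (z' - z0)
      rw [sub_sub_sub_cancel_right] at this
      linarith
    have e4 : ‖z - z'‖ ≤ r ^ (1 - θ) * ‖z - z'‖ ^ θ := by
      have h5 : ‖z - z'‖ = ‖z - z'‖ ^ (1 - θ) * ‖z - z'‖ ^ θ := by
        rw [← Real.rpow_add' (norm_nonneg _) (by norm_num)]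
        norm_num
      calc ‖z - z'‖ = ‖z - z'‖ ^ (1 - θ) * ‖z - z'‖ ^ θ := h5
        _ ≤ _ := mul_le_mul_of_nonneg_right
          (Real.rpow_le_rpow (norm_nonneg _) e3 (by linarith)) (Real.rpow_nonneg (norm_nonneg _) _)
    calc _ ≤ ‖D z - D z'‖ + ‖deriv H z - deriv H z'‖ := (norm_add_le _ _).trans (by gcongr)
      _ ≤ L1 * ‖z - z'‖ ^ θ + M * (r ^ (1 - θ) * ‖z - z'‖ ^ θ) :=
        add_le_add (hL1 z hz z' hz') ((hlip z hz z' hz').trans (mul_le_mul_of_nonneg_left e4 hM0))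
      _ = _ := by ring

end Pool.Agent.Helper614.HE.P_LH
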