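import Pool.Agent.Helper614.HE.SpecC
set_option autoImplicit false

open scoped Manifold ContDiff Matrix ComplexOrder
open Matrix Topology MeasureTheory Set Filter

namespace Pool.Agent.Helper614.HE.P_LHa

open Pool.Agent.Helper614.HE



/-
PROOF OF THE TARGET IN WORDS
By translation (replace zeta by z - zeta, integral_sub_left_eq_self) the integrand becomes |xi|^{theta-2} |w + xi|^{-1}. Put d = |w| > 0. Pointwise bound for xi different from 0 and -w: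
 |xi|^{theta-2} |w+xi|^{-1} <= 2 |xi|^{theta-3} 1_{|xi| >= 2d} + (2/d) |xi|^{theta-2} 1_{|xi| <= 2d} + (d/2)^{theta-2} |w+xi|^{-1} 1_{|w+xi| <= d/2}.
Indeed if |xi| >= 2d then |w+xi| >= |xi| - d >= |xi|/2; if |xi| < 2d and |w+xi| >= d/2 use the second term; if |w+xi| < d/2 then |xi| >= d/2, so |xi|^{theta-2} <= (d/2)^{theta-2}.
Integrals: int_{|xi| >= 2d} |xi|^{theta-3} = C1 d^{theta-1}, int_{|xi| <= 2d} |xi|^{theta-2} = C2 d^theta, int_{|w+xi| <= d/2} |w+xi|^{-1} = C3 d by scaling (xi = 2d eta: Measure.integral_comp_smul or setIntegral_comp_smul, finrank_real_complex = 2; or polar coordinates), the integrals for d = 1 being finite by KE2 (3 - theta > 2,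
2 - theta < 2, 1 < 2) . So the total is <= C d^{theta-1} with C depending only on theta, and the integrand is integrable (measurable and dominated). Alternatively first reduce to |w| = 1 by scaling all at once and then bound uniformly.
-/
/-- the normalised integrand is integrable -/
theorem LHa_unit (hKE2 : T_KE2) (θ : ℝ) (h0 : 0 < θ) (h1 : θ < 1) :
    Integrable (fun ζ : ℂ => ‖ζ‖ ^ (θ - 2) * ‖1 + ζ‖⁻¹) := by
  have hmeas : Measurable (fun ζ : ℂ => ‖ζ‖ ^ (θ - 2) * ‖1 + ζ‖⁻¹) := by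
    have e1 : Measurable (fun ζ : ℂ => ‖ζ‖ ^ (θ - 2)) := measurable_norm.pow_const _
    have e2 : Measurable (fun ζ : ℂ => ‖1 + ζ‖⁻¹) := (measurable_norm.comp (measurable_const_add 1)).inv
    exact e1.mul e2
  have hG0 : ∀ ζ : ℂ, 0 ≤ ‖ζ‖ ^ (θ - 2) * ‖1 + ζ‖⁻¹ := fun ζ => by positivity
  -- far
  have hfar : IntegrableOn (fun ζ : ℂ => ‖ζ‖ ^ (θ - 2) * ‖1 + ζ‖⁻¹) {ζ : ℂ | 2 ≤ ‖ζ‖} := by
    have h2 : IntegrableOn (fun w : ℂ => ‖w‖ ^ (-(3 - θ))) {w : ℂ | 1 ≤ ‖w‖} :=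
      hKE2.2 (3 - θ) (by linarith)
    have h3 : IntegrableOn (fun w : ℂ => 2 * ‖w‖ ^ (-(3 - θ))) {w : ℂ | 2 ≤ ‖w‖} := by
      have h4 := (h2.mono_set (fun (w : ℂ) (hw : 2 ≤ ‖w‖) => (show (1 : ℝ) ≤ ‖w‖ by linarith)))
      exact h4.const_mul 2
    have hS : MeasurableSet {ζ : ℂ | 2 ≤ ‖ζ‖} := measurableSet_le measurable_const measurable_norm
    refine Integrable.mono' h3 hmeas.aestronglyMeasurable ?_
    refine (ae_restrict_iff' hS).2 (Filter.Eventually.of_forall fun ζ hζ => ?_)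
    have hζ2 : 2 ≤ ‖ζ‖ := hζ
    rw [Real.norm_of_nonneg (hG0 ζ)]
    have h5 : ‖ζ‖ / 2 ≤ ‖1 + ζ‖ := by
      have h6 : ‖ζ‖ ≤ ‖1 + ζ‖ + 1 := by
        calc ‖ζ‖ = ‖(1 + ζ) - 1‖ := by congr 1; ring
          _ ≤ ‖1 + ζ‖ + ‖(1 : ℂ)‖ := norm_sub_le _ _
          _ = ‖1 + ζ‖ + 1 := by rw [norm_one]
      linarith
    have hpos : 0 < ‖ζ‖ := by linarith
    have h6 : ‖1 + ζ‖⁻¹ ≤ 2 * ‖ζ‖⁻¹ := by
      have h7 : ‖1 + ζ‖⁻¹ ≤ (‖ζ‖ / 2)⁻¹ := inv_anti₀ (by positivity) h5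
      have h8 : (‖ζ‖ / 2)⁻¹ = 2 * ‖ζ‖⁻¹ := by
        field_simp
      rwa [h8] at h7
    have h9 : ‖ζ‖ ^ (-(3 - θ)) = ‖ζ‖ ^ (θ - 2) * ‖ζ‖⁻¹ := by
      rw [← Real.rpow_neg_one, ← Real.rpow_add hpos]
      congr 1
      ring
    rw [h9]
    calc ‖ζ‖ ^ (θ - 2) * ‖1 + ζ‖⁻¹ ≤ ‖ζ‖ ^ (θ - 2) * (2 * ‖ζ‖⁻¹) :=
          mul_le_mul_of_nonneg_left h6 (by positivity)
      _ = 2 * (‖ζ‖ ^ (θ - 2) * ‖ζ‖⁻¹) := by ring
  -- near 0
  have hnear : IntegrableOn (fun ζ : ℂ => ‖ζ‖ ^ (θ - 2) * ‖1 + ζ‖⁻¹)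
      {ζ : ℂ | ‖ζ‖ ≤ 2 ∧ 1 / 2 ≤ ‖1 + ζ‖} := by
    have h2 : IntegrableOn (fun w : ℂ => ‖w‖ ^ (-(2 - θ))) (Metric.closedBall 0 2) :=
      hKE2.1 (2 - θ) (by linarith) 2
    have h3 : IntegrableOn (fun w : ℂ => 2 * ‖w‖ ^ (-(2 - θ)))
        {ζ : ℂ | ‖ζ‖ ≤ 2 ∧ 1 / 2 ≤ ‖1 + ζ‖} := by
      have h4 := (h2.mono_set (t := Metric.closedBall 0 2)
        (s := {ζ : ℂ | ‖ζ‖ ≤ 2 ∧ 1 / 2 ≤ ‖1 + ζ‖})
        (fun w hw => by rw [mem_closedBall_zero_iff]; exact hw.1))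
      exact h4.const_mul 2
    have hS : MeasurableSet {ζ : ℂ | ‖ζ‖ ≤ 2 ∧ 1 / 2 ≤ ‖1 + ζ‖} :=
      (measurableSet_le measurable_norm measurable_const).inter
        (measurableSet_le measurable_const (measurable_norm.comp (measurable_const_add 1)))
    refine Integrable.mono' h3 hmeas.aestronglyMeasurable ?_
    refine (ae_restrict_iff' hS).2 (Filter.Eventually.of_forall fun ζ hζ => ?_)
    rw [Real.norm_of_nonneg (hG0 ζ)]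
    have h5 : ‖1 + ζ‖⁻¹ ≤ 2 := by
      have h6 : ‖1 + ζ‖⁻¹ ≤ (1 / 2 : ℝ)⁻¹ := inv_anti₀ (by norm_num) hζ.2
      norm_num at h6
      exact h6
    have h7 : -(2 - θ) = θ - 2 := by ring
    rw [h7]
    calc ‖ζ‖ ^ (θ - 2) * ‖1 + ζ‖⁻¹ ≤ ‖ζ‖ ^ (θ - 2) * 2 :=
          mul_le_mul_of_nonneg_left h5 (by positivity)
      _ = 2 * ‖ζ‖ ^ (θ - 2) := by ring
  -- near -1
  have hone : IntegrableOn (fun ζ : ℂ => ‖ζ‖ ^ (θ - 2) * ‖1 + ζ‖⁻¹) {ζ : ℂ | ‖1 + ζ‖ ≤ 1 / 2} := by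
    have hI : Integrable ((Metric.closedBall (0 : ℂ) (1 / 2)).indicator
        (fun w : ℂ => ‖w‖ ^ (-(1 : ℝ)))) :=
      (integrable_indicator_iff Metric.isClosed_closedBall.measurableSet).2
        (hKE2.1 1 (by norm_num) (1 / 2))
    have hI2 := (hI.comp_add_left 1).const_mul 4
    have hS : MeasurableSet {ζ : ℂ | ‖1 + ζ‖ ≤ 1 / 2} :=
      measurableSet_le (measurable_norm.comp (measurable_const_add 1)) measurable_const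
    refine Integrable.mono' (hI2.integrableOn (s := {ζ : ℂ | ‖1 + ζ‖ ≤ 1 / 2}))
      hmeas.aestronglyMeasurable ?_
    refine (ae_restrict_iff' hS).2 (Filter.Eventually.of_forall fun ζ hζ => ?_)
    have hζ1 : ‖1 + ζ‖ ≤ 1 / 2 := hζ
    rw [Real.norm_of_nonneg (hG0 ζ)]
    have hmem : 1 + ζ ∈ Metric.closedBall (0 : ℂ) (1 / 2) := by
      rw [mem_closedBall_zero_iff]
      exact hζ1
    rw [Set.indicator_of_mem hmem, Real.rpow_neg_one]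
    have h5 : 1 / 2 ≤ ‖ζ‖ := by
      have h6 : (1 : ℝ) ≤ ‖1 + ζ‖ + ‖ζ‖ := by
        calc (1 : ℝ) = ‖(1 : ℂ)‖ := norm_one.symm
          _ = ‖(1 + ζ) - ζ‖ := by congr 1; ring
          _ ≤ ‖1 + ζ‖ + ‖ζ‖ := norm_sub_le _ _
      linarith
    have h7 : ‖ζ‖ ^ (θ - 2) ≤ 4 := by
      have h8 : ‖ζ‖ ^ (θ - 2) ≤ (1 / 2 : ℝ) ^ (θ - 2) :=
        Real.rpow_le_rpow_of_nonpos (by norm_num) h5 (by linarith)
      have h9 : (1 / 2 : ℝ) ^ (θ - 2) ≤ (1 / 2 : ℝ) ^ (-2 : ℝ) :=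
        Real.rpow_le_rpow_of_exponent_ge (by norm_num) (by norm_num) (by linarith)
      have h10 : (1 / 2 : ℝ) ^ (-2 : ℝ) = 4 := by
        rw [Real.rpow_neg (by norm_num), Real.rpow_two]
        norm_num
      linarith
    exact mul_le_mul_of_nonneg_right h7 (by positivity)
  rw [← integrableOn_univ]
  refine ((hfar.union hnear).union hone).mono_set ?_
  intro ζ _
  rcases le_or_gt 2 ‖ζ‖ with h2 | h2
  · exact Or.inl (Or.inl h2)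
  · rcases le_or_gt (1 / 2) ‖1 + ζ‖ with h3 | h3
    · exact Or.inl (Or.inr ⟨h2.le, h3⟩)
    · exact Or.inr h3.le

/-- rotated form -/
theorem LHa_rot (hKE2 : T_KE2) (θ : ℝ) (h0 : 0 < θ) (h1 : θ < 1) (u : ℂ) (hu : ‖u‖ = 1) :
    Integrable (fun ζ : ℂ => ‖ζ‖ ^ (θ - 2) * ‖u + ζ‖⁻¹) ∧
    ∫ ζ : ℂ, ‖ζ‖ ^ (θ - 2) * ‖u + ζ‖⁻¹ = ∫ ζ : ℂ, ‖ζ‖ ^ (θ - 2) * ‖1 + ζ‖⁻¹ := by
  set c : Circle := ⟨u, by simp [Submonoid.unitSphere, hu]⟩ with hc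
  have hcu : (c : ℂ) = u := rfl
  have hmp : MeasurePreserving (rotation c) (volume : Measure ℂ) volume :=
    LinearIsometryEquiv.measurePreserving (rotation c)
  have hemb : MeasurableEmbedding (rotation c) :=
    (rotation c).toHomeomorph.measurableEmbedding
  have heq : (fun ζ : ℂ => ‖ζ‖ ^ (θ - 2) * ‖u + ζ‖⁻¹) ∘ (rotation c) =
      fun ζ : ℂ => ‖ζ‖ ^ (θ - 2) * ‖1 + ζ‖⁻¹ := by
    funext ζ
    simp only [Function.comp, rotation_apply, hcu]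
    have e1 : ‖u * ζ‖ = ‖ζ‖ := by rw [norm_mul, hu, one_mul]
    have e2 : ‖u + u * ζ‖ = ‖1 + ζ‖ := by
      have : u + u * ζ = u * (1 + ζ) := by ring
      rw [this, norm_mul, hu, one_mul]
    rw [e1, e2]
  constructor
  · rw [← hmp.integrable_comp_emb hemb, heq]
    exact LHa_unit hKE2 θ h0 h1
  · rw [← hmp.integral_comp hemb, ← heq]
    rfl

/-- scaled form -/
theorem LHa_scale (hKE2 : T_KE2) (θ : ℝ) (h0 : 0 < θ) (h1 : θ < 1) (w : ℂ) (hw : w ≠ 0) :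
    Integrable (fun ζ : ℂ => ‖ζ‖ ^ (θ - 2) * ‖w + ζ‖⁻¹) ∧
    ∫ ζ : ℂ, ‖ζ‖ ^ (θ - 2) * ‖w + ζ‖⁻¹ =
      ‖w‖ ^ (θ - 1) * ∫ ζ : ℂ, ‖ζ‖ ^ (θ - 2) * ‖1 + ζ‖⁻¹ := by
  set d : ℝ := ‖w‖ with hd
  have hd0 : 0 < d := norm_pos_iff.2 hw
  set u : ℂ := d⁻¹ • w with hu
  have hu1 : ‖u‖ = 1 := by
    rw [hu, norm_smul, Real.norm_of_nonneg (by positivity), ← hd]
    exact inv_mul_cancel₀ hd0.ne'
  have hwu : w = d • u := by
    rw [hu, smul_smul, mul_inv_cancel₀ hd0.ne', one_smul]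
  obtain ⟨hi, hint⟩ := LHa_rot hKE2 θ h0 h1 u hu1
  have heq : ∀ ζ : ℂ, ‖d • ζ‖ ^ (θ - 2) * ‖w + d • ζ‖⁻¹ =
      d ^ (θ - 3) * (‖ζ‖ ^ (θ - 2) * ‖u + ζ‖⁻¹) := by
    intro ζ
    have e1 : w + d • ζ = d • (u + ζ) := by rw [smul_add, ← hwu]
    rw [e1, norm_smul, norm_smul, Real.norm_of_nonneg hd0.le,
      Real.mul_rpow hd0.le (norm_nonneg _), mul_inv]
    have e2 : d ^ (θ - 3) = d ^ (θ - 2) * d⁻¹ := by
      rw [← Real.rpow_neg_one, ← Real.rpow_add hd0]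
      congr 1
      ring
    rw [e2]
    ring
  constructor
  · rw [← integrable_comp_smul_iff volume _ hd0.ne']
    have h2 := hi.const_mul (d ^ (θ - 3))
    refine h2.congr (Filter.Eventually.of_forall fun ζ => ?_)
    exact (heq ζ).symm
  · have h2 := Measure.integral_comp_smul_of_nonneg (volume : Measure ℂ)
      (fun ζ : ℂ => ‖ζ‖ ^ (θ - 2) * ‖w + ζ‖⁻¹) d (hR := hd0.le)
    rw [Complex.finrank_real_complex] at h2
    simp only [heq] at h2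
    rw [integral_const_mul, hint, smul_eq_mul] at h2
    have h3 : d ^ (θ - 1) = d ^ 2 * d ^ (θ - 3) := by
      rw [← Real.rpow_two, ← Real.rpow_add hd0]
      congr 1
      ring
    rw [h3, mul_assoc, h2]
    field_simp

-- TARGET
theorem LHa (hKE2 : T_KE2) : T_LHa := by
  intro θ h0 h1
  have hnn : 0 ≤ ∫ ζ : ℂ, ‖ζ‖ ^ (θ - 2) * ‖1 + ζ‖⁻¹ :=
    integral_nonneg fun ζ => by positivity
  refine ⟨(∫ ζ : ℂ, ‖ζ‖ ^ (θ - 2) * ‖1 + ζ‖⁻¹) + 1, by linarith, ?_⟩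
  intro z w hw
  obtain ⟨hi, hint⟩ := LHa_scale hKE2 θ h0 h1 w hw
  have heq : (fun ζ : ℂ => ‖z - ζ‖ ^ (θ - 2) * ‖z + w - ζ‖⁻¹) =
      fun ζ : ℂ => (fun ξ : ℂ => ‖ξ‖ ^ (θ - 2) * ‖w + ξ‖⁻¹) (z - ζ) := by
    funext ζ
    have : z + w - ζ = w + (z - ζ) := by ring
    simp only [this]
  rw [heq]
  refine ⟨hi.comp_sub_left z, ?_⟩
  rw [integral_sub_left_eq_self (fun ξ : ℂ => ‖ξ‖ ^ (θ - 2) * ‖w + ξ‖⁻¹) volume z, hint]
  have hp : 0 < ‖w‖ ^ (θ - 1) := Real.rpow_pos_of_pos (norm_pos_iff.2 hw) _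
  nlinarith

end Pool.Agent.Helper614.HE.P_LHa
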