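import Pool.Agent.Helper614.HE.SpecC
set_option autoImplicit false

open scoped Manifold ContDiff Matrix ComplexOrder
open Matrix Topology MeasureTheory Set Filter

namespace Pool.Agent.Helper614.HE.P_LHb

open Pool.Agent.Helper614.HE



/-
PROOF OF THE TARGET IN WORDS
By T_C1 (applied to chi, and to dz chi, which are smooth with compact support, so C^1): F = Ct chi is C^1 with dzb F = chi and dz F = Ct (dz chi), which is C^1 by T_C1
applied to dz chi. For a C^1 function F, fderiv F z v = dz F z * v + dzb F z * conj v. So fderiv F is C^1, F is C^2. On the convex compact ball of radius R+1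
the derivative fderiv F is Lipschitz (its derivative is continuous, so bounded on the compact ball: Convex.lipschitzOnWith_of_nnnorm_fderiv_le or
image_norm_le_of_norm_deriv..), with constant C, and the mean value inequality applied to w -> F(z+w) - fderiv F z w gives
|F(z+w) - F(z) - fderiv F z w| <= C |w|^2 (Convex.norm_image_sub_le_of_norm_fderiv_le on the ball of radius |w|).
-/
lemma LHb_fderiv (F : ℂ → ℂ) (z v : ℂ) :
    fderiv ℝ F z v = dz F z * v + dzb F z * (starRingEnd ℂ) v := by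
  have h1 : v = (v.re : ℝ) • (1 : ℂ) + (v.im : ℝ) • Complex.I := by
    simp [Complex.re_add_im]
  have h2 : (starRingEnd ℂ) v = (v.re : ℂ) - (v.im : ℂ) * Complex.I := by
    apply Complex.ext <;> simp
  have h3 : fderiv ℝ F z v = (v.re : ℂ) * fderiv ℝ F z 1 + (v.im : ℂ) * fderiv ℝ F z Complex.I := by
    conv_lhs => rw [h1]
    rw [map_add, map_smul, map_smul]
    simp
  have h4 : v = (v.re : ℂ) + (v.im : ℂ) * Complex.I := (Complex.re_add_im v).symm
  rw [h2, h3]
  unfold dz dzb
  conv_rhs => rw [h4]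
  simp only [Complex.add_re, Complex.ofReal_re, Complex.mul_re, Complex.I_re, mul_zero,
    Complex.ofReal_im, Complex.I_im, mul_one, sub_self, add_zero, Complex.add_im, Complex.mul_im,
    zero_add]
  linear_combination ((v.im : ℂ) * fderiv ℝ F z Complex.I) * Complex.I_mul_I

lemma LHb_dz_smooth {χ : ℂ → ℂ} (h : ContDiff ℝ ∞ χ) : ContDiff ℝ ∞ (dz χ) := by
  have h1 : ContDiff ℝ ∞ (fderiv ℝ χ) := h.fderiv_right (by simp)
  unfold dz
  exact (((h1.clm_apply contDiff_const).sub (contDiff_const.mul (h1.clm_apply contDiff_const))).div_const 2)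

lemma LHb_dz_supp {χ : ℂ → ℂ} (h : HasCompactSupport χ) : HasCompactSupport (dz χ) := by
  have h1 : HasCompactSupport (fderiv ℝ χ) := h.fderiv ℝ
  have h2 : dz χ = (fun A : ℂ →L[ℝ] ℂ => (A 1 - Complex.I * A Complex.I) / 2) ∘ (fderiv ℝ χ) := rfl
  rw [h2]
  exact h1.comp_left (by simp)

-- TARGET
theorem LHb (hC1 : T_C1) : T_LHb := by
  intro χ hχ hc R
  have hle : ((1 : ℕ∞) : WithTop ℕ∞) ≤ ((⊤ : ℕ∞) : WithTop ℕ∞) := by exact_mod_cast le_top
  obtain ⟨hF, hF2⟩ := hC1 χ (hχ.of_le hle) hc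
  obtain ⟨hG, -⟩ := hC1 (dz χ) ((LHb_dz_smooth hχ).of_le hle) (LHb_dz_supp hc)
  set F := Ct χ with hFdef
  have e1 : dz F = Ct (dz χ) := funext fun z => (hF2 z).2.2.1
  have e2 : dzb F = χ := funext fun z => (hF2 z).2.1
  have hd : fderiv ℝ F = fun z => dz F z • (ContinuousLinearMap.id ℝ ℂ) +
      dzb F z • (Complex.conjCLE : ℂ →L[ℝ] ℂ) := by
    funext z
    ext v
    simp [LHb_fderiv F z]
  have hC : ContDiff ℝ 1 (fderiv ℝ F) := by
    rw [hd, e1, e2]
    exact (hG.smul contDiff_const).add ((hχ.of_le hle).smul contDiff_const)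
  have hcont : Continuous (fderiv ℝ (fderiv ℝ F)) := hC.continuous_fderiv (by norm_num)
  have hcont' : Continuous fun z => ‖fderiv ℝ (fderiv ℝ F) z‖ :=
    (continuous_norm (E := ℂ →L[ℝ] ℂ →L[ℝ] ℂ)).comp hcont
  obtain ⟨C, hCb'⟩ := (isCompact_closedBall (0 : ℂ) (R + 1)).exists_bound_of_continuousOn
    hcont'.continuousOn
  have hCb : ∀ x ∈ Metric.closedBall (0 : ℂ) (R + 1), ‖fderiv ℝ (fderiv ℝ F) x‖ ≤ C := by
    intro x hx
    exact (Real.le_norm_self _).trans (hCb' x hx)
  refine ⟨max C 0, le_max_right _ _, fun z w hz hw => ?_⟩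
  have hlip : ∀ x ∈ Metric.closedBall (0 : ℂ) (R + 1), ∀ y ∈ Metric.closedBall (0 : ℂ) (R + 1),
      ‖fderiv ℝ F y - fderiv ℝ F x‖ ≤ max C 0 * ‖y - x‖ := by
    intro x hx y hy
    exact (convex_closedBall (0 : ℂ) (R + 1)).norm_image_sub_le_of_norm_fderiv_le
      (fun u _ => (hC.differentiable (by norm_num)) u)
      (fun u hu => (hCb u hu).trans (le_max_left _ _)) hx hy
  have hsub : Metric.closedBall z ‖w‖ ⊆ Metric.closedBall (0 : ℂ) (R + 1) := by
    intro u hu
    rw [mem_closedBall_iff_norm] at hu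
    rw [mem_closedBall_zero_iff]
    calc ‖u‖ = ‖(u - z) + z‖ := by rw [sub_add_cancel]
      _ ≤ ‖u - z‖ + ‖z‖ := norm_add_le _ _
      _ ≤ R + 1 := by linarith
  have h1 := (convex_closedBall z ‖w‖).norm_image_sub_le_of_norm_fderiv_le' (𝕜 := ℝ) (f := F)
    (φ := fderiv ℝ F z) (C := max C 0 * ‖w‖) (x := z) (y := z + w)
    (fun u _ => (hF.differentiable (by norm_num)) u)
    (fun u hu => by
      have h2 := hlip z (hsub (Metric.mem_closedBall_self (norm_nonneg w))) u (hsub hu)
      rw [mem_closedBall_iff_norm] at hu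
      exact h2.trans (mul_le_mul_of_nonneg_left hu (le_max_right _ _)))
    (Metric.mem_closedBall_self (norm_nonneg w)) (by simp)
  rw [add_sub_cancel_left] at h1
  refine h1.trans (le_of_eq ?_)
  ring

end Pool.Agent.Helper614.HE.P_LHb
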