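import Pool.Agent.Helper614.HE.SpecC
set_option autoImplicit false

open scoped Manifold ContDiff Matrix ComplexOrder
open Matrix Topology MeasureTheory Set Filter

namespace Pool.Agent.Helper614.HE.P_LHc

open Pool.Agent.Helper614.HE



theorem LHc_deriv (F : ℂ → ℂ) (D : ℂ → (ℂ →L[ℝ] ℂ)) (z0 : ℂ) (r θ C : ℝ) (hθ : 0 < θ)
    (hC : 0 ≤ C)
    (h : ∀ z ∈ Metric.ball z0 r, ∀ w : ℂ, z + w ∈ Metric.ball z0 r →
      ‖F (z + w) - F z - D z w‖ ≤ C * ‖w‖ ^ (1 + θ)) (z : ℂ) (hz : z ∈ Metric.ball z0 r) :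
    HasFDerivAt F (D z) z := by
  rw [hasFDerivAt_iff_isLittleO_nhds_zero, Asymptotics.isLittleO_iff]
  intro c hc
  have h1 : ∀ᶠ w : ℂ in 𝓝 0, z + w ∈ Metric.ball z0 r := by
    have : Tendsto (fun w : ℂ => z + w) (𝓝 0) (𝓝 z) := by
      have h2 : Continuous fun w : ℂ => z + w := by fun_prop
      simpa using h2.tendsto 0
    exact this.eventually (Metric.isOpen_ball.mem_nhds hz)
  have h2 : ∀ᶠ w : ℂ in 𝓝 0, C * ‖w‖ ^ θ < c := by
    have h3 : Tendsto (fun w : ℂ => C * ‖w‖ ^ θ) (𝓝 0) (𝓝 0) := by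
      have h4 : Continuous fun w : ℂ => C * ‖w‖ ^ θ := by
        refine continuous_const.mul ?_
        exact continuous_norm.rpow_const fun _ => Or.inr hθ.le
      have := h4.tendsto 0
      simpa [Real.zero_rpow hθ.ne'] using this
    exact h3.eventually (gt_mem_nhds hc)
  filter_upwards [h1, h2] with w hw1 hw2
  refine (h z hz w hw1).trans ?_
  rcases eq_or_ne w 0 with rfl | hw
  · rw [norm_zero, Real.zero_rpow (by linarith)]
    simp
  · have hw0 : 0 < ‖w‖ := norm_pos_iff.2 hw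
    rw [Real.rpow_add hw0, Real.rpow_one]
    nlinarith

-- TARGET
theorem LHc : T_LHc := by
  intro F D z0 r θ C hr hθ hC h
  refine ⟨fun z hz => LHc_deriv F D z0 r θ C hθ hC h z hz,
    2 * (C * ((3 / 2) ^ (1 + θ) + 2)), ?_⟩
  have hK : 0 ≤ ((3 / 2 : ℝ)) ^ (1 + θ) + 2 := by positivity
  intro z hz z' hz'
  rcases eq_or_ne z z' with rfl | hne
  · rw [sub_self, norm_zero]
    positivity
  obtain ⟨d, hd⟩ : ∃ d, d = ‖z - z'‖ := ⟨_, rfl⟩
  have hd0 : 0 < d := by rw [hd]; exact norm_pos_iff.2 (sub_ne_zero.2 hne)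
  rw [← hd]
  rw [Metric.mem_ball, dist_eq_norm] at hz hz'
  have hdr : d < r := by
    have : z - z' = (z - z0) - (z' - z0) := by ring
    rw [hd, this]
    have := norm_sub_le (z - z0) (z' - z0)
    linarith
  have hzb : z ∈ Metric.ball z0 r := by
    rw [Metric.mem_ball, dist_eq_norm]; linarith
  have hzb' : z' ∈ Metric.ball z0 r := by
    rw [Metric.mem_ball, dist_eq_norm]; linarith
  -- the estimate for vectors of norm d/2
  have key : ∀ w : ℂ, ‖w‖ = d / 2 →
      ‖(D z - D z') w‖ ≤ C * (((3 / 2) ^ (1 + θ) + 2) * d ^ (1 + θ)) := by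
    intro w hw
    have hb : z' + w ∈ Metric.ball z0 r := by
      rw [Metric.mem_ball, dist_eq_norm]
      have e : z' + w - z0 = (z' - z0) + w := by ring
      rw [e]
      have := norm_add_le (z' - z0) w
      linarith
    have e1 := h z hzb (z' - z + w) (by
      have e : z + (z' - z + w) = z' + w := by ring
      rw [e]; exact hb)
    have e2 := h z' hzb' w hb
    have e3 := h z hzb (z' - z) (by
      have e : z + (z' - z) = z' := by ring
      rw [e]; exact hzb')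
    have f1 : z + (z' - z + w) = z' + w := by ring
    have f3 : z + (z' - z) = z' := by ring
    rw [f1] at e1
    rw [f3] at e3
    have hdec : (D z - D z') w = -(F (z' + w) - F z - D z (z' - z + w)) +
        (F (z' + w) - F z' - D z' w) + (F z' - F z - D z (z' - z)) := by
      rw [ContinuousLinearMap.sub_apply, map_add]
      ring
    have g1 : ‖z' - z + w‖ ^ (1 + θ) ≤ (3 / 2) ^ (1 + θ) * d ^ (1 + θ) := by
      rw [← Real.mul_rpow (by norm_num) hd0.le]
      refine Real.rpow_le_rpow (norm_nonneg _) ?_ (by linarith)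
      have := norm_add_le (z' - z) w
      rw [norm_sub_rev z' z, ← hd] at this
      linarith
    have g2 : ‖w‖ ^ (1 + θ) ≤ d ^ (1 + θ) :=
      Real.rpow_le_rpow (norm_nonneg _) (by linarith) (by linarith)
    have g3 : ‖z' - z‖ ^ (1 + θ) ≤ d ^ (1 + θ) := by
      rw [norm_sub_rev z' z, ← hd]
    rw [hdec]
    calc _ ≤ ‖-(F (z' + w) - F z - D z (z' - z + w))‖ + ‖F (z' + w) - F z' - D z' w‖ +
          ‖F z' - F z - D z (z' - z)‖ := norm_add₃_le
      _ ≤ C * ‖z' - z + w‖ ^ (1 + θ) + C * ‖w‖ ^ (1 + θ) + C * ‖z' - z‖ ^ (1 + θ) := by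
        rw [norm_neg]
        linarith
      _ ≤ C * ((3 / 2) ^ (1 + θ) * d ^ (1 + θ)) + C * d ^ (1 + θ) + C * d ^ (1 + θ) := by
        gcongr
      _ = C * (((3 / 2) ^ (1 + θ) + 2) * d ^ (1 + θ)) := by ring
  refine ContinuousLinearMap.opNorm_le_bound _ (by positivity) ?_
  intro v
  rcases eq_or_ne v 0 with rfl | hv
  · simp
  have hv0 : 0 < ‖v‖ := norm_pos_iff.2 hv
  have hw : ‖(d / (2 * ‖v‖)) • v‖ = d / 2 := by
    rw [norm_smul, Real.norm_eq_abs, abs_of_pos (by positivity)]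
    field_simp
  have hk := key _ hw
  rw [map_smul, norm_smul, Real.norm_eq_abs, abs_of_pos (by positivity), Real.rpow_add hd0,
    Real.rpow_one, div_mul_eq_mul_div, div_le_iff₀ (by positivity)] at hk
  have h5 : d * ‖(D z - D z') v‖ ≤ d * (2 * (C * ((3 / 2) ^ (1 + θ) + 2)) * d ^ θ * ‖v‖) := by
    calc d * ‖(D z - D z') v‖ ≤ C * (((3 / 2) ^ (1 + θ) + 2) * (d * d ^ θ)) * (2 * ‖v‖) := hk
      _ = _ := by ring
  exact le_of_mul_le_mul_left h5 hd0

end Pool.Agent.Helper614.HE.P_LHc
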