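import Pool.Agent.Helper614.HE.SpecC
set_option autoImplicit false

open scoped Manifold ContDiff Matrix ComplexOrder
open Matrix Topology MeasureTheory Set Filter

namespace Pool.Agent.Helper614.HE.P_LHd

open Pool.Agent.Helper614.HE



/-
PROOF OF THE TARGET IN WORDS
Let z1 be in the ball B(z0,r), choose r' with |z1 - z0| < r' < r and let z range over B(z0,r'). For w outside B(z0,r), |z-w| >= r - r' > 0 and
|z1 - w| <= |z-w| + 2r' <= |z-w| (1 + 2r'/(r-r')), so |f(w)|/|z-w|^2 <= (1/(r-r')) (1+2r'/(r-r')) |f(w)|/|z1-w|, which is integrable in w by hypothesis (z = z1);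
for w in B(z0,r) f(w) = 0. So hasDerivAt_integral_of_dominated_loc_of_deriv_le (complex version) with F z w = f(w)/(z-w), F' z w = -f(w)/(z-w)^2 applies and gives
the complex differentiability of Ct f at z1. (If f(w) = 0 the function is identically zero in z.)
-/
-- TARGET
theorem LHd : T_LHd := by
  intro f hf hint z0 r h0 z1 hz1
  have hz1' : ‖z1 - z0‖ < r := by simpa [dist_eq_norm] using hz1
  obtain ⟨r', hr1, hr2⟩ := exists_between hz1'
  have hd : 0 < r - r' := by linarith
  set s : Set ℂ := Metric.ball z0 r' with hs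
  have hs1 : s ∈ 𝓝 z1 := by
    apply Metric.isOpen_ball.mem_nhds
    simpa [dist_eq_norm] using hr1
  have hr0 : 0 ≤ r' := le_trans (norm_nonneg _) hr1.le
  -- the key lower bound
  have hlow : ∀ z ∈ s, ∀ w, f w ≠ 0 → r - r' ≤ ‖z - w‖ := by
    intro z hz w hw
    have hw' : r ≤ ‖w - z0‖ := by
      by_contra hcon
      push Not at hcon
      exact hw (h0 w (by simpa [dist_eq_norm] using hcon))
    have hz' : ‖z - z0‖ < r' := by simpa [hs, dist_eq_norm] using hz
    have : ‖w - z0‖ ≤ ‖z - w‖ + ‖z - z0‖ := by
      have := norm_sub_le (z - z0) (z - w)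
      have e : (z - z0) - (z - w) = w - z0 := by ring
      rw [e] at this
      linarith
    linarith
  set C : ℝ := (1 / (r - r')) * (1 + 2 * r' / (r - r')) with hC
  have key := hasDerivAt_integral_of_dominated_loc_of_deriv_le (μ := (volume : Measure ℂ)) (𝕜 := ℂ)
    (F := fun z w => f w / (z - w)) (F' := fun z w => - f w / (z - w) ^ 2) (x₀ := z1) (s := s)
    (bound := fun w => C * ‖f w / (z1 - w)‖) hs1
    (Filter.Eventually.of_forall fun z => (hint z).aestronglyMeasurable)
    (hint z1)
    ((hf.neg.div ((measurable_const.sub measurable_id).pow_const 2)).aestronglyMeasurable)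
    (Filter.Eventually.of_forall fun w z hz => by
      by_cases hw : f w = 0
      · simp [hw]
      · have h1 := hlow z hz w hw
        have hzw : 0 < ‖z - w‖ := lt_of_lt_of_le hd h1
        have h2 := hlow z1 (mem_of_mem_nhds hs1) w hw
        have hz1w : 0 < ‖z1 - w‖ := lt_of_lt_of_le hd h2
        have h3 : ‖z1 - w‖ ≤ ‖z - w‖ * (1 + 2 * r' / (r - r')) := by
          have hz' : ‖z - z0‖ < r' := by simpa [hs, dist_eq_norm] using hz
          have e1 : ‖z1 - w‖ ≤ ‖z - w‖ + 2 * r' := by
            have a1 : ‖z1 - w‖ ≤ ‖z1 - z0‖ + ‖z0 - z‖ + ‖z - w‖ := by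
              calc ‖z1 - w‖ = ‖(z1 - z0) + (z0 - z) + (z - w)‖ := by congr 1; ring
                _ ≤ _ := norm_add₃_le
            have a2 : ‖z0 - z‖ = ‖z - z0‖ := norm_sub_rev _ _
            rw [a2] at a1
            linarith
          have e2 : 2 * r' ≤ ‖z - w‖ * (2 * r' / (r - r')) := by
            rw [mul_div_assoc', le_div_iff₀ hd]
            nlinarith [mul_le_mul_of_nonneg_left h1 (by linarith : (0:ℝ) ≤ 2 * r')]
          linarith
        simp only [norm_div, norm_neg, norm_pow, hC]
        rw [div_le_iff₀ (by positivity)]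
        have e3 : 1 ≤ ‖z - w‖ * (1 / (r - r')) := by
          rw [mul_one_div, le_div_iff₀ hd]; linarith
        have e4 : 1 ≤ (‖z - w‖ * (1 + 2 * r' / (r - r'))) / ‖z1 - w‖ := by
          rw [le_div_iff₀ hz1w]; linarith
        have hfp : 0 < ‖f w‖ := norm_pos_iff.mpr hw
        calc ‖f w‖ = ‖f w‖ * (1 * 1) := by ring
          _ ≤ ‖f w‖ * ((‖z - w‖ * (1 / (r - r'))) * ((‖z - w‖ * (1 + 2 * r' / (r - r'))) / ‖z1 - w‖)) := by
            apply mul_le_mul_of_nonneg_left _ hfp.le
            apply mul_le_mul e3 e4 (by norm_num) (by linarith)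
          _ = 1 / (r - r') * (1 + 2 * r' / (r - r')) * (‖f w‖ / ‖z1 - w‖) * ‖z - w‖ ^ 2 := by
            ring)
    ((hint z1).norm.const_mul C)
    (Filter.Eventually.of_forall fun w z hz => by
      by_cases hw : f w = 0
      · simp only [hw, zero_div, neg_zero]
        exact hasDerivAt_const z 0
      · have h1 := hlow z hz w hw
        have hne : z - w ≠ 0 := by
          intro h
          rw [h, norm_zero] at h1
          linarith
        have hd1 : HasDerivAt (fun z => z - w) 1 z := (hasDerivAt_id z).sub_const w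
        have := (hasDerivAt_const z (f w)).div hd1 hne
        have e : -f w / (z - w) ^ 2 = (0 * (z - w) - f w * 1) / (z - w) ^ 2 := by
          congr 1; ring
        simp only [e]
        exact this)
  have h2 := key.2.const_mul (((1 / Real.pi : ℝ) : ℂ))
  exact (h2.differentiableAt).differentiableWithinAt

end Pool.Agent.Helper614.HE.P_LHd
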