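import Pool.Agent.Helper614.HE.SpecC
set_option autoImplicit false

open scoped Manifold ContDiff Matrix ComplexOrder
open Matrix Topology MeasureTheory Set Filter

namespace Pool.Agent.Helper614.HE.P_LHe

open Pool.Agent.Helper614.HE



/-
PROOF OF THE TARGET IN WORDS
g is continuous (Hoelder; theta > 0), bounded, with support in |w| <= R; integrability of g(w)/(z-w) from KE2 (s = 1). Take D z := fderiv R (Ct g) z. Fix R' (we may enlarge it). Let chi be a smooth function with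
compact support, 0 <= chi <= 1, real, equal to 1 on the ball of radius R'' = |R'| + |R| + 3. For |z| <= R' let h_z(zeta) = g(zeta) - g(z) chi(zeta). Then |h_z(zeta)| <= C |zeta - z|^theta for
all zeta: for |zeta| <= R'' by the Hoelder condition, and for |zeta| > R'' g(zeta) = 0 and |h_z| <= sup|g| <= sup|g| |zeta-z|^theta as |zeta-z| >= 1. h_z has compact support.
Ct g (z') = g(z) Ct chi (z') + (1/pi) int h_z(zeta)/(z'-zeta). For a = z - zeta, a and a + w not 0: 1/(a+w) - 1/a + w/a^2 = w^2/(a^2 (a+w)). Hence, with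
E z w := g(z) fderiv(Ct chi) z w - w (1/pi) int h_z(zeta)/(z-zeta)^2 dzeta (the integral converges: |h_z|/|z-zeta|^2 <= C |z-zeta|^{theta-2}, compact support, KE2),
Ct g(z+w) - Ct g(z) - E z w = g(z) [Ct chi(z+w) - Ct chi(z) - fderiv (Ct chi) z w] + (w^2/pi) int h_z(zeta)/((z-zeta)^2 (z+w-zeta)) dzeta,
the first bracket is <= C |w|^2 <= C |w|^{1+theta} for |w| <= 1 (T_LHb), and the last term is <= |w|^2 C int |z-zeta|^{theta-2} |z+w-zeta|^{-1} <= C |w|^{1+theta} by T_LHa. So this is the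
uniform expansion with E z (a continuous R-linear map in w), and hence E z = fderiv (Ct g) z = D z for |z| <= R' (HasFDerivAt.fderiv). Finally
(E z 1 + i E z i)/2 = g(z) dzb (Ct chi)(z) - (1 + i^2)/2 * (...) = g(z) chi(z) = g(z) for |z| <= R', by T_C1. As R' is arbitrary all z are covered.
-/

lemma LHe_cont {g : ℂ → ℂ} {θ L : ℝ} (hθ : 0 < θ) (hg : ∀ w w', ‖g w - g w'‖ ≤ L * ‖w - w'‖ ^ θ) :
    Continuous g := by
  rw [continuous_iff_continuousAt]
  intro z
  rw [ContinuousAt, tendsto_iff_norm_sub_tendsto_zero]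
  have h1 : Tendsto (fun w : ℂ => L * ‖w - z‖ ^ θ) (𝓝 z) (𝓝 0) := by
    have h2 : ContinuousAt (fun w : ℂ => L * ‖w - z‖ ^ θ) z := by
      refine ContinuousAt.mul continuousAt_const ?_
      refine ContinuousAt.rpow_const (by fun_prop) (Or.inr hθ.le)
    have h3 := h2.tendsto
    simp only [sub_self, norm_zero, Real.zero_rpow hθ.ne', mul_zero] at h3
    exact h3
  exact squeeze_zero (fun _ => norm_nonneg _) (fun w => hg w z) h1

lemma LHe_kern (hKE2 : T_KE2) (z : ℂ) (s : ℝ) (hs : s < 2) (ρ : ℝ) :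
    IntegrableOn (fun ζ : ℂ => ‖z - ζ‖ ^ (-s)) (Metric.closedBall 0 ρ) := by
  have h1 := hKE2.1 s hs (‖z‖ + ρ)
  have h2 : IntegrableOn (fun ζ : ℂ => ‖z - ζ‖ ^ (-s))
      ((fun ζ => z - ζ) ⁻¹' (Metric.closedBall 0 (‖z‖ + ρ))) := by
    have e := (Measure.measurePreserving_sub_left volume z).integrableOn_comp_preimage
      (MeasurableEquiv.subLeft z).measurableEmbedding (f := fun w : ℂ => ‖w‖ ^ (-s))
      (s := Metric.closedBall 0 (‖z‖ + ρ))
    exact e.2 h1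
  refine h2.mono_set ?_
  intro ζ hζ
  simp only [mem_preimage, mem_closedBall_zero_iff] at hζ ⊢
  exact (norm_sub_le _ _).trans (by linarith)

lemma LHe_int (hKE2 : T_KE2) {F : ℂ → ℂ} (hF : AEStronglyMeasurable F volume) {z : ℂ} {s : ℝ}
    (hs : s < 2) {C ρ : ℝ} (hb : ∀ ζ, ‖F ζ‖ ≤ C * ‖z - ζ‖ ^ (-s)) (h0 : ∀ ζ, ρ < ‖ζ‖ → F ζ = 0) :
    Integrable F := by
  have h1 : IntegrableOn F (Metric.closedBall 0 ρ) := by
    refine ((LHe_kern hKE2 z s hs ρ).const_mul C).mono' hF.restrict ?_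
    exact Eventually.of_forall fun ζ => hb ζ
  have h2 : (Metric.closedBall (0 : ℂ) ρ).indicator F = F := by
    rw [indicator_eq_self]
    intro ζ hζ
    by_contra h
    rw [mem_closedBall_zero_iff, not_le] at h
    exact hζ (h0 ζ h)
  rw [← h2]
  exact (integrable_indicator_iff Metric.isClosed_closedBall.measurableSet).2 h1

/-- a smooth cut-off function -/
lemma LHe_cut (ρ : ℝ) : ∃ χ : ℂ → ℂ, ContDiff ℝ ∞ χ ∧ HasCompactSupport χ ∧
    (∀ ζ, ‖ζ‖ ≤ ρ → χ ζ = 1) ∧ (∀ ζ, ‖χ ζ‖ ≤ 1) ∧ (∀ ζ, |ρ| + 2 < ‖ζ‖ → χ ζ = 0) := by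
  let f : ContDiffBump (0 : ℂ) := ⟨|ρ| + 1, |ρ| + 2, by positivity, by linarith⟩
  refine ⟨fun ζ => ((f ζ : ℝ) : ℂ), ?_, ?_, ?_, ?_, ?_⟩
  · exact Complex.ofRealCLM.contDiff.comp f.contDiff
  · have := f.hasCompactSupport
    exact this.comp_left (g := fun x : ℝ => (x : ℂ)) (by simp)
  · intro ζ hζ
    have : f ζ = 1 := f.one_of_mem_closedBall (by
      rw [mem_closedBall_zero_iff]
      exact hζ.trans ((le_abs_self ρ).trans (by change |ρ| ≤ |ρ| + 1; linarith)))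
    simp [this]
  · intro ζ
    rw [Complex.norm_real, Real.norm_of_nonneg f.nonneg]
    exact f.le_one
  · intro ζ hζ
    have : f ζ = 0 := f.zero_of_le_dist (by
      rw [dist_zero_right]
      exact hζ.le)
    simp [this]

/-- the main estimate -/
lemma LHe_key (hKE2 : T_KE2) (hLHa : T_LHa) (hLHb : T_LHb) (hC1 : T_C1) {g : ℂ → ℂ} {θ L R : ℝ}
    (hθ : 0 < θ) (hθ1 : θ < 1) (hg : ∀ w w', ‖g w - g w'‖ ≤ L * ‖w - w'‖ ^ θ)
    (hR : ∀ w, R < ‖w‖ → g w = 0) (R' : ℝ) :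
    ∃ C : ℝ, 0 ≤ C ∧ ∀ z : ℂ, ‖z‖ ≤ R' → ∃ E : ℂ →L[ℝ] ℂ, (E 1 + Complex.I * E Complex.I) / 2 = g z ∧
      ∀ w : ℂ, ‖w‖ ≤ 1 → ‖Ct g (z + w) - Ct g z - E w‖ ≤ C * ‖w‖ ^ (1 + θ) := by
  have hgc := LHe_cont hθ hg
  have hL : 0 ≤ L := by
    have := (norm_nonneg _).trans (hg 1 0)
    simpa using this
  obtain ⟨M, hM⟩ : ∃ M, ∀ w, ‖g w‖ ≤ M := by
    obtain ⟨M, hM⟩ := (isCompact_closedBall (0 : ℂ) R).exists_bound_of_continuousOn hgc.continuousOn
    refine ⟨max M 0, fun w => ?_⟩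
    by_cases h : ‖w‖ ≤ R
    · exact (hM w (by simpa using h)).trans (le_max_left _ _)
    · rw [hR w (not_le.1 h), norm_zero]; exact le_max_right _ _
  have hM0 : 0 ≤ M := (norm_nonneg _).trans (hM 0)
  set ρ : ℝ := |R'| + |R| + 3 with hρ
  obtain ⟨χ, χs, χc, χ1, χb, χ0⟩ := LHe_cut ρ
  have χcont : Continuous χ := χs.continuous
  obtain ⟨A, hA0, hA⟩ := hLHb χ χs χc R'
  obtain ⟨B, hB0, hB⟩ := hLHa θ hθ hθ1
  refine ⟨M * A + (L + M) * B, by positivity, fun z hz => ?_⟩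
  have hzR : ‖z‖ ≤ |R'| := hz.trans (le_abs_self _)
  have hχz : χ z = 1 := χ1 z (by
    have := abs_nonneg R
    rw [hρ]; linarith)
  set h : ℂ → ℂ := fun ζ => g ζ - g z * χ ζ with hh
  have hcont : Continuous h := by
    rw [hh]
    exact hgc.sub (continuous_const.mul χcont)
  have hb : ∀ ζ, ‖h ζ‖ ≤ (L + M) * ‖z - ζ‖ ^ θ := by
    intro ζ
    have hp : 0 ≤ ‖z - ζ‖ ^ θ := Real.rpow_nonneg (norm_nonneg _) _
    by_cases hζ : ‖ζ‖ ≤ ρ
    · have e : h ζ = g ζ - g z := by rw [hh]; simp [χ1 ζ hζ]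
      rw [e]
      refine (hg ζ z).trans ?_
      rw [norm_sub_rev]
      nlinarith
    · rw [not_le] at hζ
      have e : h ζ = - (g z * χ ζ) := by
        rw [hh]
        simp only
        rw [hR ζ (by
          have h1 := abs_nonneg R'
          have h2 := le_abs_self R
          linarith), zero_sub]
      rw [e, norm_neg, norm_mul]
      have h1 : ‖g z‖ * ‖χ ζ‖ ≤ M * 1 := mul_le_mul (hM z) (χb ζ) (norm_nonneg _) hM0
      have h2 : (1 : ℝ) ≤ ‖z - ζ‖ := by
        have e1 : ‖ζ‖ ≤ ‖z‖ + ‖z - ζ‖ := by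
          have : ζ = z - (z - ζ) := by ring
          calc ‖ζ‖ = ‖z - (z - ζ)‖ := by rw [← this]
            _ ≤ _ := norm_sub_le _ _
        have := abs_nonneg R
        linarith
      have h3 : (1 : ℝ) ≤ ‖z - ζ‖ ^ θ := Real.one_le_rpow h2 hθ.le
      nlinarith
  have h0 : ∀ ζ, |ρ| + 2 < ‖ζ‖ → h ζ = 0 := by
    intro ζ hζ
    rw [hh]
    simp only
    rw [χ0 ζ hζ, mul_zero, sub_zero]
    refine hR ζ ?_
    have h1 := abs_nonneg R'
    have h2 := le_abs_self R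
    have h3 := le_abs_self ρ
    linarith
  have hbd : ∀ ζ, ‖h ζ‖ ≤ 2 * M := by
    intro ζ
    refine (norm_sub_le _ _).trans ?_
    rw [norm_mul]
    have h1 : ‖g z‖ * ‖χ ζ‖ ≤ M * 1 := mul_le_mul (hM z) (χb ζ) (norm_nonneg _) hM0
    have h2 := hM ζ
    linarith
  have meas : ∀ (f : ℂ → ℂ) (_ : Continuous f) (z' : ℂ),
      AEStronglyMeasurable (fun ζ => f ζ / (z' - ζ)) volume := fun f hf z' =>
    (hf.measurable.div (measurable_const.sub measurable_id)).aestronglyMeasurable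
  have i1 : ∀ z', Integrable (fun ζ => h ζ / (z' - ζ)) := by
    intro z'
    refine LHe_int hKE2 (meas h hcont z') (z := z') (s := 1) (by norm_num) (C := 2 * M)
      (ρ := |ρ| + 2) (fun ζ => ?_) (fun ζ hζ => by rw [h0 ζ hζ, zero_div])
    rw [norm_div, Real.rpow_neg_one, div_eq_mul_inv]
    exact mul_le_mul_of_nonneg_right (hbd ζ) (inv_nonneg.2 (norm_nonneg _))
  have i2 : Integrable (fun ζ => h ζ / (z - ζ) ^ 2) := by
    refine LHe_int hKE2 ?_ (z := z) (s := 2 - θ) (by linarith) (C := L + M)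
      (ρ := |ρ| + 2) (fun ζ => ?_) (fun ζ hζ => by rw [h0 ζ hζ, zero_div])
    · exact (hcont.measurable.div ((measurable_const.sub measurable_id).pow_const 2)).aestronglyMeasurable
    · by_cases hzζ : z - ζ = 0
      · rw [hzζ]
        simp only [ne_eq, OfNat.ofNat_ne_zero, not_false_eq_true, zero_pow, div_zero, norm_zero]
        have : (0 : ℝ) ≤ 0 ^ (-(2 - θ)) := Real.rpow_nonneg le_rfl _
        positivity
      · have hp : 0 < ‖z - ζ‖ := norm_pos_iff.2 hzζ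
        rw [norm_div, norm_pow, div_le_iff₀ (by positivity)]
        refine (hb ζ).trans (le_of_eq ?_)
        rw [mul_assoc, ← Real.rpow_natCast, ← Real.rpow_add hp]
        congr 2
        push_cast
        ring
  have i3 : ∀ z', Integrable (fun ζ => χ ζ / (z' - ζ)) := fun z' => ((hC1 χ (χs.of_le (by
    exact_mod_cast le_top)) χc).2 z').1
  have dec : ∀ z', Ct g z' = g z * Ct χ z' + (1 / Real.pi : ℝ) * ∫ ζ, h ζ / (z' - ζ) := by
    intro z'
    unfold Ct
    have e1 : (fun ζ => g ζ / (z' - ζ)) = fun ζ => g z * (χ ζ / (z' - ζ)) + h ζ / (z' - ζ) := by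
      funext ζ
      rw [hh]
      simp only
      ring
    rw [e1, integral_add ((i3 z').const_mul _) (i1 z'), integral_const_mul]
    ring
  set κ : ℂ := (1 / Real.pi : ℝ) * ∫ ζ, h ζ / (z - ζ) ^ 2 with hκ
  refine ⟨g z • fderiv ℝ (Ct χ) z - ContinuousLinearMap.mul ℝ ℂ κ, ?_, fun w hw => ?_⟩
  · have hd := ((hC1 χ (χs.of_le (by exact_mod_cast le_top)) χc).2 z).2.1
    unfold dzb at hd
    rw [hχz] at hd
    simp only [_root_.sub_apply, _root_.smul_apply, ContinuousLinearMap.mul_apply', smul_eq_mul]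
    linear_combination g z * hd - κ / 2 * Complex.I_mul_I
  · by_cases hw0 : w = 0
    · rw [hw0]
      simp only [add_zero, sub_self, map_zero, norm_zero]
      positivity
    have hwp : 0 < ‖w‖ := norm_pos_iff.2 hw0
    have e1 : Ct g (z + w) - Ct g z - (g z • fderiv ℝ (Ct χ) z - ContinuousLinearMap.mul ℝ ℂ κ) w =
        g z * (Ct χ (z + w) - Ct χ z - fderiv ℝ (Ct χ) z w) + (1 / Real.pi : ℝ) *
        ∫ ζ, (h ζ / (z + w - ζ) - h ζ / (z - ζ) + w * (h ζ / (z - ζ) ^ 2)) := by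
      have s1 : Integrable (fun ζ => h ζ / (z + w - ζ) - h ζ / (z - ζ)) := (i1 (z + w)).sub (i1 z)
      have s2 : ∫ ζ, (h ζ / (z + w - ζ) - h ζ / (z - ζ) + w * (h ζ / (z - ζ) ^ 2)) =
          (∫ ζ, h ζ / (z + w - ζ)) - (∫ ζ, h ζ / (z - ζ)) + w * ∫ ζ, h ζ / (z - ζ) ^ 2 := by
        rw [integral_add s1 (i2.const_mul w), integral_sub (i1 (z + w)) (i1 z), integral_const_mul]
      rw [s2, dec (z + w), dec z]
      simp only [_root_.sub_apply, _root_.smul_apply, ContinuousLinearMap.mul_apply', smul_eq_mul]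
      rw [hκ]
      ring
    obtain ⟨hBi, hBb⟩ := hB z w hw0
    have e2 : ‖∫ ζ, (h ζ / (z + w - ζ) - h ζ / (z - ζ) + w * (h ζ / (z - ζ) ^ 2))‖ ≤
        ∫ ζ, (L + M) * ‖w‖ ^ 2 * (‖z - ζ‖ ^ (θ - 2) * ‖z + w - ζ‖⁻¹) := by
      refine norm_integral_le_of_norm_le (hBi.const_mul _) ?_
      filter_upwards [compl_mem_ae_iff.2 (measure_singleton (μ := (volume : Measure ℂ)) (z + w))]
        with ζ hζ
      have hζ1 : z + w - ζ ≠ 0 := fun h1 => hζ (by
        rw [mem_singleton_iff]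
        exact (sub_eq_zero.1 h1).symm)
      by_cases hζ2 : z - ζ = 0
      · have h3 : h ζ = 0 := by
          have := hb ζ
          rw [hζ2, norm_zero, Real.zero_rpow hθ.ne', mul_zero] at this
          exact norm_le_zero_iff.1 this
        rw [h3]
        simp only [zero_div, sub_self, mul_zero, add_zero, norm_zero]
        positivity
      · have hp : 0 < ‖z - ζ‖ := norm_pos_iff.2 hζ2
        have hp1 : 0 < ‖z + w - ζ‖ := norm_pos_iff.2 hζ1
        have e3 : h ζ / (z + w - ζ) - h ζ / (z - ζ) + w * (h ζ / (z - ζ) ^ 2) =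
            h ζ * w ^ 2 / ((z - ζ) ^ 2 * (z + w - ζ)) := by
          field_simp
          ring
        rw [e3, norm_div, norm_mul, norm_mul, norm_pow, norm_pow]
        have e4 : ‖z - ζ‖ ^ (θ - 2) = ‖z - ζ‖ ^ θ / ‖z - ζ‖ ^ 2 := by
          rw [Real.rpow_sub hp]
          norm_num
        rw [e4, div_le_iff₀ (by positivity)]
        have e5 : (L + M) * ‖w‖ ^ 2 * (‖z - ζ‖ ^ θ / ‖z - ζ‖ ^ 2 * ‖z + w - ζ‖⁻¹) *
            (‖z - ζ‖ ^ 2 * ‖z + w - ζ‖) = ((L + M) * ‖z - ζ‖ ^ θ) * ‖w‖ ^ 2 := by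
          field_simp
        rw [e5]
        exact mul_le_mul_of_nonneg_right (hb ζ) (by positivity)
    rw [integral_const_mul] at e2
    have e3 : ‖∫ ζ, (h ζ / (z + w - ζ) - h ζ / (z - ζ) + w * (h ζ / (z - ζ) ^ 2))‖ ≤
        (L + M) * B * ‖w‖ ^ (1 + θ) := by
      refine e2.trans ?_
      have e4 : (L + M) * B * ‖w‖ ^ (1 + θ) = (L + M) * ‖w‖ ^ 2 * (B * ‖w‖ ^ (θ - 1)) := by
        have : ‖w‖ ^ (1 + θ) = ‖w‖ ^ 2 * ‖w‖ ^ (θ - 1) := by
          rw [← Real.rpow_natCast, ← Real.rpow_add hwp]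
          congr 1
          push_cast
          ring
        rw [this]
        ring
      rw [e4]
      exact mul_le_mul_of_nonneg_left hBb (by positivity)
    have e4 : ‖((1 / Real.pi : ℝ) : ℂ)‖ ≤ 1 := by
      rw [Complex.norm_real, Real.norm_of_nonneg (by positivity)]
      rw [div_le_one Real.pi_pos]
      linarith [Real.pi_gt_three]
    have e5 : ‖w‖ ^ 2 ≤ ‖w‖ ^ (1 + θ) := by
      rw [← Real.rpow_natCast]
      exact Real.rpow_le_rpow_of_exponent_ge hwp hw (by push_cast; linarith)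
    rw [e1]
    refine (norm_add_le _ _).trans ?_
    rw [norm_mul, norm_mul, add_mul]
    refine add_le_add ?_ ?_
    · have e6 := hA z w hz hw
      calc ‖g z‖ * ‖Ct χ (z + w) - Ct χ z - fderiv ℝ (Ct χ) z w‖ ≤ M * (A * ‖w‖ ^ 2) :=
            mul_le_mul (hM z) e6 (norm_nonneg _) hM0
        _ = M * A * ‖w‖ ^ 2 := by ring
        _ ≤ M * A * ‖w‖ ^ (1 + θ) := mul_le_mul_of_nonneg_left e5 (by positivity)
    · calc _ ≤ 1 * ((L + M) * B * ‖w‖ ^ (1 + θ)) :=
            mul_le_mul e4 e3 (norm_nonneg _) zero_le_one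
        _ = _ := one_mul _

-- TARGET
theorem LHe (hKE2 : T_KE2) (hLHa : T_LHa) (hLHb : T_LHb) (hC1 : T_C1) : T_LHe := by
  intro g θ L R hθ hθ1 hg hR
  have hgc := LHe_cont hθ hg
  obtain ⟨M, hM⟩ : ∃ M, ∀ w, ‖g w‖ ≤ M := by
    obtain ⟨M, hM⟩ := (isCompact_closedBall (0 : ℂ) R).exists_bound_of_continuousOn hgc.continuousOn
    refine ⟨max M 0, fun w => ?_⟩
    by_cases h : ‖w‖ ≤ R
    · exact (hM w (by simpa using h)).trans (le_max_left _ _)
    · rw [hR w (not_le.1 h), norm_zero]; exact le_max_right _ _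
  refine ⟨fun z => ?_, fun z => fderiv ℝ (Ct g) z, ?_⟩
  · refine LHe_int hKE2 (hgc.measurable.div
      (measurable_const.sub measurable_id)).aestronglyMeasurable (z := z) (s := 1) (by norm_num)
      (C := M) (ρ := R) (fun ζ => ?_) (fun ζ hζ => by rw [hR ζ hζ, zero_div])
    rw [norm_div, Real.rpow_neg_one, div_eq_mul_inv]
    exact mul_le_mul_of_nonneg_right (hM ζ) (inv_nonneg.2 (norm_nonneg _))
  · have hD : ∀ (z : ℂ) (E : ℂ →L[ℝ] ℂ) (C : ℝ), (∀ w : ℂ, ‖w‖ ≤ 1 →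
        ‖Ct g (z + w) - Ct g z - E w‖ ≤ C * ‖w‖ ^ (1 + θ)) → fderiv ℝ (Ct g) z = E := by
      intro z E C hE
      refine HasFDerivAt.fderiv ?_
      rw [hasFDerivAt_iff_isLittleO_nhds_zero]
      have h1 : (fun w : ℂ => Ct g (z + w) - Ct g z - E w) =O[𝓝 0] fun w => ‖w‖ ^ (1 + θ) := by
        refine Asymptotics.IsBigO.of_bound C ?_
        filter_upwards [Metric.closedBall_mem_nhds (0 : ℂ) one_pos] with w hw
        rw [mem_closedBall_zero_iff] at hw
        rw [Real.norm_of_nonneg (Real.rpow_nonneg (norm_nonneg _) _)]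
        exact hE w hw
      refine h1.trans_isLittleO ?_
      rw [Asymptotics.isLittleO_iff]
      intro c hc
      have h2 : Tendsto (fun w : ℂ => ‖w‖ ^ θ) (𝓝 0) (𝓝 0) := by
        have h3 : ContinuousAt (fun w : ℂ => ‖w‖ ^ θ) 0 :=
          ContinuousAt.rpow_const (by fun_prop) (Or.inr hθ.le)
        have h4 := h3.tendsto
        simp only [norm_zero, Real.zero_rpow hθ.ne'] at h4
        exact h4
      filter_upwards [h2.eventually (eventually_le_nhds hc)] with w hw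
      rw [Real.norm_of_nonneg (Real.rpow_nonneg (norm_nonneg _) _)]
      by_cases hw0 : w = 0
      · rw [hw0, norm_zero, Real.zero_rpow (by linarith), mul_zero]
      · rw [Real.rpow_add (norm_pos_iff.2 hw0), Real.rpow_one, mul_comm]
        exact mul_le_mul_of_nonneg_right hw (norm_nonneg _)
    constructor
    · intro z
      obtain ⟨C, -, hC⟩ := LHe_key hKE2 hLHa hLHb hC1 hθ hθ1 hg hR ‖z‖
      obtain ⟨E, hE1, hE2⟩ := hC z le_rfl
      simp only
      rw [hD z E C hE2]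
      exact hE1
    · intro R'
      obtain ⟨C, hC0, hC⟩ := LHe_key hKE2 hLHa hLHb hC1 hθ hθ1 hg hR R'
      refine ⟨C, hC0, fun z w hz hw => ?_⟩
      obtain ⟨E, hE1, hE2⟩ := hC z hz
      simp only
      rw [hD z E C hE2]
      exact hE2 w hw

end Pool.Agent.Helper614.HE.P_LHe
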