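import Pool.Agent.Helper614.HE.SpecC
set_option autoImplicit false

open scoped Manifold ContDiff Matrix ComplexOrder
open Matrix Topology MeasureTheory Set Filter

namespace Pool.Agent.Helper614.HE.P_LHf

open Pool.Agent.Helper614.HE



/-
PROOF OF THE TARGET IN WORDS
If L < 0 the hypothesis is contradictory (take two distinct points of the ball); or replace L by |L|. On B(z0,r) f is bounded, by |f(z0)| + |L| r^theta =: A. chi is C^1 and vanishes outside
B(z0,r'), so it has compact support, is bounded by a constant and Lipschitz with a constant; and a bounded Lipschitz function is Hoelder: |chi(w)-chi(w')| <= C |w-w'|^theta for all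
w, w' (if |w-w'| <= 1 use |w-w'| <= |w-w'|^theta, otherwise boundedness). Cases: both points in B(z0,r): |chi(w)f(w) - chi(w')f(w')| <= |chi(w)| |f(w)-f(w')| + |f(w')| |chi(w)-chi(w')|.
One point, say w', outside B(z0,r): chi(w') = 0, and if w is outside B(z0,r') also chi(w) = 0 and the difference is 0; if w is in B(z0,r') then the difference is chi(w) f(w) =
(chi(w) - chi(w')) f(w), at most C |w-w'|^theta A. Both outside: 0.
-/
-- TARGET
theorem LHf : T_LHf := by
  intro f χ z0 r r' θ L hr' hr hθ0 hθ1 hf hχ hχ0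
  have hr0 : 0 < r := hr'.trans hr
  have hcs : HasCompactSupport χ := by
    refine HasCompactSupport.intro (isCompact_closedBall z0 r') fun x hx => ?_
    exact hχ0 x fun h => hx (Metric.ball_subset_closedBall h)
  obtain ⟨M, hM⟩ := hχ.continuous.bounded_above_of_compact_support hcs
  obtain ⟨K, hK⟩ := hχ.lipschitzWith_of_hasCompactSupport hcs (by norm_num)
  have hM0 : 0 ≤ M := (norm_nonneg _).trans (hM z0)
  have hhol : ∀ w w', ‖χ w - χ w'‖ ≤ ((K : ℝ) + 2 * M) * ‖w - w'‖ ^ θ := by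
    intro w w'
    have hd : 0 ≤ ‖w - w'‖ := norm_nonneg _
    have hp : 0 ≤ ‖w - w'‖ ^ θ := Real.rpow_nonneg hd _
    have hK0 : (0 : ℝ) ≤ K := K.2
    rcases le_total ‖w - w'‖ 1 with h | h
    · have h1 : ‖χ w - χ w'‖ ≤ K * ‖w - w'‖ := hK.norm_sub_le w w'
      have h2 : ‖w - w'‖ ≤ ‖w - w'‖ ^ θ := by
        conv_lhs => rw [← Real.rpow_one ‖w - w'‖]
        exact Real.rpow_le_rpow_of_exponent_ge_of_imp hd h hθ1.le (fun _ h => absurd h one_ne_zero)
      have h3 : (K : ℝ) * ‖w - w'‖ ≤ K * ‖w - w'‖ ^ θ := mul_le_mul_of_nonneg_left h2 hK0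
      have h4 : 0 ≤ 2 * M * ‖w - w'‖ ^ θ := by positivity
      linarith
    · have h1 : ‖χ w - χ w'‖ ≤ 2 * M := by
        refine (norm_sub_le _ _).trans ?_
        linarith [hM w, hM w']
      have h2 : 1 ≤ ‖w - w'‖ ^ θ := Real.one_le_rpow h hθ0.le
      have h3 : 2 * M * 1 ≤ 2 * M * ‖w - w'‖ ^ θ := mul_le_mul_of_nonneg_left h2 (by positivity)
      have h4 : 0 ≤ (K : ℝ) * ‖w - w'‖ ^ θ := by positivity
      linarith
  set A : ℝ := ‖f z0‖ + |L| * r ^ θ with hA
  have hA0 : 0 ≤ A := by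
    have : 0 ≤ r ^ θ := Real.rpow_nonneg hr0.le _
    positivity
  have hfA : ∀ w ∈ Metric.ball z0 r, ‖f w‖ ≤ A := by
    intro w hw
    have h1 := hf w hw z0 (Metric.mem_ball_self hr0)
    have h2 : ‖f w‖ ≤ ‖f z0‖ + ‖f w - f z0‖ := by
      have := norm_add_le (f z0) (f w - f z0)
      rwa [add_sub_cancel] at this
    have h3 : ‖w - z0‖ ≤ r := (mem_ball_iff_norm.1 hw).le
    have h4 : L * ‖w - z0‖ ^ θ ≤ |L| * r ^ θ := by
      refine mul_le_mul (le_abs_self L) (Real.rpow_le_rpow (norm_nonneg _) h3 hθ0.le)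
        (Real.rpow_nonneg (norm_nonneg _) _) (abs_nonneg _)
    linarith
  have hmixed : ∀ w w', w ∈ Metric.ball z0 r → w' ∉ Metric.ball z0 r →
      ‖χ w * f w - χ w' * f w'‖ ≤ (M * |L| + A * ((K : ℝ) + 2 * M)) * ‖w - w'‖ ^ θ := by
    intro w w' hw hw'
    have h1 : χ w' = 0 := hχ0 w' fun h => hw' (Metric.ball_subset_ball hr.le h)
    have h2 : χ w * f w - χ w' * f w' = (χ w - χ w') * f w := by
      rw [h1]
      ring
    rw [h2, norm_mul]
    have h3 := hhol w w'
    have h4 := hfA w hw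
    have hp : 0 ≤ ‖w - w'‖ ^ θ := Real.rpow_nonneg (norm_nonneg _) _
    have h5 : ‖χ w - χ w'‖ * ‖f w‖ ≤ (((K : ℝ) + 2 * M) * ‖w - w'‖ ^ θ) * A :=
      mul_le_mul h3 h4 (norm_nonneg _) (by positivity)
    have h6 : 0 ≤ M * |L| * ‖w - w'‖ ^ θ := by positivity
    nlinarith
  refine ⟨M * |L| + A * ((K : ℝ) + 2 * M), fun w w' => ?_⟩
  have hp : 0 ≤ ‖w - w'‖ ^ θ := Real.rpow_nonneg (norm_nonneg _) _
  by_cases hw : w ∈ Metric.ball z0 r
  · by_cases hw' : w' ∈ Metric.ball z0 r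
    · have h1 : χ w * f w - χ w' * f w' = χ w * (f w - f w') + (χ w - χ w') * f w' := by ring
      rw [h1]
      refine (norm_add_le _ _).trans ?_
      rw [norm_mul, norm_mul]
      have h2 : ‖f w - f w'‖ ≤ |L| * ‖w - w'‖ ^ θ :=
        (hf w hw w' hw').trans (mul_le_mul_of_nonneg_right (le_abs_self L) hp)
      have h3 : ‖χ w‖ * ‖f w - f w'‖ ≤ M * (|L| * ‖w - w'‖ ^ θ) :=
        mul_le_mul (hM w) h2 (norm_nonneg _) hM0
      have h4 : ‖χ w - χ w'‖ * ‖f w'‖ ≤ (((K : ℝ) + 2 * M) * ‖w - w'‖ ^ θ) * A :=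
        mul_le_mul (hhol w w') (hfA w' hw') (norm_nonneg _) (by positivity)
      nlinarith
    · exact hmixed w w' hw hw'
  · by_cases hw' : w' ∈ Metric.ball z0 r
    · have h := hmixed w' w hw' hw
      rwa [norm_sub_rev, norm_sub_rev w' w] at h
    · have h1 : χ w = 0 := hχ0 w fun h => hw (Metric.ball_subset_ball hr.le h)
      have h2 : χ w' = 0 := hχ0 w' fun h => hw' (Metric.ball_subset_ball hr.le h)
      rw [h1, h2, zero_mul, zero_mul, sub_zero, norm_zero]
      positivity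

end Pool.Agent.Helper614.HE.P_LHf
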