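import Pool.Agent.Helper614.HE.SpecC
set_option autoImplicit false

open scoped Manifold ContDiff Matrix ComplexOrder
open Matrix Topology MeasureTheory Set Filter

namespace Pool.Agent.Helper614.HE.P_LIP

open Pool.Agent.Helper614.HE

theorem LIP (hOM : T_OM) (hPT1 : T_PT1) (hPT2 : T_PT2) (hLIP1 : T_LIP1) (hLIP2 : T_LIP2)
    (hLOG : T_LOG) (hCTB : T_CTB) (hKE : T_KE) : T_LIP := by
  obtain ⟨K1, hK1, h1⟩ := hPT1
  obtain ⟨K2, hK2, h2⟩ := hPT2
  obtain ⟨L1, hL1, l1⟩ := hLIP1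
  obtain ⟨L2, hL2, l2⟩ := hLIP2
  obtain ⟨KL, hKL, hl⟩ := hLOG
  obtain ⟨KC, hKC, hc⟩ := hCTB
  obtain ⟨-, -, -, hOmp, -, -, -, -, -, hOmr, -, -⟩ := hOM
  set A := KL * L2 with hA
  set Bc := L2 * (KC * (K1 * K2)) + K2 * (KC * (L1 * K2 + K1 * L2)) with hBc
  have hA0 : 0 < A := by positivity
  have hB0 : 0 < Bc := by positivity
  refine ⟨A + Bc, by positivity, ?_⟩
  intro τ hτ κ hκ w w' x x' hw hw' δ hδ1 hδ2
  have hδ : 0 ≤ δ := (abs_nonneg _).trans (hδ1 0)
  obtain ⟨cu, -, eu, -⟩ := h1 τ hτ κ hκ w x hw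
  obtain ⟨cu', -, eu', -⟩ := h1 τ hτ κ hκ w' x' hw'
  obtain ⟨bb, cb, -, -, -, -, -, -, -, ka, kb, -, hQ, mQ, -, -⟩ := h2 τ hτ κ hκ w x hw
  obtain ⟨bb', cb', -, -, -, -, -, -, -, ka', kb', -, hQ', mQ', -, -⟩ := h2 τ hτ κ hκ w' x' hw'
  obtain ⟨m1, -, -⟩ := l1 τ hτ κ hκ w w' x x' hw hw' δ hδ1 hδ2
  obtain ⟨n1, -, -, n4, n5⟩ := l2 τ hτ κ hκ w w' x x' hw hw' δ hδ1 hδ2
  constructor
  · intro z
    have hq1 := hl (QF τ κ w x) K2 mQ hK2.le (fun v => by
      rw [abs_of_nonneg (hQ v).1]; exact (hQ v).2)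
    have hq2 := hl (QF τ κ w' x') K2 mQ' hK2.le (fun v => by
      rw [abs_of_nonneg (hQ' v).1]; exact (hQ' v).2)
    have hq3 := hl (fun c => QF τ κ w x c - QF τ κ w' x' c) (L2 * δ) (mQ.sub mQ') (by positivity) n5
    have e1 : wS τ κ w x z - wS τ κ w' x' z =
        -(1 / Real.pi) * ∫ c, Lg z c * (QF τ κ w x c - QF τ κ w' x' c) := by
      have : (∫ c, Lg z c * (QF τ κ w x c - QF τ κ w' x' c)) =
          (∫ c, Lg z c * QF τ κ w x c) - ∫ c, Lg z c * QF τ κ w' x' c := by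
        rw [← integral_sub (hq1.2.1 z) (hq2.2.1 z)]
        congr 1
        ext c
        ring
      rw [this]
      unfold wS
      ring
    rw [e1, abs_mul, abs_neg, abs_of_nonneg (by positivity : (0 : ℝ) ≤ 1 / Real.pi)]
    have h3 := hq3.2.2.1 z
    have hpi : (1 / Real.pi : ℝ) ≤ 1 := by
      rw [div_le_one Real.pi_pos]
      linarith [Real.pi_gt_three]
    calc 1 / Real.pi * |∫ c, Lg z c * (QF τ κ w x c - QF τ κ w' x' c)| ≤
        1 * (KL * (L2 * δ)) := by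
          refine mul_le_mul hpi h3 (abs_nonneg _) zero_le_one
      _ = A * δ := by rw [hA]; ring
      _ ≤ (A + Bc) * δ := by nlinarith
  · intro z
    set F := fun c => (Real.exp (uF κ w c) : ℂ) * bF τ κ w x c with hF
    set F' := fun c => (Real.exp (uF κ w' c) : ℂ) * bF τ κ w' x' c with hF'
    have hr : ∀ v : ℂ, (0 : ℝ) < 1 + ‖v‖ ^ 2 := fun v => by positivity
    have cF : Continuous F := (Complex.continuous_ofReal.comp (Real.continuous_exp.comp cu)).mul cb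
    have cF' : Continuous F' :=
      (Complex.continuous_ofReal.comp (Real.continuous_exp.comp cu')).mul cb'
    have bF1 : ∀ v, ‖F v‖ ≤ (K1 * K2) * Om v := by
      intro v
      have h3 : ‖F v‖ ≤ K1 * (K2 / (1 + ‖v‖ ^ 2)) := by
        rw [hF]
        simp only [norm_mul, Complex.norm_real, Real.norm_eq_abs, abs_of_pos (Real.exp_pos _)]
        exact mul_le_mul (eu v) (bb v) (norm_nonneg _) hK1.le
      have h4 : K1 * (K2 / (1 + ‖v‖ ^ 2)) = (K1 * K2) * (1 + ‖v‖ ^ 2)⁻¹ := by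
        rw [div_eq_mul_inv]; ring
      rw [h4] at h3
      exact h3.trans (mul_le_mul_of_nonneg_left (hOmr v) (by positivity))
    have bF2 : ∀ v, ‖F' v‖ ≤ (K1 * K2) * Om v := by
      intro v
      have h3 : ‖F' v‖ ≤ K1 * (K2 / (1 + ‖v‖ ^ 2)) := by
        rw [hF']
        simp only [norm_mul, Complex.norm_real, Real.norm_eq_abs, abs_of_pos (Real.exp_pos _)]
        exact mul_le_mul (eu' v) (bb' v) (norm_nonneg _) hK1.le
      have h4 : K1 * (K2 / (1 + ‖v‖ ^ 2)) = (K1 * K2) * (1 + ‖v‖ ^ 2)⁻¹ := by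
        rw [div_eq_mul_inv]; ring
      rw [h4] at h3
      exact h3.trans (mul_le_mul_of_nonneg_left (hOmr v) (by positivity))
    have bF3 : ∀ v, ‖F v - F' v‖ ≤ ((L1 * K2 + K1 * L2) * δ) * Om v := by
      intro v
      have e3 : F v - F' v = ((Real.exp (uF κ w v) - Real.exp (uF κ w' v) : ℝ) : ℂ) *
          bF τ κ w x v + (Real.exp (uF κ w' v) : ℂ) * (bF τ κ w x v - bF τ κ w' x' v) := by
        rw [hF, hF']
        push_cast
        ring
      have h3 : ‖F v - F' v‖ ≤ (L1 * δ) * (K2 / (1 + ‖v‖ ^ 2)) + K1 * (L2 * δ / (1 + ‖v‖ ^ 2)) := by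
        rw [e3]
        refine (norm_add_le _ _).trans (add_le_add ?_ ?_)
        · rw [norm_mul, Complex.norm_real, Real.norm_eq_abs]
          exact mul_le_mul (m1 v) (bb v) (norm_nonneg _) (by positivity)
        · rw [norm_mul, Complex.norm_real, Real.norm_eq_abs, abs_of_pos (Real.exp_pos _)]
          exact mul_le_mul (eu' v) (n1 v) (norm_nonneg _) hK1.le
      have h4 : (L1 * δ) * (K2 / (1 + ‖v‖ ^ 2)) + K1 * (L2 * δ / (1 + ‖v‖ ^ 2)) =
          ((L1 * K2 + K1 * L2) * δ) * (1 + ‖v‖ ^ 2)⁻¹ := by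
        rw [div_eq_mul_inv, div_eq_mul_inv]; ring
      rw [h4] at h3
      exact h3.trans (mul_le_mul_of_nonneg_left (hOmr v) (by positivity))
    obtain ⟨i1, b1, -⟩ := hc F (K1 * K2) cF.measurable (by positivity) bF1
    obtain ⟨i2, b2, -⟩ := hc F' (K1 * K2) cF'.measurable (by positivity) bF2
    obtain ⟨i3, b3, -⟩ := hc (fun v => F v - F' v) ((L1 * K2 + K1 * L2) * δ)
      (cF.sub cF').measurable (by positivity) bF3
    have e4 : Ct (fun v => F v - F' v) z = Ct F z - Ct F' z := by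
      unfold Ct
      rw [← mul_sub, ← integral_sub (i1 z) (i2 z)]
      congr 2
      ext c
      ring
    have e5 : xS τ κ w x z - xS τ κ w' x' z =
        ((aF τ κ w x - aF τ κ w' x' : ℝ) : ℂ) * Ct F z +
          (aF τ κ w' x' : ℂ) * Ct (fun v => F v - F' v) z := by
      have x1 : xS τ κ w x z = (aF τ κ w x : ℂ) * Ct F z := rfl
      have x2 : xS τ κ w' x' z = (aF τ κ w' x' : ℂ) * Ct F' z := rfl
      rw [e4, x1, x2, Complex.ofReal_sub]
      ring
    have ha' : 0 ≤ aF τ κ w' x' := (inv_pos.mpr hK2).le.trans ka'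
    rw [e5]
    calc ‖((aF τ κ w x - aF τ κ w' x' : ℝ) : ℂ) * Ct F z +
          (aF τ κ w' x' : ℂ) * Ct (fun v => F v - F' v) z‖ ≤
        (L2 * δ) * (KC * (K1 * K2)) + K2 * (KC * ((L1 * K2 + K1 * L2) * δ)) := by
          refine (norm_add_le _ _).trans (add_le_add ?_ ?_)
          · rw [norm_mul, Complex.norm_real, Real.norm_eq_abs]
            exact mul_le_mul n4 (b1 z) (norm_nonneg _) (by positivity)
          · rw [norm_mul, Complex.norm_real, Real.norm_eq_abs, abs_of_nonneg ha']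
            exact mul_le_mul kb' (b3 z) (norm_nonneg _) hK2.le
      _ = Bc * δ := by rw [hBc]; ring
      _ ≤ (A + Bc) * δ := by nlinarith

end Pool.Agent.Helper614.HE.P_LIP
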