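import Pool.Agent.Helper614.HE.SpecC
set_option autoImplicit false

open scoped Manifold ContDiff Matrix ComplexOrder
open Matrix Topology MeasureTheory Set Filter

namespace Pool.Agent.Helper614.HE.P_LIP1

open Pool.Agent.Helper614.HE



/-- mean value estimate for the exponential -/
theorem LIP1_exp {a b d M : ℝ} (ha : Real.exp a ≤ M) (hb : Real.exp b ≤ M) (h : |a - b| ≤ d) :
    |Real.exp a - Real.exp b| ≤ M * d := by
  have key : ∀ s t : ℝ, s ≤ t → Real.exp t ≤ M → |s - t| ≤ d →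
      |Real.exp s - Real.exp t| ≤ M * d := by
    intro s t hst ht hd
    have h1 : Real.exp s = Real.exp t * Real.exp (s - t) := by
      rw [← Real.exp_add]
      congr 1
      ring
    have h2 : s - t + 1 ≤ Real.exp (s - t) := Real.add_one_le_exp _
    have h3 : Real.exp s ≤ Real.exp t := Real.exp_le_exp.2 hst
    have h4 : 0 < Real.exp t := Real.exp_pos t
    have h5 : t - s ≤ d := by
      rw [abs_le] at hd
      linarith [hd.1]
    rw [abs_sub_comm, abs_of_nonneg (by linarith)]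
    have h6 : 0 ≤ t - s := by linarith
    calc Real.exp t - Real.exp s = Real.exp t * (1 - Real.exp (s - t)) := by rw [h1]; ring
      _ ≤ Real.exp t * (t - s) := by
          apply mul_le_mul_of_nonneg_left _ h4.le
          linarith
      _ ≤ M * d := mul_le_mul ht h5 h6 (h4.le.trans ht)
  rcases le_total a b with hab | hab
  · exact key a b hab hb h
  · rw [abs_sub_comm]
    exact key b a hab ha (by rw [abs_sub_comm]; exact h)

-- TARGET
theorem LIP1 (hOM : T_OM) (hPT1 : T_PT1) : T_LIP1 := by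
  obtain ⟨-, -, hW0, -, -, -, -, -, -, -, hWO, -⟩ := hOM
  obtain ⟨K, hK, hP⟩ := hPT1
  refine ⟨4 * (K + K ^ 2 + K ^ 3), by positivity, ?_⟩
  intro τ hτ κ hκ w w' x x' hB hB' δ hw hx
  obtain ⟨-, -, hu, hum, hum2, -, -, hp, hf, -, -, -, -, -, -, -⟩ := hP τ hτ κ hκ w x hB
  obtain ⟨-, -, hu', hum', hum2', -, -, hp', -, -, -, -, -, -, -, -⟩ := hP τ hτ κ hκ w' x' hB'
  have hδ : 0 ≤ δ := (abs_nonneg _).trans (hw 0)
  have hK1 : K ≤ 4 * (K + K ^ 2 + K ^ 3) := by nlinarith [pow_pos hK 2, pow_pos hK 3]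
  have hud : ∀ z, |uF κ w z - uF κ w' z| ≤ δ := by
    intro z
    have : uF κ w z - uF κ w' z = w z - w' z := by unfold uF; ring
    rw [this]
    exact hw z
  have hR1 : ∀ z : ℂ, (1 : ℝ) ≤ 1 + ‖z‖ ^ 2 := fun z => by
    have := sq_nonneg ‖z‖
    linarith
  -- the main factor
  have hmain : ∀ (z : ℂ) (c : ℝ), 0 ≤ c →
      W z * ((1 + ‖z‖ ^ 2) ^ 2 * (1 + ‖z‖ ^ 2) ^ (1 / 8 : ℝ)) * (c * δ) ≤
        c * δ * (Om z / (1 + ‖z‖ ^ 2)) := by
    intro z c hc
    have hpos : (0 : ℝ) < 1 + ‖z‖ ^ 2 := lt_of_lt_of_le one_pos (hR1 z)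
    have e : (1 + ‖z‖ ^ 2) ^ 2 * (1 + ‖z‖ ^ 2) ^ (1 / 8 : ℝ) = (1 + ‖z‖ ^ 2) ^ (17 / 8 : ℝ) := by
      rw [← Real.rpow_natCast, ← Real.rpow_add hpos]
      congr 1
      norm_num
    rw [e, mul_comm (c * δ)]
    exact mul_le_mul_of_nonneg_right (hWO z) (mul_nonneg hc hδ)
  have hpd : ∀ z, ‖pF τ x z - pF τ x' z‖ ≤ 2 * (1 + ‖z‖ ^ 2) * δ := by
    intro z
    have e : pF τ x z - pF τ x' z = 2 * f1 z * (x z - x' z) := by unfold pF; ring
    rw [e, norm_mul, norm_mul, Complex.norm_two]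
    have h1 := hf z
    have h2 := hx z
    have h3 := norm_nonneg (f1 z)
    have h4 := hR1 z
    exact mul_le_mul (by linarith) h2 (norm_nonneg _) (by linarith)
  have he1 : ∀ z, |Real.exp (-uF κ w z) - Real.exp (-uF κ w' z)| ≤
      K * (1 + ‖z‖ ^ 2) ^ (1 / 16 : ℝ) * δ := by
    intro z
    refine LIP1_exp (hum z) (hum' z) ?_
    rw [abs_sub_comm]
    have e : -uF κ w' z - -uF κ w z = uF κ w z - uF κ w' z := by ring
    rw [e]
    exact hud z
  have he2 : ∀ z, |Real.exp (-2 * uF κ w z) - Real.exp (-2 * uF κ w' z)| ≤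
      K * (1 + ‖z‖ ^ 2) ^ (1 / 8 : ℝ) * (2 * δ) := by
    intro z
    refine LIP1_exp (hum2 z) (hum2' z) ?_
    have e : -2 * uF κ w z - -2 * uF κ w' z = -2 * (uF κ w z - uF κ w' z) := by ring
    rw [e, abs_mul]
    have : |(-2 : ℝ)| = 2 := by norm_num
    rw [this]
    linarith [hud z]
  refine ⟨?_, ?_, ?_⟩
  · intro z
    refine (LIP1_exp (hu z) (hu' z) (hud z)).trans ?_
    exact mul_le_mul_of_nonneg_right hK1 hδ
  · intro z
    set R : ℝ := 1 + ‖z‖ ^ 2 with hR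
    have hRp : 1 ≤ R := hR1 z
    have hR0 : 0 ≤ R := by linarith
    set r : ℝ := R ^ (1 / 8 : ℝ) with hr
    have hr0 : 0 ≤ r := Real.rpow_nonneg hR0 _
    have e : GF τ κ w x z - GF τ κ w' x' z =
        ((W z : ℝ) : ℂ) * ((starRingEnd ℂ) (f1 z) *
          (((Real.exp (-2 * uF κ w z) - Real.exp (-2 * uF κ w' z) : ℝ) : ℂ) * pF τ x z +
            ((Real.exp (-2 * uF κ w' z) : ℝ) : ℂ) * (pF τ x z - pF τ x' z))) := by
      unfold GF
      push_cast
      ring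
    rw [e, norm_mul, norm_mul, Complex.norm_real, Real.norm_of_nonneg (hW0 z), RCLike.norm_conj]
    have h1 : ‖(((Real.exp (-2 * uF κ w z) - Real.exp (-2 * uF κ w' z) : ℝ) : ℂ) * pF τ x z +
            ((Real.exp (-2 * uF κ w' z) : ℝ) : ℂ) * (pF τ x z - pF τ x' z))‖ ≤
        (K * r * (2 * δ)) * (K * R) + (K * r) * (2 * R * δ) := by
      refine (norm_add_le _ _).trans ?_
      rw [norm_mul, norm_mul, Complex.norm_real, Complex.norm_real, Real.norm_eq_abs,
        Real.norm_of_nonneg (Real.exp_pos _).le]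
      refine add_le_add ?_ ?_
      · exact mul_le_mul (he2 z) (hp z) (norm_nonneg _) (by positivity)
      · exact mul_le_mul (hum2' z) (hpd z) (norm_nonneg _) (by positivity)
    have h2 : ‖f1 z‖ * ‖(((Real.exp (-2 * uF κ w z) - Real.exp (-2 * uF κ w' z) : ℝ) : ℂ) *
            pF τ x z + ((Real.exp (-2 * uF κ w' z) : ℝ) : ℂ) * (pF τ x z - pF τ x' z))‖ ≤
        R * ((K * r * (2 * δ)) * (K * R) + (K * r) * (2 * R * δ)) :=
      mul_le_mul (hf z) h1 (norm_nonneg _) hR0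
    refine (mul_le_mul_of_nonneg_left h2 (hW0 z)).trans ?_
    have h3 : W z * (R * ((K * r * (2 * δ)) * (K * R) + (K * r) * (2 * R * δ))) =
        W z * (R ^ 2 * r) * ((2 * K ^ 2 + 2 * K) * δ) := by ring
    rw [h3]
    refine le_trans ?_ (hmain z (4 * (K + K ^ 2 + K ^ 3)) (by positivity))
    refine mul_le_mul_of_nonneg_left ?_ (mul_nonneg (hW0 z) (by positivity))
    refine mul_le_mul_of_nonneg_right ?_ hδ
    nlinarith [pow_pos hK 2, pow_pos hK 3]
  · intro z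
    set R : ℝ := 1 + ‖z‖ ^ 2 with hR
    have hRp : 1 ≤ R := hR1 z
    have hR0 : 0 ≤ R := by linarith
    set r : ℝ := R ^ (1 / 8 : ℝ) with hr
    have hr0 : 0 ≤ r := Real.rpow_nonneg hR0 _
    have hrr : R ^ (1 / 16 : ℝ) ≤ r := Real.rpow_le_rpow_of_exponent_le hRp (by norm_num)
    have e : nF τ κ w x z - nF τ κ w' x' z =
        W z * (‖f1 z‖ ^ 2 * (Real.exp (-uF κ w z) - Real.exp (-uF κ w' z)) +
          ‖pF τ x z‖ ^ 2 * (Real.exp (-2 * uF κ w z) - Real.exp (-2 * uF κ w' z)) +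
          ((‖pF τ x z‖ - ‖pF τ x' z‖) * (‖pF τ x z‖ + ‖pF τ x' z‖)) *
            Real.exp (-2 * uF κ w' z)) := by
      unfold nF
      ring
    rw [e, abs_mul, abs_of_nonneg (hW0 z)]
    have a1 : |‖f1 z‖ ^ 2 * (Real.exp (-uF κ w z) - Real.exp (-uF κ w' z))| ≤
        R ^ 2 * (K * r * δ) := by
      rw [abs_mul, abs_of_nonneg (sq_nonneg ‖f1 z‖)]
      refine mul_le_mul (pow_le_pow_left₀ (norm_nonneg _) (hf z) 2) ?_ (abs_nonneg _)
        (by positivity)
      refine (he1 z).trans ?_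
      exact mul_le_mul_of_nonneg_right (mul_le_mul_of_nonneg_left hrr hK.le) hδ
    have a2 : |‖pF τ x z‖ ^ 2 * (Real.exp (-2 * uF κ w z) - Real.exp (-2 * uF κ w' z))| ≤
        (K * R) ^ 2 * (K * r * (2 * δ)) := by
      rw [abs_mul, abs_of_nonneg (sq_nonneg ‖pF τ x z‖)]
      exact mul_le_mul (pow_le_pow_left₀ (norm_nonneg _) (hp z) 2) (he2 z) (abs_nonneg _)
        (by positivity)
    have a3 : |((‖pF τ x z‖ - ‖pF τ x' z‖) * (‖pF τ x z‖ + ‖pF τ x' z‖)) *
            Real.exp (-2 * uF κ w' z)| ≤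
        ((2 * R * δ) * (K * R + K * R)) * (K * r) := by
      rw [abs_mul, abs_mul, abs_of_nonneg (Real.exp_pos _).le,
        abs_of_nonneg (add_nonneg (norm_nonneg (pF τ x z)) (norm_nonneg (pF τ x' z)))]
      refine mul_le_mul ?_ (hum2' z) (Real.exp_pos _).le (by positivity)
      refine mul_le_mul ?_ (add_le_add (hp z) (hp' z)) (by positivity) (by positivity)
      exact (abs_norm_sub_norm_le _ _).trans (hpd z)
    have a4 := (abs_add_le (‖f1 z‖ ^ 2 * (Real.exp (-uF κ w z) - Real.exp (-uF κ w' z)) +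
          ‖pF τ x z‖ ^ 2 * (Real.exp (-2 * uF κ w z) - Real.exp (-2 * uF κ w' z)))
          (((‖pF τ x z‖ - ‖pF τ x' z‖) * (‖pF τ x z‖ + ‖pF τ x' z‖)) *
            Real.exp (-2 * uF κ w' z))).trans
          (add_le_add ((abs_add_le _ _).trans (add_le_add a1 a2)) a3)
    refine (mul_le_mul_of_nonneg_left a4 (hW0 z)).trans ?_
    have h3 : W z * (R ^ 2 * (K * r * δ) + (K * R) ^ 2 * (K * r * (2 * δ)) +
        ((2 * R * δ) * (K * R + K * R)) * (K * r)) =
        W z * (R ^ 2 * r) * ((K + 2 * K ^ 3 + 4 * K ^ 2) * δ) := by ring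
    rw [h3]
    refine le_trans ?_ (hmain z (4 * (K + K ^ 2 + K ^ 3)) (by positivity))
    refine mul_le_mul_of_nonneg_left ?_ (mul_nonneg (hW0 z) (by positivity))
    refine mul_le_mul_of_nonneg_right ?_ hδ
    nlinarith [pow_pos hK 2, pow_pos hK 3]

end Pool.Agent.Helper614.HE.P_LIP1
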