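import Pool.Agent.Helper614.HE.SpecC
set_option autoImplicit false

open scoped Manifold ContDiff Matrix ComplexOrder
open Matrix Topology MeasureTheory Set Filter

namespace Pool.Agent.Helper614.HE.P_LOG1

open Pool.Agent.Helper614.HE



/-
PROOF OF THE TARGET IN WORDS
Write rho(z) = 1+|z|^2. Q is integrable: |Q| <= c Om/rho(w) <= c Om(w) |w|^{-1} (w not 0), KE with z=0, s=1.
Bound of Lg z w = log(|z-w|^2/rho(z)) for w not z. Above: |z-w|^2 <= 2|z|^2 + 2|w|^2 <= 2 rho(z) rho(w), so Lg <= log(2 rho(w)) <= 2 rho(w)^{1/2}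
(log x <= 2 (x^{1/2} - 1) <= 2 x^{1/2} type bounds; any constant will do). Below: rho(z) <= 1 + 2|z-w|^2 + 2|w|^2 <= 2 (rho(w) + |z-w|^2), so
-Lg = log(rho(z)/|z-w|^2) <= log(2 (1 + rho(w)/|z-w|^2)) <= log 2 + 2 log(1 + rho(w)^{1/2}/|z-w|) <= 1 + 2 rho(w)^{1/2}/|z-w|.
So |Lg z w| <= C (rho(w)^{1/2} + rho(w)^{1/2} |z-w|^{-1}), and |Lg Q| <= C c (Om(w) rho(w)^{-1/2} + Om(w) |z-w|^{-1}); Om rho^{-1/2} <= Om |w|^{-1}
for w not 0 (KE with z = 0, s = 1), second KE with s = 1. So Lg Q is integrable and |int Lg Q| <= 2 C K c. (At w = z Lg = 0; measurability is clear.)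
Last formula: for w not z, log|z-w|^2 = Lg z w + log rho(z) (Real.log_div), almost every w; integrate. The integrability of log|z-w|^2 Q follows.
-/

lemma LOG1_up (a b d r : ℝ) (ha : 0 ≤ a) (hb : 0 ≤ b) (hd : 0 < d) (hr : 1 ≤ r)
    (hr2 : r ^ 2 = 1 + b ^ 2) (h : d ≤ a + b) :
    Real.log (d ^ 2 / (1 + a ^ 2)) ≤ 2 * r := by
  have h1 : d ^ 2 / (1 + a ^ 2) ≤ 2 * r ^ 2 := by
    rw [div_le_iff₀ (by positivity), hr2]
    nlinarith [sq_nonneg (a - b), mul_nonneg ha hb, sq_nonneg (a * b)]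
  have h2 : Real.log (d ^ 2 / (1 + a ^ 2)) ≤ Real.log (2 * r ^ 2) :=
    Real.log_le_log (by positivity) h1
  have h3 : Real.log (2 * r ^ 2) = Real.log 2 + 2 * Real.log r := by
    rw [Real.log_mul (by norm_num) (by positivity), Real.log_pow]
    norm_num
  have h4 : Real.log r ≤ r - 1 := Real.log_le_sub_one_of_pos (by linarith)
  have h5 : Real.log 2 ≤ 1 := by
    have := Real.log_le_sub_one_of_pos (show (0 : ℝ) < 2 by norm_num)
    linarith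
  linarith

lemma LOG1_lo (a b d r : ℝ) (ha : 0 ≤ a) (hb : 0 ≤ b) (hd : 0 < d) (hr : 1 ≤ r)
    (hr2 : r ^ 2 = 1 + b ^ 2) (h : a ≤ d + b) :
    -Real.log (d ^ 2 / (1 + a ^ 2)) ≤ 1 + 2 * (r / d) := by
  rw [← Real.log_inv, inv_div]
  have h1 : (1 + a ^ 2) / d ^ 2 ≤ 2 * (1 + r / d) ^ 2 := by
    rw [div_le_iff₀ (by positivity)]
    have e : 2 * (1 + r / d) ^ 2 * d ^ 2 = 2 * (d + r) ^ 2 := by
      field_simp
    rw [e]
    nlinarith [sq_nonneg (d - b), mul_nonneg hd.le (by linarith : (0 : ℝ) ≤ r)]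
  have h2 : Real.log ((1 + a ^ 2) / d ^ 2) ≤ Real.log (2 * (1 + r / d) ^ 2) :=
    Real.log_le_log (by positivity) h1
  have hp : 0 < 1 + r / d := by positivity
  have h3 : Real.log (2 * (1 + r / d) ^ 2) = Real.log 2 + 2 * Real.log (1 + r / d) := by
    rw [Real.log_mul (by norm_num) (by positivity), Real.log_pow]
    norm_num
  have h4 : Real.log (1 + r / d) ≤ r / d := by
    have := Real.log_le_sub_one_of_pos hp
    linarith
  have h5 : Real.log 2 ≤ 1 := by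
    have := Real.log_le_sub_one_of_pos (show (0 : ℝ) < 2 by norm_num)
    linarith
  linarith

lemma LOG1_abs (z w : ℂ) (hw : w ≠ z) (hw0 : w ≠ 0) :
    |Lg z w| * (1 + ‖w‖ ^ 2)⁻¹ ≤ 2 * (‖(0 : ℂ) - w‖ ^ (-(1 : ℝ)) + ‖z - w‖ ^ (-(1 : ℝ))) := by
  have hd : 0 < ‖z - w‖ := norm_pos_iff.2 (sub_ne_zero.2 hw.symm)
  have hb : 0 < ‖w‖ := norm_pos_iff.2 hw0
  have h1 : ‖z - w‖ ≤ ‖z‖ + ‖w‖ := norm_sub_le z w
  have h2 : ‖z‖ ≤ ‖z - w‖ + ‖w‖ := by
    have := norm_add_le (z - w) w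
    rwa [sub_add_cancel] at this
  obtain ⟨r, hr0⟩ : ∃ r : ℝ, r = Real.sqrt (1 + ‖w‖ ^ 2) := ⟨_, rfl⟩
  have hr2 : r ^ 2 = 1 + ‖w‖ ^ 2 := by rw [hr0, Real.sq_sqrt (by positivity)]
  have hrn : 0 ≤ r := by rw [hr0]; exact Real.sqrt_nonneg _
  have hr1 : 1 ≤ r := by nlinarith [sq_nonneg ‖w‖]
  have hrb : ‖w‖ ≤ r := by nlinarith
  have hup := LOG1_up ‖z‖ ‖w‖ ‖z - w‖ r (norm_nonneg _) (norm_nonneg _) hd hr1 hr2 h1
  have hlo := LOG1_lo ‖z‖ ‖w‖ ‖z - w‖ r (norm_nonneg _) (norm_nonneg _) hd hr1 hr2 h2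
  have hrd : 0 < r / ‖z - w‖ := by positivity
  have habs : |Lg z w| ≤ 2 * r + 2 * (r / ‖z - w‖) := by
    unfold Lg
    rw [abs_le]
    constructor <;> linarith
  rw [zero_sub, norm_neg, Real.rpow_neg_one, Real.rpow_neg_one, ← hr2]
  have hr0' : 0 < r := by linarith
  calc |Lg z w| * (r ^ 2)⁻¹ ≤ (2 * r + 2 * (r / ‖z - w‖)) * (r ^ 2)⁻¹ :=
        mul_le_mul_of_nonneg_right habs (by positivity)
    _ = 2 * (r⁻¹ + r⁻¹ * ‖z - w‖⁻¹) := by
        field_simp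
    _ ≤ 2 * (‖w‖⁻¹ + ‖z - w‖⁻¹) := by
        have e1 : r⁻¹ ≤ ‖w‖⁻¹ := inv_anti₀ hb hrb
        have e2 : r⁻¹ * ‖z - w‖⁻¹ ≤ 1 * ‖z - w‖⁻¹ :=
          mul_le_mul_of_nonneg_right (inv_le_one_of_one_le₀ hr1) (by positivity)
        linarith

-- TARGET
theorem LOG1 (hKE : T_KE) (hOM : T_OM) : T_LOG1 := by
  obtain ⟨K, hK, hKE⟩ := hKE
  obtain ⟨-, hOmm, -, hOm, -⟩ := hOM
  refine ⟨4 * K, by positivity, ?_⟩
  intro Q c hQ hc hQc
  have hs1 : (1 : ℝ) ∈ Icc (3 / 4 : ℝ) (5 / 4) := by constructor <;> norm_num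
  have hne : ∀ z : ℂ, ∀ᵐ w : ℂ, w ≠ z := fun z => compl_mem_ae_iff.2 (measure_singleton z)
  have hI := fun z => (hKE z 1 hs1).1
  have hB := fun z => (hKE z 1 hs1).2
  have hQi : Integrable Q := by
    refine Integrable.mono' ((hI 0).const_mul c) hQ.aestronglyMeasurable ?_
    filter_upwards [hne 0] with w hw
    have hb : 0 < ‖w‖ := norm_pos_iff.2 hw
    rw [Real.norm_eq_abs]
    refine (hQc w).trans (mul_le_mul_of_nonneg_left ?_ hc)
    rw [zero_sub, norm_neg, Real.rpow_neg_one, div_eq_mul_inv]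
    refine mul_le_mul_of_nonneg_left (inv_anti₀ hb ?_) (hOm w).le
    nlinarith [sq_nonneg (‖w‖ - 1)]
  have hbd : ∀ z : ℂ, ∀ᵐ w : ℂ, ‖Lg z w * Q w‖ ≤
      2 * c * (Om w * ‖(0 : ℂ) - w‖ ^ (-(1 : ℝ)) + Om w * ‖z - w‖ ^ (-(1 : ℝ))) := by
    intro z
    filter_upwards [hne 0, hne z] with w hw0 hwz
    rw [norm_mul, Real.norm_eq_abs, Real.norm_eq_abs]
    have h1 := LOG1_abs z w hwz hw0
    calc |Lg z w| * |Q w| ≤ |Lg z w| * (c * (Om w / (1 + ‖w‖ ^ 2))) :=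
          mul_le_mul_of_nonneg_left (hQc w) (abs_nonneg _)
      _ = c * Om w * (|Lg z w| * (1 + ‖w‖ ^ 2)⁻¹) := by
          rw [div_eq_mul_inv]
          ring
      _ ≤ c * Om w * (2 * (‖(0 : ℂ) - w‖ ^ (-(1 : ℝ)) + ‖z - w‖ ^ (-(1 : ℝ)))) :=
          mul_le_mul_of_nonneg_left h1 (mul_nonneg hc (hOm w).le)
      _ = _ := by ring
  have hmeas : ∀ z : ℂ, Measurable (fun w => Lg z w) := by
    intro z
    unfold Lg
    exact Real.measurable_log.comp (by fun_prop)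
  have hgi : ∀ z : ℂ, Integrable (fun w =>
      2 * c * (Om w * ‖(0 : ℂ) - w‖ ^ (-(1 : ℝ)) + Om w * ‖z - w‖ ^ (-(1 : ℝ)))) := fun z =>
    ((hI 0).add (hI z)).const_mul (2 * c)
  have hLi : ∀ z : ℂ, Integrable (fun w => Lg z w * Q w) := fun z =>
    Integrable.mono' (hgi z) ((hmeas z).mul hQ).aestronglyMeasurable (hbd z)
  have hlog : ∀ z : ℂ, (fun w => Lg z w * Q w + Real.log (1 + ‖z‖ ^ 2) * Q w) =ᵐ[volume]
      (fun w => Real.log (‖z - w‖ ^ 2) * Q w) := by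
    intro z
    filter_upwards [hne z] with w hw
    have hd : 0 < ‖z - w‖ := norm_pos_iff.2 (sub_ne_zero.2 hw.symm)
    unfold Lg
    rw [Real.log_div (by positivity) (by positivity)]
    ring
  refine ⟨hQi, hLi, fun z => ?_, fun z => ?_, fun z => ?_⟩
  · exact ((hLi z).add (hQi.const_mul (Real.log (1 + ‖z‖ ^ 2)))).congr (hlog z)
  · have h1 : |∫ w, Lg z w * Q w| ≤ ∫ w, 2 * c *
        (Om w * ‖(0 : ℂ) - w‖ ^ (-(1 : ℝ)) + Om w * ‖z - w‖ ^ (-(1 : ℝ))) :=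
      norm_integral_le_of_norm_le (hgi z) (hbd z)
    rw [integral_const_mul, integral_add (hI 0) (hI z)] at h1
    refine h1.trans ?_
    have h2 := hB 0
    have h3 := hB z
    calc _ ≤ 2 * c * (K + K) := mul_le_mul_of_nonneg_left (add_le_add h2 h3) (by positivity)
      _ = 4 * K * c := by ring
  · rw [← integral_congr_ae (hlog z), integral_add (hLi z) (hQi.const_mul _), integral_const_mul]

end Pool.Agent.Helper614.HE.P_LOG1
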