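import Pool.Agent.Helper614.HE.SpecC
set_option autoImplicit false

open scoped Manifold ContDiff Matrix ComplexOrder
open Matrix Topology MeasureTheory Set Filter

namespace Pool.Agent.Helper614.HE.P_NLIM

open Pool.Agent.Helper614.HE



/-
PROOF OF THE TARGET IN WORDS
rho = 1+|z|^2. With |w| <= min(1, R kappa), |x| <= min(1, R kappa). |e^{-u} - 1| = |rho^kappa e^{-w} - 1|: since |kappa log rho - w| <= kappa (log rho + R) and |e^t - 1| <= |t| e^{|t|}: <= kappa (log rho + R) e rho^{1/16} and log rho <= 16 rho^{1/16} (Real.log_le_rpow_div), so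
<= C kappa rho^{1/8}. In the same way |e^{-2u} - 1| <= 2 kappa (log rho + R) e^2 rho^{1/8} <= C kappa rho^{1+1/8} (log rho <= rho).
n - W (|f1|^2 + tau |f2|^2) = W [ |f1|^2 (e^{-u} - 1) + (|p|^2 - tau |f2|^2) e^{-2u} + tau |f2|^2 (e^{-2u} - 1) ], and: |f1|^2 <= rho^2; ||p|^2 - tau |f2|^2| <= |2 f1 x| (|p| + sqrt(tau)|f2|) <= 2 rho R kappa * 6 rho; |f2|^2 <= rho. So the bracket is <= C kappa rho^{2 + 1/8} and
the difference is <= C kappa W rho^{17/8} <= C kappa Om/rho (OM). Integrate (WI: Om/rho, W|f1|^2, W|f2|^2 integrable; nF is integrable as 0 <= nF <= K Om/rho and measurable, PT1).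
-/

theorem NLIM_exp (t B : ℝ) (h : |t| ≤ B) : |Real.exp t - 1| ≤ B * Real.exp B := by
  have hB : 0 ≤ B := (abs_nonneg t).trans h
  have h1 : t ≤ B := (le_abs_self t).trans h
  have h2 : -t ≤ B := (neg_le_abs t).trans h
  have e1 : 1 ≤ Real.exp B := Real.one_le_exp hB
  rw [abs_le]
  constructor
  · have := Real.add_one_le_exp t
    nlinarith
  · have h3 : Real.exp t ≤ Real.exp B := Real.exp_le_exp.mpr h1
    have h4 := Real.add_one_le_exp (-B)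
    have h5 : Real.exp B * Real.exp (-B) = 1 := by rw [← Real.exp_add]; simp
    have h6 : Real.exp B * (-B + 1) ≤ Real.exp B * Real.exp (-B) :=
      mul_le_mul_of_nonneg_left h4 (Real.exp_pos B).le
    nlinarith

theorem NLIM_pt (R κ τ W a b p E1 E2 r L w fx : ℝ) (hR : 0 < R) (hκ : 0 ≤ κ) (hκ' : κ ≤ 1 / 16)
    (hτ : 1 ≤ τ) (hτ' : τ ≤ 2) (hW : 0 ≤ W) (hL : 0 ≤ L) (hr : r = Real.exp (L / 16))
    (hw : |w| ≤ 1) (hw' : |w| ≤ R * κ)
    (hE1 : E1 = Real.exp (κ * L - w)) (hE2 : E2 = Real.exp (2 * (κ * L - w)))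
    (ha0 : 0 ≤ a) (ha : a ≤ r ^ 16) (hb0 : 0 ≤ b) (hb : b ^ 2 ≤ r ^ 16) (hp0 : 0 ≤ p)
    (hfx0 : 0 ≤ fx) (hfx : fx ≤ 2 * r ^ 16 * (R * κ)) (hfx' : fx ≤ 2 * r ^ 16)
    (hp1 : p ≤ Real.sqrt τ * b + fx) (hp2 : Real.sqrt τ * b ≤ p + fx) :
    |W * (a ^ 2 * E1 + p ^ 2 * E2) - (W * a ^ 2 + τ * (W * b ^ 2))| ≤
      ((16 + R) * Real.exp 1 + 12 * R * Real.exp 2 + 4 * (1 + R) * Real.exp 2) * κ *
        (W * r ^ 34) := by
  have hr1 : 1 ≤ r := by rw [hr]; exact Real.one_le_exp (by positivity)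
  have hr0 : 0 < r := by linarith
  have hLr : L ≤ 16 * r := by
    have := Real.add_one_le_exp (L / 16)
    rw [← hr] at this
    linarith
  have hLr16 : L ≤ r ^ 16 := by
    have h1 : Real.exp L = r ^ 16 := by
      rw [hr, ← Real.exp_nat_mul]
      congr 1
      push_cast
      ring
    have := Real.add_one_le_exp L
    rw [h1] at this
    linarith
  have ht : |κ * L - w| ≤ κ * L + |w| := by
    have h1 := abs_sub (κ * L) w
    rwa [abs_of_nonneg (by positivity : 0 ≤ κ * L)] at h1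
  have hexp1 : Real.exp |κ * L - w| ≤ Real.exp 1 * r := by
    rw [hr, ← Real.exp_add]
    apply Real.exp_le_exp.mpr
    nlinarith
  have hexp2 : Real.exp |2 * (κ * L - w)| ≤ Real.exp 2 * r ^ 2 := by
    rw [hr, ← Real.exp_nat_mul, ← Real.exp_add]
    apply Real.exp_le_exp.mpr
    rw [abs_mul, abs_of_pos (by norm_num : (0 : ℝ) < 2)]
    push_cast
    nlinarith
  have htb : |κ * L - w| ≤ κ * (L + R) := by nlinarith
  have e1 : |E1 - 1| ≤ κ * ((16 + R) * Real.exp 1) * r ^ 2 := by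
    rw [hE1]
    refine (NLIM_exp _ _ le_rfl).trans ?_
    have h1 : |κ * L - w| ≤ κ * ((16 + R) * r) := by
      refine htb.trans (mul_le_mul_of_nonneg_left ?_ hκ)
      nlinarith
    calc |κ * L - w| * Real.exp |κ * L - w| ≤ (κ * ((16 + R) * r)) * (Real.exp 1 * r) :=
          mul_le_mul h1 hexp1 (Real.exp_pos _).le (by positivity)
      _ = _ := by ring
  have e2 : |E2 - 1| ≤ κ * (2 * (1 + R) * Real.exp 2) * r ^ 18 := by
    rw [hE2]
    refine (NLIM_exp _ _ le_rfl).trans ?_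
    have h1 : |2 * (κ * L - w)| ≤ 2 * (κ * ((1 + R) * r ^ 16)) := by
      rw [abs_mul, abs_of_pos (by norm_num : (0 : ℝ) < 2)]
      refine mul_le_mul_of_nonneg_left (htb.trans (mul_le_mul_of_nonneg_left ?_ hκ)) (by norm_num)
      have : 1 ≤ r ^ 16 := one_le_pow₀ hr1
      nlinarith
    calc |2 * (κ * L - w)| * Real.exp |2 * (κ * L - w)| ≤
          (2 * (κ * ((1 + R) * r ^ 16))) * (Real.exp 2 * r ^ 2) :=
          mul_le_mul h1 hexp2 (Real.exp_pos _).le (by positivity)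
      _ = _ := by ring
  have e3 : 0 ≤ E2 ∧ E2 ≤ Real.exp 2 * r ^ 2 := by
    rw [hE2]
    exact ⟨(Real.exp_pos _).le, (Real.exp_le_exp.mpr (le_abs_self _)).trans hexp2⟩
  have hsq : Real.sqrt τ ^ 2 = τ := Real.sq_sqrt (by linarith)
  have hsq2 : Real.sqrt τ ≤ 2 := by
    rw [Real.sqrt_le_left (by norm_num)]
    linarith
  have hs0 : 0 ≤ Real.sqrt τ := Real.sqrt_nonneg τ
  have hr16 : 1 ≤ r ^ 16 := one_le_pow₀ hr1
  have hb1 : b ≤ r ^ 16 := by nlinarith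
  have e4 : |p ^ 2 - τ * b ^ 2| ≤ 12 * R * κ * (r ^ 16) ^ 2 := by
    have h1 : p ^ 2 - τ * b ^ 2 = (p - Real.sqrt τ * b) * (p + Real.sqrt τ * b) := by
      have h9 : τ * b ^ 2 = (Real.sqrt τ * b) ^ 2 := by rw [mul_pow, hsq]
      rw [h9]; ring
    have h2 : |p - Real.sqrt τ * b| ≤ 2 * r ^ 16 * (R * κ) := by
      rw [abs_le]; constructor <;> linarith
    have h3 : |p + Real.sqrt τ * b| ≤ 6 * r ^ 16 := by
      have h5 : 0 ≤ Real.sqrt τ * b := mul_nonneg hs0 hb0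
      have h6 : Real.sqrt τ * b ≤ 2 * r ^ 16 := mul_le_mul hsq2 hb1 hb0 (by norm_num)
      rw [abs_of_nonneg (add_nonneg hp0 h5)]
      linarith
    rw [h1, abs_mul]
    calc |p - Real.sqrt τ * b| * |p + Real.sqrt τ * b| ≤ (2 * r ^ 16 * (R * κ)) * (6 * r ^ 16) :=
          mul_le_mul h2 h3 (abs_nonneg _) (by positivity)
      _ = _ := by ring
  have hid : W * (a ^ 2 * E1 + p ^ 2 * E2) - (W * a ^ 2 + τ * (W * b ^ 2)) =
      W * (a ^ 2 * (E1 - 1) + (p ^ 2 - τ * b ^ 2) * E2 + τ * b ^ 2 * (E2 - 1)) := by ring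
  rw [hid, abs_mul, abs_of_nonneg hW]
  have f1 : |a ^ 2 * (E1 - 1)| ≤ (16 + R) * Real.exp 1 * κ * r ^ 34 := by
    rw [abs_mul, abs_of_nonneg (by positivity : 0 ≤ a ^ 2)]
    have h1 : a ^ 2 ≤ (r ^ 16) ^ 2 := by gcongr
    calc a ^ 2 * |E1 - 1| ≤ (r ^ 16) ^ 2 * (κ * ((16 + R) * Real.exp 1) * r ^ 2) :=
          mul_le_mul h1 e1 (abs_nonneg _) (by positivity)
      _ = _ := by ring
  have f2 : |(p ^ 2 - τ * b ^ 2) * E2| ≤ 12 * R * Real.exp 2 * κ * r ^ 34 := by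
    rw [abs_mul, abs_of_nonneg e3.1]
    calc |p ^ 2 - τ * b ^ 2| * E2 ≤ (12 * R * κ * (r ^ 16) ^ 2) * (Real.exp 2 * r ^ 2) :=
          mul_le_mul e4 e3.2 e3.1 (by positivity)
      _ = _ := by ring
  have f3 : |τ * b ^ 2 * (E2 - 1)| ≤ 4 * (1 + R) * Real.exp 2 * κ * r ^ 34 := by
    rw [abs_mul, abs_of_nonneg (by positivity : 0 ≤ τ * b ^ 2)]
    calc τ * b ^ 2 * |E2 - 1| ≤ (2 * r ^ 16) * (κ * (2 * (1 + R) * Real.exp 2) * r ^ 18) :=
          mul_le_mul (mul_le_mul hτ' hb (by positivity) (by norm_num)) e2 (abs_nonneg _)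
            (by positivity)
      _ = _ := by ring
  have f4 : |a ^ 2 * (E1 - 1) + (p ^ 2 - τ * b ^ 2) * E2 + τ * b ^ 2 * (E2 - 1)| ≤
      ((16 + R) * Real.exp 1 + 12 * R * Real.exp 2 + 4 * (1 + R) * Real.exp 2) * κ * r ^ 34 := by
    refine (abs_add_three _ _ _).trans ?_
    linarith
  calc W * |a ^ 2 * (E1 - 1) + (p ^ 2 - τ * b ^ 2) * E2 + τ * b ^ 2 * (E2 - 1)| ≤
        W * (((16 + R) * Real.exp 1 + 12 * R * Real.exp 2 + 4 * (1 + R) * Real.exp 2) * κ *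
          r ^ 34) := mul_le_mul_of_nonneg_left f4 hW
    _ = _ := by ring

-- TARGET
theorem NLIM (hOM : T_OM) (hPT1 : T_PT1) (hWI : T_WI) : T_NLIM := by
  intro R hR
  obtain ⟨K, hK, hPT⟩ := hPT1
  obtain ⟨hi0, hi1, hi2, -, -⟩ := hWI
  obtain ⟨-, -, hW0, hOm0, -, -, -, -, -, -, hWO, -⟩ := hOM
  set C0 : ℝ := (16 + R) * Real.exp 1 + 12 * R * Real.exp 2 + 4 * (1 + R) * Real.exp 2 with hC0
  have hC0p : 0 < C0 := by positivity
  have hI0 : 0 ≤ ∫ z : ℂ, Om z / (1 + ‖z‖ ^ 2) :=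
    integral_nonneg fun z => div_nonneg (hOm0 z).le (by positivity)
  refine ⟨C0 * (∫ z : ℂ, Om z / (1 + ‖z‖ ^ 2)) + 1, by positivity, ?_⟩
  intro τ hτ κ hκ w x hB hw hx
  obtain ⟨-, -, -, -, -, -, -, -, hf1, -, -, -, hn, hnm, -, -⟩ := hPT τ hτ κ hκ w x hB
  have hint : Integrable (nF τ κ w x) := by
    refine Integrable.mono' (hi0.const_mul K) hnm.aestronglyMeasurable ?_
    filter_upwards with z
    rw [Real.norm_of_nonneg (hn z).1]
    exact (hn z).2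
  have hpt : ∀ z, |nF τ κ w x z - (W z * ‖f1 z‖ ^ 2 + τ * (W z * ‖f2 z‖ ^ 2))| ≤
      C0 * κ * (Om z / (1 + ‖z‖ ^ 2)) := by
    intro z
    have hρ : 1 ≤ 1 + ‖z‖ ^ 2 := by nlinarith [sq_nonneg ‖z‖]
    have hρ0 : 0 < 1 + ‖z‖ ^ 2 := by linarith
    set L := Real.log (1 + ‖z‖ ^ 2) with hLdef
    have hL : 0 ≤ L := Real.log_nonneg hρ
    have hr16 : Real.exp (L / 16) ^ 16 = 1 + ‖z‖ ^ 2 := by
      rw [← Real.exp_nat_mul]
      have : ((16 : ℕ) : ℝ) * (L / 16) = L := by push_cast; ring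
      rw [this, hLdef, Real.exp_log hρ0]
    have hr34 : Real.exp (L / 16) ^ 34 = (1 + ‖z‖ ^ 2) ^ (17 / 8 : ℝ) := by
      rw [← Real.exp_nat_mul, Real.rpow_def_of_pos hρ0]
      congr 1
      push_cast
      ring
    have hxz : ‖2 * f1 z * x z‖ = 2 * ‖f1 z‖ * ‖x z‖ := by simp
    have hsf : ‖(Real.sqrt τ : ℂ) * f2 z‖ = Real.sqrt τ * ‖f2 z‖ := by
      rw [norm_mul, Complex.norm_real, Real.norm_of_nonneg (Real.sqrt_nonneg τ)]
    have h := NLIM_pt R κ τ (W z) ‖f1 z‖ ‖f2 z‖ ‖pF τ x z‖ (Real.exp (-uF κ w z))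
      (Real.exp (-2 * uF κ w z)) (Real.exp (L / 16)) L (w z) ‖2 * f1 z * x z‖ hR hκ.1 hκ.2
      hτ.1 hτ.2 (hW0 z) hL rfl (hB.bw z) (hw z)
      (by congr 1; simp only [uF]; ring)
      (by congr 1; simp only [uF]; ring)
      (norm_nonneg _) (by rw [hr16]; exact hf1 z) (norm_nonneg _)
      (by rw [hr16]; simp [f2]) (norm_nonneg _) (norm_nonneg _)
      (by
        rw [hxz, hr16]
        have := mul_le_mul (hf1 z) (hx z) (norm_nonneg _) (by positivity)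
        nlinarith)
      (by
        rw [hxz, hr16]
        have := mul_le_mul (hf1 z) (hB.bx z) (norm_nonneg _) (by positivity)
        nlinarith)
      (by
        rw [← hsf]
        exact norm_add_le _ _)
      (by
        rw [← hsf]
        have : (Real.sqrt τ : ℂ) * f2 z = pF τ x z - 2 * f1 z * x z := by
          simp only [pF]; ring
        rw [this]
        exact norm_sub_le _ _)
    refine h.trans ?_
    rw [hr34]
    exact mul_le_mul_of_nonneg_left (hWO z) (mul_nonneg hC0p.le hκ.1)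
  have hi3 : Integrable (fun z : ℂ => W z * ‖f1 z‖ ^ 2 + τ * (W z * ‖f2 z‖ ^ 2)) :=
    hi1.add (hi2.const_mul τ)
  have hsub : NF τ κ w x - ((∫ z, W z * ‖f1 z‖ ^ 2) + τ * ∫ z, W z * ‖f2 z‖ ^ 2) =
      ∫ z, (nF τ κ w x z - (W z * ‖f1 z‖ ^ 2 + τ * (W z * ‖f2 z‖ ^ 2))) := by
    rw [integral_sub hint hi3, integral_add hi1 (hi2.const_mul τ), integral_const_mul]
    rfl
  rw [hsub]
  calc |∫ z, (nF τ κ w x z - (W z * ‖f1 z‖ ^ 2 + τ * (W z * ‖f2 z‖ ^ 2)))| ≤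
        ∫ z, |nF τ κ w x z - (W z * ‖f1 z‖ ^ 2 + τ * (W z * ‖f2 z‖ ^ 2))| :=
        abs_integral_le_integral_abs
    _ ≤ ∫ z : ℂ, C0 * κ * (Om z / (1 + ‖z‖ ^ 2)) :=
        integral_mono (hint.sub hi3).abs (hi0.const_mul _) hpt
    _ = C0 * κ * ∫ z : ℂ, Om z / (1 + ‖z‖ ^ 2) := integral_const_mul _ _
    _ ≤ (C0 * (∫ z : ℂ, Om z / (1 + ‖z‖ ^ 2)) + 1) * κ := by nlinarith [hκ.1]

end Pool.Agent.Helper614.HE.P_NLIM
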