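import Pool.Agent.Helper614.HE.SpecC
set_option autoImplicit false

open scoped Manifold ContDiff Matrix ComplexOrder
open Matrix Topology MeasureTheory Set Filter

namespace Pool.Agent.Helper614.HE.P_OM

open Pool.Agent.Helper614.HE



/-
PROOF OF THE TARGET IN WORDS
Write rho = 1 + |z|^2 >= 1. W(z) = |z^16+1|^{-1/2} (real power, so W = 0 where z^16 + 1 = 0), Om = (W + rho^{-4}) rho^{25/8}.
Measurability: continuity of z^16+1 and measurability of the norm and of rpow. W(-z) = W(z) as (-z)^16 = z^16.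
|z^16+1| <= |z|^16 + 1 <= (1+|z|^2)^8 = rho^8, so if z^16+1 is not 0 then W >= (rho^8)^{-1/2} = rho^{-4} > 0.
ContDiffAt: the norm is smooth away from 0 (contDiffAt_norm) and x^(-1/2) is smooth at x > 0 (Real.contDiffAt_rpow_const_of_ne).
Om >= rho^{-4} rho^{25/8} = rho^{-7/8} >= rho^{-1}.
Om / rho = (W + rho^{-4}) rho^{17/8} >= W rho^{17/8}, and >= rho^{-15/8} >= rho^{-2}. All with Real.rpow_add, rpow_le_rpow_of_exponent_le.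
-/
lemma OM_rho (z : ℂ) : (1 : ℝ) ≤ 1 + ‖z‖ ^ 2 := by
  have := sq_nonneg ‖z‖
  linarith

lemma OM_rho0 (z : ℂ) : (0 : ℝ) < 1 + ‖z‖ ^ 2 := lt_of_lt_of_le one_pos (OM_rho z)

lemma OM_W0 (z : ℂ) : 0 ≤ W z := Real.rpow_nonneg (norm_nonneg _) _

lemma OM_measW : Measurable W := by
  unfold W
  have h : Measurable fun z : ℂ => ‖z ^ 16 + 1‖ := by
    have : Continuous fun z : ℂ => ‖z ^ 16 + 1‖ := by fun_prop
    exact this.measurable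
  exact h.pow_const _

lemma OM_measOm : Measurable Om := by
  unfold Om
  have h : Measurable fun z : ℂ => 1 + ‖z‖ ^ 2 := by
    have : Continuous fun z : ℂ => 1 + ‖z‖ ^ 2 := by fun_prop
    exact this.measurable
  exact (OM_measW.add (h.pow_const _)).mul (h.pow_const _)

lemma OM_Wneg (z : ℂ) : W (-z) = W z := by
  unfold W
  rw [neg_pow]
  norm_num

lemma OM_Omneg (z : ℂ) : Om (-z) = Om z := by
  unfold Om
  rw [OM_Wneg, norm_neg]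

lemma OM_Ompos (z : ℂ) : 0 < Om z := by
  unfold Om
  have h1 := OM_W0 z
  have h2 := Real.rpow_pos_of_pos (OM_rho0 z) (-4 : ℝ)
  have h3 := Real.rpow_pos_of_pos (OM_rho0 z) (25 / 8 : ℝ)
  positivity

lemma OM_norm (z : ℂ) : ‖z ^ 16 + 1‖ ≤ (1 + ‖z‖ ^ 2) ^ 8 := by
  calc ‖z ^ 16 + 1‖ ≤ ‖z ^ 16‖ + ‖(1 : ℂ)‖ := norm_add_le _ _
    _ = (‖z‖ ^ 2) ^ 8 + 1 := by rw [norm_pow, norm_one, ← pow_mul]
    _ ≤ (1 + ‖z‖ ^ 2) ^ 8 := by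
      have h := sq_nonneg ‖z‖
      generalize ‖z‖ ^ 2 = t at *
      have : (1 + t) ^ 8 = t ^ 8 + 1 + (8 * t + 28 * t ^ 2 + 56 * t ^ 3 + 70 * t ^ 4 + 56 * t ^ 5
        + 28 * t ^ 6 + 8 * t ^ 7) := by ring
      rw [this]
      have : 0 ≤ (8 * t + 28 * t ^ 2 + 56 * t ^ 3 + 70 * t ^ 4 + 56 * t ^ 5
        + 28 * t ^ 6 + 8 * t ^ 7) := by positivity
      linarith

lemma OM_lower (z : ℂ) (hz : z ^ 16 + 1 ≠ 0) :
    0 < W z ∧ (1 + ‖z‖ ^ 2) ^ (-4 : ℝ) ≤ W z := by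
  have hp : 0 < ‖z ^ 16 + 1‖ := norm_pos_iff.mpr hz
  refine ⟨Real.rpow_pos_of_pos hp _, ?_⟩
  unfold W
  have h1 : ((1 + ‖z‖ ^ 2) ^ 8 : ℝ) ^ (-(1 / 2) : ℝ) ≤ ‖z ^ 16 + 1‖ ^ (-(1 / 2) : ℝ) :=
    Real.rpow_le_rpow_of_nonpos hp (OM_norm z) (by norm_num)
  have h2 : ((1 + ‖z‖ ^ 2) ^ 8 : ℝ) ^ (-(1 / 2) : ℝ) = (1 + ‖z‖ ^ 2) ^ (-4 : ℝ) := by
    rw [← Real.rpow_natCast, ← Real.rpow_mul (OM_rho0 z).le]
    norm_num
  rw [← h2]
  exact h1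

lemma OM_smooth (z : ℂ) (hz : z ^ 16 + 1 ≠ 0) : ContDiffAt ℝ ∞ W z := by
  have hp : 0 < ‖z ^ 16 + 1‖ := norm_pos_iff.mpr hz
  have h1 : ContDiffAt ℝ ∞ (fun z : ℂ => z ^ 16 + 1) z := by
    have : ContDiff ℝ ∞ (fun z : ℂ => z ^ 16 + 1) := by fun_prop
    exact this.contDiffAt
  have h2 : ContDiffAt ℝ ∞ (fun z : ℂ => ‖z ^ 16 + 1‖) z := h1.norm ℝ hz
  exact (Real.contDiffAt_rpow_const_of_ne hp.ne').comp z h2

lemma OM_split (z : ℂ) :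
    Om z / (1 + ‖z‖ ^ 2) = (W z + (1 + ‖z‖ ^ 2) ^ (-4 : ℝ)) * (1 + ‖z‖ ^ 2) ^ (17 / 8 : ℝ) := by
  unfold Om
  have h0 := OM_rho0 z
  have : (1 + ‖z‖ ^ 2) ^ (25 / 8 : ℝ) = (1 + ‖z‖ ^ 2) ^ (17 / 8 : ℝ) * (1 + ‖z‖ ^ 2) := by
    rw [← Real.rpow_add_one h0.ne']
    norm_num
  rw [this, ← mul_assoc, mul_div_assoc, div_self h0.ne', mul_one]

-- TARGET
theorem OM : T_OM := by
  refine ⟨OM_measW, OM_measOm, OM_W0, OM_Ompos, OM_Wneg, OM_Omneg, OM_lower, OM_smooth,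
    ?_, ?_, ?_, ?_⟩
  · intro z
    unfold Om
    have h0 := OM_rho0 z
    have e : (1 + ‖z‖ ^ 2) ^ (-(7 / 8) : ℝ) =
        (1 + ‖z‖ ^ 2) ^ (-4 : ℝ) * (1 + ‖z‖ ^ 2) ^ (25 / 8 : ℝ) := by
      rw [← Real.rpow_add h0]; norm_num
    rw [e]
    have h1 := OM_W0 z
    exact mul_le_mul_of_nonneg_right (by linarith) (Real.rpow_nonneg h0.le _)
  · intro z
    have h0 := OM_rho0 z
    have e : (1 + ‖z‖ ^ 2)⁻¹ ≤ (1 + ‖z‖ ^ 2) ^ (-(7 / 8) : ℝ) := by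
      rw [← Real.rpow_neg_one]
      exact Real.rpow_le_rpow_of_exponent_le (OM_rho z) (by norm_num)
    refine e.trans ?_
    unfold Om
    have e : (1 + ‖z‖ ^ 2) ^ (-(7 / 8) : ℝ) =
        (1 + ‖z‖ ^ 2) ^ (-4 : ℝ) * (1 + ‖z‖ ^ 2) ^ (25 / 8 : ℝ) := by
      rw [← Real.rpow_add h0]; norm_num
    rw [e]
    have h1 := OM_W0 z
    exact mul_le_mul_of_nonneg_right (by linarith) (Real.rpow_nonneg h0.le _)
  · intro z
    have h0 := OM_rho0 z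
    rw [OM_split]
    have := Real.rpow_nonneg h0.le (-4 : ℝ)
    exact mul_le_mul_of_nonneg_right (by linarith) (Real.rpow_nonneg h0.le _)
  · intro z
    have h0 := OM_rho0 z
    rw [OM_split]
    have h1 := OM_W0 z
    have e : ((1 + ‖z‖ ^ 2) ^ 2)⁻¹ ≤
        (1 + ‖z‖ ^ 2) ^ (-4 : ℝ) * (1 + ‖z‖ ^ 2) ^ (17 / 8 : ℝ) := by
      rw [← Real.rpow_add h0, ← Real.rpow_natCast, ← Real.rpow_neg h0.le]
      exact Real.rpow_le_rpow_of_exponent_le (OM_rho z) (by norm_num)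
    refine e.trans ?_
    exact mul_le_mul_of_nonneg_right (by linarith) (Real.rpow_nonneg h0.le _)

end Pool.Agent.Helper614.HE.P_OM
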