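import Pool.Agent.Helper614.HE.SpecC
set_option autoImplicit false

open scoped Manifold ContDiff Matrix ComplexOrder
open Matrix Topology MeasureTheory Set Filter

namespace Pool.Agent.Helper614.HE.P_PT1

open Pool.Agent.Helper614.HE



/-
PROOF OF THE TARGET IN WORDS
rho = 1+|z|^2 >= 1, 0 <= kappa <= 1/16, |w| <= 1, |x| <= 1, 1 <= tau <= 2. uF = -kappa log rho + w: continuous, even; uF <= 1 so exp(uF) <= e. exp(-uF) = rho^kappa exp(-w) <= e rho^{1/16}, exp(-2 uF) = rho^{2 kappa} exp(-2w) <= e^2 rho^{1/8}.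
pF = sqrt(tau) z + 2 (z^2-1) x: continuous, odd (z odd, z^2-1 even, x odd), |pF| <= 2 |z| + 2 (|z|^2+1) <= 4 rho (|z| <= rho). |f1| <= rho.
GF = W e^{-2u} conj(f1) pF: |GF| <= W e^2 rho^{1/8} rho 4 rho = 4 e^2 W rho^{17/8} <= 4 e^2 Om/rho by OM. Measurable: W is measurable and the rest continuous. Odd: W, u, f1 even and pF odd.
nF = W (|f1|^2 e^{-u} + |p|^2 e^{-2u}) >= 0, <= W (rho^2 e rho^{1/16} + 16 rho^2 e^2 rho^{1/8}) <= 17 e^2 W rho^{17/8}. Measurable, even. nF >= W |f1|^2 e^{-u} >= e^{-1} W |f1|^2 since -u = kappa log rho - w >= -1.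
-/
-- TARGET
theorem PT1_rho (z : ℂ) : 1 ≤ 1 + ‖z‖ ^ 2 := by nlinarith [sq_nonneg ‖z‖]

theorem PT1_contf1 : Continuous f1 := by unfold f1; fun_prop

theorem PT1_contf2 : Continuous f2 := by unfold f2; fun_prop

theorem PT1_f1 (z : ℂ) : ‖f1 z‖ ≤ 1 + ‖z‖ ^ 2 := by
  unfold f1
  calc ‖z ^ 2 - 1‖ ≤ ‖z ^ 2‖ + ‖(1 : ℂ)‖ := norm_sub_le _ _
    _ = 1 + ‖z‖ ^ 2 := by rw [norm_pow, norm_one]; ring

theorem PT1_contu (κ : ℝ) (w : ℂ → ℝ) (hw : Continuous w) : Continuous (uF κ w) := by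
  unfold uF
  refine Continuous.add ?_ hw
  refine continuous_const.mul ?_
  refine Continuous.log (by fun_prop) ?_
  intro z
  have := PT1_rho z
  positivity

theorem PT1_contp (τ : ℝ) (x : ℂ → ℂ) (hx : Continuous x) : Continuous (pF τ x) := by
  unfold pF
  exact (continuous_const.mul PT1_contf2).add ((continuous_const.mul PT1_contf1).mul hx)

theorem PT1_expneg (κ : ℝ) (w : ℂ → ℝ) (z : ℂ) :
    Real.exp (-uF κ w z) = (1 + ‖z‖ ^ 2) ^ κ * Real.exp (-w z) := by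
  have h := PT1_rho z
  rw [Real.rpow_def_of_pos (by linarith), ← Real.exp_add]
  congr 1
  unfold uF
  ring

theorem PT1_pbound (τ : ℝ) (hτ : τ ∈ Icc (1 : ℝ) 2) (x : ℂ → ℂ) (hx : ∀ z, ‖x z‖ ≤ 1) (z : ℂ) :
    ‖pF τ x z‖ ≤ 4 * (1 + ‖z‖ ^ 2) := by
  have hs : Real.sqrt τ ≤ 2 := by
    rw [Real.sqrt_le_left (by norm_num)]
    nlinarith [hτ.2]
  have h1 := PT1_f1 z
  have h2 := hx z
  have h3 : ‖z‖ ≤ 1 + ‖z‖ ^ 2 := by nlinarith [sq_nonneg (‖z‖ - 1), norm_nonneg z]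
  unfold pF f2
  calc ‖(Real.sqrt τ : ℂ) * z + 2 * f1 z * x z‖
      ≤ ‖(Real.sqrt τ : ℂ) * z‖ + ‖2 * f1 z * x z‖ := norm_add_le _ _
    _ = Real.sqrt τ * ‖z‖ + 2 * ‖f1 z‖ * ‖x z‖ := by
        rw [norm_mul, norm_mul, norm_mul, Complex.norm_real, Real.norm_of_nonneg (Real.sqrt_nonneg τ)]
        norm_num
    _ ≤ 2 * (1 + ‖z‖ ^ 2) + 2 * (1 + ‖z‖ ^ 2) * 1 := by
        have ha : Real.sqrt τ * ‖z‖ ≤ 2 * (1 + ‖z‖ ^ 2) :=
          mul_le_mul hs h3 (norm_nonneg z) (by norm_num)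
        have hb : 2 * ‖f1 z‖ * ‖x z‖ ≤ 2 * (1 + ‖z‖ ^ 2) * 1 :=
          mul_le_mul (by linarith) h2 (norm_nonneg _) (by nlinarith [sq_nonneg ‖z‖])
        linarith
    _ = 4 * (1 + ‖z‖ ^ 2) := by ring

theorem PT1 (hOM : T_OM) : T_PT1 := by
  obtain ⟨hWm, hOmm, hW0, hOm0, hWe, hOme, hWp, hWs, hO1, hO2, hO3, hO4⟩ := hOM
  have he1 : (1 : ℝ) ≤ Real.exp 1 := Real.one_le_exp (by norm_num)
  have he2 : (1 : ℝ) ≤ Real.exp 2 := Real.one_le_exp (by norm_num)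
  have he12 : Real.exp 1 ≤ Real.exp 2 := Real.exp_le_exp.mpr (by norm_num)
  refine ⟨17 * Real.exp 2, by positivity, ?_⟩
  intro τ hτ κ hκ w x hB
  have hf1e : ∀ z, f1 (-z) = f1 z := by intro z; unfold f1; ring
  have hue : ∀ z, uF κ w (-z) = uF κ w z := by
    intro z; unfold uF; rw [norm_neg, hB.ew]
  have hpo : ∀ z, pF τ x (-z) = -pF τ x z := by
    intro z; unfold pF; rw [hf1e, hB.ox]; unfold f2; ring
  have hcu := PT1_contu κ w hB.cw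
  have hcp := PT1_contp τ x hB.cx
  have hmu : Measurable (uF κ w) := hcu.measurable
  have hmp : Measurable (pF τ x) := hcp.measurable
  have hmf : Measurable f1 := PT1_contf1.measurable
  have hexp1 : ∀ z, Real.exp (-uF κ w z) ≤ Real.exp 1 * (1 + ‖z‖ ^ 2) ^ (1 / 16 : ℝ) := by
    intro z
    have h := PT1_rho z
    rw [PT1_expneg, mul_comm]
    refine mul_le_mul ?_ ?_ (by positivity) (by positivity)
    · apply Real.exp_le_exp.mpr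
      have := (abs_le.mp (hB.bw z)).1
      linarith
    · exact Real.rpow_le_rpow_of_exponent_le h hκ.2
  have hexp2 : ∀ z, Real.exp (-2 * uF κ w z) ≤ Real.exp 2 * (1 + ‖z‖ ^ 2) ^ (1 / 8 : ℝ) := by
    intro z
    have h := PT1_rho z
    have h0 : Real.exp (-2 * uF κ w z) = Real.exp (-uF κ w z) * Real.exp (-uF κ w z) := by
      rw [← Real.exp_add]; congr 1; ring
    have h2 : Real.exp 2 = Real.exp 1 * Real.exp 1 := by
      rw [← Real.exp_add]; norm_num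
    have h3 : (1 + ‖z‖ ^ 2) ^ (1 / 8 : ℝ) = (1 + ‖z‖ ^ 2) ^ (1 / 16 : ℝ) * (1 + ‖z‖ ^ 2) ^ (1 / 16 : ℝ) := by
      rw [← Real.rpow_add (by linarith)]; norm_num
    rw [h0, h2, h3]
    calc Real.exp (-uF κ w z) * Real.exp (-uF κ w z)
        ≤ (Real.exp 1 * (1 + ‖z‖ ^ 2) ^ (1 / 16 : ℝ)) * (Real.exp 1 * (1 + ‖z‖ ^ 2) ^ (1 / 16 : ℝ)) :=
          mul_le_mul (hexp1 z) (hexp1 z) (by positivity) (by positivity)
      _ = _ := by ring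
  have hpb := PT1_pbound τ hτ x hB.bx
  have hfb := PT1_f1
  have hr : ∀ z : ℂ, (1 + ‖z‖ ^ 2) ^ (17 / 8 : ℝ) = (1 + ‖z‖ ^ 2) ^ (1 / 8 : ℝ) * (1 + ‖z‖ ^ 2) * (1 + ‖z‖ ^ 2) := by
    intro z
    have h := PT1_rho z
    have e1 : (17 / 8 : ℝ) = 1 / 8 + 1 + 1 := by norm_num
    rw [e1, Real.rpow_add (by linarith), Real.rpow_add (by linarith), Real.rpow_one]
  have hGn : ∀ z, ‖GF τ κ w x z‖ = W z * Real.exp (-2 * uF κ w z) * (‖f1 z‖ * ‖pF τ x z‖) := by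
    intro z
    unfold GF
    rw [norm_mul, norm_mul, Complex.norm_real, RCLike.norm_conj, Real.norm_of_nonneg]
    exact mul_nonneg (hW0 z) (Real.exp_pos _).le
  have hG : ∀ z, ‖GF τ κ w x z‖ ≤ 17 * Real.exp 2 * (Om z / (1 + ‖z‖ ^ 2)) := by
    intro z
    have h := PT1_rho z
    rw [hGn]
    have hA : ‖f1 z‖ * ‖pF τ x z‖ ≤ (1 + ‖z‖ ^ 2) * (4 * (1 + ‖z‖ ^ 2)) :=
      mul_le_mul (hfb z) (hpb z) (norm_nonneg _) (by linarith)
    have hB' : W z * Real.exp (-2 * uF κ w z) ≤ W z * (Real.exp 2 * (1 + ‖z‖ ^ 2) ^ (1 / 8 : ℝ)) :=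
      mul_le_mul_of_nonneg_left (hexp2 z) (hW0 z)
    have hC : W z * (1 + ‖z‖ ^ 2) ^ (17 / 8 : ℝ) ≤ Om z / (1 + ‖z‖ ^ 2) := hO3 z
    have hpos : 0 ≤ W z * (1 + ‖z‖ ^ 2) ^ (17 / 8 : ℝ) := mul_nonneg (hW0 z) (by positivity)
    calc W z * Real.exp (-2 * uF κ w z) * (‖f1 z‖ * ‖pF τ x z‖)
        ≤ W z * (Real.exp 2 * (1 + ‖z‖ ^ 2) ^ (1 / 8 : ℝ)) * ((1 + ‖z‖ ^ 2) * (4 * (1 + ‖z‖ ^ 2))) :=
          mul_le_mul hB' hA (by positivity) (mul_nonneg (hW0 z) (by positivity))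
      _ = 4 * Real.exp 2 * (W z * (1 + ‖z‖ ^ 2) ^ (17 / 8 : ℝ)) := by rw [hr z]; ring
      _ ≤ 17 * Real.exp 2 * (W z * (1 + ‖z‖ ^ 2) ^ (17 / 8 : ℝ)) := by
          apply mul_le_mul_of_nonneg_right _ hpos
          nlinarith [Real.exp_pos (2 : ℝ)]
      _ ≤ 17 * Real.exp 2 * (Om z / (1 + ‖z‖ ^ 2)) :=
          mul_le_mul_of_nonneg_left hC (by positivity)
  have hn0 : ∀ z, 0 ≤ nF τ κ w x z := by
    intro z; unfold nF
    exact mul_nonneg (hW0 z) (by positivity)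
  have hn : ∀ z, nF τ κ w x z ≤ 17 * Real.exp 2 * (Om z / (1 + ‖z‖ ^ 2)) := by
    intro z
    have h := PT1_rho z
    have hC : W z * (1 + ‖z‖ ^ 2) ^ (17 / 8 : ℝ) ≤ Om z / (1 + ‖z‖ ^ 2) := hO3 z
    have h16 : (1 + ‖z‖ ^ 2) ^ (1 / 16 : ℝ) ≤ (1 + ‖z‖ ^ 2) ^ (1 / 8 : ℝ) :=
      Real.rpow_le_rpow_of_exponent_le h (by norm_num)
    have hf2 : ‖f1 z‖ ^ 2 ≤ (1 + ‖z‖ ^ 2) ^ 2 := pow_le_pow_left₀ (norm_nonneg _) (hfb z) 2
    have hp2 : ‖pF τ x z‖ ^ 2 ≤ (4 * (1 + ‖z‖ ^ 2)) ^ 2 := pow_le_pow_left₀ (norm_nonneg _) (hpb z) 2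
    have hE1 : Real.exp (-uF κ w z) ≤ Real.exp 2 * (1 + ‖z‖ ^ 2) ^ (1 / 8 : ℝ) :=
      (hexp1 z).trans (mul_le_mul he12 h16 (by positivity) (by positivity))
    have hE2 := hexp2 z
    have t1 : ‖f1 z‖ ^ 2 * Real.exp (-uF κ w z) ≤
        (1 + ‖z‖ ^ 2) ^ 2 * (Real.exp 2 * (1 + ‖z‖ ^ 2) ^ (1 / 8 : ℝ)) :=
      mul_le_mul hf2 hE1 (by positivity) (by positivity)
    have t2 : ‖pF τ x z‖ ^ 2 * Real.exp (-2 * uF κ w z) ≤
        (4 * (1 + ‖z‖ ^ 2)) ^ 2 * (Real.exp 2 * (1 + ‖z‖ ^ 2) ^ (1 / 8 : ℝ)) :=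
      mul_le_mul hp2 hE2 (by positivity) (by positivity)
    unfold nF
    calc W z * (‖f1 z‖ ^ 2 * Real.exp (-uF κ w z) + ‖pF τ x z‖ ^ 2 * Real.exp (-2 * uF κ w z))
        ≤ W z * ((1 + ‖z‖ ^ 2) ^ 2 * (Real.exp 2 * (1 + ‖z‖ ^ 2) ^ (1 / 8 : ℝ)) +
            (4 * (1 + ‖z‖ ^ 2)) ^ 2 * (Real.exp 2 * (1 + ‖z‖ ^ 2) ^ (1 / 8 : ℝ))) :=
          mul_le_mul_of_nonneg_left (add_le_add t1 t2) (hW0 z)
      _ = 17 * Real.exp 2 * (W z * (1 + ‖z‖ ^ 2) ^ (17 / 8 : ℝ)) := by rw [hr z]; ring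
      _ ≤ 17 * Real.exp 2 * (Om z / (1 + ‖z‖ ^ 2)) :=
          mul_le_mul_of_nonneg_left hC (by positivity)
  refine ⟨hcu, hue, ?_, ?_, ?_, hcp, hpo, ?_, hfb, hG, ?_, ?_, ?_, ?_, ?_, ?_⟩
  · intro z
    have h := PT1_rho z
    have hl : 0 ≤ Real.log (1 + ‖z‖ ^ 2) := Real.log_nonneg h
    have hu : uF κ w z ≤ 2 := by
      unfold uF
      have := (abs_le.mp (hB.bw z)).2
      nlinarith [mul_nonneg hκ.1 hl]
    calc Real.exp (uF κ w z) ≤ Real.exp 2 := Real.exp_le_exp.mpr hu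
      _ ≤ 17 * Real.exp 2 := by nlinarith [Real.exp_pos (2 : ℝ)]
  · intro z
    refine (hexp1 z).trans ?_
    apply mul_le_mul_of_nonneg_right _ (by positivity)
    nlinarith [Real.exp_pos (2 : ℝ)]
  · intro z
    refine (hexp2 z).trans ?_
    apply mul_le_mul_of_nonneg_right _ (by positivity)
    nlinarith [Real.exp_pos (2 : ℝ)]
  · intro z
    refine (hpb z).trans ?_
    apply mul_le_mul_of_nonneg_right _ (by positivity)
    nlinarith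
  · unfold GF
    exact ((Complex.measurable_ofReal.comp (hWm.mul ((hmu.const_mul (-2)).exp)))).mul
      ((Complex.continuous_conj.measurable.comp hmf).mul hmp)
  · intro z
    unfold GF
    rw [hWe, hue, hf1e, hpo]
    ring
  · intro z
    exact ⟨hn0 z, hn z⟩
  · unfold nF
    exact hWm.mul (((hmf.norm.pow_const 2).mul (hmu.neg.exp)).add
      ((hmp.norm.pow_const 2).mul ((hmu.const_mul (-2)).exp)))
  · intro z
    unfold nF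
    rw [hWe, hue, hf1e, hpo, norm_neg]
  · intro z
    have h := PT1_rho z
    have hl : 0 ≤ Real.log (1 + ‖z‖ ^ 2) := Real.log_nonneg h
    have hu : -1 ≤ -uF κ w z := by
      unfold uF
      have := (abs_le.mp (hB.bw z)).2
      nlinarith [mul_nonneg hκ.1 hl]
    unfold nF
    have hE : Real.exp (-1) ≤ Real.exp (-uF κ w z) := Real.exp_le_exp.mpr hu
    have : Real.exp (-1) * ‖f1 z‖ ^ 2 ≤
        ‖f1 z‖ ^ 2 * Real.exp (-uF κ w z) + ‖pF τ x z‖ ^ 2 * Real.exp (-2 * uF κ w z) := by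
      have h1 : Real.exp (-1) * ‖f1 z‖ ^ 2 ≤ Real.exp (-uF κ w z) * ‖f1 z‖ ^ 2 :=
        mul_le_mul_of_nonneg_right hE (by positivity)
      have h2 : 0 ≤ ‖pF τ x z‖ ^ 2 * Real.exp (-2 * uF κ w z) := by positivity
      linarith
    calc Real.exp (-1) * (W z * ‖f1 z‖ ^ 2) = W z * (Real.exp (-1) * ‖f1 z‖ ^ 2) := by ring
      _ ≤ _ := mul_le_mul_of_nonneg_left this (hW0 z)

end Pool.Agent.Helper614.HE.P_PT1

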