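import Pool.Agent.Helper614.HE.SpecC
set_option autoImplicit false

open scoped Manifold ContDiff Matrix ComplexOrder
open Matrix Topology MeasureTheory Set Filter

namespace Pool.Agent.Helper614.HE.P_PT2

open Pool.Agent.Helper614.HE



/-
PROOF OF THE TARGET IN WORDS
Let K1 be the constant of PT1. bF = Cb GF, GF odd, measurable, |GF| <= K1 Om/rho: DEC1 with c = K1 gives the first three claims. nF measurable and 0 <= nF <= K1 Om/rho, integrable by WI. |bF|^2 e^u: continuous, 0 <= it <= Kb^2 rho^{-2} K1 <= C Om/rho by OM (rho^{-2} <= Om/rho), integrable.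
So 0 <= NF <= K1 int Om/rho, 0 <= BF <= C int Om/rho, and NF >= e^{-1} int W|f1|^2 > 0 (integral_mono, WI). By AQ (with a suitable K >= 1 larger than these bounds and the inverse of the lower bound; a' = a, N' = N) K'^{-1} <= aF <= K' and the identity.
QF = kappa a^2 |b|^2 e^u + a nF: nonnegative, <= (K'^2 C + K' K1) Om/rho, measurable, even (bF even, uF even, nF even), int QF = kappa a^2 BF + a NF = pi.
Finally take K as a maximum of all constants (1/K <= ... for the lower bounds).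
-/
-- TARGET
theorem PT2 (hPT1 : T_PT1) (hDEC1 : T_DEC1) (hWI : T_WI) (hAQ : T_AQ) (hOM : T_OM) : T_PT2 := by
  obtain ⟨K1, hK1, h1⟩ := hPT1
  obtain ⟨Kd, hKd, hd⟩ := hDEC1
  obtain ⟨iOm, iW1, -, pW1, -⟩ := hWI
  obtain ⟨-, -, -, hOmpos, -, -, -, -, -, -, -, hOm2⟩ := hOM
  set Kb : ℝ := Kd * K1 with hKb
  have hKb0 : 0 < Kb := mul_pos hKd hK1
  set K2 : ℝ := Kb ^ 2 * K1 with hK2
  have hK20 : 0 < K2 := by positivity
  set I0 : ℝ := ∫ z : ℂ, Om z / (1 + ‖z‖ ^ 2) with hI0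
  have hI00 : 0 ≤ I0 := integral_nonneg fun z => by
    have := (hOmpos z).le
    positivity
  set J : ℝ := ∫ z : ℂ, W z * ‖f1 z‖ ^ 2 with hJ
  set E : ℝ := Real.exp (-1) * J with hE
  have hE0 : 0 < E := mul_pos (Real.exp_pos _) pW1
  set K3 : ℝ := 1 + K1 * I0 + K2 * I0 + E⁻¹ with hK3
  have hK31 : 1 ≤ K3 := by
    have e1 : 0 ≤ K1 * I0 := by positivity
    have e2 : 0 ≤ K2 * I0 := by positivity
    have e3 : 0 < E⁻¹ := inv_pos.2 hE0
    linarith
  have hK30 : 0 < K3 := by linarith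
  obtain ⟨K4, hK40, h4⟩ := hAQ K3 hK31
  set K5 : ℝ := K4 ^ 2 * K2 + K4 * K1 with hK5
  have hK50 : 0 < K5 := by positivity
  refine ⟨Kb + K3 + K4 + K5, by positivity, fun τ hτ κ hκ w x hb => ?_⟩
  obtain ⟨uc, ue, ub, -, -, -, -, -, -, gb, gm, go, nb, nm, ne, nl⟩ := h1 τ hτ κ hκ w x hb
  obtain ⟨b1, bc, be⟩ := hd (GF τ κ w x) K1 gm hK1.le gb go
  have b1' : ∀ z, ‖bF τ κ w x z‖ ≤ Kb / (1 + ‖z‖ ^ 2) := b1
  have bc' : Continuous (bF τ κ w x) := bc
  have be' : ∀ z, bF τ κ w x (-z) = bF τ κ w x z := be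
  have q0 : ∀ z, 0 ≤ ‖bF τ κ w x z‖ ^ 2 * Real.exp (uF κ w z) := fun z => by positivity
  have q1 : ∀ z, ‖bF τ κ w x z‖ ^ 2 * Real.exp (uF κ w z) ≤ K2 * (Om z / (1 + ‖z‖ ^ 2)) := by
    intro z
    have e1 : ‖bF τ κ w x z‖ ^ 2 ≤ (Kb / (1 + ‖z‖ ^ 2)) ^ 2 :=
      pow_le_pow_left₀ (norm_nonneg _) (b1' z) 2
    calc ‖bF τ κ w x z‖ ^ 2 * Real.exp (uF κ w z) ≤ (Kb / (1 + ‖z‖ ^ 2)) ^ 2 * K1 :=
          mul_le_mul e1 (ub z) (Real.exp_pos _).le (by positivity)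
      _ = K2 * ((1 + ‖z‖ ^ 2) ^ 2)⁻¹ := by rw [hK2, div_pow]; ring
      _ ≤ K2 * (Om z / (1 + ‖z‖ ^ 2)) := mul_le_mul_of_nonneg_left (hOm2 z) hK20.le
  have qc : Continuous fun z => ‖bF τ κ w x z‖ ^ 2 * Real.exp (uF κ w z) :=
    (bc'.norm.pow 2).mul (Real.continuous_exp.comp uc)
  have iN : Integrable (nF τ κ w x) := by
    refine (iOm.const_mul K1).mono' nm.aestronglyMeasurable (Eventually.of_forall fun z => ?_)
    rw [Real.norm_of_nonneg (nb z).1]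
    exact (nb z).2
  have iB : Integrable fun z => ‖bF τ κ w x z‖ ^ 2 * Real.exp (uF κ w z) := by
    refine (iOm.const_mul K2).mono' qc.aestronglyMeasurable (Eventually.of_forall fun z => ?_)
    rw [Real.norm_of_nonneg (q0 z)]
    exact q1 z
  have N1 : E ≤ NF τ κ w x := by
    rw [hE, hJ, ← integral_const_mul]
    exact integral_mono (iW1.const_mul _) iN nl
  have N2 : NF τ κ w x ≤ K1 * I0 := by
    rw [hI0, ← integral_const_mul]
    exact integral_mono iN (iOm.const_mul _) fun z => (nb z).2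
  have B1 : 0 ≤ BF τ κ w x := integral_nonneg q0
  have B2 : BF τ κ w x ≤ K2 * I0 := by
    rw [hI0, ← integral_const_mul]
    exact integral_mono iB (iOm.const_mul _) q1
  have k1 : 0 ≤ K1 * I0 := by positivity
  have k2 : 0 ≤ K2 * I0 := by positivity
  have k3 : 0 < E⁻¹ := inv_pos.2 hE0
  have N1' : K3⁻¹ ≤ NF τ κ w x := by
    refine le_trans ?_ N1
    rw [inv_le_comm₀ hK30 hE0]
    linarith
  have N2' : NF τ κ w x ≤ K3 := by linarith
  have B2' : BF τ κ w x ≤ K3 := by linarith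
  obtain ⟨a1, a2, a3, -, -⟩ := h4 κ hκ (NF τ κ w x) ⟨N1', N2'⟩ (BF τ κ w x) ⟨B1, B2'⟩
    (NF τ κ w x) ⟨N1', N2'⟩ (BF τ κ w x) ⟨B1, B2'⟩ (aF τ κ w x) (aF τ κ w x) rfl rfl
  have ha0 : 0 < aF τ κ w x := (inv_pos.2 hK40).trans_le a1
  have hκ0 : 0 ≤ κ := hκ.1
  have hκ1 : κ ≤ 1 := hκ.2.trans (by norm_num)
  have hs : 0 < Kb + K3 + K4 + K5 := by positivity
  refine ⟨fun z => (b1' z).trans ?_, bc', be', iN, iB, ?_, by linarith, B1, by linarith, ?_,
    by linarith, a3, fun z => ⟨?_, ?_⟩, ?_, fun z => ?_, ?_⟩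
  · gcongr
    linarith
  · exact (inv_anti₀ hK30 (by linarith)).trans N1'
  · exact (inv_anti₀ hK40 (by linarith)).trans a1
  · unfold QF
    have := (nb z).1
    have := q0 z
    positivity
  · unfold QF
    have hO : 0 ≤ Om z / (1 + ‖z‖ ^ 2) := by
      have := (hOmpos z).le
      positivity
    have e1 : κ * aF τ κ w x ^ 2 * (‖bF τ κ w x z‖ ^ 2 * Real.exp (uF κ w z)) ≤
        K4 ^ 2 * (K2 * (Om z / (1 + ‖z‖ ^ 2))) := by
      refine mul_le_mul ?_ (q1 z) (q0 z) (by positivity)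
      calc κ * aF τ κ w x ^ 2 ≤ 1 * K4 ^ 2 := by gcongr
        _ = K4 ^ 2 := one_mul _
    have e2 : aF τ κ w x * nF τ κ w x z ≤ K4 * (K1 * (Om z / (1 + ‖z‖ ^ 2))) :=
      mul_le_mul a2 (nb z).2 (nb z).1 hK40.le
    calc _ ≤ K4 ^ 2 * (K2 * (Om z / (1 + ‖z‖ ^ 2))) + K4 * (K1 * (Om z / (1 + ‖z‖ ^ 2))) :=
          add_le_add e1 e2
      _ = K5 * (Om z / (1 + ‖z‖ ^ 2)) := by rw [hK5]; ring
      _ ≤ _ := mul_le_mul_of_nonneg_right (by linarith) hO
  · unfold QF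
    exact (measurable_const.mul qc.measurable).add (measurable_const.mul nm)
  · unfold QF
    rw [be', ue, ne]
  · unfold QF
    rw [integral_add (iB.const_mul _) (iN.const_mul _), integral_const_mul, integral_const_mul]
    change κ * aF τ κ w x ^ 2 * BF τ κ w x + aF τ κ w x * NF τ κ w x = Real.pi
    linear_combination a3

end Pool.Agent.Helper614.HE.P_PT2
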