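import Pool.Agent.Helper614.HE.SpecC
set_option autoImplicit false

open scoped Manifold ContDiff Matrix ComplexOrder
open Matrix Topology MeasureTheory Set Filter

namespace Pool.Agent.Helper614.HE.P_PT3

open Pool.Agent.Helper614.HE



/-
PROOF OF THE TARGET IN WORDS
wS(z) = -(1/pi) int Lg z c QF(c) dc: |wS| <= K by LOG (|QF| <= K2 Om/rho). Continuity: by LOG, int Lg z c QF = int log|z-c|^2 QF - log(1+|z|^2) int QF, the first is C^1 (ContDiffAt.continuousAt), the second is continuous. Evenness: Lg (-z) c = Lg z (-c), QF even, substitute c -> -c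
(integral_neg_eq_self).
xS(z) = aF Ct(e^u bF)(z): f = e^u bF is continuous, |f| <= K1 K2/rho <= C Om (OM), so by CTB |Ct f| <= K C and Ct f is Hoelder continuous (exponent 1/4), hence continuous. Oddness: Ct f (-z) = (1/pi) int f(w)/(-z-w) dw = -(1/pi) int f(-w)/(z - w)dw..., f even, so Ct f(-z) = - Ct f(z). aF <= K2.
-/
theorem PT3_cont_of_holder {g : ℂ → ℂ} {K : ℝ}
    (h : ∀ z z2, ‖g z - g z2‖ ≤ K * ‖z - z2‖ ^ (1 / 4 : ℝ)) : Continuous g := by
  rw [continuous_iff_continuousAt]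
  intro z0
  rw [ContinuousAt, tendsto_iff_norm_sub_tendsto_zero]
  have h1 : Tendsto (fun z : ℂ => K * ‖z - z0‖ ^ (1 / 4 : ℝ)) (𝓝 z0) (𝓝 0) := by
    have h2 : Continuous (fun z : ℂ => K * ‖z - z0‖ ^ (1 / 4 : ℝ)) := by
      refine continuous_const.mul ?_
      refine Continuous.rpow_const (by fun_prop) ?_
      intro z
      right
      norm_num
    have h3 := h2.tendsto z0
    simpa using h3
  exact squeeze_zero (fun z => norm_nonneg _) (fun z => h z z0) h1

-- TARGET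
theorem PT3 (hPT1 : T_PT1) (hPT2 : T_PT2) (hLOG : T_LOG) (hCTB : T_CTB) (hOM : T_OM) : T_PT3 := by
  obtain ⟨K1, hK1, h1⟩ := hPT1
  obtain ⟨K2, hK2, h2⟩ := hPT2
  obtain ⟨K3, hK3, h3⟩ := hLOG
  obtain ⟨K4, hK4, h4⟩ := hCTB
  obtain ⟨-, -, -, -, -, -, -, -, -, hOM1, -, -⟩ := hOM
  have hpos1 : 0 < K3 * K2 := by positivity
  have hpos2 : 0 < K2 * (K4 * (K1 * K2)) := by positivity
  refine ⟨K3 * K2 + K2 * (K4 * (K1 * K2)), by positivity, ?_⟩
  intro τ hτ κ hκ w x hB
  obtain ⟨huc, hue, hexp, -⟩ := h1 τ hτ κ hκ w x hB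
  obtain ⟨hb1, hbc, hbe, -, -, -, -, -, -, ha1, ha2, -, hQ1, hQm, hQe, hQi⟩ :=
    h2 τ hτ κ hκ w x hB
  -- the logarithmic potential
  obtain ⟨hQint, hLint, hLb, hLd, hLs⟩ := h3 (QF τ κ w x) K2 hQm hK2.le
    (fun c => by rw [abs_of_nonneg (hQ1 c).1]; exact (hQ1 c).2)
  have hpi : 1 / Real.pi ≤ 1 := by
    rw [div_le_one Real.pi_pos]
    linarith [Real.pi_gt_three]
  have hpi0 : 0 ≤ 1 / Real.pi := by positivity
  -- the Cauchy transform
  set f : ℂ → ℂ := fun c => (Real.exp (uF κ w c) : ℂ) * bF τ κ w x c with hf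
  have hfc : Continuous f := by
    refine Continuous.mul ?_ hbc
    exact Complex.continuous_ofReal.comp (Real.continuous_exp.comp huc)
  have hfb : ∀ c, ‖f c‖ ≤ K1 * K2 * Om c := by
    intro c
    have e1 : ‖f c‖ = Real.exp (uF κ w c) * ‖bF τ κ w x c‖ := by
      simp only [hf, norm_mul, Complex.norm_real, Real.norm_eq_abs, abs_of_pos (Real.exp_pos _)]
    rw [e1]
    have e2 : 0 < 1 + ‖c‖ ^ 2 := by positivity
    calc Real.exp (uF κ w c) * ‖bF τ κ w x c‖ ≤ K1 * (K2 / (1 + ‖c‖ ^ 2)) :=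
          mul_le_mul (hexp c) (hb1 c) (norm_nonneg _) hK1.le
      _ = K1 * K2 * (1 + ‖c‖ ^ 2)⁻¹ := by rw [div_eq_mul_inv]; ring
      _ ≤ K1 * K2 * Om c := mul_le_mul_of_nonneg_left (hOM1 c) (by positivity)
  obtain ⟨-, hC1, hC2⟩ := h4 f (K1 * K2) hfc.measurable (by positivity) hfb
  have hCc : Continuous (Ct f) := PT3_cont_of_holder (K := K4 * (K1 * K2)) hC2
  have ha0 : 0 ≤ aF τ κ w x := le_trans (inv_nonneg.2 hK2.le) ha1
  have hfe : ∀ c, f (-c) = f c := by
    intro c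
    simp only [hf]
    rw [hue c, hbe c]
  refine ⟨?_, ?_, ?_, ?_, ?_, ?_⟩
  · -- continuity of `wS`
    have e1 : ∀ z, (∫ c, Lg z c * QF τ κ w x c)
        = (∫ c, Real.log (‖z - c‖ ^ 2) * QF τ κ w x c)
          - Real.log (1 + ‖z‖ ^ 2) * ∫ c, QF τ κ w x c := by
      intro z
      rw [hLs z]; ring
    have e2 : Continuous (fun z => ∫ c, Real.log (‖z - c‖ ^ 2) * QF τ κ w x c) := by
      rw [continuous_iff_continuousAt]
      intro z
      exact (hLd z).1.continuousAt
    have e3 : Continuous (fun z : ℂ => Real.log (1 + ‖z‖ ^ 2)) := by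
      refine Continuous.log (by fun_prop) ?_
      intro z
      positivity
    have e4 : wS τ κ w x = fun z => -(1 / Real.pi) *
        ((∫ c, Real.log (‖z - c‖ ^ 2) * QF τ κ w x c)
          - Real.log (1 + ‖z‖ ^ 2) * ∫ c, QF τ κ w x c) := by
      funext z
      rw [wS, e1 z]
    rw [e4]
    exact continuous_const.mul (e2.sub (e3.mul continuous_const))
  · -- continuity of `xS`
    have e1 : xS τ κ w x = fun z => (aF τ κ w x : ℂ) * Ct f z := by
      funext z
      rfl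
    rw [e1]
    exact continuous_const.mul hCc
  · intro z
    have e1 : |wS τ κ w x z| = 1 / Real.pi * |∫ c, Lg z c * QF τ κ w x c| := by
      rw [wS, abs_mul, abs_neg, abs_of_nonneg hpi0]
    rw [e1]
    calc 1 / Real.pi * |∫ c, Lg z c * QF τ κ w x c| ≤ 1 * (K3 * K2) :=
          mul_le_mul hpi (hLb z) (abs_nonneg _) zero_le_one
      _ ≤ K3 * K2 + K2 * (K4 * (K1 * K2)) := by linarith
  · intro z
    have e1 : ‖xS τ κ w x z‖ = aF τ κ w x * ‖Ct f z‖ := by
      show ‖(aF τ κ w x : ℂ) * Ct f z‖ = _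
      rw [norm_mul, Complex.norm_real, Real.norm_eq_abs, abs_of_nonneg ha0]
    rw [e1]
    calc aF τ κ w x * ‖Ct f z‖ ≤ K2 * (K4 * (K1 * K2)) :=
          mul_le_mul ha2 (hC1 z) (norm_nonneg _) hK2.le
      _ ≤ K3 * K2 + K2 * (K4 * (K1 * K2)) := by linarith
  · intro z
    rw [wS, wS]
    congr 1
    have e1 : ∀ c, Lg (-z) c * QF τ κ w x c = (fun c => Lg z c * QF τ κ w x c) (-c) := by
      intro c
      simp only
      rw [hQe c]
      congr 1
      unfold Lg
      have e2 : ‖-z - c‖ = ‖z - -c‖ := by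
        rw [← norm_neg]
        congr 1
        ring
      rw [e2, norm_neg]
    simp_rw [e1]
    exact integral_neg_eq_self (fun c => Lg z c * QF τ κ w x c) volume
  · intro z
    show (aF τ κ w x : ℂ) * Ct f (-z) = -((aF τ κ w x : ℂ) * Ct f z)
    have e1 : Ct f (-z) = -Ct f z := by
      unfold Ct
      rw [← mul_neg, ← integral_neg]
      congr 1
      rw [← integral_neg_eq_self (fun c => f c / (-z - c)) volume]
      refine integral_congr_ae (Filter.Eventually.of_forall fun c => ?_)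
      show f (-c) / (-z - -c) = -(f c / (z - c))
      rw [hfe c, ← div_neg]
      congr 1
      ring
    rw [e1]
    ring

end Pool.Agent.Helper614.HE.P_PT3
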