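import Pool.Agent.Helper614.HE.SpecC
set_option autoImplicit false

open scoped Manifold ContDiff Matrix ComplexOrder
open Matrix Topology MeasureTheory Set Filter

namespace Pool.Agent.Helper614.HE.P_REM1

open Pool.Agent.Helper614.HE



/-
PROOF OF THE TARGET IN WORDS
Choose r1 > 0 with closedBall(t0,r1) in D, let K = closedBall(t0,r1), F1 = F on K minus {t0} and 0 elsewhere: measurable (F is continuous on D minus {t0}), bounded, compact support. By CH (applied to F1;
CH is for balls centred at 0, take R = |t0| + r1) Ct F1 is globally Hoelder-1/2. At t in ball(t0,r1) minus {t0}: F1 = F near t is C^1, so Lipschitz, so Hoelder (any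
exponent in (0,1)) near t, and LH gives: Ct F1 is C^1 near t with dzb = F. So g = w - Ct F1 is C^1 on the punctured ball with dzb g = 0, so it is complex differentiable there (a real differentiable function with dzb = 0 is
complex differentiable: fderiv R g t is multiplication by dz g t), and bounded (w is bounded, Ct F1 is continuous on the compact set). By Riemann's theorem
(Complex.differentiableOn_update_limUnder_of_bddAbove or analyticAt_of_differentiable_on_punctured_nhds_of_continuousAt...) g extends to a holomorphic function g1 on the ball, which is Lipschitz on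
the smaller closed ball of radius r1/2. Put r = min(r1/2, 1/2), w' = w for t not t0, w'(t0) = g1(t0) + Ct F1 (t0), so w' = g1 + Ct F1 on the ball, Hoelder-1/2 there (Lipschitz with |z-z'| <= 1).
-/
theorem REM1_holo {g : ℂ → ℂ} {t : ℂ} (h1 : DifferentiableAt ℝ g t) (h2 : dzb g t = 0) :
    DifferentiableAt ℂ g t := by
  rw [differentiableAt_complex_iff_differentiableAt_real]
  refine ⟨h1, ?_⟩
  unfold dzb at h2
  have h3 : fderiv ℝ g t 1 + Complex.I * fderiv ℝ g t Complex.I = 0 := by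
    have := (div_eq_zero_iff.1 h2)
    rcases this with h | h
    · exact h
    · norm_num at h
  rw [smul_eq_mul]
  have hI := Complex.I_mul_I
  linear_combination (-Complex.I) * h3 + (fderiv ℝ g t Complex.I) * hI

theorem REM1_dzb_sub {f g : ℂ → ℂ} {t : ℂ} (h1 : DifferentiableAt ℝ f t)
    (h2 : DifferentiableAt ℝ g t) : dzb (fun z => f z - g z) t = dzb f t - dzb g t := by
  unfold dzb
  rw [fderiv_fun_sub h1 h2]
  simp only [_root_.sub_apply]
  ring

-- TARGET
theorem REM1 (hLH : T_LH) (hCH : T_CH) : T_REM1 := by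
  classical
  intro D hD t0 ht0 w F h1 ⟨C, hC⟩
  obtain ⟨r1, hr1, hball⟩ := Metric.nhds_basis_closedBall.mem_iff.1 (hD.mem_nhds ht0)
  obtain ⟨K, hK⟩ : ∃ K : Set ℂ, K = Metric.closedBall t0 r1 \ {t0} := ⟨_, rfl⟩
  have hKD : K ⊆ D \ {t0} := by
    rw [hK]; exact sdiff_subset_sdiff_left hball
  have hKmeas : MeasurableSet K := by
    rw [hK]; exact Metric.isClosed_closedBall.measurableSet.diff (measurableSet_singleton _)
  obtain ⟨F1, hF1⟩ : ∃ F1 : ℂ → ℂ, F1 = K.indicator F := ⟨_, rfl⟩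
  have hF1meas : Measurable F1 := by
    have hc : ContinuousOn F K := fun t ht => ((h1 t (hKD ht)).2.1.continuousAt).continuousWithinAt
    have := ContinuousOn.measurable_piecewise (s := K) (f := F) (g := fun _ => (0 : ℂ)) hc
      continuousOn_const hKmeas
    rw [hF1]
    convert this using 1
    exact (Set.piecewise_eq_indicator).symm
  have hF1b : ∀ v, ‖F1 v‖ ≤ max C 0 := by
    intro v
    rw [hF1]
    by_cases hv : v ∈ K
    · rw [Set.indicator_of_mem hv]
      exact (hC v (hKD hv)).2.trans (le_max_left _ _)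
    · rw [Set.indicator_of_notMem hv, norm_zero]
      exact le_max_right _ _
  have hF1s : ∀ v, ‖t0‖ + r1 < ‖v‖ → F1 v = 0 := by
    intro v hv
    rw [hF1]
    apply Set.indicator_of_notMem
    intro hvK
    rw [hK] at hvK
    have h3 : dist v t0 ≤ r1 := hvK.1
    rw [dist_eq_norm] at h3
    have h4 : ‖v‖ ≤ ‖v - t0‖ + ‖t0‖ := by
      calc ‖v‖ = ‖(v - t0) + t0‖ := by rw [sub_add_cancel]
        _ ≤ _ := norm_add_le _ _
    linarith
  obtain ⟨C2', hC2'⟩ := hCH (‖t0‖ + r1) (max C 0)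
  obtain ⟨hint, hhol'⟩ := hC2' F1 hF1meas hF1b hF1s
  obtain ⟨C2, hC2⟩ : ∃ C2 : ℝ, C2 = max C2' 0 := ⟨_, rfl⟩
  have hC20 : 0 ≤ C2 := by rw [hC2]; exact le_max_right _ _
  have hhol : ∀ z z', ‖Ct F1 z - Ct F1 z'‖ ≤ C2 * ‖z - z'‖ ^ (1 / 2 : ℝ) := by
    intro z z'
    refine (hhol' z z').trans ?_
    apply mul_le_mul_of_nonneg_right _ (by positivity)
    rw [hC2]; exact le_max_left _ _
  -- properties of the Cauchy transform at the points of the punctured ball
  have hCt : ∀ t ∈ Metric.ball t0 r1 \ {t0}, ContDiffAt ℝ 1 (Ct F1) t ∧ dzb (Ct F1) t = F t := by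
    intro t ht
    have htD : t ∈ D \ {t0} := ⟨hball (Metric.ball_subset_closedBall ht.1), ht.2⟩
    obtain ⟨Lc, s, hs, hLip⟩ := ((h1 t htD).2.1).exists_lipschitzOnWith
    have hopen : Metric.ball t0 r1 \ {t0} ∈ 𝓝 t :=
      (Metric.isOpen_ball.sdiff isClosed_singleton).mem_nhds ht
    obtain ⟨ε, hε, hεs⟩ := Metric.mem_nhds_iff.1 (Filter.inter_mem hs hopen)
    obtain ⟨ε', hε'd⟩ : ∃ ε' : ℝ, ε' = min ε (1 / 2) := ⟨_, rfl⟩
    have hε' : 0 < ε' := by rw [hε'd]; exact lt_min hε (by norm_num)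
    have hε'1 : ε' ≤ 1 / 2 := by rw [hε'd]; exact min_le_right _ _
    have hε's : Metric.ball t ε' ⊆ s ∩ (Metric.ball t0 r1 \ {t0}) :=
      (Metric.ball_subset_ball (by rw [hε'd]; exact min_le_left _ _)).trans hεs
    have hF1F : ∀ v ∈ Metric.ball t ε', F1 v = F v := by
      intro v hv
      rw [hF1, Set.indicator_of_mem]
      rw [hK]
      exact ⟨Metric.ball_subset_closedBall (hε's hv).2.1, (hε's hv).2.2⟩
    have hlh := (hLH F1 hF1meas hint t ε' (1 / 2) (Lc : ℝ) hε' (by norm_num) (by norm_num) (by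
      intro v hv v' hv'
      rw [hF1F v hv, hF1F v' hv']
      have h3 : ‖F v - F v'‖ ≤ Lc * ‖v - v'‖ := by
        have := hLip.dist_le_mul v (hε's hv).1 v' (hε's hv').1
        rwa [dist_eq_norm, dist_eq_norm] at this
      refine h3.trans ?_
      apply mul_le_mul_of_nonneg_left _ Lc.2
      have h4 : ‖v - v'‖ ≤ 1 := by
        have a1 : dist v t < ε' := hv
        have a2 : dist v' t < ε' := hv'
        have a3 := dist_triangle_right v v' t
        rw [← dist_eq_norm]; linarith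
      calc ‖v - v'‖ = ‖v - v'‖ ^ (1 : ℝ) := (Real.rpow_one _).symm
        _ ≤ ‖v - v'‖ ^ (1 / 2 : ℝ) :=
          Real.rpow_le_rpow_of_exponent_ge' (norm_nonneg _) h4 (by norm_num) (by norm_num))).1
      t (Metric.mem_ball_self hε')
    refine ⟨hlh.1, ?_⟩
    rw [hlh.2, hF1F t (Metric.mem_ball_self hε')]
  -- the holomorphic part
  obtain ⟨g, hg⟩ : ∃ g : ℂ → ℂ, g = fun z => w z - Ct F1 z := ⟨_, rfl⟩
  have hgd : DifferentiableOn ℂ g (Metric.ball t0 r1 \ {t0}) := by
    intro t ht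
    have htD : t ∈ D \ {t0} := ⟨hball (Metric.ball_subset_closedBall ht.1), ht.2⟩
    obtain ⟨a1, a2, a3⟩ := h1 t htD
    obtain ⟨b1, b2⟩ := hCt t ht
    have d1 : DifferentiableAt ℝ w t := a1.differentiableAt one_ne_zero
    have d2 : DifferentiableAt ℝ (Ct F1) t := b1.differentiableAt one_ne_zero
    have : DifferentiableAt ℂ g t := by
      rw [hg]
      exact REM1_holo (g := fun z => w z - Ct F1 z) (d1.sub d2)
        (by rw [REM1_dzb_sub d1 d2, a3, b2, sub_self])
    exact this.differentiableWithinAt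
  have hgb : BddAbove (norm ∘ g '' (Metric.ball t0 r1 \ {t0})) := by
    refine ⟨C + (‖Ct F1 t0‖ + C2 * r1 ^ (1 / 2 : ℝ)), ?_⟩
    rintro _ ⟨t, ht, rfl⟩
    have htD : t ∈ D \ {t0} := ⟨hball (Metric.ball_subset_closedBall ht.1), ht.2⟩
    have e1 := (hC t htD).1
    have e2 := hhol t t0
    have e3 : ‖t - t0‖ ≤ r1 := by
      have : dist t t0 < r1 := ht.1
      rw [dist_eq_norm] at this; exact this.le
    have e4 : ‖t - t0‖ ^ (1 / 2 : ℝ) ≤ r1 ^ (1 / 2 : ℝ) :=
      Real.rpow_le_rpow (norm_nonneg _) e3 (by norm_num)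
    have e5 : ‖Ct F1 t‖ ≤ ‖Ct F1 t0‖ + ‖Ct F1 t - Ct F1 t0‖ := by
      calc ‖Ct F1 t‖ = ‖Ct F1 t0 + (Ct F1 t - Ct F1 t0)‖ := by rw [add_sub_cancel]
        _ ≤ _ := norm_add_le _ _
    have e6 : C2 * ‖t - t0‖ ^ (1 / 2 : ℝ) ≤ C2 * r1 ^ (1 / 2 : ℝ) :=
      mul_le_mul_of_nonneg_left e4 hC20
    have e7 : ‖g t‖ ≤ ‖w t‖ + ‖Ct F1 t‖ := by rw [hg]; exact norm_sub_le _ _
    show ‖g t‖ ≤ _
    linarith
  obtain ⟨g1, hg1⟩ : ∃ g1 : ℂ → ℂ, g1 = Function.update g t0 (limUnder (𝓝[≠] t0) g) := ⟨_, rfl⟩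
  have hg1d : DifferentiableOn ℂ g1 (Metric.ball t0 r1) := by
    rw [hg1]
    exact Complex.differentiableOn_update_limUnder_of_bddAbove (Metric.ball_mem_nhds t0 hr1) hgd hgb
  have hg1g : ∀ t, t ≠ t0 → g1 t = g t := by
    intro t ht
    rw [hg1, Function.update_of_ne ht]
  have hder : ContinuousOn (deriv g1) (Metric.closedBall t0 (r1 / 2)) :=
    ((hg1d.deriv Metric.isOpen_ball).continuousOn).mono
      (Metric.closedBall_subset_ball (by linarith))
  obtain ⟨C3, hC3⟩ := (isCompact_closedBall t0 (r1 / 2)).exists_bound_of_continuousOn hder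
  have hg1L : ∀ z ∈ Metric.closedBall t0 (r1 / 2), ∀ z' ∈ Metric.closedBall t0 (r1 / 2),
      ‖g1 z - g1 z'‖ ≤ C3 * ‖z - z'‖ := by
    intro z hz z' hz'
    exact (convex_closedBall t0 (r1 / 2)).norm_image_sub_le_of_norm_deriv_le
      (fun v hv => (hg1d v (Metric.closedBall_subset_ball (by linarith) hv)).differentiableAt
        (Metric.isOpen_ball.mem_nhds (Metric.closedBall_subset_ball (by linarith) hv)))
      (fun v hv => hC3 v hv) hz' hz
  have hC30 : 0 ≤ C3 := (norm_nonneg _).trans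
    (hC3 t0 (Metric.mem_closedBall_self (by linarith)))
  obtain ⟨w', hw'⟩ : ∃ w' : ℂ → ℂ, w' = fun t => if t = t0 then g1 t0 + Ct F1 t0 else w t :=
    ⟨_, rfl⟩
  have hw'eq : ∀ z, w' z = g1 z + Ct F1 z := by
    intro z
    rw [hw']
    by_cases hz : z = t0
    · rw [hz]; simp
    · simp only [if_neg hz]
      rw [hg1g z hz, hg]; ring
  refine ⟨w', min (r1 / 2) (1 / 2), C3 + C2, lt_min (by linarith) (by norm_num), ?_, ?_, ?_⟩
  · exact (Metric.ball_subset_ball (min_le_left _ _)).trans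
      ((Metric.ball_subset_closedBall.trans (Metric.closedBall_subset_closedBall
        (by linarith))).trans hball)
  · intro t ht
    rw [hw']; simp [ht]
  · intro z hz z' hz'
    have m1 : z ∈ Metric.closedBall t0 (r1 / 2) :=
      Metric.ball_subset_closedBall (Metric.ball_subset_ball (min_le_left _ _) hz)
    have m2 : z' ∈ Metric.closedBall t0 (r1 / 2) :=
      Metric.ball_subset_closedBall (Metric.ball_subset_ball (min_le_left _ _) hz')
    have h4 : ‖z - z'‖ ≤ 1 := by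
      have a1 : dist z t0 < 1 / 2 := Metric.ball_subset_ball (min_le_right _ _) hz
      have a2 : dist z' t0 < 1 / 2 := Metric.ball_subset_ball (min_le_right _ _) hz'
      have a3 := dist_triangle_right z z' t0
      rw [← dist_eq_norm]; linarith
    have h5 : ‖z - z'‖ ≤ ‖z - z'‖ ^ (1 / 2 : ℝ) := by
      calc ‖z - z'‖ = ‖z - z'‖ ^ (1 : ℝ) := (Real.rpow_one _).symm
        _ ≤ ‖z - z'‖ ^ (1 / 2 : ℝ) :=
          Real.rpow_le_rpow_of_exponent_ge' (norm_nonneg _) h4 (by norm_num) (by norm_num)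
    rw [hw'eq, hw'eq]
    calc ‖g1 z + Ct F1 z - (g1 z' + Ct F1 z')‖ = ‖(g1 z - g1 z') + (Ct F1 z - Ct F1 z')‖ := by
          congr 1; ring
      _ ≤ ‖g1 z - g1 z'‖ + ‖Ct F1 z - Ct F1 z'‖ := norm_add_le _ _
      _ ≤ C3 * ‖z - z'‖ + C2 * ‖z - z'‖ ^ (1 / 2 : ℝ) :=
          add_le_add (hg1L z m1 z' m2) (hhol z z')
      _ ≤ C3 * ‖z - z'‖ ^ (1 / 2 : ℝ) + C2 * ‖z - z'‖ ^ (1 / 2 : ℝ) := by gcongr
      _ = (C3 + C2) * ‖z - z'‖ ^ (1 / 2 : ℝ) := by ring

end Pool.Agent.Helper614.HE.P_REM1
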