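import Pool.Agent.Helper614.HE.SpecC
set_option autoImplicit false

open scoped Manifold ContDiff Matrix ComplexOrder
open Matrix Topology MeasureTheory Set Filter

namespace Pool.Agent.Helper614.HE.P_REM2

open Pool.Agent.Helper614.HE



/-
PROOF OF THE TARGET IN WORDS
Choose 0 < r1 < r, K = closedBall(t0,r1), F1 = F on K, 0 elsewhere: F is continuous and bounded on K (Hoelder), so F1 is measurable, bounded, with compact support, F1(w)/(z-w) is integrable (CH), and F1 is
Hoelder with exponent theta on the ball(t0,r1). By LH Ct F1 is C^1 on ball(t0,r1) (including t0), with dzb = F. g = w - Ct F1 is C^1 on the punctured ball, dzb g = 0, so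
complex differentiable there, and bounded (w is bounded on D minus {t0}, Ct F1 continuous). By Riemann's theorem it extends to g1 holomorphic on the ball(t0,r1). w' = w for t not t0 and
w'(t0) = g1(t0) + Ct F1(t0). Then w' = g1 + Ct F1 on the ball, so it is C^1 at t0, with dzb w' (t0) = 0 + F(t0).
-/
theorem REM2_clike {g : ℂ → ℂ} {z : ℂ} (hg : DifferentiableAt ℝ g z) (h : dzb g z = 0) :
    DifferentiableAt ℂ g z := by
  rw [differentiableAt_complex_iff_differentiableAt_real]
  refine ⟨hg, ?_⟩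
  have h2 : fderiv ℝ g z 1 + Complex.I * fderiv ℝ g z Complex.I = 0 := by
    unfold dzb at h
    have := div_eq_zero_iff.1 h
    rcases this with h' | h'
    · exact h'
    · norm_num at h'
  have h3 : Complex.I * (fderiv ℝ g z 1 + Complex.I * fderiv ℝ g z Complex.I) = 0 := by
    rw [h2, mul_zero]
  have h4 : Complex.I * fderiv ℝ g z 1 - fderiv ℝ g z Complex.I = 0 := by
    have e : Complex.I * (fderiv ℝ g z 1 + Complex.I * fderiv ℝ g z Complex.I)
      = Complex.I * fderiv ℝ g z 1 + (Complex.I * Complex.I) * fderiv ℝ g z Complex.I := by ring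
    rw [e, Complex.I_mul_I] at h3
    linear_combination h3
  rw [smul_eq_mul]
  linear_combination -h4

theorem REM2_dzb_of_diff {g : ℂ → ℂ} {z : ℂ} (hg : DifferentiableAt ℂ g z) : dzb g z = 0 := by
  have h := (differentiableAt_complex_iff_differentiableAt_real.1 hg).2
  unfold dzb
  rw [h, smul_eq_mul, ← mul_assoc, Complex.I_mul_I]
  ring

theorem REM2_dzb_add {f g : ℂ → ℂ} {z : ℂ} (hf : DifferentiableAt ℝ f z) (hg : DifferentiableAt ℝ g z) :
    dzb (fun t => f t + g t) z = dzb f z + dzb g z := by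
  unfold dzb
  have : fderiv ℝ (fun t => f t + g t) z = fderiv ℝ f z + fderiv ℝ g z := fderiv_fun_add hf hg
  rw [this]
  simp only [_root_.add_apply]
  ring

theorem REM2_dzb_sub {f g : ℂ → ℂ} {z : ℂ} (hf : DifferentiableAt ℝ f z) (hg : DifferentiableAt ℝ g z) :
    dzb (fun t => f t - g t) z = dzb f z - dzb g z := by
  unfold dzb
  have : fderiv ℝ (fun t => f t - g t) z = fderiv ℝ f z - fderiv ℝ g z := fderiv_fun_sub hf hg
  rw [this]
  simp only [_root_.sub_apply]
  ring

-- TARGET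
theorem REM2 (hLH : T_LH) (hCH : T_CH) : T_REM2 := by
  classical
  intro D hD t0 ht0 w F r θ L hr hθ hθ1 hball hF hw hbd
  obtain ⟨C0, hC0⟩ := hbd
  -- the truncated right hand side
  set r1 : ℝ := r / 2 with hr1
  have hr1pos : 0 < r1 := by positivity
  set K : Set ℂ := Metric.closedBall t0 r1 with hK
  have hKsub : K ⊆ Metric.ball t0 r := Metric.closedBall_subset_ball (by rw [hr1]; linarith)
  have hFc : ContinuousOn F (Metric.ball t0 r) := by
    intro z hz
    rw [ContinuousWithinAt, tendsto_iff_norm_sub_tendsto_zero]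
    have h1 : Tendsto (fun x : ℂ => L * ‖x - z‖ ^ θ) (𝓝[Metric.ball t0 r] z) (𝓝 0) := by
      have h2 : ContinuousAt (fun x : ℂ => L * ‖x - z‖ ^ θ) z := by
        refine ContinuousAt.mul continuousAt_const ?_
        refine ContinuousAt.rpow_const ?_ (Or.inr hθ.le)
        fun_prop
      have h3 := h2.tendsto
      simp only [sub_self, norm_zero, Real.zero_rpow hθ.ne', mul_zero] at h3
      exact h3.mono_left nhdsWithin_le_nhds
    refine squeeze_zero' (Eventually.of_forall fun _ => norm_nonneg _) ?_ h1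
    filter_upwards [self_mem_nhdsWithin] with x hx
    exact hF x hx z hz
  have hFcK : ContinuousOn F K := hFc.mono hKsub
  set F1 : ℂ → ℂ := K.piecewise F (fun _ => 0) with hF1
  have hF1m : Measurable F1 :=
    ContinuousOn.measurable_piecewise hFcK continuousOn_const Metric.isClosed_closedBall.measurableSet
  have hKc : IsCompact K := isCompact_closedBall t0 r1
  obtain ⟨c, hc⟩ := (hKc.bddAbove_image hFcK.norm)
  have hF1K : ∀ z ∈ K, F1 z = F z := fun z hz => Set.piecewise_eq_of_mem _ _ _ hz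
  have hF1nK : ∀ z, z ∉ K → F1 z = 0 := fun z hz => Set.piecewise_eq_of_notMem _ _ _ hz
  have hF1b : ∀ z, ‖F1 z‖ ≤ max c 0 := by
    intro z
    by_cases hz : z ∈ K
    · rw [hF1K z hz]
      exact le_max_of_le_left (hc ⟨z, hz, rfl⟩)
    · rw [hF1nK z hz, norm_zero]
      exact le_max_right _ _
  obtain ⟨C1, hC1⟩ := hCH (‖t0‖ + r1) (max c 0)
  obtain ⟨hint, hhold⟩ := hC1 F1 hF1m hF1b (by
    intro z hz
    apply hF1nK
    intro hzK
    rw [hK, Metric.mem_closedBall, dist_eq_norm] at hzK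
    have : ‖z‖ ≤ ‖t0‖ + ‖z - t0‖ := by
      calc ‖z‖ = ‖t0 + (z - t0)‖ := by congr 1; ring
        _ ≤ _ := norm_add_le _ _
    linarith)
  have hsub1 : Metric.ball t0 r1 ⊆ K := Metric.ball_subset_closedBall
  obtain ⟨hLHa, -⟩ := hLH F1 hF1m hint t0 r1 θ L hr1pos hθ hθ1 (by
    intro z hz z' hz'
    rw [hF1K z (hsub1 hz), hF1K z' (hsub1 hz')]
    exact hF z (hKsub (hsub1 hz)) z' (hKsub (hsub1 hz')))
  have hballD : Metric.ball t0 r1 ⊆ D := fun z hz => hball (hKsub (hsub1 hz))
  -- the holomorphic remainder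
  set g : ℂ → ℂ := fun t => w t - Ct F1 t with hg
  have hgd : DifferentiableOn ℂ g (Metric.ball t0 r1 \ {t0}) := by
    intro z hz
    have hz1 : z ∈ Metric.ball t0 r1 := hz.1
    have hz2 : z ∈ D \ {t0} := ⟨hballD hz1, hz.2⟩
    obtain ⟨hwc, hwz⟩ := hw z hz2
    obtain ⟨hcc, hcz⟩ := hLHa z hz1
    have hwd : DifferentiableAt ℝ w z := hwc.differentiableAt (by norm_num)
    have hcd : DifferentiableAt ℝ (Ct F1) z := hcc.differentiableAt (by norm_num)
    have : DifferentiableAt ℂ g z := by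
      have e : dzb (fun t => w t - Ct F1 t) z = 0 := by
        rw [REM2_dzb_sub hwd hcd, hwz, hcz, hF1K z (hsub1 hz1), sub_self]
      exact REM2_clike (g := fun t => w t - Ct F1 t) (hwd.sub hcd) e
    exact this.differentiableWithinAt
  have hgb : BddAbove (norm ∘ g '' (Metric.ball t0 r1 \ {t0})) := by
    refine ⟨C0 + (‖Ct F1 t0‖ + |C1| * r1 ^ (1 / 2 : ℝ)), ?_⟩
    rintro _ ⟨z, hz, rfl⟩
    have hz2 : z ∈ D \ {t0} := ⟨hballD hz.1, hz.2⟩
    have h1 : ‖w z‖ ≤ C0 := hC0 z hz2
    have h2 : ‖Ct F1 z‖ ≤ ‖Ct F1 t0‖ + |C1| * r1 ^ (1 / 2 : ℝ) := by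
      have h3 := hhold z t0
      have h4 : ‖Ct F1 z‖ ≤ ‖Ct F1 t0‖ + ‖Ct F1 z - Ct F1 t0‖ := by
        calc ‖Ct F1 z‖ = ‖Ct F1 t0 + (Ct F1 z - Ct F1 t0)‖ := by congr 1; ring
          _ ≤ _ := norm_add_le _ _
      have h5 : ‖z - t0‖ ^ (1 / 2 : ℝ) ≤ r1 ^ (1 / 2 : ℝ) := by
        apply Real.rpow_le_rpow (norm_nonneg _) _ (by norm_num)
        have := hz.1
        rw [Metric.mem_ball, dist_eq_norm] at this
        exact this.le
      have h6 : C1 * ‖z - t0‖ ^ (1 / 2 : ℝ) ≤ |C1| * r1 ^ (1 / 2 : ℝ) := by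
        calc C1 * ‖z - t0‖ ^ (1 / 2 : ℝ) ≤ |C1| * ‖z - t0‖ ^ (1 / 2 : ℝ) := by
              apply mul_le_mul_of_nonneg_right (le_abs_self _)
              positivity
          _ ≤ _ := mul_le_mul_of_nonneg_left h5 (abs_nonneg _)
      linarith
    have h7 : ‖g z‖ ≤ ‖w z‖ + ‖Ct F1 z‖ := norm_sub_le _ _
    simp only [Function.comp]
    linarith
  have hnhd : Metric.ball t0 r1 ∈ 𝓝 t0 := Metric.ball_mem_nhds t0 hr1pos
  set g1 : ℂ → ℂ := Function.update g t0 (limUnder (𝓝[≠] t0) g) with hg1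
  have hg1d : DifferentiableOn ℂ g1 (Metric.ball t0 r1) :=
    Complex.differentiableOn_update_limUnder_of_bddAbove hnhd hgd hgb
  have hg1an : AnalyticAt ℂ g1 t0 := hg1d.analyticAt hnhd
  have hg1c : ContDiffAt ℝ 1 g1 t0 := (hg1an.contDiffAt (n := 1)).restrict_scalars ℝ
  have ht0b : t0 ∈ Metric.ball t0 r1 := Metric.mem_ball_self hr1pos
  obtain ⟨hcc, hcz⟩ := hLHa t0 ht0b
  refine ⟨fun t => g1 t + Ct F1 t, ?_, hg1c.add hcc, ?_⟩
  · intro t ht
    simp only [hg1, Function.update_of_ne ht, hg]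
    ring
  · rw [REM2_dzb_add (hg1c.differentiableAt (by norm_num)) (hcc.differentiableAt (by norm_num)),
      REM2_dzb_of_diff hg1an.differentiableAt, hcz, hF1K t0 (hsub1 ht0b), zero_add]

end Pool.Agent.Helper614.HE.P_REM2
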