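import Pool.Agent.Helper614.HE.SpecC
set_option autoImplicit false

open scoped Manifold ContDiff Matrix ComplexOrder
open Matrix Topology MeasureTheory Set Filter

namespace Pool.Agent.Helper614.HE.P_SB

open Pool.Agent.Helper614.HE



/-
PROOF OF THE TARGET IN WORDS
Rel m is an equivalence relation gluing two copies (Crv m x Bool) of the affine curve; SX m is the quotient. inc m j p = [(p,j)]. Facts: inc m j is injective (two related points with the same Bool are equal, since the second alternative of Rel requires p.2 not equal q.2). [(p,j)] = [(q,!j)] iff p.v q.v = 1 and p.y = q.y p.v^m (Quotient.eq, Rel).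
inc m j is continuous (quotient map composed with the inclusion). inc m j is an open map: for U open in Crv m, the preimage of inc m j '' U in Crv m x {j} is U, and in Crv m x {!j} it is {q : q.v not 0 and (1/q.v, q.y/q.v^m) in U} (this point is in Crv m: (q.y/q.v^m)^4 = (q.v^{4m}+1)/q.v^{4m} = 1 + q.v^{-4m}), which is open, since the map q -> (1/q.v, q.y/q.v^m) is continuous on {q.v not 0}, open. Open in
Crv m x Bool iff both slices are open (isOpen_prod / the topology on a product with a discrete factor). So inc m j is an open embedding: IsOpenEmbedding.of_continuous_injective_isOpenMap. UU m j = range is open. cover: every element of the quotient is [(p,j)], j in {false,true}.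
VV_inc, YY_inc: Exists.choose_spec and injectivity. eqn: from the definition of Crv. mem_other: [(p,j)] is in UU (!j) iff exists q with the relation iff p.v not 0 (q = (1/p.v, p.y/p.v^m)). VV_other, YY_other: from the relation: q.v = 1/p.v, p.y = q.y p.v^m. ext: injectivity of coordinates on Crv m. surj: clear.
contV, contY: on the open set UU m j the function VV m j composed with inc m j is the coordinate, continuous: use the open embedding (IsOpenEmbedding.continuousAt_iff or the inverse homeomorphism onto the range).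
-/
-- TARGET
theorem SB_inc_inj (m : ℕ) (j : Bool) : Function.Injective (inc m j) := by
  intro p q h
  rcases (Quotient.exact h : Rel m (p, j) (q, j)) with h | h
  · exact (Prod.mk.inj h).1
  · exact absurd rfl h.1

theorem SB_inc_other (m : ℕ) (j : Bool) (p q : Crv m) :
    inc m j p = inc m (!j) q ↔ p.1.1 * q.1.1 = 1 ∧ p.1.2 = q.1.2 * p.1.1 ^ m := by
  constructor
  · intro h
    rcases (Quotient.exact h : Rel m (p, j) (q, !j)) with h | h
    · exfalso
      have := (Prod.mk.inj h).2
      cases j <;> simp at this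
    · exact ⟨h.2.1, h.2.2⟩
  · rintro ⟨h1, h2⟩
    apply Quotient.sound
    refine Or.inr ⟨?_, h1, h2⟩
    cases j <;> simp

theorem SB_flip_mem (m : ℕ) (q : Crv m) (h : q.1.1 ≠ 0) :
    ((q.1.1⁻¹, q.1.2 / q.1.1 ^ m) : ℂ × ℂ) ∈ Crv m := by
  have hq : q.1.2 ^ 4 = q.1.1 ^ (4 * m) + 1 := q.2
  show (q.1.2 / q.1.1 ^ m) ^ 4 = (q.1.1⁻¹) ^ (4 * m) + 1
  rw [div_pow, hq, ← pow_mul, mul_comm m 4, inv_pow]
  field_simp
  ring

theorem SB_inc_flip (m : ℕ) (j : Bool) (q : Crv m) (h : q.1.1 ≠ 0) :
    inc m j ⟨_, SB_flip_mem m q h⟩ = inc m (!j) q := by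
  rw [SB_inc_other]
  refine ⟨inv_mul_cancel₀ h, ?_⟩
  show q.1.2 / q.1.1 ^ m = q.1.2 * (q.1.1⁻¹) ^ m
  rw [inv_pow, div_eq_mul_inv]

theorem SB_inc_other' (m : ℕ) (j : Bool) (u q : Crv m) :
    inc m j u = inc m (!j) q ↔ ∃ h : q.1.1 ≠ 0, u = ⟨_, SB_flip_mem m q h⟩ := by
  constructor
  · intro hu
    have h := (SB_inc_other m j u q).1 hu
    have hq : q.1.1 ≠ 0 := right_ne_zero_of_mul_eq_one h.1
    refine ⟨hq, ?_⟩
    apply SB_inc_inj m j
    rw [SB_inc_flip m j q hq, hu]
  · rintro ⟨h, rfl⟩
    exact SB_inc_flip m j q h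

theorem SB_inc_cont (m : ℕ) (j : Bool) : Continuous (inc m j) :=
  (continuous_quotient_mk' (s := relSetoid m)).comp
    (Continuous.prodMk continuous_id continuous_const)

theorem SB_isOpen_slices {X : Type*} [TopologicalSpace X] (S : Set (X × Bool))
    (h : ∀ b, IsOpen {x | (x, b) ∈ S}) : IsOpen S := by
  have : S = ⋃ b : Bool, {x | (x, b) ∈ S} ×ˢ ({b} : Set Bool) := by
    ext ⟨x, b⟩
    simp
  rw [this]
  exact isOpen_iUnion fun b => (h b).prod (isOpen_discrete _)

theorem SB_inc_open (m : ℕ) (j : Bool) : IsOpenMap (inc m j) := by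
  intro U hU
  have hq : IsQuotientMap (Quotient.mk (relSetoid m)) := isQuotientMap_quotient_mk'
  have hkey : IsOpen ((Quotient.mk (relSetoid m)) ⁻¹' (inc m j '' U)) := by
    apply SB_isOpen_slices
    intro b
    by_cases hb : b = j
    · subst hb
      have : {x | (x, b) ∈ (Quotient.mk (relSetoid m)) ⁻¹' (inc m b '' U)} = U := by
        ext x
        constructor
        · rintro ⟨u, hu, hux⟩
          have : u = x := SB_inc_inj m b hux
          exact this ▸ hu
        · intro hx
          exact ⟨x, hx, rfl⟩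
      rw [this]
      exact hU
    · have hb' : b = !j := by cases b <;> cases j <;> simp_all
      subst hb'
      obtain ⟨V, hV, rfl⟩ := isOpen_induced_iff.1 hU
      have : {x | (x, !j) ∈ (Quotient.mk (relSetoid m)) ⁻¹' (inc m j '' (Subtype.val ⁻¹' V))} =
          {q : Crv m | q.1.1 ≠ 0} ∩ (fun q : Crv m => ((q.1.1⁻¹, q.1.2 / q.1.1 ^ m) : ℂ × ℂ)) ⁻¹' V := by
        ext x
        constructor
        · rintro ⟨u, hu, hux⟩
          obtain ⟨h, rfl⟩ := (SB_inc_other' m j u x).1 hux
          exact ⟨h, hu⟩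
        · rintro ⟨h, hx⟩
          exact ⟨⟨_, SB_flip_mem m x h⟩, hx, SB_inc_flip m j x h⟩
      rw [this]
      have hc1 : Continuous (fun q : Crv m => q.1.1) := continuous_fst.comp continuous_subtype_val
      have hc2 : Continuous (fun q : Crv m => q.1.2) := continuous_snd.comp continuous_subtype_val
      apply ContinuousOn.isOpen_inter_preimage
      · refine ContinuousOn.prodMk ?_ ?_
        · exact hc1.continuousOn.inv₀ (fun q hq => hq)
        · exact hc2.continuousOn.div (hc1.continuousOn.pow m) (fun q hq => pow_ne_zero m hq)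
      · exact isOpen_ne_fun hc1 continuous_const
      · exact hV
  exact hq.isOpen_preimage.1 hkey

theorem SB_embed (m : ℕ) (j : Bool) : IsOpenEmbedding (inc m j) :=
  IsOpenEmbedding.of_continuous_injective_isOpenMap (SB_inc_cont m j) (SB_inc_inj m j)
    (SB_inc_open m j)

theorem SB_VV_inc (m : ℕ) (j : Bool) (p : Crv m) : VV m j (inc m j p) = p.1.1 := by
  have h : inc m j p ∈ UU m j := ⟨p, rfl⟩
  unfold VV
  rw [dif_pos h]
  have h2 : inc m j h.choose = inc m j p := h.choose_spec
  have h3 : h.choose = p := SB_inc_inj m j h2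
  rw [h3]

theorem SB_YY_inc (m : ℕ) (j : Bool) (p : Crv m) : YY m j (inc m j p) = p.1.2 := by
  have h : inc m j p ∈ UU m j := ⟨p, rfl⟩
  unfold YY
  rw [dif_pos h]
  have h2 : inc m j h.choose = inc m j p := h.choose_spec
  have h3 : h.choose = p := SB_inc_inj m j h2
  rw [h3]

theorem SB : T_SB := by
  intro m hm
  refine ⟨?_, ?_, ?_, ?_, ?_, ?_, ?_, ?_, ?_, ?_, SB_embed m, SB_VV_inc m, SB_YY_inc m⟩
  · intro j
    exact (SB_embed m j).isOpen_range
  · intro x
    obtain ⟨⟨p, j⟩, rfl⟩ := Quotient.exists_rep x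
    cases j
    · exact Or.inl ⟨p, rfl⟩
    · exact Or.inr ⟨p, rfl⟩
  · rintro j x ⟨p, rfl⟩
    rw [SB_VV_inc, SB_YY_inc]
    exact p.2
  · rintro j x ⟨p, rfl⟩
    rw [SB_VV_inc]
    constructor
    · rintro ⟨q, hq⟩
      exact left_ne_zero_of_mul_eq_one ((SB_inc_other m j p q).1 hq.symm).1
    · intro h
      have := SB_inc_flip m (!j) p h
      rw [Bool.not_not] at this
      exact ⟨_, this⟩
  · rintro j x ⟨p, rfl⟩ ⟨q, hq⟩
    rw [SB_VV_inc, ← hq, SB_VV_inc]
    have := ((SB_inc_other m j p q).1 hq.symm).1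
    exact eq_inv_of_mul_eq_one_right this
  · rintro j x ⟨p, rfl⟩ ⟨q, hq⟩
    rw [SB_VV_inc, SB_YY_inc, ← hq, SB_YY_inc]
    have := ((SB_inc_other m j p q).1 hq.symm)
    have hp : p.1.1 ≠ 0 := left_ne_zero_of_mul_eq_one this.1
    rw [this.2, mul_div_assoc, div_self (pow_ne_zero m hp), mul_one]
  · rintro j x ⟨p, rfl⟩ x' ⟨q, rfl⟩ h1 h2
    rw [SB_VV_inc, SB_VV_inc] at h1
    rw [SB_YY_inc, SB_YY_inc] at h2
    rw [Subtype.ext (Prod.ext h1 h2)]
  · intro j a b h
    exact ⟨inc m j ⟨(a, b), h⟩, ⟨_, rfl⟩, SB_VV_inc m j _, SB_YY_inc m j _⟩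
  · intro j x hx
    obtain ⟨p, rfl⟩ := hx
    apply ContinuousAt.continuousWithinAt
    rw [← (SB_embed m j).continuousAt_iff]
    have : VV m j ∘ inc m j = fun p => p.1.1 := funext (SB_VV_inc m j)
    rw [this]
    exact (continuous_fst.comp continuous_subtype_val).continuousAt
  · intro j x hx
    obtain ⟨p, rfl⟩ := hx
    apply ContinuousAt.continuousWithinAt
    rw [← (SB_embed m j).continuousAt_iff]
    have : YY m j ∘ inc m j = fun p => p.1.2 := funext (SB_YY_inc m j)
    rw [this]
    exact (continuous_snd.comp continuous_subtype_val).continuousAt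

end Pool.Agent.Helper614.HE.P_SB
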