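import Pool.Agent.Helper614.HE.SpecC
set_option autoImplicit false

open scoped Manifold ContDiff Matrix ComplexOrder
open Matrix Topology MeasureTheory Set Filter

namespace Pool.Agent.Helper614.HE.P_ST1

open Pool.Agent.Helper614.HE




theorem ST1_finrank_one : Module.finrank ℂ (FF 1) = 1 := by
  have e : FF 1 ≃ₗ[ℂ] (Fin 1 → ℂ) :=
    { toFun := fun v => fun _ => (v : Fin 3 → ℂ) 2
      map_add' := fun a b => rfl
      map_smul' := fun c a => rfl
      invFun := fun w => ⟨![0, 0, w 0], by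
        intro k hk
        fin_cases k
        · rfl
        · rfl
        · simp at hk⟩
      left_inv := by
        rintro ⟨v, hv⟩
        apply Subtype.ext
        funext k
        fin_cases k
        · exact (hv 0 (by simp)).symm
        · exact (hv 1 (by simp)).symm
        · rfl
      right_inv := by
        intro w
        funext k
        fin_cases k
        rfl }
  rw [e.finrank_eq]; simp

theorem ST1_finrank_two : Module.finrank ℂ (FF 2) = 2 := by
  have e : FF 2 ≃ₗ[ℂ] (Fin 2 → ℂ) :=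
    { toFun := fun v => ![(v : Fin 3 → ℂ) 1, (v : Fin 3 → ℂ) 2]
      map_add' := fun a b => by
        funext k; fin_cases k <;> rfl
      map_smul' := fun c a => by
        funext k; fin_cases k <;> rfl
      invFun := fun w => ⟨![0, w 0, w 1], by
        intro k hk
        fin_cases k
        · rfl
        · simp at hk
        · simp at hk⟩
      left_inv := by
        rintro ⟨v, hv⟩
        apply Subtype.ext
        funext k
        fin_cases k
        · exact (hv 0 (by simp)).symm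
        · rfl
        · rfl
      right_inv := by
        intro w
        funext k
        fin_cases k <;> rfl }
  rw [e.finrank_eq]; simp

theorem ST1_Nm_mulVec (t A Ψ : ℂ) (v : Fin 3 → ℂ) :
    (t • Nm A Ψ).mulVec v = ![0, t * (A * v 0), t * (Ψ * v 0 + A * v 1)] := by
  rw [Matrix.smul_mulVec]
  funext k
  fin_cases k <;> simp [Nm, dotProduct, Fin.sum_univ_three]

/-- linear algebra -/
theorem ST1_lin (t A Ψ : ℂ) (ht : t ≠ 0) (hA : A ≠ 0) (r : ℕ) (hr0 : 0 < r) (hr : r < 3)
    (S : Submodule ℂ (Fin 3 → ℂ)) (hS : Module.finrank ℂ S = r)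
    (hinv : ∀ v ∈ S, (t • Nm A Ψ).mulVec v ∈ S) (v : Fin 3 → ℂ) (hv : v ∈ S) :
    v ∈ FF r := by
  have hN1 : ∀ v ∈ S, (![0, t * (A * v 0), t * (Ψ * v 0 + A * v 1)] : Fin 3 → ℂ) ∈ S := by
    intro v hv
    have := hinv v hv
    rwa [ST1_Nm_mulVec] at this
  -- if a vector of `S` has nonzero component `1` and zero component `0`, then `FF 2 ≤ S`
  have h2 : ∀ v ∈ S, v 0 = 0 → v 1 ≠ 0 → FF 2 ≤ S := by
    intro v hv h0 h1
    have ha := hN1 v hv
    rw [h0] at ha
    have hc : t * (A * v 1) ≠ 0 := mul_ne_zero ht (mul_ne_zero hA h1)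
    have he2 : (![0, 0, 1] : Fin 3 → ℂ) ∈ S := by
      have := S.smul_mem (t * (A * v 1))⁻¹ ha
      convert this using 1
      funext k
      fin_cases k
      · simp
      · simp
      · show (1 : ℂ) = (t * (A * v 1))⁻¹ * (t * (Ψ * 0 + A * v 1))
        rw [mul_zero, zero_add, inv_mul_cancel₀ hc]
    have he1 : (![0, 1, 0] : Fin 3 → ℂ) ∈ S := by
      have := S.smul_mem (v 1)⁻¹ (S.sub_mem hv (S.smul_mem (v 2) he2))
      convert this using 1
      funext k
      fin_cases k
      · show (0 : ℂ) = (v 1)⁻¹ * (v 0 - v 2 * 0)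
        rw [h0]; ring
      · show (1 : ℂ) = (v 1)⁻¹ * (v 1 - v 2 * 0)
        rw [mul_zero, sub_zero, inv_mul_cancel₀ h1]
      · show (0 : ℂ) = (v 1)⁻¹ * (v 2 - v 2 * 1)
        ring
    intro w hw
    have hw0 : w 0 = 0 := hw 0 (by simp)
    have := S.add_mem (S.smul_mem (w 1) he1) (S.smul_mem (w 2) he2)
    convert this using 1
    funext k
    fin_cases k
    · show w 0 = w 1 * 0 + w 2 * 0
      rw [hw0]; ring
    · show w 1 = w 1 * 1 + w 2 * 0
      ring
    · show w 2 = w 1 * 0 + w 2 * 1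
      ring
  have h3 : ∀ v ∈ S, v 0 = 0 := by
    intro v hv
    by_contra h0
    have ha := hN1 v hv
    have hle : FF 2 ≤ S := h2 _ ha rfl (mul_ne_zero ht (mul_ne_zero hA h0))
    have htop : S = ⊤ := by
      rw [Submodule.eq_top_iff']
      intro w
      have hb : w - (w 0 * (v 0)⁻¹) • v ∈ FF 2 := by
        intro k hk
        fin_cases k
        · show w 0 - (w 0 * (v 0)⁻¹) * v 0 = 0
          rw [mul_assoc, inv_mul_cancel₀ h0, mul_one, sub_self]
        · simp at hk
        · simp at hk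
      have := S.add_mem (hle hb) (S.smul_mem (w 0 * (v 0)⁻¹) hv)
      simpa using this
    rw [htop, finrank_top] at hS
    simp at hS
    omega
  intro k hk
  fin_cases k
  · exact h3 v hv
  · by_contra h1
    have hle : FF 2 ≤ S := h2 v hv (h3 v hv) h1
    have := Submodule.finrank_mono hle
    rw [ST1_finrank_two, hS] at this
    simp at hk
    omega
  · simp at hk
    omega

theorem ST1_AA_finite (M : ℕ) (hM : 2 ≤ M) (j : Bool) : {v : ℂ | AA M j v = 0}.Finite := by
  have hP : ∀ k : ℕ, {v : ℂ | v ^ k * (v ^ (2 * M) - 1) = 0}.Finite := by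
    intro k
    have hne : (Polynomial.X ^ k * (Polynomial.X ^ (2 * M) - Polynomial.C 1) : Polynomial ℂ) ≠ 0 :=
      mul_ne_zero (pow_ne_zero _ Polynomial.X_ne_zero)
        (Polynomial.X_pow_sub_C_ne_zero (by omega) 1)
    refine (Polynomial.finite_setOfPred_isRoot hne).subset ?_
    intro v hv
    simp only [Set.mem_ofPred_eq] at hv
    simp only [Set.mem_ofPred_eq, Polynomial.IsRoot.def, Polynomial.eval_mul, Polynomial.eval_pow,
      Polynomial.eval_X, Polynomial.eval_sub, Polynomial.eval_C]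
    exact hv
  cases j
  · refine (hP (M - 1)).subset ?_
    intro v hv
    simpa [AA] using hv
  · refine (hP (M - 2)).subset ?_
    intro v hv
    have hv' : -(v ^ (M - 2) * (1 - v ^ (2 * M))) = 0 := by simpa [AA] using hv
    show v ^ (M - 2) * (v ^ (2 * M) - 1) = 0
    rw [← hv']; ring


theorem ST1 (hTH : T_TH) : T_ST1 := by
  intro M hM inst hSB hSG h r hr0 hr F hF i x₀ hx₀
  obtain ⟨B, V, hVo, hx0V, hVU, hBd, hBs⟩ := hF.frame i x₀ hx₀
  set e := chartAt ℂ x₀ with he
  have heA : e ∈ atlas ℂ (SX (4 * M)) := chart_mem_atlas ℂ x₀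
  have hxe : x₀ ∈ e.source := mem_chart_source ℂ x₀
  have hfin : ∀ x ∈ V, Module.finrank ℂ (F i x) = r := by
    intro x hx
    obtain ⟨h1, h2⟩ := hBs x hx
    rw [← h2, finrank_span_eq_card h1, Fintype.card_fin]
  obtain ⟨_, _, th3, th4, _, th6⟩ := hTH (4 * M) (by omega) inst hSB hSG e heA i
  set z₀ := e x₀ with hz₀
  have hz₀t : z₀ ∈ e.target := e.map_source hxe
  have hz₀s : e.symm z₀ = x₀ := e.left_inv hxe
  have hD : IsOpen (e.target ∩ e.symm ⁻¹' UU (4 * M) i) :=
    e.isOpen_inter_preimage_symm (hSB.isOpen_UU i)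
  have hDV : IsOpen (e.target ∩ e.symm ⁻¹' V) := e.isOpen_inter_preimage_symm hVo
  have hz₀D : z₀ ∈ e.target ∩ e.symm ⁻¹' UU (4 * M) i := ⟨hz₀t, Set.mem_preimage.2 (by rw [hz₀s]; exact hx₀)⟩
  have hz₀V : z₀ ∈ e.target ∩ e.symm ⁻¹' V := ⟨hz₀t, Set.mem_preimage.2 (by rw [hz₀s]; exact hx0V)⟩
  have hY := th6 z₀ hz₀D
  have hnV : ∀ᶠ z in 𝓝[≠] z₀, z ∈ e.target ∩ e.symm ⁻¹' V :=
    eventually_nhdsWithin_of_eventually_nhds (hDV.mem_nhds hz₀V)
  have hnD : ∀ᶠ z in 𝓝[≠] z₀, z ∈ e.target ∩ e.symm ⁻¹' UU (4 * M) i :=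
    eventually_nhdsWithin_of_eventually_nhds (hD.mem_nhds hz₀D)
  have hVan : AnalyticAt ℂ (fun z => VV (4 * M) i (e.symm z)) z₀ :=
    (hSG.holoV e heA i).analyticAt (hD.mem_nhds hz₀D)
  have hder : ∀ᶠ z in 𝓝[≠] z₀, deriv (fun z => VV (4 * M) i (e.symm z)) z ≠ 0 := by
    filter_upwards [hY, hnD] with z hz1 hz2
    have h1 := th4 (e.symm z) ⟨hz2.2, e.map_target hz2.1⟩
    rw [e.right_inv hz2.1] at h1
    rw [h1]
    exact mul_ne_zero (th3 (e.symm z) ⟨hz2.2, e.map_target hz2.1⟩ hz1) hz1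
  have hcne : ∀ c : ℂ, ∀ᶠ z in 𝓝[≠] z₀, VV (4 * M) i (e.symm z) ≠ c := by
    intro c
    rcases (hVan.sub analyticAt_const : AnalyticAt ℂ
      (fun z => VV (4 * M) i (e.symm z) - c) z₀).eventually_eq_zero_or_eventually_ne_zero with h1 | h1
    · exfalso
      have h2 : ∀ᶠ z in 𝓝 z₀, deriv (fun z => VV (4 * M) i (e.symm z)) z = 0 := by
        have h3 : (fun z => VV (4 * M) i (e.symm z)) =ᶠ[𝓝 z₀] fun _ => c := by
          filter_upwards [h1] with z hz
          exact sub_eq_zero.mp hz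
        filter_upwards [h3.eventuallyEq_nhds] with z hz
        rw [hz.deriv_eq, deriv_const]
      have h4 := (eventually_nhdsWithin_of_eventually_nhds (s := {z₀}ᶜ) h2).and hder
      obtain ⟨z, hz1, hz2⟩ := h4.exists
      exact hz2 hz1
    · filter_upwards [h1] with z hz
      exact sub_ne_zero.mp hz
  have hAne : ∀ᶠ z in 𝓝[≠] z₀, AA M i (VV (4 * M) i (e.symm z)) ≠ 0 := by
    have h1 : ∀ᶠ z in 𝓝[≠] z₀, ∀ c ∈ {v : ℂ | AA M i v = 0}, VV (4 * M) i (e.symm z) ≠ c :=
      (Filter.eventually_all_finite (ST1_AA_finite M hM i)).2 fun c _ => hcne c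
    filter_upwards [h1] with z hz hz'
    exact hz _ hz' rfl
  have hle : F i x₀ ≤ FF r := by
    obtain ⟨h1, h2⟩ := hBs x₀ hx0V
    rw [← h2, Submodule.span_le]
    rintro _ ⟨b, rfl⟩ k hk
    have hcont : ContinuousAt (fun z => B (e.symm z) k b) z₀ :=
      ((hBd e heA k b).differentiableAt (hDV.mem_nhds hz₀V)).continuousAt
    have hzero : ∀ᶠ z in 𝓝[≠] z₀, B (e.symm z) k b = 0 := by
      filter_upwards [hY, hnV, hAne] with z hz1 hz2 hz3
      have hxV : e.symm z ∈ V := hz2.2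
      have hxs : e.symm z ∈ e.source := e.map_target hz2.1
      have hxU : e.symm z ∈ UU (4 * M) i := hVU hxV
      obtain ⟨_, h5⟩ := hBs (e.symm z) hxV
      have h6 : (fun a => B (e.symm z) a b) ∈ F i (e.symm z) := by
        rw [← h5]; exact Submodule.subset_span ⟨b, rfl⟩
      have h7 := ST1_lin (th (4 * M) i e (e.symm z)) (AA M i (VV (4 * M) i (e.symm z)))
        (PP M i (VV (4 * M) i (e.symm z))) (th3 _ ⟨hxU, hxs⟩ hz1) hz3 r hr0 hr
        (F i (e.symm z)) (hfin _ hxV)
        (fun v hv => hF.invariant i e heA (e.symm z) ⟨hxU, hxs⟩ v hv) _ h6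
      exact h7 k hk
    have h3 : Tendsto (fun z => B (e.symm z) k b) (𝓝[≠] z₀) (𝓝 (B (e.symm z₀) k b)) :=
      hcont.tendsto.mono_left nhdsWithin_le_nhds
    have h4 : Tendsto (fun z => B (e.symm z) k b) (𝓝[≠] z₀) (𝓝 0) :=
      tendsto_const_nhds.congr' (by
        filter_upwards [hzero] with z hz
        exact hz.symm)
    have h5 := tendsto_nhds_unique h3 h4
    rw [hz₀s] at h5
    exact h5
  refine Submodule.eq_of_le_of_finrank_eq hle ?_
  rw [hfin x₀ hx0V]
  have : r = 1 ∨ r = 2 := by omega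
  rcases this with rfl | rfl
  · exact ST1_finrank_one.symm
  · exact ST1_finrank_two.symm

end Pool.Agent.Helper614.HE.P_ST1
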