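import Pool.Agent.Helper614.HE.SpecC
set_option autoImplicit false

open scoped Manifold ContDiff Matrix ComplexOrder
open Matrix Topology MeasureTheory Set Filter

namespace Pool.Agent.Helper614.HE.P_ST2

open Pool.Agent.Helper614.HE



/-
PROOF OF THE TARGET IN WORDS
HB has iota = Bool, U = UU (4M), g = gg M. For r = 1, 2 let C_r be the 3 x r matrix whose columns are the last r standard basis vectors. S i x := gg M i false x * C_r; for i = false gg = 1, for i = true gg = diag(t,1,1/t), t = VV true x. ord x := -1 if x in UU true and VV (4M) true x = 0, and 0 otherwise.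
S i x = g i j x * S j x on UU i cap UU j: cases i,j in {false,true}; gg true false = diag(t,1,1/t), gg false true = diag(v,1,1/v), v = 1/t (VV_other).
The finite set {ord not 0}: x in UU true with VV true x = 0: then YY^4 = 1; by ext and surj it is in bijection with the 4 solutions of b^4 = 1 in C (1,-1,i,-i), so finsum ord = -4 (finsum over the finite set with 4 elements of -1).
Order at x0 in UU i with frame B: IsLocalFrame: V open around x0, V subset UU i, B holomorphic on it, the columns of B x are a basis of F i x = FF r (as V subset UU i). So B x has zero entries in the rows a with a + r < 3, and the last r rows form an invertible r x r matrix B'(x). Let S'(x) be the last r rows of S i x: it is (r = 1) the 1x1 matrix (1) for i = false and (1/t) for i = true, (r = 2) the identity for i = false and diag(1, 1/t) for i = true.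
T(z) := B'(e.symm z)^{-1} S'(e.symm z), so S = B T near e x0 except possibly at e x0 itself, T is meromorphic at e x0 (the entries of B' are holomorphic at e x0, analytic; det B' is not 0 at e x0; t = VV true (e.symm z) is holomorphic by SGood.holoV), det T = det S'/det B', with det S' = 1 or 1/t. meromorphicOrderAt of det T = order of det S' - order of det B' = order of det S': it is 0 for i = false
(note ord x0 = 0 for x0 in UU false: if x0 is also in UU true then VV true x0 is not 0 by mem_other). For i = true it is minus the order of t at e x0: if t(x0) not 0 it is 0; if t(x0) = 0, then the coordinate e is t itself: by chart_type e.source is in UU j' and e x = VV j' x, YY j' x not 0, or e x = YY j' x, VV j' x not 0; x0 is not in UU false (mem_other), so j' = true, and VV true x0 = 0 so it is the first type: VV true (e.symm z) = z on the target, so t(z) = z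
has order 1 at e x0 = 0, and the order of 1/t is -1.
-/
section ST2aux

/-- the embedding of the last `r` indices -/
def ST2_rho (r : ℕ) (hr : r < 3) (b : Fin r) : Fin 3 := ⟨(b : ℕ) + (3 - r), by omega⟩

theorem ST2_rho_inj (r : ℕ) (hr : r < 3) : Function.Injective (ST2_rho r hr) := by
  intro a b h
  have := congrArg Fin.val h
  simp only [ST2_rho] at this
  exact Fin.ext (by omega)

/-- the last `r` standard basis vectors -/
def ST2_E (r : ℕ) (hr : r < 3) : Matrix (Fin 3) (Fin r) ℂ :=
  Matrix.of fun a b => if a = ST2_rho r hr b then 1 else 0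

theorem ST2_E_mul {r : ℕ} (hr : r < 3) (A : Matrix (Fin 3) (Fin r) ℂ)
    (hA : ∀ b, (fun a => A a b) ∈ FF r) :
    A = ST2_E r hr * A.submatrix (ST2_rho r hr) id := by
  ext a b
  rw [Matrix.mul_apply]
  by_cases h : (a : ℕ) + r < 3
  · have h0 : A a b = 0 := hA b a h
    rw [h0, Finset.sum_eq_zero]
    intro c _
    have : a ≠ ST2_rho r hr c := by
      intro h1
      have := congrArg Fin.val h1
      simp only [ST2_rho] at this
      omega
    simp [ST2_E, this]
  · have hc : ∃ c : Fin r, a = ST2_rho r hr c := by
      refine ⟨⟨(a : ℕ) - (3 - r), by omega⟩, ?_⟩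
      apply Fin.ext
      simp only [ST2_rho]
      omega
    obtain ⟨c, hc⟩ := hc
    rw [Finset.sum_eq_single c]
    · simp [ST2_E, ← hc]
    · intro d _ hd
      have : a ≠ ST2_rho r hr d := by
        intro h1
        exact hd (ST2_rho_inj r hr (h1.symm.trans hc))
      simp [ST2_E, this]
    · intro h1
      exact absurd (Finset.mem_univ _) h1

theorem ST2_diag_E {r : ℕ} (hr : r < 3) (d : Fin 3 → ℂ) :
    Matrix.diagonal d * ST2_E r hr =
      ST2_E r hr * Matrix.diagonal (fun b => d (ST2_rho r hr b)) := by
  ext a b
  rw [Matrix.diagonal_mul, Matrix.mul_diagonal]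
  by_cases h : a = ST2_rho r hr b
  · simp [ST2_E, h]
  · simp [ST2_E, h]

theorem ST2_det_ne {r : ℕ} (hr : r < 3) (A : Matrix (Fin 3) (Fin r) ℂ)
    (hA : ∀ b, (fun a => A a b) ∈ FF r) (hli : LinearIndependent ℂ (fun b a => A a b)) :
    (A.submatrix (ST2_rho r hr) id).det ≠ 0 := by
  intro h0
  obtain ⟨v, hv, hv2⟩ := Matrix.exists_mulVec_eq_zero_iff.mpr h0
  apply hv
  have h1 : A.mulVec v = 0 := by
    rw [ST2_E_mul hr A hA, ← Matrix.mulVec_mulVec, hv2, Matrix.mulVec_zero]
  rw [Fintype.linearIndependent_iff] at hli
  funext b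
  refine hli v ?_ b
  funext a
  have := congrFun h1 a
  simp only [Matrix.mulVec, dotProduct, Pi.zero_apply] at this
  simp only [Finset.sum_apply, Pi.smul_apply, smul_eq_mul, Pi.zero_apply]
  rw [← this]
  exact Finset.sum_congr rfl fun c _ => mul_comm _ _

/-- the diagonal transition function -/
noncomputable def ST2_dd (i : Bool) (t : ℂ) (k : Fin 3) : ℂ :=
  bif i then ![t, 1, t⁻¹] k else 1

theorem ST2_dd_false (t : ℂ) (k : Fin 3) : ST2_dd false t k = 1 := rfl

theorem ST2_dd_true (t : ℂ) (k : Fin 3) : ST2_dd true t k = ![t, 1, t⁻¹] k := rfl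

theorem ST2_mero_det {r : ℕ} {A : ℂ → Matrix (Fin r) (Fin r) ℂ} {z₀ : ℂ}
    (hA : ∀ a b, MeromorphicAt (fun z => A z a b) z₀) : MeromorphicAt (fun z => (A z).det) z₀ := by
  simp only [Matrix.det_apply']
  refine MeromorphicAt.fun_sum fun σ _ => ?_
  exact (MeromorphicAt.const _ _).mul (MeromorphicAt.fun_prod fun i _ => hA _ _)

theorem ST2_anal_det {r : ℕ} {A : ℂ → Matrix (Fin r) (Fin r) ℂ} {z₀ : ℂ}
    (hA : ∀ a b, AnalyticAt ℂ (fun z => A z a b) z₀) : AnalyticAt ℂ (fun z => (A z).det) z₀ := by
  simp only [Matrix.det_apply']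
  refine Finset.analyticAt_fun_sum _ fun σ _ => ?_
  exact analyticAt_const.mul (Finset.analyticAt_fun_prod _ fun i _ => hA _ _)

theorem ST2_mero_inv {r : ℕ} {A : ℂ → Matrix (Fin r) (Fin r) ℂ} {z₀ : ℂ}
    (hA : ∀ a b, MeromorphicAt (fun z => A z a b) z₀) (a b : Fin r) :
    MeromorphicAt (fun z => (A z)⁻¹ a b) z₀ := by
  simp only [Matrix.inv_def, Matrix.smul_apply, Ring.inverse_eq_inv', smul_eq_mul,
    Matrix.adjugate_apply]
  refine ((ST2_mero_det hA).inv).mul (ST2_mero_det ?_)
  intro i j
  by_cases h : i = b
  · subst h
    simp only [Matrix.updateRow_self]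
    exact MeromorphicAt.const _ _
  · simp only [Matrix.updateRow_ne h]
    exact hA i j

end ST2aux

-- TARGET
theorem ST2 : T_ST2 := by
  intro M hM inst hB hG h r hr0 hr F hF
  classical
  let S : Bool → SX (4 * M) → Matrix (Fin 3) (Fin r) ℂ := fun i x => gg M i false x * ST2_E r hr
  let ord : SX (4 * M) → ℤ := fun x => if x ∈ UU (4 * M) true ∧ VV (4 * M) true x = 0 then -1 else 0
  -- the four points
  have hroots : ∃ f : ℂ → SX (4 * M), ∀ b : ℂ, b ^ 4 = 1 →
      f b ∈ UU (4 * M) true ∧ VV (4 * M) true (f b) = 0 ∧ YY (4 * M) true (f b) = b := by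
    have h1 : ∀ b : ℂ, ∃ x : SX (4 * M), b ^ 4 = 1 →
        x ∈ UU (4 * M) true ∧ VV (4 * M) true x = 0 ∧ YY (4 * M) true x = b := by
      intro b
      by_cases hb : b ^ 4 = 1
      · obtain ⟨x, hx1, hx2, hx3⟩ := hB.surj true 0 b (by
          rw [hb, zero_pow (by omega), zero_add])
        exact ⟨x, fun _ => ⟨hx1, hx2, hx3⟩⟩
      · obtain ⟨x, -, -⟩ := hB.surj true 0 1 (by
          rw [one_pow, zero_pow (by omega), zero_add])
        exact ⟨x, fun hb' => absurd hb' hb⟩
    choose f hf using h1
    exact ⟨f, hf⟩
  obtain ⟨f, hf⟩ := hroots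
  have hI4 : Complex.I ^ 4 = 1 := Complex.I_pow_four
  have hb4 : ∀ b : ℂ, b ^ 4 = 1 ↔ b ∈ ({1, -1, Complex.I, -Complex.I} : Finset ℂ) := by
    intro b
    simp only [Finset.mem_insert, Finset.mem_singleton]
    constructor
    · intro hb
      have h1 : (b - 1) * ((b + 1) * ((b - Complex.I) * (b + Complex.I))) = 0 := by
        have h2 : Complex.I ^ 2 = -1 := Complex.I_sq
        calc (b - 1) * ((b + 1) * ((b - Complex.I) * (b + Complex.I)))
            = b ^ 4 - 1 - (b ^ 2 - 1) * (Complex.I ^ 2 + 1) := by ring
          _ = 0 := by rw [hb, h2]; ring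
      rcases mul_eq_zero.mp h1 with h2 | h2
      · left; linear_combination h2
      rcases mul_eq_zero.mp h2 with h2 | h2
      · right; left; linear_combination h2
      rcases mul_eq_zero.mp h2 with h2 | h2
      · right; right; left; linear_combination h2
      · right; right; right; linear_combination h2
    · rintro (rfl | rfl | rfl | rfl)
      · norm_num
      · norm_num
      · exact hI4
      · rw [neg_pow, hI4]; norm_num
  have hcard : ({1, -1, Complex.I, -Complex.I} : Finset ℂ).card = 4 := by
    have e1 : (1 : ℂ) ≠ -1 := by norm_num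
    have e2 : (1 : ℂ) ≠ Complex.I := by
      intro h1
      have := congrArg Complex.re h1
      simp at this
    have e3 : (1 : ℂ) ≠ -Complex.I := by
      intro h1
      have := congrArg Complex.re h1
      simp at this
    have e4 : (-1 : ℂ) ≠ Complex.I := by
      intro h1
      have := congrArg Complex.re h1
      simp at this
    have e5 : (-1 : ℂ) ≠ -Complex.I := by
      intro h1
      have := congrArg Complex.re h1
      simp at this
    have e6 : Complex.I ≠ -Complex.I := by
      intro h1
      have := congrArg Complex.im h1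
      norm_num at this
    rw [Finset.card_insert_of_notMem, Finset.card_insert_of_notMem, Finset.card_insert_of_notMem,
      Finset.card_singleton]
    · simpa using e6
    · simp only [Finset.mem_insert, Finset.mem_singleton, not_or]
      exact ⟨e4, e5⟩
    · simp only [Finset.mem_insert, Finset.mem_singleton, not_or]
      exact ⟨e1, e2, e3⟩
  set R4 : Finset ℂ := {1, -1, Complex.I, -Complex.I} with hR4
  have hset : ∀ x, (x ∈ UU (4 * M) true ∧ VV (4 * M) true x = 0) ↔ x ∈ R4.image f := by
    intro x
    rw [Finset.mem_image]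
    constructor
    · rintro ⟨h1, h2⟩
      have h3 : YY (4 * M) true x ^ 4 = 1 := by
        rw [hB.eqn true x h1, h2, zero_pow (by omega), zero_add]
      refine ⟨YY (4 * M) true x, (hb4 _).mp h3, ?_⟩
      obtain ⟨a1, a2, a3⟩ := hf _ h3
      exact hB.ext true _ a1 _ h1 (by rw [a2, h2]) a3
    · rintro ⟨b, hb, rfl⟩
      obtain ⟨a1, a2, a3⟩ := hf b ((hb4 b).mpr hb)
      exact ⟨a1, a2⟩
  have hinj : Set.InjOn f R4 := by
    intro a ha b hb hab
    have h1 := (hf a ((hb4 a).mpr ha)).2.2
    have h2 := (hf b ((hb4 b).mpr hb)).2.2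
    rw [← h1, ← h2, hab]
  have hcard' : (R4.image f).card = 4 := by
    rw [Finset.card_image_of_injOn hinj, hcard]
  refine ⟨S, ord, ?_, ?_, ?_, ?_⟩
  · -- gluing
    intro i j x hx
    have hx' : x ∈ UU (4 * M) i ∩ UU (4 * M) j := hx
    show gg M i false x * ST2_E r hr = gg M i j x * (gg M j false x * ST2_E r hr)
    rw [← Matrix.mul_assoc]
    congr 1
    obtain ⟨hxi, hxj⟩ := hx'
    rcases i with _ | _ <;> rcases j with _ | _
    · simp [gg]
    · -- false true
      have hne : VV (4 * M) true x ≠ 0 := (hB.mem_other true x hxj).mp hxi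
      have hv : VV (4 * M) false x = (VV (4 * M) true x)⁻¹ := hB.VV_other true x hxj hxi
      simp only [gg, if_true, Bool.false_eq_true, if_false, Bool.true_eq_false]
      rw [Matrix.diagonal_mul_diagonal, ← Matrix.diagonal_one]
      congr 1
      funext k
      fin_cases k
      · simp [hv, hne]
      · simp
      · simp [hv, hne]
    · simp [gg]
    · simp [gg]
  · -- the order
    intro (i : Bool) x₀ hx₀ B hfr e he hxe
    obtain ⟨V, hVo, hxV, hVU, hBh, hBf⟩ := hfr
    have hVU' : V ⊆ UU (4 * M) i := hVU
    have hx₀' : x₀ ∈ UU (4 * M) i := hx₀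
    set z₀ := e x₀ with hz₀
    have hsymm : e.symm z₀ = x₀ := e.left_inv hxe
    have hopen : IsOpen (e.target ∩ e.symm ⁻¹' V) := e.isOpen_inter_preimage_symm hVo
    have hz₀m : z₀ ∈ e.target ∩ e.symm ⁻¹' V := ⟨e.map_source hxe, by
      show e.symm z₀ ∈ V
      rw [hsymm]; exact hxV⟩
    have hnb : e.target ∩ e.symm ⁻¹' V ∈ 𝓝 z₀ := hopen.mem_nhds hz₀m
    have hspan : ∀ x ∈ V, ∀ b, (fun a => B x a b) ∈ FF r := by
      intro x hx b
      have h1 := (hBf x hx).2
      have h2 : F i x = FF r := hF i x (hVU' hx)
      rw [← h2, ← h1]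
      exact Submodule.subset_span ⟨b, rfl⟩
    have hanB : ∀ a b, AnalyticAt ℂ (fun z => B (e.symm z) a b) z₀ := by
      intro a b
      exact (hBh e he a b).analyticAt hnb
    set B' : ℂ → Matrix (Fin r) (Fin r) ℂ :=
      fun z => (B (e.symm z)).submatrix (ST2_rho r hr) id with hB'
    have hanB' : ∀ a b, AnalyticAt ℂ (fun z => B' z a b) z₀ := fun a b => hanB _ _
    have hdetB : (B' z₀).det ≠ 0 := by
      have h1 : (B' z₀) = (B x₀).submatrix (ST2_rho r hr) id := by rw [hB', ← hsymm]
      rw [h1]
      exact ST2_det_ne hr _ (hspan x₀ hxV) (hBf x₀ hxV).1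
    -- the bottom rows of `S`
    set dd : SX (4 * M) → Fin 3 → ℂ := fun x => ST2_dd i (VV (4 * M) true x) with hdd
    have hS : ∀ x, S i x = ST2_E r hr * Matrix.diagonal (fun b => dd x (ST2_rho r hr b)) := by
      intro x
      rw [← ST2_diag_E]
      show gg M i false x * ST2_E r hr = _
      congr 1
      rcases i with _ | _
      · simp only [gg, if_true, hdd]
        exact Matrix.diagonal_one.symm
      · simp only [gg, hdd, Bool.true_eq_false, if_false]
        rfl
    set S' : ℂ → Matrix (Fin r) (Fin r) ℂ :=
      fun z => Matrix.diagonal (fun b => dd (e.symm z) (ST2_rho r hr b)) with hS'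
    have htmer : i = true → MeromorphicAt (fun z => VV (4 * M) true (e.symm z)) z₀ := by
      intro hi
      have h1 := hG.holoV e he true
      refine (h1.analyticAt ?_).meromorphicAt
      refine (e.isOpen_inter_preimage_symm (hB.isOpen_UU true)).mem_nhds ⟨hz₀m.1, ?_⟩
      show e.symm z₀ ∈ UU (4 * M) true
      rw [hsymm, ← hi]; exact hx₀'
    have hmerS : ∀ a b, MeromorphicAt (fun z => S' z a b) z₀ := by
      intro a b
      simp only [hS', Matrix.diagonal_apply]
      by_cases hab : a = b
      · simp only [hab, if_true]
        simp only [hdd]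
        rcases Bool.eq_false_or_eq_true i with hi' | hi
        · rw [hi']
          simp only [ST2_dd_true]
          generalize ST2_rho r hr b = k
          fin_cases k
          · exact htmer hi'
          · exact MeromorphicAt.const _ _
          · exact (htmer hi').inv
        · rw [hi]
          simp only [ST2_dd_false]
          exact MeromorphicAt.const _ _
      · simp only [hab, if_false]
        exact MeromorphicAt.const _ _
    refine ⟨fun z => (B' z)⁻¹ * S' z, ?_, ?_, ?_⟩
    · intro a b
      simp only [Matrix.mul_apply]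
      refine MeromorphicAt.fun_sum fun c _ => ?_
      exact (ST2_mero_inv (fun a b => (hanB' a b).meromorphicAt) a c).mul (hmerS c b)
    · have h1 : ∀ᶠ z in 𝓝 z₀, z ∈ e.target ∩ e.symm ⁻¹' V := hnb
      refine (h1.filter_mono nhdsWithin_le_nhds).mono ?_
      intro z hz
      have hz1 : e.symm z ∈ V := hz.2
      have hd : (B' z).det ≠ 0 := ST2_det_ne hr _ (hspan _ hz1) (hBf _ hz1).1
      have h2 : B (e.symm z) = ST2_E r hr * B' z := ST2_E_mul hr _ (hspan _ hz1)
      rw [h2, hS, Matrix.mul_assoc, ← Matrix.mul_assoc (B' z),
        Matrix.mul_nonsing_inv _ (Ne.isUnit hd), Matrix.one_mul]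
    · have hdetS : ∀ z, (S' z).det = if i = false then 1 else (VV (4 * M) true (e.symm z))⁻¹ := by
        intro z
        simp only [hS', Matrix.det_diagonal, hdd]
        rcases Bool.eq_false_or_eq_true i with hi | hi
        · rw [if_neg (by rw [hi]; decide), hi]
          simp only [ST2_dd_true]
          obtain rfl | rfl : r = 1 ∨ r = 2 := by omega
          · simp [ST2_rho]
          · rw [Fin.prod_univ_two]
            simp [ST2_rho]
        · rw [if_pos hi, hi]
          simp only [ST2_dd_false]
          simp
      have hmul : (fun z => ((B' z)⁻¹ * S' z).det) =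
          (fun z => (B' z).det)⁻¹ * (fun z => (S' z).det) := by
        funext z
        rw [Matrix.det_mul, Matrix.det_nonsing_inv, Ring.inverse_eq_inv']
        rfl
      have hoB : meromorphicOrderAt (fun z => (B' z).det) z₀ = 0 := by
        have h1 := ST2_anal_det hanB'
        rw [h1.meromorphicOrderAt_eq, (h1.analyticOrderAt_eq_zero).mpr hdetB]
        rfl
      rw [hmul, meromorphicOrderAt_mul (ST2_mero_det (fun a b => (hanB' a b).meromorphicAt)).inv
        (ST2_mero_det hmerS), meromorphicOrderAt_inv, hoB]
      simp only [neg_zero, zero_add]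
      by_cases hi : i = false
      · have hd1 : (fun z => (S' z).det) = fun _ => (1 : ℂ) := by
          funext z; rw [hdetS z, if_pos hi]
        have hord : ord x₀ = 0 := by
          simp only [ord]
          rw [if_neg]
          rintro ⟨h1, h2⟩
          have h3 : x₀ ∈ UU (4 * M) (!true) := by rw [hi] at hx₀'; exact hx₀'
          exact (hB.mem_other true x₀ h1).mp h3 h2
        rw [hd1, hord, meromorphicOrderAt_const]
        simp
      · have hi' : i = true := by simpa using hi
        have hd1 : (fun z => (S' z).det) = (fun z => VV (4 * M) true (e.symm z))⁻¹ := by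
          funext z; rw [hdetS z, if_neg hi]; rfl
        have hxt : x₀ ∈ UU (4 * M) true := by rw [hi'] at hx₀'; exact hx₀'
        have hnbU : e.target ∩ e.symm ⁻¹' UU (4 * M) true ∈ 𝓝 z₀ :=
          (e.isOpen_inter_preimage_symm (hB.isOpen_UU true)).mem_nhds ⟨hz₀m.1, by
            show e.symm z₀ ∈ UU (4 * M) true
            rw [hsymm]; exact hxt⟩
        have hant : AnalyticAt ℂ (fun z => VV (4 * M) true (e.symm z)) z₀ :=
          (hG.holoV e he true).analyticAt hnbU
        rw [hd1, meromorphicOrderAt_inv]
        by_cases ht0 : VV (4 * M) true x₀ = 0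
        · have hord : ord x₀ = -1 := by
            simp only [ord]
            rw [if_pos ⟨hxt, ht0⟩]
          obtain ⟨j, hj, hty⟩ := hG.chart_type e he
          have hjt : j = true := by
            by_contra hjn
            have hjf : j = false := by simpa using hjn
            have h3 : x₀ ∈ UU (4 * M) (!true) := by
              have := hj hxe
              rw [hjf] at this; exact this
            exact (hB.mem_other true x₀ hxt).mp h3 ht0
          subst hjt
          rcases hty with hty | hty
          · have h4 : (fun z => VV (4 * M) true (e.symm z)) =ᶠ[𝓝 z₀] id := by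
              have h5 : e.target ∈ 𝓝 z₀ := e.open_target.mem_nhds hz₀m.1
              filter_upwards [h5] with z hz
              have h6 := (hty (e.symm z) (e.map_target hz)).1
              rw [← h6, e.right_inv hz]; rfl
            have hz0 : z₀ = 0 := by rw [hz₀, (hty x₀ hxe).1, ht0]
            rw [meromorphicOrderAt_congr (h4.filter_mono nhdsWithin_le_nhds), hz0,
              meromorphicOrderAt_id, hord]
            rfl
          · exact absurd ht0 (hty x₀ hxe).2
        · have hord : ord x₀ = 0 := by
            simp only [ord]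
            rw [if_neg (fun h => ht0 h.2)]
          have h1 : meromorphicOrderAt (fun z => VV (4 * M) true (e.symm z)) z₀ = 0 := by
            rw [hant.meromorphicOrderAt_eq, (hant.analyticOrderAt_eq_zero).mpr]
            · rfl
            · show VV (4 * M) true (e.symm z₀) ≠ 0
              rw [hsymm]; exact ht0
          rw [h1, hord]
          simp
  · -- finiteness
    refine (R4.image f).finite_toSet.subset ?_
    intro x hx
    have hx' : ord x ≠ 0 := hx
    by_contra hcon
    apply hx'
    simp only [ord]
    rw [if_neg]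
    intro h1
    exact hcon (by simpa using (hset x).mp h1)
  · -- the sum
    have hsub : Function.support ord ⊆ ↑(R4.image f) := by
      intro x hx
      have hx' : ord x ≠ 0 := hx
      by_contra hcon
      apply hx'
      simp only [ord]
      rw [if_neg]
      intro h1
      exact hcon (Finset.mem_coe.mpr ((hset x).mp h1))
    rw [finsum_eq_sum_of_support_subset _ hsub]
    have hval : ∀ x ∈ R4.image f, ord x = -1 := by
      intro x hx
      simp only [ord]
      rw [if_pos ((hset x).mpr hx)]
    rw [Finset.sum_congr rfl hval, Finset.sum_const, hcard']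
    norm_num

end Pool.Agent.Helper614.HE.P_ST2
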