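import Pool.Agent.Helper614.HE.SpecC
set_option autoImplicit false

open scoped Manifold ContDiff Matrix ComplexOrder
open Matrix Topology MeasureTheory Set Filter

namespace Pool.Agent.Helper614.HE.P_TH

open Pool.Agent.Helper614.HE



/-
PROOF OF THE TARGET IN WORDS
Write V = VV m j (e.symm z), Y = YY m j (e.symm z), holomorphic functions of z on the open set O = e.target cap e.symm^{-1}(UU m j) (SGood.holoV, holoY; openness from continuity of e.symm on e.target and isOpen_UU), with Y^4 = V^{4m} + 1 (SBasic.eqn). Differentiating: 4 Y^3 Y' = 4m V^{4m-1} V'. At a point where Y = 0: V^{4m} = -1, V not 0, so V' = 0.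
(4): if Y not 0, th = V'/Y. If Y = 0 then V' = 0 and both sides vanish. (1): near a point with Y not 0 th = V'/Y (holomorphic); near a point with Y = 0, V is not 0, and th = Y^2 Y'/(m V^{4m-1}) at all points nearby (if Y not 0: V'/Y = Y^2 Y'/(m V^{4m-1}) by the differentiated equation), holomorphic. So th is complex differentiable at every point of O.
(2): V o e.symm = (V o e'.symm) o (e' o e.symm) near e x, chain rule: deriv(V o e.symm)(e x) = deriv(V o e'.symm)(e' x) deriv(e' o e.symm)(e x) (e' o e.symm is differentiable at e x: from the manifold structure SGood.surface.manifold, or e' is VV or YY of some copy by chart_type, so e' o e.symm is VV or YY o e.symm, holomorphic by holoV, holoY). The same for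
Y. (3): Y not 0: th = V'/Y so we need V' not 0. By chart_type e x = VV m j' x or e x = YY m j' x on e.source subset UU m j'. If the coordinate is V_{j'} : V_{j'} o e.symm = id; if j' = j then V' = 1; if j' = !j then V_j = 1/V_{j'} near, V' = -1/V_{j'}^2 not 0. If the coordinate is Y_{j'} (V_{j'} not 0): Y_{j'}(e.symm z) = z, 4 z^3 = 4m V_{j'}^{4m-1} V_{j'}', with z = Y_{j'} not 0 (as
Y_{j'} = Y_j / V_j^m when j' = !j), so V_{j'}' is not 0, and V_j = V_{j'} or 1/V_{j'}. (5): V2 = V^{-1}, Y2 = Y/V^m near the point (VV_other, YY_other, on the open set UU j cap UU !j), V2' = -V'/V^2, so if Y not 0: th2 = V2'/Y2 = -V^{m-2} V'/Y; if Y = 0 then Y2 = 0 and both th vanish (they have the factor Y^2).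
(6): if Y(z) not 0 it is true by continuity. If Y(z) = 0 then V_j not 0 and by chart_type the coordinate e cannot be of the first type (YY m j' x not 0; Y_{j'} = Y_j or Y_j/V_j^m), so e x = YY m j' x: Y_{j'}(e.symm z') = z' for z' in the target, so Y_j(e.symm z') = z' or z'/V_{j'}^m (in the overlap), which vanishes only for z' = 0.
-/
section THaux

variable {m : ℕ} [ChartedSpace ℂ (SX m)]

omit [ChartedSpace ℂ (SX m)] in
theorem TH_open (hB : SBasic m) (e : OpenPartialHomeomorph (SX m) ℂ) (j : Bool) :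
    IsOpen (e.target ∩ e.symm ⁻¹' UU m j) :=
  e.isOpen_inter_preimage_symm (hB.isOpen_UU j)

theorem TH_diffV (hB : SBasic m) (hG : SGood m) {e : OpenPartialHomeomorph (SX m) ℂ}
    (he : e ∈ atlas ℂ (SX m)) {j : Bool} {z : ℂ} (hz : z ∈ e.target ∩ e.symm ⁻¹' UU m j) :
    DifferentiableAt ℂ (fun z => VV m j (e.symm z)) z :=
  (hG.holoV e he j).differentiableAt ((TH_open hB e j).mem_nhds hz)

theorem TH_diffY (hB : SBasic m) (hG : SGood m) {e : OpenPartialHomeomorph (SX m) ℂ}
    (he : e ∈ atlas ℂ (SX m)) {j : Bool} {z : ℂ} (hz : z ∈ e.target ∩ e.symm ⁻¹' UU m j) :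
    DifferentiableAt ℂ (fun z => YY m j (e.symm z)) z :=
  (hG.holoY e he j).differentiableAt ((TH_open hB e j).mem_nhds hz)

/-- the differentiated equation -/
theorem TH_deq (hB : SBasic m) (hG : SGood m) {e : OpenPartialHomeomorph (SX m) ℂ}
    (he : e ∈ atlas ℂ (SX m)) {j : Bool} {z : ℂ} (hz : z ∈ e.target ∩ e.symm ⁻¹' UU m j) :
    YY m j (e.symm z) ^ 3 * deriv (fun z => YY m j (e.symm z)) z =
      (m : ℂ) * VV m j (e.symm z) ^ (4 * m - 1) * deriv (fun z => VV m j (e.symm z)) z := by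
  have hV := (TH_diffV hB hG he hz).hasDerivAt
  have hY := (TH_diffY hB hG he hz).hasDerivAt
  have h1 := hY.fun_pow 4
  have h2 := (hV.fun_pow (4 * m)).add_const 1
  have h3 : (fun z => YY m j (e.symm z) ^ 4) =ᶠ[𝓝 z] fun z => VV m j (e.symm z) ^ (4 * m) + 1 := by
    filter_upwards [(TH_open hB e j).mem_nhds hz] with w hw
    exact hB.eqn j _ hw.2
  have h4 := (h2.congr_of_eventuallyEq h3).unique h1
  push_cast at h4
  have h5 : (4 : ℂ) ≠ 0 := by norm_num
  apply mul_left_cancel₀ h5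
  linear_combination -h4

omit [ChartedSpace ℂ (SX m)] in
/-- relations in the overlap -/
theorem TH_over (hB : SBasic m) {e : OpenPartialHomeomorph (SX m) ℂ} {j : Bool} {z : ℂ}
    (hz : z ∈ e.target ∩ e.symm ⁻¹' UU m j) (hz' : z ∈ e.target ∩ e.symm ⁻¹' UU m (!j)) :
    VV m j (e.symm z) ≠ 0 ∧
    ((fun z => VV m (!j) (e.symm z)) =ᶠ[𝓝 z] fun z => (VV m j (e.symm z))⁻¹) ∧
    ((fun z => YY m (!j) (e.symm z)) =ᶠ[𝓝 z] fun z => YY m j (e.symm z) / VV m j (e.symm z) ^ m) := by
  refine ⟨(hB.mem_other j _ hz.2).1 hz'.2, ?_, ?_⟩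
  · filter_upwards [(TH_open hB e j).mem_nhds hz, (TH_open hB e (!j)).mem_nhds hz'] with w hw hw'
    exact hB.VV_other j _ hw.2 hw'.2
  · filter_upwards [(TH_open hB e j).mem_nhds hz, (TH_open hB e (!j)).mem_nhds hz'] with w hw hw'
    exact hB.YY_other j _ hw.2 hw'.2

/-- derivative of the other `v` -/
theorem TH_dover (hB : SBasic m) (hG : SGood m) {e : OpenPartialHomeomorph (SX m) ℂ}
    (he : e ∈ atlas ℂ (SX m)) {j : Bool} {z : ℂ}
    (hz : z ∈ e.target ∩ e.symm ⁻¹' UU m j) (hz' : z ∈ e.target ∩ e.symm ⁻¹' UU m (!j)) :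
    deriv (fun z => VV m (!j) (e.symm z)) z =
      -deriv (fun z => VV m j (e.symm z)) z / VV m j (e.symm z) ^ 2 := by
  obtain ⟨h0, h1, _⟩ := TH_over hB hz hz'
  rw [h1.deriv_eq]
  exact ((TH_diffV hB hG he hz).hasDerivAt.fun_inv h0).deriv

omit [ChartedSpace ℂ (SX m)] in
theorem TH_mem {e : OpenPartialHomeomorph (SX m) ℂ} {j : Bool} {x : SX m}
    (hx : x ∈ UU m j ∩ e.source) : e x ∈ e.target ∩ e.symm ⁻¹' UU m j := by
  refine ⟨e.map_source hx.2, ?_⟩
  rw [Set.mem_preimage, e.left_inv hx.2]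
  exact hx.1

theorem TH_V_ne {m : ℕ} (hm : 3 ≤ m) {a b : ℂ} (h : b ^ 4 = a ^ (4 * m) + 1) (hb : b = 0) :
    a ≠ 0 := by
  rintro rfl
  rw [hb, zero_pow (by omega), zero_pow (by omega)] at h
  norm_num at h

/-- part (4) -/
theorem TH_four (hm : 3 ≤ m) (hB : SBasic m) (hG : SGood m) {e : OpenPartialHomeomorph (SX m) ℂ}
    (he : e ∈ atlas ℂ (SX m)) {j : Bool} {x : SX m} (hx : x ∈ UU m j ∩ e.source) :
    deriv (fun z => VV m j (e.symm z)) (e x) = th m j e x * YY m j x := by
  have hz := TH_mem hx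
  have hd := TH_deq hB hG he hz
  rw [e.left_inv hx.2] at hd
  unfold th
  by_cases hY : YY m j x = 0
  · have hV : VV m j x ≠ 0 := TH_V_ne hm (hB.eqn j x hx.1) hY
    rw [hY, mul_zero]
    rw [hY, zero_pow (by norm_num), zero_mul] at hd
    have hm0 : (m : ℂ) ≠ 0 := by
      have : m ≠ 0 := by omega
      exact_mod_cast this
    have h1 : (m : ℂ) * VV m j x ^ (4 * m - 1) ≠ 0 := mul_ne_zero hm0 (pow_ne_zero _ hV)
    rcases mul_eq_zero.1 hd.symm with h | h
    · exact absurd h h1
    · exact h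
  · rw [if_pos hY, div_mul_cancel₀ _ hY]

omit [ChartedSpace ℂ (SX m)] in
/-- values of `th` in the coordinate -/
theorem TH_val1 {e : OpenPartialHomeomorph (SX m) ℂ} {j : Bool} {z : ℂ} (hz : z ∈ e.target)
    (hY : YY m j (e.symm z) ≠ 0) :
    th m j e (e.symm z) = deriv (fun z => VV m j (e.symm z)) z / YY m j (e.symm z) := by
  unfold th
  rw [if_pos hY, e.right_inv hz]

theorem TH_val2 (hm : 3 ≤ m) (hB : SBasic m) (hG : SGood m) {e : OpenPartialHomeomorph (SX m) ℂ}
    (he : e ∈ atlas ℂ (SX m)) {j : Bool} {z : ℂ} (hz : z ∈ e.target ∩ e.symm ⁻¹' UU m j)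
    (hV : VV m j (e.symm z) ≠ 0) :
    th m j e (e.symm z) = YY m j (e.symm z) ^ 2 * deriv (fun z => YY m j (e.symm z)) z /
      ((m : ℂ) * VV m j (e.symm z) ^ (4 * m - 1)) := by
  by_cases hY : YY m j (e.symm z) = 0
  · unfold th
    rw [if_neg (not_not.2 hY), e.right_inv hz.1]
  · rw [TH_val1 hz.1 hY]
    have hd := TH_deq hB hG he hz
    have hm0 : (m : ℂ) ≠ 0 := by
      have : m ≠ 0 := by omega
      exact_mod_cast this
    have h1 : (m : ℂ) * VV m j (e.symm z) ^ (4 * m - 1) ≠ 0 := mul_ne_zero hm0 (pow_ne_zero _ hV)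
    rw [div_eq_div_iff hY h1]
    linear_combination -hd

/-- part (1) -/
theorem TH_one (hm : 3 ≤ m) (hB : SBasic m) (hG : SGood m) {e : OpenPartialHomeomorph (SX m) ℂ}
    (he : e ∈ atlas ℂ (SX m)) (j : Bool) :
    DifferentiableOn ℂ (fun z => th m j e (e.symm z)) (e.target ∩ e.symm ⁻¹' UU m j) := by
  intro z hz
  apply DifferentiableAt.differentiableWithinAt
  have hO := (TH_open hB e j).mem_nhds hz
  have hdV := TH_diffV hB hG he hz
  have hdY := TH_diffY hB hG he hz
  by_cases hY : YY m j (e.symm z) = 0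
  · have hV : VV m j (e.symm z) ≠ 0 := TH_V_ne hm (hB.eqn j _ hz.2) hY
    have hev : (fun z => th m j e (e.symm z)) =ᶠ[𝓝 z] fun z =>
        YY m j (e.symm z) ^ 2 * deriv (fun z => YY m j (e.symm z)) z /
          ((m : ℂ) * VV m j (e.symm z) ^ (4 * m - 1)) := by
      filter_upwards [hO, hdV.continuousAt.eventually_ne hV] with w hw hw'
      exact TH_val2 hm hB hG he hw hw'
    refine DifferentiableAt.congr_of_eventuallyEq ?_ hev
    have hdY' : DifferentiableAt ℂ (deriv (fun z => YY m j (e.symm z))) z :=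
      ((hG.holoY e he j).deriv (TH_open hB e j)).differentiableAt hO
    have hm0 : (m : ℂ) ≠ 0 := by
      have : m ≠ 0 := by omega
      exact_mod_cast this
    exact ((hdY.fun_pow 2).fun_mul hdY').fun_div ((differentiableAt_const _).fun_mul (hdV.fun_pow _))
      (mul_ne_zero hm0 (pow_ne_zero _ hV))
  · have hev : (fun z => th m j e (e.symm z)) =ᶠ[𝓝 z] fun z =>
        deriv (fun z => VV m j (e.symm z)) z / YY m j (e.symm z) := by
      filter_upwards [hO, hdY.continuousAt.eventually_ne hY] with w hw hw'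
      exact TH_val1 hw.1 hw'
    refine DifferentiableAt.congr_of_eventuallyEq ?_ hev
    have hdV' : DifferentiableAt ℂ (deriv (fun z => VV m j (e.symm z))) z :=
      ((hG.holoV e he j).deriv (TH_open hB e j)).differentiableAt hO
    exact hdV'.fun_div hdY hY

/-- transition functions are differentiable -/
theorem TH_trans (hB : SBasic m) (hG : SGood m) {e e' : OpenPartialHomeomorph (SX m) ℂ}
    (he : e ∈ atlas ℂ (SX m)) (he' : e' ∈ atlas ℂ (SX m)) {x : SX m}
    (hx : x ∈ e.source ∩ e'.source) : DifferentiableAt ℂ (e' ∘ e.symm) (e x) := by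
  obtain ⟨j', hs, htype⟩ := hG.chart_type e' he'
  have hO : IsOpen (e.target ∩ e.symm ⁻¹' e'.source) := e.isOpen_inter_preimage_symm e'.open_source
  have hmem : e x ∈ e.target ∩ e.symm ⁻¹' e'.source := by
    refine ⟨e.map_source hx.1, ?_⟩
    rw [Set.mem_preimage, e.left_inv hx.1]
    exact hx.2
  have hmem' : e x ∈ e.target ∩ e.symm ⁻¹' UU m j' := ⟨hmem.1, hs hmem.2⟩
  rcases htype with ht | ht
  · have hev : (e' ∘ e.symm) =ᶠ[𝓝 (e x)] fun z => VV m j' (e.symm z) := by
      filter_upwards [hO.mem_nhds hmem] with w hw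
      exact (ht _ hw.2).1
    exact (TH_diffV hB hG he hmem').congr_of_eventuallyEq hev
  · have hev : (e' ∘ e.symm) =ᶠ[𝓝 (e x)] fun z => YY m j' (e.symm z) := by
      filter_upwards [hO.mem_nhds hmem] with w hw
      exact (ht _ hw.2).1
    exact (TH_diffY hB hG he hmem').congr_of_eventuallyEq hev

/-- chain rule for a function on the surface -/
theorem TH_chain (hB : SBasic m) (hG : SGood m) {e e' : OpenPartialHomeomorph (SX m) ℂ}
    (he : e ∈ atlas ℂ (SX m)) (he' : e' ∈ atlas ℂ (SX m)) {x : SX m}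
    (hx : x ∈ e.source ∩ e'.source) (f : SX m → ℂ)
    (hf : DifferentiableAt ℂ (fun z => f (e'.symm z)) (e' x)) :
    deriv (fun z => f (e.symm z)) (e x) =
      deriv (fun z => f (e'.symm z)) (e' x) * deriv (e' ∘ e.symm) (e x) := by
  have hO : IsOpen (e.target ∩ e.symm ⁻¹' e'.source) := e.isOpen_inter_preimage_symm e'.open_source
  have hmem : e x ∈ e.target ∩ e.symm ⁻¹' e'.source := by
    refine ⟨e.map_source hx.1, ?_⟩
    rw [Set.mem_preimage, e.left_inv hx.1]
    exact hx.2
  have hev : (fun z => f (e.symm z)) =ᶠ[𝓝 (e x)] (fun z => f (e'.symm z)) ∘ (e' ∘ e.symm) := by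
    filter_upwards [hO.mem_nhds hmem] with w hw
    simp only [Function.comp]
    rw [e'.left_inv hw.2]
  rw [hev.deriv_eq]
  have hpt : (e' ∘ e.symm) (e x) = e' x := by
    simp only [Function.comp]
    rw [e.left_inv hx.1]
  have h1 := TH_trans hB hG he he' hx
  rw [deriv_comp (e x) (by rw [hpt]; exact hf) h1, hpt]

/-- part (2) -/
theorem TH_two (hB : SBasic m) (hG : SGood m) {e e' : OpenPartialHomeomorph (SX m) ℂ}
    (he : e ∈ atlas ℂ (SX m)) (he' : e' ∈ atlas ℂ (SX m)) {j : Bool} {x : SX m}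
    (hx : x ∈ UU m j ∩ (e.source ∩ e'.source)) :
    th m j e x = deriv (e' ∘ e.symm) (e x) * th m j e' x := by
  have hz' : e' x ∈ e'.target ∩ e'.symm ⁻¹' UU m j := TH_mem ⟨hx.1, hx.2.2⟩
  have hV := TH_chain hB hG he he' hx.2 (VV m j) (TH_diffV hB hG he' hz')
  have hY := TH_chain hB hG he he' hx.2 (YY m j) (TH_diffY hB hG he' hz')
  unfold th
  by_cases hY0 : YY m j x = 0
  · rw [if_neg (not_not.2 hY0), if_neg (not_not.2 hY0), hY]
    ring
  · rw [if_pos hY0, if_pos hY0, hV]
    ring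

/-- the derivative of `v` does not vanish where `y ≠ 0` -/
theorem TH_dV_ne (hB : SBasic m) (hG : SGood m) {e : OpenPartialHomeomorph (SX m) ℂ}
    (he : e ∈ atlas ℂ (SX m)) {j : Bool} {x : SX m} (hx : x ∈ UU m j ∩ e.source)
    (hY : YY m j x ≠ 0) : deriv (fun z => VV m j (e.symm z)) (e x) ≠ 0 := by
  obtain ⟨j', hs, htype⟩ := hG.chart_type e he
  have hx' : x ∈ UU m j' ∩ e.source := ⟨hs hx.2, hx.2⟩
  -- the claim for `j'`
  have hclaim : YY m j' x ≠ 0 → deriv (fun z => VV m j' (e.symm z)) (e x) ≠ 0 := by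
    intro hY'
    have ht : e.target ∈ 𝓝 (e x) := e.open_target.mem_nhds (e.map_source hx.2)
    rcases htype with ht' | ht'
    · have hev : (fun z => VV m j' (e.symm z)) =ᶠ[𝓝 (e x)] fun z => z := by
        filter_upwards [ht] with w hw
        rw [← (ht' _ (e.map_target hw)).1, e.right_inv hw]
      rw [hev.deriv_eq, deriv_id'']
      exact one_ne_zero
    · have hev : (fun z => YY m j' (e.symm z)) =ᶠ[𝓝 (e x)] fun z => z := by
        filter_upwards [ht] with w hw
        rw [← (ht' _ (e.map_target hw)).1, e.right_inv hw]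
      have hd := TH_deq hB hG he (TH_mem hx')
      rw [hev.deriv_eq, deriv_id'', e.left_inv hx.2, mul_one] at hd
      intro h0
      rw [h0, mul_zero] at hd
      exact pow_ne_zero _ hY' hd
  by_cases hj : j' = j
  · subst hj
    exact hclaim hY
  · have hj' : j' = !j := by
      cases j <;> cases j' <;> simp_all
    subst hj'
    have hV0 : VV m j x ≠ 0 := (hB.mem_other j x hx.1).1 hx'.1
    have hY' : YY m (!j) x ≠ 0 := by
      rw [hB.YY_other j x hx.1 hx'.1]
      exact div_ne_zero hY (pow_ne_zero _ hV0)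
    have h1 := hclaim hY'
    rw [TH_dover hB hG he (TH_mem hx) (TH_mem hx')] at h1
    intro h0
    apply h1
    rw [h0]
    simp

/-- part (3) -/
theorem TH_three (hB : SBasic m) (hG : SGood m) {e : OpenPartialHomeomorph (SX m) ℂ}
    (he : e ∈ atlas ℂ (SX m)) {j : Bool} {x : SX m} (hx : x ∈ UU m j ∩ e.source)
    (hY : YY m j x ≠ 0) : th m j e x ≠ 0 := by
  unfold th
  rw [if_pos hY]
  exact div_ne_zero (TH_dV_ne hB hG he hx hY) hY

/-- part (5) -/
theorem TH_five (hm : 3 ≤ m) (hB : SBasic m) (hG : SGood m) {e : OpenPartialHomeomorph (SX m) ℂ}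
    (he : e ∈ atlas ℂ (SX m)) {j : Bool} {x : SX m}
    (hx : x ∈ (UU m j ∩ UU m (!j)) ∩ e.source) :
    th m (!j) e x = -(VV m j x ^ (m - 2)) * th m j e x := by
  have hx1 : x ∈ UU m j ∩ e.source := ⟨hx.1.1, hx.2⟩
  have hx2 : x ∈ UU m (!j) ∩ e.source := ⟨hx.1.2, hx.2⟩
  have hV0 : VV m j x ≠ 0 := (hB.mem_other j x hx.1.1).1 hx.1.2
  have hYo := hB.YY_other j x hx.1.1 hx.1.2
  have hd := TH_dover hB hG he (TH_mem hx1) (TH_mem hx2)
  rw [e.left_inv hx.2] at hd
  unfold th
  by_cases hY : YY m j x = 0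
  · have hY' : YY m (!j) x = 0 := by rw [hYo, hY, zero_div]
    rw [if_neg (not_not.2 hY), if_neg (not_not.2 hY'), hY, hY']
    simp
  · have hY' : YY m (!j) x ≠ 0 := by
      rw [hYo]
      exact div_ne_zero hY (pow_ne_zero _ hV0)
    rw [if_pos hY, if_pos hY', hd, hYo]
    obtain ⟨n, rfl⟩ : ∃ n, m = n + 2 := ⟨m - 2, by omega⟩
    rw [Nat.add_sub_cancel]
    field_simp
    ring

/-- part (6) -/
theorem TH_six (hB : SBasic m) (hG : SGood m) {e : OpenPartialHomeomorph (SX m) ℂ}
    (he : e ∈ atlas ℂ (SX m)) {j : Bool} {z : ℂ} (hz : z ∈ e.target ∩ e.symm ⁻¹' UU m j) :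
    ∀ᶠ z' in 𝓝[≠] z, YY m j (e.symm z') ≠ 0 := by
  have hdY := TH_diffY hB hG he hz
  have hO := (TH_open hB e j).mem_nhds hz
  by_cases hY : YY m j (e.symm z) = 0
  · obtain ⟨j', hs, htype⟩ := hG.chart_type e he
    have hzs : e.symm z ∈ e.source := e.map_target hz.1
    have hx' : e.symm z ∈ UU m j' := hs hzs
    -- vanishing in both copies
    have hrel : ∀ w ∈ e.target ∩ e.symm ⁻¹' UU m j,
        (YY m j' (e.symm w) = 0 ↔ YY m j (e.symm w) = 0) := by
      intro w hw
      have hw' : e.symm w ∈ UU m j' := hs (e.map_target hw.1)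
      by_cases hj : j' = j
      · rw [hj]
      · have hj' : j' = !j := by
          cases j <;> cases j' <;> simp_all
        subst hj'
        have hV0 : VV m j (e.symm w) ≠ 0 := (hB.mem_other j _ hw.2).1 hw'
        rw [hB.YY_other j _ hw.2 hw']
        constructor
        · intro h
          rcases div_eq_zero_iff.1 h with h | h
          · exact h
          · exact absurd h (pow_ne_zero _ hV0)
        · intro h
          rw [h, zero_div]
    rcases htype with ht | ht
    · exact absurd ((hrel z hz).2 hY) (ht _ hzs).2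
    · have hid : ∀ w ∈ e.target, YY m j' (e.symm w) = w := by
        intro w hw
        rw [← (ht _ (e.map_target hw)).1, e.right_inv hw]
      have hz0 : z = 0 := by
        rw [← hid z hz.1]
        exact (hrel z hz).2 hY
      filter_upwards [nhdsWithin_le_nhds hO, self_mem_nhdsWithin] with w hw hw'
      intro h
      apply hw'
      have h1 := (hrel w hw).2 h
      rw [hid w hw.1] at h1
      rw [Set.mem_singleton_iff, h1, hz0]
  · exact nhdsWithin_le_nhds (hdY.continuousAt.eventually_ne hY)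

end THaux

-- TARGET
theorem TH : T_TH := by
  intro m hm inst hB hG e he j
  refine ⟨TH_one hm hB hG he j, ?_, ?_, ?_, ?_, ?_⟩
  · intro e' he' x hx
    exact TH_two hB hG he he' hx
  · intro x hx hY
    exact TH_three hB hG he hx hY
  · intro x hx
    exact TH_four hm hB hG he hx
  · intro x hx
    exact TH_five hm hB hG he hx
  · intro z hz
    exact TH_six hB hG he hz

end Pool.Agent.Helper614.HE.P_TH
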