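import Pool.Agent.Helper614.HE.SpecC
set_option autoImplicit false

open scoped Manifold ContDiff Matrix ComplexOrder
open Matrix Topology MeasureTheory Set Filter

namespace Pool.Agent.Helper614.HE.P_TOP

open Pool.Agent.Helper614.HE



/-
PROOF OF THE TARGET IN WORDS
T2: let x, x' be distinct. If both are in some UU m j: inc m j is an open embedding (SBasic.embed) of the Hausdorff space Crv m: separate the preimages and take images. Otherwise x in UU j, not in UU (!j), and x' in UU (!j), not in UU j (cover). Then VV j x = 0 and VV (!j) x' = 0 (mem_other). The sets O = {z in UU j : |VV j z| < 1} and O' = {z in UU (!j) : |VV (!j) z| < 1} are open (contV on the open sets) and disjoint since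
VV (!j) z = (VV j z)^{-1} on the intersection.
Compact: SX = union over j of inc j '' {p in Crv m : |p.1| <= 1}: if x in UU j with |VV j x| > 1 then VV j x not 0, x in UU (!j) with |VV (!j) x| < 1. The set {p in Crv m : |p.1| <= 1} is compact: closed in C x C (Crv m is closed) and bounded (|y|^4 <= 2), inc j is continuous.
Connected: Crv m is preconnected (CONN), so UU j = range (inc m j) is preconnected (isPreconnected_range), the two sets UU false, UU true have a common point (the point of UU false with VV = 1, YY^4 = 2; mem_other), so the union, which is everything, is preconnected (IsPreconnected.union); nonempty.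
-/
theorem TOP_sep {m : ℕ} (h : SBasic m) (j : Bool) {x x' : SX m} (hx : x ∈ UU m j)
    (hx' : x' ∈ UU m j) (hne : x ≠ x') :
    ∃ u v : Set (SX m), IsOpen u ∧ IsOpen v ∧ x ∈ u ∧ x' ∈ v ∧ Disjoint u v := by
  obtain ⟨p, rfl⟩ := hx
  obtain ⟨p', rfl⟩ := hx'
  have hpp : p ≠ p' := fun e => hne (by rw [e])
  obtain ⟨u, v, hu, hv, hpu, hpv, huv⟩ := t2_separation hpp
  refine ⟨inc m j '' u, inc m j '' v, (h.embed j).isOpenMap u hu, (h.embed j).isOpenMap v hv,
    ⟨p, hpu, rfl⟩, ⟨p', hpv, rfl⟩, ?_⟩
  exact (Set.disjoint_image_iff (h.embed j).injective).2 huv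

theorem TOP_open {m : ℕ} (h : SBasic m) (j : Bool) :
    IsOpen {z | z ∈ UU m j ∧ ‖VV m j z‖ < 1} := by
  have h1 : ContinuousOn (fun z => ‖VV m j z‖) (UU m j) := (h.contV j).norm
  have h2 := h1.isOpen_inter_preimage (h.isOpen_UU j) (isOpen_Iio (a := (1:ℝ)))
  exact h2

theorem TOP_sep2 {m : ℕ} (h : SBasic m) (j : Bool) {x x' : SX m} (hx : x ∈ UU m j)
    (hx2 : x ∉ UU m (!j)) (hx' : x' ∈ UU m (!j)) (hx2' : x' ∉ UU m j) :
    ∃ u v : Set (SX m), IsOpen u ∧ IsOpen v ∧ x ∈ u ∧ x' ∈ v ∧ Disjoint u v := by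
  refine ⟨_, _, TOP_open h j, TOP_open h (!j), ⟨hx, ?_⟩, ⟨hx', ?_⟩, ?_⟩
  · have : VV m j x = 0 := by
      by_contra hne
      exact hx2 ((h.mem_other j x hx).2 hne)
    rw [this, norm_zero]
    exact one_pos
  · have : VV m (!j) x' = 0 := by
      by_contra hne
      have h3 := (h.mem_other (!j) x' hx').2 hne
      rw [Bool.not_not] at h3
      exact hx2' h3
    rw [this, norm_zero]
    exact one_pos
  · rw [Set.disjoint_left]
    rintro z ⟨hz1, hz2⟩ ⟨hz3, hz4⟩
    have hv := h.VV_other j z hz1 hz3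
    have hne := (h.mem_other j z hz1).1 hz3
    rw [hv, norm_inv] at hz4
    have hpos : 0 < ‖VV m j z‖ := norm_pos_iff.2 hne
    have := (inv_lt_one₀ hpos).1 hz4
    linarith

theorem TOP_t2 {m : ℕ} (h : SBasic m) : T2Space (SX m) := by
  refine ⟨fun x x' hne => ?_⟩
  by_cases h1 : x ∈ UU m false
  · by_cases h2 : x' ∈ UU m false
    · exact TOP_sep h false h1 h2 hne
    · have h3 : x' ∈ UU m true := (h.cover x').resolve_left h2
      by_cases h4 : x ∈ UU m true
      · exact TOP_sep h true h4 h3 hne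
      · exact TOP_sep2 h false h1 h4 h3 h2
  · have h2 : x ∈ UU m true := (h.cover x).resolve_left h1
    by_cases h3 : x' ∈ UU m true
    · exact TOP_sep h true h2 h3 hne
    · have h4 : x' ∈ UU m false := (h.cover x').resolve_right h3
      exact TOP_sep2 h true h2 h1 h4 h3

theorem TOP_cpt_aff (m : ℕ) : IsCompact {p : Crv m | ‖p.1.1‖ ≤ 1} := by
  have hcl : IsClosed (Crv m) := by
    have h1 : Continuous fun p : ℂ × ℂ => p.2 ^ 4 := by fun_prop
    have h2 : Continuous fun p : ℂ × ℂ => p.1 ^ (4 * m) + 1 := by fun_prop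
    exact isClosed_eq h1 h2
  have hK : IsCompact {q : ℂ × ℂ | q ∈ Crv m ∧ ‖q.1‖ ≤ 1} := by
    refine Metric.isCompact_of_isClosed_isBounded ?_ ?_
    · refine hcl.inter ?_
      exact isClosed_le (f := fun q : ℂ × ℂ => ‖q.1‖) (g := fun _ => (1:ℝ)) (by fun_prop) continuous_const
    · refine (Metric.isBounded_iff_subset_closedBall (0 : ℂ × ℂ)).2 ⟨2, ?_⟩
      rintro q ⟨hq1, hq2⟩
      rw [mem_closedBall_zero_iff, Prod.norm_def]
      refine max_le (by linarith) ?_
      have h4 : ‖q.2‖ ^ 4 ≤ 2 := by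
        have : q.2 ^ 4 = q.1 ^ (4 * m) + 1 := hq1
        rw [← norm_pow, this]
        refine (norm_add_le _ _).trans ?_
        rw [norm_pow, norm_one]
        have := pow_le_one₀ (n := 4 * m) (norm_nonneg q.1) hq2
        linarith
      by_contra hlt
      push Not at hlt
      have h5 : (2:ℝ) ^ 4 < ‖q.2‖ ^ 4 := pow_lt_pow_left₀ hlt (by norm_num) (by norm_num)
      norm_num at h5
      linarith
  have hemb : IsClosedEmbedding (Subtype.val : Crv m → ℂ × ℂ) := hcl.isClosedEmbedding_subtypeVal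
  have := hemb.isCompact_preimage hK
  convert this using 1
  ext p
  simp

theorem TOP_cpt {m : ℕ} (h : SBasic m) : CompactSpace (SX m) := by
  refine ⟨?_⟩
  have hK := TOP_cpt_aff m
  have e : (Set.univ : Set (SX m)) = inc m false '' {p : Crv m | ‖p.1.1‖ ≤ 1} ∪
      inc m true '' {p : Crv m | ‖p.1.1‖ ≤ 1} := by
    symm
    rw [Set.eq_univ_iff_forall]
    have key : ∀ j, ∀ x ∈ UU m j, x ∈ inc m j '' {p : Crv m | ‖p.1.1‖ ≤ 1} ∨
        x ∈ inc m (!j) '' {p : Crv m | ‖p.1.1‖ ≤ 1} := by
      rintro j x ⟨p, rfl⟩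
      by_cases hp : ‖p.1.1‖ ≤ 1
      · exact Or.inl ⟨p, hp, rfl⟩
      · right
        push Not at hp
        have hx : inc m j p ∈ UU m j := ⟨p, rfl⟩
        have hne : VV m j (inc m j p) ≠ 0 := by
          rw [h.VV_inc, ← norm_pos_iff]
          linarith
        have hx2 := (h.mem_other j _ hx).2 hne
        have hv := h.VV_other j _ hx hx2
        obtain ⟨q, hq⟩ := hx2
        refine ⟨q, ?_, hq⟩
        rw [← hq, h.VV_inc, hq, h.VV_inc] at hv
        rw [Set.mem_ofPred_eq, hv, norm_inv]
        exact inv_le_one_of_one_le₀ hp.le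
    intro x
    rcases h.cover x with hx | hx
    · exact key false x hx
    · exact (key true x hx).symm
  rw [e]
  exact (hK.image (h.embed false).continuous).union (hK.image (h.embed true).continuous)

theorem TOP_conn {m : ℕ} (h : SBasic m) (hc : PreconnectedSpace (Crv m)) : ConnectedSpace (SX m) := by
  have hpre : ∀ j, IsPreconnected (UU m j) := fun j => isPreconnected_range (h.embed j).continuous
  obtain ⟨b, hb⟩ : ∃ b : ℂ, b ^ 4 = (1:ℂ) ^ (4 * m) + 1 := by
    obtain ⟨b, hb⟩ := IsAlgClosed.exists_pow_nat_eq ((1:ℂ) ^ (4 * m) + 1) (n := 4) (by norm_num)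
    exact ⟨b, hb⟩
  obtain ⟨x, hx, hv, -⟩ := h.surj false 1 b hb
  have hx2 : x ∈ UU m true := by
    have := (h.mem_other false x hx).2 (by rw [hv]; exact one_ne_zero)
    exact this
  have hu : IsPreconnected (Set.univ : Set (SX m)) := by
    have e : (Set.univ : Set (SX m)) = UU m false ∪ UU m true := by
      symm
      rw [Set.eq_univ_iff_forall]
      exact h.cover
    rw [e]
    exact IsPreconnected.union x hx hx2 (hpre false) (hpre true)
  exact { isPreconnected_univ := hu, toNonempty := ⟨x⟩ }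

-- TARGET
theorem TOP (hCONN : T_CONN) : T_TOP := by
  intro m hm h
  exact ⟨TOP_t2 h, TOP_cpt h, TOP_conn h (hCONN m hm)⟩

end Pool.Agent.Helper614.HE.P_TOP
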