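import Pool.Agent.Helper614.HE.SpecC
set_option autoImplicit false

open scoped Manifold ContDiff Matrix ComplexOrder
open Matrix Topology MeasureTheory Set Filter

namespace Pool.Agent.Helper614.HE.P_UN1

open Pool.Agent.Helper614.HE




/-- a common form of both Wirtinger derivatives -/
noncomputable def UN1_dd (c : ℂ) (f : ℂ → ℂ) (z : ℂ) : ℂ :=
  (fderiv ℝ f z 1 + c * fderiv ℝ f z Complex.I) / 2

theorem UN1_dz (f : ℂ → ℂ) (z : ℂ) : dz f z = UN1_dd (-Complex.I) f z := by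
  rw [dz, UN1_dd]; ring

theorem UN1_dzb (f : ℂ → ℂ) (z : ℂ) : dzb f z = UN1_dd Complex.I f z := rfl

theorem UN1_dd_congr (c : ℂ) {f g : ℂ → ℂ} {z : ℂ} (h : f =ᶠ[𝓝 z] g) :
    UN1_dd c f z = UN1_dd c g z := by
  rw [UN1_dd, UN1_dd, h.fderiv_eq]

theorem UN1_dd_mul (c : ℂ) {f g : ℂ → ℂ} {z : ℂ} (hf : DifferentiableAt ℝ f z)
    (hg : DifferentiableAt ℝ g z) :
    UN1_dd c (fun w => f w * g w) z = UN1_dd c f z * g z + f z * UN1_dd c g z := by
  rw [UN1_dd, UN1_dd, UN1_dd, fderiv_fun_mul hf hg]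
  simp only [_root_.add_apply, _root_.smul_apply, smul_eq_mul]
  ring

theorem UN1_dd_sub (c : ℂ) {f g : ℂ → ℂ} {z : ℂ} (hf : DifferentiableAt ℝ f z)
    (hg : DifferentiableAt ℝ g z) :
    UN1_dd c (fun w => f w - g w) z = UN1_dd c f z - UN1_dd c g z := by
  rw [UN1_dd, UN1_dd, UN1_dd, fderiv_fun_sub hf hg]
  simp only [_root_.sub_apply]
  ring

theorem UN1_dd_sum (c : ℂ) {ι : Type} (s : Finset ι) {f : ι → ℂ → ℂ} {z : ℂ}
    (hf : ∀ i ∈ s, DifferentiableAt ℝ (f i) z) :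
    UN1_dd c (fun w => ∑ i ∈ s, f i w) z = ∑ i ∈ s, UN1_dd c (f i) z := by
  simp only [UN1_dd]
  rw [fderiv_fun_sum hf]
  simp only [_root_.sum_apply, Finset.mul_sum]
  rw [← Finset.sum_add_distrib, Finset.sum_div]

theorem UN1_dd_const (c a z : ℂ) : UN1_dd c (fun _ => a) z = 0 := by
  rw [UN1_dd, fderiv_fun_const]
  simp

/-- conjugation -/
theorem UN1_dzb_star {f : ℂ → ℂ} {z : ℂ} (hf : DifferentiableAt ℝ f z) :
    dzb (fun w => star (f w)) z = star (dz f z) := by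
  have h : HasFDerivAt (fun w => star (f w)) ((Complex.conjCLE : ℂ →L[ℝ] ℂ).comp (fderiv ℝ f z)) z :=
    (Complex.conjCLE : ℂ →L[ℝ] ℂ).hasFDerivAt.comp z hf.hasFDerivAt
  rw [dzb, dz, h.fderiv]
  simp

/-- entrywise derivative of matrix valued functions -/
noncomputable def UN1_md (c : ℂ) {n : ℕ} (A : ℂ → Matrix (Fin n) (Fin n) ℂ) (z : ℂ) :
    Matrix (Fin n) (Fin n) ℂ := Matrix.of fun i j => UN1_dd c (fun w => A w i j) z

/-- entrywise differentiability -/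
def UN1_D {n : ℕ} (A : ℂ → Matrix (Fin n) (Fin n) ℂ) (z : ℂ) : Prop :=
  ∀ i j, DifferentiableAt ℝ (fun w => A w i j) z

theorem UN1_mdz {n : ℕ} (A : ℂ → Matrix (Fin n) (Fin n) ℂ) (z : ℂ) :
    mdz A z = UN1_md (-Complex.I) A z := by
  ext i j
  exact UN1_dz _ _

theorem UN1_mdzb {n : ℕ} (A : ℂ → Matrix (Fin n) (Fin n) ℂ) (z : ℂ) :
    mdzb A z = UN1_md Complex.I A z := rfl

section
variable {n : ℕ} {A B : ℂ → Matrix (Fin n) (Fin n) ℂ} {z : ℂ}

theorem UN1_D_mul (hA : UN1_D A z) (hB : UN1_D B z) : UN1_D (fun w => A w * B w) z := by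
  intro i j
  simp only [Matrix.mul_apply]
  exact DifferentiableAt.fun_sum fun k _ => (hA i k).mul (hB k j)

theorem UN1_D_sub (hA : UN1_D A z) (hB : UN1_D B z) : UN1_D (fun w => A w - B w) z := by
  intro i j
  simp only [Matrix.sub_apply]
  exact (hA i j).sub (hB i j)

theorem UN1_md_mul (c : ℂ) (hA : UN1_D A z) (hB : UN1_D B z) :
    UN1_md c (fun w => A w * B w) z = UN1_md c A z * B z + A z * UN1_md c B z := by
  ext i j
  rw [UN1_md, Matrix.of_apply, Matrix.add_apply, Matrix.mul_apply, Matrix.mul_apply,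
    ← Finset.sum_add_distrib]
  simp only [Matrix.mul_apply]
  rw [UN1_dd_sum c _ (f := fun k w => A w i k * B w k j) (fun k _ => (hA i k).mul (hB k j))]
  exact Finset.sum_congr rfl fun k _ => UN1_dd_mul c (hA i k) (hB k j)

theorem UN1_md_sub (c : ℂ) (hA : UN1_D A z) (hB : UN1_D B z) :
    UN1_md c (fun w => A w - B w) z = UN1_md c A z - UN1_md c B z := by
  ext i j
  exact UN1_dd_sub c (hA i j) (hB i j)

theorem UN1_md_congr (c : ℂ) (h : A =ᶠ[𝓝 z] B) : UN1_md c A z = UN1_md c B z := by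
  ext i j
  exact UN1_dd_congr c (h.mono fun w hw => by simp only [hw])

theorem UN1_md_trace (c : ℂ) (hA : UN1_D A z) :
    UN1_dd c (fun w => (A w).trace) z = (UN1_md c A z).trace := by
  simp only [Matrix.trace, Matrix.diag_apply]
  rw [UN1_dd_sum c _ (fun k _ => hA k k)]
  rfl

theorem UN1_D_prod {ι : Type} (s : Finset ι) {f : ι → ℂ → ℂ}
    (hf : ∀ i ∈ s, DifferentiableAt ℝ (f i) z) :
    DifferentiableAt ℝ (fun w => ∏ i ∈ s, f i w) z := by
  classical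
  induction s using Finset.induction_on with
  | empty => simp
  | insert a s ha ih =>
    simp only [Finset.prod_insert ha]
    exact (hf a (Finset.mem_insert_self _ _)).mul
      (ih fun i hi => hf i (Finset.mem_insert_of_mem hi))

theorem UN1_D_det (hA : UN1_D A z) : DifferentiableAt ℝ (fun w => (A w).det) z := by
  simp only [Matrix.det_apply]
  refine DifferentiableAt.fun_sum fun σ _ => ?_
  have h := UN1_D_prod (z := z) Finset.univ (f := fun i w => A w (σ i) i) (fun i _ => hA _ _)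
  exact h.const_smul ((Equiv.Perm.sign σ : ℤˣ))

theorem UN1_D_inv (hA : UN1_D A z) (h0 : (A z).det ≠ 0) : UN1_D (fun w => (A w)⁻¹) z := by
  intro i j
  have h1 : ∀ w, (A w)⁻¹ i j = ((A w).det)⁻¹ * (A w).adjugate i j := by
    intro w
    rw [Matrix.inv_def, Matrix.smul_apply, Ring.inverse_eq_inv', smul_eq_mul]
  simp only [h1]
  refine ((UN1_D_det hA).inv h0).mul ?_
  simp only [Matrix.adjugate_apply]
  apply UN1_D_det
  intro a b
  by_cases ha : a = j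
  · subst ha
    simp only [Matrix.updateRow_self]
    exact differentiableAt_const _
  · simp only [Matrix.updateRow_ne ha]
    exact hA a b

theorem UN1_md_inv (c : ℂ) (hA : UN1_D A z) (h0 : ∀ᶠ w in 𝓝 z, (A w).det ≠ 0) :
    UN1_md c (fun w => (A w)⁻¹) z = -((A z)⁻¹ * UN1_md c A z * (A z)⁻¹) := by
  have hz := h0.self_of_nhds
  have h1 : (fun w => A w * (A w)⁻¹) =ᶠ[𝓝 z] fun _ => 1 :=
    h0.mono fun w hw => Matrix.mul_nonsing_inv _ (isUnit_iff_ne_zero.mpr hw)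
  have h2 := UN1_md_congr c h1
  rw [UN1_md_mul c hA (UN1_D_inv hA hz)] at h2
  have h3 : UN1_md c (fun _ => (1 : Matrix (Fin n) (Fin n) ℂ)) z = 0 := by
    ext i j
    exact UN1_dd_const c _ z
  rw [h3] at h2
  have h4 : (A z)⁻¹ * A z = 1 := Matrix.nonsing_inv_mul _ (isUnit_iff_ne_zero.mpr hz)
  have h5 := congrArg (fun X => (A z)⁻¹ * X) h2
  simp only [Matrix.mul_add, Matrix.mul_zero] at h5
  rw [← Matrix.mul_assoc, ← Matrix.mul_assoc, h4, Matrix.one_mul] at h5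
  exact eq_neg_of_add_eq_zero_right h5

/-- the derivative of a Hermitian matrix -/
theorem UN1_herm (hA : UN1_D A z) (h : ∀ᶠ w in 𝓝 z, (A w)ᴴ = A w) : mdzb A z = (mdz A z)ᴴ := by
  have h1 : mdzb A z = mdzb (fun w => (A w)ᴴ) z := by
    rw [UN1_mdzb, UN1_mdzb]
    exact UN1_md_congr _ (h.mono fun w hw => hw.symm)
  rw [h1]
  ext i j
  exact UN1_dzb_star (hA j i)

end

open scoped MatrixOrder in
theorem UN1_fact {A : Matrix (Fin 3) (Fin 3) ℂ} (hA : A.PosDef) :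
    ∃ B : Matrix (Fin 3) (Fin 3) ℂ, A = Bᴴ * B ∧ B.det ≠ 0 := by
  obtain ⟨B, hB⟩ := CStarAlgebra.nonneg_iff_eq_star_mul_self.mp hA.posSemidef.nonneg
  rw [Matrix.star_eq_conjTranspose] at hB
  refine ⟨B, hB, fun h0 => ?_⟩
  have h1 := hA.det_pos
  rw [hB, Matrix.det_mul, h0, mul_zero] at h1
  exact lt_irrefl _ h1

/-- first term -/
theorem UN1_T1 (H K D : Matrix (Fin 3) (Fin 3) ℂ) (hH : H.PosDef) (hK : K.PosDef) :
    0 ≤ (K⁻¹ * Dᴴ * K * (H⁻¹ * K * D)).trace := by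
  obtain ⟨B, hB, -⟩ := UN1_fact hK.inv
  have h1 : (K⁻¹ * Dᴴ * K * (H⁻¹ * K * D)).trace =
      ((K * (D * Bᴴ))ᴴ * H⁻¹ * (K * (D * Bᴴ))).trace := by
    rw [hB, Matrix.conjTranspose_mul, Matrix.conjTranspose_mul, Matrix.conjTranspose_conjTranspose,
      hK.isHermitian.eq]
    have h2 : Bᴴ * B * Dᴴ * K * (H⁻¹ * K * D) = Bᴴ * (B * Dᴴ * K * (H⁻¹ * K * D)) := by
      simp only [Matrix.mul_assoc]
    rw [h2, Matrix.trace_mul_comm]
    simp only [Matrix.mul_assoc]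
  rw [h1]
  exact (hH.inv.posSemidef.conjTranspose_mul_mul_same _).trace_nonneg

/-- second term -/
theorem UN1_T2 (H K C : Matrix (Fin 3) (Fin 3) ℂ) (hH : H.PosDef) (hK : K.PosDef) :
    0 ≤ (K * C * H⁻¹ * Cᴴ).trace ∧ ((K * C * H⁻¹ * Cᴴ).trace = 0 → C = 0) := by
  obtain ⟨L, hL, hL0⟩ := UN1_fact hK
  obtain ⟨N, hN, hN0⟩ := UN1_fact hH.inv
  have h1 : (K * C * H⁻¹ * Cᴴ).trace = ((L * C * Nᴴ) * (L * C * Nᴴ)ᴴ).trace := by
    rw [Matrix.conjTranspose_mul, Matrix.conjTranspose_mul, Matrix.conjTranspose_conjTranspose, hN]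
    have h2 : K * C * (Nᴴ * N) * Cᴴ = Lᴴ * (L * C * Nᴴ * N * Cᴴ) := by
      rw [hL]; simp only [Matrix.mul_assoc]
    rw [h2, Matrix.trace_mul_comm]
    simp only [Matrix.mul_assoc]
  refine ⟨?_, fun h0 => ?_⟩
  · rw [h1]
    exact (Matrix.posSemidef_self_mul_conjTranspose _).trace_nonneg
  · rw [h1, Matrix.trace_mul_conjTranspose_self_eq_zero_iff] at h0
    have hL' : L⁻¹ * L = 1 := Matrix.nonsing_inv_mul _ (isUnit_iff_ne_zero.mpr hL0)
    have hN0' : (Nᴴ).det ≠ 0 := by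
      rw [Matrix.det_conjTranspose]; exact star_ne_zero.mpr hN0
    have hN' : Nᴴ * (Nᴴ)⁻¹ = 1 := Matrix.mul_nonsing_inv _ (isUnit_iff_ne_zero.mpr hN0')
    calc C = (L⁻¹ * L) * C * (Nᴴ * (Nᴴ)⁻¹) := by rw [hL', hN', Matrix.one_mul, Matrix.mul_one]
      _ = L⁻¹ * (L * C * Nᴴ) * (Nᴴ)⁻¹ := by simp only [Matrix.mul_assoc]
      _ = 0 := by rw [h0]; simp

theorem UN1_alg (H K H' K' P : Matrix (Fin 3) (Fin 3) ℂ) (hH : H.PosDef) (hK : K.PosDef) (T : ℂ)
    (hTdef : T = ((-(K⁻¹ * K'ᴴ * K⁻¹) * H + K⁻¹ * H'ᴴ) * (H⁻¹ * H' - K⁻¹ * K') + K⁻¹ * H *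
      ((P * adj H P - adj H P * P) - (P * adj K P - adj K P * P))).trace) :
    0 ≤ T.re ∧ (T.re = 0 → (K⁻¹ * H) * P = P * (K⁻¹ * H)) := by
  have uH : IsUnit H.det := (Matrix.isUnit_iff_isUnit_det _).mp hH.isUnit
  have uK : IsUnit K.det := (Matrix.isUnit_iff_isUnit_det _).mp hK.isUnit
  have a1 : ∀ X : Matrix (Fin 3) (Fin 3) ℂ, H * (H⁻¹ * X) = X := fun X => by
    rw [← Matrix.mul_assoc, Matrix.mul_nonsing_inv _ uH, Matrix.one_mul]
  have a2 : ∀ X : Matrix (Fin 3) (Fin 3) ℂ, H⁻¹ * (H * X) = X := fun X => by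
    rw [← Matrix.mul_assoc, Matrix.nonsing_inv_mul _ uH, Matrix.one_mul]
  have b1 : ∀ X : Matrix (Fin 3) (Fin 3) ℂ, K * (K⁻¹ * X) = X := fun X => by
    rw [← Matrix.mul_assoc, Matrix.mul_nonsing_inv _ uK, Matrix.one_mul]
  have b2 : ∀ X : Matrix (Fin 3) (Fin 3) ℂ, K⁻¹ * (K * X) = X := fun X => by
    rw [← Matrix.mul_assoc, Matrix.nonsing_inv_mul _ uK, Matrix.one_mul]
  have a3 : H * H⁻¹ = 1 := Matrix.mul_nonsing_inv _ uH
  have a4 : H⁻¹ * H = 1 := Matrix.nonsing_inv_mul _ uH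
  have b3 : K * K⁻¹ = 1 := Matrix.mul_nonsing_inv _ uK
  have b4 : K⁻¹ * K = 1 := Matrix.nonsing_inv_mul _ uK
  have cH : Hᴴ = H := hH.isHermitian.eq
  have cK : Kᴴ = K := hK.isHermitian.eq
  have cHi : (H⁻¹)ᴴ = H⁻¹ := hH.inv.isHermitian.eq
  have cKi : (K⁻¹)ᴴ = K⁻¹ := hK.inv.isHermitian.eq
  let D := K⁻¹ * H' - K⁻¹ * H * K⁻¹ * K'
  let C := K⁻¹ * H * P - P * (K⁻¹ * H)
  have e1 : (-(K⁻¹ * K'ᴴ * K⁻¹) * H + K⁻¹ * H'ᴴ) * (H⁻¹ * H' - K⁻¹ * K') =
      K⁻¹ * Dᴴ * K * (H⁻¹ * K * D) := by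
    have f1 : K⁻¹ * Dᴴ * K = -(K⁻¹ * K'ᴴ * K⁻¹) * H + K⁻¹ * H'ᴴ := by
      simp only [D, Matrix.conjTranspose_sub, Matrix.conjTranspose_mul, cH, cKi, Matrix.mul_sub,
        Matrix.sub_mul, Matrix.mul_assoc, b4, Matrix.mul_one, Matrix.neg_mul]
      abel
    have f2 : H⁻¹ * K * D = H⁻¹ * H' - K⁻¹ * K' := by
      simp only [D, Matrix.mul_sub, Matrix.mul_assoc, b1, a2]
    rw [f1, f2]
  have e2 : (K⁻¹ * H * ((P * adj H P - adj H P * P) - (P * adj K P - adj K P * P))).trace =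
      (K * C * H⁻¹ * Cᴴ).trace := by
    have t1 : (K⁻¹ * H * (P * adj H P)).trace = (H * P * H⁻¹ * Pᴴ * H * K⁻¹).trace := by
      rw [Matrix.trace_mul_comm (H * P * H⁻¹ * Pᴴ * H), adj]
      simp only [Matrix.mul_assoc]
    have t2 : (K⁻¹ * H * (adj H P * P)).trace = (H * P * K⁻¹ * Pᴴ).trace := by
      have : K⁻¹ * H * (adj H P * P) = (K⁻¹ * Pᴴ) * (H * P) := by
        rw [adj]; simp only [Matrix.mul_assoc, a1]
      rw [this, Matrix.trace_mul_comm]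
      simp only [Matrix.mul_assoc]
    have t3 : (K⁻¹ * H * (P * adj K P)).trace = (K * P * K⁻¹ * Pᴴ * H * K⁻¹).trace := by
      have e : (K⁻¹ * H * (P * adj K P)) = K⁻¹ * (H * P * K⁻¹ * Pᴴ * K) := by
        rw [adj]; simp only [Matrix.mul_assoc]
      have e' : K * P * K⁻¹ * Pᴴ * H * K⁻¹ = K * (P * K⁻¹ * Pᴴ * H * K⁻¹) := by
        simp only [Matrix.mul_assoc]
      rw [e, e', Matrix.trace_mul_comm K⁻¹, Matrix.trace_mul_comm K]
      simp only [Matrix.mul_assoc, b3, b4, Matrix.mul_one]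
      rw [Matrix.trace_mul_comm H]
      simp only [Matrix.mul_assoc]
    have t4 : (K⁻¹ * H * (adj K P * P)).trace = (K * P * K⁻¹ * H * K⁻¹ * Pᴴ).trace := by
      have e : K⁻¹ * H * (adj K P * P) = (K⁻¹ * H * K⁻¹ * Pᴴ) * (K * P) := by
        rw [adj]; simp only [Matrix.mul_assoc]
      rw [e, Matrix.trace_mul_comm]
      simp only [Matrix.mul_assoc]
    have t5 : K * C * H⁻¹ * Cᴴ = H * P * H⁻¹ * Pᴴ * H * K⁻¹ - H * P * K⁻¹ * Pᴴ
        - (K * P * K⁻¹ * Pᴴ * H * K⁻¹ - K * P * K⁻¹ * H * K⁻¹ * Pᴴ) := by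
      simp only [C, Matrix.conjTranspose_sub, Matrix.conjTranspose_mul, cH, cKi, Matrix.mul_sub,
        Matrix.sub_mul, Matrix.mul_assoc, b1, a2, a3, Matrix.mul_one]
      abel
    rw [t5]
    simp only [Matrix.mul_sub, Matrix.trace_sub]
    rw [t1, t2, t3, t4]
  have hT : T = (K⁻¹ * Dᴴ * K * (H⁻¹ * K * D)).trace + (K * C * H⁻¹ * Cᴴ).trace := by
    rw [hTdef, Matrix.trace_add, e2, e1]
  have h1 := UN1_T1 H K D hH hK
  have h2 := UN1_T2 H K C hH hK
  have h1r : 0 ≤ (K⁻¹ * Dᴴ * K * (H⁻¹ * K * D)).trace.re := (Complex.le_def.mp h1).1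
  have h2r : 0 ≤ (K * C * H⁻¹ * Cᴴ).trace.re := (Complex.le_def.mp h2.1).1
  have h2i : 0 = (K * C * H⁻¹ * Cᴴ).trace.im := (Complex.le_def.mp h2.1).2
  refine ⟨?_, fun h0 => ?_⟩
  · rw [hT, Complex.add_re]
    exact add_nonneg h1r h2r
  · rw [hT, Complex.add_re] at h0
    have h3 : (K * C * H⁻¹ * Cᴴ).trace.re = 0 := by linarith
    have h4 : C = 0 := h2.2 (Complex.ext h3 h2i.symm)
    exact sub_eq_zero.mp h4

theorem UN1_D_mdz {n : ℕ} {A : ℂ → Matrix (Fin n) (Fin n) ℂ} {z : ℂ}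
    (hA : ∀ i j, ContDiffAt ℝ 2 (fun w => A w i j) z) : UN1_D (mdz A) z := by
  intro i j
  have h1 : ContDiffAt ℝ 1 (fderiv ℝ (fun w => A w i j)) z := (hA i j).fderiv_right (by norm_num)
  have h2 : DifferentiableAt ℝ (fderiv ℝ (fun w => A w i j)) z := h1.differentiableAt (by norm_num)
  show DifferentiableAt ℝ (fun w => (fderiv ℝ (fun w => A w i j) w 1 -
    Complex.I * fderiv ℝ (fun w => A w i j) w Complex.I) / 2) z
  have h3 : DifferentiableAt ℝ (fun w => fderiv ℝ (fun w => A w i j) w 1) z :=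
    h2.clm_apply (differentiableAt_const _)
  have h4 : DifferentiableAt ℝ (fun w => fderiv ℝ (fun w => A w i j) w Complex.I) z :=
    h2.clm_apply (differentiableAt_const _)
  have h5 : DifferentiableAt ℝ (fun w => fderiv ℝ (fun w => A w i j) w 1 -
    Complex.I * fderiv ℝ (fun w => A w i j) w Complex.I) z := h3.sub (h4.const_mul _)
  simp only [div_eq_mul_inv]
  exact h5.mul_const _

/-
PROOF OF THE TARGET IN WORDS
Write d = mdz, db = mdzb (entrywise; product rule; db of the conjugate transpose is the conjugate transpose of d), h = K^{-1} H, so H = K h; h is C^2 at z (inverse of a C^2 matrix function with invertible values: entries of adjugate / det). Let theta_H = H^{-1} dH, theta_K = K^{-1} dK. From H = K h: theta_H = h^{-1} theta_K h + h^{-1} dh, so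
h theta_H = theta_K h + dh, i.e. dh = h theta_H - theta_K h. (1) Conjugate transposes: H, K Hermitian: (dH)^* = db H. dh is also K^{-1} dH - theta_K h; db h = K^{-1} db H - K^{-1} db K h.
f = trace h. dz f = trace(dh) = trace(h theta_H - theta_K h) = trace(h (theta_H - theta_K)) near z. So dzb dz f (z) = trace(db h (theta_H - theta_K)) + trace(h (db theta_H - db theta_K)).
First term: put D := h (theta_H - theta_K) (= dh + [theta_K, h]). Claim (db h) = K^{-1} D^* K: D = h theta_H - h theta_K = K^{-1} dH - K^{-1} H K^{-1} dK, D^* = db H K^{-1} - db K K^{-1} H K^{-1}, so K^{-1} D^* K = K^{-1} db H - K^{-1} db K K^{-1} H = db h. So the first term is trace(K^{-1} D^* K h^{-1} D) = trace(K^{-1} D^* (K h^{-1}) D) where K h^{-1} = K H^{-1} K is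
positive definite, K^{-1} positive definite; trace(K^{-1} D^* S D) >= 0 for S, K^{-1} positive (semi)definite: write K^{-1} = L L^*, trace(L^* D^* S D L) >= 0.
Second term, by the two equations with Phi = P, Phi*_K = adj K P =: Q, adj H P = h^{-1} Q h: trace(h(P h^{-1} Q h - h^{-1} Q h P) - h (P Q - Q P)) = trace(h P h^{-1} Q h) - trace(Q h P) - trace(h P Q) + trace(h Q P), and this is trace(C h^{-1} C') with C = h P - P h, C' = Q h - h Q (expand, cyclicity of the trace). C' = K^{-1} C^* K since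
(hP)^{*_K} = Q h, where h^{*_K} = K^{-1} h^* K = K^{-1} H K^{-1} K = h. So it is trace(C h^{-1} K^{-1} C^* K) = trace(K C H^{-1} C^*)  (h^{-1} K^{-1} = H^{-1}): nonnegative with K, H^{-1} positive definite, and zero iff C = 0 (K = L^* L, H^{-1} = N N^*: trace((L C N)(L C N)^*) = 0 iff L C N = 0 iff C = 0, L, N invertible).
Both terms have nonnegative real part, so the sum is >= 0 and if it is 0 then C = 0. (Positive semidefinite square roots or Matrix.PosDef facts: PosDef -> exists invertible B with A = B^* B, e.g. Matrix.posSemidef_iff_eq_conjTranspose_mul_self.)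
-/
-- TARGET
theorem UN1 : T_UN1 := by
  intro H K P z hpos hC eH eK
  have hDH : ∀ᶠ w in 𝓝 z, UN1_D H w := by
    have h1 : ∀ i j, ∀ᶠ w in 𝓝 z, ContDiffAt ℝ 2 (fun w => H w i j) w := fun i j =>
      (hC i j).1.eventually (by norm_num)
    have h2 : ∀ᶠ w in 𝓝 z, ∀ i j, ContDiffAt ℝ 2 (fun w => H w i j) w := by
      rw [Filter.eventually_all]; intro i
      rw [Filter.eventually_all]; intro j
      exact h1 i j
    exact h2.mono fun w hw i j => (hw i j).differentiableAt (by norm_num)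
  have hDK : ∀ᶠ w in 𝓝 z, UN1_D K w := by
    have h1 : ∀ i j, ∀ᶠ w in 𝓝 z, ContDiffAt ℝ 2 (fun w => K w i j) w := fun i j =>
      (hC i j).2.eventually (by norm_num)
    have h2 : ∀ᶠ w in 𝓝 z, ∀ i j, ContDiffAt ℝ 2 (fun w => K w i j) w := by
      rw [Filter.eventually_all]; intro i
      rw [Filter.eventually_all]; intro j
      exact h1 i j
    exact h2.mono fun w hw i j => (hw i j).differentiableAt (by norm_num)
  have hposz := hpos.self_of_nhds
  have hdetH : ∀ᶠ w in 𝓝 z, (H w).det ≠ 0 := hpos.mono fun w hw => ne_of_gt hw.1.det_pos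
  have hdetK : ∀ᶠ w in 𝓝 z, (K w).det ≠ 0 := hpos.mono fun w hw => ne_of_gt hw.2.det_pos
  -- the first derivative near z
  have hfirst : ∀ᶠ w in 𝓝 z, dz (fun w => ((K w)⁻¹ * H w).trace) w =
      ((K w)⁻¹ * H w * ((H w)⁻¹ * mdz H w - (K w)⁻¹ * mdz K w)).trace := by
    filter_upwards [hDH, hDK, hdetH.eventually_nhds, hdetK.eventually_nhds] with w h1 h2 h3 h4
    have h3' := h3.self_of_nhds
    have h4' := h4.self_of_nhds
    have uH : IsUnit (H w).det := isUnit_iff_ne_zero.mpr h3'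
    rw [UN1_dz, UN1_md_trace _ (UN1_D_mul (UN1_D_inv h2 h4') h1),
      UN1_md_mul _ (UN1_D_inv h2 h4') h1, UN1_md_inv _ h2 h4, ← UN1_mdz, ← UN1_mdz]
    have e : (K w)⁻¹ * H w * ((H w)⁻¹ * mdz H w - (K w)⁻¹ * mdz K w) =
        (K w)⁻¹ * mdz H w - (K w)⁻¹ * H w * ((K w)⁻¹ * mdz K w) := by
      rw [Matrix.mul_sub, ← Matrix.mul_assoc ((K w)⁻¹ * H w) (H w)⁻¹,
        Matrix.mul_assoc (K w)⁻¹ (H w) (H w)⁻¹, Matrix.mul_nonsing_inv _ uH, Matrix.mul_one]
    rw [e, Matrix.trace_add, Matrix.trace_sub, Matrix.neg_mul, Matrix.trace_neg,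
      Matrix.mul_assoc ((K w)⁻¹ * mdz K w), Matrix.trace_mul_comm ((K w)⁻¹ * mdz K w)]
    ring
  have hD1 : UN1_D H z := hDH.self_of_nhds
  have hD2 : UN1_D K z := hDK.self_of_nhds
  have hdH := UN1_D_mdz (A := H) (z := z) (fun i j => (hC i j).1)
  have hdK := UN1_D_mdz (A := K) (z := z) (fun i j => (hC i j).2)
  have hiH := UN1_D_inv hD1 hdetH.self_of_nhds
  have hiK := UN1_D_inv hD2 hdetK.self_of_nhds
  have hherm1 : mdzb H z = (mdz H z)ᴴ := UN1_herm hD1 (hpos.mono fun w hw => hw.1.isHermitian.eq)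
  have hherm2 : mdzb K z = (mdz K z)ᴴ := UN1_herm hD2 (hpos.mono fun w hw => hw.2.isHermitian.eq)
  refine UN1_alg (H z) (K z) (mdz H z) (mdz K z) P hposz.1 hposz.2 _ ?_
  rw [UN1_dzb, UN1_dd_congr _ hfirst,
    UN1_md_trace _ (UN1_D_mul (UN1_D_mul hiK hD1) (UN1_D_sub (UN1_D_mul hiH hdH)
      (UN1_D_mul hiK hdK))),
    UN1_md_mul _ (UN1_D_mul hiK hD1) (UN1_D_sub (UN1_D_mul hiH hdH) (UN1_D_mul hiK hdK)),
    UN1_md_mul _ hiK hD1, UN1_md_sub _ (UN1_D_mul hiH hdH) (UN1_D_mul hiK hdK),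
    UN1_md_inv _ hD2 hdetK, ← UN1_mdzb, ← UN1_mdzb, ← UN1_mdzb, ← UN1_mdzb, eH, eK, hherm1, hherm2]

end Pool.Agent.Helper614.HE.P_UN1
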