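import Pool.Agent.Helper614.HE.SpecC
set_option autoImplicit false

open scoped Manifold ContDiff Matrix ComplexOrder
open Matrix Topology MeasureTheory Set Filter

namespace Pool.Agent.Helper614.HE.P_UN2

open Pool.Agent.Helper614.HE



/-
PROOF OF THE TARGET IN WORDS
X is compact, nonempty, so f attains its maximum m at some x0 (IsCompact.exists_isMaxOn). The set S = {f = m} is closed and nonempty; it is open: let x in S, e the chart at x (chartAt, in the atlas), g(z) = f(e.symm z) on a closed ball around z0 = e x inside e.target. g is C^2 with Laplacian 4 Re(dzb dz g) >= 0. Local strong maximum principle: a C^2 function with Laplacian >= 0 on a disc that attains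
its maximum at the centre is constant near the centre. Proof: the circle mean A(r) = (1/2pi) int_0^{2pi} g(z0 + r e^{it}) dt satisfies r A'(r) = (1/2pi) int_{|z-z0|<r} Laplacian g >= 0 ... so A(r) >= A(0) = m, and g <= m and continuity give g = m on the circle of radius r. Alternatively (elementary) Hopf's argument, or use existing material:
Pool/Agent/H314/Dir/Lap.lean and other landed files (grep for subharmonic / maximum principle in the graded repository outputs/live), or Mathlib (Mathlib.Analysis.Complex.Harmonic, InnerProductSpace.laplacian). Another elementary way for A: differentiate A twice under the integral sign: in polar coordinates A'' + A'/r = (1/2pi) int (Laplacian g)(z0 + r e^{it}) dt >= 0 (the angular second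
derivative integrates to zero), so (r A')' >= 0, r A' >= 0 (it tends to 0 at r = 0), A nondecreasing. X is connected, so S = X: IsClopen.eq_univ. Here dz f = (f_x - i f_y)/2, dzb f = (f_x + i f_y)/2 so Re dzb dz g = (g_xx + g_yy)/4.
-/

/-- the Laplacian of a real function -/
noncomputable def UN2_L (f : ℂ → ℝ) (z : ℂ) : ℝ :=
  fderiv ℝ (fun w => fderiv ℝ f w 1) z 1 + fderiv ℝ (fun w => fderiv ℝ f w Complex.I) z Complex.I

theorem UN2_second {f : ℝ → ℝ} {x₀ : ℝ} (h : IsLocalMax f x₀) (hc : ContinuousAt f x₀) :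
    deriv (deriv f) x₀ ≤ 0 := by
  by_contra hcon
  push Not at hcon
  have h0 : deriv f x₀ = 0 := h.deriv_eq_zero
  have hmin : IsLocalMin f x₀ := isLocalMin_of_deriv_deriv_pos hcon h0 hc
  have heq : f =ᶠ[𝓝 x₀] fun _ => f x₀ := by
    filter_upwards [h, hmin] with x h1 h2
    exact le_antisymm h1 h2
  have h1 : deriv f =ᶠ[𝓝 x₀] deriv (fun _ : ℝ => f x₀) := heq.deriv
  have h2 := h1.deriv_eq
  simp at h2
  linarith

theorem UN2_slice {Φ : ℂ → ℝ} {z : ℂ} (hΦ : ContDiffAt ℝ 2 Φ z) (hmax : IsLocalMax Φ z) (v : ℂ) :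
    fderiv ℝ (fun w => fderiv ℝ Φ w v) z v ≤ 0 := by
  have hline : ContinuousAt (fun s : ℝ => z + s • v) 0 := by fun_prop
  have hz : (fun s : ℝ => z + s • v) 0 = z := by simp
  have hz' : z + (0 : ℝ) • v = z := by simp
  have hd : ∀ s : ℝ, HasDerivAt (fun s : ℝ => z + s • v) v s := by
    intro s
    have := ((hasDerivAt_id s).smul_const v).const_add z
    simpa using this
  have hmax' : IsLocalMax (fun s : ℝ => Φ (z + s • v)) 0 := by
    have h1 : Tendsto (fun s : ℝ => z + s • v) (𝓝 0) (𝓝 z) := by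
      have := hline.tendsto
      rwa [hz'] at this
    have := h1.eventually hmax
    filter_upwards [this] with s hs
    simpa using hs
  have h1 : Tendsto (fun s : ℝ => z + s • v) (𝓝 0) (𝓝 z) := by
    have := hline.tendsto
    rwa [hz'] at this
  have hc : ContinuousAt (fun s : ℝ => Φ (z + s • v)) 0 := by
    have h2 : ContinuousAt Φ ((fun s : ℝ => z + s • v) 0) := by rw [hz]; exact hΦ.continuousAt
    exact ContinuousAt.comp (g := Φ) (f := fun s : ℝ => z + s • v) h2 hline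
  have key := UN2_second hmax' hc
  have c1 : ∀ᶠ w in 𝓝 z, ContDiffAt ℝ 1 Φ w := (hΦ.of_le (by norm_num)).eventually (by simp)
  have e1 : deriv (fun s : ℝ => Φ (z + s • v)) =ᶠ[𝓝 0] fun s => fderiv ℝ Φ (z + s • v) v := by
    filter_upwards [h1.eventually c1] with s hs
    have d1 : HasFDerivAt Φ (fderiv ℝ Φ (z + s • v)) (z + s • v) :=
      (hs.differentiableAt (by simp)).hasFDerivAt
    exact (d1.comp_hasDerivAt s (hd s)).deriv
  have hD : DifferentiableAt ℝ (fun w => fderiv ℝ Φ w v) z := by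
    have h1 : DifferentiableAt ℝ (fderiv ℝ Φ) z :=
      (hΦ.fderiv_right (m := 1) (by norm_num)).differentiableAt (by simp)
    exact h1.clm_apply (differentiableAt_const v)
  have e2 : HasDerivAt (fun s : ℝ => fderiv ℝ Φ (z + s • v) v)
      (fderiv ℝ (fun w => fderiv ℝ Φ w v) z v) 0 := by
    have d2 : HasFDerivAt (fun w => fderiv ℝ Φ w v) (fderiv ℝ (fun w => fderiv ℝ Φ w v) z)
        ((fun s : ℝ => z + s • v) 0) := by
      rw [hz]; exact hD.hasFDerivAt
    exact d2.comp_hasDerivAt (0 : ℝ) (hd 0)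
  rw [e1.deriv_eq, e2.deriv] at key
  exact key

theorem UN2_max {Φ : ℂ → ℝ} {z : ℂ} (hΦ : ContDiffAt ℝ 2 Φ z) (hmax : IsLocalMax Φ z) :
    UN2_L Φ z ≤ 0 := by
  unfold UN2_L
  have h1 := UN2_slice hΦ hmax 1
  have h2 := UN2_slice hΦ hmax Complex.I
  linarith

/-- the barrier -/
noncomputable def UN2_b (α : ℝ) (c : ℂ) (w : ℂ) : ℝ :=
  Real.exp (-(α * ((w.re - c.re) ^ 2 + (w.im - c.im) ^ 2)))

theorem UN2_b_fd (α : ℝ) (c w : ℂ) : HasFDerivAt (UN2_b α c)
    (UN2_b α c w • (-(α • ((2 * (w.re - c.re)) • Complex.reCLM +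
      (2 * (w.im - c.im)) • Complex.imCLM)))) w := by
  have h1 : HasFDerivAt (fun w : ℂ => w.re - c.re) Complex.reCLM w :=
    Complex.reCLM.hasFDerivAt.sub_const c.re
  have h2 : HasFDerivAt (fun w : ℂ => w.im - c.im) Complex.imCLM w :=
    Complex.imCLM.hasFDerivAt.sub_const c.im
  have h3 := ((((h1.pow 2).add (h2.pow 2)).const_mul α).neg).exp
  unfold UN2_b
  refine h3.congr_fderiv ?_
  ext v
  simp

theorem UN2_b_cd (α : ℝ) (c : ℂ) : ContDiff ℝ 2 (UN2_b α c) := by
  unfold UN2_b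
  have h1 : ContDiff ℝ 2 (fun w : ℂ => w.re) := Complex.reCLM.contDiff
  have h2 : ContDiff ℝ 2 (fun w : ℂ => w.im) := Complex.imCLM.contDiff
  fun_prop

theorem UN2_b_L (α : ℝ) (c z : ℂ) : UN2_L (UN2_b α c) z =
    (4 * α ^ 2 * ((z.re - c.re) ^ 2 + (z.im - c.im) ^ 2) - 4 * α) * UN2_b α c z := by
  unfold UN2_L
  have e1 : (fun w => fderiv ℝ (UN2_b α c) w 1) =
      fun w => UN2_b α c w * (-(α * (2 * (w.re - c.re)))) := by
    funext w
    rw [(UN2_b_fd α c w).fderiv]
    simp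
  have e2 : (fun w => fderiv ℝ (UN2_b α c) w Complex.I) =
      fun w => UN2_b α c w * (-(α * (2 * (w.im - c.im)))) := by
    funext w
    rw [(UN2_b_fd α c w).fderiv]
    simp
  rw [e1, e2]
  have h1 : HasFDerivAt (fun w : ℂ => w.re - c.re) Complex.reCLM z :=
    Complex.reCLM.hasFDerivAt.sub_const c.re
  have h2 : HasFDerivAt (fun w : ℂ => w.im - c.im) Complex.imCLM z :=
    Complex.imCLM.hasFDerivAt.sub_const c.im
  have d1 := (UN2_b_fd α c z).mul (((h1.const_mul 2).const_mul α).neg)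
  have d2 := (UN2_b_fd α c z).mul (((h2.const_mul 2).const_mul α).neg)
  have f1 : fderiv ℝ (fun w => UN2_b α c w * (-(α * (2 * (w.re - c.re))))) z = _ := d1.fderiv
  have f2 : fderiv ℝ (fun w => UN2_b α c w * (-(α * (2 * (w.im - c.im))))) z = _ := d2.fderiv
  rw [f1, f2]
  simp
  ring

theorem UN2_norm (w c : ℂ) : (w.re - c.re) ^ 2 + (w.im - c.im) ^ 2 = ‖w - c‖ ^ 2 := by
  rw [← Complex.normSq_eq_norm_sq, Complex.normSq_apply]
  simp
  ring

theorem UN2_dd {g : ℂ → ℝ} {z : ℂ} (hg : ContDiffAt ℝ 2 g z) (v : ℂ) :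
    DifferentiableAt ℝ (fun w => fderiv ℝ g w v) z := by
  have h1 : DifferentiableAt ℝ (fderiv ℝ g) z :=
    (hg.fderiv_right (m := 1) (by norm_num)).differentiableAt (by simp)
  exact h1.clm_apply (differentiableAt_const v)

theorem UN2_ev {g : ℂ → ℝ} {z : ℂ} (hg : ContDiffAt ℝ 2 g z) :
    ∀ᶠ w in 𝓝 z, DifferentiableAt ℝ g w := by
  have c1 : ∀ᶠ w in 𝓝 z, ContDiffAt ℝ 1 g w := (hg.of_le (by norm_num)).eventually (by simp)
  filter_upwards [c1] with w hw
  exact hw.differentiableAt (by simp)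

theorem UN2_L_add {g b : ℂ → ℝ} {z : ℂ} (hg : ContDiffAt ℝ 2 g z) (hb : ContDiffAt ℝ 2 b z)
    (c : ℝ) : UN2_L (fun w => g w + c * b w) z = UN2_L g z + c * UN2_L b z := by
  have key : ∀ v : ℂ, fderiv ℝ (fun w => fderiv ℝ (fun w => g w + c * b w) w v) z v =
      fderiv ℝ (fun w => fderiv ℝ g w v) z v + c * fderiv ℝ (fun w => fderiv ℝ b w v) z v := by
    intro v
    have e : (fun w => fderiv ℝ (fun w => g w + c * b w) w v) =ᶠ[𝓝 z]
        fun w => fderiv ℝ g w v + c * fderiv ℝ b w v := by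
      filter_upwards [UN2_ev hg, UN2_ev hb] with w h1 h2
      have := (h1.hasFDerivAt.add (h2.hasFDerivAt.const_mul c)).fderiv
      have h3 : fderiv ℝ (fun w => g w + c * b w) w = fderiv ℝ g w + c • fderiv ℝ b w := this
      rw [h3]
      simp
    rw [e.fderiv_eq]
    have := ((UN2_dd hg v).hasFDerivAt.add ((UN2_dd hb v).hasFDerivAt.const_mul c)).fderiv
    have h3 : fderiv ℝ (fun w => fderiv ℝ g w v + c * fderiv ℝ b w v) z =
      fderiv ℝ (fun w => fderiv ℝ g w v) z + c • fderiv ℝ (fun w => fderiv ℝ b w v) z := this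
    rw [h3]
    simp
  unfold UN2_L
  rw [key 1, key Complex.I]
  ring

theorem UN2_levi {g : ℂ → ℝ} {z : ℂ} (hg : ContDiffAt ℝ 2 g z) :
    (dzb (dz (fun z => (g z : ℂ))) z).re = UN2_L g z / 4 := by
  have e0 : ∀ w, DifferentiableAt ℝ g w → ∀ v : ℂ,
      fderiv ℝ (fun z => (g z : ℂ)) w v = ((fderiv ℝ g w v : ℝ) : ℂ) := by
    intro w hw v
    have := (Complex.ofRealCLM.hasFDerivAt.comp w hw.hasFDerivAt).fderiv
    have h3 : fderiv ℝ (fun z => (g z : ℂ)) w = Complex.ofRealCLM.comp (fderiv ℝ g w) := this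
    rw [h3]
    simp
  have e1 : dz (fun z => (g z : ℂ)) =ᶠ[𝓝 z]
      fun w => (((fderiv ℝ g w 1 : ℝ) : ℂ) - Complex.I * ((fderiv ℝ g w Complex.I : ℝ) : ℂ)) * (1 / 2) := by
    filter_upwards [UN2_ev hg] with w hw
    unfold dz
    rw [e0 w hw, e0 w hw]
    ring
  have d : ∀ v : ℂ, HasFDerivAt (fun w => ((fderiv ℝ g w v : ℝ) : ℂ))
      (Complex.ofRealCLM.comp (fderiv ℝ (fun w => fderiv ℝ g w v) z)) z := fun v =>
    Complex.ofRealCLM.hasFDerivAt.comp z (UN2_dd hg v).hasFDerivAt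
  have e2 : ∀ v : ℂ, fderiv ℝ (dz (fun z => (g z : ℂ))) z v =
      (((fderiv ℝ (fun w => fderiv ℝ g w 1) z v : ℝ) : ℂ) -
        Complex.I * ((fderiv ℝ (fun w => fderiv ℝ g w Complex.I) z v : ℝ) : ℂ)) * (1 / 2) := by
    intro v
    rw [e1.fderiv_eq]
    have h1 := (((d 1).sub ((d Complex.I).const_mul Complex.I)).mul_const (1 / 2)).fderiv
    have h3 : fderiv ℝ (fun w => (((fderiv ℝ g w 1 : ℝ) : ℂ) -
      Complex.I * ((fderiv ℝ g w Complex.I : ℝ) : ℂ)) * (1 / 2)) z = _ := h1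
    rw [h3]
    simp
    ring
  unfold dzb UN2_L
  rw [e2, e2]
  simp
  ring

/-- strong maximum principle near an interior maximum -/
theorem UN2_strong {g : ℂ → ℝ} {z0 z1 : ℂ} {R m : ℝ} (h01 : ‖z0 - z1‖ < R)
    (hg : ∀ z, ‖z - z1‖ ≤ R → ContDiffAt ℝ 2 g z) (hL : ∀ z, ‖z - z1‖ ≤ R → 0 ≤ UN2_L g z)
    (hm : ∀ z, ‖z - z1‖ ≤ R → g z ≤ m) (h0 : g z0 = m) : g z1 = m := by
  have hR : 0 < R := lt_of_le_of_lt (norm_nonneg _) h01
  by_contra hne
  have hlt : g z1 < m := lt_of_le_of_ne (hm z1 (by simpa using hR.le)) hne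
  set η := (m - g z1) / 2 with hη
  have hη0 : 0 < η := by rw [hη]; linarith
  have hc1 : ContinuousAt g z1 := (hg z1 (by simpa using hR.le)).continuousAt
  have hev : ∀ᶠ z in 𝓝 z1, g z < m - η := hc1.eventually_lt_const (by rw [hη]; linarith)
  obtain ⟨r, hr0, hr⟩ := Metric.eventually_nhds_iff.1 hev
  obtain ⟨ρ, hρ0, hρr⟩ : ∃ ρ : ℝ, 0 < ρ ∧ ρ < r := ⟨r / 2, by linarith, by linarith⟩
  have hρ01 : ρ ≤ ‖z0 - z1‖ := by
    by_contra hcon
    push Not at hcon
    have := hr (y := z0) (by rw [dist_eq_norm]; linarith)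
    linarith
  obtain ⟨α, hα0, hα⟩ : ∃ α : ℝ, 0 < α ∧ α * ρ ^ 2 = 2 := ⟨2 / ρ ^ 2, by positivity, by field_simp⟩
  set Φ : ℂ → ℝ := fun t => g t + η * UN2_b α z1 t with hΦ
  have hΦat : ∀ t : ℂ, ‖t - z1‖ ≤ R → ContDiffAt ℝ 2 Φ t := fun t ht =>
    (hg t ht).add (contDiffAt_const.mul (UN2_b_cd α z1).contDiffAt)
  let K : Set ℂ := Metric.closedBall z1 R \ Metric.ball z1 ρ
  have hK : IsCompact K := (isCompact_closedBall _ _).diff Metric.isOpen_ball
  have h0K : z0 ∈ K := by
    constructor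
    · rw [Metric.mem_closedBall, dist_eq_norm]; exact h01.le
    · rw [Metric.mem_ball, dist_eq_norm]; exact not_lt.2 hρ01
  have hcont : ContinuousOn Φ K := by
    intro t ht
    have h1 : ‖t - z1‖ ≤ R := by
      have := ht.1
      rwa [Metric.mem_closedBall, dist_eq_norm] at this
    exact (hΦat t h1).continuousAt.continuousWithinAt
  obtain ⟨z, hzK, hz⟩ := hK.exists_isMaxOn ⟨z0, h0K⟩ hcont
  have hz1 : ‖z - z1‖ ≤ R := by
    have := hzK.1
    rwa [Metric.mem_closedBall, dist_eq_norm] at this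
  have hz2 : ρ ≤ ‖z - z1‖ := by
    have := hzK.2
    rw [Metric.mem_ball, dist_eq_norm] at this
    exact not_lt.mp this
  have hΦ0 : Φ z0 ≤ Φ z := hz h0K
  have hb : ∀ w, UN2_b α z1 w = Real.exp (-(α * ‖w - z1‖ ^ 2)) := by
    intro w
    unfold UN2_b
    rw [UN2_norm]
  have hbz1 : UN2_b α z1 z ≤ 1 := by
    rw [hb, Real.exp_le_one_iff]
    have : 0 ≤ α * ‖z - z1‖ ^ 2 := by positivity
    linarith
  have hbR : Real.exp (-(α * R ^ 2)) < UN2_b α z1 z0 := by
    rw [hb]
    apply Real.exp_lt_exp.2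
    have : ‖z0 - z1‖ ^ 2 < R ^ 2 := pow_lt_pow_left₀ h01 (norm_nonneg _) (by norm_num)
    have := mul_lt_mul_of_pos_left this hα0
    linarith
  have hmain : Φ z ≤ m + η * Real.exp (-(α * R ^ 2)) := by
    rcases eq_or_lt_of_le hz1 with h1 | h1
    · have h3 : g z ≤ m := hm z hz1
      simp only [hΦ]
      rw [hb, h1]
      linarith
    rcases eq_or_lt_of_le hz2 with h2 | h2
    · have h3 : g z < m - η := hr (y := z) (by rw [dist_eq_norm]; linarith)
      have h4 : η * UN2_b α z1 z ≤ η * 1 := mul_le_mul_of_nonneg_left hbz1 hη0.le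
      have h5 : 0 < η * Real.exp (-(α * R ^ 2)) := mul_pos hη0 (Real.exp_pos _)
      simp only [hΦ]
      linarith
    · exfalso
      have hloc : IsLocalMax Φ z := by
        have hnb : K ∈ 𝓝 z := by
          have h3 : Metric.ball z1 R ∩ (Metric.closedBall z1 ρ)ᶜ ∈ 𝓝 z := by
            apply (Metric.isOpen_ball.inter Metric.isClosed_closedBall.isOpen_compl).mem_nhds
            constructor
            · rw [Metric.mem_ball, dist_eq_norm]; exact h1
            · rw [mem_compl_iff, Metric.mem_closedBall, dist_eq_norm]; exact not_le.mpr h2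
          refine Filter.mem_of_superset h3 ?_
          rintro t ⟨t1, t2⟩
          exact ⟨Metric.ball_subset_closedBall t1, fun h => t2 (Metric.ball_subset_closedBall h)⟩
        exact hz.isLocalMax hnb
      have h3 := UN2_max (hΦat z hz1) hloc
      simp only [hΦ] at h3
      rw [UN2_L_add (hg z hz1) (UN2_b_cd α z1).contDiffAt, UN2_b_L, UN2_norm] at h3
      have h5 := hL z hz1
      have h6 : 4 * α ≤ 4 * α ^ 2 * ‖z - z1‖ ^ 2 - 4 * α := by
        have h7 : ρ ^ 2 ≤ ‖z - z1‖ ^ 2 := pow_le_pow_left₀ hρ0.le hz2 2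
        have h8 : 4 * α ^ 2 * ρ ^ 2 ≤ 4 * α ^ 2 * ‖z - z1‖ ^ 2 :=
          mul_le_mul_of_nonneg_left h7 (by positivity)
        have h9 : 4 * α ^ 2 * ρ ^ 2 = 8 * α := by
          calc 4 * α ^ 2 * ρ ^ 2 = 4 * α * (α * ρ ^ 2) := by ring
            _ = 8 * α := by rw [hα]; ring
        linarith
      have h7 : 0 < UN2_b α z1 z := by rw [hb]; exact Real.exp_pos _
      have h8 : 0 < η * ((4 * α ^ 2 * ‖z - z1‖ ^ 2 - 4 * α) * UN2_b α z1 z) :=
        mul_pos hη0 (mul_pos (by linarith) h7)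
      linarith
  have h9 : η * Real.exp (-(α * R ^ 2)) < η * UN2_b α z1 z0 := mul_lt_mul_of_pos_left hbR hη0
  simp only [hΦ] at hΦ0 hmain
  rw [h0] at hΦ0
  linarith

-- TARGET
theorem UN2 : T_UN2 := by
  intro X i₁ i₂ hX f hf hs x y
  haveI := hX.t2
  haveI := hX.compact
  haveI := hX.connected
  obtain ⟨x0, -, hx0⟩ := (isCompact_univ (X := X)).exists_isMaxOn ⟨x, mem_univ x⟩ hf.continuousOn
  have hmax : ∀ z, f z ≤ f x0 := fun z => hx0 (mem_univ z)
  have hopen : IsOpen {z | f z = f x0} := by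
    rw [isOpen_iff_mem_nhds]
    intro p hp
    have hp' : f p = f x0 := hp
    set e := chartAt ℂ p with he
    have hea : e ∈ atlas ℂ X := chart_mem_atlas ℂ p
    obtain ⟨hcd, hL⟩ := hs e hea
    have hps : p ∈ e.source := mem_chart_source ℂ p
    have hpt : e p ∈ e.target := e.map_source hps
    obtain ⟨R, hR0, hR⟩ := Metric.isOpen_iff.1 e.open_target (e p) hpt
    have hloc : ∀ z1, ‖e p - z1‖ < R / 3 → f (e.symm z1) = f x0 := by
      intro z1 hz1
      have hin : ∀ z, ‖z - z1‖ ≤ R / 3 → z ∈ e.target := by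
        intro z hz
        apply hR
        rw [Metric.mem_ball, dist_eq_norm]
        calc ‖z - e p‖ ≤ ‖z - z1‖ + ‖z1 - e p‖ := norm_sub_le_norm_sub_add_norm_sub _ _ _
          _ = ‖z - z1‖ + ‖e p - z1‖ := by rw [norm_sub_rev z1]
          _ < R := by linarith
      have hgat : ∀ z, ‖z - z1‖ ≤ R / 3 → ContDiffAt ℝ 2 (fun z => f (e.symm z)) z := fun z hz =>
        hcd.contDiffAt (e.open_target.mem_nhds (hin z hz))
      refine UN2_strong (g := fun z => f (e.symm z)) hz1 hgat ?_ (fun z _ => hmax _) ?_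
      · intro z hz
        have h1 := hL z (hin z hz)
        have h2 := UN2_levi (hgat z hz)
        have h3 : (dzb (dz (fun z => ((f (e.symm z) : ℝ) : ℂ))) z).re =
          UN2_L (fun z => f (e.symm z)) z / 4 := h2
        rw [h3] at h1
        linarith
      · simp only [e.left_inv hps]
        exact hp'
    have hnb : e.source ∩ e ⁻¹' (Metric.ball (e p) (R / 3)) ∈ 𝓝 p := by
      apply Filter.inter_mem (e.open_source.mem_nhds hps)
      exact (e.continuousAt hps).preimage_mem_nhds (Metric.ball_mem_nhds _ (by linarith))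
    refine Filter.mem_of_superset hnb ?_
    rintro q ⟨hq1, hq2⟩
    have h1 : ‖e p - e q‖ < R / 3 := by
      have := hq2
      rw [mem_preimage, Metric.mem_ball, dist_eq_norm, norm_sub_rev] at this
      exact this
    have h2 := hloc (e q) h1
    rw [e.left_inv hq1] at h2
    exact h2
  have hclosed : IsClosed {z | f z = f x0} := isClosed_eq hf continuous_const
  have huniv : {z | f z = f x0} = univ := IsClopen.eq_univ ⟨hclosed, hopen⟩ ⟨x0, rfl⟩
  have h1 : x ∈ {z | f z = f x0} := by rw [huniv]; exact mem_univ x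
  have h2 : y ∈ {z | f z = f x0} := by rw [huniv]; exact mem_univ y
  exact h1.trans h2.symm

end Pool.Agent.Helper614.HE.P_UN2
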