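import Pool.Agent.Helper614.HE.SpecC
set_option autoImplicit false

open scoped Manifold ContDiff Matrix ComplexOrder
open Matrix Topology MeasureTheory Set Filter

namespace Pool.Agent.Helper614.HE.P_UN3

open Pool.Agent.Helper614.HE



/-
PROOF OF THE TARGET IN WORDS
Let h = K^{-1} H, N = c . Nm A psi = [[0,0,0],[a,0,0],[b,a,0]], a = cA not 0, b = c psi. From h N = N h: compare entries (hN)_{ij} = (Nh)_{ij}: first row of N h is 0, so the first row of h N: h_12 a + h_13 b = 0 and h_13 a = 0, so h_13 = h_12 = 0. Row 2: (N h)_{2j} = a h_{1j}, (hN)_{21} = h_22 a + h_23 b, (hN)_{22} = h_23 a; so h_23 a = a h_12 = 0, h_22 = h_11. Row 3: (Nh)_{3j} = b h_1j + a h_2j,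
(hN)_{31} = h_32 a + h_33 b, (hN)_{32} = h_33 a: h_33 a = a h_22; h_32 a + h_33 b = b h_11 + a h_21, so h_32 = h_21. So h is lower triangular with constant diagonal lambda = h_33. H = K h: H_33 = (K h)_33 = K_33 lambda (third column of h is lambda e_3), H_33, K_33 > 0 so lambda is real and positive. det H = det K det h: lambda^3 = 1 so lambda = 1. n = h - 1 is strictly lower triangular, so n^3 = 0, and
K n = H - K is Hermitian: K n = n^* K. For v: (n^2 v)^* K (n^2 v) = v^* (n^*)^2 K n^2 v = v^* K n^4 v = 0, so n^2 v = 0 (K positive definite), so n^2 = 0; then (n v)^* K (n v) = v^* K n^2 v = 0 so n = 0. Hence h = 1, H = K.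
-/
-- TARGET
theorem UN3 : T_UN3 := by
  intro H K c A ψ hH hK hdH hdK ha hcomm
  obtain ⟨h, hh⟩ : ∃ h, h = K⁻¹ * H := ⟨_, rfl⟩
  rw [← hh] at hcomm
  have hKu : IsUnit K.det := by rw [hdK]; exact isUnit_one
  have hHK : H = K * h := by
    rw [hh, ← Matrix.mul_assoc, Matrix.mul_nonsing_inv K hKu, Matrix.one_mul]
  -- entries of the commutation relation
  have e : ∀ i j, (h * (c • Nm A ψ)) i j = ((c • Nm A ψ) * h) i j := fun i j => by rw [hcomm]
  have e00 := e 0 0
  have e01 := e 0 1
  have e11 := e 1 1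
  have e20 := e 2 0
  have e21 := e 2 1
  simp [Matrix.mul_apply, Fin.sum_univ_three, Nm] at e00 e01 e11 e20 e21
  have ha' : c ≠ 0 ∧ A ≠ 0 := ⟨left_ne_zero_of_mul ha, right_ne_zero_of_mul ha⟩
  have h02 : h 0 2 = 0 := by
    rcases e01 with h1 | h1 | h1
    · exact h1
    · exact absurd h1 ha'.1
    · exact absurd h1 ha'.2
  have h01 : h 0 1 = 0 := by
    rw [h02, zero_mul, add_zero] at e00
    exact (mul_eq_zero.1 e00).resolve_right ha
  have h12 : h 1 2 = 0 := by
    rw [h01, mul_zero] at e11
    exact (mul_eq_zero.1 e11).resolve_right ha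
  have e10 := e 1 0
  simp [Matrix.mul_apply, Fin.sum_univ_three, Nm] at e10
  have h11 : h 1 1 = h 0 0 := by
    rw [h12, zero_mul, add_zero, mul_comm] at e10
    exact mul_left_cancel₀ ha e10
  have h22 : h 2 2 = h 0 0 := by
    rw [h01, mul_zero, zero_add, mul_comm, h11] at e21
    exact mul_left_cancel₀ ha e21
  have h21 : h 2 1 = h 1 0 := by
    rw [h22] at e20
    have : (c * A) * h 2 1 = (c * A) * h 1 0 := by linear_combination e20
    exact mul_left_cancel₀ ha this
  -- the entries of `H = K h`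
  have f : ∀ i j, H i j = K i 0 * h 0 j + K i 1 * h 1 j + K i 2 * h 2 j := fun i j => by
    rw [hHK, Matrix.mul_apply, Fin.sum_univ_three]
  have hdet : h.det = 1 := by
    have h1 := congrArg Matrix.det hHK
    rw [Matrix.det_mul, hdH, hdK, one_mul] at h1
    exact h1.symm
  rw [Matrix.det_fin_three, h01, h02, h12, h11, h22] at hdet
  have hl3 : h 0 0 ^ 3 = 1 := by linear_combination hdet
  have hH22 : 0 < H 2 2 := hH.diag_pos
  have hK22 : 0 < K 2 2 := hK.diag_pos
  have f22 := f 2 2
  rw [h02, h12, h22, mul_zero, mul_zero, zero_add, zero_add] at f22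
  have hl : h 0 0 = 1 := by
    rw [Complex.pos_iff] at hH22 hK22
    have hK0 : K 2 2 ≠ 0 := by
      intro h0
      rw [h0] at hK22
      simp at hK22
    have hre : h 0 0 = (((H 2 2).re / (K 2 2).re : ℝ) : ℂ) := by
      have hKr : ((K 2 2).re : ℂ) = K 2 2 := Complex.ext (by simp) (by simp [hK22.2])
      have hHr : ((H 2 2).re : ℂ) = H 2 2 := Complex.ext (by simp) (by simp [hH22.2])
      push_cast
      rw [hKr, hHr, f22, mul_div_cancel_left₀ _ hK0]
    obtain ⟨l, hl0, hl⟩ : ∃ l : ℝ, 0 < l ∧ h 0 0 = (l : ℂ) :=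
      ⟨_, div_pos hH22.1 hK22.1, hre⟩
    rw [hl] at hl3 ⊢
    have h3 : l ^ 3 = 1 := by exact_mod_cast hl3
    have h4 : l = 1 := by
      have h5 : (l - 1) * (l ^ 2 + l + 1) = 0 := by linear_combination h3
      have h6 : l ^ 2 + l + 1 ≠ 0 := by positivity
      linarith [(mul_eq_zero.1 h5).resolve_right h6]
    rw [h4, Complex.ofReal_one]
  have hK2 : K 2 2 ≠ 0 := hK22.ne'
  -- Hermitian symmetry
  have sH : ∀ i j, star (H i j) = H j i := fun i j => hH.isHermitian.apply j i
  have sK : ∀ i j, star (K i j) = K j i := fun i j => hK.isHermitian.apply j i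
  have f12 := f 1 2
  have f21 := f 2 1
  rw [h02, h12, h22, hl, mul_zero, mul_zero, zero_add, zero_add, mul_one] at f12
  rw [h01, h11, h21, hl, mul_zero, zero_add, mul_one] at f21
  have hp : h 1 0 = 0 := by
    have h1 := sH 1 2
    rw [f12, sK, f21] at h1
    have h2 : K 2 2 * h 1 0 = 0 := by linear_combination -h1
    exact (mul_eq_zero.1 h2).resolve_left hK2
  have f02 := f 0 2
  have f20 := f 2 0
  rw [h02, h12, h22, hl, mul_zero, mul_zero, zero_add, zero_add, mul_one] at f02
  rw [hp, hl, mul_one, mul_zero, add_zero] at f20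
  have hr : h 2 0 = 0 := by
    have h1 := sH 0 2
    rw [f02, sK, f20] at h1
    have h2 : K 2 2 * h 2 0 = 0 := by linear_combination -h1
    exact (mul_eq_zero.1 h2).resolve_left hK2
  have h1 : h = 1 := by
    ext i j
    fin_cases i <;> fin_cases j
    · simpa using hl
    · simpa using h01
    · simpa using h02
    · simpa using hp
    · simpa using h11.trans hl
    · simpa using h12
    · simpa using hr
    · simpa using h21.trans hp
    · simpa using h22.trans hl
  rw [hHK, h1, Matrix.mul_one]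

end Pool.Agent.Helper614.HE.P_UN3
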