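import Pool.Agent.Helper614.HE.SpecC
set_option autoImplicit false

open scoped Manifold ContDiff Matrix ComplexOrder
open Matrix Topology MeasureTheory Set Filter

namespace Pool.Agent.Helper614.HE.P_UNQ

open Pool.Agent.Helper614.HE



/-
PROOF OF THE TARGET IN WORDS
HB has iota = Bool, U = UU (4M), g = gg M, phi = ph M (all by rfl). Let H = h1, K = h2 be two harmonic metrics for s. f(x) := Re trace((K i x)^{-1} H i x) for x in UU i: independent of i by glue: K_j^{-1} H_j = (g^* K_i g)^{-1} g^* H_i g = g^{-1} K_i^{-1} H_i g. Define f with i = false if x in UU false and i = true otherwise. The trace of K^{-1} H is real: it is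
trace(K^{-1/2} H K^{-1/2}), or conj trace(K^{-1}H) = trace((K^{-1}H)^*) = trace(H K^{-1}). In a chart e of the atlas, on the open set e.target cap e.symm^{-1} UU i, f(e.symm z) = trace(K^{-1} H) is smooth (entries smooth, det K = 1, inverse = adjugate), and T_UN1 applies at each point z with P = s . ph M i e (e.symm z) (Hitchin's equation from IsHarmonicMetric.hitchin, where x = e.symm z, e x = z): Laplacian >= 0. So f is
continuous, C^2 in charts, with 0 <= Re dzb dz f. By T_UN2 f is constant, so Re dzb dz f = 0 everywhere, so by T_UN1 K^{-1} H commutes with P = (s th) . Nm(AA, PP) at every point. At points with s th AA not 0 T_UN3 gives H = K (det = 1 from IsHarmonicMetric.det). These points are dense: for x0 in UU i and the chart e at x0, for z in a punctured neighbourhood of e x0 th is not 0 (TH (6) and (3)) and AA M i (V z) is not 0 where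
V z = VV (4M) i (e.symm z): V is holomorphic near e x0 with derivative th Y not 0 on the punctured neighbourhood (TH (4)), so V - c is not identically 0 near e x0 for any constant c and has isolated zeros (AnalyticAt.eventually_eq_zero_or_eventually_ne_zero), and AA M i v = 0 only for finitely many v (v = 0 or v^{2M} = 1). By continuity of H and K in the chart, H = K at x0.
-/

theorem UNQ_trace_real {H K : Matrix (Fin 3) (Fin 3) ℂ} (hH : H.PosDef) (hK : K.PosDef) :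
    (((K⁻¹ * H).trace.re : ℝ) : ℂ) = (K⁻¹ * H).trace := by
  have h1 : star (K⁻¹ * H).trace = (K⁻¹ * H).trace := by
    rw [← Matrix.trace_conjTranspose, Matrix.conjTranspose_mul, Matrix.conjTranspose_nonsing_inv,
      hK.isHermitian.eq, hH.isHermitian.eq, Matrix.trace_mul_comm]
  exact Complex.conj_eq_iff_re.1 h1

theorem UNQ_inv {K : Matrix (Fin 3) (Fin 3) ℂ} (hK : K.det = 1) : K⁻¹ = K.adjugate := by
  rw [Matrix.inv_def, hK, Ring.inverse_one, one_smul]

theorem UNQ_smooth {H K : ℂ → Matrix (Fin 3) (Fin 3) ℂ} {z : ℂ}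
    (hdet : ∀ᶠ w in 𝓝 z, (K w).det = 1) (hH : ∀ a b, ContDiffAt ℝ 2 (fun w => H w a b) z)
    (hK : ∀ a b, ContDiffAt ℝ 2 (fun w => K w a b) z) :
    ContDiffAt ℝ 2 (fun w => ((K w)⁻¹ * H w).trace) z := by
  have h1 : (fun w => ((K w)⁻¹ * H w).trace) =ᶠ[𝓝 z] fun w => ((K w).adjugate * H w).trace := by
    filter_upwards [hdet] with w hw
    rw [UNQ_inv hw]
  refine ContDiffAt.congr_of_eventuallyEq ?_ h1
  have h2 : (fun w => ((K w).adjugate * H w).trace) = fun w => ∑ a, ∑ b,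
      (K w).adjugate a b * H w b a := by
    funext w
    rw [Matrix.trace]
    refine Finset.sum_congr rfl fun a _ => ?_
    rw [Matrix.diag_apply, Matrix.mul_apply]
  rw [h2]
  refine ContDiffAt.sum fun a _ => ContDiffAt.sum fun b _ => ContDiffAt.mul ?_ (hH b a)
  have h00 := hK 0 0
  have h01 := hK 0 1
  have h02 := hK 0 2
  have h10 := hK 1 0
  have h11 := hK 1 1
  have h12 := hK 1 2
  have h20 := hK 2 0
  have h21 := hK 2 1
  have h22 := hK 2 2
  simp only [Matrix.adjugate_fin_three]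
  fin_cases a <;> fin_cases b <;> simp <;> fun_prop

theorem UNQ_dz_congr {f g : ℂ → ℂ} {z : ℂ} (h : f =ᶠ[𝓝 z] g) : dz f z = dz g z := by
  unfold dz
  rw [h.fderiv_eq]

theorem UNQ_dzb_congr {f g : ℂ → ℂ} {z : ℂ} (h : f =ᶠ[𝓝 z] g) : dzb f z = dzb g z := by
  unfold dzb
  rw [h.fderiv_eq]

theorem UNQ_dzbdz_congr {f g : ℂ → ℂ} {z : ℂ} (h : f =ᶠ[𝓝 z] g) :
    dzb (dz f) z = dzb (dz g) z := by
  apply UNQ_dzb_congr
  filter_upwards [h.eventuallyEq_nhds] with w hw
  exact UNQ_dz_congr hw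

theorem UNQ_dzbdz_const (c : ℂ) (z : ℂ) : dzb (dz (fun _ => c)) z = 0 := by
  have h1 : dz (fun _ : ℂ => c) = fun _ => 0 := by
    funext w
    unfold dz
    simp
  rw [h1]
  unfold dzb
  simp

theorem UNQ_glue_trace {g H K : Matrix (Fin 3) (Fin 3) ℂ} (hg : g.det = 1) :
    ((gᴴ * K * g)⁻¹ * (gᴴ * H * g)).trace = (K⁻¹ * H).trace := by
  have hgu : IsUnit g.det := by rw [hg]; exact isUnit_one
  have hgu' : IsUnit gᴴ.det := by
    rw [Matrix.det_conjTranspose, hg, star_one]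
    exact isUnit_one
  rw [Matrix.mul_inv_rev, Matrix.mul_inv_rev]
  have h1 : g⁻¹ * (K⁻¹ * gᴴ⁻¹) * (gᴴ * H * g) = g⁻¹ * (K⁻¹ * (gᴴ⁻¹ * gᴴ) * H * g) := by
    simp only [Matrix.mul_assoc]
  rw [h1, Matrix.nonsing_inv_mul _ hgu', Matrix.mul_one, Matrix.trace_mul_comm, Matrix.mul_assoc,
    Matrix.mul_nonsing_inv _ hgu, Matrix.mul_one]

section

variable {M : ℕ} [inst : ChartedSpace ℂ (SX (4 * M))] (h : HBProps M) {s : ℝ}

/-- The trace of `K⁻¹ H`. -/
theorem UNQ_trace_indep {h₁ h₂ : Bool → SX (4 * M) → Matrix (Fin 3) (Fin 3) ℂ}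
    (H1 : IsHarmonicMetric (HB M h) s h₁) (H2 : IsHarmonicMetric (HB M h) s h₂)
    {i j : Bool} {x : SX (4 * M)} (hi : x ∈ UU (4 * M) i) (hj : x ∈ UU (4 * M) j) :
    ((h₂ j x)⁻¹ * h₁ j x).trace = ((h₂ i x)⁻¹ * h₁ i x).trace := by
  have e1 : h₁ j x = (gg M i j x)ᴴ * h₁ i x * gg M i j x := H1.glue i j x ⟨hi, hj⟩
  have e2 : h₂ j x = (gg M i j x)ᴴ * h₂ i x * gg M i j x := H2.glue i j x ⟨hi, hj⟩
  rw [e1, e2]
  exact UNQ_glue_trace (h.det_g i j x ⟨hi, hj⟩)

/-- The local statement: smoothness, subharmonicity, and the equality case. -/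
theorem UNQ_local (hUN1 : T_UN1) {h₁ h₂ : Bool → SX (4 * M) → Matrix (Fin 3) (Fin 3) ℂ}
    (H1 : IsHarmonicMetric (HB M h) s h₁) (H2 : IsHarmonicMetric (HB M h) s h₂)
    {i : Bool} {e : OpenPartialHomeomorph (SX (4 * M)) ℂ} (he : e ∈ atlas ℂ (SX (4 * M)))
    {z : ℂ} (hz : z ∈ e.target) (hi : e.symm z ∈ UU (4 * M) i) :
    ContDiffAt ℝ 2 (fun w => ((h₂ i (e.symm w))⁻¹ * h₁ i (e.symm w)).trace) z ∧
    0 ≤ (dzb (dz (fun w => ((h₂ i (e.symm w))⁻¹ * h₁ i (e.symm w)).trace)) z).re ∧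
    ((dzb (dz (fun w => ((h₂ i (e.symm w))⁻¹ * h₁ i (e.symm w)).trace)) z).re = 0 →
      ((h₂ i (e.symm z))⁻¹ * h₁ i (e.symm z)) * ((s : ℂ) • ph M i e (e.symm z)) =
        ((s : ℂ) • ph M i e (e.symm z)) * ((h₂ i (e.symm z))⁻¹ * h₁ i (e.symm z))) ∧
    (∀ a b, ContinuousAt (fun w => h₁ i (e.symm w) a b) z) ∧
    (∀ a b, ContinuousAt (fun w => h₂ i (e.symm w) a b) z) := by
  have hO : IsOpen (e.target ∩ e.symm ⁻¹' UU (4 * M) i) :=
    e.continuousOn_symm.isOpen_inter_preimage e.open_target (h.isOpen_U i)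
  have hzO : z ∈ e.target ∩ e.symm ⁻¹' UU (4 * M) i := ⟨hz, hi⟩
  have hev : ∀ᶠ w in 𝓝 z, w ∈ e.target ∩ e.symm ⁻¹' UU (4 * M) i := hO.mem_nhds hzO
  have c1 : ∀ a b, ContDiffAt ℝ ∞ (fun w => h₁ i (e.symm w) a b) z := fun a b =>
    (H1.smooth i e he a b).contDiffAt hev
  have c2 : ∀ a b, ContDiffAt ℝ ∞ (fun w => h₂ i (e.symm w) a b) z := fun a b =>
    (H2.smooth i e he a b).contDiffAt hev
  have c1' : ∀ a b, ContDiffAt ℝ 2 (fun w => h₁ i (e.symm w) a b) z := fun a b =>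
    contDiffAt_infty.1 (c1 a b) 2
  have c2' : ∀ a b, ContDiffAt ℝ 2 (fun w => h₂ i (e.symm w) a b) z := fun a b =>
    contDiffAt_infty.1 (c2 a b) 2
  have hx : e.symm z ∈ UU (4 * M) i ∩ e.source := ⟨hi, e.map_target hz⟩
  have q1 := H1.hitchin i e he (e.symm z) hx
  have q2 := H2.hitchin i e he (e.symm z) hx
  rw [e.right_inv hz] at q1 q2
  have key := hUN1 (fun w => h₁ i (e.symm w)) (fun w => h₂ i (e.symm w))
    ((s : ℂ) • ph M i e (e.symm z)) z
    (hev.mono fun w hw => ⟨H1.posDef i _ hw.2, H2.posDef i _ hw.2⟩)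
    (fun a b => ⟨c1' a b, c2' a b⟩) q1 q2
  exact ⟨UNQ_smooth (hev.mono fun w hw => H2.det i _ hw.2) c1' c2', key.1, key.2,
    fun a b => (c1 a b).continuousAt, fun a b => (c2 a b).continuousAt⟩

end

theorem UNQ_AA_ne {M : ℕ} {i : Bool} {v : ℂ} (h0 : v ≠ 0) (h1 : v ^ (2 * M) ≠ 1) :
    AA M i v ≠ 0 := by
  unfold AA
  split_ifs
  · exact mul_ne_zero (pow_ne_zero _ h0) (sub_ne_zero.2 h1)
  · exact neg_ne_zero.2 (mul_ne_zero (pow_ne_zero _ h0) (sub_ne_zero.2 (Ne.symm h1)))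

-- TARGET
theorem UNQ (hTH : T_TH) (hUN1 : T_UN1) (hUN2 : T_UN2) (hUN3 : T_UN3) : T_UNQ := by
  classical
  intro M hM inst hB hS h s hs h₁ h₂ H1 H2
  have hcov : ∀ x : SX (4 * M), x ∈ UU (4 * M) false ∨ x ∈ UU (4 * M) true := hB.cover
  -- the function
  let ix : SX (4 * M) → Bool := fun x => if x ∈ UU (4 * M) false then false else true
  have hix : ∀ x, x ∈ UU (4 * M) (ix x) := by
    intro x
    by_cases hx : x ∈ UU (4 * M) false
    · have : ix x = false := if_pos hx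
      rw [this]; exact hx
    · have : ix x = true := if_neg hx
      rw [this]; exact (hcov x).resolve_left hx
  let f : SX (4 * M) → ℝ := fun x => (((h₂ (ix x) x)⁻¹ * h₁ (ix x) x).trace).re
  have hf : ∀ i, ∀ x ∈ UU (4 * M) i, ((f x : ℝ) : ℂ) = ((h₂ i x)⁻¹ * h₁ i x).trace := by
    intro i x hx
    show (((((h₂ (ix x) x)⁻¹ * h₁ (ix x) x).trace).re : ℝ) : ℂ) = _
    rw [UNQ_trace_real (H1.posDef _ x (hix x)) (H2.posDef _ x (hix x))]
    exact UNQ_trace_indep h H1 H2 hx (hix x)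
  have hOpen : ∀ (i : Bool) (e : OpenPartialHomeomorph (SX (4 * M)) ℂ),
      IsOpen (e.target ∩ e.symm ⁻¹' UU (4 * M) i) := fun i e =>
    e.continuousOn_symm.isOpen_inter_preimage e.open_target (h.isOpen_U i)
  have hloc : ∀ (e : OpenPartialHomeomorph (SX (4 * M)) ℂ) (i : Bool), ∀ z ∈ e.target,
      e.symm z ∈ UU (4 * M) i → (fun w => ((f (e.symm w) : ℝ) : ℂ)) =ᶠ[𝓝 z]
        fun w => ((h₂ i (e.symm w))⁻¹ * h₁ i (e.symm w)).trace := by
    intro e i z hz hi
    filter_upwards [(hOpen i e).mem_nhds ⟨hz, hi⟩] with w hw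
    exact hf i _ hw.2
  have hC : ∀ e ∈ atlas ℂ (SX (4 * M)), ∀ z ∈ e.target, ContDiffAt ℝ 2 (fun w => f (e.symm w)) z := by
    intro e he z hz
    obtain ⟨i, hi⟩ : ∃ i, e.symm z ∈ UU (4 * M) i := ⟨_, hix _⟩
    have h3 := (UNQ_local h hUN1 H1 H2 he hz hi).1
    have h4 := h3.congr_of_eventuallyEq (hloc e i z hz hi)
    have h5 : ContDiffAt ℝ 2 (fun w => (((f (e.symm w) : ℝ) : ℂ)).re) z :=
      (Complex.reCLM.contDiff.contDiffAt).comp z h4
    simpa using h5
  have hcont : Continuous f := by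
    rw [continuous_iff_continuousAt]
    intro x
    set e := chartAt ℂ x with he
    have hxe : x ∈ e.source := mem_chart_source ℂ x
    have h3 : ContinuousAt (fun w => f (e.symm w)) (e x) :=
      (hC e (chart_mem_atlas ℂ x) (e x) (e.map_source hxe)).continuousAt
    have h4 : ContinuousAt (fun y => f (e.symm (e y))) x :=
      ContinuousAt.comp (g := fun w => f (e.symm w)) h3 (e.continuousAt hxe)
    refine h4.congr ?_
    filter_upwards [e.open_source.mem_nhds hxe] with y hy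
    rw [e.left_inv hy]
  have hconst : ∀ x y, f x = f y := by
    refine hUN2 (SX (4 * M)) _ inst hS.surface f hcont fun e he =>
      ⟨fun z hz => (hC e he z hz).contDiffWithinAt, fun z hz => ?_⟩
    obtain ⟨i, hi⟩ : ∃ i, e.symm z ∈ UU (4 * M) i := ⟨_, hix _⟩
    rw [UNQ_dzbdz_congr (hloc e i z hz hi)]
    exact (UNQ_local h hUN1 H1 H2 he hz hi).2.1
  -- commutation
  have hcomm : ∀ (i : Bool), ∀ e ∈ atlas ℂ (SX (4 * M)), ∀ z ∈ e.target,
      e.symm z ∈ UU (4 * M) i →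
      ((h₂ i (e.symm z))⁻¹ * h₁ i (e.symm z)) * ((s : ℂ) • ph M i e (e.symm z)) =
        ((s : ℂ) • ph M i e (e.symm z)) * ((h₂ i (e.symm z))⁻¹ * h₁ i (e.symm z)) := by
    intro i e he z hz hi
    refine (UNQ_local h hUN1 H1 H2 he hz hi).2.2.1 ?_
    rw [← UNQ_dzbdz_congr (hloc e i z hz hi)]
    have h3 : (fun w => ((f (e.symm w) : ℝ) : ℂ)) = fun _ => ((f (e.symm z) : ℝ) : ℂ) := by
      funext w
      rw [hconst (e.symm w) (e.symm z)]
    rw [h3, UNQ_dzbdz_const, Complex.zero_re]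
  have heq : ∀ (i : Bool), ∀ e ∈ atlas ℂ (SX (4 * M)), ∀ z ∈ e.target,
      e.symm z ∈ UU (4 * M) i → th (4 * M) i e (e.symm z) ≠ 0 →
      AA M i (VV (4 * M) i (e.symm z)) ≠ 0 → h₁ i (e.symm z) = h₂ i (e.symm z) := by
    intro i e he z hz hi h3 h4
    refine hUN3 _ _ ((s : ℂ) * th (4 * M) i e (e.symm z)) (AA M i (VV (4 * M) i (e.symm z)))
      (PP M i (VV (4 * M) i (e.symm z))) (H1.posDef i _ hi) (H2.posDef i _ hi) (H1.det i _ hi)
      (H2.det i _ hi) (mul_ne_zero (mul_ne_zero (by exact_mod_cast hs.ne') h3) h4) ?_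
    have h5 := hcomm i e he z hz hi
    unfold ph at h5
    rw [smul_smul] at h5
    exact h5
  intro i x hx
  set e := chartAt ℂ x with he
  have hea : e ∈ atlas ℂ (SX (4 * M)) := chart_mem_atlas ℂ x
  have hxe : x ∈ e.source := mem_chart_source ℂ x
  have hz : e x ∈ e.target := e.map_source hxe
  have hsx : e.symm (e x) = x := e.left_inv hxe
  have hi : e.symm (e x) ∈ UU (4 * M) i := by rw [hsx]; exact hx
  obtain ⟨t1, -, t3, t4, -, t6⟩ := hTH (4 * M) (by omega) inst hB hS e hea i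
  have hzO : e x ∈ e.target ∩ e.symm ⁻¹' UU (4 * M) i := ⟨hz, hi⟩
  have hO := hOpen i e
  have hYne := t6 (e x) hzO
  have hOne : ∀ᶠ z in 𝓝[≠] (e x), z ∈ e.target ∩ e.symm ⁻¹' UU (4 * M) i :=
    mem_nhdsWithin_of_mem_nhds (hO.mem_nhds hzO)
  have hVan : AnalyticAt ℂ (fun z => VV (4 * M) i (e.symm z)) (e x) :=
    (hS.holoV e hea i).analyticAt (hO.mem_nhds hzO)
  have hVc : ∀ c : ℂ, ∀ᶠ z in 𝓝[≠] (e x), VV (4 * M) i (e.symm z) ≠ c := by
    intro c
    rcases (hVan.sub (analyticAt_const (v := c))).eventually_eq_zero_or_eventually_ne_zero with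
      h3 | h3
    · exfalso
      have h4 : ∀ᶠ z in 𝓝[≠] (e x), deriv (fun z => VV (4 * M) i (e.symm z)) z = 0 := by
        have h5 : ∀ᶠ z in 𝓝 (e x), deriv (fun z => VV (4 * M) i (e.symm z)) z = 0 := by
          filter_upwards [h3.eventually_nhds] with z hz'
          have h6 : (fun z => VV (4 * M) i (e.symm z)) =ᶠ[𝓝 z] fun _ => c := by
            filter_upwards [hz'] with w hw
            exact sub_eq_zero.1 hw
          rw [h6.deriv_eq, deriv_const]
        exact h5.filter_mono nhdsWithin_le_nhds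
      obtain ⟨z, h5, h6, h7⟩ := (h4.and (hYne.and hOne)).exists
      have h8 : e.symm z ∈ UU (4 * M) i ∩ e.source := ⟨h7.2, e.map_target h7.1⟩
      have h9 := t4 (e.symm z) h8
      rw [e.right_inv h7.1, h5] at h9
      exact mul_ne_zero (t3 _ h8 h6) h6 h9.symm
    · filter_upwards [h3] with z hz' h4
      exact hz' (sub_eq_zero.2 h4)
  have hroots : ∀ᶠ z in 𝓝[≠] (e x), ∀ c ∈ (Polynomial.nthRoots (2 * M) (1 : ℂ)).toFinset,
      VV (4 * M) i (e.symm z) ≠ c := by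
    rw [Filter.eventually_all_finset]
    exact fun c _ => hVc c
  have hEq : ∀ᶠ z in 𝓝[≠] (e x), h₁ i (e.symm z) = h₂ i (e.symm z) := by
    filter_upwards [hYne, hOne, hVc 0, hroots] with z h3 h4 h5 h6
    refine heq i e hea z h4.1 h4.2 (t3 _ ⟨h4.2, e.map_target h4.1⟩ h3) (UNQ_AA_ne h5 ?_)
    intro h7
    refine h6 _ ?_ rfl
    rw [Multiset.mem_toFinset, Polynomial.mem_nthRoots (by omega)]
    exact h7
  obtain ⟨-, -, -, k1, k2⟩ := UNQ_local h hUN1 H1 H2 hea hz hi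
  ext a b
  have l1 : Tendsto (fun w => h₁ i (e.symm w) a b) (𝓝[≠] (e x)) (𝓝 (h₁ i x a b)) := by
    have := (k1 a b).tendsto.mono_left (nhdsWithin_le_nhds (s := {e x}ᶜ))
    simpa only [hsx] using this
  have l2 : Tendsto (fun w => h₂ i (e.symm w) a b) (𝓝[≠] (e x)) (𝓝 (h₂ i x a b)) := by
    have := (k2 a b).tendsto.mono_left (nhdsWithin_le_nhds (s := {e x}ᶜ))
    simpa only [hsx] using this
  refine tendsto_nhds_unique (l1.congr' ?_) l2
  filter_upwards [hEq] with z hz'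
  rw [hz']

end Pool.Agent.Helper614.HE.P_UNQ
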