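import Pool.Agent.Helper614.HE.SpecC
set_option autoImplicit false

open scoped Manifold ContDiff Matrix ComplexOrder
open Matrix Topology MeasureTheory Set Filter

namespace Pool.Agent.Helper614.HE.P_WI

open Pool.Agent.Helper614.HE



/-- The exceptional set is finite. -/
theorem WI_finite : ({z : ℂ | z ^ 16 + 1 = 0 ∨ z ^ 2 - 1 = 0 ∨ z = 0}).Finite := by
  let p : Polynomial ℂ := (Polynomial.X ^ 16 + 1) * (Polynomial.X ^ 2 - 1) * Polynomial.X
  have hp : p ≠ 0 := by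
    intro h
    have h2 : p.eval 2 = 0 := by rw [h, Polynomial.eval_zero]
    simp only [p, Polynomial.eval_mul, Polynomial.eval_add, Polynomial.eval_sub,
      Polynomial.eval_pow, Polynomial.eval_X, Polynomial.eval_one] at h2
    norm_num at h2
  refine (Polynomial.finite_setOfPred_isRoot hp).subset ?_
  intro z hz
  show p.eval z = 0
  simp only [p, Polynomial.eval_mul, Polynomial.eval_add, Polynomial.eval_sub,
    Polynomial.eval_pow, Polynomial.eval_X, Polynomial.eval_one]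
  rcases hz with h | h | h
  · rw [h]; ring
  · rw [h]; ring
  · rw [h]; ring

/-- A nonnegative integrable function which is positive outside the exceptional set has a positive
integral. -/
theorem WI_pos (f : ℂ → ℝ) (hf : Integrable f) (h0 : ∀ z, 0 ≤ f z)
    (h : ∀ z : ℂ, z ^ 16 + 1 ≠ 0 → z ^ 2 - 1 ≠ 0 → z ≠ 0 → f z ≠ 0) : 0 < ∫ z, f z := by
  rw [integral_pos_iff_support_of_nonneg h0 hf]
  have hS : volume ({z : ℂ | z ^ 16 + 1 = 0 ∨ z ^ 2 - 1 = 0 ∨ z = 0}) = 0 :=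
    WI_finite.measure_zero volume
  by_contra hne
  have h1 : volume (Function.support f) = 0 := by
    simpa using hne
  have h2 : volume (univ : Set ℂ) ≤ 0 := by
    calc volume (univ : Set ℂ) ≤
        volume ({z : ℂ | z ^ 16 + 1 = 0 ∨ z ^ 2 - 1 = 0 ∨ z = 0} ∪ Function.support f) := by
          refine measure_mono fun z _ => ?_
          by_cases hz : z ^ 16 + 1 = 0 ∨ z ^ 2 - 1 = 0 ∨ z = 0
          · exact Or.inl hz
          · right
            push Not at hz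
            exact h z hz.1 hz.2.1 hz.2.2
      _ ≤ volume ({z : ℂ | z ^ 16 + 1 = 0 ∨ z ^ 2 - 1 = 0 ∨ z = 0}) +
          volume (Function.support f) := measure_union_le _ _
      _ = 0 := by rw [hS, h1, add_zero]
  have h3 : 0 < volume (univ : Set ℂ) := isOpen_univ.measure_pos volume univ_nonempty
  exact absurd h2 (not_le.2 h3)

-- TARGET
theorem WI (hKE : T_KE) (hOM : T_OM) : T_WI := by
  obtain ⟨hW, hOmm, hW0, hOm0, -, -, hWpos, -, -, -, hdom, -⟩ := hOM
  obtain ⟨K, -, hK⟩ := hKE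
  have hI := (hK 0 1 ⟨by norm_num, by norm_num⟩).1
  have hn : ∀ z : ℂ, 0 < 1 + ‖z‖ ^ 2 := fun z => by positivity
  have hrm : Measurable fun z : ℂ => 1 + ‖z‖ ^ 2 :=
    measurable_const.add (measurable_norm.pow_const 2)
  have hI1 : Integrable (fun z : ℂ => Om z / (1 + ‖z‖ ^ 2)) := by
    refine hI.mono' (hOmm.div hrm).aestronglyMeasurable ?_
    have hae : ∀ᵐ z : ℂ, z ≠ 0 := by
      rw [ae_iff]
      simp
    filter_upwards [hae] with z hz
    have hz0 : 0 < ‖z‖ := norm_pos_iff.2 hz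
    rw [Real.norm_eq_abs, abs_of_nonneg (div_nonneg (hOm0 z).le (hn z).le), zero_sub, norm_neg,
      Real.rpow_neg_one, div_eq_mul_inv]
    refine mul_le_mul_of_nonneg_left ?_ (hOm0 z).le
    rw [inv_le_inv₀ (hn z) hz0]
    nlinarith [sq_nonneg (‖z‖ - 1)]
  have hb : ∀ z : ℂ, W z * (1 + ‖z‖ ^ 2) ^ 2 ≤ Om z / (1 + ‖z‖ ^ 2) := by
    intro z
    refine le_trans (mul_le_mul_of_nonneg_left ?_ (hW0 z)) (hdom z)
    have h1 : (1 : ℝ) ≤ 1 + ‖z‖ ^ 2 := by nlinarith [sq_nonneg ‖z‖]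
    rw [← Real.rpow_natCast]
    exact Real.rpow_le_rpow_of_exponent_le h1 (by norm_num)
  have hf1 : ∀ z : ℂ, ‖f1 z‖ ≤ 1 + ‖z‖ ^ 2 := by
    intro z
    unfold f1
    calc ‖z ^ 2 - 1‖ ≤ ‖z ^ 2‖ + ‖(1 : ℂ)‖ := norm_sub_le _ _
      _ = 1 + ‖z‖ ^ 2 := by rw [norm_pow, norm_one, add_comm]
  have hf2 : ∀ z : ℂ, ‖f2 z‖ ≤ 1 + ‖z‖ ^ 2 := by
    intro z
    unfold f2
    nlinarith [sq_nonneg (‖z‖ - 1)]
  have hf1m : Measurable f1 := by
    unfold f1
    exact (measurable_id.pow_const 2).sub measurable_const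
  have hf2m : Measurable f2 := measurable_id
  have key : ∀ g : ℂ → ℂ, Measurable g → (∀ z, ‖g z‖ ≤ 1 + ‖z‖ ^ 2) →
      Integrable (fun z : ℂ => W z * ‖g z‖ ^ 2) := by
    intro g hg hgb
    refine hI1.mono' (hW.mul (hg.norm.pow_const 2)).aestronglyMeasurable
      (Eventually.of_forall fun z => ?_)
    rw [Real.norm_eq_abs, abs_of_nonneg (mul_nonneg (hW0 z) (sq_nonneg _))]
    refine le_trans (mul_le_mul_of_nonneg_left ?_ (hW0 z)) (hb z)
    exact pow_le_pow_left₀ (norm_nonneg _) (hgb z) 2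
  have hI2 := key f1 hf1m hf1
  have hI3 := key f2 hf2m hf2
  refine ⟨hI1, hI2, hI3, ?_, ?_⟩
  · refine WI_pos _ hI2 (fun z => mul_nonneg (hW0 z) (sq_nonneg _)) fun z h1 h2 _ => ?_
    exact mul_ne_zero (hWpos z h1).1.ne' (pow_ne_zero 2 (norm_ne_zero_iff.2 h2))
  · refine WI_pos _ hI3 (fun z => mul_nonneg (hW0 z) (sq_nonneg _)) fun z h1 _ h3 => ?_
    exact mul_ne_zero (hWpos z h1).1.ne' (pow_ne_zero 2 (norm_ne_zero_iff.2 h3))

end Pool.Agent.Helper614.HE.P_WI
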