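import Pool.Agent.Helper614.HE.SpecC
set_option autoImplicit false

open scoped Manifold ContDiff Matrix ComplexOrder
open Matrix Topology MeasureTheory Set Filter

namespace Pool.Agent.Helper614.HE.P_ZR

open Pool.Agent.Helper614.HE



/-
PROOF OF THE TARGET IN WORDS
kappa = 1/M in (0,1/16]. Write Q = QF, b = bF, G = GF, u = uF, a = aF. (i) w = kappa wS = -(kappa/pi) int Lg z c Q = -(kappa/pi) [int log|z-c|^2 Q - log(1+|z|^2) int Q] and int Q = pi, so u = -kappa log(1+|z|^2) + w = -(kappa/pi) int log|z-c|^2 Q(c) dc; by LOG u is C^1 at every point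
and dz u = -(kappa/pi) pi Ct Q = -kappa Ct Q.
(ii) b = Cb G = conj (Ct (conj G)), |conj G| <= K Om/rho <= K Om so by CTB b is globally Hoelder with exponent 1/4. x = kappa xS = kappa a Ct(e^u b), |e^u b| <= C/rho <= C Om, so x is globally Hoelder with exponent 1/4 (CTB).
(iii) at a point z with z^16+1 not 0: near z the function W is smooth (OM), u is C^1, hence Lipschitz near z, f1, f2 polynomials, x, b Hoelder 1/4; so G = W e^{-2u} conj(f1) p, e^u b, and Q = kappa a^2 |b|^2 e^u + a W(|f1|^2 e^{-u} + |p|^2 e^{-2u}) are Hoelder with exponent 1/4 on a small ball around z (products and sums of bounded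
Hoelder functions on a ball of radius <= 1/2; a C^1 function is Lipschitz on a small ball, so Hoelder 1/4).
(iv) LH (the integrability hypotheses come from CTB): Ct(e^u b) is C^1 at z with dzb = e^u b, so x is C^1 at z, dzb x = kappa a e^u b. Ct (conj G) is C^1 with dzb = conj G, so b = conj(Ct(conj G)) is C^1 with dz b = conj(dzb (Ct (conj G))) = G. Ct Q is C^1 with dzb = Q.
-/

/-- locally bounded and Hoelder of exponent 1/4 near a point -/
def ZR_HL (f : ℂ → ℂ) (z0 : ℂ) : Prop :=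
  ∃ r : ℝ, 0 < r ∧ ∃ L : ℝ, 0 ≤ L ∧ (∀ w ∈ Metric.ball z0 r, ‖f w‖ ≤ L) ∧
    ∀ w ∈ Metric.ball z0 r, ∀ w' ∈ Metric.ball z0 r, ‖f w - f w'‖ ≤ L * ‖w - w'‖ ^ (1 / 4 : ℝ)

lemma ZR_HL_add {f g : ℂ → ℂ} {z0 : ℂ} (hf : ZR_HL f z0) (hg : ZR_HL g z0) :
    ZR_HL (fun z => f z + g z) z0 := by
  obtain ⟨r, hr, L, hL, h1, h2⟩ := hf
  obtain ⟨r', hr', L', hL', h1', h2'⟩ := hg
  refine ⟨min r r', lt_min hr hr', L + L', add_nonneg hL hL', ?_, ?_⟩
  · intro w hw
    have ha := Metric.ball_subset_ball (min_le_left r r') hw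
    have hb := Metric.ball_subset_ball (min_le_right r r') hw
    exact (norm_add_le _ _).trans (add_le_add (h1 w ha) (h1' w hb))
  · intro w hw w' hw'
    have ha := Metric.ball_subset_ball (min_le_left r r') hw
    have hb := Metric.ball_subset_ball (min_le_right r r') hw
    have ha' := Metric.ball_subset_ball (min_le_left r r') hw'
    have hb' := Metric.ball_subset_ball (min_le_right r r') hw'
    have e : f w + g w - (f w' + g w') = (f w - f w') + (g w - g w') := by ring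
    rw [e, add_mul]
    exact (norm_add_le _ _).trans (add_le_add (h2 w ha w' ha') (h2' w hb w' hb'))

lemma ZR_HL_mul {f g : ℂ → ℂ} {z0 : ℂ} (hf : ZR_HL f z0) (hg : ZR_HL g z0) :
    ZR_HL (fun z => f z * g z) z0 := by
  obtain ⟨r, hr, L, hL, h1, h2⟩ := hf
  obtain ⟨r', hr', L', hL', h1', h2'⟩ := hg
  refine ⟨min r r', lt_min hr hr', 2 * (L * L') , by positivity, ?_, ?_⟩
  · intro w hw
    have ha := Metric.ball_subset_ball (min_le_left r r') hw
    have hb := Metric.ball_subset_ball (min_le_right r r') hw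
    rw [norm_mul]
    have := mul_le_mul (h1 w ha) (h1' w hb) (norm_nonneg _) hL
    nlinarith [mul_nonneg hL hL']
  · intro w hw w' hw'
    have ha := Metric.ball_subset_ball (min_le_left r r') hw
    have hb := Metric.ball_subset_ball (min_le_right r r') hw
    have ha' := Metric.ball_subset_ball (min_le_left r r') hw'
    have hb' := Metric.ball_subset_ball (min_le_right r r') hw'
    have e : f w * g w - f w' * g w' = (f w - f w') * g w + f w' * (g w - g w') := by ring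
    rw [e]
    refine (norm_add_le _ _).trans ?_
    rw [norm_mul, norm_mul]
    have hN : 0 ≤ ‖w - w'‖ ^ (1 / 4 : ℝ) := by positivity
    have i1 : ‖f w - f w'‖ * ‖g w‖ ≤ (L * ‖w - w'‖ ^ (1 / 4 : ℝ)) * L' :=
      mul_le_mul (h2 w ha w' ha') (h1' w hb) (norm_nonneg _) (mul_nonneg hL hN)
    have i2 : ‖f w'‖ * ‖g w - g w'‖ ≤ L * (L' * ‖w - w'‖ ^ (1 / 4 : ℝ)) :=
      mul_le_mul (h1 w' ha') (h2' w hb w' hb') (norm_nonneg _) hL
    nlinarith

lemma ZR_HL_conj {f : ℂ → ℂ} {z0 : ℂ} (hf : ZR_HL f z0) :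
    ZR_HL (fun z => (starRingEnd ℂ) (f z)) z0 := by
  obtain ⟨r, hr, L, hL, h1, h2⟩ := hf
  refine ⟨r, hr, L, hL, ?_, ?_⟩
  · intro w hw
    rw [RCLike.norm_conj]
    exact h1 w hw
  · intro w hw w' hw'
    rw [← map_sub, RCLike.norm_conj]
    exact h2 w hw w' hw'

lemma ZR_rpow_ge {t : ℝ} (h0 : 0 ≤ t) (h1 : t ≤ 1) : t ≤ t ^ (1 / 4 : ℝ) := by
  rcases h0.eq_or_lt with h | h
  · rw [← h]
    rw [Real.zero_rpow (by norm_num)]
  · have := Real.rpow_le_rpow_of_exponent_ge h h1 (by norm_num : (1 / 4 : ℝ) ≤ 1)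
    rwa [Real.rpow_one] at this

lemma ZR_rpow_le {t : ℝ} (h0 : 0 ≤ t) (h1 : t ≤ 1) : t ^ (1 / 4 : ℝ) ≤ 1 :=
  Real.rpow_le_one h0 h1 (by norm_num)

lemma ZR_HL_C1 {f : ℂ → ℂ} {z0 : ℂ} (hf : ContDiffAt ℝ 1 f z0) : ZR_HL f z0 := by
  obtain ⟨K, t, ht, hK⟩ := hf.exists_lipschitzOnWith
  obtain ⟨r, hr, hrt⟩ := Metric.mem_nhds_iff.1 ht
  have hz0 : z0 ∈ t := mem_of_mem_nhds ht
  refine ⟨min r (1 / 2), lt_min hr (by norm_num), ‖f z0‖ + K, by positivity, ?_, ?_⟩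
  · intro w hw
    have ha := hrt (Metric.ball_subset_ball (min_le_left r _) hw)
    have hb := Metric.ball_subset_ball (min_le_right r (1 / 2)) hw
    have h1 := hK.dist_le_mul w ha z0 hz0
    rw [dist_eq_norm] at h1
    rw [Metric.mem_ball] at hb
    have h2 : (K : ℝ) * dist w z0 ≤ K * 1 :=
      mul_le_mul_of_nonneg_left (by linarith) K.2
    have h3 : ‖f w‖ ≤ ‖f z0‖ + ‖f w - f z0‖ := by
      have := norm_add_le (f z0) (f w - f z0)
      rwa [add_sub_cancel] at this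
    linarith
  · intro w hw w' hw'
    have ha := hrt (Metric.ball_subset_ball (min_le_left r _) hw)
    have hb := Metric.ball_subset_ball (min_le_right r (1 / 2)) hw
    have ha' := hrt (Metric.ball_subset_ball (min_le_left r _) hw')
    have hb' := Metric.ball_subset_ball (min_le_right r (1 / 2)) hw'
    have h1 := hK.dist_le_mul w ha w' ha'
    rw [dist_eq_norm, dist_eq_norm] at h1
    rw [Metric.mem_ball] at hb hb'
    have h2 : ‖w - w'‖ ≤ 1 := by
      rw [← dist_eq_norm]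
      have := dist_triangle_right w w' z0
      linarith
    have h3 := ZR_rpow_ge (norm_nonneg (w - w')) h2
    have h4 : (K : ℝ) * ‖w - w'‖ ≤ (‖f z0‖ + K) * ‖w - w'‖ ^ (1 / 4 : ℝ) := by
      apply mul_le_mul _ h3 (norm_nonneg _) (by positivity)
      linarith [norm_nonneg (f z0)]
    exact h1.trans h4

lemma ZR_HL_const (c : ℂ) (z0 : ℂ) : ZR_HL (fun _ => c) z0 := ZR_HL_C1 contDiffAt_const

lemma ZR_HL_global {f : ℂ → ℂ} {L : ℝ} (hL : 0 ≤ L)
    (h : ∀ z z', ‖f z - f z'‖ ≤ L * ‖z - z'‖ ^ (1 / 4 : ℝ)) (z0 : ℂ) : ZR_HL f z0 := by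
  refine ⟨1, one_pos, ‖f z0‖ + L, by positivity, ?_, ?_⟩
  · intro w hw
    rw [Metric.mem_ball, dist_eq_norm] at hw
    have h1 := h w z0
    have h2 : L * ‖w - z0‖ ^ (1 / 4 : ℝ) ≤ L * 1 :=
      mul_le_mul_of_nonneg_left (ZR_rpow_le (norm_nonneg _) hw.le) hL
    have h3 : ‖f w‖ ≤ ‖f z0‖ + ‖f w - f z0‖ := by
      have := norm_add_le (f z0) (f w - f z0)
      rwa [add_sub_cancel] at this
    linarith
  · intro w _ w' _
    refine (h w w').trans ?_
    apply mul_le_mul_of_nonneg_right _ (by positivity)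
    linarith [norm_nonneg (f z0)]

lemma ZR_LH (hLH : T_LH) {f : ℂ → ℂ} (hm : Measurable f)
    (hi : ∀ z, Integrable (fun w => f w / (z - w))) {z0 : ℂ} (h : ZR_HL f z0) :
    ContDiffAt ℝ 1 (Ct f) z0 ∧ dzb (Ct f) z0 = f z0 := by
  obtain ⟨r, hr, L, _, _, h2⟩ := h
  exact (hLH f hm hi z0 r (1 / 4) L hr (by norm_num) (by norm_num) h2).1 z0
    (Metric.mem_ball_self hr)

lemma ZR_ofReal {g : ℂ → ℝ} {z0 : ℂ} (h : ContDiffAt ℝ 1 g z0) :
    ContDiffAt ℝ 1 (fun z => (g z : ℂ)) z0 :=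
  Complex.ofRealCLM.contDiff.contDiffAt.comp z0 h

lemma ZR_Cb (G : ℂ → ℂ) (z : ℂ) :
    Cb G z = (starRingEnd ℂ) (Ct (fun c => (starRingEnd ℂ) (G c)) z) := by
  unfold Cb Ct
  rw [map_mul, Complex.conj_ofReal, ← integral_conj]
  congr 1
  apply integral_congr_ae
  filter_upwards with c
  rw [map_div₀, Complex.conj_conj, map_sub]

lemma ZR_dz_conj {g : ℂ → ℂ} {z : ℂ} (hg : ContDiffAt ℝ 1 g z) :
    dz (fun z => (starRingEnd ℂ) (g z)) z = (starRingEnd ℂ) (dzb g z) := by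
  have hd : DifferentiableAt ℝ g z := hg.differentiableAt (by norm_num)
  have h1 : fderiv ℝ (fun z => (starRingEnd ℂ) (g z)) z =
      (Complex.conjCLE : ℂ →L[ℝ] ℂ).comp (fderiv ℝ g z) := by
    exact (((Complex.conjCLE : ℂ →L[ℝ] ℂ).hasFDerivAt).comp z hd.hasFDerivAt).fderiv
  unfold dz dzb
  rw [h1]
  have h2 : (starRingEnd ℂ) 2 = 2 := map_ofNat _ 2
  simp [map_div₀, h2]
  ring

lemma ZR_dz_const_mul {g : ℂ → ℂ} {z : ℂ} (hg : ContDiffAt ℝ 1 g z) (c : ℂ) :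
    dz (fun z => c * g z) z = c * dz g z := by
  have hd : DifferentiableAt ℝ g z := hg.differentiableAt (by norm_num)
  unfold dz
  rw [fderiv_const_mul hd]
  simp
  ring

lemma ZR_dzb_const_mul {g : ℂ → ℂ} {z : ℂ} (hg : ContDiffAt ℝ 1 g z) (c : ℂ) :
    dzb (fun z => c * g z) z = c * dzb g z := by
  have hd : DifferentiableAt ℝ g z := hg.differentiableAt (by norm_num)
  unfold dzb
  rw [fderiv_const_mul hd]
  simp
  ring

lemma ZR_Om (hOM : T_OM) (z : ℂ) : Om z / (1 + ‖z‖ ^ 2) ≤ Om z := by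
  have h1 := hOM.2.2.2.1 z
  have h2 : (1 : ℝ) ≤ 1 + ‖z‖ ^ 2 := by nlinarith [norm_nonneg z]
  exact div_le_self h1.le h2

lemma ZR_u (hLOG : T_LOG) (hPT2 : T_PT2) {κ : ℝ} (hκ : κ ∈ Icc (0 : ℝ) (1 / 16)) {τ : ℝ}
    (hτ : τ ∈ Icc (1 : ℝ) 2) {w : ℂ → ℝ} {x : ℂ → ℂ} (hB : Ball1 w x)
    (hw : ∀ z, w z = κ * wS τ κ w x z) (z : ℂ) :
    ContDiffAt ℝ 1 (uF κ w) z ∧
      dz (fun z => (uF κ w z : ℂ)) z = -(κ : ℂ) * Ct (fun c => (QF τ κ w x c : ℂ)) z := by
  obtain ⟨K, hK, h⟩ := hPT2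
  obtain ⟨-, -, -, -, -, -, -, -, -, -, -, -, hQ, hQm, -, hQi⟩ := h τ hτ κ hκ w x hB
  obtain ⟨K', hK', h'⟩ := hLOG
  obtain ⟨-, -, -, hd, he⟩ := h' (QF τ κ w x) K hQm hK.le (fun w => by
    rw [abs_of_nonneg (hQ w).1]; exact (hQ w).2)
  have hpi := Real.pi_pos
  have hu : uF κ w = fun z => (-(κ / Real.pi)) * ∫ c, Real.log (‖z - c‖ ^ 2) * QF τ κ w x c := by
    funext z
    rw [uF, hw z, wS, he z, hQi]
    field_simp
    ring
  refine ⟨?_, ?_⟩
  · rw [hu]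
    exact contDiffAt_const.mul (hd z).1
  · have hu' : (fun z => (uF κ w z : ℂ)) = fun z => ((-(κ / Real.pi) : ℝ) : ℂ) *
        ((∫ c, Real.log (‖z - c‖ ^ 2) * QF τ κ w x c : ℝ) : ℂ) := by
      funext z
      rw [hu, ← Complex.ofReal_mul]
    rw [hu', ZR_dz_const_mul (ZR_ofReal (hd z).1), (hd z).2]
    have hpi' : (Real.pi : ℂ) ≠ 0 := by exact_mod_cast hpi.ne'
    push_cast
    field_simp

-- TARGET
theorem ZR (hOM : T_OM) (hKE : T_KE) (hCTB : T_CTB) (hLH : T_LH) (hLOG : T_LOG) (hPT1 : T_PT1) (hPT2 : T_PT2) : T_ZR := by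
  intro M hM τ hτ w x hB hw hx
  have hM0 : (0 : ℝ) < M := by
    have : (16 : ℝ) ≤ M := by exact_mod_cast hM
    linarith
  have hκ : (1 / M : ℝ) ∈ Icc (0 : ℝ) (1 / 16) := by
    refine ⟨by positivity, ?_⟩
    have : (16 : ℝ) ≤ M := by exact_mod_cast hM
    exact one_div_le_one_div_of_le (by norm_num) this
  set κ : ℝ := (1 / M : ℝ) with hκd
  have hu := fun z => ZR_u hLOG hPT2 hκ hτ hB hw z
  refine ⟨fun z => ⟨(hu z).1, ?_⟩, ?_⟩
  · rw [(hu z).2]
  obtain ⟨K1, hK1, h1⟩ := hPT1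
  obtain ⟨uc, -, ub, -, -, pc, -, -, -, Gb, Gm, -, -, -, -, -⟩ := h1 τ hτ κ hκ w x hB
  obtain ⟨K2, hK2, h2⟩ := hPT2
  obtain ⟨bb, bc, -, -, -, -, -, -, -, -, -, -, Qb, Qm, -, -⟩ := h2 τ hτ κ hκ w x hB
  obtain ⟨KC, hKC, hC⟩ := hCTB
  -- the three densities
  have hcg := hC (fun c => (starRingEnd ℂ) (GF τ κ w x c)) K1
    (Complex.continuous_conj.measurable.comp Gm) hK1.le (fun z => by
      rw [RCLike.norm_conj]
      exact (Gb z).trans (mul_le_mul_of_nonneg_left (ZR_Om hOM z) hK1.le))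
  have hQc := hC (fun c => (QF τ κ w x c : ℂ)) K2
    (Complex.measurable_ofReal.comp Qm) hK2.le (fun z => by
      rw [Complex.norm_real, Real.norm_eq_abs, abs_of_nonneg (Qb z).1]
      exact (Qb z).2.trans (mul_le_mul_of_nonneg_left (ZR_Om hOM z) hK2.le))
  have hebm : Measurable (fun c => (Real.exp (uF κ w c) : ℂ) * bF τ κ w x c) := by
    apply Continuous.measurable
    exact (Complex.continuous_ofReal.comp (Real.continuous_exp.comp uc)).mul bc
  have hec := hC (fun c => (Real.exp (uF κ w c) : ℂ) * bF τ κ w x c) (K1 * K2) hebm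
    (by positivity) (fun z => by
      rw [norm_mul, Complex.norm_real, Real.norm_eq_abs, abs_of_pos (Real.exp_pos _), mul_assoc]
      have h3 : ‖bF τ κ w x z‖ ≤ K2 * Om z := by
        refine (bb z).trans ?_
        rw [div_eq_mul_inv]
        exact mul_le_mul_of_nonneg_left (hOM.2.2.2.2.2.2.2.2.2.1 z) hK2.le
      exact mul_le_mul (ub z) h3 (norm_nonneg _) hK1.le)
  have hbe : bF τ κ w x = fun z => (starRingEnd ℂ)
      (Ct (fun c => (starRingEnd ℂ) (GF τ κ w x c)) z) := by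
    funext z
    rw [bF, ZR_Cb]
  have hxe : x = fun z => ((κ : ℂ) * (aF τ κ w x : ℂ)) *
      Ct (fun c => (Real.exp (uF κ w c) : ℂ) * bF τ κ w x c) z := by
    funext z
    rw [hx z, xS, mul_assoc]
  intro z0 hz0
  -- local Hoelder continuity
  have Hb : ZR_HL (bF τ κ w x) z0 := by
    rw [hbe]
    exact ZR_HL_conj (ZR_HL_global (by positivity) hcg.2.2 z0)
  have Hx : ZR_HL x z0 := by
    rw [hxe]
    exact ZR_HL_mul (ZR_HL_const _ z0) (ZR_HL_global (by positivity) hec.2.2 z0)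
  have HW : ZR_HL (fun z => (W z : ℂ)) z0 := by
    apply ZR_HL_C1
    apply ZR_ofReal
    exact (hOM.2.2.2.2.2.2.2.1 z0 hz0).of_le (by norm_cast)
  have He : ∀ c : ℝ, ZR_HL (fun z => (Real.exp (c * uF κ w z) : ℂ)) z0 := by
    intro c
    apply ZR_HL_C1
    apply ZR_ofReal
    exact (contDiffAt_const.mul (hu z0).1).exp
  have Hf1 : ZR_HL f1 z0 := by
    apply ZR_HL_C1
    unfold f1
    exact ((contDiff_id.pow 2).sub contDiff_const).contDiffAt
  have Hf2 : ZR_HL f2 z0 := by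
    apply ZR_HL_C1
    unfold f2
    exact contDiff_id.contDiffAt
  have Hp : ZR_HL (pF τ x) z0 := by
    unfold pF
    exact ZR_HL_add (ZR_HL_mul (ZR_HL_const _ _) Hf2)
      (ZR_HL_mul (ZR_HL_mul (ZR_HL_const _ _) Hf1) Hx)
  have HG : ZR_HL (GF τ κ w x) z0 := by
    have e : GF τ κ w x = fun z => ((W z : ℂ) * (Real.exp (-2 * uF κ w z) : ℂ)) *
        ((starRingEnd ℂ) (f1 z) * pF τ x z) := by
      funext z
      rw [GF, Complex.ofReal_mul]
    rw [e]
    exact ZR_HL_mul (ZR_HL_mul HW (He (-2))) (ZR_HL_mul (ZR_HL_conj Hf1) Hp)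
  have Heb : ZR_HL (fun c => (Real.exp (uF κ w c) : ℂ) * bF τ κ w x c) z0 := by
    have := He 1
    simp only [one_mul] at this
    exact ZR_HL_mul this Hb
  have HQ : ZR_HL (fun c => (QF τ κ w x c : ℂ)) z0 := by
    have e : (fun c => (QF τ κ w x c : ℂ)) = fun z =>
        ((κ * aF τ κ w x ^ 2 : ℝ) : ℂ) * ((bF τ κ w x z * (starRingEnd ℂ) (bF τ κ w x z)) *
          (Real.exp (1 * uF κ w z) : ℂ)) +
        (aF τ κ w x : ℂ) * ((W z : ℂ) * ((f1 z * (starRingEnd ℂ) (f1 z)) *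
          (Real.exp (-1 * uF κ w z) : ℂ) +
          (pF τ x z * (starRingEnd ℂ) (pF τ x z)) * (Real.exp (-2 * uF κ w z) : ℂ))) := by
      funext z
      rw [QF, nF, Complex.mul_conj, Complex.mul_conj, Complex.mul_conj, Complex.normSq_eq_norm_sq,
        Complex.normSq_eq_norm_sq, Complex.normSq_eq_norm_sq, one_mul, neg_one_mul]
      push_cast
      ring
    rw [e]
    exact ZR_HL_add (ZR_HL_mul (ZR_HL_const _ _) (ZR_HL_mul (ZR_HL_mul Hb (ZR_HL_conj Hb)) (He 1)))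
      (ZR_HL_mul (ZR_HL_const _ _) (ZR_HL_mul HW (ZR_HL_add
        (ZR_HL_mul (ZR_HL_mul Hf1 (ZR_HL_conj Hf1)) (He (-1)))
        (ZR_HL_mul (ZR_HL_mul Hp (ZR_HL_conj Hp)) (He (-2))))))
  refine ⟨?_, ?_, ?_⟩
  · obtain ⟨h3, h4⟩ := ZR_LH hLH hebm hec.1 Heb
    have h5 : ContDiffAt ℝ 1 x z0 ∧ dzb x z0 = ((κ : ℂ) * (aF τ κ w x : ℂ)) *
        ((Real.exp (uF κ w z0) : ℂ) * bF τ κ w x z0) := by
      generalize hA : ((κ : ℂ) * (aF τ κ w x : ℂ)) = A at hxe ⊢
      generalize hg : (Ct (fun c => (Real.exp (uF κ w c) : ℂ) * bF τ κ w x c)) = g at hxe h3 h4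
      generalize hv : ((Real.exp (uF κ w z0) : ℂ) * bF τ κ w x z0) = v at h4 ⊢
      rw [hxe]
      exact ⟨contDiffAt_const.mul h3, by rw [ZR_dzb_const_mul h3, h4]⟩
    refine ⟨h5.1, ?_⟩
    rw [h5.2]
    push_cast
    ring
  · obtain ⟨h3, h4⟩ := ZR_LH hLH (Complex.continuous_conj.measurable.comp Gm) hcg.1 (ZR_HL_conj HG)
    rw [hbe]
    refine ⟨Complex.conjCLE.contDiff.contDiffAt.comp z0 h3, ?_⟩
    have h5 := ZR_dz_conj h3
    rw [h4] at h5
    simp only [Complex.conj_conj, Function.comp_def] at h5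
    exact h5
  · exact ZR_LH hLH (Complex.measurable_ofReal.comp Qm) hQc.1 HQ

end Pool.Agent.Helper614.HE.P_ZR
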