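import Pool.Agent.Helper614.HE.SpecC
set_option autoImplicit false

open scoped Manifold ContDiff Matrix ComplexOrder
open Matrix Topology MeasureTheory Set Filter

namespace Pool.Agent.Helper614.HE.P_ZS

open Pool.Agent.Helper614.HE




theorem ZS_dz_mul (c : ℂ) (f : ℂ → ℂ) (z : ℂ) (hf : DifferentiableAt ℝ f z) :
    dz (fun w => c * f w) z = c * dz f z := by
  unfold dz
  have h : fderiv ℝ (fun w => c * f w) z = c • fderiv ℝ f z := by
    have := (hf.hasFDerivAt.const_smul c).fderiv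
    simpa [Pi.smul_def, smul_eq_mul] using this
  rw [h]
  simp only [FunLike.coe_smul, Pi.smul_apply, smul_eq_mul]
  ring

theorem ZS_dzb_mul (c : ℂ) (f : ℂ → ℂ) (z : ℂ) (hf : DifferentiableAt ℝ f z) :
    dzb (fun w => c * f w) z = c * dzb f z := by
  unfold dzb
  have h : fderiv ℝ (fun w => c * f w) z = c • fderiv ℝ f z := by
    have := (hf.hasFDerivAt.const_smul c).fderiv
    simpa [Pi.smul_def, smul_eq_mul] using this
  rw [h]
  simp only [FunLike.coe_smul, Pi.smul_apply, smul_eq_mul]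
  ring

theorem ZS_dz_sub (c : ℝ) (u : ℂ → ℝ) (z : ℂ) :
    dz (fun w => ((u w - c : ℝ) : ℂ)) z = dz (fun w => (u w : ℂ)) z := by
  unfold dz
  have h : fderiv ℝ (fun w => ((u w - c : ℝ) : ℂ)) z = fderiv ℝ (fun w => (u w : ℂ)) z := by
    have e : (fun w => ((u w - c : ℝ) : ℂ)) = fun w => (u w : ℂ) - (c : ℂ) := by
      funext w; push_cast; rfl
    rw [e, fderiv_sub_const]
  rw [h]

theorem ZS_cont_of_holder (f : ℂ → ℂ) (C : ℝ)
    (h : ∀ z z', ‖f z - f z'‖ ≤ C * ‖z - z'‖ ^ (1 / 4 : ℝ)) : Continuous f := by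
  rw [continuous_iff_continuousAt]
  intro z
  rw [ContinuousAt, tendsto_iff_norm_sub_tendsto_zero]
  have h0 : Tendsto (fun z' : ℂ => C * ‖z' - z‖ ^ (1 / 4 : ℝ)) (𝓝 z) (𝓝 0) := by
    have hc : Continuous (fun z' : ℂ => C * ‖z' - z‖ ^ (1 / 4 : ℝ)) := by
      apply Continuous.mul continuous_const
      exact Continuous.rpow_const (by fun_prop) (fun _ => Or.inr (by norm_num))
    have := hc.tendsto z
    simpa using this
  exact squeeze_zero (fun _ => norm_nonneg _) (fun z' => h z' z) h0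

/-
PROOF OF THE TARGET IN WORDS
kappa = 1/M, a = aF > 0, beta = bF, u = uF, alpha = kappa a. sigma = sqrt(alpha/tau). Solution: u' = u - log tau, x' = x/sqrt(tau), b' = sqrt(tau) alpha beta, q' = - kappa Ct Q (Q = QF as a complex function). Continuity: u, x, beta from PT1/PT2/Ball1, q' by CTB (Hoelder; |Q| <= K Om/rho <= K Om).
System at z with z^16+1 not 0, from ZR: e^{u'} = e^u/tau, e^{-u'} = tau e^{-u}, e^{-2u'} = tau^2 e^{-2u}. dz u' = dz u = q'. dzb x' = alpha e^u beta/sqrt(tau) = e^{u'} b' (tau/sqrt(tau) = sqrt(tau)). dz b' = sqrt(tau) alpha G = sqrt(tau) alpha W e^{-2u} conj f1 p, p = sqrt(tau)(f2 + 2 f1 x'), so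
= (alpha/tau) W e^{-2u'} conj f1 (f2 + 2 f1 x') and sigma^2 = alpha/tau. dzb q' = - kappa Q = -(alpha^2 |beta|^2 e^u + alpha W(|f1|^2 e^{-u} + |p|^2 e^{-2u})), and |b'|^2 e^{u'} = alpha^2 |beta|^2 e^u, sigma^2 W |f1|^2 e^{-u'} = alpha W |f1|^2 e^{-u}, sigma^2 W |f2+2f1x'|^2 e^{-2u'} = alpha W |p|^2 e^{-2u}.
Bounds: |u' + kappa log rho| = |w - log tau| <= 1 + log 2. x = kappa a Ct(e^u beta) with |e^u beta| <= C/rho: second part of DEC. |b'| <= C/rho by PT2. z q' + kappa = -kappa (z Ct Q - 1) = -kappa (z Ct Q - (1/pi) int Q) as int Q = pi: third part of DEC. (In ZSol the exponents are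
(1+|z|)^{-1/4}.)
-/
-- TARGET
theorem ZS (hOM : T_OM) (hCTB : T_CTB) (hDEC : T_DEC) (hPT1 : T_PT1) (hPT2 : T_PT2) (hZR : T_ZR) : T_ZS := by
  intro M hM τ hτ w x hB hw hx
  have hM0 : (0 : ℝ) < M := by
    have : (16 : ℝ) ≤ M := by exact_mod_cast hM
    linarith
  have hκ : (1 / M : ℝ) ∈ Icc (0 : ℝ) (1 / 16) := by
    constructor
    · positivity
    · apply one_div_le_one_div_of_le (by norm_num)
      exact_mod_cast hM
  obtain ⟨K1, hK1, h1⟩ := hPT1
  obtain ⟨K2, hK2, h2⟩ := hPT2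
  obtain ⟨K3, hK3, h3⟩ := hCTB
  obtain ⟨K4, hK4, -, h4, h5⟩ := hDEC
  obtain ⟨cu, -, eu1, -, -, -, -, -, -, -, -, -, -, -, -, -⟩ := h1 τ hτ (1 / M : ℝ) hκ w x hB
  obtain ⟨bb, cb, -, -, -, -, -, -, -, ha1, ha2, -, hQ, mQ, -, iQ⟩ := h2 τ hτ (1 / M : ℝ) hκ w x hB
  obtain ⟨r1, r2⟩ := hZR M hM τ hτ w x hB hw hx
  obtain ⟨-, -, -, hOm0, -⟩ := hOM
  have hτ0 : (0 : ℝ) < τ := by have := hτ.1; linarith
  set κ : ℝ := (1 / M : ℝ) with hκd
  set a : ℝ := aF τ κ w x with had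
  set β : ℂ → ℂ := bF τ κ w x with hβd
  set u : ℂ → ℝ := uF κ w with hud
  set Q : ℂ → ℂ := fun c => (QF τ κ w x c : ℂ) with hQd
  have ha0 : 0 < a := lt_of_lt_of_le (inv_pos.mpr hK2) ha1
  set s : ℝ := Real.sqrt τ with hs
  have hs0 : 0 < s := Real.sqrt_pos.mpr hτ0
  have hs2 : s ^ 2 = τ := Real.sq_sqrt hτ0.le
  have hs1 : 1 ≤ s := by
    rw [hs]; exact Real.one_le_sqrt.mpr hτ.1
  have hsC : (s : ℂ) ≠ 0 := by exact_mod_cast hs0.ne'
  have hκ0 : 0 ≤ κ := hκ.1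
  have hσ : Real.sqrt (κ * a / τ) ^ 2 = κ * a / τ := Real.sq_sqrt (by positivity)
  -- facts about Q
  have hmQ : Measurable Q := Complex.measurable_ofReal.comp mQ
  have hQ1 : ∀ z, ‖Q z‖ ≤ K2 * (Om z / (1 + ‖z‖ ^ 2)) := by
    intro z
    rw [hQd]
    simp only [Complex.norm_real, Real.norm_eq_abs, abs_of_nonneg (hQ z).1]
    exact (hQ z).2
  have hQ2 : ∀ z, ‖Q z‖ ≤ K2 * Om z := by
    intro z
    refine (hQ1 z).trans ?_
    apply mul_le_mul_of_nonneg_left _ hK2.le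
    apply div_le_self (hOm0 z).le
    have : 0 ≤ ‖z‖ ^ 2 := by positivity
    linarith
  have hCQ : Continuous (Ct Q) :=
    ZS_cont_of_holder (Ct Q) (K3 * K2) (h3 Q K2 hmQ hK2.le hQ2).2.2
  have hIQ : ((1 / Real.pi : ℝ) : ℂ) * ∫ c, Q c = 1 := by
    have e : ∫ c, Q c = ((∫ c, QF τ κ w x c : ℝ) : ℂ) := integral_ofReal
    rw [e, iQ, ← Complex.ofReal_mul, one_div_mul_cancel Real.pi_ne_zero, Complex.ofReal_one]
  have hexp1 : ∀ z, Real.exp (u z - Real.log τ) = Real.exp (u z) / τ := by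
    intro z; rw [Real.exp_sub, Real.exp_log hτ0]
  have hexp2 : ∀ z, Real.exp (-(u z - Real.log τ)) = τ * Real.exp (-u z) := by
    intro z
    rw [neg_sub, sub_eq_add_neg, Real.exp_add, Real.exp_log hτ0]
  have hexp3 : ∀ z, Real.exp (-2 * (u z - Real.log τ)) = τ ^ 2 * Real.exp (-2 * u z) := by
    intro z
    have : -2 * (u z - Real.log τ) = Real.log τ + Real.log τ + -2 * u z := by ring
    rw [this, Real.exp_add, Real.exp_add, Real.exp_log hτ0]; ring
  have hp : ∀ z, pF τ x z = (s : ℂ) * (f2 z + 2 * f1 z * (x z / (s : ℂ))) := by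
    intro z
    unfold pF
    rw [← hs]
    field_simp
  refine ⟨fun z => ((s * (κ * a) : ℝ) : ℂ) * β z, fun z => (-(κ : ℂ)) * Ct Q z, ?_⟩
  refine ⟨?_, ?_, ?_, ?_, ?_, ?_, ?_, ?_, ?_⟩
  · exact cu.sub continuous_const
  · exact hB.cx.div_const _
  · exact continuous_const.mul cb
  · exact continuous_const.mul hCQ
  · intro z hz
    obtain ⟨⟨x1, x2⟩, ⟨b1, b2⟩, ⟨q1, q2⟩⟩ := r2 z hz
    have hr := r1 z
    have one_ne : (1 : ℕ∞ω) ≠ 0 := one_ne_zero
    refine ⟨?_, ?_, ?_, ?_, ?_, ?_, ?_, ?_⟩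
    · exact hr.1.sub contDiffAt_const
    · exact x1.div_const _
    · exact contDiffAt_const.mul b1
    · exact contDiffAt_const.mul q1
    · rw [ZS_dz_sub, hr.2]
    · have e : (fun z => x z / (s : ℂ)) = fun z => (s : ℂ)⁻¹ * x z := by
        funext z; rw [div_eq_inv_mul]
      rw [e, ZS_dzb_mul _ _ _ (x1.differentiableAt one_ne), x2, hexp1]
      have hτC : (τ : ℂ) = (s : ℂ) ^ 2 := by exact_mod_cast hs2.symm
      push_cast
      rw [hτC]
      field_simp
    · rw [ZS_dz_mul _ _ _ (b1.differentiableAt one_ne), b2, hexp3, hσ]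
      unfold GF
      rw [hp z, ← hud]
      have hτC : (τ : ℂ) = (s : ℂ) ^ 2 := by exact_mod_cast hs2.symm
      push_cast
      rw [hτC]
      field_simp
    · rw [ZS_dzb_mul _ _ _ (q1.differentiableAt one_ne), q2, hexp1, hexp2, hexp3, hσ]
      rw [neg_mul, ← Complex.ofReal_mul]
      congr 1
      congr 1
      have n1 : ‖((s * (κ * a) : ℝ) : ℂ) * β z‖ ^ 2 = τ * (κ * a) ^ 2 * ‖β z‖ ^ 2 := by
        rw [norm_mul, Complex.norm_real, Real.norm_eq_abs, abs_of_nonneg (by positivity), mul_pow,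
          mul_pow, hs2]
      have n2 : ‖pF τ x z‖ ^ 2 = τ * ‖f2 z + 2 * f1 z * (x z / (s : ℂ))‖ ^ 2 := by
        rw [hp z, norm_mul, Complex.norm_real, Real.norm_eq_abs, abs_of_pos hs0, mul_pow, hs2]
      rw [n1]
      unfold QF nF
      rw [n2]
      rw [← had, ← hβd, ← hud]
      field_simp
  · refine ⟨1 + |Real.log τ|, fun z => ?_⟩
    have e : u z - Real.log τ + (1 / M : ℝ) * Real.log (1 + ‖z‖ ^ 2) = w z - Real.log τ := by
      rw [hud]; unfold uF; ring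
    have e' : |w z - Real.log τ| ≤ |w z| + |Real.log τ| := abs_sub _ _
    rw [show u z - Real.log τ + (1 / M : ℝ) * Real.log (1 + ‖z‖ ^ 2) = w z - Real.log τ from e]
    have := hB.bw z
    linarith
  · have hf : ∀ c, ‖(fun c => (Real.exp (u c) : ℂ) * β c) c‖ ≤ (K1 * K2) / (1 + ‖c‖ ^ 2) := by
      intro c
      simp only [norm_mul, Complex.norm_real, Real.norm_eq_abs, abs_of_pos (Real.exp_pos _)]
      have := mul_le_mul (eu1 c) (bb c) (norm_nonneg _) hK1.le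
      rw [mul_div_assoc]
      exact this
    have hmf : Measurable (fun c => (Real.exp (u c) : ℂ) * β c) := by
      apply Continuous.measurable
      exact (Complex.continuous_ofReal.comp (Real.continuous_exp.comp cu)).mul cb
    have h4' := (h4 _ (K1 * K2) hmf (by positivity) hf).2
    refine ⟨κ * a * (K4 * (K1 * K2)), fun z => ?_⟩
    have e : x z = ((κ * a : ℝ) : ℂ) * Ct (fun c => (Real.exp (u c) : ℂ) * β c) z := by
      rw [hx z]; unfold xS; push_cast; ring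
    have : ‖x z / (s : ℂ)‖ ≤ ‖x z‖ := by
      rw [norm_div, Complex.norm_real, Real.norm_eq_abs, abs_of_pos hs0]
      exact div_le_self (norm_nonneg _) hs1
    refine this.trans ?_
    rw [e, norm_mul, Complex.norm_real, Real.norm_eq_abs, abs_of_nonneg (by positivity)]
    have := mul_le_mul_of_nonneg_left (h4' z) (show 0 ≤ κ * a by positivity)
    linarith
  · refine ⟨s * (κ * a) * K2, fun z => ?_⟩
    rw [norm_mul, Complex.norm_real, Real.norm_eq_abs, abs_of_nonneg (by positivity), mul_div_assoc]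
    exact mul_le_mul_of_nonneg_left (bb z) (by positivity)
  · refine ⟨κ * (K4 * K2), fun z => ?_⟩
    have h5' := (h5 Q K2 hmQ hK2.le hQ1).2 z
    rw [hIQ] at h5'
    have e : z * (-(κ : ℂ) * Ct Q z) + ((1 / M : ℝ) : ℂ) = -(κ : ℂ) * (z * Ct Q z - 1) := by
      rw [← hκd]; ring
    rw [e, norm_mul, norm_neg, Complex.norm_real, Real.norm_eq_abs, abs_of_nonneg hκ0]
    have := mul_le_mul_of_nonneg_left h5' hκ0
    linarith

end Pool.Agent.Helper614.HE.P_ZS
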