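import Pool.Agent.Helper614.HE.Asm
import Pool.Agent.Helper614.HE.P_KE1
import Pool.Agent.Helper614.HE.P_KE2
import Pool.Agent.Helper614.HE.P_KE3
import Pool.Agent.Helper614.HE.P_KE
import Pool.Agent.Helper614.HE.P_OM
import Pool.Agent.Helper614.HE.P_CTB
import Pool.Agent.Helper614.HE.P_DEC1
import Pool.Agent.Helper614.HE.P_DEC2
import Pool.Agent.Helper614.HE.P_DEC3
import Pool.Agent.Helper614.HE.P_LOG1
import Pool.Agent.Helper614.HE.P_LOG2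
import Pool.Agent.Helper614.HE.P_LHa
import Pool.Agent.Helper614.HE.P_C1
import Pool.Agent.Helper614.HE.P_LHb
import Pool.Agent.Helper614.HE.P_LHc
import Pool.Agent.Helper614.HE.P_LHd
import Pool.Agent.Helper614.HE.P_LHe
import Pool.Agent.Helper614.HE.P_LHf
import Pool.Agent.Helper614.HE.P_LH
import Pool.Agent.Helper614.HE.P_CH
import Pool.Agent.Helper614.HE.P_REM1
import Pool.Agent.Helper614.HE.P_REM2
import Pool.Agent.Helper614.HE.P_REM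
import Pool.Agent.Helper614.HE.P_BT1
import Pool.Agent.Helper614.HE.P_BT2
import Pool.Agent.Helper614.HE.P_BT3
import Pool.Agent.Helper614.HE.P_BT4
import Pool.Agent.Helper614.HE.P_BOOT
import Pool.Agent.Helper614.HE.P_PT1
import Pool.Agent.Helper614.HE.P_WI
import Pool.Agent.Helper614.HE.P_AQ
import Pool.Agent.Helper614.HE.P_PT2
import Pool.Agent.Helper614.HE.P_PT3
import Pool.Agent.Helper614.HE.P_LIP1
import Pool.Agent.Helper614.HE.P_LIP2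
import Pool.Agent.Helper614.HE.P_LIP
import Pool.Agent.Helper614.HE.P_NLIM
import Pool.Agent.Helper614.HE.P_ALIM
import Pool.Agent.Helper614.HE.P_FIX
import Pool.Agent.Helper614.HE.P_ZR
import Pool.Agent.Helper614.HE.P_ZS
import Pool.Agent.Helper614.HE.P_EX
import Pool.Agent.Helper614.HE.P_HIT1
import Pool.Agent.Helper614.HE.P_HIT2
import Pool.Agent.Helper614.HE.P_HIT
import Pool.Agent.Helper614.HE.P_HMP
import Pool.Agent.Helper614.HE.P_G1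
import Pool.Agent.Helper614.HE.P_G2
import Pool.Agent.Helper614.HE.P_G3
import Pool.Agent.Helper614.HE.P_G4
import Pool.Agent.Helper614.HE.P_G5
import Pool.Agent.Helper614.HE.P_TH
import Pool.Agent.Helper614.HE.P_HB
import Pool.Agent.Helper614.HE.P_GEN
import Pool.Agent.Helper614.HE.P_ST1
import Pool.Agent.Helper614.HE.P_ST2
import Pool.Agent.Helper614.HE.P_SB
import Pool.Agent.Helper614.HE.P_CHA
import Pool.Agent.Helper614.HE.P_CHB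
import Pool.Agent.Helper614.HE.P_CONN
import Pool.Agent.Helper614.HE.P_TOP
import Pool.Agent.Helper614.HE.P_ATL
import Pool.Agent.Helper614.HE.P_GEO
import Pool.Agent.Helper614.HE.P_UN1
import Pool.Agent.Helper614.HE.P_UN2
import Pool.Agent.Helper614.HE.P_UN3
import Pool.Agent.Helper614.HE.P_UNQ

/-!
# All parts together
-/

set_option autoImplicit false

namespace Pool.Agent.Helper614.HE.All

open Pool.Agent.Helper614.HE

theorem hOM : T_OM := P_OM.OM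
theorem hKE1 : T_KE1 := P_KE1.KE1
theorem hKE2 : T_KE2 := P_KE2.KE2
theorem hKE3 : T_KE3 := P_KE3.KE3 hKE1 hKE2 hOM
theorem hKE : T_KE := P_KE.KE hKE2 hKE3 hOM
theorem hCTB : T_CTB := P_CTB.CTB hKE hOM
theorem hDEC1 : T_DEC1 := P_DEC1.DEC1 hKE hCTB hOM
theorem hDEC2 : T_DEC2 := P_DEC2.DEC2 hKE hOM
theorem hDEC3 : T_DEC3 := P_DEC3.DEC3 hKE hOM
theorem hDEC : T_DEC := DEC_of hDEC1 hDEC2 hDEC3
theorem hLOG1 : T_LOG1 := P_LOG1.LOG1 hKE hOM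
theorem hLOG2 : T_LOG2 := P_LOG2.LOG2
theorem hLOG : T_LOG := LOG_of hOM hKE hCTB hLOG1 hLOG2
theorem hLHa : T_LHa := P_LHa.LHa hKE2
theorem hC1 : T_C1 := P_C1.C1 hKE2
theorem hLHb : T_LHb := P_LHb.LHb hC1
theorem hLHc : T_LHc := P_LHc.LHc
theorem hLHd : T_LHd := P_LHd.LHd
theorem hLHe : T_LHe := P_LHe.LHe hKE2 hLHa hLHb hC1
theorem hLHf : T_LHf := P_LHf.LHf
theorem hLH : T_LH := P_LH.LH hLHc hLHd hLHe hLHf
theorem hCH : T_CH := P_CH.CH hKE2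
theorem hREM1 : T_REM1 := P_REM1.REM1 hLH hCH
theorem hREM2 : T_REM2 := P_REM2.REM2 hLH hCH
theorem hREM : T_REM := P_REM.REM hREM1 hREM2
theorem hBT1 : T_BT1 := P_BT1.BT1
theorem hBT2 : T_BT2 := P_BT2.BT2
theorem hBT3 : T_BT3 := P_BT3.BT3 hLH hC1 hBT1
theorem hBT4 : T_BT4 := P_BT4.BT4 hBT1 hBT3
theorem hBOOT : T_BOOT := P_BOOT.BOOT hBT1 hBT2 hBT4
theorem hRL : T_RL := RL_of hREM hBOOT
theorem hPT1 : T_PT1 := P_PT1.PT1 hOM
theorem hWI : T_WI := P_WI.WI hKE hOM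
theorem hAQ : T_AQ := P_AQ.AQ
theorem hPT2 : T_PT2 := P_PT2.PT2 hPT1 hDEC1 hWI hAQ hOM
theorem hPT3 : T_PT3 := P_PT3.PT3 hPT1 hPT2 hLOG hCTB hOM
theorem hLIP1 : T_LIP1 := P_LIP1.LIP1 hOM hPT1
theorem hLIP2 : T_LIP2 := P_LIP2.LIP2 hOM hPT1 hPT2 hLIP1 hDEC1 hKE hWI hAQ
theorem hLIP : T_LIP := P_LIP.LIP hOM hPT1 hPT2 hLIP1 hLIP2 hLOG hCTB hKE
theorem hNLIM : T_NLIM := P_NLIM.NLIM hOM hPT1 hWI
theorem hALIM : T_ALIM := P_ALIM.ALIM hWI hPT1 hPT2 hAQ hNLIM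
theorem hFIX : T_FIX := P_FIX.FIX hPT3 hLIP
theorem hZR : T_ZR := P_ZR.ZR hOM hKE hCTB hLH hLOG hPT1 hPT2
theorem hZS : T_ZS := P_ZS.ZS hOM hCTB hDEC hPT1 hPT2 hZR
theorem hEX : T_EX := P_EX.EX hFIX hZS hALIM hPT2
theorem hHIT1 : T_HIT1 := P_HIT1.HIT1
theorem hHIT2 : T_HIT2 := P_HIT2.HIT2
theorem hHIT : T_HIT := P_HIT.HIT hHIT1 hHIT2
theorem hHMP : T_HMP := P_HMP.HMP
theorem hG1 : T_G1 := P_G1.G1
theorem hG2 : T_G2 := P_G2.G2
theorem hG3 : T_G3 := P_G3.G3 hG2 hREM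
theorem hG4 : T_G4 := P_G4.G4
theorem hG5 : T_G5 := P_G5.G5 hRL hHIT hG4
theorem hTH : T_TH := P_TH.TH
theorem hHB : T_HB := P_HB.HB hTH
theorem hGEN : T_GEN := P_GEN.GEN hTH
theorem hST1 : T_ST1 := P_ST1.ST1 hTH
theorem hST2 : T_ST2 := P_ST2.ST2
theorem hSTAB : T_STAB := STAB_of hST1 hST2
theorem hSB : T_SB := P_SB.SB
theorem hTOP : T_TOP := P_TOP.TOP P_CONN.CONN
theorem hATL : T_ATL := P_ATL.ATL P_CHA.CHA P_CHB.CHB
theorem hSG : T_SG := SG_of hSB hTOP hATL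
theorem hGEO : T_GEO := P_GEO.GEO hTH hG1 hG3 hG5 hHMP
theorem hUNQ : T_UNQ := P_UNQ.UNQ hTH P_UN1.UN1 P_UN2.UN2 P_UN3.UN3

theorem final : Final := MAIN hEX hSB hSG hTH hHB hGEN hSTAB hGEO hUNQ

end Pool.Agent.Helper614.HE.All
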