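import Mathlib

/-!
# Higgs bundles on closed Riemann surfaces, harmonic metrics and their energy densities: definitions
-/

set_option autoImplicit false

open scoped Manifold ContDiff Matrix ComplexOrder
open Matrix Topology

namespace Pool.Agent.Helper614.HE

/-! ### Calculus -/

/-- The Wirtinger derivative `∂f/∂z`. -/
noncomputable def dz (f : ℂ → ℂ) (z : ℂ) : ℂ :=
  (fderiv ℝ f z 1 - Complex.I * fderiv ℝ f z Complex.I) / 2

/-- The Wirtinger derivative `∂f/∂z̄`. -/
noncomputable def dzb (f : ℂ → ℂ) (z : ℂ) : ℂ :=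
  (fderiv ℝ f z 1 + Complex.I * fderiv ℝ f z Complex.I) / 2

/-- `∂/∂z` of a matrix valued function, entry by entry. -/
noncomputable def mdz {n : ℕ} (H : ℂ → Matrix (Fin n) (Fin n) ℂ) (z : ℂ) :
    Matrix (Fin n) (Fin n) ℂ := Matrix.of fun i j => dz (fun w => H w i j) z

/-- `∂/∂z̄` of a matrix valued function, entry by entry. -/
noncomputable def mdzb {n : ℕ} (H : ℂ → Matrix (Fin n) (Fin n) ℂ) (z : ℂ) :
    Matrix (Fin n) (Fin n) ℂ := Matrix.of fun i j => dzb (fun w => H w i j) z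

/-- The adjoint of the matrix `A` for the Hermitian metric `h(s, t) = t^* H s`. -/
noncomputable def adj {n : ℕ} (H A : Matrix (Fin n) (Fin n) ℂ) : Matrix (Fin n) (Fin n) ℂ :=
  H⁻¹ * Aᴴ * H

/-! ### Closed Riemann surfaces -/

section Surface

variable (X : Type) [TopologicalSpace X] [ChartedSpace ℂ X]

/-- `X` is a closed Riemann surface: a compact connected Hausdorff complex manifold of
dimension one. -/
structure IsClosedRiemannSurface : Prop where
  /-- the transition functions of the atlas are holomorphic -/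
  manifold : IsManifold 𝓘(ℂ) ω X
  t2 : T2Space X
  compact : CompactSpace X
  connected : ConnectedSpace X

/-- Holomorphic 1-forms: in the coordinate `e` (a chart of the atlas) the form is
`α e (e x) dz` at the point `x`. -/
structure IsHolForm (α : OpenPartialHomeomorph X ℂ → ℂ → ℂ) : Prop where
  holo : ∀ e ∈ atlas ℂ X, DifferentiableOn ℂ (α e) e.target
  change : ∀ e ∈ atlas ℂ X, ∀ e' ∈ atlas ℂ X, ∀ x ∈ e.source ∩ e'.source,
    α e (e x) = α e' (e' x) * deriv (e' ∘ e.symm) (e x)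

/-- The genus (the dimension of the space of holomorphic 1-forms) is at least two: there are two
linearly independent holomorphic 1-forms. -/
def GenusAtLeastTwo : Prop :=
  ∃ α β : OpenPartialHomeomorph X ℂ → ℂ → ℂ, IsHolForm X α ∧ IsHolForm X β ∧
    ∀ a b : ℂ, (∀ e ∈ atlas ℂ X, ∀ z ∈ e.target, a * α e z + b * β e z = 0) → a = 0 ∧ b = 0

/-- Conformal Riemannian metrics: in the coordinate `e` the metric is `ρ e x |dz|²` at `x`. -/
structure IsConformalMetric (ρ : OpenPartialHomeomorph X ℂ → X → ℝ) : Prop where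
  pos : ∀ e ∈ atlas ℂ X, ∀ x ∈ e.source, 0 < ρ e x
  smooth : ∀ e ∈ atlas ℂ X, ContDiffOn ℝ ∞ (fun z => ρ e (e.symm z)) e.target
  change : ∀ e ∈ atlas ℂ X, ∀ e' ∈ atlas ℂ X, ∀ x ∈ e.source ∩ e'.source,
    ρ e x = ρ e' x * ‖deriv (e' ∘ e.symm) (e x)‖ ^ 2

end Surface

/-! ### Higgs bundles -/

/-- An `SL(n, ℂ)`-Higgs bundle `(E, φ)` on the Riemann surface `X`.  The holomorphic vector
bundle `E` of rank `n` with trivial determinant is given by an open cover `U i` and holomorphic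
transition functions `g i j` of determinant one (a section has components `s i` over `U i`, and
`s i = g i j s j`).  The Higgs field is the traceless holomorphic endomorphism valued 1-form
whose matrix is `φ i e x dz` at `x`, in the frame `i` and in the coordinate `e`. -/
structure HiggsBundle (n : ℕ) (X : Type) [TopologicalSpace X] [ChartedSpace ℂ X] where
  /-- the index set of the cover -/
  ι : Type
  /-- the open sets over which the bundle is trivialised -/
  U : ι → Set X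
  isOpen_U : ∀ i, IsOpen (U i)
  cover : ∀ x, ∃ i, x ∈ U i
  /-- the transition functions -/
  g : ι → ι → X → Matrix (Fin n) (Fin n) ℂ
  holo_g : ∀ i j, ∀ e ∈ atlas ℂ X, ∀ r c, DifferentiableOn ℂ (fun z => g i j (e.symm z) r c)
    (e.target ∩ e.symm ⁻¹' (U i ∩ U j))
  det_g : ∀ i j, ∀ x ∈ U i ∩ U j, (g i j x).det = 1
  cocycle : ∀ i j k, ∀ x ∈ U i ∩ U j ∩ U k, g i j x * g j k x = g i k x
  /-- the Higgs field -/
  φ : ι → OpenPartialHomeomorph X ℂ → X → Matrix (Fin n) (Fin n) ℂ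
  trace_φ : ∀ i, ∀ e ∈ atlas ℂ X, ∀ x ∈ U i ∩ e.source, (φ i e x).trace = 0
  holo_φ : ∀ i, ∀ e ∈ atlas ℂ X, ∀ r c, DifferentiableOn ℂ (fun z => φ i e (e.symm z) r c)
    (e.target ∩ e.symm ⁻¹' U i)
  change_φ : ∀ i, ∀ e ∈ atlas ℂ X, ∀ e' ∈ atlas ℂ X, ∀ x ∈ U i ∩ (e.source ∩ e'.source),
    φ i e x = deriv (e' ∘ e.symm) (e x) • φ i e' x
  glue_φ : ∀ i j, ∀ e ∈ atlas ℂ X, ∀ x ∈ (U i ∩ U j) ∩ e.source,
    φ i e x * g i j x = g i j x * φ j e x

section Bundles

variable {n : ℕ} {X : Type} [TopologicalSpace X] [ChartedSpace ℂ X] (E : HiggsBundle n X)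

/-- `F` (a subspace of each fibre of `E`, of dimension `r`) has the holomorphic frame `B` on a
neighbourhood of `x₀`, in the trivialisation `i`: the columns of `B x` are a basis of `F i x`. -/
def IsLocalFrame (r : ℕ) (F : E.ι → X → Submodule ℂ (Fin n → ℂ)) (i : E.ι) (x₀ : X)
    (B : X → Matrix (Fin n) (Fin r) ℂ) : Prop :=
  ∃ V : Set X, IsOpen V ∧ x₀ ∈ V ∧ V ⊆ E.U i ∧
    (∀ e ∈ atlas ℂ X, ∀ a b, DifferentiableOn ℂ (fun z => B (e.symm z) a b)
      (e.target ∩ e.symm ⁻¹' V)) ∧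
    ∀ x ∈ V, LinearIndependent ℂ (fun b a => B x a b) ∧
      Submodule.span ℂ (Set.range fun b a => B x a b) = F i x

/-- `F` is a `φ`-invariant holomorphic subbundle of rank `r` of `E`. -/
structure IsHiggsSubbundle (r : ℕ) (F : E.ι → X → Submodule ℂ (Fin n → ℂ)) : Prop where
  glue : ∀ i j, ∀ x ∈ E.U i ∩ E.U j, F i x = (F j x).map (Matrix.toLin' (E.g i j x))
  frame : ∀ i, ∀ x ∈ E.U i, ∃ B, IsLocalFrame E r F i x B
  invariant : ∀ i, ∀ e ∈ atlas ℂ X, ∀ x ∈ E.U i ∩ e.source, ∀ v ∈ F i x,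
    (E.φ i e x).mulVec v ∈ F i x

/-- The subbundle `F` of rank `r` has degree `d`: it has a meromorphic frame `S` (with matrix
`S i x` in the trivialisation `i`) whose determinant has order `ord x` at `x`, and the sum of
these orders is `d`.  The order of the determinant is computed in terms of a holomorphic frame
`B` near the point: `S = B T` with `T` meromorphic. -/
def HasDegree (r : ℕ) (F : E.ι → X → Submodule ℂ (Fin n → ℂ)) (d : ℤ) : Prop :=
  ∃ (S : E.ι → X → Matrix (Fin n) (Fin r) ℂ) (ord : X → ℤ),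
    (∀ i j, ∀ x ∈ E.U i ∩ E.U j, S i x = E.g i j x * S j x) ∧
    (∀ i, ∀ x₀ ∈ E.U i, ∀ B, IsLocalFrame E r F i x₀ B → ∀ e ∈ atlas ℂ X, x₀ ∈ e.source →
      ∃ T : ℂ → Matrix (Fin r) (Fin r) ℂ, (∀ a b, MeromorphicAt (fun z => T z a b) (e x₀)) ∧
        (∀ᶠ z in 𝓝[≠] (e x₀), S i (e.symm z) = B (e.symm z) * T z) ∧
        meromorphicOrderAt (fun z => (T z).det) (e x₀) = ord x₀) ∧
    {x | ord x ≠ 0}.Finite ∧ ∑ᶠ x, ord x = d

/-- The Higgs bundle `(E, φ)` (of degree zero) is stable: every `φ`-invariant holomorphic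
subbundle of rank `0 < r < n` has negative degree. -/
def IsStable : Prop :=
  ∀ r : ℕ, 0 < r → r < n → ∀ F, IsHiggsSubbundle E r F → ∃ d : ℤ, d < 0 ∧ HasDegree E r F d

/-- `h` is the harmonic metric of the `SL(n, ℂ)`-Higgs bundle `(E, s φ)`: a smooth Hermitian
metric of determinant one on `E` (with matrix `h i x` in the frame `i`) which solves Hitchin's
equation `F_h + [s φ, (s φ)^{*_h}] = 0`, that is
`∂_z̄ (H⁻¹ ∂_z H) = [s φ, (s φ)^{*_H}]` in every frame and in every coordinate. -/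
structure IsHarmonicMetric (s : ℝ) (h : E.ι → X → Matrix (Fin n) (Fin n) ℂ) : Prop where
  posDef : ∀ i, ∀ x ∈ E.U i, (h i x).PosDef
  det : ∀ i, ∀ x ∈ E.U i, (h i x).det = 1
  glue : ∀ i j, ∀ x ∈ E.U i ∩ E.U j, h j x = (E.g i j x)ᴴ * h i x * E.g i j x
  smooth : ∀ i, ∀ e ∈ atlas ℂ X, ∀ r c, ContDiffOn ℝ ∞ (fun z => h i (e.symm z) r c)
    (e.target ∩ e.symm ⁻¹' E.U i)
  hitchin : ∀ i, ∀ e ∈ atlas ℂ X, ∀ x ∈ E.U i ∩ e.source,
    mdzb (fun z => (h i (e.symm z))⁻¹ * mdz (fun w => h i (e.symm w)) z) (e x) =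
      ((s : ℂ) • E.φ i e x) * adj (h i x) ((s : ℂ) • E.φ i e x) -
        adj (h i x) ((s : ℂ) • E.φ i e x) * ((s : ℂ) • E.φ i e x)

/-- The energy density at `x` (for the background metric `ρ`) of the equivariant harmonic map
`f_s` into `SL(n, ℂ)/SU(n)` given by the harmonic metric `h` of `(E, s φ)`: it is
`8 tr (s φ (s φ)^{*_h}) / ρ`, for the metric `tr (P⁻¹ Y P⁻¹ Y)` on the symmetric space of the positive
definite Hermitian matrices `P` of determinant one.  (It is computed in the frame `i` and in the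
coordinate `e`; it does not depend on them.) -/
noncomputable def energyDensity (ρ : OpenPartialHomeomorph X ℂ → X → ℝ) (s : ℝ)
    (h : E.ι → X → Matrix (Fin n) (Fin n) ℂ) (i : E.ι) (e : OpenPartialHomeomorph X ℂ)
    (x : X) : ℝ :=
  8 * (((s : ℂ) • E.φ i e x) * adj (h i x) ((s : ℂ) • E.φ i e x)).trace.re / ρ e x

end Bundles

end Pool.Agent.Helper614.HE
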