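import Pool.Agent.Helper614.HE.SpecC
set_option autoImplicit false

open scoped Manifold ContDiff Matrix ComplexOrder
open Matrix Topology MeasureTheory Set Filter

namespace Pool.Agent.Helper614.HE.P_CHB

open Pool.Agent.Helper614.HE



/-- The local inverse of the power map near a nonzero point. -/
theorem CHB_pow (N : ℕ) (hN : N ≠ 0) (v : ℂ) (hv : v ≠ 0) :
    ∃ k : OpenPartialHomeomorph ℂ ℂ, (∀ w, k w = w ^ N) ∧ v ∈ k.source ∧ (0 : ℂ) ∉ k.source ∧
      DifferentiableOn ℂ k.symm k.target := by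
  have hd : ∀ w : ℂ, HasStrictDerivAt (fun w : ℂ => w ^ N) (N * w ^ (N - 1)) w :=
    fun w => hasStrictDerivAt_pow N w
  have hne : ∀ w : ℂ, w ≠ 0 → (N : ℂ) * w ^ (N - 1) ≠ 0 := fun w hw =>
    mul_ne_zero (Nat.cast_ne_zero.mpr hN) (pow_ne_zero _ hw)
  have hf := (hd v).hasStrictFDerivAt_equiv (hne v hv)
  let k0 : OpenPartialHomeomorph ℂ ℂ := hf.toOpenPartialHomeomorph _
  have hk0 : ∀ w, k0 w = w ^ N := fun w => by
    change (hf.toOpenPartialHomeomorph _ : ℂ → ℂ) w = _
    rw [hf.toOpenPartialHomeomorph_coe]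
  have hv0 : v ∈ k0.source := hf.mem_toOpenPartialHomeomorph_source
  have ho : IsOpen ({0}ᶜ : Set ℂ) := isOpen_compl_singleton
  let k : OpenPartialHomeomorph ℂ ℂ := k0.restrOpen {0}ᶜ ho
  have hk : ∀ w, k w = w ^ N := hk0
  have hks : k.source = k0.source ∩ {0}ᶜ := rfl
  have hz : (0 : ℂ) ∉ k.source := by rw [hks]; simp
  refine ⟨k, hk, ?_, hz, ?_⟩
  · rw [hks]; exact ⟨hv0, hv⟩
  · intro z hz'
    have h1 : k.symm z ∈ k.source := k.map_target hz'
    have h2 : k.symm z ≠ 0 := fun h => hz (h ▸ h1)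
    have h3 : HasDerivAt k (N * (k.symm z) ^ (N - 1)) (k.symm z) := by
      have := (hd (k.symm z)).hasDerivAt
      have he : (k : ℂ → ℂ) = fun w : ℂ => w ^ N := funext hk
      rw [he]; exact this
    exact (k.hasDerivAt_symm hz' (hne _ h2) h3).differentiableAt.differentiableWithinAt

-- TARGET
theorem CHB : T_CHB := by
  intro m hm p hp
  obtain ⟨k, hk, hvk, hzk, hdk⟩ := CHB_pow (4 * m) (by omega) (p : ℂ × ℂ).1 hp
  have hcrv : ∀ x : Crv m, (x : ℂ × ℂ).2 ^ 4 - 1 = (x : ℂ × ℂ).1 ^ (4 * m) := fun x => by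
    have := x.2
    simp only [Crv, Set.mem_ofPred_eq] at this
    rw [this]; ring
  classical
  let g : ℂ → Crv m := fun y =>
    if h : y ^ 4 - 1 ∈ k.target then ⟨(k.symm (y ^ 4 - 1), y), by
      simp only [Crv, Set.mem_ofPred_eq]
      rw [← hk, k.right_inv h]; ring⟩ else p
  have hg : ∀ y, y ^ 4 - 1 ∈ k.target → (g y : ℂ × ℂ) = (k.symm (y ^ 4 - 1), y) := by
    intro y hy
    simp only [g, dif_pos hy]
  have hcont : Continuous (fun y : ℂ => y ^ 4 - 1) := by fun_prop
  have htopen : IsOpen {y : ℂ | y ^ 4 - 1 ∈ k.target} := k.open_target.preimage hcont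
  let e : OpenPartialHomeomorph (Crv m) ℂ :=
    { toFun := fun x => (x : ℂ × ℂ).2
      invFun := g
      source := {x : Crv m | (x : ℂ × ℂ).1 ∈ k.source}
      target := {y : ℂ | y ^ 4 - 1 ∈ k.target}
      map_source' := by
        intro x hx
        simp only [Set.mem_ofPred_eq] at hx ⊢
        rw [hcrv x, ← hk]
        exact k.map_source hx
      map_target' := by
        intro y hy
        simp only [Set.mem_ofPred_eq] at hy ⊢
        rw [hg y hy]
        exact k.map_target hy
      left_inv' := by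
        intro x hx
        simp only [Set.mem_ofPred_eq] at hx
        have h1 : (x : ℂ × ℂ).2 ^ 4 - 1 ∈ k.target := by
          rw [hcrv x, ← hk]; exact k.map_source hx
        apply Subtype.ext
        rw [hg _ h1, hcrv x, ← hk, k.left_inv hx]
      right_inv' := by
        intro y hy
        simp only [Set.mem_ofPred_eq] at hy
        show (g y : ℂ × ℂ).2 = y
        rw [hg y hy]
      open_source := k.open_source.preimage (continuous_fst.comp continuous_subtype_val)
      open_target := htopen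
      continuousOn_toFun := (continuous_snd.comp continuous_subtype_val).continuousOn
      continuousOn_invFun := by
        rw [Topology.IsInducing.subtypeVal.continuousOn_iff]
        have h1 : ContinuousOn (fun y : ℂ => ((k.symm (y ^ 4 - 1), y) : ℂ × ℂ))
            {y : ℂ | y ^ 4 - 1 ∈ k.target} := by
          apply ContinuousOn.prodMk
          · exact k.symm.continuousOn.comp hcont.continuousOn (fun y hy => hy)
          · exact continuousOn_id
        exact h1.congr (fun y hy => hg y hy) }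
  refine ⟨e, hvk, ?_, ?_⟩
  · intro x hx
    refine ⟨rfl, ?_⟩
    intro h0
    have : (x : ℂ × ℂ).1 ∈ k.source := hx
    rw [h0] at this
    exact hzk this
  · have h1 : DifferentiableOn ℂ (fun y : ℂ => k.symm (y ^ 4 - 1)) {y : ℂ | y ^ 4 - 1 ∈ k.target} := by
      apply hdk.comp (t := k.target) (f := fun y : ℂ => y ^ 4 - 1)
      · fun_prop
      · intro y hy; exact hy
    refine h1.congr ?_
    intro y hy
    show (g y : ℂ × ℂ).1 = _
    rw [hg y hy]

end Pool.Agent.Helper614.HE.P_CHB
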