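import Pool.Agent.Helper614.HE.SpecC
set_option autoImplicit false

open scoped Manifold ContDiff Matrix ComplexOrder
open Matrix Topology MeasureTheory Set Filter

namespace Pool.Agent.Helper614.HE.P_G1

open Pool.Agent.Helper614.HE



theorem G1_lin (L : ℂ →L[ℝ] ℂ) (c : ℂ) : L c = (c.re : ℂ) * L 1 + (c.im : ℂ) * L Complex.I := by
  have h : c = c.re • (1 : ℂ) + c.im • Complex.I := by
    apply Complex.ext <;> simp
  conv_lhs => rw [h]
  rw [map_add, map_smul, map_smul]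
  simp [Complex.real_smul]

theorem G1_comp (F g : ℂ → ℂ) (g' v : ℂ) (hF : DifferentiableAt ℝ F (g v))
    (hg : HasDerivAt g g' v) :
    dz (fun w => F (g w)) v = dz F (g v) * g' ∧
      dzb (fun w => F (g w)) v = dzb F (g v) * (starRingEnd ℂ) g' := by
  have h1 : HasFDerivAt (fun w => F (g w))
      ((fderiv ℝ F (g v)).comp ((ContinuousLinearMap.toSpanSingleton ℂ g').restrictScalars ℝ)) v :=
    hF.hasFDerivAt.comp v (hg.hasFDerivAt.restrictScalars ℝ)
  have h2 : ∀ c : ℂ, fderiv ℝ (fun w => F (g w)) v c = fderiv ℝ F (g v) (c * g') := by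
    intro c
    rw [h1.fderiv]
    simp [smul_eq_mul]
  have h3 : g' = (g'.re : ℂ) + (g'.im : ℂ) * Complex.I := (Complex.re_add_im g').symm
  have h4 : (starRingEnd ℂ) g' = (g'.re : ℂ) - (g'.im : ℂ) * Complex.I := by
    apply Complex.ext <;> simp
  have h5 : fderiv ℝ F (g v) (1 * g') = (g'.re : ℂ) * fderiv ℝ F (g v) 1 +
      (g'.im : ℂ) * fderiv ℝ F (g v) Complex.I := by
    rw [one_mul]; exact G1_lin _ _
  have h6 : fderiv ℝ F (g v) (Complex.I * g') = -(g'.im : ℂ) * fderiv ℝ F (g v) 1 +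
      (g'.re : ℂ) * fderiv ℝ F (g v) Complex.I := by
    rw [G1_lin]
    simp
  have hI : Complex.I ^ 2 = -1 := Complex.I_sq
  constructor
  · unfold dz
    rw [h2, h2, h5, h6]
    conv_rhs => rw [h3]
    linear_combination ((g'.im : ℂ) * fderiv ℝ F (g v) Complex.I / 2) * hI
  · unfold dzb
    rw [h2, h2, h5, h6, h4]
    linear_combination ((g'.im : ℂ) * fderiv ℝ F (g v) Complex.I / 2) * hI

theorem G1_mul (F G : ℂ → ℂ) (v : ℂ) (hF : DifferentiableAt ℝ F v) (hG : DifferentiableAt ℝ G v) :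
    dz (fun w => F w * G w) v = dz F v * G v + F v * dz G v ∧
      dzb (fun w => F w * G w) v = dzb F v * G v + F v * dzb G v := by
  have h1 : fderiv ℝ (fun w => F w * G w) v = F v • fderiv ℝ G v + G v • fderiv ℝ F v :=
    fderiv_fun_mul hF hG
  constructor
  · unfold dz
    rw [h1]
    simp only [_root_.add_apply, _root_.smul_apply, smul_eq_mul]
    ring
  · unfold dzb
    rw [h1]
    simp only [_root_.add_apply, _root_.smul_apply, smul_eq_mul]
    ring

theorem G1_id (v : ℂ) : dz (fun w => w) v = 1 ∧ dzb (fun w => w) v = 0 := by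
  have h : fderiv ℝ (fun w : ℂ => w) v = ContinuousLinearMap.id ℝ ℂ := fderiv_fun_id
  constructor
  · unfold dz
    rw [h]
    simp only [ContinuousLinearMap.coe_id', id_eq]
    linear_combination (-1 / 2 : ℂ) * Complex.I_sq
  · unfold dzb
    rw [h]
    simp only [ContinuousLinearMap.coe_id', id_eq]
    linear_combination (1 / 2 : ℂ) * Complex.I_sq

theorem G1_conj (v : ℂ) : dz (fun w => (starRingEnd ℂ) w) v = 0 := by
  have h : fderiv ℝ (fun w : ℂ => (starRingEnd ℂ) w) v = (Complex.conjCLE : ℂ →L[ℝ] ℂ) :=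
    (Complex.conjCLE : ℂ →L[ℝ] ℂ).fderiv
  unfold dz
  rw [h]
  simp

-- TARGET
theorem G1 : T_G1 := by
  intro M hM σ u x b q H
  set g : ℂ → ℂ := fun v => v ^ M with hgdef
  set g' : ℂ → ℂ := fun v => M * v ^ (M - 1) with hg'def
  have hg : ∀ v, HasDerivAt g (g' v) v := fun v => hasDerivAt_pow M v
  have hgc : Continuous g := continuous_pow M
  have hg'c : Continuous g' := continuous_const.mul (continuous_pow _)
  have hgs : ∀ v, ContDiffAt ℝ 1 g v := fun v => (contDiff_id.pow M).contDiffAt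
  have hg's : ∀ v, ContDiffAt ℝ 1 g' v := fun v =>
    (contDiff_const.mul (contDiff_id.pow _)).contDiffAt
  have hg'd : ∀ v, ∃ g'' : ℂ, HasDerivAt g' g'' v := fun v =>
    ⟨_, (hasDerivAt_pow (M - 1) v).const_mul (M : ℂ)⟩
  have hconj : ContDiff ℝ 1 (fun w : ℂ => (starRingEnd ℂ) w) :=
    (Complex.conjCLE : ℂ →L[ℝ] ℂ).contDiff
  refine ⟨H.cu.comp hgc, H.cx.comp hgc, (H.cb.comp hgc).mul (Complex.continuous_conj.comp hg'c),
    (H.cq.comp hgc).mul hg'c, ?_⟩
  intro v hv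
  have hpow : (v ^ M) ^ 16 = v ^ (16 * M) := by rw [← pow_mul, mul_comm]
  have hz : (v ^ M) ^ 16 + 1 ≠ 0 := by rw [hpow]; exact hv
  have S := H.sys (v ^ M) hz
  obtain ⟨g'', hg''⟩ := hg'd v
  have one_ne : (1 : WithTop ℕ∞) ≠ 0 := one_ne_zero
  have hbd : DifferentiableAt ℝ (fun w => b (w ^ M)) v :=
    (S.db.comp v (hgs v)).differentiableAt one_ne
  have hqd : DifferentiableAt ℝ (fun w => q (w ^ M)) v :=
    (S.dq.comp v (hgs v)).differentiableAt one_ne
  have hcd : DifferentiableAt ℝ (fun w => (starRingEnd ℂ) (g' w)) v :=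
    (hconj.contDiffAt.comp v (hg's v)).differentiableAt one_ne
  have hgd : DifferentiableAt ℝ g' v := (hg's v).differentiableAt one_ne
  have hconj0 : dz (fun w => (starRingEnd ℂ) (g' w)) v = 0 := by
    have h := (G1_comp (fun w => (starRingEnd ℂ) w) g' g'' v
      (hconj.contDiffAt.differentiableAt one_ne) hg'').1
    rw [h, G1_conj, zero_mul]
  have hg0 : dzb g' v = 0 := by
    have h := (G1_comp (fun w => w) g' g'' v differentiableAt_id hg'').2
    rw [(G1_id _).2, zero_mul] at h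
    exact h
  have hA : AA M false v = v ^ (M - 1) * f1 (v ^ M) := by
    unfold AA f1
    rw [if_pos rfl, ← pow_mul, mul_comm M 2]
  have hP : PP M false v = v ^ (M - 1) * f2 (v ^ M) := by
    unfold PP f2
    rw [if_pos rfl, ← pow_add]
    congr 1
    omega
  have hW : ‖v ^ (16 * M) + 1‖ ^ (-(1 / 2) : ℝ) = W (v ^ M) := by
    unfold W
    rw [hpow]
  have hn : g' v * (starRingEnd ℂ) (g' v) = ((M ^ 2 * ‖v ^ (M - 1)‖ ^ 2 : ℝ) : ℂ) := by
    rw [Complex.mul_conj, Complex.normSq_eq_norm_sq]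
    simp only [hg'def, norm_mul, Complex.norm_natCast, mul_pow]
  have hnn : ‖g' v‖ ^ 2 = M ^ 2 * ‖v ^ (M - 1)‖ ^ 2 := by
    simp only [hg'def, norm_mul, Complex.norm_natCast, mul_pow]
  have hvv : (starRingEnd ℂ) (v ^ (M - 1)) * v ^ (M - 1) = ((‖v ^ (M - 1)‖ ^ 2 : ℝ) : ℂ) := by
    rw [mul_comm, Complex.mul_conj, Complex.normSq_eq_norm_sq]
  refine ⟨S.du.comp v (hgs v), S.dx.comp v (hgs v),
    (S.db.comp v (hgs v)).mul (hconj.contDiffAt.comp v (hg's v)),
    (S.dq.comp v (hgs v)).mul (hg's v), ?_, ?_, ?_, ?_⟩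
  · have hu : DifferentiableAt ℝ (fun w => (u w : ℂ)) (v ^ M) :=
      (Complex.ofRealCLM.contDiff.contDiffAt.comp (v ^ M) S.du).differentiableAt one_ne
    have h := (G1_comp (fun w => (u w : ℂ)) g (g' v) v hu (hg v)).1
    rw [h]
    show dz (fun w => (u w : ℂ)) (v ^ M) * g' v = _
    rw [S.eu]
  · have h := (G1_comp x g (g' v) v (S.dx.differentiableAt one_ne) (hg v)).2
    show dzb (fun w => x (g w)) v = _
    rw [h]
    show dzb x (v ^ M) * _ = _
    rw [S.ex]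
    simp only [hg'def]
    ring
  · have h := (G1_mul (fun w => b (w ^ M)) (fun w => (starRingEnd ℂ) (g' w)) v hbd hcd).1
    have h' := (G1_comp b g (g' v) v (S.db.differentiableAt one_ne) (hg v)).1
    show dz (fun w => b (w ^ M) * (starRingEnd ℂ) (g' w)) v = _
    rw [h, hconj0, mul_zero, add_zero]
    show dz (fun w => b (g w)) v * _ = _
    rw [h']
    show dz b (v ^ M) * g' v * _ = _
    rw [S.eb, mul_assoc, hn, hA, hP, hW, map_mul]
    push_cast
    have hvv' : (starRingEnd ℂ) (v ^ (M - 1)) * v ^ (M - 1) = ((‖v ^ (M - 1)‖ : ℂ)) ^ 2 := by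
      rw [hvv]; push_cast; ring
    linear_combination (-(σ : ℂ) ^ 2 * M ^ 2 * W (v ^ M) * Complex.exp (-2 * u (v ^ M)) *
      (starRingEnd ℂ) (f1 (v ^ M)) * (f2 (v ^ M) + 2 * f1 (v ^ M) * x (v ^ M))) * hvv'
  · have h := (G1_mul (fun w => q (w ^ M)) g' v hqd hgd).2
    have h' := (G1_comp q g (g' v) v (S.dq.differentiableAt one_ne) (hg v)).2
    show dzb (fun w => q (w ^ M) * g' w) v = _
    rw [h, hg0, mul_zero, add_zero]
    show dzb (fun w => q (g w)) v * _ = _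
    rw [h']
    show dzb q (v ^ M) * (starRingEnd ℂ) (g' v) * g' v = _
    rw [S.eq, mul_assoc, mul_comm ((starRingEnd ℂ) (g' v)) (g' v), hn, hA, hP, hW]
    have hB : ‖b (v ^ M) * (starRingEnd ℂ) (g' v)‖ ^ 2 =
        ‖b (v ^ M)‖ ^ 2 * (M ^ 2 * ‖v ^ (M - 1)‖ ^ 2) := by
      rw [norm_mul, mul_pow, Complex.norm_conj, hnn]
    have hC : ‖v ^ (M - 1) * f2 (v ^ M) + 2 * (v ^ (M - 1) * f1 (v ^ M)) * x (v ^ M)‖ ^ 2 =
        ‖v ^ (M - 1)‖ ^ 2 * ‖f2 (v ^ M) + 2 * f1 (v ^ M) * x (v ^ M)‖ ^ 2 := by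
      rw [← mul_pow, ← norm_mul]
      congr 2
      ring
    have hD : ‖v ^ (M - 1) * f1 (v ^ M)‖ ^ 2 = ‖v ^ (M - 1)‖ ^ 2 * ‖f1 (v ^ M)‖ ^ 2 := by
      rw [norm_mul, mul_pow]
    show _ = -((‖b (v ^ M) * (starRingEnd ℂ) (g' v)‖ ^ 2 * Real.exp (u (v ^ M)) +
      ((M : ℝ) * σ) ^ 2 * W (v ^ M) * (‖v ^ (M - 1) * f1 (v ^ M)‖ ^ 2 * Real.exp (-u (v ^ M)) +
      ‖v ^ (M - 1) * f2 (v ^ M) + 2 * (v ^ (M - 1) * f1 (v ^ M)) * x (v ^ M)‖ ^ 2 *
        Real.exp (-2 * u (v ^ M))) : ℝ) : ℂ)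
    rw [hB, hC, hD, ← Complex.ofReal_neg, ← Complex.ofReal_neg, ← Complex.ofReal_mul]
    congr 1
    ring

end Pool.Agent.Helper614.HE.P_G1
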