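import Pool.Agent.Helper614.HE.SpecC
set_option autoImplicit false

open scoped Manifold ContDiff Matrix ComplexOrder
open Matrix Topology MeasureTheory Set Filter

namespace Pool.Agent.Helper614.HE.P_LIP2

open Pool.Agent.Helper614.HE



/-
PROOF OF THE TARGET IN WORDS
delta >= 0 (it bounds |w 0 - w' 0|). bF - bF' = Cb(G) - Cb(G') = Cb(G - G') (the integrals converge: |G| <= K Om/rho <= K Om, KE with s = 1 and |conj z - conj w| = |z-w|), G-G' is odd, measurable and <= K delta Om/rho, so DEC1 with c = K delta gives |b-b'| <= K' delta/rho. |NF-NF'| <= int |n-n'| <= K delta int Om/rho (WI; PT2 for integrability).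
| |b|^2 e^u - |b'|^2 e^{u'} | <= |b-b'| (|b|+|b'|) e^u + |b'|^2 |e^u - e^{u'}| <= C delta rho^{-2} <= C delta Om/rho (OM), so |BF-BF'| <= C delta. |aF - aF'| <= C delta by AQ (with the bounds for NF, BF from PT2).
QF - QF' = kappa (a^2-a'^2) |b|^2 e^u + kappa a'^2 (|b|^2 e^u - |b'|^2 e^{u'}) + (a-a') n + a' (n-n'), every term is <= C delta Om/rho (|a|,|a'| <= K, n <= K Om/rho, |b|^2 e^u <= C rho^{-2} <= C Om/rho).
-/
theorem LIP2_mono {c K δ X : ℝ} (hcK : c ≤ K) (hδ : 0 ≤ δ) (hX : 0 ≤ X) :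
    c * δ * X ≤ K * δ * X := by gcongr

theorem LIP2_sq {a b c d : ℝ} (h1 : |a - b| ≤ c) (ha : 0 ≤ a) (hb : 0 ≤ b) (ha' : a ≤ d)
    (hb' : b ≤ d) : |a ^ 2 - b ^ 2| ≤ c * (2 * d) := by
  have e1 : a ^ 2 - b ^ 2 = (a - b) * (a + b) := by ring
  rw [e1, abs_mul, abs_of_nonneg (add_nonneg ha hb)]
  have hc : 0 ≤ c := (abs_nonneg _).trans h1
  apply mul_le_mul h1 (by linarith) (add_nonneg ha hb) hc

-- TARGET
theorem LIP2 (hOM : T_OM) (hPT1 : T_PT1) (hPT2 : T_PT2) (hLIP1 : T_LIP1) (hDEC1 : T_DEC1) (hKE : T_KE) (hWI : T_WI) (hAQ : T_AQ) : T_LIP2 := by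
  obtain ⟨K1, hK1, h1⟩ := hPT1
  obtain ⟨K2, hK2, h2⟩ := hPT2
  obtain ⟨K3, hK3, h3⟩ := hLIP1
  obtain ⟨K4, hK4, h4⟩ := hDEC1
  obtain ⟨K5, hK5, h5⟩ := hKE
  obtain ⟨K6, hK6, h6⟩ := hAQ (max K2 1) (le_max_right _ _)
  obtain ⟨-, -, -, hOmpos, -, -, -, -, -, -, -, hOm2⟩ := hOM
  obtain ⟨hIint, -, -, -, -⟩ := hWI
  obtain ⟨I, hI⟩ : ∃ I : ℝ, I = ∫ z : ℂ, Om z / (1 + ‖z‖ ^ 2) := ⟨_, rfl⟩
  have hρ : ∀ z : ℂ, 0 < 1 + ‖z‖ ^ 2 := fun z => by positivity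
  have hρ1 : ∀ z : ℂ, 1 ≤ 1 + ‖z‖ ^ 2 := fun z => by
    have := sq_nonneg ‖z‖; linarith
  have ht : ∀ z : ℂ, 0 ≤ Om z / (1 + ‖z‖ ^ 2) := fun z => (div_pos (hOmpos z) (hρ z)).le
  have hI0 : 0 ≤ I := by rw [hI]; exact integral_nonneg ht
  obtain ⟨Kb, hKb⟩ : ∃ Kb : ℝ, Kb = K4 * K3 := ⟨_, rfl⟩
  obtain ⟨C3, hC3⟩ : ∃ C3 : ℝ, C3 = 2 * Kb * K2 * K1 + K2 ^ 2 * K3 := ⟨_, rfl⟩
  obtain ⟨Ca, hCa⟩ : ∃ Ca : ℝ, Ca = K6 * (K3 * I + C3 * I) := ⟨_, rfl⟩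
  obtain ⟨CQ, hCQ⟩ : ∃ CQ : ℝ, CQ = Ca * (2 * K2) * (K2 ^ 2 * K1) + K2 ^ 2 * C3 + Ca * K1 +
    K2 * K3 := ⟨_, rfl⟩
  have hKb0 : 0 < Kb := by rw [hKb]; positivity
  have hC30 : 0 < C3 := by rw [hC3]; positivity
  have hCa0 : 0 ≤ Ca := by rw [hCa]; positivity
  have hCQ0 : 0 < CQ := by rw [hCQ]; positivity
  refine ⟨Kb + K3 * I + C3 * I + Ca + CQ + 1, by positivity, ?_⟩
  have hk1 : 0 ≤ K3 * I := by positivity
  have hk2 : 0 ≤ C3 * I := by positivity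
  intro τ hτ κ hκ w w' x x' hB hB' δ hw hx
  have hδ : 0 ≤ δ := (abs_nonneg _).trans (hw 0)
  obtain ⟨-, -, p3, -, -, -, -, -, -, p10, p11, p12, p13, p14, -, -⟩ := h1 τ hτ κ hκ w x hB
  obtain ⟨-, -, p3', -, -, -, -, -, -, p10', p11', p12', p13', p14', -, -⟩ :=
    h1 τ hτ κ hκ w' x' hB'
  obtain ⟨q1, -, -, q4, q5, q6, q7, q8, q9, q10, q11, -, -, -, -, -⟩ := h2 τ hτ κ hκ w x hB
  obtain ⟨q1', -, -, q4', q5', q6', q7', q8', q9', q10', q11', -, -, -, -, -⟩ :=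
    h2 τ hτ κ hκ w' x' hB'
  obtain ⟨l1, l2, l3⟩ := h3 τ hτ κ hκ w w' x x' hB hB' δ hw hx
  -- integrability of the Cauchy kernels
  have hint : ∀ (G : ℂ → ℂ), Measurable G → (∀ v, ‖G v‖ ≤ K1 * (Om v / (1 + ‖v‖ ^ 2))) →
      ∀ z : ℂ, Integrable (fun v => G v / ((starRingEnd ℂ) z - (starRingEnd ℂ) v)) := by
    intro G hG hGb z
    have hk := ((h5 z 1 ⟨by norm_num, by norm_num⟩).1).const_mul K1
    refine hk.mono' ?_ (Filter.Eventually.of_forall fun v => ?_)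
    · apply Measurable.aestronglyMeasurable
      apply hG.div
      exact measurable_const.sub (Complex.continuous_conj.measurable)
    · rw [norm_div, ← map_sub, RCLike.norm_conj, Real.rpow_neg_one, div_eq_mul_inv]
      have e1 : Om v / (1 + ‖v‖ ^ 2) ≤ Om v := div_le_self (hOmpos v).le (hρ1 v)
      have e2 : 0 ≤ ‖z - v‖⁻¹ := by positivity
      calc ‖G v‖ * ‖z - v‖⁻¹ ≤ (K1 * (Om v / (1 + ‖v‖ ^ 2))) * ‖z - v‖⁻¹ :=
            mul_le_mul_of_nonneg_right (hGb v) e2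
        _ ≤ (K1 * Om v) * ‖z - v‖⁻¹ := by gcongr
        _ = K1 * (Om v * ‖z - v‖⁻¹) := by ring
  -- the transforms
  have hb : ∀ z, ‖bF τ κ w x z - bF τ κ w' x' z‖ ≤ Kb * δ / (1 + ‖z‖ ^ 2) := by
    intro z
    have e1 : bF τ κ w x z - bF τ κ w' x' z =
        Cb (fun v => GF τ κ w x v - GF τ κ w' x' v) z := by
      unfold bF Cb
      have e2 : ∀ v, (GF τ κ w x v - GF τ κ w' x' v) / ((starRingEnd ℂ) z - (starRingEnd ℂ) v) =
          GF τ κ w x v / ((starRingEnd ℂ) z - (starRingEnd ℂ) v) -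
            GF τ κ w' x' v / ((starRingEnd ℂ) z - (starRingEnd ℂ) v) := fun v => sub_div _ _ _
      simp_rw [e2]
      rw [integral_sub (hint _ p11 p10 z) (hint _ p11' p10' z), mul_sub]
    rw [e1]
    have e3 := (h4 (fun v => GF τ κ w x v - GF τ κ w' x' v) (K3 * δ) (p11.sub p11')
      (by positivity) l2 (fun v => by rw [p12, p12']; ring)).1 z
    refine e3.trans (le_of_eq ?_)
    rw [hKb]; ring
  -- the integrals of `n`
  have hN : |NF τ κ w x - NF τ κ w' x'| ≤ K3 * I * δ := by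
    unfold NF
    rw [← integral_sub q4 q4']
    calc |∫ z, (nF τ κ w x z - nF τ κ w' x' z)| = ‖∫ z, (nF τ κ w x z - nF τ κ w' x' z)‖ :=
          (Real.norm_eq_abs _).symm
      _ ≤ ∫ z, K3 * δ * (Om z / (1 + ‖z‖ ^ 2)) := by
          apply norm_integral_le_of_norm_le (hIint.const_mul _)
          exact Filter.Eventually.of_forall fun z => by
            rw [Real.norm_eq_abs]; exact l3 z
      _ = K3 * I * δ := by rw [integral_const_mul, ← hI]; ring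
  -- the functions `|b|^2 e^u`
  have hg : ∀ z, |‖bF τ κ w x z‖ ^ 2 * Real.exp (uF κ w z) -
      ‖bF τ κ w' x' z‖ ^ 2 * Real.exp (uF κ w' z)| ≤ C3 * δ * (Om z / (1 + ‖z‖ ^ 2)) := by
    intro z
    have hr := hρ z
    have hrn := (hρ z).ne'
    have e1 : |‖bF τ κ w x z‖ - ‖bF τ κ w' x' z‖| ≤ Kb * δ / (1 + ‖z‖ ^ 2) :=
      (abs_norm_sub_norm_le _ _).trans (hb z)
    have e2 := LIP2_sq e1 (norm_nonneg _) (norm_nonneg _) (q1 z) (q1' z)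
    have e3 : ‖bF τ κ w' x' z‖ ^ 2 ≤ (K2 / (1 + ‖z‖ ^ 2)) ^ 2 :=
      pow_le_pow_left₀ (norm_nonneg _) (q1' z) 2
    have e4 := l1 z
    have e5 := p3 z
    have e6 := (Real.exp_pos (uF κ w z)).le
    have e7 : ‖bF τ κ w x z‖ ^ 2 * Real.exp (uF κ w z) -
        ‖bF τ κ w' x' z‖ ^ 2 * Real.exp (uF κ w' z) =
        (‖bF τ κ w x z‖ ^ 2 - ‖bF τ κ w' x' z‖ ^ 2) * Real.exp (uF κ w z) +
        ‖bF τ κ w' x' z‖ ^ 2 * (Real.exp (uF κ w z) - Real.exp (uF κ w' z)) := by ring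
    rw [e7]
    calc |(‖bF τ κ w x z‖ ^ 2 - ‖bF τ κ w' x' z‖ ^ 2) * Real.exp (uF κ w z) +
        ‖bF τ κ w' x' z‖ ^ 2 * (Real.exp (uF κ w z) - Real.exp (uF κ w' z))|
        ≤ |‖bF τ κ w x z‖ ^ 2 - ‖bF τ κ w' x' z‖ ^ 2| * Real.exp (uF κ w z) +
          ‖bF τ κ w' x' z‖ ^ 2 * |Real.exp (uF κ w z) - Real.exp (uF κ w' z)| := by
          refine (abs_add_le _ _).trans (le_of_eq ?_)
          rw [abs_mul, abs_mul, abs_of_nonneg e6, abs_of_nonneg (sq_nonneg ‖bF τ κ w' x' z‖)]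
      _ ≤ (Kb * δ / (1 + ‖z‖ ^ 2) * (2 * (K2 / (1 + ‖z‖ ^ 2)))) * K1 +
          (K2 / (1 + ‖z‖ ^ 2)) ^ 2 * (K3 * δ) := by
          apply add_le_add
          · exact mul_le_mul e2 e5 e6 (by positivity)
          · exact mul_le_mul e3 e4 (abs_nonneg _) (by positivity)
      _ = C3 * δ * ((1 + ‖z‖ ^ 2) ^ 2)⁻¹ := by rw [hC3]; field_simp
      _ ≤ C3 * δ * (Om z / (1 + ‖z‖ ^ 2)) := by
          apply mul_le_mul_of_nonneg_left (hOm2 z) (by positivity)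
  have hB3 : |BF τ κ w x - BF τ κ w' x'| ≤ C3 * I * δ := by
    unfold BF
    rw [← integral_sub q5 q5']
    calc _ = ‖∫ z, (‖bF τ κ w x z‖ ^ 2 * Real.exp (uF κ w z) -
          ‖bF τ κ w' x' z‖ ^ 2 * Real.exp (uF κ w' z))‖ := (Real.norm_eq_abs _).symm
      _ ≤ ∫ z, C3 * δ * (Om z / (1 + ‖z‖ ^ 2)) := by
          apply norm_integral_le_of_norm_le (hIint.const_mul _)
          exact Filter.Eventually.of_forall fun z => by
            rw [Real.norm_eq_abs]; exact hg z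
      _ = C3 * I * δ := by rw [integral_const_mul, ← hI]; ring
  -- the roots
  have hK2m : (max K2 1)⁻¹ ≤ K2⁻¹ := inv_anti₀ hK2 (le_max_left _ _)
  have hmm : K2 ≤ max K2 1 := le_max_left _ _
  have ha : |aF τ κ w x - aF τ κ w' x'| ≤ Ca * δ := by
    have e1 := (h6 κ hκ (NF τ κ w x) ⟨hK2m.trans q6, q7.trans hmm⟩ (BF τ κ w x)
      ⟨q8, q9.trans hmm⟩ (NF τ κ w' x') ⟨hK2m.trans q6', q7'.trans hmm⟩ (BF τ κ w' x')
      ⟨q8', q9'.trans hmm⟩ (aF τ κ w x) (aF τ κ w' x') rfl rfl).2.2.2.1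
    calc |aF τ κ w x - aF τ κ w' x'| ≤ K6 * (K3 * I * δ + C3 * I * δ) :=
          e1.trans (mul_le_mul_of_nonneg_left (add_le_add hN hB3) hK6.le)
      _ = Ca * δ := by rw [hCa]; ring
  -- the densities
  have hQ : ∀ z, |QF τ κ w x z - QF τ κ w' x' z| ≤ CQ * δ * (Om z / (1 + ‖z‖ ^ 2)) := by
    intro z
    obtain ⟨X, hX⟩ : ∃ X : ℝ, X = Om z / (1 + ‖z‖ ^ 2) := ⟨_, rfl⟩
    have hX0 : 0 ≤ X := by rw [hX]; exact ht z
    obtain ⟨g, hgd⟩ : ∃ g : ℝ, g = ‖bF τ κ w x z‖ ^ 2 * Real.exp (uF κ w z) := ⟨_, rfl⟩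
    obtain ⟨g', hgd'⟩ : ∃ g' : ℝ, g' = ‖bF τ κ w' x' z‖ ^ 2 * Real.exp (uF κ w' z) := ⟨_, rfl⟩
    have hg1 : |g - g'| ≤ C3 * δ * X := by rw [hgd, hgd', hX]; exact hg z
    have hg0 : 0 ≤ g := by rw [hgd]; positivity
    have hg2 : g ≤ K2 ^ 2 * K1 * X := by
      have hr := hρ z
      calc g ≤ (K2 / (1 + ‖z‖ ^ 2)) ^ 2 * K1 := by
            rw [hgd]
            exact mul_le_mul (pow_le_pow_left₀ (norm_nonneg _) (q1 z) 2) (p3 z)
              (Real.exp_pos _).le (by positivity)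
        _ = K2 ^ 2 * K1 * ((1 + ‖z‖ ^ 2) ^ 2)⁻¹ := by field_simp
        _ ≤ K2 ^ 2 * K1 * X := by
            rw [hX]; exact mul_le_mul_of_nonneg_left (hOm2 z) (by positivity)
    obtain ⟨hn0, hn1⟩ := p13 z
    have hn2 := l3 z
    rw [← hX] at hn1 hn2 ⊢
    have ha0 : 0 ≤ aF τ κ w x := (inv_pos.2 hK2).le.trans q10
    have ha0' : 0 ≤ aF τ κ w' x' := (inv_pos.2 hK2).le.trans q10'
    have haa := LIP2_sq ha ha0 ha0' q11 q11'
    have hκ0 : 0 ≤ κ := hκ.1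
    have hκ1 : κ ≤ 1 := hκ.2.trans (by norm_num)
    have e7 : QF τ κ w x z - QF τ κ w' x' z =
        κ * ((aF τ κ w x ^ 2 - aF τ κ w' x' ^ 2) * g) + κ * (aF τ κ w' x' ^ 2 * (g - g')) +
        (aF τ κ w x - aF τ κ w' x') * nF τ κ w x z +
        aF τ κ w' x' * (nF τ κ w x z - nF τ κ w' x' z) := by
      unfold QF
      rw [← hgd, ← hgd']
      ring
    rw [e7]
    have t1 : |κ * ((aF τ κ w x ^ 2 - aF τ κ w' x' ^ 2) * g)| ≤
        (Ca * δ * (2 * K2)) * (K2 ^ 2 * K1 * X) := by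
      rw [abs_mul, abs_mul, abs_of_nonneg hκ0, abs_of_nonneg hg0]
      have : |aF τ κ w x ^ 2 - aF τ κ w' x' ^ 2| * g ≤
          (Ca * δ * (2 * K2)) * (K2 ^ 2 * K1 * X) := mul_le_mul haa hg2 hg0 (by positivity)
      calc κ * (|aF τ κ w x ^ 2 - aF τ κ w' x' ^ 2| * g) ≤
            1 * (|aF τ κ w x ^ 2 - aF τ κ w' x' ^ 2| * g) :=
            mul_le_mul_of_nonneg_right hκ1 (by positivity)
        _ ≤ _ := by rw [one_mul]; exact this
    have t2 : |κ * (aF τ κ w' x' ^ 2 * (g - g'))| ≤ K2 ^ 2 * (C3 * δ * X) := by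
      rw [abs_mul, abs_mul, abs_of_nonneg hκ0, abs_of_nonneg (sq_nonneg _)]
      have : aF τ κ w' x' ^ 2 * |g - g'| ≤ K2 ^ 2 * (C3 * δ * X) :=
        mul_le_mul (pow_le_pow_left₀ ha0' q11' 2) hg1 (abs_nonneg _) (by positivity)
      calc κ * (aF τ κ w' x' ^ 2 * |g - g'|) ≤ 1 * (aF τ κ w' x' ^ 2 * |g - g'|) :=
            mul_le_mul_of_nonneg_right hκ1 (by positivity)
        _ ≤ _ := by rw [one_mul]; exact this
    have t3 : |(aF τ κ w x - aF τ κ w' x') * nF τ κ w x z| ≤ (Ca * δ) * (K1 * X) := by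
      rw [abs_mul, abs_of_nonneg hn0]
      exact mul_le_mul ha hn1 hn0 (by positivity)
    have t4 : |aF τ κ w' x' * (nF τ κ w x z - nF τ κ w' x' z)| ≤ K2 * (K3 * δ * X) := by
      rw [abs_mul, abs_of_nonneg ha0']
      exact mul_le_mul q11' hn2 (abs_nonneg _) hK2.le
    calc _ ≤ |κ * ((aF τ κ w x ^ 2 - aF τ κ w' x' ^ 2) * g)| +
          |κ * (aF τ κ w' x' ^ 2 * (g - g'))| +
          |(aF τ κ w x - aF τ κ w' x') * nF τ κ w x z| +
          |aF τ κ w' x' * (nF τ κ w x z - nF τ κ w' x' z)| :=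
          (abs_add_le _ _).trans (add_le_add ((abs_add_le _ _).trans
            (add_le_add (abs_add_le _ _) le_rfl)) le_rfl)
      _ ≤ (Ca * δ * (2 * K2)) * (K2 ^ 2 * K1 * X) + K2 ^ 2 * (C3 * δ * X) +
          (Ca * δ) * (K1 * X) + K2 * (K3 * δ * X) :=
          add_le_add (add_le_add (add_le_add t1 t2) t3) t4
      _ = CQ * δ * X := by rw [hCQ]; ring
  refine ⟨fun z => ?_, ?_, ?_, ?_, fun z => ?_⟩
  · refine (hb z).trans ?_
    rw [div_eq_mul_inv, div_eq_mul_inv]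
    exact LIP2_mono (by linarith) hδ (inv_pos.2 (hρ z)).le
  · have := LIP2_mono (c := K3 * I) (K := Kb + K3 * I + C3 * I + Ca + CQ + 1) (X := 1)
      (by linarith) hδ zero_le_one
    rw [mul_one, mul_one] at this
    exact hN.trans this
  · have := LIP2_mono (c := C3 * I) (K := Kb + K3 * I + C3 * I + Ca + CQ + 1) (X := 1)
      (by linarith) hδ zero_le_one
    rw [mul_one, mul_one] at this
    exact hB3.trans this
  · have := LIP2_mono (c := Ca) (K := Kb + K3 * I + C3 * I + Ca + CQ + 1) (X := 1)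
      (by linarith) hδ zero_le_one
    rw [mul_one, mul_one] at this
    exact ha.trans this
  · exact (hQ z).trans (LIP2_mono (by linarith) hδ (ht z))

end Pool.Agent.Helper614.HE.P_LIP2
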