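import Pool.Agent.Helper614.HE.SpecC
set_option autoImplicit false

open scoped Manifold ContDiff Matrix ComplexOrder
open Matrix Topology MeasureTheory Set Filter

namespace Pool.Agent.Helper614.HE.P_LOG2

open Pool.Agent.Helper614.HE



/-
PROOF OF THE TARGET IN WORDS
F(z) = int log|z-w|^2 Q(w) dw, G(z) = Ct Q (z) (continuous by hypothesis), pi G(z) = int Q(w)/(z-w) dw. Claim: for all z, h
  F(z+h) - F(z) = int_0^1 2 Re(h pi G(z + t h)) dt.   (*)
For w not on the segment [z, z+h] (the segment has measure zero in the plane; e.g. it is contained in the range of a line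
map, a proper affine subspace, MeasureTheory.Measure.addHaar_affineSubspace) the function t -> log|z+th-w|^2 is C^1 on [0,1] with
derivative 2 Re(h/(z+th-w)), so log|z+h-w|^2 - log|z-w|^2 = int_0^1 2 Re(h/(z+th-w)) dt (integral_eq_sub_of_hasDerivAt).
Multiply by Q(w), integrate over w and exchange the integrals (Fubini: the function (w,t) -> Q(w) Re(h/(z+th-w)) is measurable and
int_0^1 int |Q(w)| |h| / |z+th-w| dw dt <= K |h| by the hypothesis on K; use integrable_prod_iff' or integral_integral_swap with Integrable on the product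
measure). Taking the real part inside the integral gives (*).
From (*) and continuity of G: F has at z the Frechet derivative D(z) : h -> 2 Re(h pi G(z)) (the integrand is within epsilon |h| of its value at t = 0
for small h), and D is continuous in z, so F is C^1 (contDiff_one_iff_fderiv or contDiff_one_iff_hasFDerivAt). With c = pi G(z):
dz F(z) = (D(1) - i D(i))/2 = (2 Re c - i * 2 Re(i c))/2 = Re c + i Im c = c, where fderiv of the complex valued function (F : C) is D composed with the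
inclusion of R in C (ofRealCLM).
-/
lemma LOG2_null (z h : ℂ) : ∀ᵐ w : ℂ, ∀ t : ℝ, z + t * h - w ≠ 0 := by
  have hs : AffineSubspace.mk' z (Submodule.span ℝ ({h} : Set ℂ)) ≠ ⊤ := by
    intro he
    have h1 : Submodule.span ℝ ({h} : Set ℂ) = ⊤ := by
      rw [← AffineSubspace.direction_mk' z (Submodule.span ℝ ({h} : Set ℂ)), he,
        AffineSubspace.direction_top]
    have h2 : Module.finrank ℝ (Submodule.span ℝ ({h} : Set ℂ)) ≤ 1 :=
      (finrank_span_le_card ({h} : Set ℂ)).trans (by simp)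
    rw [h1, finrank_top, Complex.finrank_real_complex] at h2
    omega
  have h0 := Measure.addHaar_affineSubspace (volume : Measure ℂ) _ hs
  rw [ae_iff]
  refine measure_mono_null ?_ h0
  intro w hw
  simp only [Set.mem_ofPred_eq, not_forall, not_not] at hw
  obtain ⟨t, ht⟩ := hw
  have hw' : w = z + t * h := (sub_eq_zero.1 ht).symm
  show w ∈ AffineSubspace.mk' z (Submodule.span ℝ ({h} : Set ℂ))
  rw [AffineSubspace.mem_mk', vsub_eq_sub, hw', Submodule.mem_span_singleton]
  exact ⟨t, by rw [Complex.real_smul]; ring⟩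

lemma LOG2_ftc (z h w : ℂ) (hw : ∀ t : ℝ, z + t * h - w ≠ 0) :
    Real.log (‖z + h - w‖ ^ 2) - Real.log (‖z - w‖ ^ 2) =
      ∫ t in (0 : ℝ)..1, 2 * (h / (z + t * h - w)).re := by
  have hd : ∀ t : ℝ, HasDerivAt (fun t : ℝ => z + t * h - w) h t := by
    intro t
    have h1 : HasDerivAt (fun t : ℝ => (t : ℂ)) 1 t := Complex.ofRealCLM.hasDerivAt
    simpa using ((h1.mul_const h).const_add z).sub_const w
  have hF : ∀ t : ℝ, HasDerivAt (fun t : ℝ => Real.log (‖z + t * h - w‖ ^ 2))
      (2 * (h / (z + t * h - w)).re) t := by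
    intro t
    have h1 := (hd t).norm_sq
    have h2 : ‖z + t * h - w‖ ^ 2 ≠ 0 := by
      have := hw t
      positivity
    have h3 := h1.log h2
    convert h3 using 1
    rw [Complex.inner, Complex.div_re, ← Complex.normSq_eq_norm_sq, Complex.mul_re,
      Complex.conj_re, Complex.conj_im]
    ring
  have hc : Continuous (fun t : ℝ => 2 * (h / (z + t * h - w)).re) := by
    have h1 : Continuous (fun t : ℝ => z + t * h - w) := by fun_prop
    have h2 : Continuous (fun t : ℝ => h / (z + t * h - w)) := continuous_const.div h1 hw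
    exact continuous_const.mul (Complex.continuous_re.comp h2)
  have := intervalIntegral.integral_eq_sub_of_hasDerivAt (a := 0) (b := 1)
    (fun t _ => hF t) (hc.intervalIntegrable 0 1)
  rw [this]
  simp

lemma LOG2_int (Q : ℂ → ℝ) (hQ : Measurable Q)
    (hI : ∀ z, Integrable (fun w => (Q w : ℂ) / (z - w)))
    (K : ℝ) (hK : ∀ z, (∫ w, |Q w| / ‖z - w‖) ≤ K) (z h : ℂ) :
    Integrable (fun q : ℂ × ℝ => 2 * (h / (z + q.2 * h - q.1)).re * Q q.1)
      ((volume : Measure ℂ).prod (volume.restrict (Ioc (0 : ℝ) 1))) := by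
  have hm : Measurable (fun q : ℂ × ℝ => 2 * (h / (z + q.2 * h - q.1)).re * Q q.1) := by
    have h1 : Measurable (fun q : ℂ × ℝ => h / (z + q.2 * h - q.1)) := by fun_prop
    have h2 : Measurable (fun q : ℂ × ℝ => Q q.1) := hQ.comp measurable_fst
    exact (measurable_const.mul (Complex.measurable_re.comp h1)).mul h2
  have hb : ∀ (t : ℝ) (w : ℂ), ‖2 * (h / (z + t * h - w)).re * Q w‖ ≤
      2 * ‖h‖ * (|Q w| / ‖z + t * h - w‖) := by
    intro t w
    rw [norm_mul, norm_mul, Real.norm_eq_abs, Real.norm_eq_abs, Real.norm_eq_abs, abs_two]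
    have h1 : |(h / (z + t * h - w)).re| ≤ ‖h‖ / ‖z + t * h - w‖ := by
      rw [← norm_div]; exact Complex.abs_re_le_norm _
    calc 2 * |(h / (z + t * h - w)).re| * |Q w|
        ≤ 2 * (‖h‖ / ‖z + t * h - w‖) * |Q w| := by gcongr
      _ = _ := by ring
  have hI' : ∀ z, Integrable (fun w => |Q w| / ‖z - w‖) := by
    intro z
    have := (hI z).norm
    simpa [norm_div] using this
  rw [integrable_prod_iff' hm.aestronglyMeasurable]
  have hint : ∀ t : ℝ, Integrable (fun w => 2 * (h / (z + t * h - w)).re * Q w) := by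
    intro t
    refine ((hI' (z + t * h)).const_mul (2 * ‖h‖)).mono' ?_ (Eventually.of_forall (hb t))
    exact (hm.comp (measurable_id.prodMk measurable_const)).aestronglyMeasurable
  refine ⟨Eventually.of_forall hint, ?_⟩
  have hm2 : AEStronglyMeasurable (fun y : ℝ => ∫ x, ‖(fun q : ℂ × ℝ =>
      2 * (h / (z + q.2 * h - q.1)).re * Q q.1) (x, y)‖) (volume.restrict (Ioc (0 : ℝ) 1)) := by
    have h1 : StronglyMeasurable (fun q : ℝ × ℂ => ‖2 * (h / (z + q.1 * h - q.2)).re * Q q.2‖) :=
      ((hm.comp measurable_swap).norm).stronglyMeasurable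
    exact (h1.integral_prod_right' (ν := (volume : Measure ℂ))).aestronglyMeasurable
  refine Integrable.of_bound hm2 (2 * ‖h‖ * K) (Eventually.of_forall fun t => ?_)
  rw [Real.norm_eq_abs, abs_of_nonneg (integral_nonneg fun _ => norm_nonneg _)]
  calc (∫ x, ‖2 * (h / (z + t * h - x)).re * Q x‖)
      ≤ ∫ x, 2 * ‖h‖ * (|Q x| / ‖z + t * h - x‖) :=
        integral_mono (hint t).norm ((hI' (z + t * h)).const_mul _) (hb t)
    _ = 2 * ‖h‖ * ∫ x, |Q x| / ‖z + t * h - x‖ := integral_const_mul _ _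
    _ ≤ _ := by
      have := hK (z + t * h)
      gcongr

lemma LOG2_star (Q : ℂ → ℝ) (hQ : Measurable Q)
    (hI : ∀ z, Integrable (fun w => (Q w : ℂ) / (z - w)))
    (hL : ∀ z, Integrable (fun w => Real.log (‖z - w‖ ^ 2) * Q w))
    (K : ℝ) (hK : ∀ z, (∫ w, |Q w| / ‖z - w‖) ≤ K) (z h : ℂ) :
    (∫ w, Real.log (‖z + h - w‖ ^ 2) * Q w) - (∫ w, Real.log (‖z - w‖ ^ 2) * Q w) =
      ∫ t in (0 : ℝ)..1, 2 * (h * ∫ w, (Q w : ℂ) / (z + t * h - w)).re := by
  rw [← integral_sub (hL (z + h)) (hL z)]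
  have h1 : (∫ w, (Real.log (‖z + h - w‖ ^ 2) * Q w - Real.log (‖z - w‖ ^ 2) * Q w)) =
      ∫ w, ∫ t in Ioc (0 : ℝ) 1, 2 * (h / (z + t * h - w)).re * Q w := by
    apply integral_congr_ae
    filter_upwards [LOG2_null z h] with w hw
    rw [← sub_mul, LOG2_ftc z h w hw, ← intervalIntegral.integral_mul_const,
      intervalIntegral.integral_of_le zero_le_one]
  rw [h1, integral_integral_swap (LOG2_int Q hQ hI K hK z h),
    intervalIntegral.integral_of_le zero_le_one]
  refine integral_congr_ae (Eventually.of_forall fun t => ?_)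
  have h2 := (hI (z + t * h)).const_mul h
  have h3 := Complex.reCLM.integral_comp_comm h2
  simp only [Complex.reCLM_apply] at h3
  show (∫ w, 2 * (h / (z + t * h - w)).re * Q w) = 2 * (h * ∫ w, (Q w : ℂ) / (z + t * h - w)).re
  rw [← integral_const_mul, ← h3, ← integral_const_mul]
  congr 1
  funext w
  have h4 : h * ((Q w : ℂ) / (z + t * h - w)) = (Q w : ℝ) • (h / (z + t * h - w)) := by
    rw [Complex.real_smul]; ring
  rw [h4, Complex.smul_re, smul_eq_mul]
  ring

lemma LOG2_deriv (F : ℂ → ℝ) (G : ℂ → ℂ) (hG : Continuous G)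
    (h : ∀ z h, F (z + h) - F z = ∫ t in (0 : ℝ)..1, 2 * (h * G (z + t * h)).re) (z : ℂ) :
    HasFDerivAt F ((2 : ℝ) • Complex.reCLM.comp (ContinuousLinearMap.mul ℝ ℂ (G z))) z := by
  rw [hasFDerivAt_iff_isLittleO_nhds_zero, Asymptotics.isLittleO_iff]
  intro c hc
  have h1 : ∀ᶠ y in 𝓝 z, dist (G y) (G z) < c / 2 :=
    (Metric.tendsto_nhds.1 (hG.tendsto z)) (c / 2) (by positivity)
  obtain ⟨δ, hδ, hδ'⟩ := Metric.eventually_nhds_iff.1 h1
  filter_upwards [Metric.ball_mem_nhds (0 : ℂ) hδ] with v hv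
  rw [mem_ball_zero_iff] at hv
  have hcont : Continuous (fun t : ℝ => 2 * (v * G (z + t * v)).re) := by fun_prop
  have h2 : F (z + v) - F z - ((2 : ℝ) • Complex.reCLM.comp (ContinuousLinearMap.mul ℝ ℂ (G z))) v =
      ∫ t in (0 : ℝ)..1, 2 * (v * (G (z + t * v) - G z)).re := by
    have h3 : ((2 : ℝ) • Complex.reCLM.comp (ContinuousLinearMap.mul ℝ ℂ (G z))) v =
        ∫ t in (0 : ℝ)..1, 2 * (v * G z).re := by
      rw [intervalIntegral.integral_const]
      simp [mul_comm]
    rw [h, h3, ← intervalIntegral.integral_sub (hcont.intervalIntegrable 0 1)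
      (continuous_const.intervalIntegrable 0 1)]
    congr 1
    funext t
    rw [mul_sub v, Complex.sub_re]
    ring
  rw [h2]
  have h4 := intervalIntegral.norm_integral_le_of_norm_le_const (a := (0 : ℝ)) (b := 1)
    (f := fun t : ℝ => 2 * (v * (G (z + t * v) - G z)).re) (C := c * ‖v‖) ?_
  · simpa using h4
  · intro t ht
    rw [Set.uIoc_of_le zero_le_one] at ht
    have h5 : dist (z + t * v) z < δ := by
      rw [dist_eq_norm, add_sub_cancel_left, norm_mul, Complex.norm_real, Real.norm_eq_abs,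
        abs_of_pos ht.1]
      calc t * ‖v‖ ≤ 1 * ‖v‖ := by gcongr; exact ht.2
        _ = ‖v‖ := one_mul _
        _ < δ := hv
    have h6 := (hδ' h5).le
    rw [dist_eq_norm] at h6
    rw [norm_mul, Real.norm_eq_abs, Real.norm_eq_abs, abs_two]
    calc 2 * |(v * (G (z + t * v) - G z)).re| ≤ 2 * ‖v * (G (z + t * v) - G z)‖ := by
          gcongr; exact Complex.abs_re_le_norm _
      _ = 2 * (‖v‖ * ‖G (z + t * v) - G z‖) := by rw [norm_mul]
      _ ≤ 2 * (‖v‖ * (c / 2)) := by gcongr
      _ = c * ‖v‖ := by ring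

-- TARGET
theorem LOG2 : T_LOG2 := by
  intro Q hQ hI hL ⟨K, hK⟩ hC z
  set G : ℂ → ℂ := fun z => ∫ w, (Q w : ℂ) / (z - w) with hGdef
  have hpi : (Real.pi : ℂ) ≠ 0 := by exact_mod_cast Real.pi_ne_zero
  have hGC : ∀ z, Real.pi * Ct (fun w => (Q w : ℂ)) z = G z := by
    intro z
    simp only [Ct, hGdef]
    push_cast
    field_simp
  have hGc : Continuous G := by
    have : G = fun z => Real.pi * Ct (fun w => (Q w : ℂ)) z := by
      funext z; exact (hGC z).symm
    rw [this]
    exact continuous_const.mul hC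
  set F : ℂ → ℝ := fun z => ∫ w, Real.log (‖z - w‖ ^ 2) * Q w with hF
  have hd := LOG2_deriv F G hGc (fun z h => LOG2_star Q hQ hI hL K hK z h)
  refine ⟨?_, ?_⟩
  · have : ContDiff ℝ 1 F := by
      rw [contDiff_one_iff_hasFDerivAt]
      refine ⟨fun z => (2 : ℝ) • Complex.reCLM.comp (ContinuousLinearMap.mul ℝ ℂ (G z)), ?_, hd⟩
      have h1 : Continuous (fun z => ContinuousLinearMap.mul ℝ ℂ (G z)) :=
        (ContinuousLinearMap.mul ℝ ℂ).continuous.comp hGc
      have h3 : Continuous (fun z => Complex.reCLM.comp (ContinuousLinearMap.mul ℝ ℂ (G z))) :=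
        (ContinuousLinearMap.compL ℝ ℂ ℂ ℝ Complex.reCLM).continuous.comp h1
      exact h3.const_smul (2 : ℝ)
    exact this.contDiffAt
  · rw [hGC]
    have h2 : HasFDerivAt (fun z => ((F z : ℝ) : ℂ)) (Complex.ofRealCLM.comp
        ((2 : ℝ) • Complex.reCLM.comp (ContinuousLinearMap.mul ℝ ℂ (G z)))) z :=
      Complex.ofRealCLM.hasFDerivAt.comp z (hd z)
    show dz (fun z => ((F z : ℝ) : ℂ)) z = G z
    rw [dz, h2.fderiv]
    apply Complex.ext <;> simp

end Pool.Agent.Helper614.HE.P_LOG2
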