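import Pool.Agent.Helper614.HE.SpecC
set_option autoImplicit false

open scoped Manifold ContDiff Matrix ComplexOrder
open Matrix Topology MeasureTheory Set Filter

namespace Pool.Agent.Helper614.HE.P_REM

open Pool.Agent.Helper614.HE



/-
PROOF OF THE TARGET IN WORDS
Notation: conj = starRingEnd. For real valued U with dz U = q we have dzb U = conj q. Everything below on a small ball around t0.
(1) REM1 for w = U (as complex function), F = conj q (C^1 off t0, bounded): so U (continuous at t0, hence equal to the w' of REM1 also at t0, both being continuous at t0) is Hoelder-1/2 on a ball around t0. Likewise X with F = e^U B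
(C^1 off t0, bounded near t0 since U is continuous): X is Hoelder-1/2 near t0. Also REM1 for w = conj B, F = conj (conj A (Psi + 2AX) e^{-2U}) = A conj(Psi+2AX) e^{-2U} (dzb (conj B) = conj (dz B)), bounded near t0: gives that B
extends to B1, Hoelder-1/2 near t0. Shrink D to a small ball where everything is bounded for these applications.
(2) F_B := A conj(Psi + 2AX) e^{-2U} is Hoelder-1/2 near t0, including t0 (products of Hoelder functions; A, Psi holomorphic). REM2 for w = conj B gives B' (= B off t0) with conj B' C^1 at t0 and dzb (conj B')(t0) = F_B(t0), i.e. dz B'(t0) =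
conj A (Psi+2AX) e^{-2U} at t0. (B' = B1 near t0, by continuity.) F_q := -(|B'|^2 e^U + |A|^2 e^{-U} + |Psi+2AX|^2 e^{-2U}) is Hoelder near t0; REM2 for w = q gives q' C^1 at t0 with dzb q'(t0) = F_q(t0).
(3) B', q' are C^1 near t0 (at t0 by REM2, elsewhere by hypothesis), so Lipschitz on a small ball, so F = conj q' and F = e^U B' are Hoelder near t0; REM2 for w = U and w = X gives functions C^1 at t0 that agree with U, X off t0, hence also at t0 by
continuity: U and X are C^1 at t0, dzb U (t0) = conj q'(t0), so dz U(t0) = q'(t0) (U real), dzb X (t0) = e^{U(t0)} B'(t0). For U: ContDiffAt R 1 of the complex valued function gives it for the real part U. So SysAt holds at t0, and off t0 it holds for B', q' as they agree with B, q near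
each t not t0. All REM1 and REM2 applications need C^1 off t0 of w (from SysAt) and, for REM1, of F.
-/

section REM_aux

set_option linter.unusedSectionVars false

variable {E G : Type*} [NormedAddCommGroup E] [NormedSpace ℝ E] [NormedAddCommGroup G]
  [NormedSpace ℝ G]

/-- local Hoelder continuity with exponent one half near `t0` -/
def REM_Hq {E : Type*} [NormedAddCommGroup E] (t0 : ℂ) (f : ℂ → E) : Prop :=
  ∃ r L : ℝ, 0 < r ∧ ∀ z ∈ Metric.ball t0 r, ∀ z' ∈ Metric.ball t0 r,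
    ‖f z - f z'‖ ≤ L * ‖z - z'‖ ^ (1 / 2 : ℝ)

theorem REM_Hq_cont {t0 : ℂ} {f : ℂ → E} (h : REM_Hq t0 f) : ContinuousAt f t0 := by
  obtain ⟨r, L, hr, h⟩ := h
  rw [ContinuousAt, tendsto_iff_norm_sub_tendsto_zero]
  have h1 : ∀ᶠ z in 𝓝 t0, ‖f z - f t0‖ ≤ L * ‖z - t0‖ ^ (1 / 2 : ℝ) := by
    filter_upwards [Metric.ball_mem_nhds t0 hr] with z hz
    exact h z hz t0 (Metric.mem_ball_self hr)
  have h2 : Continuous fun z : ℂ => L * ‖z - t0‖ ^ (1 / 2 : ℝ) :=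
    continuous_const.mul ((continuous_id.sub continuous_const).norm.rpow_const
      fun _ => Or.inr (by norm_num))
  have h3 : Tendsto (fun z : ℂ => L * ‖z - t0‖ ^ (1 / 2 : ℝ)) (𝓝 t0) (𝓝 0) := by
    have := h2.tendsto t0
    simpa using this
  exact squeeze_zero' (Filter.Eventually.of_forall fun z => norm_nonneg _) h1 h3

theorem REM_Hq_smooth {t0 : ℂ} {f : ℂ → E} (h : ContDiffAt ℝ 1 f t0) : REM_Hq t0 f := by
  obtain ⟨K, s, hs, hL⟩ := h.exists_lipschitzOnWith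
  obtain ⟨r, hr, hrs⟩ := Metric.mem_nhds_iff.1 hs
  refine ⟨min r (1 / 2), K, lt_min hr (by norm_num), fun z hz z' hz' => ?_⟩
  have h1 := hL.norm_sub_le (hrs (Metric.ball_subset_ball (min_le_left _ _) hz))
    (hrs (Metric.ball_subset_ball (min_le_left _ _) hz'))
  have h2 : ‖z - z'‖ ≤ 1 := by
    have h3 := Metric.mem_ball.1 (Metric.ball_subset_ball (min_le_right r (1 / 2)) hz)
    have h4 := Metric.mem_ball'.1 (Metric.ball_subset_ball (min_le_right r (1 / 2)) hz')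
    have h5 := dist_triangle z t0 z'
    rw [← dist_eq_norm]
    linarith
  have h3 : ‖z - z'‖ ≤ ‖z - z'‖ ^ (1 / 2 : ℝ) := by
    have := Real.rpow_le_rpow_of_exponent_ge' (norm_nonneg (z - z')) h2
      (show (0 : ℝ) ≤ 1 / 2 by norm_num) (show (1 / 2 : ℝ) ≤ 1 by norm_num)
    simpa using this
  exact h1.trans (mul_le_mul_of_nonneg_left h3 K.2)

theorem REM_Hq_comp {t0 : ℂ} {f : ℂ → E} {g : E → G} (hf : REM_Hq t0 f)
    (hg : ContDiffAt ℝ 1 g (f t0)) : REM_Hq t0 (fun z => g (f z)) := by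
  have hc := REM_Hq_cont hf
  obtain ⟨r, L, hr, h⟩ := hf
  obtain ⟨K, s, hs, hL⟩ := hg.exists_lipschitzOnWith
  obtain ⟨r', hr', hrs⟩ := Metric.mem_nhds_iff.1 (hc hs)
  refine ⟨min r r', K * L, lt_min hr hr', fun z hz z' hz' => ?_⟩
  have h1 := hL.norm_sub_le (hrs (Metric.ball_subset_ball (min_le_right _ _) hz))
    (hrs (Metric.ball_subset_ball (min_le_right _ _) hz'))
  have h2 := h z (Metric.ball_subset_ball (min_le_left _ _) hz) z'
    (Metric.ball_subset_ball (min_le_left _ _) hz')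
  calc ‖g (f z) - g (f z')‖ ≤ K * ‖f z - f z'‖ := h1
    _ ≤ K * (L * ‖z - z'‖ ^ (1 / 2 : ℝ)) := mul_le_mul_of_nonneg_left h2 K.2
    _ = K * L * ‖z - z'‖ ^ (1 / 2 : ℝ) := by ring

theorem REM_Hq_prod {t0 : ℂ} {f : ℂ → E} {g : ℂ → G} (hf : REM_Hq t0 f) (hg : REM_Hq t0 g) :
    REM_Hq t0 (fun z => (f z, g z)) := by
  obtain ⟨r, L, hr, h⟩ := hf
  obtain ⟨r', L', hr', h'⟩ := hg
  refine ⟨min r r', max L L', lt_min hr hr', fun z hz z' hz' => ?_⟩
  have h2 := h z (Metric.ball_subset_ball (min_le_left _ _) hz) z'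
    (Metric.ball_subset_ball (min_le_left _ _) hz')
  have h3 := h' z (Metric.ball_subset_ball (min_le_right _ _) hz) z'
    (Metric.ball_subset_ball (min_le_right _ _) hz')
  have h4 : 0 ≤ ‖z - z'‖ ^ (1 / 2 : ℝ) := by positivity
  rw [Prod.norm_def]
  refine max_le ?_ ?_
  · exact h2.trans (mul_le_mul_of_nonneg_right (le_max_left _ _) h4)
  · exact h3.trans (mul_le_mul_of_nonneg_right (le_max_right _ _) h4)

theorem REM_fderiv_conj (f : ℂ → ℂ) (t v : ℂ) :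
    fderiv ℝ (fun w => (starRingEnd ℂ) (f w)) t v = (starRingEnd ℂ) (fderiv ℝ f t v) := by
  have h := ContinuousLinearEquiv.comp_fderiv (iso := Complex.conjCLE) (f := f) (x := t)
  have h2 : (Complex.conjCLE ∘ f) = fun w => (starRingEnd ℂ) (f w) := by
    ext w; simp
  rw [h2] at h
  rw [h]
  simp

theorem REM_dz_conj (f : ℂ → ℂ) (t : ℂ) :
    dz (fun w => (starRingEnd ℂ) (f w)) t = (starRingEnd ℂ) (dzb f t) := by
  unfold dz dzb
  rw [REM_fderiv_conj, REM_fderiv_conj]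
  simp [map_div₀, map_ofNat]
  ring

theorem REM_dzb_conj (f : ℂ → ℂ) (t : ℂ) :
    dzb (fun w => (starRingEnd ℂ) (f w)) t = (starRingEnd ℂ) (dz f t) := by
  unfold dz dzb
  rw [REM_fderiv_conj, REM_fderiv_conj]
  simp [map_div₀, map_ofNat]

theorem REM_dzb_real (U : ℂ → ℝ) (t : ℂ) :
    dzb (fun w => (U w : ℂ)) t = (starRingEnd ℂ) (dz (fun w => (U w : ℂ)) t) := by
  rw [← REM_dzb_conj]
  congr 1
  ext w
  simp

theorem REM_dz_congr {f g : ℂ → ℂ} {t : ℂ} (h : f =ᶠ[𝓝 t] g) : dz f t = dz g t := by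
  unfold dz; rw [h.fderiv_eq]

theorem REM_dzb_congr {f g : ℂ → ℂ} {t : ℂ} (h : f =ᶠ[𝓝 t] g) : dzb f t = dzb g t := by
  unfold dzb; rw [h.fderiv_eq]

/-- functions that agree off a point and are continuous there are equal -/
theorem REM_eq_of_cont {t0 : ℂ} {f g : ℂ → ℂ} (hf : ContinuousAt f t0) (hg : ContinuousAt g t0)
    (h : ∀ t, t ≠ t0 → f t = g t) : f = g := by
  ext t
  by_cases ht : t = t0
  · subst ht
    have h1 : Tendsto f (𝓝[≠] t) (𝓝 (f t)) := hf.tendsto.mono_left nhdsWithin_le_nhds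
    have h2 : Tendsto g (𝓝[≠] t) (𝓝 (g t)) := hg.tendsto.mono_left nhdsWithin_le_nhds
    have h3 : f =ᶠ[𝓝[≠] t] g := by
      filter_upwards [self_mem_nhdsWithin] with z hz
      exact h z hz
    exact tendsto_nhds_unique (h1.congr' h3) h2
  · exact h t ht

theorem REM_one (hREM1 : T_REM1) {D : Set ℂ} (hD : IsOpen D) {t0 : ℂ} (ht0 : t0 ∈ D)
    {w F : ℂ → ℂ} (hw : ContinuousAt w t0)
    (h : ∀ t ∈ D \ {t0}, ContDiffAt ℝ 1 w t ∧ ContDiffAt ℝ 1 F t ∧ dzb w t = F t)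
    (hb : ∃ C : ℝ, ∀ t ∈ D \ {t0}, ‖w t‖ ≤ C ∧ ‖F t‖ ≤ C) : REM_Hq t0 w := by
  obtain ⟨w', r, L, hr, -, h1, h2⟩ := hREM1 D hD t0 ht0 w F h hb
  have h3 : REM_Hq t0 w' := ⟨r, L, hr, h2⟩
  rw [← REM_eq_of_cont (REM_Hq_cont h3) hw h1]
  exact h3

theorem REM_two (hREM2 : T_REM2) {D : Set ℂ} (hD : IsOpen D) {t0 : ℂ} (ht0 : t0 ∈ D)
    {w F : ℂ → ℂ} (hF : REM_Hq t0 F)
    (h : ∀ t ∈ D \ {t0}, ContDiffAt ℝ 1 w t ∧ dzb w t = F t)
    (hb : ∃ C : ℝ, ∀ t ∈ D \ {t0}, ‖w t‖ ≤ C) :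
    ∃ w' : ℂ → ℂ, (∀ t, t ≠ t0 → w' t = w t) ∧ ContDiffAt ℝ 1 w' t0 ∧ dzb w' t0 = F t0 := by
  obtain ⟨r, L, hr, h1⟩ := hF
  obtain ⟨r', hr', h2⟩ := Metric.isOpen_iff.1 hD t0 ht0
  refine hREM2 D hD t0 ht0 w F (min r r') (1 / 2) L (lt_min hr hr') (by norm_num) (by norm_num)
    (fun z hz => h2 (Metric.ball_subset_ball (min_le_right _ _) hz)) ?_ h hb
  intro z hz z' hz'
  exact h1 z (Metric.ball_subset_ball (min_le_left _ _) hz) z'
    (Metric.ball_subset_ball (min_le_left _ _) hz')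

theorem REM_two' (hREM2 : T_REM2) {D : Set ℂ} (hD : IsOpen D) {t0 : ℂ} (ht0 : t0 ∈ D)
    {w F : ℂ → ℂ} (hw : ContinuousAt w t0) (hF : REM_Hq t0 F)
    (h : ∀ t ∈ D \ {t0}, ContDiffAt ℝ 1 w t ∧ dzb w t = F t)
    (hb : ∃ C : ℝ, ∀ t ∈ D \ {t0}, ‖w t‖ ≤ C) : ContDiffAt ℝ 1 w t0 ∧ dzb w t0 = F t0 := by
  obtain ⟨w', h1, h2, h3⟩ := REM_two hREM2 hD ht0 hF h hb
  have h4 := REM_eq_of_cont h2.continuousAt hw h1
  rw [h4] at h2 h3
  exact ⟨h2, h3⟩

theorem REM_hol {A : ℂ → ℂ} {D : Set ℂ} (hD : IsOpen D) (hA : DifferentiableOn ℂ A D) {t : ℂ}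
    (ht : t ∈ D) : ContDiffAt ℝ 1 A t := by
  have h1 : AnalyticAt ℂ A t := hA.analyticAt (hD.mem_nhds ht)
  have h2 : ContDiffAt ℂ 1 A t := h1.contDiffAt
  exact h2.restrict_scalars ℝ

end REM_aux

-- TARGET
theorem REM (hREM1 : T_REM1) (hREM2 : T_REM2) : T_REM := by
  intro D hD t0 ht0 A Ψ hA hΨ U X B q hU hX hB hq hbd hS
  obtain ⟨C, hC⟩ := hbd
  -- a small ball
  obtain ⟨ρ0, hρ0, hρ0D⟩ := Metric.isOpen_iff.1 hD t0 ht0
  set ρ : ℝ := ρ0 / 2 with hρ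
  have hρp : 0 < ρ := by positivity
  have hcD : Metric.closedBall t0 ρ ⊆ D := fun z hz => hρ0D (by
    rw [Metric.mem_ball]
    exact lt_of_le_of_lt (Metric.mem_closedBall.1 hz) (by rw [hρ]; linarith))
  set D0 : Set ℂ := Metric.ball t0 ρ with hD0
  have hD0o : IsOpen D0 := Metric.isOpen_ball
  have ht0' : t0 ∈ D0 := Metric.mem_ball_self hρp
  have hD0D : D0 ⊆ D := fun z hz => hcD (Metric.ball_subset_closedBall hz)
  have hcomp : IsCompact (Metric.closedBall t0 ρ) := isCompact_closedBall t0 ρ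
  obtain ⟨bU, hbU⟩ := hcomp.exists_bound_of_continuousOn (hU.mono hcD)
  obtain ⟨bX, hbX⟩ := hcomp.exists_bound_of_continuousOn (hX.mono hcD)
  obtain ⟨bA, hbA⟩ := hcomp.exists_bound_of_continuousOn (hA.continuousOn.mono hcD)
  obtain ⟨bΨ, hbΨ⟩ := hcomp.exists_bound_of_continuousOn (hΨ.continuousOn.mono hcD)
  have hin : ∀ t ∈ D0, t ∈ Metric.closedBall t0 ρ := fun t ht => Metric.ball_subset_closedBall ht
  have hUc : ContinuousAt U t0 := hU.continuousAt (hD.mem_nhds ht0)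
  have hXc : ContinuousAt X t0 := hX.continuousAt (hD.mem_nhds ht0)
  have hUcc : ContinuousAt (fun w => (U w : ℂ)) t0 :=
    Complex.continuous_ofReal.continuousAt.comp hUc
  have cof : ContDiff ℝ 1 (fun x : ℝ => (x : ℂ)) := Complex.ofRealCLM.contDiff
  have ccj : ContDiff ℝ 1 (fun x : ℂ => (starRingEnd ℂ) x) := Complex.conjCLE.contDiff
  have hS0 : ∀ t ∈ D0 \ {t0}, SysAt A Ψ U X B q t := fun t ht => hS t ⟨hD0D ht.1, ht.2⟩
  have hC0 : ∀ t ∈ D0 \ {t0}, ‖B t‖ ≤ C ∧ ‖q t‖ ≤ C := fun t ht => hC t ⟨hD0D ht.1, ht.2⟩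
  have hUC1 : ∀ t ∈ D0 \ {t0}, ContDiffAt ℝ 1 (fun w => (U w : ℂ)) t := fun t ht =>
    cof.contDiffAt.comp t (hS0 t ht).dU
  -- (1) Hoelder continuity of U and X
  have HU : REM_Hq t0 (fun w => (U w : ℂ)) := by
    refine REM_one hREM1 hD0o ht0' (F := fun w => (starRingEnd ℂ) (q w)) hUcc ?_ ?_
    · intro t ht
      refine ⟨hUC1 t ht, ccj.contDiffAt.comp t (hS0 t ht).dq, ?_⟩
      rw [REM_dzb_real, (hS0 t ht).eU]
    · refine ⟨max bU C, fun t ht => ⟨?_, ?_⟩⟩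
      · have := hbU t (hin t ht.1)
        rw [Complex.norm_real]
        exact this.trans (le_max_left _ _)
      · rw [RCLike.norm_conj]
        exact (hC0 t ht).2.trans (le_max_right _ _)
  have hexpb : ∀ t ∈ D0, Real.exp (U t) ≤ Real.exp bU := fun t ht =>
    Real.exp_le_exp.2 ((le_abs_self _).trans (hbU t (hin t ht)))
  have HX : REM_Hq t0 X := by
    refine REM_one hREM1 hD0o ht0' (F := fun w => (Real.exp (U w) : ℂ) * B w) hXc ?_ ?_
    · intro t ht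
      have h1 := (hS0 t ht).dU
      have h2 := (hS0 t ht).dB
      have h3 : ContDiffAt ℝ 1 (fun w => Real.exp (U w)) t := h1.exp
      exact ⟨(hS0 t ht).dX, (cof.contDiffAt.comp t h3).mul h2, (hS0 t ht).eX⟩
    · refine ⟨max bX (Real.exp bU * C), fun t ht => ⟨?_, ?_⟩⟩
      · exact (hbX t (hin t ht.1)).trans (le_max_left _ _)
      · refine le_trans ?_ (le_max_right _ _)
        rw [norm_mul, Complex.norm_real, Real.norm_eq_abs, abs_of_pos (Real.exp_pos _)]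
        exact mul_le_mul (hexpb t ht.1) (hC0 t ht).1 (norm_nonneg _) (Real.exp_pos _).le
  have HUr : REM_Hq t0 U := by
    have h1 := REM_Hq_comp (g := Complex.re) HU Complex.reCLM.contDiff.contDiffAt
    simpa using h1
  have HA : REM_Hq t0 A := REM_Hq_smooth (REM_hol hD hA ht0)
  have HΨ : REM_Hq t0 Ψ := REM_Hq_smooth (REM_hol hD hΨ ht0)
  -- (2) the extension of B
  set FB : ℂ → ℂ := fun t => A t * (starRingEnd ℂ) (Ψ t + 2 * A t * X t) *
    (Real.exp (-2 * U t) : ℂ) with hFB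
  have HFB : REM_Hq t0 FB := by
    have h1 : ContDiff ℝ 1 (fun v : ℂ × ℂ × ℂ × ℝ =>
        v.1 * (starRingEnd ℂ) (v.2.1 + 2 * v.1 * v.2.2.1) * (Real.exp (-2 * v.2.2.2) : ℂ)) := by
      have e1 : ContDiff ℝ 1 (fun v : ℂ × ℂ × ℂ × ℝ => v.2.1 + 2 * v.1 * v.2.2.1) := by fun_prop
      have e2 : ContDiff ℝ 1 (fun v : ℂ × ℂ × ℂ × ℝ => Real.exp (-2 * v.2.2.2)) := by fun_prop
      exact (contDiff_fst.mul (ccj.comp e1)).mul (cof.comp e2)
    exact REM_Hq_comp (REM_Hq_prod HA (REM_Hq_prod HΨ (REM_Hq_prod HX HUr))) h1.contDiffAt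
  obtain ⟨β, hβ1, hβ2, hβ3⟩ := REM_two hREM2 hD0o ht0' (w := fun w => (starRingEnd ℂ) (B w)) HFB
    (by
      intro t ht
      refine ⟨ccj.contDiffAt.comp t (hS0 t ht).dB, ?_⟩
      rw [REM_dzb_conj, (hS0 t ht).eB, hFB]
      simp only [map_mul, Complex.conj_conj, Complex.conj_ofReal])
    ⟨C, fun t ht => by rw [RCLike.norm_conj]; exact (hC0 t ht).1⟩
  set B' : ℂ → ℂ := fun t => (starRingEnd ℂ) (β t) with hB'
  have hB'B : ∀ t, t ≠ t0 → B' t = B t := by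
    intro t ht
    rw [hB']
    simp only
    rw [hβ1 t ht, Complex.conj_conj]
  have hB'c : ContDiffAt ℝ 1 B' t0 := ccj.contDiffAt.comp t0 hβ2
  have hB'z : dz B' t0 = (starRingEnd ℂ) (A t0) * (Ψ t0 + 2 * A t0 * X t0) *
      (Real.exp (-2 * U t0) : ℂ) := by
    rw [hB', REM_dz_conj, hβ3, hFB]
    simp only [map_mul, Complex.conj_conj, Complex.conj_ofReal]
  -- the extension of q
  set Fq : ℂ → ℂ := fun t => -((‖B' t‖ ^ 2 * Real.exp (U t) + ‖A t‖ ^ 2 * Real.exp (-U t) +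
    ‖Ψ t + 2 * A t * X t‖ ^ 2 * Real.exp (-2 * U t) : ℝ) : ℂ) with hFq
  have HFq : REM_Hq t0 Fq := by
    have h1 : ContDiff ℝ 1 (fun v : ℂ × ℂ × ℂ × ℂ × ℝ =>
        -((‖v.1‖ ^ 2 * Real.exp (v.2.2.2.2) + ‖v.2.1‖ ^ 2 * Real.exp (-v.2.2.2.2) +
        ‖v.2.2.1 + 2 * v.2.1 * v.2.2.2.1‖ ^ 2 * Real.exp (-2 * v.2.2.2.2) : ℝ) : ℂ)) := by
      have n1 : ContDiff ℝ 1 (fun x : ℂ => ‖x‖ ^ 2) := contDiff_norm_sq ℝ
      have e1 : ContDiff ℝ 1 (fun v : ℂ × ℂ × ℂ × ℂ × ℝ => v.2.2.1 + 2 * v.2.1 * v.2.2.2.1) := by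
        fun_prop
      have e2 : ContDiff ℝ 1 (fun v : ℂ × ℂ × ℂ × ℂ × ℝ => v.1) := by fun_prop
      have e3 : ContDiff ℝ 1 (fun v : ℂ × ℂ × ℂ × ℂ × ℝ => v.2.1) := by fun_prop
      have e4 : ContDiff ℝ 1 (fun v : ℂ × ℂ × ℂ × ℂ × ℝ => Real.exp (v.2.2.2.2)) := by fun_prop
      have e5 : ContDiff ℝ 1 (fun v : ℂ × ℂ × ℂ × ℂ × ℝ => Real.exp (-v.2.2.2.2)) := by fun_prop
      have e6 : ContDiff ℝ 1 (fun v : ℂ × ℂ × ℂ × ℂ × ℝ => Real.exp (-2 * v.2.2.2.2)) := by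
        fun_prop
      exact (cof.comp ((((n1.comp e2).mul e4).add ((n1.comp e3).mul e5)).add
        ((n1.comp e1).mul e6))).neg
    have h2 := REM_Hq_comp (REM_Hq_prod (REM_Hq_smooth hB'c) (REM_Hq_prod HA (REM_Hq_prod HΨ
      (REM_Hq_prod HX HUr)))) (h1.contDiffAt (x := (B' t0, A t0, Ψ t0, X t0, U t0)))
    exact h2
  obtain ⟨q', hq1, hq2, hq3⟩ := REM_two hREM2 hD0o ht0' (w := q) HFq
    (by
      intro t ht
      refine ⟨(hS0 t ht).dq, ?_⟩
      rw [(hS0 t ht).eq, hFq]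
      simp only
      rw [hB'B t ht.2])
    ⟨C, fun t ht => (hC0 t ht).2⟩
  -- (3) regularity of U and X at the point
  have hUfin := REM_two' hREM2 hD0o ht0' (w := fun w => (U w : ℂ))
    (F := fun w => (starRingEnd ℂ) (q' w)) hUcc
    (REM_Hq_smooth (ccj.contDiffAt.comp t0 hq2))
    (by
      intro t ht
      refine ⟨hUC1 t ht, ?_⟩
      rw [REM_dzb_real, (hS0 t ht).eU, hq1 t ht.2])
    ⟨bU, fun t ht => by rw [Complex.norm_real]; exact hbU t (hin t ht.1)⟩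
  have hXfin := REM_two' hREM2 hD0o ht0' (w := X)
    (F := fun w => (Real.exp (U w) : ℂ) * B' w) hXc
    (by
      have h1 : ContDiff ℝ 1 (fun v : ℝ × ℂ => (Real.exp v.1 : ℂ) * v.2) := by
        have e1 : ContDiff ℝ 1 (fun v : ℝ × ℂ => Real.exp v.1) := by fun_prop
        exact (cof.comp e1).mul contDiff_snd
      exact REM_Hq_comp (REM_Hq_prod HUr (REM_Hq_smooth hB'c)) h1.contDiffAt)
    (by
      intro t ht
      refine ⟨(hS0 t ht).dX, ?_⟩
      rw [(hS0 t ht).eX, hB'B t ht.2])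
    ⟨bX, fun t ht => hbX t (hin t ht.1)⟩
  refine ⟨B', q', fun t ht => ⟨hB'B t ht.2, hq1 t ht.2⟩, fun t ht => ?_⟩
  by_cases htt : t = t0
  · subst htt
    refine ⟨?_, hXfin.1, hB'c, hq2, ?_, hXfin.2, hB'z, ?_⟩
    · have h1 : ContDiffAt ℝ 1 (fun w => ((U w : ℂ)).re) t :=
        Complex.reCLM.contDiff.contDiffAt.comp t hUfin.1
      simpa using h1
    · have h1 := REM_dzb_real U t
      rw [hUfin.2] at h1
      have h2 := congrArg (starRingEnd ℂ) h1
      rw [Complex.conj_conj, Complex.conj_conj] at h2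
      exact h2.symm
    · rw [hq3]
  · have hs := hS t ⟨ht, htt⟩
    have hnb : ∀ᶠ z in 𝓝 t, z ≠ t0 := isOpen_ne.mem_nhds htt
    have eB : B' =ᶠ[𝓝 t] B := by
      filter_upwards [hnb] with z hz using hB'B z hz
    have eq' : q' =ᶠ[𝓝 t] q := by
      filter_upwards [hnb] with z hz using hq1 z hz
    refine ⟨hs.dU, hs.dX, hs.dB.congr_of_eventuallyEq eB, hs.dq.congr_of_eventuallyEq eq', ?_, ?_,
      ?_, ?_⟩
    · rw [hs.eU, hq1 t htt]
    · rw [hs.eX, hB'B t htt]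
    · rw [REM_dz_congr eB, hs.eB]
    · rw [REM_dzb_congr eq', hs.eq, hB'B t htt]

end Pool.Agent.Helper614.HE.P_REM
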