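import Pool.Agent.Helper614.HE.Defs

/-!
# Specification of the parts: the local system, the problem in the plane, the surface
-/

set_option autoImplicit false

open scoped Manifold ContDiff Matrix ComplexOrder
open Matrix Topology MeasureTheory Set Filter

namespace Pool.Agent.Helper614.HE

/-! ### The local system -/

/-- The first order system equivalent to Hitchin's equation, at the point `t`:
`U_t = q`, `X_t̄ = e^U B`, `B_t = Ā (Ψ + 2 A X) e^{-2U}`,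
`q_t̄ = -(|B|² e^U + |A|² e^{-U} + |Ψ + 2 A X|² e^{-2U})`. -/
structure SysAt (A Ψ : ℂ → ℂ) (U : ℂ → ℝ) (X B q : ℂ → ℂ) (t : ℂ) : Prop where
  dU : ContDiffAt ℝ 1 U t
  dX : ContDiffAt ℝ 1 X t
  dB : ContDiffAt ℝ 1 B t
  dq : ContDiffAt ℝ 1 q t
  eU : dz (fun w => (U w : ℂ)) t = q t
  eX : dzb X t = (Real.exp (U t) : ℂ) * B t
  eB : dz B t = (starRingEnd ℂ) (A t) * (Ψ t + 2 * A t * X t) * (Real.exp (-2 * U t) : ℂ)
  eq : dzb q t = -((‖B t‖ ^ 2 * Real.exp (U t) + ‖A t‖ ^ 2 * Real.exp (-U t) +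
    ‖Ψ t + 2 * A t * X t‖ ^ 2 * Real.exp (-2 * U t) : ℝ) : ℂ)

/-- **RL**: regularity and removable singularities for the local system. -/
def T_RL : Prop :=
  ∀ (D : Set ℂ), IsOpen D → ∀ t0 ∈ D, ∀ (A Ψ : ℂ → ℂ), DifferentiableOn ℂ A D →
    DifferentiableOn ℂ Ψ D → ∀ (U : ℂ → ℝ) (X B q : ℂ → ℂ), ContinuousOn U D →
    ContinuousOn X D → ContinuousOn B (D \ {t0}) → ContinuousOn q (D \ {t0}) →
    (∃ C : ℝ, ∀ t ∈ D \ {t0}, ‖B t‖ ≤ C ∧ ‖q t‖ ≤ C) →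
    (∀ t ∈ D \ {t0}, SysAt A Ψ U X B q t) →
    ContDiffOn ℝ ∞ U D ∧ ContDiffOn ℝ ∞ X D ∧ ∃ B' q' : ℂ → ℂ,
      (∀ t ∈ D \ {t0}, B' t = B t ∧ q' t = q t) ∧ ContDiffOn ℝ ∞ B' D ∧ ContDiffOn ℝ ∞ q' D ∧
      ∀ t ∈ D, SysAt A Ψ U X B' q' t

/-- The unipotent matrix `exp (X ν)`. -/
noncomputable def nn (X : ℂ) : Matrix (Fin 3) (Fin 3) ℂ := !![1, 0, 0; -X, 1, 0; -(X ^ 2 / 2), X, 1]

/-- The diagonal matrix `diag (e^U, 1, e^{-U})`. -/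
noncomputable def dd (U : ℝ) : Matrix (Fin 3) (Fin 3) ℂ :=
  !![(Real.exp U : ℂ), 0, 0; 0, 1, 0; 0, 0, (Real.exp (-U) : ℂ)]

/-- The positive definite matrix of determinant one with coordinates `U, X`. -/
noncomputable def Hm (U : ℝ) (X : ℂ) : Matrix (Fin 3) (Fin 3) ℂ := (nn X)ᴴ * dd U * nn X

/-- The nilpotent matrix of the Higgs field. -/
def Nm (A Ψ : ℂ) : Matrix (Fin 3) (Fin 3) ℂ := !![0, 0, 0; A, 0, 0; Ψ, A, 0]

/-- **HIT**: the local system implies Hitchin's equation. -/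
def T_HIT : Prop :=
  ∀ (A Ψ : ℂ → ℂ) (U : ℂ → ℝ) (X B q : ℂ → ℂ) (t : ℂ),
    (∀ᶠ w in 𝓝 t, SysAt A Ψ U X B q w) → ContDiffAt ℝ 2 U t → ContDiffAt ℝ 2 X t →
    mdzb (fun z => (Hm (U z) (X z))⁻¹ * mdz (fun w => Hm (U w) (X w)) z) t =
      Nm (A t) (Ψ t) * adj (Hm (U t) (X t)) (Nm (A t) (Ψ t)) -
        adj (Hm (U t) (X t)) (Nm (A t) (Ψ t)) * Nm (A t) (Ψ t)

/-! ### The problem in the plane -/

/-- The weight `|z¹⁶ + 1|^{-1/2}`. -/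
noncomputable def W (z : ℂ) : ℝ := ‖z ^ 16 + 1‖ ^ (-(1 / 2) : ℝ)

/-- `f₁ = z² - 1` -/
def f1 (z : ℂ) : ℂ := z ^ 2 - 1

/-- `f₂ = z` -/
def f2 (z : ℂ) : ℂ := z

/-- The system in the plane, with parameter `σ`, at the point `z`. -/
structure ZSysAt (σ : ℝ) (u : ℂ → ℝ) (x b q : ℂ → ℂ) (z : ℂ) : Prop where
  du : ContDiffAt ℝ 1 u z
  dx : ContDiffAt ℝ 1 x z
  db : ContDiffAt ℝ 1 b z
  dq : ContDiffAt ℝ 1 q z
  eu : dz (fun w => (u w : ℂ)) z = q z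
  ex : dzb x z = (Real.exp (u z) : ℂ) * b z
  eb : dz b z = ((σ ^ 2 * W z * Real.exp (-2 * u z) : ℝ) : ℂ) *
    ((starRingEnd ℂ) (f1 z) * (f2 z + 2 * f1 z * x z))
  eq : dzb q z = -((‖b z‖ ^ 2 * Real.exp (u z) + σ ^ 2 * W z * (‖f1 z‖ ^ 2 * Real.exp (-u z) +
    ‖f2 z + 2 * f1 z * x z‖ ^ 2 * Real.exp (-2 * u z)) : ℝ) : ℂ)

/-- A solution in the plane, with the behaviour at infinity which is needed for the surface. -/
structure ZSol (M : ℕ) (σ : ℝ) (u : ℂ → ℝ) (x b q : ℂ → ℂ) : Prop where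
  cu : Continuous u
  cx : Continuous x
  cb : Continuous b
  cq : Continuous q
  sys : ∀ z : ℂ, z ^ 16 + 1 ≠ 0 → ZSysAt σ u x b q z
  bu : ∃ C : ℝ, ∀ z, |u z + (1 / M : ℝ) * Real.log (1 + ‖z‖ ^ 2)| ≤ C
  bx : ∃ C : ℝ, ∀ z, ‖x z‖ ≤ C * (1 + ‖z‖) ^ (-(1 / 4) : ℝ)
  bb : ∃ C : ℝ, ∀ z, ‖b z‖ ≤ C / (1 + ‖z‖ ^ 2)
  bq : ∃ C : ℝ, ∀ z, ‖z * q z + (1 / M : ℝ)‖ ≤ C * (1 + ‖z‖) ^ (-(1 / 4) : ℝ)

/-- **EX**: for all large `M` there are solutions for two values of the parameter, with the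
inequality which violates monotonicity. -/
def T_EX : Prop :=
  ∃ M₀ : ℕ, ∀ M : ℕ, M₀ ≤ M → ∃ (σ₁ σ₂ : ℝ) (u₁ u₂ : ℂ → ℝ) (x₁ b₁ q₁ x₂ b₂ q₂ : ℂ → ℂ),
    0 < σ₁ ∧ σ₁ < σ₂ ∧ ZSol M σ₁ u₁ x₁ b₁ q₁ ∧ ZSol M σ₂ u₂ x₂ b₂ q₂ ∧
    σ₂ ^ 2 * Real.exp (-2 * u₂ 1) < σ₁ ^ 2 * Real.exp (-2 * u₁ 1)

/-! ### The surface -/

/-- The affine curve `y⁴ = v^{4m} + 1`. -/
def Crv (m : ℕ) : Set (ℂ × ℂ) := {p | p.2 ^ 4 = p.1 ^ (4 * m) + 1}

/-- Two copies of the affine curve are glued by `v' = 1/v`, `y' = y / v^m`. -/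
def Rel (m : ℕ) (p q : Crv m × Bool) : Prop :=
  p = q ∨ (p.2 ≠ q.2 ∧ p.1.1.1 * q.1.1.1 = 1 ∧ p.1.1.2 = q.1.1.2 * p.1.1.1 ^ m)

theorem rel_equiv (m : ℕ) : Equivalence (Rel m) := by
  refine ⟨fun p => Or.inl rfl, ?_, ?_⟩
  · rintro p q (h | ⟨h1, h2, h3⟩)
    · exact Or.inl h.symm
    · refine Or.inr ⟨h1.symm, by rw [mul_comm]; exact h2, ?_⟩
      rw [h3, mul_assoc, ← mul_pow, h2, one_pow, mul_one]
  · rintro p q r (rfl | ⟨h1, h2, h3⟩) (rfl | ⟨h4, h5, h6⟩)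
    · exact Or.inl rfl
    · exact Or.inr ⟨h4, h5, h6⟩
    · exact Or.inr ⟨h1, h2, h3⟩
    · left
      have hb : p.2 = r.2 := by
        rcases p with ⟨_, a⟩; rcases q with ⟨_, b⟩; rcases r with ⟨_, c⟩
        simp only at h1 h4 ⊢
        cases a <;> cases b <;> cases c <;> simp_all
      have hq : (q.1 : ℂ × ℂ).1 ≠ 0 := right_ne_zero_of_mul_eq_one h2
      have hv : (p.1 : ℂ × ℂ).1 = (r.1 : ℂ × ℂ).1 := by
        have h7 : (q.1 : ℂ × ℂ).1 * (p.1 : ℂ × ℂ).1 = (q.1 : ℂ × ℂ).1 * (r.1 : ℂ × ℂ).1 := by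
          rw [h5, mul_comm, h2]
        exact mul_left_cancel₀ hq h7
      refine Prod.ext (Subtype.ext (Prod.ext hv ?_)) hb
      rw [h3, h6, mul_assoc, ← mul_pow, mul_comm (q.1 : ℂ × ℂ).1, h2, one_pow, mul_one]

/-- The setoid of the gluing. -/
def relSetoid (m : ℕ) : Setoid (Crv m × Bool) := ⟨Rel m, rel_equiv m⟩

/-- The compact surface `y⁴ = v^{4m} + 1`. -/
def SX (m : ℕ) : Type := Quotient (relSetoid m)

instance (m : ℕ) : TopologicalSpace (SX m) :=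
  inferInstanceAs (TopologicalSpace (Quotient (relSetoid m)))

/-- The inclusion of the copy `j` of the affine curve. -/
def inc (m : ℕ) (j : Bool) (p : Crv m) : SX m := Quotient.mk (relSetoid m) (p, j)

/-- The open subset of the surface which is the copy `j` of the affine curve. -/
def UU (m : ℕ) (j : Bool) : Set (SX m) := Set.range (inc m j)

open Classical in
/-- The coordinate `v` of the copy `j`. -/
noncomputable def VV (m : ℕ) (j : Bool) (x : SX m) : ℂ :=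
  if h : x ∈ UU m j then (h.choose : ℂ × ℂ).1 else 0

open Classical in
/-- The coordinate `y` of the copy `j`. -/
noncomputable def YY (m : ℕ) (j : Bool) (x : SX m) : ℂ :=
  if h : x ∈ UU m j then (h.choose : ℂ × ℂ).2 else 0

/-- The facts about the surface which do not involve its charts. -/
structure SBasic (m : ℕ) : Prop where
  isOpen_UU : ∀ j, IsOpen (UU m j)
  cover : ∀ x, x ∈ UU m false ∨ x ∈ UU m true
  eqn : ∀ j, ∀ x ∈ UU m j, YY m j x ^ 4 = VV m j x ^ (4 * m) + 1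
  mem_other : ∀ j, ∀ x ∈ UU m j, x ∈ UU m (!j) ↔ VV m j x ≠ 0
  VV_other : ∀ j, ∀ x ∈ UU m j, x ∈ UU m (!j) → VV m (!j) x = (VV m j x)⁻¹
  YY_other : ∀ j, ∀ x ∈ UU m j, x ∈ UU m (!j) → YY m (!j) x = YY m j x / VV m j x ^ m
  ext : ∀ j, ∀ x ∈ UU m j, ∀ x' ∈ UU m j, VV m j x = VV m j x' → YY m j x = YY m j x' → x = x'
  surj : ∀ j (a b : ℂ), b ^ 4 = a ^ (4 * m) + 1 → ∃ x ∈ UU m j, VV m j x = a ∧ YY m j x = b
  contV : ∀ j, ContinuousOn (VV m j) (UU m j)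
  contY : ∀ j, ContinuousOn (YY m j) (UU m j)
  embed : ∀ j, IsOpenEmbedding (inc m j)
  VV_inc : ∀ j p, VV m j (inc m j p) = p.1.1
  YY_inc : ∀ j p, YY m j (inc m j p) = p.1.2

/-- The facts about the charts of the surface: each chart lies in one of the two copies and is
given there by the coordinate `v` (with `y ≠ 0`) or by the coordinate `y` (with `v ≠ 0`), and the
coordinates are holomorphic. -/
structure SGood (m : ℕ) [ChartedSpace ℂ (SX m)] : Prop where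
  surface : IsClosedRiemannSurface (SX m)
  chart_type : ∀ e ∈ atlas ℂ (SX m), ∃ j, e.source ⊆ UU m j ∧
    ((∀ x ∈ e.source, e x = VV m j x ∧ YY m j x ≠ 0) ∨
      (∀ x ∈ e.source, e x = YY m j x ∧ VV m j x ≠ 0))
  holoV : ∀ e ∈ atlas ℂ (SX m), ∀ j, DifferentiableOn ℂ (fun z => VV m j (e.symm z))
    (e.target ∩ e.symm ⁻¹' UU m j)
  holoY : ∀ e ∈ atlas ℂ (SX m), ∀ j, DifferentiableOn ℂ (fun z => YY m j (e.symm z))
    (e.target ∩ e.symm ⁻¹' UU m j)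

/-- **SB**: the basic facts. -/
def T_SB : Prop := ∀ m : ℕ, 1 ≤ m → SBasic m

/-- **SG**: there is an atlas with the required properties. -/
def T_SG : Prop := ∀ m : ℕ, 1 ≤ m → ∃ inst : ChartedSpace ℂ (SX m), @SGood m inst

end Pool.Agent.Helper614.HE
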