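import Pool.Agent.Helper614.HE.Spec

/-!
# Specification of the analytic parts
-/

set_option autoImplicit false

open scoped Manifold ContDiff Matrix ComplexOrder
open Matrix Topology MeasureTheory Set Filter

namespace Pool.Agent.Helper614.HE

/-- The Cauchy transform. -/
noncomputable def Ct (f : ℂ → ℂ) (z : ℂ) : ℂ := (1 / Real.pi : ℝ) * ∫ w, f w / (z - w)

/-- The conjugate Cauchy transform. -/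
noncomputable def Cb (f : ℂ → ℂ) (z : ℂ) : ℂ :=
  (1 / Real.pi : ℝ) * ∫ w, f w / ((starRingEnd ℂ) z - (starRingEnd ℂ) w)

/-- The dominating weight. -/
noncomputable def Om (z : ℂ) : ℝ :=
  (W z + (1 + ‖z‖ ^ 2) ^ (-4 : ℝ)) * (1 + ‖z‖ ^ 2) ^ (25 / 8 : ℝ)

/-- **KE**: the kernel estimate. -/
def T_KE : Prop :=
  ∃ K : ℝ, 0 < K ∧ ∀ z : ℂ, ∀ s ∈ Icc (3 / 4 : ℝ) (5 / 4),
    Integrable (fun w : ℂ => Om w * ‖z - w‖ ^ (-s)) ∧ ∫ w : ℂ, Om w * ‖z - w‖ ^ (-s) ≤ K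

/-- **CTB**: bounds and Hoelder continuity of Cauchy transforms of functions dominated by `Om`. -/
def T_CTB : Prop :=
  ∃ K : ℝ, 0 < K ∧ ∀ (f : ℂ → ℂ) (c : ℝ), Measurable f → 0 ≤ c → (∀ w, ‖f w‖ ≤ c * Om w) →
    (∀ z, Integrable (fun w => f w / (z - w))) ∧ (∀ z, ‖Ct f z‖ ≤ K * c) ∧
    (∀ z z', ‖Ct f z - Ct f z'‖ ≤ K * c * ‖z - z'‖ ^ (1 / 4 : ℝ))

/-- **DEC**: decay of the transforms. -/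
def T_DEC : Prop :=
  ∃ K : ℝ, 0 < K ∧
    (∀ (G : ℂ → ℂ) (c : ℝ), Measurable G → 0 ≤ c → (∀ w, ‖G w‖ ≤ c * (Om w / (1 + ‖w‖ ^ 2))) →
      (∀ w, G (-w) = -G w) →
      (∀ z, ‖Cb G z‖ ≤ K * c / (1 + ‖z‖ ^ 2)) ∧ Continuous (Cb G) ∧ ∀ z, Cb G (-z) = Cb G z) ∧
    (∀ (f : ℂ → ℂ) (c : ℝ), Measurable f → 0 ≤ c → (∀ w, ‖f w‖ ≤ c / (1 + ‖w‖ ^ 2)) →
      (∀ w, ‖f w‖ ≤ c * Om w) ∧ ∀ z, ‖Ct f z‖ ≤ K * c * (1 + ‖z‖) ^ (-(1 / 4) : ℝ)) ∧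
    (∀ (Q : ℂ → ℂ) (c : ℝ), Measurable Q → 0 ≤ c → (∀ w, ‖Q w‖ ≤ c * (Om w / (1 + ‖w‖ ^ 2))) →
      Integrable Q ∧
      ∀ z, ‖z * Ct Q z - (1 / Real.pi : ℝ) * ∫ w, Q w‖ ≤ K * c * (1 + ‖z‖) ^ (-(1 / 4) : ℝ))

/-- **LH**: the Cauchy transform of a function which is Hoelder continuous near a point is
differentiable there, with Hoelder continuous derivative. -/
def T_LH : Prop :=
  ∀ f : ℂ → ℂ, Measurable f → (∀ z, Integrable (fun w => f w / (z - w))) →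
    ∀ (z0 : ℂ) (r θ L : ℝ), 0 < r → 0 < θ → θ < 1 →
    (∀ w ∈ Metric.ball z0 r, ∀ w' ∈ Metric.ball z0 r, ‖f w - f w'‖ ≤ L * ‖w - w'‖ ^ θ) →
    (∀ z ∈ Metric.ball z0 r, ContDiffAt ℝ 1 (Ct f) z ∧ dzb (Ct f) z = f z) ∧
    ∃ L' : ℝ, ∀ z ∈ Metric.ball z0 (r / 2), ∀ z' ∈ Metric.ball z0 (r / 2),
      ‖fderiv ℝ (Ct f) z - fderiv ℝ (Ct f) z'‖ ≤ L' * ‖z - z'‖ ^ θ

/-- **CH**: the Cauchy transform of a bounded function with compact support is Hoelder continuous. -/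
def T_CH : Prop :=
  ∀ R c : ℝ, ∃ C : ℝ, ∀ f : ℂ → ℂ, Measurable f → (∀ w, ‖f w‖ ≤ c) → (∀ w, R < ‖w‖ → f w = 0) →
    (∀ z, Integrable (fun w => f w / (z - w))) ∧
    ∀ z z', ‖Ct f z - Ct f z'‖ ≤ C * ‖z - z'‖ ^ (1 / 2 : ℝ)

/-- **REM**: removable singularities for the local system. -/
def T_REM : Prop :=
  ∀ (D : Set ℂ), IsOpen D → ∀ t0 ∈ D, ∀ (A Ψ : ℂ → ℂ), DifferentiableOn ℂ A D →
    DifferentiableOn ℂ Ψ D → ∀ (U : ℂ → ℝ) (X B q : ℂ → ℂ), ContinuousOn U D →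
    ContinuousOn X D → ContinuousOn B (D \ {t0}) → ContinuousOn q (D \ {t0}) →
    (∃ C : ℝ, ∀ t ∈ D \ {t0}, ‖B t‖ ≤ C ∧ ‖q t‖ ≤ C) →
    (∀ t ∈ D \ {t0}, SysAt A Ψ U X B q t) →
    ∃ B' q' : ℂ → ℂ, (∀ t ∈ D \ {t0}, B' t = B t ∧ q' t = q t) ∧ ∀ t ∈ D, SysAt A Ψ U X B' q' t

/-- **BOOT**: bootstrapping for the local system. -/
def T_BOOT : Prop :=
  ∀ (D : Set ℂ), IsOpen D → ∀ (A Ψ : ℂ → ℂ), DifferentiableOn ℂ A D →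
    DifferentiableOn ℂ Ψ D → ∀ (U : ℂ → ℝ) (X B q : ℂ → ℂ), (∀ t ∈ D, SysAt A Ψ U X B q t) →
    ContDiffOn ℝ ∞ U D ∧ ContDiffOn ℝ ∞ X D ∧ ContDiffOn ℝ ∞ B D ∧ ContDiffOn ℝ ∞ q D

/-- The logarithmic kernel. -/
noncomputable def Lg (z w : ℂ) : ℝ := Real.log (‖z - w‖ ^ 2 / (1 + ‖z‖ ^ 2))

/-- **LOG**: the logarithmic potential of a function dominated by `Om / ρ`. -/
def T_LOG : Prop :=
  ∃ K : ℝ, 0 < K ∧ ∀ (Q : ℂ → ℝ) (c : ℝ), Measurable Q → 0 ≤ c →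
    (∀ w, |Q w| ≤ c * (Om w / (1 + ‖w‖ ^ 2))) →
    Integrable Q ∧ (∀ z, Integrable (fun w => Lg z w * Q w)) ∧
    (∀ z, |∫ w, Lg z w * Q w| ≤ K * c) ∧
    (∀ z, ContDiffAt ℝ 1 (fun z => ∫ w, Real.log (‖z - w‖ ^ 2) * Q w) z ∧
      dz (fun z => ((∫ w, Real.log (‖z - w‖ ^ 2) * Q w : ℝ) : ℂ)) z =
        Real.pi * Ct (fun w => (Q w : ℂ)) z) ∧
    (∀ z, (∫ w, Real.log (‖z - w‖ ^ 2) * Q w) =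
      (∫ w, Lg z w * Q w) + Real.log (1 + ‖z‖ ^ 2) * ∫ w, Q w)

/-! ### The fixed point problem -/

/-- `u = -κ log ρ + w` -/
noncomputable def uF (κ : ℝ) (w : ℂ → ℝ) (z : ℂ) : ℝ := -κ * Real.log (1 + ‖z‖ ^ 2) + w z

/-- `p = √τ f₂ + 2 f₁ x` -/
noncomputable def pF (τ : ℝ) (x : ℂ → ℂ) (z : ℂ) : ℂ := (Real.sqrt τ : ℂ) * f2 z + 2 * f1 z * x z

/-- `G = W e^{-2u} f̄₁ p` -/
noncomputable def GF (τ κ : ℝ) (w : ℂ → ℝ) (x : ℂ → ℂ) (z : ℂ) : ℂ :=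
  ((W z * Real.exp (-2 * uF κ w z) : ℝ) : ℂ) * ((starRingEnd ℂ) (f1 z) * pF τ x z)

/-- `β`, the conjugate Cauchy transform of `G` -/
noncomputable def bF (τ κ : ℝ) (w : ℂ → ℝ) (x : ℂ → ℂ) (z : ℂ) : ℂ := Cb (GF τ κ w x) z

/-- `W (|f₁|² e^{-u} + |p|² e^{-2u})` -/
noncomputable def nF (τ κ : ℝ) (w : ℂ → ℝ) (x : ℂ → ℂ) (z : ℂ) : ℝ :=
  W z * (‖f1 z‖ ^ 2 * Real.exp (-uF κ w z) + ‖pF τ x z‖ ^ 2 * Real.exp (-2 * uF κ w z))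

/-- the integral of `nF` -/
noncomputable def NF (τ κ : ℝ) (w : ℂ → ℝ) (x : ℂ → ℂ) : ℝ := ∫ z, nF τ κ w x z

/-- the integral of `|β|² e^u` -/
noncomputable def BF (τ κ : ℝ) (w : ℂ → ℝ) (x : ℂ → ℂ) : ℝ :=
  ∫ z, ‖bF τ κ w x z‖ ^ 2 * Real.exp (uF κ w z)

/-- the positive root of `κ B a² + N a = π` -/
noncomputable def aF (τ κ : ℝ) (w : ℂ → ℝ) (x : ℂ → ℂ) : ℝ :=
  2 * Real.pi / (NF τ κ w x + Real.sqrt (NF τ κ w x ^ 2 + 4 * Real.pi * κ * BF τ κ w x))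

/-- `Q = κ a² |β|² e^u + a W (|f₁|² e^{-u} + |p|² e^{-2u})` -/
noncomputable def QF (τ κ : ℝ) (w : ℂ → ℝ) (x : ℂ → ℂ) (z : ℂ) : ℝ :=
  κ * aF τ κ w x ^ 2 * (‖bF τ κ w x z‖ ^ 2 * Real.exp (uF κ w z)) + aF τ κ w x * nF τ κ w x z

/-- `w* = -(1/π) ∫ log (|z - c|² / ρ(z)) Q(c)` -/
noncomputable def wS (τ κ : ℝ) (w : ℂ → ℝ) (x : ℂ → ℂ) (z : ℂ) : ℝ :=
  -(1 / Real.pi) * ∫ c, Lg z c * QF τ κ w x c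

/-- `x* = a C[e^u β]` -/
noncomputable def xS (τ κ : ℝ) (w : ℂ → ℝ) (x : ℂ → ℂ) (z : ℂ) : ℂ :=
  (aF τ κ w x : ℂ) * Ct (fun c => (Real.exp (uF κ w c) : ℂ) * bF τ κ w x c) z

/-- The domain of the fixed point map: the unit ball, with the parity conditions. -/
structure Ball1 (w : ℂ → ℝ) (x : ℂ → ℂ) : Prop where
  cw : Continuous w
  cx : Continuous x
  bw : ∀ z, |w z| ≤ 1
  bx : ∀ z, ‖x z‖ ≤ 1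
  ew : ∀ z, w (-z) = w z
  ox : ∀ z, x (-z) = -x z

/-- **PT**: pointwise estimates of the ingredients, uniform on the unit ball and for small `κ`. -/
def T_PT : Prop :=
  ∃ K : ℝ, 0 < K ∧ ∀ τ ∈ Icc (1 : ℝ) 2, ∀ κ ∈ Icc (0 : ℝ) (1 / 16), ∀ (w : ℂ → ℝ) (x : ℂ → ℂ),
    Ball1 w x →
    -- the source of `β` is dominated and odd
    (∀ z, ‖GF τ κ w x z‖ ≤ K * (Om z / (1 + ‖z‖ ^ 2))) ∧ Measurable (GF τ κ w x) ∧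
    (∀ z, GF τ κ w x (-z) = -GF τ κ w x z) ∧
    -- `β` is continuous, even and decays
    (∀ z, ‖bF τ κ w x z‖ ≤ K / (1 + ‖z‖ ^ 2)) ∧ Continuous (bF τ κ w x) ∧
    (∀ z, bF τ κ w x (-z) = bF τ κ w x z) ∧
    -- the other densities
    (∀ z, 0 ≤ nF τ κ w x z ∧ nF τ κ w x z ≤ K * (Om z / (1 + ‖z‖ ^ 2))) ∧
    Measurable (nF τ κ w x) ∧ Integrable (nF τ κ w x) ∧
    Integrable (fun z => ‖bF τ κ w x z‖ ^ 2 * Real.exp (uF κ w z)) ∧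
    K⁻¹ ≤ NF τ κ w x ∧ NF τ κ w x ≤ K ∧ 0 ≤ BF τ κ w x ∧ BF τ κ w x ≤ K ∧
    K⁻¹ ≤ aF τ κ w x ∧ aF τ κ w x ≤ K ∧
    κ * BF τ κ w x * aF τ κ w x ^ 2 + NF τ κ w x * aF τ κ w x = Real.pi ∧
    (∀ z, 0 ≤ QF τ κ w x z ∧ QF τ κ w x z ≤ K * (Om z / (1 + ‖z‖ ^ 2))) ∧
    Measurable (QF τ κ w x) ∧ (∫ z, QF τ κ w x z) = Real.pi ∧
    -- the values of the map
    Continuous (wS τ κ w x) ∧ Continuous (xS τ κ w x) ∧ (∀ z, |wS τ κ w x z| ≤ K) ∧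
    (∀ z, ‖xS τ κ w x z‖ ≤ K) ∧ (∀ z, wS τ κ w x (-z) = wS τ κ w x z) ∧
    (∀ z, xS τ κ w x (-z) = -xS τ κ w x z)

/-- **LIP**: the fixed point map is Lipschitz, uniformly on the unit ball and for small `κ`. -/
def T_LIP : Prop :=
  ∃ K : ℝ, 0 < K ∧ ∀ τ ∈ Icc (1 : ℝ) 2, ∀ κ ∈ Icc (0 : ℝ) (1 / 16),
    ∀ (w w' : ℂ → ℝ) (x x' : ℂ → ℂ), Ball1 w x → Ball1 w' x' → ∀ δ : ℝ,
    (∀ z, |w z - w' z| ≤ δ) → (∀ z, ‖x z - x' z‖ ≤ δ) →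
    (∀ z, |wS τ κ w x z - wS τ κ w' x' z| ≤ K * δ) ∧
    (∀ z, ‖xS τ κ w x z - xS τ κ w' x' z‖ ≤ K * δ)

/-- the limit value of `a` -/
noncomputable def a0 (τ : ℝ) : ℝ :=
  Real.pi / ((∫ z, W z * ‖f1 z‖ ^ 2) + τ * ∫ z, W z * ‖f2 z‖ ^ 2)

/-- **ALIM**: if `w` and `x` are of size `κ` then `a` is close to its limit value. -/
def T_ALIM : Prop :=
  (0 < ∫ z, W z * ‖f1 z‖ ^ 2) ∧ (0 < ∫ z, W z * ‖f2 z‖ ^ 2) ∧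
  ∀ R : ℝ, 0 < R → ∃ C : ℝ, 0 < C ∧ ∀ τ ∈ Icc (1 : ℝ) 2, ∀ κ ∈ Icc (0 : ℝ) (1 / 16),
    ∀ (w : ℂ → ℝ) (x : ℂ → ℂ), Ball1 w x → (∀ z, |w z| ≤ R * κ) → (∀ z, ‖x z‖ ≤ R * κ) →
    |aF τ κ w x - a0 τ| ≤ C * κ

/-- **FIX**: existence of fixed points. -/
def T_FIX : Prop :=
  ∃ κ₀ C : ℝ, 0 < κ₀ ∧ κ₀ ≤ 1 / 16 ∧ 0 < C ∧ ∀ τ ∈ Icc (1 : ℝ) 2, ∀ κ ∈ Ioc (0 : ℝ) κ₀,
    ∃ (w : ℂ → ℝ) (x : ℂ → ℂ), Ball1 w x ∧ (∀ z, |w z| ≤ C * κ) ∧ (∀ z, ‖x z‖ ≤ C * κ) ∧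
      (∀ z, w z = κ * wS τ κ w x z) ∧ (∀ z, x z = (κ : ℂ) * xS τ κ w x z)

/-- **ZS**: a fixed point gives a solution in the plane, after a change of scale. -/
def T_ZS : Prop :=
  ∀ (M : ℕ), 16 ≤ M → ∀ τ ∈ Icc (1 : ℝ) 2, ∀ (w : ℂ → ℝ) (x : ℂ → ℂ), Ball1 w x →
    (∀ z, w z = (1 / M : ℝ) * wS τ (1 / M) w x z) →
    (∀ z, x z = ((1 / M : ℝ) : ℂ) * xS τ (1 / M) w x z) →
    ∃ b q : ℂ → ℂ, ZSol M (Real.sqrt ((1 / M : ℝ) * aF τ (1 / M) w x / τ))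
      (fun z => uF (1 / M) w z - Real.log τ) (fun z => x z / (Real.sqrt τ : ℂ)) b q

end Pool.Agent.Helper614.HE
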