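import Pool.Agent.Helper614.HE.Spec

/-!
# Specification of the geometric parts: the Higgs bundle on the surface
-/

set_option autoImplicit false

open scoped Manifold ContDiff Matrix ComplexOrder
open Matrix Topology MeasureTheory Set Filter

namespace Pool.Agent.Helper614.HE

/-- The coefficients at `x`, in the coordinate `e`, of the holomorphic 1-form `dv/y` of the copy
`j` of the affine curve. (Since `y⁴ = v^{4m} + 1`, it is equal to `y² dy / (m v^{4m-1})`.) -/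
noncomputable def th (m : ℕ) (j : Bool) (e : OpenPartialHomeomorph (SX m) ℂ) (x : SX m) : ℂ :=
  if YY m j x ≠ 0 then deriv (fun z => VV m j (e.symm z)) (e x) / YY m j x
  else YY m j x ^ 2 * deriv (fun z => YY m j (e.symm z)) (e x) /
    ((m : ℂ) * VV m j x ^ (4 * m - 1))

/-- The entry `A` of the Higgs field in the copy `j`. -/
noncomputable def AA (M : ℕ) (j : Bool) (v : ℂ) : ℂ :=
  if j = false then v ^ (M - 1) * (v ^ (2 * M) - 1) else -(v ^ (M - 2) * (1 - v ^ (2 * M)))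

/-- The entry `Ψ` of the Higgs field in the copy `j`. -/
noncomputable def PP (M : ℕ) (j : Bool) (v : ℂ) : ℂ :=
  if j = false then v ^ (2 * M - 1) else -(v ^ (2 * M - 3))

/-- The transition functions of `O(D) ⊕ O ⊕ O(-D)`, where `D` is the divisor `t = 0` and `t = 1/v`. -/
noncomputable def gg (M : ℕ) (i j : Bool) (x : SX (4 * M)) : Matrix (Fin 3) (Fin 3) ℂ :=
  if i = j then 1 else Matrix.diagonal ![VV (4 * M) i x, 1, (VV (4 * M) i x)⁻¹]

/-- The Higgs field. -/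
noncomputable def ph (M : ℕ) (j : Bool) (e : OpenPartialHomeomorph (SX (4 * M)) ℂ)
    (x : SX (4 * M)) : Matrix (Fin 3) (Fin 3) ℂ :=
  th (4 * M) j e x • Nm (AA M j (VV (4 * M) j x)) (PP M j (VV (4 * M) j x))

/-- The conditions on the data `gg`, `ph`. -/
structure HBProps (M : ℕ) [ChartedSpace ℂ (SX (4 * M))] : Prop where
  isOpen_U : ∀ i, IsOpen (UU (4 * M) i)
  cover : ∀ x, ∃ i, x ∈ UU (4 * M) i
  holo_g : ∀ i j, ∀ e ∈ atlas ℂ (SX (4 * M)), ∀ r c,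
    DifferentiableOn ℂ (fun z => gg M i j (e.symm z) r c)
      (e.target ∩ e.symm ⁻¹' (UU (4 * M) i ∩ UU (4 * M) j))
  det_g : ∀ i j, ∀ x ∈ UU (4 * M) i ∩ UU (4 * M) j, (gg M i j x).det = 1
  cocycle : ∀ i j k, ∀ x ∈ UU (4 * M) i ∩ UU (4 * M) j ∩ UU (4 * M) k,
    gg M i j x * gg M j k x = gg M i k x
  trace_φ : ∀ i, ∀ e ∈ atlas ℂ (SX (4 * M)), ∀ x ∈ UU (4 * M) i ∩ e.source,
    (ph M i e x).trace = 0
  holo_φ : ∀ i, ∀ e ∈ atlas ℂ (SX (4 * M)), ∀ r c,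
    DifferentiableOn ℂ (fun z => ph M i e (e.symm z) r c)
      (e.target ∩ e.symm ⁻¹' UU (4 * M) i)
  change_φ : ∀ i, ∀ e ∈ atlas ℂ (SX (4 * M)), ∀ e' ∈ atlas ℂ (SX (4 * M)),
    ∀ x ∈ UU (4 * M) i ∩ (e.source ∩ e'.source),
    ph M i e x = deriv (e' ∘ e.symm) (e x) • ph M i e' x
  glue_φ : ∀ i j, ∀ e ∈ atlas ℂ (SX (4 * M)), ∀ x ∈ (UU (4 * M) i ∩ UU (4 * M) j) ∩ e.source,
    ph M i e x * gg M i j x = gg M i j x * ph M j e x

/-- The Higgs bundle. -/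
noncomputable def HB (M : ℕ) [ChartedSpace ℂ (SX (4 * M))] (h : HBProps M) :
    HiggsBundle 3 (SX (4 * M)) where
  ι := Bool
  U := UU (4 * M)
  isOpen_U := h.isOpen_U
  cover := h.cover
  g := gg M
  holo_g := h.holo_g
  det_g := h.det_g
  cocycle := h.cocycle
  φ := ph M
  trace_φ := h.trace_φ
  holo_φ := h.holo_φ
  change_φ := h.change_φ
  glue_φ := h.glue_φ

/-- **HB**: the data define a Higgs bundle. -/
def T_HB : Prop := ∀ M : ℕ, 2 ≤ M → ∀ inst : ChartedSpace ℂ (SX (4 * M)), SBasic (4 * M) →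
  @SGood (4 * M) inst → @HBProps M inst

/-- **GEN**: the genus is at least two. -/
def T_GEN : Prop := ∀ M : ℕ, 1 ≤ M → ∀ inst : ChartedSpace ℂ (SX (4 * M)), SBasic (4 * M) →
  @SGood (4 * M) inst → @GenusAtLeastTwo (SX (4 * M)) _ inst

/-- **STAB**: the Higgs bundle is stable. -/
def T_STAB : Prop := ∀ M : ℕ, 2 ≤ M → ∀ inst : ChartedSpace ℂ (SX (4 * M)), SBasic (4 * M) →
  @SGood (4 * M) inst → ∀ h : @HBProps M inst, @IsStable 3 (SX (4 * M)) _ inst (@HB M inst h)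

/-- **GEO**: a solution in the plane gives a harmonic metric on the surface. -/
def T_GEO : Prop := ∀ M : ℕ, 5 ≤ M → ∀ inst : ChartedSpace ℂ (SX (4 * M)), SBasic (4 * M) →
  @SGood (4 * M) inst → ∀ (h : @HBProps M inst) (σ : ℝ) (u : ℂ → ℝ) (x b q : ℂ → ℂ), 0 < σ →
  ZSol M σ u x b q →
  ∃ hm : Bool → SX (4 * M) → Matrix (Fin 3) (Fin 3) ℂ,
    @IsHarmonicMetric 3 (SX (4 * M)) _ inst (@HB M inst h) (M * σ) hm ∧
    ∀ p ∈ UU (4 * M) false, VV (4 * M) false p = 1 → ∀ (ρ) (i : Bool),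
      ∀ e ∈ @atlas ℂ _ (SX (4 * M)) _ inst, p ∈ e.source →
      @energyDensity 3 (SX (4 * M)) _ inst (@HB M inst h) ρ (M * σ) hm i e p =
        8 * ((M * σ) ^ 2 * ‖th (4 * M) false e p‖ ^ 2 * Real.exp (-2 * u 1)) / ρ e p

end Pool.Agent.Helper614.HE
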