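import Pool.Agent.Helper614.HE.SpecA
import Pool.Agent.Helper614.HE.SpecG

/-!
# Specification of the smaller parts
-/

set_option autoImplicit false

open scoped Manifold ContDiff Matrix ComplexOrder
open Matrix Topology MeasureTheory Set Filter

namespace Pool.Agent.Helper614.HE

/-! ### Kernel estimates -/

/-- **KE1**: partial fractions. -/
def T_KE1 : Prop :=
  ∃ S : Finset ℂ, (∀ c ∈ S, c ^ 16 = -1) ∧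
    ∀ z : ℂ, z ^ 16 + 1 ≠ 0 → ‖z ^ 16 + 1‖⁻¹ ≤ ∑ c ∈ S, ‖z - c‖⁻¹

/-- **KE2**: integrability of powers. -/
def T_KE2 : Prop :=
  (∀ s : ℝ, s < 2 → ∀ R : ℝ, IntegrableOn (fun w : ℂ => ‖w‖ ^ (-s)) (Metric.closedBall 0 R)) ∧
  (∀ s : ℝ, 2 < s → IntegrableOn (fun w : ℂ => ‖w‖ ^ (-s)) {w : ℂ | 1 ≤ ‖w‖})

/-- **KE3**: integrability of powers of the weight. -/
def T_KE3 : Prop :=
  Integrable (fun w : ℂ => Om w ^ (3 : ℝ)) ∧ Integrable (fun w : ℂ => Om w ^ (3 / 2 : ℝ))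

/-- **OM**: elementary properties of the weights. -/
def T_OM : Prop :=
  Measurable W ∧ Measurable Om ∧ (∀ z, 0 ≤ W z) ∧ (∀ z, 0 < Om z) ∧ (∀ z, W (-z) = W z) ∧
  (∀ z, Om (-z) = Om z) ∧ (∀ z : ℂ, z ^ 16 + 1 ≠ 0 → 0 < W z ∧ (1 + ‖z‖ ^ 2) ^ (-4 : ℝ) ≤ W z) ∧
  (∀ z : ℂ, z ^ 16 + 1 ≠ 0 → ContDiffAt ℝ ∞ W z) ∧
  (∀ z, (1 + ‖z‖ ^ 2) ^ (-(7 / 8) : ℝ) ≤ Om z) ∧ (∀ z, (1 + ‖z‖ ^ 2)⁻¹ ≤ Om z) ∧
  (∀ z, W z * (1 + ‖z‖ ^ 2) ^ (17 / 8 : ℝ) ≤ Om z / (1 + ‖z‖ ^ 2)) ∧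
  (∀ z, ((1 + ‖z‖ ^ 2) ^ 2)⁻¹ ≤ Om z / (1 + ‖z‖ ^ 2))

/-- **DEC1** -/
def T_DEC1 : Prop :=
  ∃ K : ℝ, 0 < K ∧
    (∀ (G : ℂ → ℂ) (c : ℝ), Measurable G → 0 ≤ c → (∀ w, ‖G w‖ ≤ c * (Om w / (1 + ‖w‖ ^ 2))) →
      (∀ w, G (-w) = -G w) →
      (∀ z, ‖Cb G z‖ ≤ K * c / (1 + ‖z‖ ^ 2)) ∧ Continuous (Cb G) ∧ ∀ z, Cb G (-z) = Cb G z)

/-- **DEC2** -/
def T_DEC2 : Prop :=
  ∃ K : ℝ, 0 < K ∧
    (∀ (f : ℂ → ℂ) (c : ℝ), Measurable f → 0 ≤ c → (∀ w, ‖f w‖ ≤ c / (1 + ‖w‖ ^ 2)) →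
      (∀ w, ‖f w‖ ≤ c * Om w) ∧ ∀ z, ‖Ct f z‖ ≤ K * c * (1 + ‖z‖) ^ (-(1 / 4) : ℝ))

/-- **DEC3** -/
def T_DEC3 : Prop :=
  ∃ K : ℝ, 0 < K ∧
    (∀ (Q : ℂ → ℂ) (c : ℝ), Measurable Q → 0 ≤ c → (∀ w, ‖Q w‖ ≤ c * (Om w / (1 + ‖w‖ ^ 2))) →
      Integrable Q ∧
      ∀ z, ‖z * Ct Q z - (1 / Real.pi : ℝ) * ∫ w, Q w‖ ≤ K * c * (1 + ‖z‖) ^ (-(1 / 4) : ℝ))

/-- **LOG1** -/
def T_LOG1 : Prop :=
  ∃ K : ℝ, 0 < K ∧ ∀ (Q : ℂ → ℝ) (c : ℝ), Measurable Q → 0 ≤ c →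
    (∀ w, |Q w| ≤ c * (Om w / (1 + ‖w‖ ^ 2))) →
    Integrable Q ∧ (∀ z, Integrable (fun w => Lg z w * Q w)) ∧
    (∀ z, Integrable (fun w => Real.log (‖z - w‖ ^ 2) * Q w)) ∧
    (∀ z, |∫ w, Lg z w * Q w| ≤ K * c) ∧
    (∀ z, (∫ w, Real.log (‖z - w‖ ^ 2) * Q w) =
      (∫ w, Lg z w * Q w) + Real.log (1 + ‖z‖ ^ 2) * ∫ w, Q w)

/-- **LOG2** -/
def T_LOG2 : Prop :=
  ∀ Q : ℂ → ℝ, Measurable Q → (∀ z, Integrable (fun w => (Q w : ℂ) / (z - w))) →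
    (∀ z, Integrable (fun w => Real.log (‖z - w‖ ^ 2) * Q w)) →
    (∃ K : ℝ, ∀ z, (∫ w, |Q w| / ‖z - w‖) ≤ K) → Continuous (Ct (fun w => (Q w : ℂ))) →
    ∀ z, ContDiffAt ℝ 1 (fun z => ∫ w, Real.log (‖z - w‖ ^ 2) * Q w) z ∧
      dz (fun z => ((∫ w, Real.log (‖z - w‖ ^ 2) * Q w : ℝ) : ℂ)) z =
        Real.pi * Ct (fun w => (Q w : ℂ)) z

/-! ### Hoelder regularity of Cauchy transforms -/

/-- **LHa** -/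
def T_LHa : Prop :=
  ∀ θ : ℝ, 0 < θ → θ < 1 → ∃ C : ℝ, 0 < C ∧ ∀ z w : ℂ, w ≠ 0 →
    Integrable (fun ζ : ℂ => ‖z - ζ‖ ^ (θ - 2) * ‖z + w - ζ‖⁻¹) ∧
    ∫ ζ : ℂ, ‖z - ζ‖ ^ (θ - 2) * ‖z + w - ζ‖⁻¹ ≤ C * ‖w‖ ^ (θ - 1)

/-- **C1**: the Cauchy transform of a compactly supported `C¹` function. -/
def T_C1 : Prop :=
  ∀ f : ℂ → ℂ, ContDiff ℝ 1 f → HasCompactSupport f → ContDiff ℝ 1 (Ct f) ∧
    ∀ z, Integrable (fun w => f w / (z - w)) ∧ dzb (Ct f) z = f z ∧ dz (Ct f) z = Ct (dz f) z ∧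
      Ct (dzb f) z = f z

/-- **LHb**: second order expansion of the Cauchy transform of a smooth function. -/
def T_LHb : Prop :=
  ∀ χ : ℂ → ℂ, ContDiff ℝ ∞ χ → HasCompactSupport χ → ∀ R : ℝ, ∃ C : ℝ, 0 ≤ C ∧ ∀ z w : ℂ,
    ‖z‖ ≤ R → ‖w‖ ≤ 1 → ‖Ct χ (z + w) - Ct χ z - fderiv ℝ (Ct χ) z w‖ ≤ C * ‖w‖ ^ 2

/-- **LHc**: a uniform Taylor expansion implies that the derivative is Hoelder continuous. -/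
def T_LHc : Prop :=
  ∀ (F : ℂ → ℂ) (D : ℂ → (ℂ →L[ℝ] ℂ)) (z0 : ℂ) (r θ C : ℝ), 0 < r → 0 < θ → 0 ≤ C →
    (∀ z ∈ Metric.ball z0 r, ∀ w : ℂ, z + w ∈ Metric.ball z0 r →
      ‖F (z + w) - F z - D z w‖ ≤ C * ‖w‖ ^ (1 + θ)) →
    (∀ z ∈ Metric.ball z0 r, HasFDerivAt F (D z) z) ∧
    ∃ L' : ℝ, ∀ z ∈ Metric.ball z0 (r / 2), ∀ z' ∈ Metric.ball z0 (r / 2),
      ‖D z - D z'‖ ≤ L' * ‖z - z'‖ ^ θ

/-- **LHd**: the Cauchy transform is holomorphic off the support. -/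
def T_LHd : Prop :=
  ∀ f : ℂ → ℂ, Measurable f → (∀ z, Integrable (fun w => f w / (z - w))) →
    ∀ (z0 : ℂ) (r : ℝ), (∀ w ∈ Metric.ball z0 r, f w = 0) →
      DifferentiableOn ℂ (Ct f) (Metric.ball z0 r)

/-- **LHe**: the uniform expansion for Hoelder continuous functions with compact support. -/
def T_LHe : Prop :=
  ∀ (g : ℂ → ℂ) (θ L R : ℝ), 0 < θ → θ < 1 → (∀ w w', ‖g w - g w'‖ ≤ L * ‖w - w'‖ ^ θ) →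
    (∀ w, R < ‖w‖ → g w = 0) → (∀ z, Integrable (fun w => g w / (z - w))) ∧
    ∃ D : ℂ → (ℂ →L[ℝ] ℂ), (∀ z, (D z 1 + Complex.I * D z Complex.I) / 2 = g z) ∧
      ∀ R' : ℝ, ∃ C : ℝ, 0 ≤ C ∧ ∀ z w : ℂ, ‖z‖ ≤ R' → ‖w‖ ≤ 1 →
        ‖Ct g (z + w) - Ct g z - D z w‖ ≤ C * ‖w‖ ^ (1 + θ)

/-- **LHf**: cutting off a locally Hoelder continuous function. -/
def T_LHf : Prop :=
  ∀ (f χ : ℂ → ℂ) (z0 : ℂ) (r r' θ L : ℝ), 0 < r' → r' < r → 0 < θ → θ < 1 →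
    (∀ w ∈ Metric.ball z0 r, ∀ w' ∈ Metric.ball z0 r, ‖f w - f w'‖ ≤ L * ‖w - w'‖ ^ θ) →
    ContDiff ℝ 1 χ → (∀ w, w ∉ Metric.ball z0 r' → χ w = 0) →
    ∃ L' : ℝ, ∀ w w', ‖χ w * f w - χ w' * f w'‖ ≤ L' * ‖w - w'‖ ^ θ

/-! ### Removable singularities and bootstrapping -/

/-- **REM1** -/
def T_REM1 : Prop :=
  ∀ (D : Set ℂ), IsOpen D → ∀ t0 ∈ D, ∀ (w F : ℂ → ℂ),
    (∀ t ∈ D \ {t0}, ContDiffAt ℝ 1 w t ∧ ContDiffAt ℝ 1 F t ∧ dzb w t = F t) →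
    (∃ C : ℝ, ∀ t ∈ D \ {t0}, ‖w t‖ ≤ C ∧ ‖F t‖ ≤ C) →
    ∃ (w' : ℂ → ℂ) (r L : ℝ), 0 < r ∧ Metric.ball t0 r ⊆ D ∧ (∀ t, t ≠ t0 → w' t = w t) ∧
      ∀ z ∈ Metric.ball t0 r, ∀ z' ∈ Metric.ball t0 r,
        ‖w' z - w' z'‖ ≤ L * ‖z - z'‖ ^ (1 / 2 : ℝ)

/-- **REM2** -/
def T_REM2 : Prop :=
  ∀ (D : Set ℂ), IsOpen D → ∀ t0 ∈ D, ∀ (w F : ℂ → ℂ) (r θ L : ℝ), 0 < r → 0 < θ → θ < 1 →
    Metric.ball t0 r ⊆ D →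
    (∀ z ∈ Metric.ball t0 r, ∀ z' ∈ Metric.ball t0 r, ‖F z - F z'‖ ≤ L * ‖z - z'‖ ^ θ) →
    (∀ t ∈ D \ {t0}, ContDiffAt ℝ 1 w t ∧ dzb w t = F t) →
    (∃ C : ℝ, ∀ t ∈ D \ {t0}, ‖w t‖ ≤ C) →
    ∃ w' : ℂ → ℂ, (∀ t, t ≠ t0 → w' t = w t) ∧ ContDiffAt ℝ 1 w' t0 ∧ dzb w' t0 = F t0

/-- The classes of functions for the bootstrapping: locally Hoelder continuous functions, and
functions of class `C¹` with both Wirtinger derivatives in the preceding class. -/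
def PC (D : Set ℂ) : ℕ → (ℂ → ℂ) → Prop
  | 0, f => ∀ z ∈ D, ∃ r θ L : ℝ, 0 < r ∧ 0 < θ ∧ θ < 1 ∧
      ∀ w ∈ Metric.ball z r, ∀ w' ∈ Metric.ball z r, ‖f w - f w'‖ ≤ L * ‖w - w'‖ ^ θ
  | m + 1, f => (∀ z ∈ D, ContDiffAt ℝ 1 f z) ∧ PC D m (dz f) ∧ PC D m (dzb f)

/-- **BT1**: the classes are closed under the algebraic operations. -/
def T_BT1 : Prop :=
  ∀ D : Set ℂ, IsOpen D → ∀ m : ℕ,
    (∀ f, PC D (m + 1) f → PC D m f) ∧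
    (∀ f, (∀ z ∈ D, ContDiffAt ℝ 1 f z) → PC D 0 f) ∧
    (∀ f g, (∀ z ∈ D, f z = g z) → PC D m f → PC D m g) ∧
    (∀ f g, PC D m f → PC D m g → PC D m (fun z => f z + g z)) ∧
    (∀ f g, PC D m f → PC D m g → PC D m (fun z => f z * g z)) ∧
    (∀ f, PC D m f → PC D m (fun z => (starRingEnd ℂ) (f z))) ∧
    (∀ f, DifferentiableOn ℂ f D → PC D m f) ∧
    (∀ f, PC D m f → PC D m (fun z => Complex.exp (f z))) ∧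
    (∀ f, (∀ z ∈ D, ∃ D' : Set ℂ, IsOpen D' ∧ z ∈ D' ∧ PC D' m f) → PC D m f) ∧
    (∀ f, ContDiffOn ℝ ∞ f D → PC D m f) ∧
    (∀ f (D' : Set ℂ), IsOpen D' → D' ⊆ D → PC D m f → PC D' m f)

/-- **BT2**: functions in all the classes are smooth. -/
def T_BT2 : Prop :=
  ∀ D : Set ℂ, IsOpen D → ∀ f : ℂ → ℂ, (∀ m, PC D m f) → ContDiffOn ℝ ∞ f D

/-- **BT3**: the Cauchy transform gains one derivative. -/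
def T_BT3 : Prop :=
  ∀ (m : ℕ) (f : ℂ → ℂ), HasCompactSupport f → PC univ m f →
    PC univ (m + 1) (Ct f) ∧ ∀ z, ContDiffAt ℝ 1 (Ct f) z ∧ dzb (Ct f) z = f z

/-- **BT4**: interior regularity. -/
def T_BT4 : Prop :=
  ∀ D : Set ℂ, IsOpen D → ∀ (m : ℕ) (w : ℂ → ℂ), (∀ z ∈ D, ContDiffAt ℝ 1 w z) →
    PC D m (dzb w) → PC D (m + 1) w

/-! ### The fixed point problem -/

/-- **PT1**: pointwise estimates of the densities. -/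
def T_PT1 : Prop :=
  ∃ K : ℝ, 0 < K ∧ ∀ τ ∈ Icc (1 : ℝ) 2, ∀ κ ∈ Icc (0 : ℝ) (1 / 16), ∀ (w : ℂ → ℝ) (x : ℂ → ℂ),
    Ball1 w x →
    Continuous (uF κ w) ∧ (∀ z, uF κ w (-z) = uF κ w z) ∧ (∀ z, Real.exp (uF κ w z) ≤ K) ∧
    (∀ z, Real.exp (-uF κ w z) ≤ K * (1 + ‖z‖ ^ 2) ^ (1 / 16 : ℝ)) ∧
    (∀ z, Real.exp (-2 * uF κ w z) ≤ K * (1 + ‖z‖ ^ 2) ^ (1 / 8 : ℝ)) ∧
    Continuous (pF τ x) ∧ (∀ z, pF τ x (-z) = -pF τ x z) ∧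
    (∀ z, ‖pF τ x z‖ ≤ K * (1 + ‖z‖ ^ 2)) ∧ (∀ z, ‖f1 z‖ ≤ 1 + ‖z‖ ^ 2) ∧
    (∀ z, ‖GF τ κ w x z‖ ≤ K * (Om z / (1 + ‖z‖ ^ 2))) ∧ Measurable (GF τ κ w x) ∧
    (∀ z, GF τ κ w x (-z) = -GF τ κ w x z) ∧
    (∀ z, 0 ≤ nF τ κ w x z ∧ nF τ κ w x z ≤ K * (Om z / (1 + ‖z‖ ^ 2))) ∧
    Measurable (nF τ κ w x) ∧ (∀ z, nF τ κ w x (-z) = nF τ κ w x z) ∧
    (∀ z, Real.exp (-1) * (W z * ‖f1 z‖ ^ 2) ≤ nF τ κ w x z)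

/-- **WI**: integrability and positivity of the basic integrals. -/
def T_WI : Prop :=
  Integrable (fun z : ℂ => Om z / (1 + ‖z‖ ^ 2)) ∧
  Integrable (fun z : ℂ => W z * ‖f1 z‖ ^ 2) ∧ Integrable (fun z : ℂ => W z * ‖f2 z‖ ^ 2) ∧
  (0 < ∫ z, W z * ‖f1 z‖ ^ 2) ∧ (0 < ∫ z, W z * ‖f2 z‖ ^ 2)

/-- **AQ**: the positive root of `κ B a² + N a = π`. -/
def T_AQ : Prop :=
  ∀ K : ℝ, 1 ≤ K → ∃ K' : ℝ, 0 < K' ∧ ∀ κ ∈ Icc (0 : ℝ) (1 / 16), ∀ N ∈ Icc K⁻¹ K,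
    ∀ B ∈ Icc (0 : ℝ) K, ∀ N' ∈ Icc K⁻¹ K, ∀ B' ∈ Icc (0 : ℝ) K, ∀ a a' : ℝ,
    a = 2 * Real.pi / (N + Real.sqrt (N ^ 2 + 4 * Real.pi * κ * B)) →
    a' = 2 * Real.pi / (N' + Real.sqrt (N' ^ 2 + 4 * Real.pi * κ * B')) →
    K'⁻¹ ≤ a ∧ a ≤ K' ∧ κ * B * a ^ 2 + N * a = Real.pi ∧
    |a - a'| ≤ K' * (|N - N'| + |B - B'|) ∧ |a - Real.pi / N| ≤ K' * κ

/-- **PT2**: the second group of the estimates. -/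
def T_PT2 : Prop :=
  ∃ K : ℝ, 0 < K ∧ ∀ τ ∈ Icc (1 : ℝ) 2, ∀ κ ∈ Icc (0 : ℝ) (1 / 16), ∀ (w : ℂ → ℝ) (x : ℂ → ℂ),
    Ball1 w x →
    (∀ z, ‖bF τ κ w x z‖ ≤ K / (1 + ‖z‖ ^ 2)) ∧ Continuous (bF τ κ w x) ∧
    (∀ z, bF τ κ w x (-z) = bF τ κ w x z) ∧ Integrable (nF τ κ w x) ∧
    Integrable (fun z => ‖bF τ κ w x z‖ ^ 2 * Real.exp (uF κ w z)) ∧
    K⁻¹ ≤ NF τ κ w x ∧ NF τ κ w x ≤ K ∧ 0 ≤ BF τ κ w x ∧ BF τ κ w x ≤ K ∧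
    K⁻¹ ≤ aF τ κ w x ∧ aF τ κ w x ≤ K ∧
    κ * BF τ κ w x * aF τ κ w x ^ 2 + NF τ κ w x * aF τ κ w x = Real.pi ∧
    (∀ z, 0 ≤ QF τ κ w x z ∧ QF τ κ w x z ≤ K * (Om z / (1 + ‖z‖ ^ 2))) ∧
    Measurable (QF τ κ w x) ∧ (∀ z, QF τ κ w x (-z) = QF τ κ w x z) ∧
    (∫ z, QF τ κ w x z) = Real.pi

/-- **PT3**: the third group of the estimates. -/
def T_PT3 : Prop :=
  ∃ K : ℝ, 0 < K ∧ ∀ τ ∈ Icc (1 : ℝ) 2, ∀ κ ∈ Icc (0 : ℝ) (1 / 16), ∀ (w : ℂ → ℝ) (x : ℂ → ℂ),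
    Ball1 w x →
    Continuous (wS τ κ w x) ∧ Continuous (xS τ κ w x) ∧ (∀ z, |wS τ κ w x z| ≤ K) ∧
    (∀ z, ‖xS τ κ w x z‖ ≤ K) ∧ (∀ z, wS τ κ w x (-z) = wS τ κ w x z) ∧
    (∀ z, xS τ κ w x (-z) = -xS τ κ w x z)

/-- **LIP1**: pointwise differences of the densities. -/
def T_LIP1 : Prop :=
  ∃ K : ℝ, 0 < K ∧ ∀ τ ∈ Icc (1 : ℝ) 2, ∀ κ ∈ Icc (0 : ℝ) (1 / 16),
    ∀ (w w' : ℂ → ℝ) (x x' : ℂ → ℂ), Ball1 w x → Ball1 w' x' → ∀ δ : ℝ,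
    (∀ z, |w z - w' z| ≤ δ) → (∀ z, ‖x z - x' z‖ ≤ δ) →
    (∀ z, |Real.exp (uF κ w z) - Real.exp (uF κ w' z)| ≤ K * δ) ∧
    (∀ z, ‖GF τ κ w x z - GF τ κ w' x' z‖ ≤ K * δ * (Om z / (1 + ‖z‖ ^ 2))) ∧
    (∀ z, |nF τ κ w x z - nF τ κ w' x' z| ≤ K * δ * (Om z / (1 + ‖z‖ ^ 2)))

/-- **LIP2**: differences of the other quantities. -/
def T_LIP2 : Prop :=
  ∃ K : ℝ, 0 < K ∧ ∀ τ ∈ Icc (1 : ℝ) 2, ∀ κ ∈ Icc (0 : ℝ) (1 / 16),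
    ∀ (w w' : ℂ → ℝ) (x x' : ℂ → ℂ), Ball1 w x → Ball1 w' x' → ∀ δ : ℝ,
    (∀ z, |w z - w' z| ≤ δ) → (∀ z, ‖x z - x' z‖ ≤ δ) →
    (∀ z, ‖bF τ κ w x z - bF τ κ w' x' z‖ ≤ K * δ / (1 + ‖z‖ ^ 2)) ∧
    |NF τ κ w x - NF τ κ w' x'| ≤ K * δ ∧ |BF τ κ w x - BF τ κ w' x'| ≤ K * δ ∧
    |aF τ κ w x - aF τ κ w' x'| ≤ K * δ ∧
    (∀ z, |QF τ κ w x z - QF τ κ w' x' z| ≤ K * δ * (Om z / (1 + ‖z‖ ^ 2)))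

/-- **NLIM**: the limit of the integral `NF`. -/
def T_NLIM : Prop :=
  ∀ R : ℝ, 0 < R → ∃ C : ℝ, 0 < C ∧ ∀ τ ∈ Icc (1 : ℝ) 2, ∀ κ ∈ Icc (0 : ℝ) (1 / 16),
    ∀ (w : ℂ → ℝ) (x : ℂ → ℂ), Ball1 w x → (∀ z, |w z| ≤ R * κ) → (∀ z, ‖x z‖ ≤ R * κ) →
    |NF τ κ w x - ((∫ z, W z * ‖f1 z‖ ^ 2) + τ * ∫ z, W z * ‖f2 z‖ ^ 2)| ≤ C * κ

/-- **ZR**: regularity of a fixed point. -/
def T_ZR : Prop :=
  ∀ (M : ℕ), 16 ≤ M → ∀ τ ∈ Icc (1 : ℝ) 2, ∀ (w : ℂ → ℝ) (x : ℂ → ℂ), Ball1 w x →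
    (∀ z, w z = (1 / M : ℝ) * wS τ (1 / M) w x z) →
    (∀ z, x z = ((1 / M : ℝ) : ℂ) * xS τ (1 / M) w x z) →
    (∀ z, ContDiffAt ℝ 1 (uF (1 / M) w) z ∧
      dz (fun z => (uF (1 / M) w z : ℂ)) z =
        -((1 / M : ℝ) : ℂ) * Ct (fun c => (QF τ (1 / M) w x c : ℂ)) z) ∧
    ∀ z : ℂ, z ^ 16 + 1 ≠ 0 →
      (ContDiffAt ℝ 1 x z ∧ dzb x z = (((1 / M : ℝ) * aF τ (1 / M) w x : ℝ) : ℂ) *
        ((Real.exp (uF (1 / M) w z) : ℂ) * bF τ (1 / M) w x z)) ∧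
      (ContDiffAt ℝ 1 (bF τ (1 / M) w x) z ∧
        dz (bF τ (1 / M) w x) z = GF τ (1 / M) w x z) ∧
      (ContDiffAt ℝ 1 (Ct (fun c => (QF τ (1 / M) w x c : ℂ))) z ∧
        dzb (Ct (fun c => (QF τ (1 / M) w x c : ℂ))) z = (QF τ (1 / M) w x z : ℂ))

/-! ### Hitchin's equation for the special metrics -/

/-- The nilpotent matrix `ν`, with `nn X = exp (X ν)`. -/
def nu : Matrix (Fin 3) (Fin 3) ℂ := !![0, 0, 0; -1, 0, 0; 0, 1, 0]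

/-- The connection matrix `H⁻¹ ∂H`. -/
noncomputable def ThM (X β q ξ : ℂ) : Matrix (Fin 3) (Fin 3) ℂ :=
  nn (-X) * !![q, -β, 0; 0, 0, β; 0, 0, -q] * nn X + ξ • nu

/-- **HIT1** -/
def T_HIT1 : Prop :=
  ∀ (U : ℂ → ℝ) (X : ℂ → ℂ) (z : ℂ), DifferentiableAt ℝ U z → DifferentiableAt ℝ X z →
    (Hm (U z) (X z))⁻¹ * mdz (fun w => Hm (U w) (X w)) z =
      ThM (X z) ((Real.exp (-U z) : ℂ) * (starRingEnd ℂ) (dzb X z))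
        (dz (fun w => (U w : ℂ)) z) (dz X z)

/-- **HIT2** -/
def T_HIT2 : Prop :=
  ∀ (X β q ξ : ℂ → ℂ) (t : ℂ), DifferentiableAt ℝ X t → DifferentiableAt ℝ β t →
    DifferentiableAt ℝ q t → DifferentiableAt ℝ ξ t →
    mdzb (fun z => ThM (X z) (β z) (q z) (ξ z)) t =
      nn (-X t) * !![dzb q t + dzb X t * β t, -dzb β t, 0; dzb X t * q t, 0, dzb β t;
        0, -(dzb X t * q t), -(dzb q t + dzb X t * β t)] * nn (X t) + dzb ξ t • nu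

/-! ### The geometric part -/

/-- The system in the coordinate `v` (or `t`) of the affine curve. -/
structure VSysAt (M : ℕ) (j : Bool) (s : ℝ) (U : ℂ → ℝ) (X B q : ℂ → ℂ) (v : ℂ) : Prop where
  dU : ContDiffAt ℝ 1 U v
  dX : ContDiffAt ℝ 1 X v
  dB : ContDiffAt ℝ 1 B v
  dq : ContDiffAt ℝ 1 q v
  eU : dz (fun w => (U w : ℂ)) v = q v
  eX : dzb X v = (Real.exp (U v) : ℂ) * B v
  eB : dz B v = ((s ^ 2 * ‖v ^ (16 * M) + 1‖ ^ (-(1 / 2) : ℝ) * Real.exp (-2 * U v) : ℝ) : ℂ) *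
    ((starRingEnd ℂ) (AA M j v) * (PP M j v + 2 * AA M j v * X v))
  eq : dzb q v = -((‖B v‖ ^ 2 * Real.exp (U v) + s ^ 2 * ‖v ^ (16 * M) + 1‖ ^ (-(1 / 2) : ℝ) *
    (‖AA M j v‖ ^ 2 * Real.exp (-U v) +
      ‖PP M j v + 2 * AA M j v * X v‖ ^ 2 * Real.exp (-2 * U v)) : ℝ) : ℂ)

/-- A solution on the affine curve. -/
structure VSol (M : ℕ) (j : Bool) (s : ℝ) (U : ℂ → ℝ) (X B q : ℂ → ℂ) : Prop where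
  cU : Continuous U
  cX : Continuous X
  cB : Continuous B
  cq : Continuous q
  sys : ∀ v : ℂ, v ^ (16 * M) + 1 ≠ 0 → VSysAt M j s U X B q v

/-- **G1**: the copy `false`. -/
def T_G1 : Prop :=
  ∀ (M : ℕ), 1 ≤ M → ∀ (σ : ℝ) (u : ℂ → ℝ) (x b q : ℂ → ℂ), ZSol M σ u x b q →
    VSol M false (M * σ) (fun v => u (v ^ M)) (fun v => x (v ^ M))
      (fun v => b (v ^ M) * (starRingEnd ℂ) (M * v ^ (M - 1)))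
      (fun v => q (v ^ M) * (M * v ^ (M - 1)))

/-- **G2**: the copy `true`, away from `t = 0`. -/
def T_G2 : Prop :=
  ∀ (M : ℕ), 2 ≤ M → ∀ (σ : ℝ) (u : ℂ → ℝ) (x b q : ℂ → ℂ), ZSol M σ u x b q →
    ∀ t : ℂ, t ≠ 0 → t ^ (16 * M) + 1 ≠ 0 →
      VSysAt M true (M * σ) (fun t => u (t ^ M)⁻¹ - Real.log (‖t‖ ^ 2))
        (fun t => x (t ^ M)⁻¹ / t)
        (fun t => -(M * b (t ^ M)⁻¹ * (starRingEnd ℂ) (t ^ M)⁻¹))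
        (fun t => -(M * (t ^ M)⁻¹ * q (t ^ M)⁻¹ + 1) / t) t

/-- **G3**: the copy `true`. -/
def T_G3 : Prop :=
  ∀ (M : ℕ), 5 ≤ M → ∀ (σ : ℝ) (u : ℂ → ℝ) (x b q : ℂ → ℂ), ZSol M σ u x b q →
    ∃ (U : ℂ → ℝ) (X B q' : ℂ → ℂ), VSol M true (M * σ) U X B q' ∧
      ∀ t : ℂ, t ≠ 0 → U t = u (t ^ M)⁻¹ - Real.log (‖t‖ ^ 2) ∧ X t = x (t ^ M)⁻¹ / t

/-- **G4**: the system in the charts of the surface, away from the points `y = 0`. -/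
def T_G4 : Prop :=
  ∀ (M : ℕ) (j : Bool) (s : ℝ) (U : ℂ → ℝ) (X B q : ℂ → ℂ) (D : Set ℂ), IsOpen D →
    ∀ V Y θ : ℂ → ℂ, DifferentiableOn ℂ V D → DifferentiableOn ℂ Y D → DifferentiableOn ℂ θ D →
    (∀ t ∈ D, Y t ^ 4 = V t ^ (16 * M) + 1) → (∀ t ∈ D, deriv V t = θ t * Y t) →
    ∀ t ∈ D, Y t ≠ 0 → VSysAt M j s U X B q (V t) →
      SysAt (fun t => s * (θ t * AA M j (V t))) (fun t => s * (θ t * PP M j (V t)))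
        (fun t => U (V t)) (fun t => X (V t)) (fun t => B (V t) * (starRingEnd ℂ) (deriv V t))
        (fun t => q (V t) * deriv V t) t

/-- **G5**: regularity and Hitchin's equation in the charts of the surface. -/
def T_G5 : Prop :=
  ∀ (M : ℕ), 2 ≤ M → ∀ (j : Bool) (s : ℝ) (U : ℂ → ℝ) (X B q : ℂ → ℂ), VSol M j s U X B q →
    ∀ D : Set ℂ, IsOpen D →
    ∀ V Y θ : ℂ → ℂ, DifferentiableOn ℂ V D → DifferentiableOn ℂ Y D → DifferentiableOn ℂ θ D →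
    (∀ t ∈ D, Y t ^ 4 = V t ^ (16 * M) + 1) → (∀ t ∈ D, deriv V t = θ t * Y t) →
    (∀ t ∈ D, ∀ᶠ t' in 𝓝[≠] t, Y t' ≠ 0) →
    ContDiffOn ℝ ∞ (fun t => U (V t)) D ∧ ContDiffOn ℝ ∞ (fun t => X (V t)) D ∧
    ∀ t ∈ D, mdzb (fun z => (Hm (U (V z)) (X (V z)))⁻¹ * mdz (fun w => Hm (U (V w)) (X (V w))) z) t
      = ((s : ℂ) • (θ t • Nm (AA M j (V t)) (PP M j (V t)))) *
          adj (Hm (U (V t)) (X (V t))) ((s : ℂ) • (θ t • Nm (AA M j (V t)) (PP M j (V t)))) -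
        adj (Hm (U (V t)) (X (V t))) ((s : ℂ) • (θ t • Nm (AA M j (V t)) (PP M j (V t)))) *
          ((s : ℂ) • (θ t • Nm (AA M j (V t)) (PP M j (V t))))

/-- **HMP**: elementary properties of the matrices `Hm`. -/
def T_HMP : Prop :=
  (∀ (U : ℝ) (X : ℂ), (Hm U X).PosDef ∧ (Hm U X).det = 1) ∧
  (∀ (U : ℝ) (X t : ℂ), t ≠ 0 →
    Hm (U - Real.log (‖t‖ ^ 2)) (X / t) =
      (Matrix.diagonal ![t⁻¹, 1, t])ᴴ * Hm U X * Matrix.diagonal ![t⁻¹, 1, t]) ∧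
  (∀ (U : ℝ) (X ψ : ℂ), (Nm 0 ψ * adj (Hm U X) (Nm 0 ψ)).trace =
    ((‖ψ‖ ^ 2 * Real.exp (-2 * U) : ℝ) : ℂ))

/-- **TH**: properties of the form `dv/y`. -/
def T_TH : Prop := ∀ m : ℕ, 3 ≤ m → ∀ inst : ChartedSpace ℂ (SX m), SBasic m →
  @SGood m inst → ∀ e ∈ @atlas ℂ _ (SX m) _ inst, ∀ j : Bool,
    DifferentiableOn ℂ (fun z => th m j e (e.symm z)) (e.target ∩ e.symm ⁻¹' UU m j) ∧
    (∀ e' ∈ @atlas ℂ _ (SX m) _ inst, ∀ x ∈ UU m j ∩ (e.source ∩ e'.source),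
      th m j e x = deriv (e' ∘ e.symm) (e x) * th m j e' x) ∧
    (∀ x ∈ UU m j ∩ e.source, YY m j x ≠ 0 → th m j e x ≠ 0) ∧
    (∀ x ∈ UU m j ∩ e.source,
      deriv (fun z => VV m j (e.symm z)) (e x) = th m j e x * YY m j x) ∧
    (∀ x ∈ (UU m j ∩ UU m (!j)) ∩ e.source,
      th m (!j) e x = -(VV m j x ^ (m - 2)) * th m j e x) ∧
    (∀ z ∈ e.target ∩ e.symm ⁻¹' UU m j, ∀ᶠ z' in 𝓝[≠] z, YY m j (e.symm z') ≠ 0)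

/-! ### The surface -/

/-- **CHA**: near a point with `y ≠ 0` the coordinate `v` is a chart of the affine curve. -/
def T_CHA : Prop := ∀ m : ℕ, 1 ≤ m → ∀ p : Crv m, (p : ℂ × ℂ).2 ≠ 0 →
  ∃ e : OpenPartialHomeomorph (Crv m) ℂ, p ∈ e.source ∧
    (∀ x ∈ e.source, e x = (x : ℂ × ℂ).1 ∧ (x : ℂ × ℂ).2 ≠ 0) ∧
    DifferentiableOn ℂ (fun z => (e.symm z : ℂ × ℂ).2) e.target

/-- **CHB**: near a point with `v ≠ 0` the coordinate `y` is a chart of the affine curve. -/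
def T_CHB : Prop := ∀ m : ℕ, 1 ≤ m → ∀ p : Crv m, (p : ℂ × ℂ).1 ≠ 0 →
  ∃ e : OpenPartialHomeomorph (Crv m) ℂ, p ∈ e.source ∧
    (∀ x ∈ e.source, e x = (x : ℂ × ℂ).2 ∧ (x : ℂ × ℂ).1 ≠ 0) ∧
    DifferentiableOn ℂ (fun z => (e.symm z : ℂ × ℂ).1) e.target

/-- **CONN**: the affine curve is connected. -/
def T_CONN : Prop := ∀ m : ℕ, 1 ≤ m → PreconnectedSpace (Crv m)

/-- **TOP**: the surface is a compact connected Hausdorff space. -/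
def T_TOP : Prop := ∀ m : ℕ, 1 ≤ m → SBasic m →
  T2Space (SX m) ∧ CompactSpace (SX m) ∧ ConnectedSpace (SX m)

/-- **ATL**: the atlas. -/
def T_ATL : Prop := ∀ m : ℕ, 1 ≤ m → SBasic m → ∃ inst : ChartedSpace ℂ (SX m),
  @IsManifold ℂ _ ℂ _ _ ℂ _ 𝓘(ℂ) ω (SX m) _ inst ∧
  (∀ e ∈ @atlas ℂ _ (SX m) _ inst, ∃ j, e.source ⊆ UU m j ∧
    ((∀ x ∈ e.source, e x = VV m j x ∧ YY m j x ≠ 0) ∨
      (∀ x ∈ e.source, e x = YY m j x ∧ VV m j x ≠ 0))) ∧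
  (∀ e ∈ @atlas ℂ _ (SX m) _ inst, ∀ j, DifferentiableOn ℂ (fun z => VV m j (e.symm z))
    (e.target ∩ e.symm ⁻¹' UU m j)) ∧
  (∀ e ∈ @atlas ℂ _ (SX m) _ inst, ∀ j, DifferentiableOn ℂ (fun z => YY m j (e.symm z))
    (e.target ∩ e.symm ⁻¹' UU m j))

/-! ### Stability -/

/-- The subbundle `ker φ` (`r = 1`) or `ker φ²` (`r = 2`): the vectors whose first `3 - r`
components vanish. -/
def FF (r : ℕ) : Submodule ℂ (Fin 3 → ℂ) where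
  carrier := {v | ∀ k : Fin 3, (k : ℕ) + r < 3 → v k = 0}
  add_mem' := by
    intro a b ha hb k hk
    simp [ha k hk, hb k hk]
  zero_mem' := by
    intro k _
    rfl
  smul_mem' := by
    intro c a ha k hk
    simp [ha k hk]

/-- **ST1**: the only invariant subbundles are the two kernels. -/
def T_ST1 : Prop := ∀ M : ℕ, 2 ≤ M → ∀ inst : ChartedSpace ℂ (SX (4 * M)), SBasic (4 * M) →
  @SGood (4 * M) inst → ∀ h : @HBProps M inst, ∀ r : ℕ, 0 < r → r < 3 → ∀ F,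
    @IsHiggsSubbundle 3 (SX (4 * M)) _ inst (@HB M inst h) r F →
    ∀ i, ∀ x ∈ UU (4 * M) i, F i x = FF r

/-- **ST2**: the degree of the two kernels. -/
def T_ST2 : Prop := ∀ M : ℕ, 2 ≤ M → ∀ inst : ChartedSpace ℂ (SX (4 * M)), SBasic (4 * M) →
  @SGood (4 * M) inst → ∀ h : @HBProps M inst, ∀ r : ℕ, 0 < r → r < 3 →
    ∀ F : Bool → SX (4 * M) → Submodule ℂ (Fin 3 → ℂ),
    (∀ i, ∀ x ∈ UU (4 * M) i, F i x = FF r) →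
    @HasDegree 3 (SX (4 * M)) _ inst (@HB M inst h) r F (-4)

end Pool.Agent.Helper614.HE
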