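import Pool.Agent.Helper614.HE.SpecB

/-!
# Specification of the parts about uniqueness of the harmonic metric
-/

set_option autoImplicit false

open scoped Manifold ContDiff Matrix ComplexOrder
open Matrix Topology MeasureTheory Set Filter

namespace Pool.Agent.Helper614.HE

/-- **UN1**: the trace of `K⁻¹ H` is subharmonic for two solutions of Hitchin's equation. -/
def T_UN1 : Prop :=
  ∀ (H K : ℂ → Matrix (Fin 3) (Fin 3) ℂ) (P : Matrix (Fin 3) (Fin 3) ℂ) (z : ℂ),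
    (∀ᶠ w in 𝓝 z, (H w).PosDef ∧ (K w).PosDef) →
    (∀ a b, ContDiffAt ℝ 2 (fun w => H w a b) z ∧ ContDiffAt ℝ 2 (fun w => K w a b) z) →
    mdzb (fun w => (H w)⁻¹ * mdz H w) z = P * adj (H z) P - adj (H z) P * P →
    mdzb (fun w => (K w)⁻¹ * mdz K w) z = P * adj (K z) P - adj (K z) P * P →
    0 ≤ (dzb (dz (fun w => ((K w)⁻¹ * H w).trace)) z).re ∧
    ((dzb (dz (fun w => ((K w)⁻¹ * H w).trace)) z).re = 0 →
      ((K z)⁻¹ * H z) * P = P * ((K z)⁻¹ * H z))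

/-- **UN2**: subharmonic functions on a closed Riemann surface are constant. -/
def T_UN2 : Prop :=
  ∀ (X : Type) (i₁ : TopologicalSpace X) (i₂ : ChartedSpace ℂ X), IsClosedRiemannSurface X →
    ∀ f : X → ℝ, Continuous f →
    (∀ e ∈ atlas ℂ X, ContDiffOn ℝ 2 (fun z => f (e.symm z)) e.target ∧
      ∀ z ∈ e.target, 0 ≤ (dzb (dz (fun z => (f (e.symm z) : ℂ))) z).re) →
    ∀ x y, f x = f y

/-- **UN3**: a positive definite matrix of determinant one which commutes with a regular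
nilpotent is trivial. -/
def T_UN3 : Prop :=
  ∀ (H K : Matrix (Fin 3) (Fin 3) ℂ) (c A ψ : ℂ), H.PosDef → K.PosDef → H.det = 1 → K.det = 1 →
    c * A ≠ 0 → (K⁻¹ * H) * (c • Nm A ψ) = (c • Nm A ψ) * (K⁻¹ * H) → H = K

/-- **UNQ**: uniqueness of the harmonic metric. -/
def T_UNQ : Prop := ∀ M : ℕ, 2 ≤ M → ∀ inst : ChartedSpace ℂ (SX (4 * M)), SBasic (4 * M) →
  @SGood (4 * M) inst → ∀ (h : @HBProps M inst) (s : ℝ), 0 < s →
  ∀ h₁ h₂ : Bool → SX (4 * M) → Matrix (Fin 3) (Fin 3) ℂ,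
    @IsHarmonicMetric 3 (SX (4 * M)) _ inst (@HB M inst h) s h₁ →
    @IsHarmonicMetric 3 (SX (4 * M)) _ inst (@HB M inst h) s h₂ →
    ∀ i, ∀ x ∈ UU (4 * M) i, h₁ i x = h₂ i x

end Pool.Agent.Helper614.HE
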